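import Mathlib
import Pool.Agent.W307.RS.Stm
import Pool.Agent.H474R2.PG.Defs

/-!
# Project PT (helper841): twists by the values of an arbitrary polynomial

All the moments of the order of the 2-Selmer group of the quadratic twists `E^D(t)` of a curve with
full 2-torsion, `D` an arbitrary polynomial with integer coefficients, in short intervals.

Definitions and statements of the parts. Continues the projects RK, RT, RS, SE.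
-/

set_option autoImplicit false

namespace Pool.Agent.TH841.PT

open Finset Polynomial Pool.Agent.W262.RK Pool.Agent.W307.RT Pool.Agent.W307.RS

open Pool.Agent.H474R2.PG (rho)

/-- `∏_{p ∣ d} a p / (p - c)` -/
noncomputable def gp (a : ℕ → ℝ) (c d : ℕ) : ℝ := ∏ p ∈ d.primeFactors, a p / ((p : ℝ) - c)

/-- `∑_{z < p ≤ y} a p / p` -/
noncomputable def Sp (a : ℕ → ℝ) (z y : ℕ) : ℝ := ∑ p ∈ PS z y, a p / (p : ℝ)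

/-- the number of roots modulo `p` is at most `c` and the roots are simple, for `p > z` -/
def GoodD (D : ℤ[X]) (z c : ℕ) : Prop := ∀ p : ℕ, p.Prime → z < p → rho D p ≤ c ∧
  ∀ t : ℤ, (p : ℤ) ∣ D.eval t → ¬ (p : ℤ) ∣ D.derivative.eval t

/-- the primes `p ∣ m` with `(d / p | p) = -1` -/
def ngs (d : ℤ) (m : ℕ) : Finset ℕ := m.primeFactors.filter (fun p => jacobiSym (d / p) p = -1)

/-- `d` is not a square in the field `ℚ[X] / (f)` -/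
def NSq (f : ℤ[X]) (d : ℤ) : Prop :=
  ∀ q : ℚ[X], ¬ (f.map (Int.castRingHom ℚ)) ∣ (q ^ 2 - C (d : ℚ))

/-! ### The sums over tuples of coprime divisors -/

/-- EPG: as `EP`, with general weights: bound for a twisted Euler product. -/
def EPG : Prop := ∀ (b : ℕ → ℝ) (κ : ℤ) (c z : ℕ) (C0 E0 : ℝ), (∀ p, 0 ≤ b p ∧ b p ≤ 1 / 2) →
  2 * c + 2 ≤ z → 0 ≤ E0 →
  (∀ (y r : ℕ) (e : Bool), z < y → 1 < r → Squarefree r → (∀ p : ℕ, p.Prime → p ∣ r → z < p) →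
    ∑ p ∈ PS z y, b p * (Jr p r * Jr κ p * x4 e p) / (p : ℝ) ≤
      1 / 2 * Sp b z y + E0 * Real.log (Real.log r) + C0) →
  ∃ C : ℝ, ∀ (y R r : ℕ) (e : Bool), z < y → R ≠ 0 → 1 < r → Squarefree r →
    (∀ p : ℕ, p.Prime → p ∣ r → z < p) →
    |∑ d ∈ (PP z y).divisors.filter (fun d => d.Coprime R),
        gp b c d * (Jr d r * Jr κ d * x4 e d)| ≤
      C * Real.exp (1 / 2 * Sp b z y) * (Real.log r) ^ E0 * hh R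

/-- FULLG: as `FULL`, with general weights. -/
def FULLG : Prop := ∀ (b : ℕ → ℝ) (c z : ℕ), (∀ p, 0 ≤ b p ∧ b p ≤ 1 / 2) → 2 * c + 2 ≤ z →
  ∃ C : ℝ,
  (∀ y, z < y → ∑ d ∈ (PP z y).divisors, gp b c d * hh d ≤ C * Real.exp (Sp b z y)) ∧
  (∀ y V : ℕ, z < y → 2 ≤ V →
    ∑ d ∈ (PP z y).divisors.filter (fun d => d ≤ V), gp b c d * hh d ≤ C * Real.log V) ∧
  (∀ y Y : ℕ, z < y → 1 ≤ Y →
    ∑ d ∈ (PP z y).divisors.filter (fun d => Y < d), gp b c d * hh d ≤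
      C * Real.exp (-(Real.log Y / Real.log y)) * (Real.log y) ^ 2)

/-- ATG: as `AT`, with general weights: the abstract bound for sums of products of Jacobi symbols
(linked variables). -/
def ATG : Prop := ∀ (ι : Type) [Fintype ι] [DecidableEq ι] (b : ι → ℕ → ℝ) (L : ι → ι → Bool)
  (κ : ι → ℤ) (c z : ℕ) (δ C0 E0 : ℝ) (M : ℕ → ℝ),
  (∀ i p, 0 ≤ b i p ∧ b i p ≤ 1 / 2) → (∀ i, L i i = false) → 2 * c + 2 ≤ z → 0 < δ → 0 ≤ E0 →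
  (∀ i y, z < y → δ * Real.log (Real.log y) ≤ Sp (b i) z y + C0) →
  (∀ y, z < y → ∀ U : Finset ι, (∀ i ∈ U, ∀ j ∈ U, L i j = L j i) →
    ∑ i ∈ U, Sp (b i) z y ≤ M y) →
  (∀ (i : ι) (y r : ℕ) (e : Bool), z < y → 1 < r → Squarefree r →
    (∀ p : ℕ, p.Prime → p ∣ r → z < p) →
    ∑ p ∈ PS z y, b i p * (Jr p r * Jr (κ i) p * x4 e p) / (p : ℝ) ≤
      1 / 2 * Sp (b i) z y + E0 * Real.log (Real.log r) + C0) →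
  ∃ C : ℝ, ∀ y, z < y →
    |∑ d ∈ Tup ι z y, (∏ i, gp (b i) c (d i)) * Sym L κ d| ≤ C * Real.exp (M y)

/-- EXPG: as `EXPK`, with general weights. -/
def EXPG : Prop := ∀ (J : Type) [Fintype J] [DecidableEq J] (k : ℕ)
  (κ : J → Fin 3 → ℤ) (g : J → ℕ → ℝ) (c z y : ℕ), 2 ≤ z → (∀ j k, κ j k ≠ 0) →
  (∀ j k, (κ j k).natAbs ≤ z) →
  ∑ s ∈ Tup J z y, NBK k κ s * ∏ j, gp (g j) c (s j) =
    ∑ d ∈ Tup (IK k J) z y, (∏ i : IK k J, gp (fun p => g i.1.1 p / 4 ^ k) c (d i)) *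
      Sym (LK k) (κK k κ) d

/-! ### The summation of Nair and Tenenbaum -/

/-- RSP: as `RSA`, with general weights. -/
def RSP : Prop := ∀ (J : Type) [Fintype J] [DecidableEq J] (z c : ℕ) (ρ : J → ℕ → ℝ)
  (G : (J → ℕ) → ℝ) (H : ℕ → ℝ) (A lam : ℝ), 2 * c + 2 ≤ z → (∀ j p, 0 ≤ ρ j p ∧ ρ j p ≤ c) →
  1 ≤ A → 0 ≤ lam → (∀ s, 0 ≤ G s) →
  (∀ y, z < y → ∀ s e : J → ℕ, (fun j => s j * e j) ∈ Tup J z y →
    G (fun j => s j * e j) ≤ A ^ (∑ j, (e j).primeFactors.card) * G s) →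
  (∀ y, z < y → ∑ s ∈ Tup J z y, G s * ∏ j, gp (ρ j) c (s j) ≤ H y) →
  ∃ C : ℝ, ∀ y, z < y →
    ∑ s ∈ Tup J z y, G s * (∏ j, gp (ρ j) c (s j)) *
      (∏ j, (s j : ℝ)) ^ (lam / Real.log y) ≤ C * H y

/-- RVP: as `RVA`, with general weights. -/
def RVP : Prop := ∀ (J : Type) [Fintype J] [DecidableEq J] (z c : ℕ) (ρ : J → ℕ → ℝ)
  (A lam : ℝ), 2 * c + 2 ≤ z → (∀ j p, 0 ≤ ρ j p ∧ ρ j p ≤ c) → 1 ≤ A → 0 ≤ lam →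
  ∃ C : ℝ, ∀ y, z < y →
    ∑ v ∈ Tup J z y, (∏ j, A ^ (v j).primeFactors.card * (gp (ρ j) c (v j) / v j)) *
      (∏ j, (v j : ℝ)) ^ (lam / Real.log y) ≤ C

/-- RUP: as `RU`, with a growth constant. -/
def RUP : Prop := ∀ (J : Type) [Fintype J] [DecidableEq J] (A lam : ℝ), 1 ≤ A → 0 ≤ lam →
  ∃ C : ℝ, ∀ y Y : ℕ, 3 ≤ y → Y ≤ (y + 1) ^ 2 →
    ∑ u ∈ Tup J y Y, (∏ j, A ^ (u j).primeFactors.card / (u j : ℝ)) *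
      (∏ j, (u j : ℝ)) ^ (lam / Real.log y) ≤ C

/-- ANTX: as `ANTU`, with abstract weights. -/
def ANTX : Prop := ∀ (J : Type) [Fintype J] [DecidableEq J] (Ω Θ : Type) (T : Θ → Finset Ω)
  (L : Θ → ℕ) (f : Θ → Ω → J → ℤ) (S : Θ → ℝ) (z : ℕ) (H : ℕ → ℝ) (W1 W2 W3 : (J → ℕ) → ℝ)
  (R : Θ → Ω → ℝ) (C D : ℝ) (K y0 : ℕ),
  2 ≤ z → (∀ y, z < y → 0 < H y) → (∀ θ, 1 ≤ L θ) → (∀ θ, 0 ≤ S θ) →
  (∀ X0 : ℕ, ∃ B : ℝ, ∀ θ, L θ ≤ X0 → ∑ ω ∈ T θ, R θ ω ≤ B * S θ) →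
  (∀ θ, ∀ ω ∈ T θ, Gd z (f θ ω)) → (∀ θ ω, 0 ≤ R θ ω) → 0 ≤ C → 1 ≤ D → 1 ≤ K →
  (∀ y, ∀ s ∈ Tup J z y, 0 ≤ W1 s ∧ 0 ≤ W2 s) →
  (∀ y Y, z < y → ∀ u ∈ Tup J y Y, 0 ≤ W3 u) →
  (∀ lam : ℝ, 0 ≤ lam → ∃ A : ℝ, ∀ y, z < y →
    ∑ s ∈ Tup J z y, W1 s * (∏ j, (s j : ℝ)) ^ (lam / Real.log y) ≤ A * H y) →
  (∀ lam : ℝ, 0 ≤ lam → ∃ A : ℝ, ∀ y, z < y →
    ∑ v ∈ Tup J z y, W2 v * (∏ j, (v j : ℝ)) ^ (lam / Real.log y) ≤ A) →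
  (∀ lam : ℝ, 0 ≤ lam → ∃ A : ℝ, ∀ y Y : ℕ, 3 ≤ y → Y ≤ (y + 1) ^ 2 →
    ∑ u ∈ Tup J y Y, W3 u * (∏ j, (u j : ℝ)) ^ (lam / Real.log y) ≤ A) →
  (∀ (θ : Θ) (y Y k : ℕ), y0 ≤ y → z < y → y ^ K ≤ L θ → L θ < (y + 1) ^ k →
    ∀ s ∈ Tup J z y, ∀ v ∈ Tup J z y, ∀ u ∈ Tup J y Y, (∏ j, s j * v j * u j) ^ 8 ≤ L θ →
    ∀ T' : Finset Ω, T' ⊆ T θ → (∀ ω ∈ T', S1 z y (f θ ω) = s ∧ S2 z y (f θ ω) = v ∧
      ∀ j, (u j : ℤ) ∣ f θ ω j) →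
    ∑ ω ∈ T', R θ ω ≤ C * D ^ k * S θ * W1 s * W2 v * W3 u / H y) →
  ∃ C2 : ℝ, ∀ θ, ∑ ω ∈ T θ, R θ ω ≤ C2 * S θ

/-! ### The sieve -/

open Classical in
/-- SVP: upper bound sieve in a residue class, for residue classes `Z p` modulo `p`. -/
def SVP : Prop := ∀ c z : ℕ, 2 * c + 2 ≤ z → ∃ (C : ℝ) (K y0 : ℕ), 0 ≤ C ∧ 1 ≤ K ∧
  ∀ X y : ℕ, y0 ≤ y → z < y → y ^ K ≤ X → ∀ (Z : ℕ → ℕ → Prop) (ν : ℕ → ℕ),
  (∀ p ∈ PS z y, ∀ n, Z p n ↔ Z p (n % p)) →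
  (∀ p ∈ PS z y, ((range p).filter (fun n => Z p n)).card = ν p ∧ ν p ≤ c) →
  ∀ m r : ℕ, 1 ≤ m → m ^ 4 ≤ X →
    (((Icc 1 X).filter (fun t : ℕ => t ≡ r [MOD m] ∧ ∀ p ∈ PS z y, ¬ p ∣ m → ¬ Z p t)).card : ℝ) ≤
      C * (X / m) * Real.exp (-∑ p ∈ (PS z y).filter (fun p => ¬ p ∣ m), (ν p : ℝ) / p)

/-- CNTP: the number of `t` with given small prime factors of `D(N + t)` and given signs. -/
def CNTP : Prop := ∀ c z : ℕ, 2 * c + 2 ≤ z → ∃ (C : ℝ) (K y0 : ℕ), 0 ≤ C ∧ 1 ≤ K ∧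
  ∀ D : ℤ[X], GoodD D z c → ∀ (N : ℤ) (X y Y : ℕ), y0 ≤ y → z < y → y ^ K ≤ X →
  ∀ s v u : ℕ, s ∣ PP z y → v ∣ PP z y → u ∣ PP y Y → (s * v * u) ^ 8 ≤ X → ∀ E : Finset ℕ,
    (((Icc 1 X).filter (fun t : ℕ =>
      S1 z y (fun _ : Unit => D.eval (N + (t : ℤ))) () = s ∧
      S2 z y (fun _ : Unit => D.eval (N + (t : ℤ))) () = v ∧
      (u : ℤ) ∣ D.eval (N + (t : ℤ)) ∧ ngs (D.eval (N + (t : ℤ))) s = E)).card : ℝ) ≤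
      C * X * (1 / 2) ^ s.primeFactors.card * gp (fun p => rho D p) c s *
        (gp (fun p => rho D p) c v / v) * ((c : ℝ) ^ u.primeFactors.card / u) *
        Real.exp (-Sp (fun p => rho D p) z y)

/-! ### The polynomial -/

/-- GDP: all large primes are good. -/
def GDP : Prop := ∀ D : ℤ[X], Squarefree (D.map (Int.castRingHom ℚ)) →
  ∃ z0 : ℕ, ∀ z, z0 ≤ z → GoodD D z D.natDegree

/-- M2: a bound for the number of the homomorphisms of `ℤ[θ, √d]`, `f(θ) = 0`, to the prime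
fields, uniform in `d`. -/
def M2 : Prop := ∀ f : ℤ[X], Irreducible (f.map (Int.castRingHom ℚ)) → ∃ C : ℝ, ∀ d : ℤ, d ≠ 0 →
  NSq f d → ∀ P : ℕ, 2 ≤ P →
    ∑ p ∈ (Icc 1 P).filter Nat.Prime, (rho f p : ℝ) * (1 + Jr d p) * Real.log p / p ≤
      Real.log P + C * (1 + Real.log |(d : ℝ)|)

/-- M3: an integer divisible exactly once by a large prime is not a square in `ℚ[X] / (f)`. -/
def M3 : Prop := ∀ f : ℤ[X], Irreducible (f.map (Int.castRingHom ℚ)) → ∃ B : ℕ, ∀ d : ℤ,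
  (∃ p : ℕ, p.Prime ∧ B < p ∧ (p : ℤ) ∣ d ∧ ¬ (p : ℤ) ^ 2 ∣ d) → NSq f d

/-- LWP: the sum of `ρ(p) / p` tends to infinity. -/
def LWP : Prop := ∀ D : ℤ[X], Squarefree (D.map (Int.castRingHom ℚ)) → 0 < D.natDegree →
  ∀ z : ℕ, ∃ C : ℝ, ∀ y, z < y → Real.log (Real.log y) ≤ Sp (fun p => rho D p) z y + C

/-- TWP: the twisted sums of `ρ(p) / p` are small. -/
def TWP : Prop := ∀ D : ℤ[X], Squarefree (D.map (Int.castRingHom ℚ)) → 0 < D.natDegree →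
  ∀ κ : ℤ, κ ≠ 0 → ∃ (E0 : ℝ) (z0 : ℕ), 0 ≤ E0 ∧ ∀ z, z0 ≤ z → ∃ C : ℝ,
  ∀ (y r : ℕ) (e : Bool), z < y → 1 < r → Squarefree r → (∀ p : ℕ, p.Prime → p ∣ r → z < p) →
    ∑ p ∈ PS z y, (rho D p : ℝ) * (Jr p r * Jr κ p * x4 e p) / (p : ℝ) ≤
      E0 * Real.log (Real.log r) + C

end Pool.Agent.TH841.PT
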