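import Mathlib
import Pool.Agent.TH841.PT.Stm

/-!
# Project PT (helper841): the parts of `M2` and `TWP`
-/

set_option autoImplicit false

namespace Pool.Agent.TH841.PT

open Finset Polynomial Pool.Agent.W262.RK

open Pool.Agent.H474R2.PG (rho)

/-- the pairs of a root of `f` and a square root of `d` modulo `p` -/
def Prs (f : ℤ[X]) (d : ℤ) (p : ℕ) : Finset (ℕ × ℕ) :=
  ((range p) ×ˢ (range p)).filter
    (fun x => (p : ℤ) ∣ f.eval (x.1 : ℤ) ∧ (p : ℤ) ∣ (x.2 : ℤ) ^ 2 - d)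

/-- the value at the pair `(α, β)` of `∑ a_i θ ^ i + w ∑ b_i θ ^ i` -/
def ev {n : ℕ} (a : Fin n ⊕ Fin n → ℤ) (x : ℕ × ℕ) : ℤ :=
  (∑ i : Fin n, a (Sum.inl i) * (x.1 : ℤ) ^ (i : ℕ)) +
    (x.2 : ℤ) * ∑ i : Fin n, a (Sum.inr i) * (x.1 : ℤ) ^ (i : ℕ)

/-- LAD: a determinant and the vectors that the matrix kills modulo `p`. -/
def LAD : Prop := ∀ (m : Type) [Fintype m] [DecidableEq m] (p : ℕ) [Fact p.Prime]
  (T : Matrix m m ℤ) (κ : Type) [Fintype κ] (v : κ → m → ZMod p), LinearIndependent (ZMod p) v →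
  (∀ i, Matrix.vecMul (v i) (T.map (Int.castRingHom (ZMod p))) = 0) →
  (p : ℤ) ^ Fintype.card κ ∣ T.det

/-- M2A: the norm form of `ℤ[θ, √d]`. -/
def M2A : Prop := ∀ f : ℤ[X], f.Monic → Irreducible (f.map (Int.castRingHom ℚ)) →
  ∃ C : ℝ, 1 ≤ C ∧ ∀ d : ℤ, d ≠ 0 → NSq f d →
  ∃ Nm : (Fin f.natDegree ⊕ Fin f.natDegree → ℤ) → ℤ, (∀ a, a ≠ 0 → Nm a ≠ 0) ∧
    (∀ (H : ℕ) (a : Fin f.natDegree ⊕ Fin f.natDegree → ℤ), 1 ≤ H → (∀ i, |a i| ≤ H) →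
      |(Nm a : ℝ)| ≤ C * (|(d : ℝ)| * H) ^ (2 * f.natDegree)) ∧
    ∀ p : ℕ, p.Prime → ∀ a : Fin f.natDegree ⊕ Fin f.natDegree → ℤ,
      (p : ℤ) ^ ((Prs f d p).filter (fun x => (p : ℤ) ∣ ev a x)).card ∣ Nm a

/-- M2M: the bound for the number of the pairs, `f` monic. -/
def M2M : Prop := ∀ f : ℤ[X], f.Monic → Irreducible (f.map (Int.castRingHom ℚ)) →
  ∃ C : ℝ, ∀ d : ℤ, d ≠ 0 → NSq f d → ∀ P : ℕ, 2 ≤ P →
    ∑ p ∈ (Icc 1 P).filter Nat.Prime, ((Prs f d p).card : ℝ) * Real.log p / p ≤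
      Real.log P + C * (1 + Real.log |(d : ℝ)|)

/-- FACT: the number of the roots is the sum over the irreducible factors. -/
def FACT : Prop := ∀ D : ℤ[X], Squarefree (D.map (Int.castRingHom ℚ)) → 0 < D.natDegree →
  ∃ (S : Finset ℤ[X]) (z0 : ℕ), S.Nonempty ∧ (∀ f ∈ S, Irreducible f ∧ 0 < f.natDegree ∧
    Irreducible (f.map (Int.castRingHom ℚ))) ∧
    ∀ p : ℕ, p.Prime → z0 < p → rho D p = ∑ f ∈ S, rho f p

end Pool.Agent.TH841.PT
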