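import Mathlib
import Pool.Agent.TH841.PT.Stm2
import Pool.Agent.W307.RS.Mak

/-!
# Project PT: the main average for the moments
-/

set_option autoImplicit false

namespace Pool.Agent.TH841.PT

open Finset Polynomial Pool.Agent.W262.RK Pool.Agent.W307.RT Pool.Agent.W307.RS

open Pool.Agent.H474R2.PG (rho)

/-- `ρ(p)` for the primes greater than `z` -/
noncomputable def rz (D : ℤ[X]) (z p : ℕ) : ℝ := if z < p then (rho D p : ℝ) else 0

lemma rz_nonneg (D : ℤ[X]) (z p : ℕ) : 0 ≤ rz D z p := by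
  unfold rz
  split_ifs
  · exact Nat.cast_nonneg _
  · exact le_rfl

lemma Sp_rz (D : ℤ[X]) (z y : ℕ) : Sp (rz D z) z y = Sp (fun p => rho D p) z y := by
  unfold Sp rz
  refine sum_congr rfl fun p hp => ?_
  have := (mem_Ioc.1 (mem_filter.1 hp).1).1
  rw [if_pos this]

lemma prime_gt {z y d p : ℕ} (hd : d ∣ PP z y) (hp : p ∈ d.primeFactors) : z < p := by
  have h1 := Nat.prime_of_mem_primeFactors hp
  have h2 := (Nat.dvd_of_mem_primeFactors hp).trans hd
  unfold PP at h2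
  obtain ⟨q, hq, hpq⟩ := (h1.prime.dvd_finsetProd_iff _).1 h2
  have h3 := mem_filter.1 hq
  rw [(Nat.prime_dvd_prime_iff_eq h1 h3.2).1 hpq]
  exact (mem_Ioc.1 h3.1).1

lemma gp_rz (D : ℤ[X]) {z y c d : ℕ} (hd : d ∣ PP z y) :
    gp (rz D z) c d = gp (fun p => rho D p) c d := by
  unfold gp rz
  refine prod_congr rfl fun p hp => ?_
  rw [if_pos (prime_gt hd hp)]

lemma gp_nonneg {a : ℕ → ℝ} (ha : ∀ p, 0 ≤ a p) {c z y d : ℕ} (hz : c ≤ z) (hd : d ∣ PP z y) :
    0 ≤ gp a c d := by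
  unfold gp
  refine prod_nonneg fun p hp => div_nonneg (ha p) ?_
  have h1 := prime_gt hd hp
  have h2 : (c : ℝ) ≤ p := by exact_mod_cast (by omega : c ≤ p)
  linarith

lemma Sp_nonneg {a : ℕ → ℝ} (ha : ∀ p, 0 ≤ a p) (z y : ℕ) : 0 ≤ Sp a z y :=
  sum_nonneg fun p _ => div_nonneg (ha p) (Nat.cast_nonneg p)

/-- `log log r ≥ 0` -/
lemma loglog_nonneg {z r : ℕ} (hz : 2 ≤ z) (hr : 1 < r) (h : ∀ p : ℕ, p.Prime → p ∣ r → z < p) :
    0 ≤ Real.log (Real.log r) := by
  obtain ⟨p, hp, hpr⟩ := Nat.exists_prime_and_dvd (by omega : r ≠ 1)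
  have h1 := h p hp hpr
  have h2 := Nat.le_of_dvd (by omega) hpr
  have h3 : (3 : ℝ) ≤ r := by exact_mod_cast (by omega : 3 ≤ r)
  apply Real.log_nonneg
  rw [Real.le_log_iff_exp_le (by linarith)]
  have := Real.exp_one_lt_d9
  linarith

/-- the average of the moments -/
theorem makp_of (hat : ATG) (hexp : EXPG) (hl : LWP) (ht : TWP) (hgd : GDP) (hco : COMBK)
    (D : ℤ[X]) (hD : Squarefree (D.map (Int.castRingHom ℚ))) (hd : 0 < D.natDegree)
    (c k : ℕ) (hc : D.natDegree ≤ c) (hk : 2 * c ≤ 4 ^ k) (κ : Unit → Fin 3 → ℤ)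
    (hκ : ∀ j i, κ j i ≠ 0) :
    ∃ z0 : ℕ, ∀ z, z0 ≤ z → ∃ C' : ℝ, ∀ y, z < y →
      ∑ s ∈ Tup Unit z y, NBK k κ s * ∏ j, gp (rz D z) c (s j) ≤
        C' * Real.exp (Sp (fun p => rho D p) z y) := by
  obtain ⟨zg, hzg⟩ := hgd D hD
  choose E0 zt hE0 hzt using fun i : IK k Unit => ht D hD hd (κK k κ i) (κK_ne k κ hκ i)
  refine ⟨zg + (2 * c + 2) + univ.sup zt + ∑ j, ∑ i, (κ j i).natAbs, fun z hz => ?_⟩
  have hzt' : ∀ i, zt i ≤ z := fun i => (le_sup (f := zt) (mem_univ i)).trans (by omega)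
  choose Ct hCt using fun i : IK k Unit => hzt i z (hzt' i)
  obtain ⟨Cl, hCl⟩ := hl D hD hd z
  have hG := hzg z (by omega)
  have h4 : (0 : ℝ) < 4 ^ k := by positivity
  have h41 : (1 : ℝ) ≤ 4 ^ k := one_le_pow₀ (by norm_num)
  have hrc : ∀ p, p.Prime → rz D z p ≤ c := by
    intro p hp
    unfold rz
    split_ifs with h
    · exact_mod_cast ((hG p hp h).1.trans hc)
    · exact Nat.cast_nonneg _
  set b : IK k Unit → ℕ → ℝ := fun _ p => if p.Prime then rz D z p / 4 ^ k else 0 with hb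
  have hSb : ∀ i y, Sp (b i) z y = Sp (fun p => rho D p) z y / 4 ^ k := by
    intro i y
    rw [← Sp_rz]
    unfold Sp
    rw [sum_div]
    refine sum_congr rfl fun p hp => ?_
    rw [hb]
    simp only
    rw [if_pos (mem_filter.1 hp).2]
    ring
  have hS0 : ∀ y, 0 ≤ Sp (fun p => rho D p) z y := fun y => Sp_nonneg (fun p => Nat.cast_nonneg _) z y
  have hEs : ∀ i, E0 i ≤ ∑ i, E0 i := fun i =>
    single_le_sum (f := E0) (fun j _ => hE0 j) (mem_univ i)
  have hCs : ∀ i, Ct i ≤ ∑ i, |Ct i| := fun i =>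
    (le_abs_self _).trans (single_le_sum (f := fun i => |Ct i|) (fun j _ => abs_nonneg _) (mem_univ i))
  have hE0s : 0 ≤ ∑ i, E0 i := sum_nonneg fun i _ => hE0 i
  have hC0s : 0 ≤ ∑ i, |Ct i| := sum_nonneg fun i _ => abs_nonneg _
  obtain ⟨C, hC⟩ := hat (IK k Unit) b (LK k) (κK k κ) c z (1 / 4 ^ k)
    (∑ i, |Ct i| + |Cl|) (∑ i, E0 i) (fun y => Sp (fun p => rho D p) z y)
    (by
      intro i p
      rw [hb]
      simp only
      split_ifs with hp
      · refine ⟨div_nonneg (rz_nonneg _ _ _) h4.le, ?_⟩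
        rw [div_le_div_iff₀ h4 (by norm_num)]
        have h1 := hrc p hp
        have h2 : (2 * c : ℝ) ≤ 4 ^ k := by exact_mod_cast hk
        linarith
      · exact ⟨le_rfl, by norm_num⟩)
    (LK_self k) (by omega) (by positivity) hE0s
    (by
      intro i y hy
      rw [hSb i]
      have h1 := hCl y hy
      have h2 : 1 / 4 ^ k * Real.log (Real.log y) ≤
          (Sp (fun p => rho D p) z y + Cl) / 4 ^ k := by
        rw [one_div_mul_eq_div]
        exact div_le_div_of_nonneg_right h1 h4.le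
      have h3 : Cl / 4 ^ k ≤ |Cl| := by
        rw [div_le_iff₀ h4]
        have := le_abs_self Cl
        have := abs_nonneg Cl
        nlinarith
      rw [add_div] at h2
      linarith)
    (by
      intro y hy U hU
      simp only [hSb]
      rw [sum_const, nsmul_eq_mul]
      have h1 := hco Unit k U hU
      rw [Fintype.card_unit, mul_one] at h1
      have h2 : (U.card : ℝ) ≤ 4 ^ k := by exact_mod_cast h1
      rw [← mul_div_assoc, div_le_iff₀ h4, mul_comm]
      exact mul_le_mul_of_nonneg_left h2 (hS0 y))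
    (by
      intro i y r e hy hr hsq hpr
      have h1 := hCt i y r e hy hr hsq hpr
      have hll := loglog_nonneg (by omega : 2 ≤ z) hr hpr
      have h2 : ∑ p ∈ PS z y, b i p * (Jr p r * Jr (κK k κ i) p * x4 e p) / (p : ℝ) =
          (∑ p ∈ PS z y, (rho D p : ℝ) * (Jr p r * Jr (κK k κ i) p * x4 e p) / (p : ℝ)) / 4 ^ k := by
        rw [sum_div]
        refine sum_congr rfl fun p hp => ?_
        have hp' := mem_filter.1 hp
        rw [hb]
        simp only
        rw [if_pos hp'.2]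
        unfold rz
        rw [if_pos (mem_Ioc.1 hp'.1).1]
        ring
      rw [h2, hSb i]
      have h3 : (∑ p ∈ PS z y, (rho D p : ℝ) * (Jr p r * Jr (κK k κ i) p * x4 e p) / (p : ℝ)) ≤
          (∑ i, E0 i) * Real.log (Real.log r) + ∑ i, |Ct i| := by
        have := mul_le_mul_of_nonneg_right (hEs i) hll
        linarith [hCs i]
      have h5 : 0 ≤ (∑ i, E0 i) * Real.log (Real.log r) + ∑ i, |Ct i| := by positivity
      have h6 : (∑ p ∈ PS z y, (rho D p : ℝ) * (Jr p r * Jr (κK k κ i) p * x4 e p) / (p : ℝ)) /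
          4 ^ k ≤ (∑ i, E0 i) * Real.log (Real.log r) + ∑ i, |Ct i| := by
        rw [div_le_iff₀ h4]
        nlinarith
      have h7 : 0 ≤ 1 / 2 * (Sp (fun p => rho D p) z y / 4 ^ k) := by
        have := hS0 y
        positivity
      have h8 := abs_nonneg Cl
      linarith)
  refine ⟨C, fun y hy => ?_⟩
  have hκz : ∀ j i, (κ j i).natAbs ≤ z := by
    intro j i
    have h1 := single_le_sum (f := fun i => (κ j i).natAbs) (fun _ _ => Nat.zero_le _) (mem_univ i)
    have h2 := single_le_sum (f := fun j => ∑ i, (κ j i).natAbs) (fun _ _ => Nat.zero_le _)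
      (mem_univ j)
    omega
  rw [hexp Unit k κ (fun _ => rz D z) c z y (by omega) hκ hκz]
  refine le_trans (le_of_eq ?_) ((le_abs_self _).trans (hC y hy))
  refine sum_congr rfl fun d _ => ?_
  congr 1
  refine prod_congr rfl fun i _ => ?_
  unfold gp
  refine prod_congr rfl fun p hp => ?_
  rw [hb]
  simp only
  rw [if_pos (Nat.prime_of_mem_primeFactors hp)]

end Pool.Agent.TH841.PT
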