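import Mathlib
import Pool.Agent.TH841.PT.Stm2

/-!
# Project PT (helper841): general forms of `ATG` and `CNTP`
-/

set_option autoImplicit false

namespace Pool.Agent.TH841.PT

open Finset Polynomial Pool.Agent.W262.RK Pool.Agent.W307.RT

open Pool.Agent.H474R2.PG (rho)

/-- ATS: as `ATG`, for signed weights `a i` with `|a i p| ≤ b i p`. `ATG` is the case
`a i p = b i p * Jr (κ i) p`. -/
def ATS : Prop := ∀ (ι : Type) [Fintype ι] [DecidableEq ι] (a b : ι → ℕ → ℝ) (L : ι → ι → Bool)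
  (c z : ℕ) (δ C0 E0 : ℝ) (M : ℕ → ℝ),
  (∀ i p, |a i p| ≤ b i p ∧ b i p ≤ 1 / 2) → (∀ i, L i i = false) → 2 * c + 2 ≤ z → 0 < δ →
  0 ≤ E0 →
  (∀ i y, z < y → δ * Real.log (Real.log y) ≤ Sp (b i) z y + C0) →
  (∀ y, z < y → ∀ U : Finset ι, (∀ i ∈ U, ∀ j ∈ U, L i j = L j i) →
    ∑ i ∈ U, Sp (b i) z y ≤ M y) →
  (∀ (i : ι) (y r : ℕ) (e : Bool), z < y → 1 < r → Squarefree r →
    (∀ p : ℕ, p.Prime → p ∣ r → z < p) →
    ∑ p ∈ PS z y, a i p * (Jr p r * x4 e p) / (p : ℝ) ≤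
      1 / 2 * Sp (b i) z y + E0 * Real.log (Real.log r) + C0) →
  ∃ C : ℝ, ∀ y, z < y →
    |∑ d ∈ Tup ι z y, (∏ i, gp (a i) c (d i)) * Sym L (fun _ => 1) d| ≤ C * Real.exp (M y)

/-- the number of the roots of `D` modulo `p` of the type `θ` -/
noncomputable def rhoT {Θ : Type} (D : ℤ[X]) (τ : ℕ → ℤ → Θ) (p : ℕ) (θ : Θ) : ℕ := by
  classical
  exact ((range p).filter (fun a : ℕ => (p : ℤ) ∣ D.eval (a : ℤ) ∧ τ p (a : ℤ) = θ)).card

/-- two polynomials without common roots modulo the primes greater than `z`, and with at most `c`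
roots together -/
def Good2 (D G : ℤ[X]) (z c : ℕ) : Prop := ∀ p : ℕ, p.Prime → z < p → rho D p + rho G p ≤ c ∧
  ∀ t : ℤ, ¬ ((p : ℤ) ∣ D.eval t ∧ (p : ℤ) ∣ G.eval t)

/-- the values `t` with given small prime factors of `D(N + t)`, given types of the roots and given
signs at the primes of `T`, such that `G(N + t)` has no prime factors in `(z, y]` -/
noncomputable def SetG {Θ : Type} (D G : ℤ[X]) (τ : ℕ → ℤ → Θ) (z y : ℕ) (N : ℤ) (X s v u : ℕ)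
    (E : ℕ → Θ) (T E' : Finset ℕ) : Finset ℕ := by
  classical
  exact (Icc 1 X).filter (fun t : ℕ =>
    S1 z y (fun _ : Unit => D.eval (N + (t : ℤ))) () = s ∧
    S2 z y (fun _ : Unit => D.eval (N + (t : ℤ))) () = v ∧
    (u : ℤ) ∣ D.eval (N + (t : ℤ)) ∧
    (∀ p : ℕ, p.Prime → p ∣ s * v * u → τ p (N + (t : ℤ)) = E p) ∧
    (∀ p ∈ T, (jacobiSym (D.eval (N + (t : ℤ)) / p) p = -1 ↔ p ∈ E')) ∧
    ∀ p ∈ PS z y, ¬ (p : ℤ) ∣ G.eval (N + (t : ℤ)))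

/-- CNTG: the general form of `CNTP`, with types of the roots, and with a second polynomial. -/
def CNTG : Prop := ∀ c z : ℕ, 2 * c + 2 ≤ z → ∃ (C : ℝ) (K y0 : ℕ), 0 ≤ C ∧ 1 ≤ K ∧
  ∀ D G : ℤ[X], GoodD D z c → Good2 D G z c → ∀ (Θ : Type) (τ : ℕ → ℤ → Θ),
  (∀ p : ℕ, p.Prime → z < p → ∀ t : ℤ, τ p (t + p) = τ p t) →
  ∀ (N : ℤ) (X y Y : ℕ), y0 ≤ y → z < y → y ^ K ≤ X →
  ∀ s v u : ℕ, s ∣ PP z y → v ∣ PP z y → u ∣ PP y Y → (s * v * u) ^ 8 ≤ X →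
  ∀ (E : ℕ → Θ) (T E' : Finset ℕ), T ⊆ s.primeFactors →
    ((SetG D G τ z y N X s v u E T E').card : ℝ) ≤
      C * X * (1 / 2) ^ T.card *
        (∏ p ∈ s.primeFactors, (rhoT D τ p (E p) : ℝ) / ((p : ℝ) - c)) *
        ((∏ p ∈ v.primeFactors, (rhoT D τ p (E p) : ℝ) / ((p : ℝ) - c)) / v) *
        ((∏ p ∈ u.primeFactors, (rhoT D τ p (E p) : ℝ)) / u) *
        Real.exp (-Sp (fun p => rho D p) z y) * Real.exp (-Sp (fun p => rho G p) z y)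

end Pool.Agent.TH841.PT
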