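import Mathlib
import Pool.Agent.TH841.PT.Stm3
import Pool.Agent.W307.SE.Stm
import Pool.Agent.W262.RK.F4a

/-!
# Project PT (helper841), second half: one-parameter families

`E_t : y² = x (x - A(t)) (x - B(t))`, `A = a 0 ∏ f_j` (classes 0 and 3), `B = a 1 ∏ f_j` (classes 1
and 3), `A - B = a 2 ∏ f_j` (classes 2 and 3), for arbitrary irreducible polynomials `f_j`. The
constants `κ` of project RK are replaced by the values of polynomials, whose quadratic symbols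
modulo `p` depend on the root of `f_j` modulo `p`.
-/

set_option autoImplicit false

namespace Pool.Agent.TH841.PT

open Finset Polynomial Pool.Agent.W262.RK Pool.Agent.W307.RT Pool.Agent.W307.RS
open Pool.Agent.W307.SE

open Pool.Agent.H474R2.PG (rho)

/-! ### The local conditions in terms of bits -/

/-- the local conditions `LL` in terms of the bits `e k` (is `κ k` a nonsquare modulo `p`?) and `m`
(is `-1` a nonsquare modulo `p`?) -/
def LT (c : Fin 4) (e : Fin 3 → Bool) (m neg v w h g : Bool) : Prop :=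
  if c = 0 then v = w ∧ xor h g = (v && e 0)
  else if c = 1 then w = false ∧ g = (v && e 0)
  else if c = 2 then v = false ∧ h = (w && e 0)
  else
    h = xor (v && neg) (xor (v && !w && e 0) (xor (!v && w && xor (e 0) (e 1)) (v && w && e 1))) ∧
    g = xor (w && neg) (xor (v && !w && xor (e 0) (e 2)) (xor (!v && w && xor m (e 0))
      (v && w && xor m (e 2))))

instance (c : Fin 4) (e : Fin 3 → Bool) (m neg v w h g : Bool) :
    Decidable (LT c e m neg v w h g) := by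
  unfold LT
  infer_instance

section

variable {J : Type} [Fintype J] [DecidableEq J]

/-- the local conditions for the tuple `s` -/
def LTs (cls : J → Fin 4) (e : J → Fin 3 → Bool) (s : J → ℕ) (E : Finset ℕ) (p : ℕ)
    (v w h g : Bool) : Prop :=
  ∀ j, p ∣ s j → LT (cls j) (e j) (sg0 p (-1)) (decide (p ∈ E)) v w h g

/-- the average of `NL` over the signs -/
noncomputable def NBT (cls : J → Fin 4) (e : J → Fin 3 → Bool) (s : J → ℕ) : ℝ :=
  (1 / 2) ^ (P3 cls s).card * ∑ E ∈ (P3 cls s).powerset, (NL (∏ j, s j) (LTs cls e s E) : ℝ)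

/-- the bit of the constant `κ4` -/
def bit4 (cls : J → Fin 4) (e : J → Fin 3 → Bool) (i : I4 cls) : Bool :=
  if i.1.2.1 = (false, false) ∨ i.1.2.2 = (false, false) then false
  else if cls i.1.1 = 3 then
    (if i.1.2.1 = (true, false) then xor (e i.1.1 0) (e i.1.1 2)
      else if i.1.2.1 = (false, true) then xor (e i.1.1 0) (e i.1.1 1)
      else xor (e i.1.1 1) (e i.1.1 2))
  else e i.1.1 0

/-- the sign of the constant `κ4` -/
def κm (cls : J → Fin 4) (i : I4 cls) : ℤ :=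
  if i.1.2.1 = (false, false) ∨ i.1.2.2 = (false, false) then 1
  else if cls i.1.1 = 3 then
    (if i.1.2.1 = (true, false) then 1 else if i.1.2.1 = (false, true) then 1 else -1)
  else 1

/-- the integers `κ` for the values `x j` of the polynomials: for the class 3 the value of
`(A_k / f_j)`, for the other classes `± A_{k'}` as in `kap4` -/
def kval (cls : J → Fin 4) (a : Fin 3 → ℤ) (x : J → ℤ) (j : J) (k : Fin 3) : ℤ :=
  if cls j = 3 then a k * ∏ l ∈ (fs cls k).erase j, x l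
  else sg4 (cls j) * (a (cp4 (cls j)) * ∏ l ∈ fs cls (cp4 (cls j)), x l)

/-- the value of `A_k` -/
def Fval (cls : J → Fin 4) (a : Fin 3 → ℤ) (x : J → ℤ) (k : Fin 3) : ℤ :=
  a k * ∏ l ∈ fs cls k, x l

/-- the primes of the class `3` with negative sign -/
def negx (cls : J → Fin 4) (x : J → ℤ) (s : J → ℕ) : Finset ℕ :=
  (P3 cls s).filter (fun p => ∃ j, cls j = 3 ∧ p ∣ s j ∧ jacobiSym (x j / p) p = -1)

end

/-- EXPT: expansion of the average over the signs into symbols, with bits. -/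
def EXPT : Prop := ∀ (J : Type) [Fintype J] [DecidableEq J] (cls : J → Fin 4)
  (e : J → Fin 3 → Bool) (g : J → ℕ → ℝ) (c z y : ℕ), 2 ≤ z →
  ∑ s ∈ Tup J z y, NBT cls e s * ∏ j, gp (g j) c (s j) =
    ∑ d ∈ Tup (I4 cls) z y,
      (∏ i : I4 cls, gp (fun p => w4 cls i * ((if bit4 cls e i then -1 else 1) * g i.1.1 p)) c
        (d i)) * Sym (L4 cls) (κm cls) d

/-- SUBT: growth of `NBT`. -/
def SUBT : Prop := ∀ (J : Type) [Fintype J] [DecidableEq J] (cls : J → Fin 4)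
  (e : J → Fin 3 → Bool) (z y : ℕ), 2 ≤ z →
  ∀ s e' : J → ℕ, (fun j => s j * e' j) ∈ Tup J z y →
    NBT cls e (fun j => s j * e' j) ≤ 4 ^ (∑ j, (e' j).primeFactors.card) * NBT cls e s

/-- MERGE: merging the variables. -/
def MERGE : Prop := ∀ (ι Θ : Type) [Fintype ι] [DecidableEq ι] [Fintype Θ] [DecidableEq Θ]
  (a : ι × Θ → ℕ → ℝ) (c z y : ℕ) (F : (ι → ℕ) → ℝ),
  ∑ d ∈ Tup (ι × Θ) z y, (∏ x, gp (a x) c (d x)) * F (fun i => ∏ θ, d (i, θ)) =
    ∑ d ∈ Tup ι z y, (∏ i, gp (fun p => ∑ θ, a (i, θ) p) c (d i)) * F d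

/-- SELX: the 2-Selmer group and the local count with bits. -/
def SELX : Prop := ∀ (J : Type) [Fintype J] [DecidableEq J] (cls : J → Fin 4) (a : Fin 3 → ℤ)
  (x : J → ℤ) (z y X k B : ℕ), 2 ≤ z → (∀ k, a k ≠ 0) →
  (∀ p : ℕ, p.Prime → z < p → ∀ k, ¬ (p : ℤ) ∣ a k) → Gd z x →
  Fval cls a x 0 - Fval cls a x 1 = Fval cls a x 2 → (∀ j, (x j).natAbs ≤ X ^ B) → 1 ≤ X →
  1 ≤ y → X < (y + 1) ^ k →
    (Sel (Fval cls a x 0) (Fval cls a x 1)).Finite ∧
    (Sel (Fval cls a x 0) (Fval cls a x 1)).ncard ≤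
      4 ^ (z + 2) * ((4 ^ B) ^ Fintype.card J) ^ k *
        4 ^ (∑ j, (S2 z y x j).primeFactors.card) *
        NL (∏ j, S1 z y x j) (fun p v w h g => ∀ j, p ∣ S1 z y x j →
          LT (cls j) (fun k => sg0 p (kval cls a x j k)) (sg0 p (-1))
            (decide (p ∈ negx cls x (S1 z y x))) v w h g)

/-- EPS: as `EPG`, for signed weights. -/
def EPS : Prop := ∀ (a b : ℕ → ℝ) (c z : ℕ) (C0 E0 : ℝ), (∀ p, |a p| ≤ b p ∧ b p ≤ 1 / 2) →
  2 * c + 2 ≤ z → 0 ≤ E0 →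
  (∀ (y r : ℕ) (e : Bool), z < y → 1 < r → Squarefree r → (∀ p : ℕ, p.Prime → p ∣ r → z < p) →
    ∑ p ∈ PS z y, a p * (Jr p r * x4 e p) / (p : ℝ) ≤
      1 / 2 * Sp b z y + E0 * Real.log (Real.log r) + C0) →
  ∃ C : ℝ, ∀ (y R r : ℕ) (e : Bool), z < y → R ≠ 0 → 1 < r → Squarefree r →
    (∀ p : ℕ, p.Prime → p ∣ r → z < p) →
    |∑ d ∈ (PP z y).divisors.filter (fun d => d.Coprime R),
        gp a c d * (Jr d r * x4 e d)| ≤
      C * Real.exp (1 / 2 * Sp b z y) * (Real.log r) ^ E0 * hh R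

/-! ### Symbols of the values at the roots -/

/-- the sum of the symbols of `g` at the roots of `f` modulo `p` -/
noncomputable def rhoc (f g : ℤ[X]) (p : ℕ) : ℝ :=
  ∑ a ∈ (range p).filter (fun a : ℕ => (p : ℤ) ∣ f.eval (a : ℤ)), Jr (g.eval (a : ℤ)) p

/-- `d * g` is not a square in the field `ℚ[X] / (f)` -/
def NSqg (f g : ℤ[X]) (d : ℤ) : Prop :=
  ∀ q : ℚ[X], ¬ (f.map (Int.castRingHom ℚ)) ∣ (q ^ 2 - C (d : ℚ) * g.map (Int.castRingHom ℚ))

/-- the pairs of a root `α` of `f` and a square root of `d g(α)` modulo `p` -/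
def Prg (f g : ℤ[X]) (d : ℤ) (p : ℕ) : Finset (ℕ × ℕ) :=
  ((range p) ×ˢ (range p)).filter
    (fun x => (p : ℤ) ∣ f.eval (x.1 : ℤ) ∧ (p : ℤ) ∣ (x.2 : ℤ) ^ 2 - d * g.eval (x.1 : ℤ))

/-- M2AG: as `M2A`, with a second polynomial. -/
def M2AG : Prop := ∀ f : ℤ[X], f.Monic → Irreducible (f.map (Int.castRingHom ℚ)) →
  ∀ g : ℤ[X], ∃ C : ℝ, 1 ≤ C ∧ ∀ d : ℤ, d ≠ 0 → NSqg f g d →
  ∃ Nm : (Fin f.natDegree ⊕ Fin f.natDegree → ℤ) → ℤ, (∀ a, a ≠ 0 → Nm a ≠ 0) ∧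
    (∀ (H : ℕ) (a : Fin f.natDegree ⊕ Fin f.natDegree → ℤ), 1 ≤ H → (∀ i, |a i| ≤ H) →
      |(Nm a : ℝ)| ≤ C * (|(d : ℝ)| * H) ^ (2 * f.natDegree)) ∧
    ∀ p : ℕ, p.Prime → ∀ a : Fin f.natDegree ⊕ Fin f.natDegree → ℤ,
      (p : ℤ) ^ ((Prg f g d p).filter (fun x => (p : ℤ) ∣ ev a x)).card ∣ Nm a

/-- M2MG: as `M2M`, with a second polynomial. -/
def M2MG : Prop := ∀ f : ℤ[X], f.Monic → Irreducible (f.map (Int.castRingHom ℚ)) →
  ∀ g : ℤ[X], ∃ C : ℝ, ∀ d : ℤ, d ≠ 0 → NSqg f g d → ∀ P : ℕ, 2 ≤ P →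
    ∑ p ∈ (Icc 1 P).filter Nat.Prime, ((Prg f g d p).card : ℝ) * Real.log p / p ≤
      Real.log P + C * (1 + Real.log |(d : ℝ)|)

/-- M2G: as `M2`, with a second polynomial. -/
def M2G : Prop := ∀ f : ℤ[X], Irreducible (f.map (Int.castRingHom ℚ)) → ∀ g : ℤ[X],
  ¬ (f.map (Int.castRingHom ℚ)) ∣ g.map (Int.castRingHom ℚ) → ∃ K : ℝ, ∀ d : ℤ, d ≠ 0 →
  NSqg f g d → ∀ P : ℕ, 2 ≤ P →
    ∑ p ∈ (Icc 1 P).filter Nat.Prime, ((rho f p : ℝ) + rhoc f (C d * g) p) * Real.log p / p ≤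
      Real.log P + K * (1 + Real.log |(d : ℝ)|)

/-- M3G: as `M3`, with a second polynomial. -/
def M3G : Prop := ∀ f : ℤ[X], Irreducible (f.map (Int.castRingHom ℚ)) → ∀ g : ℤ[X],
  ¬ (f.map (Int.castRingHom ℚ)) ∣ g.map (Int.castRingHom ℚ) → ∃ B : ℕ, ∀ d : ℤ,
  (∃ p : ℕ, p.Prime ∧ B < p ∧ (p : ℤ) ∣ d ∧ ¬ (p : ℤ) ^ 2 ∣ d) → NSqg f g d

/-- TWG: as `TWP`, for an irreducible polynomial and the symbols of a second polynomial. -/
def TWG : Prop := ∀ f : ℤ[X], Irreducible f → 0 < f.natDegree → ∀ g : ℤ[X],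
  ¬ (f.map (Int.castRingHom ℚ)) ∣ g.map (Int.castRingHom ℚ) →
  ∃ (E0 : ℝ) (z0 : ℕ), 0 ≤ E0 ∧ ∀ z, z0 ≤ z → ∃ C : ℝ,
  ∀ (y r : ℕ) (e : Bool), z < y → 1 < r → Squarefree r → (∀ p : ℕ, p.Prime → p ∣ r → z < p) →
    ∑ p ∈ PS z y, rhoc f g p * (Jr p r * x4 e p) / (p : ℝ) ≤ E0 * Real.log (Real.log r) + C

end Pool.Agent.TH841.PT
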