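import Mathlib
import Pool.Agent.TH841.PT.Mak
import Pool.Agent.TH841.PT.Stm4
import Pool.Agent.W655.RK.Ep
import Pool.Agent.W405.RK2.RS

/-!
# Project PT: merging the variables in products of symbols, and `ATS` with larger weights
-/

set_option autoImplicit false

namespace Pool.Agent.TH841.PT

open Finset Polynomial Pool.Agent.W262.RK Pool.Agent.W307.RT Pool.Agent.W307.RS

lemma Jr_prod_right {Θ : Type} (s : Finset Θ) (a : ℤ) (d : Θ → ℕ) (hd : ∀ θ ∈ s, d θ ≠ 0) :
    Jr a (∏ θ ∈ s, d θ) = ∏ θ ∈ s, Jr a (d θ) := by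
  classical
  induction s using Finset.induction_on with
  | empty => simp [Jr]
  | insert θ s hθ ih =>
    rw [prod_insert hθ, prod_insert hθ,
      Pool.Agent.W262.RK.Jr_mul_right a (hd θ (mem_insert_self _ _))
        (prod_ne_zero_iff.2 fun x hx => hd x (mem_insert_of_mem hx)),
      ih fun x hx => hd x (mem_insert_of_mem hx)]

lemma Jr_prod_left {Θ : Type} (s : Finset Θ) (d : Θ → ℕ) (n : ℕ) :
    Jr ((∏ θ ∈ s, d θ : ℕ) : ℤ) n = ∏ θ ∈ s, Jr (d θ) n := by
  classical
  induction s using Finset.induction_on with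
  | empty => simp [Jr]
  | insert θ s hθ ih =>
    rw [prod_insert hθ, prod_insert hθ, Pool.Agent.W655.RK.Jr_mul_left, ih]

lemma Tup_ne {ι : Type} [Fintype ι] [DecidableEq ι] {z y : ℕ} {d : ι → ℕ} (hd : d ∈ Tup ι z y)
    (i : ι) : d i ≠ 0 := by
  unfold Tup at hd
  have := Nat.dvd_of_mem_divisors (Fintype.mem_piFinset.1 (mem_filter.1 hd).1 i)
  intro h0
  rw [h0, zero_dvd_iff] at this
  have h2 := Fintype.mem_piFinset.1 (mem_filter.1 hd).1 i
  rw [this] at h2
  simp at h2

/-- merging the variables -/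
lemma Sym_merge {ι Θ : Type} [Fintype ι] [DecidableEq ι] [Fintype Θ] [DecidableEq Θ]
    (L : ι → ι → Bool) (κ : ι → ℤ) (d : ι × Θ → ℕ) (hd : ∀ x, d x ≠ 0) :
    Sym (fun x y : ι × Θ => L x.1 y.1) (fun x => κ x.1) d =
      Sym L κ (fun i => ∏ θ, d (i, θ)) := by
  unfold Pool.Agent.W262.RK.Sym
  congr 1
  · rw [Fintype.prod_prod_type]
    refine prod_congr rfl fun i _ => ?_
    have h1 : ∀ θ, (∏ y : ι × Θ, if L i y.1 = true then Jr (d (i, θ)) (d y) else 1) =
        ∏ j, ∏ θ', if L i j = true then Jr (d (i, θ)) (d (j, θ')) else 1 := by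
      intro θ
      rw [Fintype.prod_prod_type]
    simp only [h1]
    rw [prod_comm]
    refine prod_congr rfl fun j _ => ?_
    by_cases h : L i j = true
    · simp only [h, if_true]
      rw [Jr_prod_right _ _ _ fun θ _ => hd _, prod_comm]
      refine prod_congr rfl fun θ' _ => ?_
      rw [Jr_prod_left]
    · simp [h]
  · rw [Fintype.prod_prod_type]
    refine prod_congr rfl fun i _ => ?_
    rw [Jr_prod_right _ _ _ fun θ _ => hd _]

/-- `ATS` for larger weights -/
theorem atr_of (h : ATS) (hm : MERGE) (R : ℕ) (hR : 1 ≤ R) (ι : Type) [Fintype ι] [DecidableEq ι]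
    (a b : ι → ℕ → ℝ) (L : ι → ι → Bool) (c z : ℕ) (δ C0 E0 : ℝ) (M : ℕ → ℝ)
    (hab : ∀ i p, |a i p| ≤ b i p ∧ b i p ≤ R / 2) (hL : ∀ i, L i i = false) (hz : 2 * c + 2 ≤ z)
    (hδ : 0 < δ) (hE0 : 0 ≤ E0)
    (h1 : ∀ i y, z < y → δ * Real.log (Real.log y) ≤ Sp (b i) z y + C0)
    (h2 : ∀ y, z < y → ∀ U : Finset ι, (∀ i ∈ U, ∀ j ∈ U, L i j = L j i) →
      ∑ i ∈ U, Sp (b i) z y ≤ M y)
    (h3 : ∀ (i : ι) (y r : ℕ) (e : Bool), z < y → 1 < r → Squarefree r →
      (∀ p : ℕ, p.Prime → p ∣ r → z < p) →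
      ∑ p ∈ PS z y, a i p * (Jr p r * x4 e p) / (p : ℝ) ≤
        1 / 2 * Sp (b i) z y + E0 * Real.log (Real.log r) + C0) :
    ∃ C : ℝ, ∀ y, z < y →
      |∑ d ∈ Tup ι z y, (∏ i, gp (a i) c (d i)) * Sym L (fun _ => 1) d| ≤ C * Real.exp (M y) := by
  have hR0 : (0 : ℝ) < R := by exact_mod_cast hR
  have hR1 : (1 : ℝ) ≤ R := by exact_mod_cast hR
  have hb0 : ∀ i p, 0 ≤ b i p := fun i p => (abs_nonneg _).trans (hab i p).1
  have hSp : ∀ i y, Sp (fun p => b i p / R) z y = Sp (b i) z y / R := by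
    intro i y
    unfold Sp
    rw [sum_div]
    exact sum_congr rfl fun p _ => by ring
  have hC0R : C0 / R ≤ |C0| := by
    rw [div_le_iff₀ hR0]
    have := le_abs_self C0
    have := abs_nonneg C0
    nlinarith
  obtain ⟨C, hC⟩ := h (ι × Fin R) (fun x p => a x.1 p / R) (fun x p => b x.1 p / R)
    (fun x y => L x.1 y.1) c z (δ / R) |C0| (E0 / R) M
    (by
      rintro ⟨i, r⟩ p
      refine ⟨?_, ?_⟩
      · simp only
        rw [abs_div, abs_of_pos hR0]
        exact div_le_div_of_nonneg_right (hab i p).1 hR0.le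
      · simp only
        rw [div_le_iff₀ hR0]
        have := (hab i p).2
        linarith)
    (fun x => hL x.1) hz (by positivity) (by positivity)
    (by
      rintro ⟨i, r⟩ y hy
      simp only
      rw [hSp]
      have := div_le_div_of_nonneg_right (h1 i y hy) hR0.le
      rw [add_div] at this
      calc δ / R * Real.log (Real.log y) = δ * Real.log (Real.log y) / R := by ring
        _ ≤ Sp (b i) z y / R + C0 / R := this
        _ ≤ _ := by linarith)
    (by
      intro y hy U hU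
      simp only [hSp]
      have h4 : ∑ x ∈ U, Sp (b x.1) z y / R ≤
          ∑ x ∈ (U.image Prod.fst) ×ˢ (univ : Finset (Fin R)), Sp (b x.1) z y / R := by
        refine sum_le_sum_of_subset_of_nonneg ?_ ?_
        · intro x hx
          rw [mem_product]
          exact ⟨mem_image_of_mem _ hx, mem_univ _⟩
        · intro x _ _
          exact div_nonneg (Sp_nonneg (hb0 _) _ _) hR0.le
      refine h4.trans ?_
      rw [sum_product]
      simp only [sum_const, card_univ, Fintype.card_fin, nsmul_eq_mul]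
      have h5 : ∀ i, (R : ℝ) * (Sp (b i) z y / R) = Sp (b i) z y := by
        intro i
        field_simp
      simp only [h5]
      refine h2 y hy _ ?_
      intro i hi j hj
      obtain ⟨x, hx, rfl⟩ := mem_image.1 hi
      obtain ⟨x', hx', rfl⟩ := mem_image.1 hj
      exact hU x hx x' hx')
    (by
      rintro ⟨i, r⟩ y n e hy hn hsq hpn
      simp only
      rw [hSp]
      have h4 := div_le_div_of_nonneg_right (h3 i y n e hy hn hsq hpn) hR0.le
      rw [sum_div] at h4
      have h5 : ∑ p ∈ PS z y, a i p / R * (Jr p n * x4 e p) / (p : ℝ) =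
          ∑ p ∈ PS z y, a i p * (Jr p n * x4 e p) / (p : ℝ) / R :=
        sum_congr rfl fun p _ => by ring
      rw [h5]
      refine h4.trans ?_
      rw [add_div, add_div]
      have h6 : 1 / 2 * Sp (b i) z y / R = 1 / 2 * (Sp (b i) z y / R) := by ring
      have h7 : E0 * Real.log (Real.log n) / R = E0 / R * Real.log (Real.log n) := by ring
      rw [h6, h7]
      linarith)
  refine ⟨C, fun y hy => ?_⟩
  have h4 := hm ι (Fin R) (fun x p => a x.1 p / R) c z y (fun d => Sym L (fun _ => 1) d)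
  have h5 : ∀ i, (fun p => ∑ _θ : Fin R, a i p / (R : ℝ)) = a i := by
    intro i
    funext p
    rw [sum_const, card_univ, Fintype.card_fin, nsmul_eq_mul]
    field_simp
  simp only [h5] at h4
  rw [← h4]
  refine le_trans (le_of_eq ?_) (hC y hy)
  congr 1
  refine sum_congr rfl fun d hd => ?_
  congr 1
  exact (Sym_merge L (fun _ => 1) d fun x => Tup_ne hd x).symm

end Pool.Agent.TH841.PT
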