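import Mathlib
import Pool.Agent.TH841.PT.SymM

/-!
# Project PT: the expansion of the average over the signs, with the types of the roots
-/

set_option autoImplicit false

namespace Pool.Agent.TH841.PT

open Finset Polynomial Pool.Agent.W262.RK Pool.Agent.W307.RT Pool.Agent.W307.RS

/-- the types of the roots -/
abbrev Ty : Type := Fin 3 → Bool

section

variable {J : Type} [Fintype J] [DecidableEq J]

/-- the classes of the pairs (polynomial, type) -/
def clsI (cls : J → Fin 4) (i : J × Ty) : Fin 4 := cls i.1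

/-- the bits of the pairs (polynomial, type) -/
def eI (i : J × Ty) : Fin 3 → Bool := i.2

/-- the index set of the expansion -/
def e4 (cls : J → Fin 4) : I4 (clsI cls) ≃ I4 cls × Ty where
  toFun i := (⟨(i.1.1.1, i.1.2), i.2⟩, i.1.1.2)
  invFun x := ⟨((x.1.1.1, x.2), x.1.1.2), x.1.2⟩
  left_inv _ := rfl
  right_inv _ := rfl

/-- change of the index set -/
lemma sum_Tup_equiv {ι ι' : Type} [Fintype ι] [DecidableEq ι] [Fintype ι'] [DecidableEq ι']
    (e : ι ≃ ι') (z y : ℕ) (F : (ι → ℕ) → ℝ) :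
    ∑ d ∈ Tup ι z y, F d = ∑ d ∈ Tup ι' z y, F (fun i => d (e i)) := by
  refine sum_bij' (fun d _ => fun x => d (e.symm x)) (fun d _ => fun i => d (e i)) ?_ ?_ ?_ ?_ ?_
  · intro d hd
    unfold Tup at hd ⊢
    rw [mem_filter, Fintype.mem_piFinset] at hd ⊢
    exact ⟨fun i => hd.1 _, fun i j hij => hd.2 _ _ fun h => hij (e.symm.injective h)⟩
  · intro d hd
    unfold Tup at hd ⊢
    rw [mem_filter, Fintype.mem_piFinset] at hd ⊢
    exact ⟨fun i => hd.1 _, fun i j hij => hd.2 _ _ fun h => hij (e.injective h)⟩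
  · intro d _
    simp
  · intro d _
    simp
  · intro d _
    simp

lemma Sym_equiv {ι ι' : Type} [Fintype ι] [DecidableEq ι] [Fintype ι'] [DecidableEq ι']
    (e : ι ≃ ι') (L : ι' → ι' → Bool) (κ : ι' → ℤ) (d : ι' → ℕ) :
    Sym (fun i j => L (e i) (e j)) (fun i => κ (e i)) (fun i => d (e i)) = Sym L κ d := by
  unfold Pool.Agent.W262.RK.Sym
  congr 1
  · rw [← e.prod_comp]
    refine prod_congr rfl fun i _ => ?_
    rw [← e.prod_comp]
  · rw [← e.prod_comp]

/-- absorbing the constants -/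
lemma Sym_const {ι : Type} [Fintype ι] [DecidableEq ι] (L : ι → ι → Bool) (κ : ι → ℤ)
    (a : ι → ℕ → ℝ) (c z y : ℕ) :
    ∑ d ∈ Tup ι z y, (∏ i, gp (a i) c (d i)) * Sym L κ d =
      ∑ d ∈ Tup ι z y, (∏ i, gp (fun p => Jr (κ i) p * a i p) c (d i)) *
        Sym L (fun _ => 1) d := by
  refine sum_congr rfl fun d hd => ?_
  have h1 : ∀ i, gp (fun p => Jr (κ i) p * a i p) c (d i) = gp (a i) c (d i) * Jr (κ i) (d i) := by
    intro i
    have h2 : Squarefree (d i) := (Pool.Agent.W262.RK.PP_squarefree z y).squarefree_of_dvd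
      ((Pool.Agent.W405.RK2.mem_Tup.1 hd).1 i)
    unfold gp
    conv_rhs => rw [← Nat.prod_primeFactors_of_squarefree h2]
    rw [Jr_prod_right _ _ _ fun p hp => (Nat.prime_of_mem_primeFactors hp).ne_zero,
      Nat.prod_primeFactors_of_squarefree h2, ← prod_mul_distrib]
    refine prod_congr rfl fun p _ => ?_
    ring
  simp only [h1]
  unfold Pool.Agent.W262.RK.Sym
  rw [prod_mul_distrib]
  have h3 : ∏ i, Jr ((fun _ : ι => (1 : ℤ)) i) (d i) = 1 := by
    refine prod_eq_one fun i _ => ?_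
    simp [Jr]
  rw [h3]
  ring

/-- **the expansion**, with merged variables -/
theorem expt3 (hexp : EXPT) (hm : MERGE) (cls : J → Fin 4) (g : J × Ty → ℕ → ℝ) (c z y : ℕ)
    (hz : 2 ≤ z) :
    ∑ s ∈ Tup (J × Ty) z y, NBT (clsI cls) eI s * ∏ i, gp (g i) c (s i) =
      ∑ d ∈ Tup (I4 cls) z y, (∏ i : I4 cls, gp (fun p => Jr (κm cls i) p *
        ∑ θ : Ty, w4 cls i * ((if bit4 cls (fun _ => θ) i then -1 else 1) *
          g (i.1.1, θ) p)) c (d i)) * Sym (L4 cls) (fun _ => 1) d := by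
  rw [hexp (J × Ty) (clsI cls) eI g c z y hz, sum_Tup_equiv (e4 cls)]
  rw [← Sym_const (L4 cls) (κm cls) (fun i p => ∑ θ : Ty, w4 cls i *
    ((if bit4 cls (fun _ => θ) i then -1 else 1) * g (i.1.1, θ) p)) c z y]
  rw [← hm (I4 cls) Ty (fun x p => w4 cls x.1 *
    ((if bit4 cls (fun _ => x.2) x.1 then -1 else 1) * g (x.1.1.1, x.2) p)) c z y
    (fun d => Sym (L4 cls) (κm cls) d)]
  refine sum_congr rfl fun d hd => ?_
  rw [← Sym_merge (L4 cls) (κm cls) d fun x => Tup_ne hd x,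
    ← Sym_equiv (e4 cls) (fun x y : I4 cls × Ty => L4 cls x.1 y.1) (fun x => κm cls x.1) d]
  congr 1
  rw [← (e4 cls).prod_comp]
  rfl

end

end Pool.Agent.TH841.PT
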