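import Mathlib
import Pool.Agent.TH841.PT.Types
import Pool.Agent.W762.RK2.EXP4a

/-!
# Project PT: one-parameter families, basic facts
-/

set_option autoImplicit false

namespace Pool.Agent.TH841.PT

open Finset Polynomial Pool.Agent.W262.RK Pool.Agent.W307.RT Pool.Agent.W307.RS

open Pool.Agent.H474R2.PG (rho)

/-- the map to the rational polynomials -/
noncomputable abbrev mQ (f : ℤ[X]) : ℚ[X] := f.map (Int.castRingHom ℚ)

section

variable {J : Type} [Fintype J] [DecidableEq J]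

/-- the polynomials whose values are the constants `kval` -/
noncomputable def kpol (cls : J → Fin 4) (a : Fin 3 → ℤ) (f : J → ℤ[X]) (j : J) (k : Fin 3) :
    ℤ[X] :=
  if cls j = 3 then C (a k) * ∏ l ∈ (fs cls k).erase j, f l
  else C (sg4 (cls j) * a (cp4 (cls j))) * ∏ l ∈ fs cls (cp4 (cls j)), f l

lemma kpol_eval (cls : J → Fin 4) (a : Fin 3 → ℤ) (f : J → ℤ[X]) (j : J) (k : Fin 3) (t : ℤ) :
    (kpol cls a f j k).eval t = kval cls a (fun l => (f l).eval t) j k := by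
  unfold kpol kval
  split_ifs with h
  · rw [eval_mul, eval_C, eval_prod]
  · rw [eval_mul, eval_C, eval_prod, mul_assoc]

/-- the type of `t` for the polynomial `f j` -/
def ty (cls : J → Fin 4) (a : Fin 3 → ℤ) (f : J → ℤ[X]) (p : ℕ) (t : ℤ) (j : J) : Ty :=
  fun k => sg0 p (kval cls a (fun l => (f l).eval t) j k)

/-- the large primes are good -/
structure Gp (a : Fin 3 → ℤ) (f : J → ℤ[X]) (z c : ℕ) : Prop where
  two : 2 * c + 2 ≤ z
  four : 4 ≤ z
  one : 1 ≤ c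
  const : ∀ p : ℕ, p.Prime → z < p → ∀ k, ¬ (p : ℤ) ∣ a k
  pair : ∀ p : ℕ, p.Prime → z < p → ∀ j l, j ≠ l → ∀ t : ℤ,
    ¬ ((p : ℤ) ∣ (f j).eval t ∧ (p : ℤ) ∣ (f l).eval t)
  good : GoodD (∏ j, f j) z c

lemma dvd_prod_iff {p : ℕ} (hp : p.Prime) (s : Finset J) (f : J → ℤ[X]) (t : ℤ) :
    (p : ℤ) ∣ (∏ j ∈ s, f j).eval t ↔ ∃ j ∈ s, (p : ℤ) ∣ (f j).eval t := by
  rw [eval_prod]
  exact Prime.dvd_finsetProd_iff (Nat.prime_iff_prime_int.1 hp) _

lemma kval_ndvd {cls : J → Fin 4} {a : Fin 3 → ℤ} {f : J → ℤ[X]} {z c : ℕ} (h : Gp a f z c)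
    {p : ℕ} (hp : p.Prime) (hz : z < p) {t : ℤ} {j : J} (hj : (p : ℤ) ∣ (f j).eval t)
    (k : Fin 3) : ¬ (p : ℤ) ∣ kval cls a (fun l => (f l).eval t) j k := by
  have hpi := Nat.prime_iff_prime_int.1 hp
  have hl : ∀ l, j ≠ l → ¬ (p : ℤ) ∣ (f l).eval t := fun l hjl h' => h.pair p hp hz j l hjl t ⟨hj, h'⟩
  unfold kval
  split_ifs with h3
  · intro h'
    rcases hpi.dvd_mul.1 h' with h' | h'
    · exact h.const p hp hz _ h'
    · obtain ⟨l, hl1, hl2⟩ := (hpi.dvd_finsetProd_iff _).1 h'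
      exact hl l (mem_erase.1 hl1).1.symm hl2
  · intro h'
    rcases hpi.dvd_mul.1 h' with h' | h'
    · have h4 : sg4 (cls j) = 1 ∨ sg4 (cls j) = -1 := by
        unfold sg4
        split_ifs <;> simp
      rcases h4 with h4 | h4
      · rw [h4] at h'
        exact hpi.not_dvd_one h'
      · rw [h4, dvd_neg] at h'
        exact hpi.not_dvd_one h'
    rcases hpi.dvd_mul.1 h' with h' | h'
    · exact h.const p hp hz _ h'
    · obtain ⟨l, hl1, hl2⟩ := (hpi.dvd_finsetProd_iff _).1 h'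
      exact hl l (ne_of_fs h3 (cp4_ne _ h3) hl1) hl2

/-- the polynomials of the indices -/
noncomputable def gpol (cls : J → Fin 4) (a : Fin 3 → ℤ) (f : J → ℤ[X]) (i : I4 cls) : ℤ[X] :=
  if i.1.2.1 = (false, false) ∨ i.1.2.2 = (false, false) then 1
  else if cls i.1.1 = 3 then
    (if i.1.2.1 = (true, false) then kpol cls a f i.1.1 0 * kpol cls a f i.1.1 2
      else if i.1.2.1 = (false, true) then kpol cls a f i.1.1 0 * kpol cls a f i.1.1 1
      else -(kpol cls a f i.1.1 1 * kpol cls a f i.1.1 2))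
  else kpol cls a f i.1.1 0

lemma Jr_mul_left' (x y : ℤ) (n : ℕ) : Jr (x * y) n = Jr x n * Jr y n := by
  unfold Jr
  rw [jacobiSym.mul_left]
  push_cast
  rfl

lemma sign_xor (x y : Bool) : (if xor x y = true then (-1 : ℝ) else 1) =
    (if x = true then -1 else 1) * (if y = true then -1 else 1) := by
  cases x <;> cases y <;> simp

lemma sign_ty {cls : J → Fin 4} {a : Fin 3 → ℤ} {f : J → ℤ[X]} {z c : ℕ} (h : Gp a f z c)
    {p : ℕ} (hp : p.Prime) (hz : z < p) {t : ℤ} {j : J} (hj : (p : ℤ) ∣ (f j).eval t)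
    (k : Fin 3) : (if ty cls a f p t j k = true then (-1 : ℝ) else 1) =
      Jr ((kpol cls a f j k).eval t) p := by
  rw [kpol_eval]
  exact Pool.Agent.W762.RK2.sg_sg0 hp (kval_ndvd h hp hz hj k)

lemma sign_gpol {cls : J → Fin 4} {a : Fin 3 → ℤ} {f : J → ℤ[X]} {z c : ℕ} (h : Gp a f z c)
    {p : ℕ} (hp : p.Prime) (hz : z < p) {t : ℤ} (i : I4 cls)
    (hj : (p : ℤ) ∣ (f i.1.1).eval t) :
    Jr (κm cls i) p * (if bit4 cls (fun _ => ty cls a f p t i.1.1) i = true then (-1 : ℝ) else 1) =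
      Jr ((gpol cls a f i).eval t) p := by
  have h1 : Jr 1 p = 1 := by simp [Jr]
  have hs := fun k => sign_ty (cls := cls) h hp hz hj k
  unfold κm bit4 gpol
  by_cases c1 : i.1.2.1 = (false, false) ∨ i.1.2.2 = (false, false)
  · rw [if_pos c1, if_pos c1, if_pos c1, eval_one, h1]
    simp
  · rw [if_neg c1, if_neg c1, if_neg c1]
    by_cases c2 : cls i.1.1 = 3
    · rw [if_pos c2, if_pos c2, if_pos c2]
      by_cases c3 : i.1.2.1 = (true, false)
      · rw [if_pos c3, if_pos c3, if_pos c3, eval_mul, Jr_mul_left', sign_xor, hs, hs, h1]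
        ring
      · rw [if_neg c3, if_neg c3, if_neg c3]
        by_cases c4 : i.1.2.1 = (false, true)
        · rw [if_pos c4, if_pos c4, if_pos c4, eval_mul, Jr_mul_left', sign_xor, hs, hs, h1]
          ring
        · have h5 : ∀ x y : ℤ, Jr (-(x * y)) p = Jr (-1) p * (Jr x p * Jr y p) := by
            intro x y
            rw [← neg_one_mul, Jr_mul_left', Jr_mul_left']
          rw [if_neg c4, if_neg c4, if_neg c4, eval_neg, eval_mul, h5, sign_xor, hs, hs]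
    · rw [if_neg c2, if_neg c2, if_neg c2, hs, h1]
      ring

/-! ### divisibility of polynomials -/

/-- irreducible, not constant, and pairwise not associated -/
structure Irr (f : J → ℤ[X]) : Prop where
  irr : ∀ j, Irreducible (f j)
  deg : ∀ j, 0 < (f j).natDegree
  assoc : ∀ j l, j ≠ l → ¬ Associated (f j) (f l)

lemma Irr.prim {f : J → ℤ[X]} (h : Irr f) (j : J) : (f j).IsPrimitive :=
  (h.irr j).isPrimitive (h.deg j).ne'

lemma Irr.irrQ {f : J → ℤ[X]} (h : Irr f) (j : J) : Irreducible (mQ (f j)) :=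
  ((h.prim j).irreducible_iff_irreducible_map_fraction_map (K := ℚ)).1 (h.irr j)

lemma Irr.ndvd {f : J → ℤ[X]} (h : Irr f) {j l : J} (hjl : j ≠ l) : ¬ mQ (f j) ∣ mQ (f l) := by
  intro hd
  have h1 : f j ∣ f l :=
    (IsPrimitive.Int.dvd_iff_map_cast_dvd_map_cast (f j) (f l) (h.prim j)).2 hd
  exact h.assoc j l hjl ((h.irr j).associated_of_dvd (h.irr l) h1)

lemma Irr.sqf {f : J → ℤ[X]} (h : Irr f) : Squarefree (mQ (∏ j, f j)) := by
  unfold mQ
  rw [Polynomial.map_prod]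
  refine Finset.squarefree_prod_of_pairwise_isCoprime ?_ fun j _ => (h.irrQ j).squarefree
  intro j _ l _ hjl
  exact (((h.irrQ j).coprime_iff_not_dvd).2 (h.ndvd hjl)).isRelPrime

lemma Irr.ndvd_prod {f : J → ℤ[X]} (h : Irr f) {j : J} {b : ℤ} (hb : b ≠ 0) {s : Finset J}
    (hs : j ∉ s) : ¬ mQ (f j) ∣ mQ (C b * ∏ l ∈ s, f l) := by
  unfold mQ
  rw [Polynomial.map_mul, Polynomial.map_prod, Polynomial.map_C]
  intro hd
  have hp := (h.irrQ j).prime
  rcases hp.dvd_or_dvd hd with h1 | h1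
  · have h2 : IsUnit (C ((Int.castRingHom ℚ) b) : ℚ[X]) := by
      rw [isUnit_C, isUnit_iff_ne_zero]
      simpa using hb
    exact (h.irrQ j).not_isUnit (isUnit_of_dvd_unit h1 h2)
  · obtain ⟨l, hl, h2⟩ := (hp.dvd_finsetProd_iff _).1 h1
    exact h.ndvd (fun h' => hs (by rw [h']; exact hl)) h2

lemma Irr.ndvd_kpol {f : J → ℤ[X]} (h : Irr f) {cls : J → Fin 4} {a : Fin 3 → ℤ}
    (ha : ∀ k, a k ≠ 0) (j : J) (k : Fin 3) : ¬ mQ (f j) ∣ mQ (kpol cls a f j k) := by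
  unfold kpol
  split_ifs with h3
  · exact h.ndvd_prod (ha _) (by simp)
  · refine h.ndvd_prod (mul_ne_zero (sg4_ne _) (ha _)) ?_
    intro hj
    exact ne_of_fs h3 (cp4_ne _ h3) hj rfl

lemma Irr.ndvd_gpol {f : J → ℤ[X]} (h : Irr f) {cls : J → Fin 4} {a : Fin 3 → ℤ}
    (ha : ∀ k, a k ≠ 0) (i : I4 cls) : ¬ mQ (f i.1.1) ∣ mQ (gpol cls a f i) := by
  have hp := (h.irrQ i.1.1).prime
  have hk := fun k => h.ndvd_kpol (cls := cls) ha i.1.1 k
  have hm : ∀ k l, ¬ mQ (f i.1.1) ∣ mQ (kpol cls a f i.1.1 k * kpol cls a f i.1.1 l) := by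
    intro k l hd
    unfold mQ at hd
    rw [Polynomial.map_mul] at hd
    rcases hp.dvd_or_dvd hd with h1 | h1
    · exact hk _ h1
    · exact hk _ h1
  unfold gpol
  split_ifs with h1 h2 h3 h4
  · unfold mQ
    rw [Polynomial.map_one]
    exact fun hd => (h.irrQ i.1.1).not_isUnit (isUnit_of_dvd_one hd)
  · exact hm _ _
  · exact hm _ _
  · unfold mQ
    rw [Polynomial.map_neg, dvd_neg]
    exact hm _ _
  · exact hk _

/-- the existence of `z` -/
lemma exists_Gp (hgd : GDP) {f : J → ℤ[X]} (h : Irr f) {a : Fin 3 → ℤ} (ha : ∀ k, a k ≠ 0)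
    (c : ℕ) (hc : (∏ j, f j).natDegree + 1 ≤ c) :
    ∃ z0 : ℕ, ∀ z, z0 ≤ z → Gp a f z c := by
  obtain ⟨z1, hz1⟩ := hgd _ h.sqf
  refine ⟨z1 + (2 * c + 2) + 4 + ∑ k, (a k).natAbs, fun z hz => ?_⟩
  have hG : GoodD (∏ j, f j) z c := by
    intro p hp hzp
    obtain ⟨h1, h2⟩ := hz1 z (by omega) p hp hzp
    exact ⟨h1.trans (by omega), h2⟩
  refine ⟨by omega, by omega, by omega, ?_, ?_, hG⟩
  · intro p hp hzp k hk
    have h1 := Nat.le_of_dvd (Int.natAbs_pos.2 (ha k)) (Int.natCast_dvd.1 hk)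
    have h2 := single_le_sum (f := fun k => (a k).natAbs) (fun _ _ => Nat.zero_le _) (mem_univ k)
    omega
  · rintro p hp hzp j l hjl t ⟨h1, h2⟩
    have hpi := Nat.prime_iff_prime_int.1 hp
    refine (hG p hp hzp).2 t ((dvd_prod_iff hp _ _ _).2 ⟨j, mem_univ _, h1⟩) ?_
    rw [derivative_prod_finset, eval_finsetSum]
    refine dvd_sum fun i _ => ?_
    rw [eval_mul]
    refine dvd_mul_of_dvd_left ?_ _
    rw [dvd_prod_iff hp]
    by_cases hij : i = j
    · exact ⟨l, mem_erase.2 ⟨fun h' => hjl (h'.trans hij).symm, mem_univ _⟩, h2⟩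
    · exact ⟨j, mem_erase.2 ⟨fun h' => hij h'.symm, mem_univ _⟩, h1⟩

/-- the number of the roots of the product -/
lemma rho_prod {a : Fin 3 → ℤ} {f : J → ℤ[X]} {z c : ℕ} (h : Gp a f z c) {p : ℕ} (hp : p.Prime)
    (hz : z < p) : rho (∏ j, f j) p = ∑ j, rho (f j) p := by
  unfold rho
  rw [← card_biUnion]
  · congr 1
    ext x
    simp only [mem_filter, mem_biUnion, mem_univ, true_and]
    rw [dvd_prod_iff hp]
    constructor
    · rintro ⟨h1, j, _, h2⟩
      exact ⟨j, h1, h2⟩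
    · rintro ⟨j, h1, h2⟩
      exact ⟨h1, j, mem_univ _, h2⟩
  · intro j _ l _ hjl
    rw [Function.onFun, disjoint_left]
    intro x hx hx'
    exact h.pair p hp hz j l hjl x ⟨(mem_filter.1 hx).2, (mem_filter.1 hx').2⟩

end

end Pool.Agent.TH841.PT
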