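import Mathlib
import Pool.Agent.TH841.PT.Stm2

/-!
# Project PT: the factorization of a squarefree polynomial
-/

set_option autoImplicit false

namespace Pool.Agent.TH841.PT

open Finset Polynomial

open Pool.Agent.H474R2.PG (rho)

/-- a squarefree polynomial is a constant times a product of distinct irreducible polynomials -/
lemma exists_irr (D : ℤ[X]) (hD : Squarefree (D.map (Int.castRingHom ℚ))) :
    ∃ (S : Finset ℤ[X]) (c : ℤ), c ≠ 0 ∧ D = C c * ∏ f ∈ S, f ∧
      ∀ f ∈ S, Irreducible f ∧ 0 < f.natDegree := by
  classical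
  induction h : D.natDegree using Nat.strong_induction_on generalizing D with
  | _ n ih =>
    have hD0 : D ≠ 0 := by
      rintro rfl
      rw [Polynomial.map_zero] at hD
      exact not_squarefree_zero hD
    rcases Nat.eq_zero_or_pos D.natDegree with h0 | hpos
    · have h1 := Polynomial.eq_C_of_natDegree_eq_zero h0
      refine ⟨∅, D.coeff 0, ?_, ?_, by simp⟩
      · intro h2
        apply hD0
        rw [h1, h2, map_zero]
      · rw [prod_empty, mul_one]
        exact h1
    · have hpp : D.primPart.natDegree = D.natDegree := natDegree_primPart D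
      have hnu : ¬ IsUnit D.primPart := by
        intro hu
        have := natDegree_eq_zero_of_isUnit hu
        omega
      obtain ⟨f, hf, hfD⟩ := WfDvdMonoid.exists_irreducible_factor hnu D.primPart_ne_zero
      have hfpos : 0 < f.natDegree := by
        by_contra hcon
        have h1 := Polynomial.eq_C_of_natDegree_eq_zero (by omega : f.natDegree = 0)
        have h2 : IsUnit (f.coeff 0) := by
          apply D.isPrimitive_primPart
          rw [← h1]
          exact hfD
        apply hf.not_isUnit
        rw [h1]
        exact isUnit_C.2 h2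
      obtain ⟨E, hE⟩ := hfD.trans D.primPart_dvd
      have hf0 : f ≠ 0 := hf.ne_zero
      have hE0 : E ≠ 0 := by
        rintro rfl
        rw [mul_zero] at hE
        exact hD0 hE
      have hdeg : E.natDegree < n := by
        rw [← h, hE, natDegree_mul hf0 hE0]
        omega
      have hmap : D.map (Int.castRingHom ℚ) =
          f.map (Int.castRingHom ℚ) * E.map (Int.castRingHom ℚ) := by
        rw [← Polynomial.map_mul, ← hE]
      have hsqE : Squarefree (E.map (Int.castRingHom ℚ)) :=
        hD.squarefree_of_dvd ⟨f.map (Int.castRingHom ℚ), by rw [hmap, mul_comm]⟩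
      obtain ⟨S, c, hc, hEc, hS⟩ := ih E.natDegree hdeg E hsqE rfl
      have hfS : f ∉ S := by
        intro hfS
        have h1 : f ∣ E := by
          rw [hEc]
          exact (dvd_prod_of_mem _ hfS).mul_left _
        have h2 : f.map (Int.castRingHom ℚ) * f.map (Int.castRingHom ℚ) ∣
            D.map (Int.castRingHom ℚ) := by
          rw [hmap]
          exact mul_dvd_mul_left _ (Polynomial.map_dvd _ h1)
        have h3 := natDegree_eq_zero_of_isUnit (hD _ h2)
        rw [natDegree_map_eq_of_injective (RingHom.injective_int (Int.castRingHom ℚ))] at h3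
        omega
      refine ⟨insert f S, c, hc, ?_, ?_⟩
      · rw [prod_insert hfS, hE, hEc]
        ring
      · intro g hg
        rcases mem_insert.1 hg with rfl | hg
        · exact ⟨hf, hfpos⟩
        · exact hS g hg

/-- **FACT** -/
theorem fact8 (hgd : GDP) : FACT := by
  classical
  intro D hD hd
  obtain ⟨S, c, hc, hDc, hS⟩ := exists_irr D hD
  obtain ⟨z1, hz1⟩ := hgd D hD
  refine ⟨S, z1 + c.natAbs, ?_, ?_, ?_⟩
  · rw [nonempty_iff_ne_empty]
    rintro rfl
    rw [hDc, prod_empty, mul_one, natDegree_C] at hd
    omega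
  · intro f hf
    refine ⟨(hS f hf).1, (hS f hf).2, ?_⟩
    exact (((hS f hf).1.isPrimitive (hS f hf).2.ne').irreducible_iff_irreducible_map_fraction_map
      (K := ℚ)).1 (hS f hf).1
  · intro p hp hz
    have hpi := Nat.prime_iff_prime_int.1 hp
    obtain ⟨h1, h2⟩ := hz1 z1 le_rfl p hp (by omega)
    have hpc : ¬ (p : ℤ) ∣ c := by
      intro h3
      have := Nat.le_of_dvd (Int.natAbs_pos.2 hc) (Int.natCast_dvd.1 h3)
      omega
    have hev : ∀ t : ℤ, (p : ℤ) ∣ D.eval t ↔ ∃ f ∈ S, (p : ℤ) ∣ f.eval t := by
      intro t
      rw [hDc, eval_mul, eval_C, eval_prod]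
      constructor
      · intro h3
        rcases hpi.dvd_mul.1 h3 with h3 | h3
        · exact absurd h3 hpc
        · exact (hpi.dvd_finsetProd_iff _).1 h3
      · rintro ⟨f, hf, h3⟩
        exact (h3.trans (dvd_prod_of_mem (fun f => eval t f) hf)).mul_left _
    unfold rho
    rw [← card_biUnion]
    · congr 1
      ext x
      simp only [mem_filter, mem_biUnion]
      rw [hev]
      constructor
      · rintro ⟨h3, f, hf, h4⟩
        exact ⟨f, hf, h3, h4⟩
      · rintro ⟨f, hf, h3, h4⟩
        exact ⟨h3, f, hf, h4⟩
    · intro f hf g hg hfg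
      rw [Function.onFun, disjoint_left]
      intro x hx hx'
      have h3 := (mem_filter.1 hx).2
      have h4 := (mem_filter.1 hx').2
      refine h2 x ((hev x).2 ⟨f, hf, h3⟩) ?_
      rw [hDc, derivative_C_mul, eval_mul, derivative_prod_finset, eval_finsetSum]
      refine dvd_mul_of_dvd_right (dvd_sum fun i _ => ?_) _
      rw [eval_mul]
      refine dvd_mul_of_dvd_left ?_ _
      rw [eval_prod]
      by_cases hif : i = f
      · exact h4.trans (dvd_prod_of_mem (fun f => eval (x : ℤ) f)
          (mem_erase.2 ⟨fun h' => hfg (hif.symm.trans h'.symm), hg⟩))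
      · exact h3.trans (dvd_prod_of_mem (fun f => eval (x : ℤ) f)
          (mem_erase.2 ⟨fun h' => hif h'.symm, hf⟩))

end Pool.Agent.TH841.PT
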