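import Mathlib
import Pool.Agent.TH841.PT.Mak
import Pool.Agent.W307.SE.AvgKG

/-!
# Project PT: the moments over the values of a polynomial in short intervals
-/

set_option autoImplicit false

namespace Pool.Agent.TH841.PT

open Finset Polynomial Pool.Agent.W262.RK Pool.Agent.W307.RT Pool.Agent.W307.RS

open Pool.Agent.H474R2.PG (rho)

open Pool.Agent.W307.SE (R4G)

lemma P3_c3 (s : Unit → ℕ) : P3 (c3 Unit) s = (s ()).primeFactors := by
  unfold P3 c3
  simp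

lemma neg3_eq (d : ℤ) (s : Unit → ℕ) :
    neg3 (c3 Unit) (fun _ => 1) (fun _ => 0) d s = ngs d (s ()) := by
  unfold neg3 ngs
  rw [P3_c3]
  refine filter_congr fun p hp => ?_
  have h1 : ff (fun _ : Unit => (1 : ℤ)) (fun _ => 0) d () = d := by
    unfold ff
    ring
  constructor
  · rintro ⟨j, _, _, h⟩
    have hj : j = () := rfl
    subst hj
    rwa [h1] at h
  · intro h
    exact ⟨(), rfl, Nat.dvd_of_mem_primeFactors hp, by rwa [h1]⟩

lemma rankp {Rf : ℤ → ℤ → ℝ} (h : R4G Rf) (a : Fin 3 → ℤ) (ha : ∀ k, a k ≠ 0)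
    (ha2 : a 0 - a 1 = a 2) (z y X k B : ℕ) (hz : 4 ≤ z) (hza : ∀ k, (a k).natAbs ≤ z) (d : ℤ)
    (hd : d ≠ 0) (hb : d.natAbs ≤ X ^ B) (hX : 1 ≤ X) (hy : 1 ≤ y) (hk : X < (y + 1) ^ k) :
    Rf (a 0 * d) (a 1 * d) ≤ 4 ^ (z + 2) * (4 ^ B) ^ k *
      4 ^ (S2 z y (fun _ : Unit => d) ()).primeFactors.card *
      (NL (S1 z y (fun _ : Unit => d) ()) (LLs (c3 Unit) (fun _ => a) (S1 z y (fun _ : Unit => d))
        (ngs d (S1 z y (fun _ : Unit => d) ()))) : ℝ) := by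
  have hff : ∀ j, ff (fun _ : Unit => (1 : ℤ)) (fun _ => 0) d j = d := by
    intro j
    unfold ff
    ring
  have hs1 : s1 (fun _ : Unit => (1 : ℤ)) (fun _ => 0) z y d = S1 z y (fun _ : Unit => d) := by
    funext j
    unfold s1 S1
    simp only [hff]
  have hs2 : s2 (fun _ : Unit => (1 : ℤ)) (fun _ => 0) z y d = S2 z y (fun _ : Unit => d) := by
    funext j
    unfold s2 S2
    simp only [hff]
  have hF : ∀ k, F4 (c3 Unit) a (fun _ => 1) (fun _ => 0) d k = a k * d := by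
    intro k
    rw [Pool.Agent.W925.RS.F4_c3]
    simp [hff]
  have hkap : kap4 (c3 Unit) a (fun _ => 1) (fun _ => 0) = fun _ => a := by
    funext j k
    unfold kap4
    rw [if_pos (show c3 Unit j = 3 from rfl)]
    have : (fs (c3 Unit) k).erase j = ∅ := by
      ext l
      simp
    rw [this]
    simp
  have hB : Big4 a (fun _ : Unit => (1 : ℤ)) (fun _ => 0) z := by
    refine ⟨⟨by simpa using hz, fun p hp hzp => ⟨fun j hj => ?_, fun j l hjl => ?_⟩⟩,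
      fun p hp hzp k hk => ?_⟩
    · have := Int.le_of_dvd one_pos hj
      have := hp.two_le
      omega
    · exact absurd rfl hjl
    · have h1 := Nat.le_of_dvd (Int.natAbs_pos.2 (ha k)) (Int.natCast_dvd.1 hk)
      have h2 := hza k
      omega
  have hr := h Unit (c3 Unit) a (fun _ => 1) (fun _ => 0) z y X k B hB ha
    (by rw [hkap]; intro _ k; exact ha k) (by rw [hkap]; intro _ k; exact hza k) d
    (by rw [hF, hF, hF, ← ha2]; ring) (by intro j; rw [hff]; exact hd)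
    (by intro j; rw [hff]; exact hb) hX hy hk
  rw [hF, hF, hs1, hs2, hkap, neg3_eq] at hr
  simpa using hr

/-- the size of the values -/
lemma eval_le (D : ℤ[X]) : ∃ K : ℕ, ∀ (x : ℤ) (m : ℕ), 1 ≤ m → x.natAbs ≤ m →
    (D.eval x).natAbs ≤ K * m ^ D.natDegree := by
  refine ⟨∑ i ∈ range (D.natDegree + 1), (D.coeff i).natAbs, fun x m hm hx => ?_⟩
  rw [eval_eq_sum_range, sum_mul]
  refine (Int.natAbs_sum_le _ _).trans (sum_le_sum fun i hi => ?_)
  rw [Int.natAbs_mul, Int.natAbs_pow]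
  refine Nat.mul_le_mul_left _ ?_
  refine (Nat.pow_le_pow_left hx i).trans (Nat.pow_le_pow_right hm ?_)
  have := mem_range.1 hi
  omega

/-- the average of the moments -/
def MAKP : Prop := ∀ D : ℤ[X], Squarefree (D.map (Int.castRingHom ℚ)) → 0 < D.natDegree →
  ∀ c k : ℕ, D.natDegree ≤ c → 2 * c ≤ 4 ^ k → ∀ κ : Unit → Fin 3 → ℤ, (∀ j i, κ j i ≠ 0) →
    ∃ z0 : ℕ, ∀ z, z0 ≤ z → ∃ C' : ℝ, ∀ y, z < y →
      ∑ s ∈ Tup Unit z y, NBK k κ s * ∏ j, gp (rz D z) c (s j) ≤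
        C' * Real.exp (Sp (fun p => rho D p) z y)

lemma Tup_unit {z y : ℕ} {s : Unit → ℕ} (hs : s ∈ Tup Unit z y) : s () ∣ PP z y := by
  unfold Tup at hs
  exact Nat.dvd_of_mem_divisors (Fintype.mem_piFinset.1 (mem_filter.1 hs).1 ())

/-- **the moments of the twists by the values of a polynomial**, large exponents -/
theorem avgp_big {Rf : ℤ → ℤ → ℝ} (hRf : ∀ A B, 0 ≤ Rf A B) (hcnt : CNTP) (hrank : R4G Rf)
    (hant : ANTX) (hrs : RSP) (hrv : RVP) (hru : RUP) (hgd : GDP)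
    (hsub : Pool.Agent.W307.RS.SUBBK) (hma : MAKP) (a : Fin 3 → ℤ) (D : ℤ[X]) (k0 B : ℕ)
    (ha : ∀ k, a k ≠ 0) (ha2 : a 0 - a 1 = a 2) (hD : Squarefree (D.map (Int.castRingHom ℚ)))
    (hd : 0 < D.natDegree) (hk0 : 2 * D.natDegree ≤ 4 ^ k0) :
    ∃ C : ℝ, ∀ (N : ℤ) (X : ℕ), 1 ≤ X → N.natAbs ≤ X ^ B →
      ∑ t ∈ (Icc 1 X).filter (fun t : ℕ => D.eval (N + (t : ℤ)) ≠ 0),
        Rf (a 0 * D.eval (N + (t : ℤ))) (a 1 * D.eval (N + (t : ℤ))) ^ k0 ≤ C * X := by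
  set c := D.natDegree with hc
  obtain ⟨κ, hκdef⟩ : ∃ κ : Unit → Fin 3 → ℤ, κ = fun _ => a := ⟨_, rfl⟩
  have hκ0 : ∀ j k, κ j k ≠ 0 := by
    rw [hκdef]
    exact fun _ => ha
  obtain ⟨z0, hz0⟩ := hma D hD hd c k0 le_rfl hk0 κ hκ0
  obtain ⟨zg, hzg⟩ := hgd D hD
  set z : ℕ := z0 + zg + (2 * c + 2) + 4 + ∑ k, (a k).natAbs with hz
  have hza : ∀ k, (a k).natAbs ≤ z := by
    intro k
    have h2 := single_le_sum (f := fun k => (a k).natAbs) (fun _ _ => Nat.zero_le _) (mem_univ k)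
    omega
  have hκz : ∀ j k, (κ j k).natAbs ≤ z := by
    rw [hκdef]
    exact fun _ => hza
  have hG := hzg z (by omega)
  obtain ⟨C', hC'⟩ := hz0 z (by omega)
  obtain ⟨C, K, y0, hC0, hK1, hcn⟩ := hcnt c z (by omega)
  obtain ⟨Kd, hKd⟩ := eval_le D
  set B' : ℕ := (B + 2) * c + 1 with hB'
  set y1 : ℕ := y0 + Kd + 3 with hy1
  -- the summand
  let r : ℤ → ℝ := fun w => Rf (a 0 * D.eval w) (a 1 * D.eval w) ^ k0
  have hr0 : ∀ w, 0 ≤ r w := fun w => pow_nonneg (hRf _ _) _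
  suffices key : ∃ C2 : ℝ, ∀ θ : {θ : ℤ × ℕ // 1 ≤ θ.2 ∧ θ.1.natAbs ≤ θ.2 ^ B},
      ∑ t ∈ (Icc 1 θ.1.2).filter (fun t : ℕ => D.eval (θ.1.1 + (t : ℤ)) ≠ 0),
        r (θ.1.1 + (t : ℤ)) ≤ C2 * (θ.1.2 : ℝ) by
    obtain ⟨C2, hC2⟩ := key
    exact ⟨C2, fun N X hX hN => hC2 ⟨(N, X), hX, hN⟩⟩
  set G : (Unit → ℕ) → ℝ := NBK k0 κ with hGdef
  have hG0 : ∀ s, 0 ≤ G s := by
    intro s
    rw [hGdef]
    unfold NBK
    exact mul_nonneg (by positivity) (sum_nonneg fun _ _ => pow_nonneg (Nat.cast_nonneg _) _)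
  have hcz : c ≤ z := by omega
  have hrc : ∀ p, p.Prime → rz D z p ≤ c := by
    intro p hp
    unfold rz
    split_ifs with h
    · exact_mod_cast (hG p hp h).1
    · exact Nat.cast_nonneg _
  -- the weights for the primes only
  set w : ℕ → ℝ := fun p => if p.Prime then rz D z p else 0 with hw
  have hw0 : ∀ p, 0 ≤ w p := by
    intro p
    rw [hw]
    simp only
    split_ifs
    · exact rz_nonneg _ _ _
    · exact le_rfl
  have hwc : ∀ p, w p ≤ c := by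
    intro p
    rw [hw]
    simp only
    split_ifs with h
    · exact hrc p h
    · exact Nat.cast_nonneg _
  have hgw : ∀ d, gp w c d = gp (rz D z) c d := by
    intro d
    unfold gp
    refine prod_congr rfl fun p hp => ?_
    rw [hw]
    simp only
    rw [if_pos (Nat.prime_of_mem_primeFactors hp)]
  have hgwn : ∀ {y d : ℕ}, d ∣ PP z y → 0 ≤ gp w c d := fun hd => gp_nonneg hw0 hcz hd
  have hc1 : 1 ≤ c := hd
  refine hant Unit ℕ {θ : ℤ × ℕ // 1 ≤ θ.2 ∧ θ.1.natAbs ≤ θ.2 ^ B}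
    (fun θ => (Icc 1 θ.1.2).filter (fun t : ℕ => D.eval (θ.1.1 + (t : ℤ)) ≠ 0))
    (fun θ => θ.1.2) (fun θ t _ => D.eval (θ.1.1 + (t : ℤ))) (fun θ => (θ.1.2 : ℝ)) z
    (fun y => Real.exp (Sp (fun p => rho D p) z y))
    (fun s => G s * ∏ j, gp w c (s j))
    (fun v => ∏ j, (((4 : ℝ) ^ k0) ^ (v j).primeFactors.card * (gp w c (v j) / v j)))
    (fun u => ∏ j, ((c : ℝ) ^ (u j).primeFactors.card / (u j : ℝ)))
    (fun θ t => r (θ.1.1 + (t : ℤ)))
    (C * (4 ^ (z + 2)) ^ k0) ((4 ^ B') ^ k0) K y1 (by omega) (fun y _ => Real.exp_pos _)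
    (fun θ => θ.2.1) (fun θ => Nat.cast_nonneg _) (fun X0 => ?_) (fun θ t ht => ?_)
    (fun θ t => hr0 _) (by positivity) (one_le_pow₀ (one_le_pow₀ (by norm_num))) hK1
    (fun y s hs => ⟨?_, ?_⟩) (fun y Y _ u hu => ?_) (fun lam hlam => ?_)
    (fun lam hlam => ?_) (fun lam hlam => ?_) ?_
  · -- small scales
    refine ⟨∑ N ∈ Icc (-((X0 : ℤ) ^ B)) ((X0 : ℤ) ^ B), ∑ t ∈ Icc 1 X0, r (N + (t : ℤ)), ?_⟩
    rintro ⟨⟨N, X⟩, hX, hN⟩ hle
    simp only at hX hN hle ⊢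
    have hX0 : X ^ B ≤ X0 ^ B := Nat.pow_le_pow_left hle B
    have hmem : N ∈ Icc (-((X0 : ℤ) ^ B)) ((X0 : ℤ) ^ B) := by
      rw [mem_Icc]
      have h1 : (N.natAbs : ℤ) ≤ (X0 : ℤ) ^ B := by exact_mod_cast hN.trans hX0
      omega
    have h1 : ∑ t ∈ (Icc 1 X).filter (fun t : ℕ => D.eval (N + (t : ℤ)) ≠ 0),
        r (N + (t : ℤ)) ≤ ∑ t ∈ Icc 1 X0, r (N + (t : ℤ)) := by
      refine sum_le_sum_of_subset_of_nonneg ?_ fun t _ _ => hr0 _
      exact (filter_subset _ _).trans (Icc_subset_Icc_right hle)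
    have h2 : ∑ t ∈ Icc 1 X0, r (N + (t : ℤ)) ≤
        ∑ N ∈ Icc (-((X0 : ℤ) ^ B)) ((X0 : ℤ) ^ B), ∑ t ∈ Icc 1 X0, r (N + (t : ℤ)) :=
      single_le_sum (f := fun N : ℤ => ∑ t ∈ Icc 1 X0, r (N + (t : ℤ)))
        (fun _ _ => sum_nonneg fun _ _ => hr0 _) hmem
    have h3 : 0 ≤ ∑ N ∈ Icc (-((X0 : ℤ) ^ B)) ((X0 : ℤ) ^ B), ∑ t ∈ Icc 1 X0, r (N + (t : ℤ)) :=
      sum_nonneg fun _ _ => sum_nonneg fun _ _ => hr0 _
    have h4 : (1 : ℝ) ≤ (X : ℝ) := by exact_mod_cast hX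
    exact (h1.trans h2).trans (le_mul_of_one_le_right h3 h4)
  · -- good values
    refine ⟨fun _ => (mem_filter.1 ht).2, fun p hp hzp j l hjl _ => absurd rfl hjl⟩
  · exact mul_nonneg (hG0 s) (prod_nonneg fun j _ => hgwn (Tup_unit hs))
  · exact prod_nonneg fun j _ => mul_nonneg (by positivity)
      (div_nonneg (hgwn (Tup_unit hs)) (Nat.cast_nonneg _))
  · exact prod_nonneg fun j _ => by positivity
  · -- the first sum
    obtain ⟨A, hA⟩ := hrs Unit z c (fun _ => w) G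
      (fun y => C' * Real.exp (Sp (fun p => rho D p) z y)) (4 ^ k0) lam (by omega)
      (fun _ p => ⟨hw0 p, hwc p⟩) (one_le_pow₀ (by norm_num)) hlam hG0
      (fun y hy s e hse => hsub Unit k0 κ z y (by omega) hκ0 hκz s e hse)
      (fun y hy => by
        simp only [hgw]
        exact hC' y hy)
    refine ⟨A * C', fun y hy => ?_⟩
    have := hA y hy
    rw [mul_assoc]
    exact this
  · exact hrv Unit z c (fun _ => w) (4 ^ k0) lam (by omega)
      (fun _ p => ⟨hw0 p, hwc p⟩) (one_le_pow₀ (by norm_num)) hlam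
  · exact hru Unit (c : ℝ) lam (by exact_mod_cast hc1) hlam
  -- the local majorant
  rintro ⟨⟨N, X⟩, hX1, hN⟩ y Y k hy0 hzy hyK hk s hs v hv u hu h8 T' hT' hval
  simp only at hX1 hN hyK hk h8 hT' hval ⊢
  have hy00 : y0 ≤ y := by omega
  have hyX : y ≤ X := le_trans (Nat.le_self_pow (by omega) y) hyK
  set g : Finset ℕ → ℝ := fun E => (NL (∏ j, s j) (LLs (c3 Unit) κ s E) : ℝ) ^ k0 with hg
  have hg0 : ∀ E, 0 ≤ g E := fun E => pow_nonneg (Nat.cast_nonneg _) _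
  have hPs : ∏ j, s j = s () := by simp
  have h1 : ∀ t ∈ T', r (N + (t : ℤ)) ≤
      (4 ^ (z + 2)) ^ k0 * ((4 ^ B') ^ k0) ^ k *
        (4 ^ k0) ^ (v ()).primeFactors.card * g (ngs (D.eval (N + (t : ℤ))) (s ())) := by
    intro t ht
    have htT := hT' ht
    rw [mem_filter] at htT
    obtain ⟨ht1, ht0⟩ := htT
    obtain ⟨hts, htv, _⟩ := hval t ht
    have hsize : (D.eval (N + (t : ℤ))).natAbs ≤ X ^ B' := by
      have e2 : t ≤ X := (mem_Icc.1 ht1).2
      have e5 : X ^ B ≤ X ^ (B + 1) := Nat.pow_le_pow_right hX1 (by omega)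
      have e6 : X ≤ X ^ (B + 1) := Nat.le_self_pow (by omega) X
      have e7 : 1 ≤ X ^ (B + 1) := Nat.one_le_pow _ _ hX1
      have e8 : (N + (t : ℤ)).natAbs ≤ X ^ (B + 2) := by
        calc (N + (t : ℤ)).natAbs ≤ N.natAbs + t :=
              (Int.natAbs_add_le _ _).trans (by rw [Int.natAbs_natCast])
          _ ≤ X ^ (B + 1) + X ^ (B + 1) := Nat.add_le_add (hN.trans e5) (e2.trans e6)
          _ = 2 * X ^ (B + 1) := by ring
          _ ≤ X * X ^ (B + 1) := Nat.mul_le_mul_right _ (by omega)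
          _ = X ^ (B + 2) := by ring
      calc (D.eval (N + (t : ℤ))).natAbs ≤ Kd * (X ^ (B + 2)) ^ c :=
            hKd _ _ (Nat.one_le_pow _ _ hX1) e8
        _ ≤ X * (X ^ (B + 2)) ^ c := Nat.mul_le_mul_right _ (by omega)
        _ = X ^ B' := by rw [hB', ← pow_mul]; ring
    have hr := rankp hrank a ha ha2 z y X k B' (by omega) hza _ ht0 hsize hX1 (by omega) hk
    have es1 : S1 z y (fun _ : Unit => D.eval (N + (t : ℤ))) = s := hts
    have es2 : S2 z y (fun _ : Unit => D.eval (N + (t : ℤ))) = v := htv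
    rw [es1, es2] at hr
    refine (pow_le_pow_left₀ (hRf _ _) hr k0).trans (le_of_eq ?_)
    rw [hg, hκdef]
    simp only [mul_pow, hPs]
    rw [← pow_mul 4 (v ()).primeFactors.card k0, ← pow_mul 4 k0, mul_comm k0,
      ← pow_mul (4 ^ B') k k0, ← pow_mul (4 ^ B') k0 k, mul_comm k k0]
  have hneg : ∀ t ∈ T', ngs (D.eval (N + (t : ℤ))) (s ()) ∈ (s ()).primeFactors.powerset := by
    intro t _
    rw [mem_powerset]
    exact filter_subset _ _
  have h2 : ∑ t ∈ T', g (ngs (D.eval (N + (t : ℤ))) (s ())) =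
      ∑ E ∈ (s ()).primeFactors.powerset,
        ((T'.filter (fun t : ℕ => ngs (D.eval (N + (t : ℤ))) (s ()) = E)).card : ℝ) * g E := by
    rw [← sum_fiberwise_of_maps_to hneg]
    refine sum_congr rfl fun E _ => ?_
    rw [← nsmul_eq_mul, ← sum_const]
    refine sum_congr rfl fun t ht => ?_
    rw [(mem_filter.1 ht).2]
  set Q : ℝ := C * X * (1 / 2) ^ (s ()).primeFactors.card * gp (fun p => rho D p) c (s ()) *
        (gp (fun p => rho D p) c (v ()) / v ()) * ((c : ℝ) ^ (u ()).primeFactors.card / u ()) *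
        Real.exp (-Sp (fun p => rho D p) z y) with hQ
  have h8' : (s () * v () * u ()) ^ 8 ≤ X := by simpa using h8
  have h3 : ∀ E ∈ (s ()).primeFactors.powerset,
      ((T'.filter (fun t : ℕ => ngs (D.eval (N + (t : ℤ))) (s ()) = E)).card : ℝ) * g E ≤
        Q * g E := by
    intro E _
    refine mul_le_mul_of_nonneg_right ?_ (hg0 E)
    refine le_trans ?_ (hcn D hG N X y Y hy00 hzy hyK (s ()) (v ()) (u ()) (Tup_unit hs)
      (Tup_unit hv) (Tup_unit hu) h8' E)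
    have h4 : T'.filter (fun t : ℕ => ngs (D.eval (N + (t : ℤ))) (s ()) = E) ⊆
        (Icc 1 X).filter (fun t : ℕ =>
          S1 z y (fun _ : Unit => D.eval (N + (t : ℤ))) () = s () ∧
          S2 z y (fun _ : Unit => D.eval (N + (t : ℤ))) () = v () ∧
          ((u () : ℕ) : ℤ) ∣ D.eval (N + (t : ℤ)) ∧ ngs (D.eval (N + (t : ℤ))) (s ()) = E) := by
      intro t ht
      rw [mem_filter] at ht
      rw [mem_filter]
      obtain ⟨ht', htE⟩ := ht
      obtain ⟨hts, htv, htu⟩ := hval t ht'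
      exact ⟨(mem_filter.1 (hT' ht')).1, congrFun hts (), congrFun htv (), htu (), htE⟩
    exact_mod_cast card_le_card h4
  calc ∑ t ∈ T', r (N + (t : ℤ))
      ≤ ∑ t ∈ T', (4 ^ (z + 2)) ^ k0 * ((4 ^ B') ^ k0) ^ k *
        (4 ^ k0) ^ (v ()).primeFactors.card * g (ngs (D.eval (N + (t : ℤ))) (s ())) :=
        sum_le_sum h1
    _ = (4 ^ (z + 2)) ^ k0 * ((4 ^ B') ^ k0) ^ k * (4 ^ k0) ^ (v ()).primeFactors.card *
          ∑ E ∈ (s ()).primeFactors.powerset,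
            ((T'.filter (fun t : ℕ => ngs (D.eval (N + (t : ℤ))) (s ()) = E)).card : ℝ) * g E := by
        rw [← mul_sum, h2]
    _ ≤ (4 ^ (z + 2)) ^ k0 * ((4 ^ B') ^ k0) ^ k * (4 ^ k0) ^ (v ()).primeFactors.card *
          ∑ E ∈ (s ()).primeFactors.powerset, Q * g E :=
        mul_le_mul_of_nonneg_left (sum_le_sum h3) (by positivity)
    _ = _ := by
        have e1 : G s = (1 / 2) ^ (s ()).primeFactors.card *
            ∑ E ∈ (s ()).primeFactors.powerset, g E := by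
          rw [hGdef]
          unfold NBK
          rw [P3_c3]
        have e3 : gp w c (s ()) = gp (fun p => rho D p) c (s ()) := by
          rw [hgw, gp_rz D (Tup_unit hs)]
        have e4 : gp w c (v ()) = gp (fun p => rho D p) c (v ()) := by
          rw [hgw, gp_rz D (Tup_unit hv)]
        have e5 : ∀ F : Unit → ℝ, ∏ j, F j = F () := fun F => by simp
        rw [← mul_sum, e5, e5, e5, e1, e3, e4, hQ, Real.exp_neg]
        ring

end Pool.Agent.TH841.PT
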