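import Mathlib
import Pool.Agent.TH841.PT.Bas3
import Pool.Agent.H474R2.GE.FA
import Pool.Agent.W125.RK2.COMB4

/-!
# Project PT: one-parameter families, the main average
-/

set_option autoImplicit false

namespace Pool.Agent.TH841.PT

open Finset Polynomial Pool.Agent.W262.RK Pool.Agent.W307.RT Pool.Agent.W307.RS

open Pool.Agent.H474R2.PG (rho)

/-- the theorem of Mertens for the roots of a polynomial -/
lemma mert {f : ℤ[X]} (hf : Irreducible f) (hd : 0 < f.natDegree) {z : ℕ} (hz : 3 ≤ z) :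
    ∃ C : ℝ, 0 ≤ C ∧ ∀ y, z < y → |Sp (fun p => rho f p) z y - Real.log (Real.log y)| ≤ C := by
  obtain ⟨C, hC0, hC⟩ := Pool.Agent.H474R2.GE.mertens_rho f hf hd
  set A : ℝ := ∑ p ∈ (Icc 1 z).filter Nat.Prime, (rho f p : ℝ) / (p : ℝ) with hA
  have hA0 : 0 ≤ A := sum_nonneg fun p _ => by positivity
  refine ⟨C + A, by positivity, fun y hy => ?_⟩
  have h1 := hC y (by exact_mod_cast (by omega : 3 ≤ y))
  have h2 : Pool.Agent.H474R2.PG.Sg (rho f) (y : ℝ) = A + Sp (fun p => rho f p) z y := by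
    unfold Pool.Agent.H474R2.PG.Sg Sp
    have h3 : Pool.Agent.H474R2.PG.PR (y : ℝ) = (Icc 1 z).filter Nat.Prime ∪ PS z y := by
      ext p
      unfold Pool.Agent.H474R2.PG.PR PS
      rw [Nat.floor_natCast, mem_filter, mem_union, mem_filter, mem_filter, mem_Icc, mem_Icc,
        mem_Ioc]
      constructor
      · rintro ⟨⟨h3, h4⟩, h5⟩
        by_cases h6 : p ≤ z
        · exact Or.inl ⟨⟨h3, h6⟩, h5⟩
        · exact Or.inr ⟨⟨by omega, h4⟩, h5⟩
      · rintro (⟨⟨h3, h4⟩, h5⟩ | ⟨⟨h3, h4⟩, h5⟩)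
        · exact ⟨⟨h3, by omega⟩, h5⟩
        · exact ⟨⟨by omega, h4⟩, h5⟩
    rw [h3, sum_union]
    rw [disjoint_left]
    intro p hp hp'
    unfold PS at hp'
    rw [mem_filter, mem_Icc] at hp
    rw [mem_filter, mem_Ioc] at hp'
    omega
  rw [h2, abs_le] at h1
  rw [abs_le]
  constructor <;> linarith [h1.1, h1.2]

section

variable {J : Type} [Fintype J] [DecidableEq J]

/-- the number of the roots of a given type -/
noncomputable def rT (cls : J → Fin 4) (a : Fin 3 → ℤ) (f : J → ℤ[X]) (z : ℕ) (i : J × Ty)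
    (p : ℕ) : ℝ :=
  if p.Prime ∧ z < p then (((range p).filter (fun x : ℕ => (p : ℤ) ∣ (f i.1).eval (x : ℤ) ∧
    ty cls a f p x i.1 = i.2)).card : ℝ) else 0

lemma rT_nonneg (cls : J → Fin 4) (a : Fin 3 → ℤ) (f : J → ℤ[X]) (z : ℕ) (i : J × Ty) (p : ℕ) :
    0 ≤ rT cls a f z i p := by
  unfold rT
  split_ifs
  · exact Nat.cast_nonneg _
  · exact le_rfl

lemma rho_le_prod {a : Fin 3 → ℤ} {f : J → ℤ[X]} {z c : ℕ} (h : Gp a f z c) {p : ℕ}
    (hp : p.Prime) (hz : z < p) (j : J) : rho (f j) p ≤ c := by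
  have h1 := (h.good p hp hz).1
  rw [rho_prod h hp hz] at h1
  exact (single_le_sum (f := fun j => rho (f j) p) (fun _ _ => Nat.zero_le _) (mem_univ j)).trans h1

lemma rT_le {cls : J → Fin 4} {a : Fin 3 → ℤ} {f : J → ℤ[X]} {z c : ℕ} (h : Gp a f z c)
    (i : J × Ty) (p : ℕ) : rT cls a f z i p ≤ c := by
  unfold rT
  split_ifs with h1
  · have h2 := rho_le_prod h h1.1 h1.2 i.1
    have h3 : ((range p).filter (fun x : ℕ => (p : ℤ) ∣ (f i.1).eval (x : ℤ) ∧
        ty cls a f p x i.1 = i.2)).card ≤ rho (f i.1) p := by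
      unfold rho
      refine card_le_card fun x hx => ?_
      rw [mem_filter] at hx ⊢
      exact ⟨hx.1, hx.2.1⟩
    exact_mod_cast h3.trans h2
  · exact Nat.cast_nonneg _

/-- the weights with signs -/
noncomputable def aw (cls : J → Fin 4) (a : Fin 3 → ℤ) (f : J → ℤ[X]) (z : ℕ) (i : I4 cls)
    (p : ℕ) : ℝ :=
  if p.Prime ∧ z < p then w4 cls i * rhoc (f i.1.1) (gpol cls a f i) p else 0

/-- the weights -/
noncomputable def bw (cls : J → Fin 4) (f : J → ℤ[X]) (z : ℕ) (i : I4 cls) (p : ℕ) : ℝ :=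
  if p.Prime ∧ z < p then w4 cls i * rho (f i.1.1) p else 0

lemma w4_pos (cls : J → Fin 4) (i : I4 cls) : 0 < w4 cls i := by
  unfold w4
  split_ifs <;> norm_num

lemma w4_le (cls : J → Fin 4) (i : I4 cls) : w4 cls i ≤ 1 := by
  unfold w4
  split_ifs <;> norm_num

lemma rhoc_abs (f g : ℤ[X]) (p : ℕ) : |rhoc f g p| ≤ rho f p := by
  unfold rhoc rho
  refine (abs_sum_le_sum_abs _ _).trans ?_
  refine (sum_le_sum fun x _ => Pool.Agent.W655.RK.Jr_abs _ _).trans ?_
  simp

lemma aw_abs (cls : J → Fin 4) (a : Fin 3 → ℤ) (f : J → ℤ[X]) (z : ℕ) (i : I4 cls) (p : ℕ) :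
    |aw cls a f z i p| ≤ bw cls f z i p := by
  unfold aw bw
  split_ifs
  · rw [abs_mul, abs_of_pos (w4_pos cls i)]
    exact mul_le_mul_of_nonneg_left (rhoc_abs _ _ _) (w4_pos cls i).le
  · simp

lemma sum_types {cls : J → Fin 4} {a : Fin 3 → ℤ} {f : J → ℤ[X]} {z c : ℕ} (h : Gp a f z c)
    (i : I4 cls) (p : ℕ) :
    Jr (κm cls i) p * ∑ θ : Ty, w4 cls i * ((if bit4 cls (fun _ => θ) i then -1 else 1) *
      rT cls a f z (i.1.1, θ) p) = aw cls a f z i p := by
  unfold aw
  by_cases h1 : p.Prime ∧ z < p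
  · rw [if_pos h1]
    unfold rT rhoc
    simp only [if_pos h1]
    rw [← mul_sum, mul_left_comm]
    congr 1
    have h2 : ∀ θ : Ty, (if bit4 cls (fun _ => θ) i = true then (-1 : ℝ) else 1) *
        (((range p).filter (fun x : ℕ => (p : ℤ) ∣ (f i.1.1).eval (x : ℤ) ∧
          ty cls a f p x i.1.1 = θ)).card : ℝ) =
        ∑ x ∈ ((range p).filter (fun x : ℕ => (p : ℤ) ∣ (f i.1.1).eval (x : ℤ))).filter
          (fun x : ℕ => ty cls a f p x i.1.1 = θ),
          (if bit4 cls (fun _ => ty cls a f p x i.1.1) i = true then (-1 : ℝ) else 1) := by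
      intro θ
      rw [filter_filter]
      rw [sum_congr rfl (g := fun _ => (if bit4 cls (fun _ => θ) i = true then (-1 : ℝ) else 1))
        (fun x hx => by rw [(mem_filter.1 hx).2.2])]
      rw [sum_const, nsmul_eq_mul, mul_comm]
    simp only [h2]
    rw [sum_fiberwise, mul_sum]
    refine sum_congr rfl fun x hx => ?_
    exact sign_gpol h h1.1 h1.2 i (mem_filter.1 hx).2
  · rw [if_neg h1]
    unfold rT
    simp [if_neg h1]

/-- **the main average for one-parameter families** -/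
theorem mak3 (hats : ATS) (hmer : MERGE) (hexp : EXPT) (htw : TWG) (hgd : GDP)
    (cls : J → Fin 4) (a : Fin 3 → ℤ) (f : J → ℤ[X]) (n : ℕ) (ha : ∀ k, a k ≠ 0) (hf : Irr f)
    (hn : ∀ k, k ≠ 3 → (univ.filter (fun j => cls j = k)).card = n)
    (c : ℕ) (hc : (∏ j, f j).natDegree + 1 ≤ c) :
    ∃ z0 : ℕ, ∀ z, z0 ≤ z → Gp a f z c ∧ ∃ C : ℝ, ∀ y, z < y →
      ∑ s ∈ Tup (J × Ty) z y, NBT (clsI cls) eI s *
        ∏ i, gp (rT cls a f z i) c (s i) ≤
        C * Real.exp (Sp (fun p => rho (∏ j, f j) p) z y) := by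
  obtain ⟨zg, hzg⟩ := exists_Gp hgd hf ha c hc
  choose E0 zt hE0 hzt using fun i : I4 cls =>
    htw (f i.1.1) (hf.irr _) (hf.deg _) (gpol cls a f i) (hf.ndvd_gpol ha i)
  refine ⟨zg + univ.sup zt, fun z hz => ⟨hzg z (by omega), ?_⟩⟩
  have hG := hzg z (by omega)
  have hzt' : ∀ i, zt i ≤ z := fun i => (le_sup (f := zt) (mem_univ i)).trans (by omega)
  choose Ct hCt using fun i : I4 cls => hzt i z (hzt' i)
  have hz4 := hG.four
  choose Cm hCm0 hCm using fun j : J => mert (hf.irr j) (hf.deg j) (z := z) (by omega)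
  set Cs : ℝ := ∑ j, Cm j with hCs
  have hCs' : ∀ j, Cm j ≤ Cs := fun j => single_le_sum (f := Cm) (fun j _ => hCm0 j) (mem_univ j)
  have hCs0 : 0 ≤ Cs := sum_nonneg fun j _ => hCm0 j
  have hEs : ∀ i, E0 i ≤ ∑ i, E0 i := fun i =>
    single_le_sum (f := E0) (fun j _ => hE0 j) (mem_univ i)
  have hCts : ∀ i, |Ct i| ≤ ∑ i, |Ct i| := fun i =>
    single_le_sum (f := fun i => |Ct i|) (fun j _ => abs_nonneg _) (mem_univ i)
  have hE0s : 0 ≤ ∑ i, E0 i := sum_nonneg fun i _ => hE0 i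
  have hC0s : 0 ≤ ∑ i, |Ct i| := sum_nonneg fun i _ => abs_nonneg _
  have hll : ∀ y, z < y → 0 ≤ Real.log (Real.log y) := by
    intro y hy
    have h3 : (3 : ℝ) ≤ y := by exact_mod_cast (by omega : 3 ≤ y)
    apply Real.log_nonneg
    rw [Real.le_log_iff_exp_le (by linarith)]
    have := Real.exp_one_lt_d9
    linarith
  have hSb : ∀ i y, Sp (bw cls f z i) z y = w4 cls i * Sp (fun p => rho (f i.1.1) p) z y := by
    intro i y
    unfold Sp
    rw [mul_sum]
    refine sum_congr rfl fun p hp => ?_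
    have hp' := mem_filter.1 hp
    unfold bw
    rw [if_pos ⟨hp'.2, (mem_Ioc.1 hp'.1).1⟩]
    ring
  have hSl : ∀ j y, z < y → Sp (fun p => rho (f j) p) z y ≤ Real.log (Real.log y) + Cs ∧
      Real.log (Real.log y) - Cs ≤ Sp (fun p => rho (f j) p) z y := by
    intro j y hy
    have h1 := abs_le.1 (hCm j y hy)
    have h2 := hCs' j
    constructor <;> linarith [h1.1, h1.2]
  obtain ⟨C, hC⟩ := atr_of hats hmer (2 * c) (by omega) (I4 cls) (aw cls a f z) (bw cls f z)
    (L4 cls) c z (1 / 4) (∑ i, |Ct i| + Cs) (∑ i, E0 i)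
    (fun y => ∑ j, Sp (fun p => rho (f j) p) z y + 2 * (Fintype.card J * Cs))
    (by
      intro i p
      refine ⟨aw_abs _ _ _ _ _ _, ?_⟩
      unfold bw
      split_ifs with h1
      · have h2 : (rho (f i.1.1) p : ℝ) ≤ c := by
          exact_mod_cast rho_le_prod hG h1.1 h1.2 i.1.1
        have h3 := w4_le cls i
        have h4 := (w4_pos cls i).le
        have h5 : (0 : ℝ) ≤ rho (f i.1.1) p := Nat.cast_nonneg _
        push_cast
        nlinarith
      · positivity)
    (by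
      intro i
      have h := i.2
      unfold L4
      revert h
      unfold Al ec
      generalize i.1.2.1 = v
      generalize i.1.2.2 = x
      generalize cls i.1.1 = q
      revert q v x
      decide)
    hG.two (by norm_num) hE0s
    (by
      intro i y hy
      rw [hSb i]
      have h1 := (hSl i.1.1 y hy).2
      have h2 : (1 : ℝ) / 4 ≤ w4 cls i := by
        unfold w4
        split_ifs <;> norm_num
      have h3 := w4_le cls i
      have h4 := hll y hy
      have h5 : w4 cls i * (Real.log (Real.log y) - Cs) ≤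
          w4 cls i * Sp (fun p => rho (f i.1.1) p) z y :=
        mul_le_mul_of_nonneg_left h1 (w4_pos cls i).le
      nlinarith)
    (by
      intro y hy U hU
      simp only [hSb]
      have h1 := Pool.Agent.W125.RK2.comb4 J cls n hn U hU
      have h2 : ∑ i ∈ U, w4 cls i * Sp (fun p => rho (f i.1.1) p) z y ≤
          ∑ i ∈ U, w4 cls i * (Real.log (Real.log y) + Cs) :=
        sum_le_sum fun i _ => mul_le_mul_of_nonneg_left (hSl i.1.1 y hy).1 (w4_pos cls i).le
      have h3 : ∑ j : J, (Real.log (Real.log y) - Cs) ≤ ∑ j, Sp (fun p => rho (f j) p) z y :=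
        sum_le_sum fun j _ => (hSl j y hy).2
      rw [← sum_mul] at h2
      rw [sum_const, nsmul_eq_mul, card_univ] at h3
      have h4 : (∑ i ∈ U, w4 cls i) * (Real.log (Real.log y) + Cs) ≤
          Fintype.card J * (Real.log (Real.log y) + Cs) :=
        mul_le_mul_of_nonneg_right h1 (by have := hll y hy; positivity)
      linarith)
    (by
      intro i y r e hy hr hsq hpr
      have h1 := hCt i y r e hy hr hsq hpr
      have hlr := loglog_nonneg (by omega : 2 ≤ z) hr hpr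
      have h2 : ∑ p ∈ PS z y, aw cls a f z i p * (Jr p r * x4 e p) / (p : ℝ) =
          w4 cls i * ∑ p ∈ PS z y, rhoc (f i.1.1) (gpol cls a f i) p *
            (Jr p r * x4 e p) / (p : ℝ) := by
        rw [mul_sum]
        refine sum_congr rfl fun p hp => ?_
        have hp' := mem_filter.1 hp
        unfold aw
        rw [if_pos ⟨hp'.2, (mem_Ioc.1 hp'.1).1⟩]
        ring
      rw [h2, hSb i]
      have h3 : ∑ p ∈ PS z y, rhoc (f i.1.1) (gpol cls a f i) p * (Jr p r * x4 e p) / (p : ℝ) ≤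
          (∑ i, E0 i) * Real.log (Real.log r) + ∑ i, |Ct i| := by
        have := mul_le_mul_of_nonneg_right (hEs i) hlr
        linarith [hCts i, le_abs_self (Ct i)]
      have h5 : 0 ≤ (∑ i, E0 i) * Real.log (Real.log r) + ∑ i, |Ct i| := by positivity
      have h6 : w4 cls i * ∑ p ∈ PS z y, rhoc (f i.1.1) (gpol cls a f i) p *
            (Jr p r * x4 e p) / (p : ℝ) ≤ (∑ i, E0 i) * Real.log (Real.log r) + ∑ i, |Ct i| := by
        have h7 := mul_le_mul_of_nonneg_left h3 (w4_pos cls i).le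
        have h8 := mul_le_mul_of_nonneg_right (w4_le cls i) h5
        linarith
      have h7 : 0 ≤ 1 / 2 * (w4 cls i * Sp (fun p => rho (f i.1.1) p) z y) := by
        have := w4_pos cls i
        have := Sp_nonneg (a := fun p => (rho (f i.1.1) p : ℝ)) (fun p => Nat.cast_nonneg _) z y
        positivity
      linarith)
  refine ⟨C * Real.exp (2 * (Fintype.card J * Cs)), fun y hy => ?_⟩
  have h1 := expt3 hexp hmer cls (rT cls a f z) c z y (by omega)
  simp only [sum_types hG] at h1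
  rw [h1]
  have h2 := hC y hy
  have h3 : ∑ j, Sp (fun p => rho (f j) p) z y = Sp (fun p => rho (∏ j, f j) p) z y := by
    unfold Sp
    rw [sum_comm]
    refine sum_congr rfl fun p hp => ?_
    have hp' := mem_filter.1 hp
    beta_reduce
    rw [rho_prod hG hp'.2 (mem_Ioc.1 hp'.1).1, ← sum_div]
    push_cast
    rfl
  rw [h3, Real.exp_add] at h2
  calc _ ≤ _ := le_abs_self _
    _ ≤ _ := h2
    _ = _ := by ring

end

end Pool.Agent.TH841.PT
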