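import Mathlib
import Pool.Agent.TH841.PT.Bas3

/-!
# Project PT: the parts of the values according to the types of the primes
-/

set_option autoImplicit false

namespace Pool.Agent.TH841.PT

open Finset Polynomial Pool.Agent.W262.RK Pool.Agent.W307.RT Pool.Agent.W307.RS

open Pool.Agent.H474R2.PG (rho)

/-- the part of `n` composed of the primes with the property `P` -/
def partN (n : ℕ) (P : ℕ → Prop) [DecidablePred P] : ℕ :=
  ∏ p ∈ n.primeFactors.filter P, p ^ n.factorization p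

lemma partN_ne (n : ℕ) (P : ℕ → Prop) [DecidablePred P] : partN n P ≠ 0 := by
  unfold partN
  refine prod_ne_zero_iff.2 fun p hp => pow_ne_zero _ ?_
  exact (Nat.prime_of_mem_primeFactors (mem_filter.1 hp).1).ne_zero

lemma partN_of {n : ℕ} {P : ℕ → Prop} [DecidablePred P] {p : ℕ} (hp : p.Prime)
    (h : p ∣ partN n P) : P p := by
  unfold partN at h
  obtain ⟨q, hq, hpq⟩ := (hp.prime.dvd_finsetProd_iff _).1 h
  have hq' := mem_filter.1 hq
  have h1 := (Nat.prime_dvd_prime_iff_eq hp (Nat.prime_of_mem_primeFactors hq'.1)).1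
    (hp.dvd_of_dvd_pow hpq)
  rw [h1]
  exact hq'.2

lemma partN_mul {n : ℕ} (hn : n ≠ 0) (P : ℕ → Prop) [DecidablePred P] :
    partN n P * partN n (fun p => ¬ P p) = n := by
  unfold partN
  rw [prod_filter_mul_prod_filter_not]
  exact Nat.prod_factorization_pow_eq_self hn

lemma partN_pow {n : ℕ} (hn : n ≠ 0) {P : ℕ → Prop} [DecidablePred P] {p : ℕ} (hp : p.Prime)
    (h : P p) (k : ℕ) : p ^ k ∣ partN n P ↔ p ^ k ∣ n := by
  constructor
  · intro h1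
    rw [← partN_mul hn P]
    exact h1.mul_right _
  · intro h1
    rw [← partN_mul hn P] at h1
    refine Nat.Coprime.dvd_of_dvd_mul_right ?_ h1
    refine Nat.Coprime.pow_left _ ((hp.coprime_iff_not_dvd).2 fun h2 => ?_)
    exact partN_of hp h2 h

section

variable {J : Type} [Fintype J] [DecidableEq J]

/-- the part of `f_j(t)` composed of the primes `p > z` of the type `θ` -/
def prt (cls : J → Fin 4) (a : Fin 3 → ℤ) (f : J → ℤ[X]) (z : ℕ) (t : ℤ) (i : J × Ty) : ℤ :=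
  (partN ((f i.1).eval t).natAbs (fun p => z < p ∧ ty cls a f p t i.1 = i.2) : ℕ)

lemma prt_pow {cls : J → Fin 4} {a : Fin 3 → ℤ} {f : J → ℤ[X]} {z : ℕ} {t : ℤ}
    (h0 : ∀ j, (f j).eval t ≠ 0) (i : J × Ty) {p : ℕ} (hp : p.Prime) (hz : z < p) {k : ℕ}
    (hk : k ≠ 0) : (p : ℤ) ^ k ∣ prt cls a f z t i ↔
      (p : ℤ) ^ k ∣ (f i.1).eval t ∧ ty cls a f p t i.1 = i.2 := by
  have h1 : ∀ x : ℤ, (p : ℤ) ^ k ∣ x ↔ p ^ k ∣ x.natAbs := by
    intro x
    rw [← Int.natCast_dvd]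
    push_cast
    rfl
  unfold prt
  rw [h1, h1, Int.natAbs_natCast]
  by_cases hty : ty cls a f p t i.1 = i.2
  · rw [partN_pow (Int.natAbs_ne_zero.2 (h0 _)) hp ⟨hz, hty⟩]
    simp [hty]
  · constructor
    · intro h2
      exact absurd (partN_of hp ((dvd_pow_self p hk).trans h2)).2 hty
    · intro h2
      exact absurd h2.2 hty

lemma prt_dvd {cls : J → Fin 4} {a : Fin 3 → ℤ} {f : J → ℤ[X]} {z : ℕ} {t : ℤ}
    (h0 : ∀ j, (f j).eval t ≠ 0) (i : J × Ty) {p : ℕ} (hp : p.Prime) (hz : z < p) :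
    (p : ℤ) ∣ prt cls a f z t i ↔ (p : ℤ) ∣ (f i.1).eval t ∧ ty cls a f p t i.1 = i.2 := by
  have := prt_pow (cls := cls) (a := a) h0 i hp hz one_ne_zero
  rwa [pow_one] at this

lemma prt_dvd_self {cls : J → Fin 4} {a : Fin 3 → ℤ} {f : J → ℤ[X]} {z : ℕ} {t : ℤ}
    (h0 : ∀ j, (f j).eval t ≠ 0) (i : J × Ty) : prt cls a f z t i ∣ (f i.1).eval t := by
  unfold prt
  rw [Int.natCast_dvd]
  conv_rhs => rw [← partN_mul (Int.natAbs_ne_zero.2 (h0 i.1))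
    (fun p => z < p ∧ ty cls a f p t i.1 = i.2)]
  exact Dvd.intro _ rfl

lemma prt_Gd {cls : J → Fin 4} {a : Fin 3 → ℤ} {f : J → ℤ[X]} {z c : ℕ} (h : Gp a f z c) {t : ℤ}
    (h0 : ∀ j, (f j).eval t ≠ 0) : Gd z (prt cls a f z t) := by
  refine ⟨fun i => ?_, fun p hp hz i i' hii' => ?_⟩
  · unfold prt
    exact_mod_cast partN_ne _ _
  · rintro ⟨h1, h2⟩
    rw [prt_dvd h0 i hp hz] at h1
    rw [prt_dvd h0 i' hp hz] at h2
    by_cases hj : i.1 = i'.1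
    · apply hii'
      refine Prod.ext hj ?_
      rw [← h1.2, ← h2.2, hj]
    · exact h.pair p hp hz _ _ hj t ⟨h1.1, h2.1⟩

lemma mem_PS' {z y p : ℕ} : p ∈ PS z y ↔ (z < p ∧ p ≤ y) ∧ p.Prime := by
  unfold PS
  rw [mem_filter, mem_Ioc]

lemma S1_prod {cls : J → Fin 4} {a : Fin 3 → ℤ} {f : J → ℤ[X]} {z : ℕ} {t : ℤ}
    (h0 : ∀ j, (f j).eval t ≠ 0) (y : ℕ) (j : J) :
    ∏ θ : Ty, S1 z y (prt cls a f z t) (j, θ) = S1 z y (fun l => (f l).eval t) j := by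
  unfold S1
  rw [← prod_fiberwise (s := (PS z y).filter (fun p : ℕ => (p : ℤ) ∣ (f j).eval t ∧
    ¬ (p : ℤ) ^ 2 ∣ (f j).eval t)) (g := fun p => ty cls a f p t j)]
  refine prod_congr rfl fun θ _ => ?_
  refine prod_congr ?_ fun _ _ => rfl
  ext p
  rw [mem_filter, mem_filter, mem_filter]
  constructor
  · rintro ⟨h1, h2, h3⟩
    have h4 := mem_PS'.1 h1
    rw [prt_dvd h0 _ h4.2 h4.1.1] at h2
    rw [prt_pow h0 _ h4.2 h4.1.1 two_ne_zero] at h3
    exact ⟨⟨h1, h2.1, fun h5 => h3 ⟨h5, h2.2⟩⟩, h2.2⟩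
  · rintro ⟨⟨h1, h2, h3⟩, h5⟩
    have h4 := mem_PS'.1 h1
    rw [prt_dvd h0 _ h4.2 h4.1.1, prt_pow h0 _ h4.2 h4.1.1 two_ne_zero]
    exact ⟨h1, ⟨h2, h5⟩, fun h6 => h3 h6.1⟩

lemma S2_prod {cls : J → Fin 4} {a : Fin 3 → ℤ} {f : J → ℤ[X]} {z : ℕ} {t : ℤ}
    (h0 : ∀ j, (f j).eval t ≠ 0) (y : ℕ) (j : J) :
    ∏ θ : Ty, S2 z y (prt cls a f z t) (j, θ) = S2 z y (fun l => (f l).eval t) j := by
  unfold S2
  rw [← prod_fiberwise (s := (PS z y).filter (fun p : ℕ => (p : ℤ) ^ 2 ∣ (f j).eval t))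
    (g := fun p => ty cls a f p t j)]
  refine prod_congr rfl fun θ _ => ?_
  refine prod_congr ?_ fun _ _ => rfl
  ext p
  rw [mem_filter, mem_filter, mem_filter]
  constructor
  · rintro ⟨h1, h2⟩
    have h4 := mem_PS'.1 h1
    rw [prt_pow h0 _ h4.2 h4.1.1 two_ne_zero] at h2
    exact ⟨⟨h1, h2.1⟩, h2.2⟩
  · rintro ⟨⟨h1, h2⟩, h5⟩
    have h4 := mem_PS'.1 h1
    rw [prt_pow h0 _ h4.2 h4.1.1 two_ne_zero]
    exact ⟨h1, h2, h5⟩

/-- for a good prime, at most one of the values is divisible -/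
lemma pow_dvd_prod_iff {a : Fin 3 → ℤ} {f : J → ℤ[X]} {z c : ℕ} (h : Gp a f z c) {p : ℕ}
    (hp : p.Prime) (hz : z < p) (t : ℤ) {k : ℕ} (hk : k ≠ 0) :
    (p : ℤ) ^ k ∣ (∏ j, f j).eval t ↔ ∃ j, (p : ℤ) ^ k ∣ (f j).eval t := by
  have hpi := Nat.prime_iff_prime_int.1 hp
  constructor
  · intro h1
    have h2 : (p : ℤ) ∣ (∏ j, f j).eval t := (dvd_pow_self _ hk).trans h1
    obtain ⟨j, _, hj⟩ := (dvd_prod_iff hp _ _ _).1 h2
    refine ⟨j, ?_⟩
    rw [eval_prod, ← mul_prod_erase univ _ (mem_univ j)] at h1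
    refine (IsCoprime.pow_left ?_).dvd_of_dvd_mul_right h1
    refine IsCoprime.prod_right fun l hl => ?_
    rw [hpi.coprime_iff_not_dvd]
    exact fun h3 => h.pair p hp hz j l (mem_erase.1 hl).1.symm t ⟨hj, h3⟩
  · rintro ⟨j, hj⟩
    rw [eval_prod]
    exact hj.trans (dvd_prod_of_mem _ (mem_univ j))

lemma S1_all {a : Fin 3 → ℤ} {f : J → ℤ[X]} {z c : ℕ} (h : Gp a f z c) (y : ℕ) (t : ℤ) :
    S1 z y (fun _ : Unit => (∏ j, f j).eval t) () = ∏ j, S1 z y (fun l => (f l).eval t) j := by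
  unfold S1
  rw [← prod_biUnion]
  · refine prod_congr ?_ fun _ _ => rfl
    ext p
    simp only [mem_filter, mem_biUnion, mem_univ, true_and]
    constructor
    · rintro ⟨h1, h2, h3⟩
      have h4 := mem_PS'.1 h1
      rw [← pow_one (p : ℤ), pow_dvd_prod_iff h h4.2 h4.1.1 t one_ne_zero] at h2
      rw [pow_dvd_prod_iff h h4.2 h4.1.1 t two_ne_zero] at h3
      obtain ⟨j, hj⟩ := h2
      rw [pow_one] at hj
      exact ⟨j, h1, hj, fun h5 => h3 ⟨j, h5⟩⟩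
    · rintro ⟨j, h1, h2, h3⟩
      have h4 := mem_PS'.1 h1
      rw [← pow_one (p : ℤ), pow_dvd_prod_iff h h4.2 h4.1.1 t one_ne_zero, pow_one,
        pow_dvd_prod_iff h h4.2 h4.1.1 t two_ne_zero]
      refine ⟨h1, ⟨j, h2⟩, ?_⟩
      rintro ⟨l, hl⟩
      by_cases hjl : j = l
      · exact h3 (hjl ▸ hl)
      · exact h.pair p h4.2 h4.1.1 j l hjl t ⟨h2, (dvd_pow_self _ two_ne_zero).trans hl⟩
  · intro j _ l _ hjl
    rw [Function.onFun, disjoint_left]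
    intro p hp hp'
    have h4 := mem_PS'.1 (mem_filter.1 hp).1
    exact h.pair p h4.2 h4.1.1 j l hjl t ⟨(mem_filter.1 hp).2.1, (mem_filter.1 hp').2.1⟩

lemma S2_all {a : Fin 3 → ℤ} {f : J → ℤ[X]} {z c : ℕ} (h : Gp a f z c) (y : ℕ) (t : ℤ) :
    S2 z y (fun _ : Unit => (∏ j, f j).eval t) () = ∏ j, S2 z y (fun l => (f l).eval t) j := by
  unfold S2
  rw [← prod_biUnion]
  · refine prod_congr ?_ fun _ _ => rfl
    ext p
    simp only [mem_filter, mem_biUnion, mem_univ, true_and]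
    constructor
    · rintro ⟨h1, h2⟩
      have h4 := mem_PS'.1 h1
      rw [pow_dvd_prod_iff h h4.2 h4.1.1 t two_ne_zero] at h2
      obtain ⟨j, hj⟩ := h2
      exact ⟨j, h1, hj⟩
    · rintro ⟨j, h1, h2⟩
      have h4 := mem_PS'.1 h1
      rw [pow_dvd_prod_iff h h4.2 h4.1.1 t two_ne_zero]
      exact ⟨h1, ⟨j, h2⟩⟩
  · intro j _ l _ hjl
    rw [Function.onFun, disjoint_left]
    intro p hp hp'
    have h4 := mem_PS'.1 (mem_filter.1 hp).1
    exact h.pair p h4.2 h4.1.1 j l hjl t ⟨(dvd_pow_self _ two_ne_zero).trans (mem_filter.1 hp).2,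
      (dvd_pow_self _ two_ne_zero).trans (mem_filter.1 hp').2⟩

lemma S1_tot {cls : J → Fin 4} {a : Fin 3 → ℤ} {f : J → ℤ[X]} {z c : ℕ} (h : Gp a f z c) {t : ℤ}
    (h0 : ∀ j, (f j).eval t ≠ 0) (y : ℕ) :
    S1 z y (fun _ : Unit => (∏ j, f j).eval t) () = ∏ i, S1 z y (prt cls a f z t) i := by
  rw [S1_all h, Fintype.prod_prod_type]
  exact prod_congr rfl fun j _ => (S1_prod h0 y j).symm

lemma S2_tot {cls : J → Fin 4} {a : Fin 3 → ℤ} {f : J → ℤ[X]} {z c : ℕ} (h : Gp a f z c) {t : ℤ}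
    (h0 : ∀ j, (f j).eval t ≠ 0) (y : ℕ) :
    S2 z y (fun _ : Unit => (∏ j, f j).eval t) () = ∏ i, S2 z y (prt cls a f z t) i := by
  rw [S2_all h, Fintype.prod_prod_type]
  exact prod_congr rfl fun j _ => (S2_prod h0 y j).symm

/-! ### Periodicity -/

lemma eval_period (g : ℤ[X]) (p : ℕ) (t : ℤ) : (p : ℤ) ∣ g.eval (t + p) - g.eval t := by
  have := Polynomial.sub_dvd_eval_sub (t + p) t g
  rwa [add_sub_cancel_left] at this

lemma eval_mod (g : ℤ[X]) (p : ℕ) (t : ℤ) : g.eval (t + p) % p = g.eval t % p :=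
  Int.emod_eq_emod_iff_emod_sub_eq_zero.2 (Int.emod_eq_zero_of_dvd (eval_period g p t))

lemma eval_dvd_period (g : ℤ[X]) (p : ℕ) (t : ℤ) :
    (p : ℤ) ∣ g.eval (t + p) ↔ (p : ℤ) ∣ g.eval t := by
  have := eval_period g p t
  constructor
  · intro h
    have := dvd_sub h this
    rwa [sub_sub_cancel] at this
  · intro h
    have := dvd_add this h
    rwa [sub_add_cancel] at this

lemma jac_period (g : ℤ[X]) (p : ℕ) (t : ℤ) :
    jacobiSym (g.eval (t + p)) p = jacobiSym (g.eval t) p := by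
  rw [jacobiSym.mod_left (g.eval (t + p)), jacobiSym.mod_left (g.eval t), eval_mod]

lemma ty_period (cls : J → Fin 4) (a : Fin 3 → ℤ) (f : J → ℤ[X]) (p : ℕ) (t : ℤ) (j : J) :
    ty cls a f p (t + p) j = ty cls a f p t j := by
  unfold ty
  funext k
  rw [← kpol_eval, ← kpol_eval]
  unfold sg0
  rw [jac_period]

end

end Pool.Agent.TH841.PT
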