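import Mathlib
import Pool.Agent.TH841.PT.Stm3

/-!
# Project PT (helper841): the counting lemma with twisted signs
-/

set_option autoImplicit false

namespace Pool.Agent.TH841.PT

open Finset Polynomial Pool.Agent.W262.RK Pool.Agent.W307.RT

open Pool.Agent.H474R2.PG (rho)

/-- the values `t` with given small prime factors of `D(N + t)`, given types of the roots and given
signs (relative to the signs `σ`) at the primes of `T`, such that `G(N + t)` has no prime factors in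
`(z, y]` -/
noncomputable def SetH {Θ : Type} (D G : ℤ[X]) (τ : ℕ → ℤ → Θ) (σ : ℕ → ℤ → ℤ) (z y : ℕ) (N : ℤ)
    (X s v u : ℕ) (E : ℕ → Θ) (T E' : Finset ℕ) : Finset ℕ := by
  classical
  exact (Icc 1 X).filter (fun t : ℕ =>
    S1 z y (fun _ : Unit => D.eval (N + (t : ℤ))) () = s ∧
    S2 z y (fun _ : Unit => D.eval (N + (t : ℤ))) () = v ∧
    (u : ℤ) ∣ D.eval (N + (t : ℤ)) ∧
    (∀ p : ℕ, p.Prime → p ∣ s * v * u → τ p (N + (t : ℤ)) = E p) ∧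
    (∀ p ∈ T, (jacobiSym (D.eval (N + (t : ℤ)) / p) p = σ p (N + (t : ℤ)) ↔ p ∈ E')) ∧
    ∀ p ∈ PS z y, ¬ (p : ℤ) ∣ G.eval (N + (t : ℤ)))

/-- CNTH: as `CNTG`, with signs relative to `σ`. `CNTG` is the case `σ = -1`. -/
def CNTH : Prop := ∀ c z : ℕ, 2 * c + 2 ≤ z → ∃ (C : ℝ) (K y0 : ℕ), 0 ≤ C ∧ 1 ≤ K ∧
  ∀ D G : ℤ[X], GoodD D z c → Good2 D G z c → ∀ (Θ : Type) (τ : ℕ → ℤ → Θ) (σ : ℕ → ℤ → ℤ),
  (∀ p : ℕ, p.Prime → z < p → ∀ t : ℤ, τ p (t + p) = τ p t) →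
  (∀ p : ℕ, p.Prime → z < p → ∀ t : ℤ, σ p (t + p) = σ p t ∧ (σ p t = 1 ∨ σ p t = -1)) →
  ∀ (N : ℤ) (X y Y : ℕ), y0 ≤ y → z < y → y ^ K ≤ X →
  ∀ s v u : ℕ, s ∣ PP z y → v ∣ PP z y → u ∣ PP y Y → (s * v * u) ^ 8 ≤ X →
  ∀ (E : ℕ → Θ) (T E' : Finset ℕ), T ⊆ s.primeFactors →
    ((SetH D G τ σ z y N X s v u E T E').card : ℝ) ≤
      C * X * (1 / 2) ^ T.card *
        (∏ p ∈ s.primeFactors, (rhoT D τ p (E p) : ℝ) / ((p : ℝ) - c)) *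
        ((∏ p ∈ v.primeFactors, (rhoT D τ p (E p) : ℝ) / ((p : ℝ) - c)) / v) *
        ((∏ p ∈ u.primeFactors, (rhoT D τ p (E p) : ℝ)) / u) *
        Real.exp (-Sp (fun p => rho D p) z y) * Real.exp (-Sp (fun p => rho G p) z y)

end Pool.Agent.TH841.PT
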