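import Mathlib
import Pool.Agent.TH841.PT.Prt
import Pool.Agent.TH841.PT.Mak3
import Pool.Agent.TH841.PT.Stm5

/-!
# Project PT: one-parameter families, the counting lemma
-/

set_option autoImplicit false

namespace Pool.Agent.TH841.PT

open Finset Polynomial Pool.Agent.W262.RK Pool.Agent.W307.RT Pool.Agent.W307.RS

open Pool.Agent.H474R2.PG (rho)

section

variable {J : Type} [Fintype J] [DecidableEq J]

/-- the polynomials and types at `t` -/
def tau (cls : J → Fin 4) (a : Fin 3 → ℤ) (f : J → ℤ[X]) (p : ℕ) (t : ℤ) : Finset (J × Ty) :=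
  univ.filter (fun i => (p : ℤ) ∣ (f i.1).eval t ∧ ty cls a f p t i.1 = i.2)

/-- the reference signs -/
def sgm (f : J → ℤ[X]) (p : ℕ) (t : ℤ) : ℤ :=
  -∏ l, (if (p : ℤ) ∣ (f l).eval t then 1 else jacobiSym ((f l).eval t) p)

/-- the indices of the primes -/
def Est (s v u : J × Ty → ℕ) (p : ℕ) : Finset (J × Ty) :=
  univ.filter (fun i => p ∣ s i * v i * u i)

lemma tau_period (cls : J → Fin 4) (a : Fin 3 → ℤ) (f : J → ℤ[X]) (p : ℕ) (t : ℤ) :
    tau cls a f p (t + p) = tau cls a f p t := by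
  unfold tau
  ext i
  rw [mem_filter, mem_filter, eval_dvd_period, ty_period]

lemma sgm_period (f : J → ℤ[X]) (p : ℕ) (t : ℤ) : sgm f p (t + p) = sgm f p t := by
  unfold sgm
  congr 1
  refine prod_congr rfl fun l _ => ?_
  rw [jac_period]
  simp only [eval_dvd_period]

lemma jac_pm {p : ℕ} (hp : p.Prime) {x : ℤ} (hx : ¬ (p : ℤ) ∣ x) :
    jacobiSym x p = 1 ∨ jacobiSym x p = -1 := by
  apply jacobiSym.eq_one_or_neg_one
  rw [Int.gcd_comm]
  exact (Int.isCoprime_iff_gcd_eq_one).1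
    (((Nat.prime_iff_prime_int.1 hp).coprime_iff_not_dvd).2 hx)

lemma prod_pm {α : Type} (s : Finset α) (g : α → ℤ) (hg : ∀ x ∈ s, g x = 1 ∨ g x = -1) :
    ∏ x ∈ s, g x = 1 ∨ ∏ x ∈ s, g x = -1 := by
  classical
  induction s using Finset.induction_on with
  | empty => simp
  | insert x s hx ih =>
    rw [prod_insert hx]
    rcases hg x (mem_insert_self _ _) with h1 | h1 <;>
      rcases ih fun y hy => hg y (mem_insert_of_mem hy) with h2 | h2 <;> rw [h1, h2] <;> simp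

lemma sgm_pm (f : J → ℤ[X]) {p : ℕ} (hp : p.Prime) (t : ℤ) :
    sgm f p t = 1 ∨ sgm f p t = -1 := by
  unfold sgm
  rcases prod_pm univ (fun l => if (p : ℤ) ∣ (f l).eval t then (1 : ℤ) else
    jacobiSym ((f l).eval t) p) (fun l _ => by
      split_ifs with h
      · exact Or.inl rfl
      · exact jac_pm hp h) with h | h <;> rw [h] <;> simp

lemma Tup_prime {ι : Type} [Fintype ι] [DecidableEq ι] {z y : ℕ} {s : ι → ℕ} (hs : s ∈ Tup ι z y)
    {i : ι} {p : ℕ} (hp : p.Prime) (h : p ∣ s i) : z < p ∧ p ≤ y := by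
  have h1 := (Pool.Agent.W405.RK2.mem_Tup.1 hs).1 i
  exact (mem_PS'.1 (Pool.Agent.W405.RK2.prime_dvd_PP hp (h.trans h1))).1

lemma Tup_prod_dvd {ι : Type} [Fintype ι] [DecidableEq ι] {z y : ℕ} {s : ι → ℕ}
    (hs : s ∈ Tup ι z y) : ∏ i, s i ∣ PP z y := by
  have h1 := Pool.Agent.W405.RK2.mem_Tup.1 hs
  refine Finset.prod_dvd_of_isRelPrime (fun i _ j _ hij => ?_) fun i _ => h1.1 i
  exact Nat.coprime_iff_isRelPrime.1 (h1.2 i j hij)

lemma Tup_primeFactors {ι : Type} [Fintype ι] [DecidableEq ι] {z y : ℕ} {s : ι → ℕ}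
    (hs : s ∈ Tup ι z y) : (∏ i, s i).primeFactors = univ.biUnion (fun i => (s i).primeFactors) := by
  ext p
  rw [mem_biUnion, Nat.mem_primeFactors]
  constructor
  · rintro ⟨h1, h2, h3⟩
    obtain ⟨i, _, hi⟩ := (h1.prime.dvd_finsetProd_iff _).1 h2
    exact ⟨i, mem_univ _, Nat.mem_primeFactors.2 ⟨h1, hi, Tup_ne hs i⟩⟩
  · rintro ⟨i, _, h1⟩
    have h2 := Nat.mem_primeFactors.1 h1
    exact ⟨h2.1, h2.2.1.trans (dvd_prod_of_mem _ (mem_univ i)),
      prod_ne_zero_iff.2 fun i _ => Tup_ne hs i⟩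

lemma prod_primes {ι : Type} [Fintype ι] [DecidableEq ι] {z y : ℕ} {s : ι → ℕ}
    (hs : s ∈ Tup ι z y) (g : ℕ → ℝ) :
    ∏ p ∈ (∏ i, s i).primeFactors, g p = ∏ i, ∏ p ∈ (s i).primeFactors, g p := by
  rw [Tup_primeFactors hs, prod_biUnion]
  intro i _ j _ hij
  exact (Pool.Agent.W405.RK2.mem_Tup.1 hs).2 i j hij |>.disjoint_primeFactors

/-- the number of the roots with the given index set -/
lemma rhoT_le {cls : J → Fin 4} {a : Fin 3 → ℤ} {f : J → ℤ[X]} {z : ℕ}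
    {p : ℕ} (hp : p.Prime) (hz : z < p) (E : Finset (J × Ty)) {i : J × Ty} (hi : i ∈ E) :
    (rhoT (∏ j, f j) (tau cls a f) p E : ℝ) ≤ rT cls a f z i p := by
  unfold rhoT rT
  rw [if_pos ⟨hp, hz⟩]
  rw [Nat.cast_le]
  apply card_le_card
  intro x hx
  simp only [mem_filter] at hx ⊢
  obtain ⟨h1, h2, h3⟩ := hx
  have h4 : i ∈ tau cls a f p x := by rw [h3]; exact hi
  exact ⟨h1, (mem_filter.1 h4).2⟩

lemma rhoT_le_c {cls : J → Fin 4} {a : Fin 3 → ℤ} {f : J → ℤ[X]} {z c : ℕ} (h : Gp a f z c)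
    {p : ℕ} (hp : p.Prime) (hz : z < p) (E : Finset (J × Ty)) :
    (rhoT (∏ j, f j) (tau cls a f) p E : ℝ) ≤ c := by
  have h1 := (h.good p hp hz).1
  have h2 : rhoT (∏ j, f j) (tau cls a f) p E ≤ rho (∏ j, f j) p := by
    unfold rhoT rho
    refine card_le_card fun x hx => ?_
    simp only [mem_filter] at hx ⊢
    exact ⟨hx.1, hx.2.1⟩
  exact_mod_cast h2.trans h1

/-- the element belongs to the set of the counting lemma -/
lemma mem_SetH' {cls : J → Fin 4} {a : Fin 3 → ℤ} {f : J → ℤ[X]} {z c : ℕ} (h : Gp a f z c)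
    {N : ℤ} {X y Y : ℕ} (hzy : z < y) {s v u : J × Ty → ℕ} (hs : s ∈ Tup (J × Ty) z y)
    (hv : v ∈ Tup (J × Ty) z y) (hu : u ∈ Tup (J × Ty) y Y) {E : Finset ℕ} {t : ℕ}
    (ht : t ∈ Icc 1 X) (h0 : ∀ j, (f j).eval (N + (t : ℤ)) ≠ 0)
    (h1 : S1 z y (prt cls a f z (N + (t : ℤ))) = s)
    (h2 : S2 z y (prt cls a f z (N + (t : ℤ))) = v)
    (h3 : ∀ i, (u i : ℤ) ∣ prt cls a f z (N + (t : ℤ)) i)
    (h4 : negx cls (fun l => (f l).eval (N + (t : ℤ)))
      (S1 z y (fun l => (f l).eval (N + (t : ℤ)))) = E) :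
    t ∈ SetH (∏ j, f j) 1 (tau cls a f) (sgm f) z y N X (∏ i, s i) (∏ i, v i) (∏ i, u i)
      (Est s v u) (P3 (clsI cls) s) E := by
  set w : ℤ := N + (t : ℤ) with hw
  have hS1 : ∀ i p, p.Prime → p ∣ s i → z < p ∧ p ≤ y ∧ (p : ℤ) ∣ prt cls a f z w i ∧
      ¬ (p : ℤ) ^ 2 ∣ prt cls a f z w i := by
    intro i p hp hpi
    obtain ⟨h5, h6⟩ := Tup_prime hs hp hpi
    rw [← h1] at hpi
    unfold S1 at hpi
    obtain ⟨q, hq, hpq⟩ := (hp.prime.dvd_finsetProd_iff _).1 hpi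
    have hq' := mem_filter.1 hq
    have h7 := (Nat.prime_dvd_prime_iff_eq hp (mem_PS'.1 hq'.1).2).1 hpq
    rw [h7]
    rw [h7] at h5 h6
    exact ⟨h5, h6, hq'.2⟩
  have hS2 : ∀ i p, p.Prime → p ∣ v i → z < p ∧ (p : ℤ) ∣ prt cls a f z w i := by
    intro i p hp hpi
    obtain ⟨h5, h6⟩ := Tup_prime hv hp hpi
    rw [← h2] at hpi
    unfold S2 at hpi
    obtain ⟨q, hq, hpq⟩ := (hp.prime.dvd_finsetProd_iff _).1 hpi
    have hq' := mem_filter.1 hq
    have h7 := (Nat.prime_dvd_prime_iff_eq hp (mem_PS'.1 hq'.1).2).1 hpq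
    rw [h7]
    rw [h7] at h5
    exact ⟨h5, (dvd_pow_self _ two_ne_zero).trans hq'.2⟩
  have hU : ∀ i p, p.Prime → p ∣ u i → z < p ∧ (p : ℤ) ∣ prt cls a f z w i := by
    intro i p hp hpi
    obtain ⟨h5, h6⟩ := Tup_prime hu hp hpi
    exact ⟨by omega, (Int.natCast_dvd_natCast.2 hpi).trans (h3 i)⟩
  have hany : ∀ i p, p.Prime → p ∣ s i * v i * u i → z < p ∧ (p : ℤ) ∣ prt cls a f z w i := by
    intro i p hp hpi
    rcases hp.dvd_mul.1 hpi with h5 | h5
    · rcases hp.dvd_mul.1 h5 with h6 | h6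
      · exact ⟨(hS1 i p hp h6).1, (hS1 i p hp h6).2.2.1⟩
      · exact hS2 i p hp h6
    · exact hU i p hp h5
  unfold SetH
  simp only [mem_filter]
  refine ⟨ht, ?_, ?_, ?_, ?_, ?_, ?_⟩
  · rw [S1_tot h h0 y, h1]
  · rw [S2_tot h h0 y, h2]
  · push_cast
    refine Finset.prod_dvd_of_coprime (fun i _ j _ hij => ?_) fun i _ => ?_
    · have := (Pool.Agent.W405.RK2.mem_Tup.1 hu).2 i j hij
      exact (Nat.isCoprime_iff_coprime).2 this
    · rw [eval_prod]
      exact ((h3 i).trans (prt_dvd_self h0 i)).trans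
        (dvd_prod_of_mem (fun j => (f j).eval w) (mem_univ i.1))
  · intro p hp hpd
    have h5 : ∃ i, p ∣ s i * v i * u i := by
      rw [← prod_mul_distrib, ← prod_mul_distrib] at hpd
      obtain ⟨i, _, hi⟩ := (hp.prime.dvd_finsetProd_iff _).1 hpd
      exact ⟨i, hi⟩
    obtain ⟨i0, hi0⟩ := h5
    obtain ⟨hz, hd⟩ := hany i0 p hp hi0
    rw [prt_dvd h0 i0 hp hz] at hd
    ext i
    unfold tau Est
    rw [mem_filter, mem_filter]
    constructor
    · rintro ⟨_, h5, h6⟩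
      refine ⟨mem_univ _, ?_⟩
      have h7 : i = i0 := by
        by_cases hj : i.1 = i0.1
        · refine Prod.ext hj ?_
          rw [← h6, ← hd.2, hj]
        · exact absurd ⟨h5, hd.1⟩ (h.pair p hp hz _ _ hj w)
      rw [h7]
      exact hi0
    · rintro ⟨_, h5⟩
      have h6 := (hany i p hp h5).2
      rw [prt_dvd h0 i hp hz] at h6
      exact ⟨mem_univ _, h6⟩
  · intro p hp3
    -- signs
    have hpp := Nat.prime_of_mem_primeFactors hp3
    unfold P3 at hp3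
    have hpd := Nat.dvd_of_mem_primeFactors hp3
    obtain ⟨i0, hi0, hpi⟩ := (hpp.prime.dvd_finsetProd_iff _).1 hpd
    have hcl : cls i0.1 = 3 := (mem_filter.1 hi0).2
    obtain ⟨hz, hpy, hd, hnd⟩ := hS1 i0 p hpp hpi
    rw [prt_dvd h0 i0 hpp hz] at hd
    rw [prt_pow h0 i0 hpp hz two_ne_zero] at hnd
    have hnd' : ¬ (p : ℤ) ^ 2 ∣ (f i0.1).eval w := fun h5 => hnd ⟨h5, hd.2⟩
    have hl : ∀ l ∈ univ.erase i0.1, ¬ (p : ℤ) ∣ (f l).eval w := fun l hl h5 =>
      h.pair p hpp hz l i0.1 (mem_erase.1 hl).1 w ⟨h5, hd.1⟩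
    have hDe : (∏ j, f j).eval w / p = (f i0.1).eval w / p * ∏ l ∈ univ.erase i0.1, (f l).eval w := by
      rw [eval_prod, ← mul_prod_erase univ _ (mem_univ i0.1)]
      obtain ⟨q, hq⟩ := hd.1
      rw [hq, mul_assoc, Int.mul_ediv_cancel_left _ (by exact_mod_cast hpp.ne_zero),
        Int.mul_ediv_cancel_left _ (by exact_mod_cast hpp.ne_zero)]
    set Q : ℤ := ∏ l ∈ univ.erase i0.1, jacobiSym ((f l).eval w) p with hQ
    have hQ1 : Q = 1 ∨ Q = -1 := prod_pm _ _ fun l hl' => jac_pm hpp (hl l hl')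
    have hsg : sgm f p w = -Q := by
      unfold sgm
      rw [← mul_prod_erase univ _ (mem_univ i0.1), if_pos hd.1, one_mul, hQ]
      congr 1
      exact prod_congr rfl fun l hl' => by rw [if_neg (hl l hl')]
    have hjl : jacobiSym (∏ l ∈ univ.erase i0.1, (f l).eval w) p = Q := by
      rw [hQ]
      have hgen : ∀ s : Finset J, jacobiSym (∏ l ∈ s, (f l).eval w) p =
          ∏ l ∈ s, jacobiSym ((f l).eval w) p := by
        intro s
        induction s using Finset.induction_on with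
        | empty => simp
        | insert x s hx ih => rw [prod_insert hx, prod_insert hx, jacobiSym.mul_left, ih]
      exact hgen _
    have hndq : ¬ (p : ℤ) ∣ (f i0.1).eval w / p := by
      intro h5
      apply hnd'
      rw [pow_two]
      obtain ⟨q, hq⟩ := hd.1
      rw [hq, Int.mul_ediv_cancel_left _ (by exact_mod_cast hpp.ne_zero)] at h5
      rw [hq]
      exact mul_dvd_mul_left _ h5
    have hjp := jac_pm hpp hndq
    rw [hDe, jacobiSym.mul_left, hjl, hsg]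
    have hE : p ∈ E ↔ jacobiSym ((f i0.1).eval w / p) p = -1 := by
      rw [← h4]
      unfold negx
      rw [mem_filter]
      have hpS : p ∣ S1 z y (fun l => (f l).eval w) i0.1 := by
        rw [← S1_prod (cls := cls) (a := a) h0 y i0.1, h1]
        exact (show p ∣ s (i0.1, i0.2) from hpi).trans (dvd_prod_of_mem (fun θ => s (i0.1, θ)) (mem_univ i0.2))
      constructor
      · rintro ⟨_, j, hj3, hj1, hj2⟩
        have : j = i0.1 := by
          by_contra hne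
          unfold S1 at hj1
          obtain ⟨q, hq, hpq⟩ := (hpp.prime.dvd_finsetProd_iff _).1 hj1
          have hq' := mem_filter.1 hq
          have h7 := (Nat.prime_dvd_prime_iff_eq hpp (mem_PS'.1 hq'.1).2).1 hpq
          rw [← h7] at hq'
          exact h.pair p hpp hz j i0.1 hne w ⟨hq'.2.1, hd.1⟩
        rw [this] at hj2
        exact hj2
      · intro h5
        refine ⟨?_, i0.1, hcl, hpS, h5⟩
        unfold P3
        refine Nat.mem_primeFactors.2 ⟨hpp, ?_, ?_⟩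
        · exact hpS.trans (dvd_prod_of_mem _ (mem_filter.2 ⟨mem_univ _, hcl⟩))
        · refine prod_ne_zero_iff.2 fun l _ => ?_
          unfold S1
          exact prod_ne_zero_iff.2 fun q hq => (mem_PS'.1 (mem_filter.1 hq).1).2.ne_zero
    rw [hE]
    rcases hjp with h5 | h5 <;> rcases hQ1 with h6 | h6 <;> rw [h5, h6] <;> norm_num
  · intro p hp h5
    rw [eval_one] at h5
    exact (Nat.prime_iff_prime_int.1 (mem_PS'.1 hp).2).not_dvd_one h5

/-- **the counting lemma** -/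
theorem cnt3 (hcnt : CNTH) (cls : J → Fin 4) {a : Fin 3 → ℤ} {f : J → ℤ[X]} {z c : ℕ}
    (h : Gp a f z c) :
    ∃ (C : ℝ) (K y0 : ℕ), 0 ≤ C ∧ 1 ≤ K ∧ ∀ (N : ℤ) (X y Y : ℕ), y0 ≤ y → z < y → y ^ K ≤ X →
    ∀ s v u : J × Ty → ℕ, s ∈ Tup (J × Ty) z y → v ∈ Tup (J × Ty) z y → u ∈ Tup (J × Ty) y Y →
    (∏ i, s i * v i * u i) ^ 8 ≤ X → ∀ (E : Finset ℕ) (T' : Finset ℕ),
    (∀ t ∈ T', t ∈ Icc 1 X ∧ (∀ j, (f j).eval (N + (t : ℤ)) ≠ 0) ∧
      S1 z y (prt cls a f z (N + (t : ℤ))) = s ∧ S2 z y (prt cls a f z (N + (t : ℤ))) = v ∧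
      (∀ i, (u i : ℤ) ∣ prt cls a f z (N + (t : ℤ)) i) ∧
      negx cls (fun l => (f l).eval (N + (t : ℤ)))
        (S1 z y (fun l => (f l).eval (N + (t : ℤ)))) = E) →
    (T'.card : ℝ) ≤ C * X * (1 / 2) ^ (P3 (clsI cls) s).card *
      (∏ i, gp (rT cls a f z i) c (s i)) * (∏ i, gp (rT cls a f z i) c (v i) / v i) *
      (∏ i, (c : ℝ) ^ (u i).primeFactors.card / u i) *
      Real.exp (-Sp (fun p => rho (∏ j, f j) p) z y) := by
  obtain ⟨C, K, y0, hC0, hK, hC⟩ := hcnt c z h.two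
  refine ⟨C, K, y0, hC0, hK, fun N X y Y hy0 hzy hyK s v u hs hv hu h8 E T' hT' => ?_⟩
  have hz2 := h.two
  have hG2 : Good2 (∏ j, f j) 1 z c := by
    intro p hp hz
    have h1 : ∀ t : ℤ, ¬ (p : ℤ) ∣ (1 : ℤ[X]).eval t := by
      intro t h5
      rw [eval_one] at h5
      exact (Nat.prime_iff_prime_int.1 hp).not_dvd_one h5
    refine ⟨?_, fun t h5 => h1 t h5.2⟩
    have h2 : rho 1 p = 0 := by
      unfold rho
      rw [card_eq_zero, filter_eq_empty_iff]
      exact fun x _ => h1 x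
    rw [h2, add_zero]
    exact (h.good p hp hz).1
  have h8' : ((∏ i, s i) * (∏ i, v i) * ∏ i, u i) ^ 8 ≤ X := by
    rwa [← prod_mul_distrib, ← prod_mul_distrib]
  have hP3 : P3 (clsI cls) s ⊆ (∏ i, s i).primeFactors := by
    unfold P3
    refine Nat.primeFactors_mono ?_ (prod_ne_zero_iff.2 fun i _ => Tup_ne hs i)
    exact prod_dvd_prod_of_subset _ _ _ (filter_subset _ _)
  have hmain := hC (∏ j, f j) 1 h.good hG2 (Finset (J × Ty)) (tau cls a f) (sgm f)
    (fun p _ _ t => tau_period cls a f p t)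
    (fun p hp _ t => ⟨sgm_period f p t, sgm_pm f hp t⟩) N X y Y hy0 hzy hyK
    (∏ i, s i) (∏ i, v i) (∏ i, u i) (Tup_prod_dvd hs) (Tup_prod_dvd hv) (Tup_prod_dvd hu) h8'
    (Est s v u) (P3 (clsI cls) s) E hP3
  have hsub : T' ⊆ SetH (∏ j, f j) 1 (tau cls a f) (sgm f) z y N X (∏ i, s i) (∏ i, v i)
      (∏ i, u i) (Est s v u) (P3 (clsI cls) s) E := by
    intro t ht
    obtain ⟨h1, h2, h3, h4, h5, h6⟩ := hT' t ht
    exact mem_SetH' h hzy hs hv hu h1 h2 h3 h4 h5 h6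
  have hG0 : Sp (fun p => (rho (1 : ℤ[X]) p : ℝ)) z y = 0 := by
    unfold Sp
    refine sum_eq_zero fun p hp => ?_
    have h2 : rho 1 p = 0 := by
      unfold rho
      rw [card_eq_zero, filter_eq_empty_iff]
      intro x _ h5
      rw [eval_one] at h5
      exact (Nat.prime_iff_prime_int.1 (mem_PS'.1 hp).2).not_dvd_one h5
    beta_reduce
    rw [h2]
    simp
  rw [hG0, neg_zero, Real.exp_zero, mul_one] at hmain
  have hcard : (T'.card : ℝ) ≤ _ := le_trans (by exact_mod_cast card_le_card hsub) hmain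
  refine hcard.trans ?_
  have hden : ∀ {y' : ℕ} {s' : J × Ty → ℕ} (_ : s' ∈ Tup (J × Ty) z y') (i : J × Ty) (p : ℕ),
      p ∈ (s' i).primeFactors → (0 : ℝ) < (p : ℝ) - c := by
    intro y' s' hs' i p hp
    have h1 := Tup_prime hs' (Nat.prime_of_mem_primeFactors hp) (Nat.dvd_of_mem_primeFactors hp)
    have h2 : (c : ℝ) < p := by exact_mod_cast (by omega : c < p)
    linarith
  have e1 : ∏ p ∈ (∏ i, s i).primeFactors,
      (rhoT (∏ j, f j) (tau cls a f) p (Est s v u p) : ℝ) / ((p : ℝ) - c) ≤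
      ∏ i, gp (rT cls a f z i) c (s i) := by
    rw [prod_primes hs]
    refine prod_le_prod (fun i _ => prod_nonneg fun p hp => div_nonneg (Nat.cast_nonneg _)
      (hden hs i p hp).le) fun i _ => ?_
    unfold gp
    refine prod_le_prod (fun p hp => div_nonneg (Nat.cast_nonneg _)
      (hden hs i p hp).le) fun p hp => ?_
    have hpp := Nat.prime_of_mem_primeFactors hp
    have hpd := Nat.dvd_of_mem_primeFactors hp
    refine div_le_div_of_nonneg_right (rhoT_le hpp (Tup_prime hs hpp hpd).1 _ ?_)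
      (hden hs i p hp).le
    exact mem_filter.2 ⟨mem_univ _, (hpd.mul_right _).mul_right _⟩
  have e2 : (∏ p ∈ (∏ i, v i).primeFactors,
      (rhoT (∏ j, f j) (tau cls a f) p (Est s v u p) : ℝ) / ((p : ℝ) - c)) / ((∏ i, v i : ℕ) : ℝ) ≤
      ∏ i, gp (rT cls a f z i) c (v i) / v i := by
    rw [prod_primes hv, Nat.cast_prod, ← prod_div_distrib]
    refine prod_le_prod (fun i _ => div_nonneg (prod_nonneg fun p hp =>
      div_nonneg (Nat.cast_nonneg _) (hden hv i p hp).le) (Nat.cast_nonneg _)) fun i _ => ?_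
    refine div_le_div_of_nonneg_right ?_ (Nat.cast_nonneg _)
    unfold gp
    refine prod_le_prod (fun p hp => div_nonneg (Nat.cast_nonneg _)
      (hden hv i p hp).le) fun p hp => ?_
    have hpp := Nat.prime_of_mem_primeFactors hp
    have hpd := Nat.dvd_of_mem_primeFactors hp
    refine div_le_div_of_nonneg_right (rhoT_le hpp (Tup_prime hv hpp hpd).1 _ ?_)
      (hden hv i p hp).le
    exact mem_filter.2 ⟨mem_univ _, (hpd.mul_left _).mul_right _⟩
  have e3 : (∏ p ∈ (∏ i, u i).primeFactors,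
      (rhoT (∏ j, f j) (tau cls a f) p (Est s v u p) : ℝ)) / ((∏ i, u i : ℕ) : ℝ) ≤
      ∏ i, (c : ℝ) ^ (u i).primeFactors.card / u i := by
    rw [prod_primes hu, Nat.cast_prod, ← prod_div_distrib]
    refine prod_le_prod (fun i _ => div_nonneg (prod_nonneg fun p hp =>
      Nat.cast_nonneg _) (Nat.cast_nonneg _)) fun i _ => ?_
    refine div_le_div_of_nonneg_right ?_ (Nat.cast_nonneg _)
    rw [← prod_const]
    refine prod_le_prod (fun p hp => Nat.cast_nonneg _) fun p hp => ?_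
    have hpp := Nat.prime_of_mem_primeFactors hp
    have hpd := Nat.dvd_of_mem_primeFactors hp
    have h1 := (Tup_prime hu hpp hpd).1
    exact rhoT_le_c h hpp (by omega) _
  have n1 : 0 ≤ ∏ p ∈ (∏ i, s i).primeFactors,
      (rhoT (∏ j, f j) (tau cls a f) p (Est s v u p) : ℝ) / ((p : ℝ) - c) := by
    rw [prod_primes hs]
    exact prod_nonneg fun i _ => prod_nonneg fun p hp => div_nonneg (Nat.cast_nonneg _)
      (hden hs i p hp).le
  have n2 : 0 ≤ (∏ p ∈ (∏ i, v i).primeFactors,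
      (rhoT (∏ j, f j) (tau cls a f) p (Est s v u p) : ℝ) / ((p : ℝ) - c)) /
        ((∏ i, v i : ℕ) : ℝ) := by
    rw [prod_primes hv]
    exact div_nonneg (prod_nonneg fun i _ => prod_nonneg fun p hp =>
      div_nonneg (Nat.cast_nonneg _) (hden hv i p hp).le) (Nat.cast_nonneg _)
  have n3 : 0 ≤ (∏ p ∈ (∏ i, u i).primeFactors,
      (rhoT (∏ j, f j) (tau cls a f) p (Est s v u p) : ℝ)) / ((∏ i, u i : ℕ) : ℝ) :=
    div_nonneg (prod_nonneg fun _ _ => Nat.cast_nonneg _) (Nat.cast_nonneg _)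
  refine mul_le_mul_of_nonneg_right ?_ (Real.exp_pos _).le
  refine mul_le_mul ?_ e3 n3 ?_
  · refine mul_le_mul ?_ e2 n2 ?_
    · exact mul_le_mul_of_nonneg_left e1 (by positivity)
    · exact mul_nonneg (by positivity) (n1.trans e1)
  · exact mul_nonneg (mul_nonneg (by positivity) (n1.trans e1)) (n2.trans e2)

end

end Pool.Agent.TH841.PT
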