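import Mathlib
import Pool.Agent.TH841.PT.Cnt3
import Pool.Agent.TH841.PT.Avg
import Pool.Agent.W307.SE.Fin

/-!
# Project PT: one-parameter families, the average
-/

set_option autoImplicit false

namespace Pool.Agent.TH841.PT

open Finset Polynomial Pool.Agent.W262.RK Pool.Agent.W307.RT Pool.Agent.W307.RS
open Pool.Agent.W307.SE

open Pool.Agent.H474R2.PG (rho)

section

variable {J : Type} [Fintype J] [DecidableEq J]

/-- the values of the polynomials -/
def vf (f : J → ℤ[X]) (t : ℤ) (j : J) : ℤ := (f j).eval t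

lemma NL_congr' {m : ℕ} {L L' : ℕ → Bool → Bool → Bool → Bool → Prop}
    (h : ∀ p ∈ m.primeFactors, ∀ v w x y, L p v w x y ↔ L' p v w x y) : NL m L = NL m L' := by
  unfold NL
  congr 1
  ext d
  simp only [mem_filter]
  constructor
  · rintro ⟨h1, h2⟩
    exact ⟨h1, fun p hp => (h p hp _ _ _ _).1 (h2 p hp)⟩
  · rintro ⟨h1, h2⟩
    exact ⟨h1, fun p hp => (h p hp _ _ _ _).2 (h2 p hp)⟩

/-- the bound for the 2-Selmer group in terms of the parts -/
lemma rank3 (hsel : SELX) {cls : J → Fin 4} {a : Fin 3 → ℤ} {f : J → ℤ[X]} {z c : ℕ}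
    (h : Gp a f z c) (ha : ∀ k, a k ≠ 0) {t : ℤ} (h0 : ∀ j, (f j).eval t ≠ 0)
    (hrel : Fval cls a (fun l => (f l).eval t) 0 - Fval cls a (fun l => (f l).eval t) 1 =
      Fval cls a (fun l => (f l).eval t) 2) {y X k B : ℕ}
    (hB : ∀ j, ((f j).eval t).natAbs ≤ X ^ B) (hX : 1 ≤ X) (hy : 1 ≤ y) (hk : X < (y + 1) ^ k) :
    (Sel (Fval cls a (fun l => (f l).eval t) 0) (Fval cls a (fun l => (f l).eval t) 1)).Finite ∧
    ((Sel (Fval cls a (fun l => (f l).eval t) 0)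
      (Fval cls a (fun l => (f l).eval t) 1)).ncard : ℝ) ≤
        4 ^ (z + 2) * ((4 ^ B) ^ Fintype.card J) ^ k *
          (∏ i, (4 : ℝ) ^ (S2 z y (prt cls a f z t) i).primeFactors.card) *
          (NL (∏ i, S1 z y (prt cls a f z t) i) (LTs (clsI cls) eI (S1 z y (prt cls a f z t))
            (negx cls (fun l => (f l).eval t) (S1 z y (fun l => (f l).eval t)))) : ℝ) := by
  have hG : Gd z (fun l => (f l).eval t) :=
    ⟨h0, fun p hp hz j l hjl => h.pair p hp hz j l hjl t⟩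
  have hz4 := h.four
  obtain ⟨h1, h2⟩ := hsel J cls a (fun l => (f l).eval t) z y X k B (by omega) ha h.const hG
    hrel hB hX hy hk
  refine ⟨h1, ?_⟩
  have hS1 : ∏ j, S1 z y (fun l => (f l).eval t) j = ∏ i, S1 z y (prt cls a f z t) i := by
    rw [Fintype.prod_prod_type]
    exact prod_congr rfl fun j _ => (S1_prod h0 y j).symm
  have hS2 : ∑ j, (S2 z y (fun l => (f l).eval t) j).primeFactors.card =
      ∑ i, (S2 z y (prt cls a f z t) i).primeFactors.card := by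
    rw [Fintype.sum_prod_type]
    refine sum_congr rfl fun j _ => ?_
    rw [← S2_prod (cls := cls) (a := a) h0 y j]
    have h3 : (∏ θ : Ty, S2 z y (prt cls a f z t) (j, θ)).primeFactors =
        univ.biUnion (fun θ : Ty => (S2 z y (prt cls a f z t) (j, θ)).primeFactors) := by
      ext p
      rw [mem_biUnion, Nat.mem_primeFactors]
      have hne : ∀ θ : Ty, S2 z y (prt cls a f z t) (j, θ) ≠ 0 := by
        intro θ
        unfold S2
        exact prod_ne_zero_iff.2 fun q hq => (mem_PS'.1 (mem_filter.1 hq).1).2.ne_zero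
      constructor
      · rintro ⟨h1, h2, h3⟩
        obtain ⟨i, _, hi⟩ := (h1.prime.dvd_finsetProd_iff _).1 h2
        exact ⟨i, mem_univ _, Nat.mem_primeFactors.2 ⟨h1, hi, hne i⟩⟩
      · rintro ⟨i, _, h1⟩
        have h2 := Nat.mem_primeFactors.1 h1
        exact ⟨h2.1, h2.2.1.trans (dvd_prod_of_mem (fun θ : Ty => S2 z y (prt cls a f z t) (j, θ))
          (mem_univ i)), prod_ne_zero_iff.2 fun i _ => hne i⟩
    rw [h3, card_biUnion]
    intro θ _ θ' _ hθ
    rw [Function.onFun, disjoint_left]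
    intro p hp hp'
    have hpp := Nat.prime_of_mem_primeFactors hp
    have key : ∀ θ, p ∈ (S2 z y (prt cls a f z t) (j, θ)).primeFactors →
        z < p ∧ (p : ℤ) ^ 2 ∣ prt cls a f z t (j, θ) := by
      intro θ hp
      have hd := Nat.dvd_of_mem_primeFactors hp
      unfold S2 at hd
      obtain ⟨q, hq, hpq⟩ := (hpp.prime.dvd_finsetProd_iff _).1 hd
      have hq' := mem_filter.1 hq
      have h7 := (Nat.prime_dvd_prime_iff_eq hpp (mem_PS'.1 hq'.1).2).1 hpq
      rw [← h7] at hq'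
      exact ⟨(mem_PS'.1 hq'.1).1.1, hq'.2⟩
    have k1 := key θ hp
    have k2 := key θ' hp'
    rw [prt_pow h0 _ hpp k1.1 two_ne_zero] at k1 k2
    exact hθ (k1.2.2.symm.trans k2.2.2)
  have hNL : NL (∏ j, S1 z y (fun l => (f l).eval t) j) (fun p v w x g =>
      ∀ j, p ∣ S1 z y (fun l => (f l).eval t) j →
        LT (cls j) (fun k => sg0 p (kval cls a (fun l => (f l).eval t) j k)) (sg0 p (-1))
          (decide (p ∈ negx cls (fun l => (f l).eval t) (S1 z y (fun l => (f l).eval t))))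
            v w x g) =
      NL (∏ i, S1 z y (prt cls a f z t) i) (LTs (clsI cls) eI (S1 z y (prt cls a f z t))
        (negx cls (fun l => (f l).eval t) (S1 z y (fun l => (f l).eval t)))) := by
    rw [hS1]
    refine NL_congr' fun p hp v w x g => ?_
    have hpp := Nat.prime_of_mem_primeFactors hp
    have key : ∀ i, p ∣ S1 z y (prt cls a f z t) i → ty cls a f p t i.1 = i.2 := by
      intro i hd
      unfold S1 at hd
      obtain ⟨q, hq, hpq⟩ := (hpp.prime.dvd_finsetProd_iff _).1 hd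
      have hq' := mem_filter.1 hq
      have h7 := (Nat.prime_dvd_prime_iff_eq hpp (mem_PS'.1 hq'.1).2).1 hpq
      rw [← h7] at hq'
      have hz := (mem_PS'.1 hq'.1).1.1
      exact ((prt_dvd h0 i hpp hz).1 hq'.2.1).2
    unfold LTs clsI eI
    constructor
    · intro h3 i hi
      have h4 : p ∣ S1 z y (fun l => (f l).eval t) i.1 := by
        rw [← S1_prod (cls := cls) (a := a) h0 y i.1]
        exact (show p ∣ S1 z y (prt cls a f z t) (i.1, i.2) from hi).trans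
          (dvd_prod_of_mem (fun θ => S1 z y (prt cls a f z t) (i.1, θ)) (mem_univ i.2))
      have h5 := h3 i.1 h4
      have h6 := key i hi
      unfold ty at h6
      rw [h6] at h5
      exact h5
    · intro h3 j hj
      rw [← S1_prod (cls := cls) (a := a) h0 y j] at hj
      obtain ⟨θ, _, hθ⟩ := (hpp.prime.dvd_finsetProd_iff _).1 hj
      have h5 := h3 (j, θ) hθ
      have h6 := key (j, θ) hθ
      unfold ty at h6
      simp only at h6 h5
      rw [h6]
      exact h5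
  rw [hS2, hNL] at h2
  have h3 : ((Sel (Fval cls a (fun l => (f l).eval t) 0)
      (Fval cls a (fun l => (f l).eval t) 1)).ncard : ℝ) ≤ _ := Nat.cast_le.2 h2
  refine h3.trans (le_of_eq ?_)
  push_cast
  rw [prod_pow_eq_pow_sum]

/-- sizes of all the polynomials -/
lemma eval_le_all (f : J → ℤ[X]) : ∃ K m : ℕ, ∀ (x : ℤ) (M : ℕ), 1 ≤ M → x.natAbs ≤ M →
    ∀ j, ((f j).eval x).natAbs ≤ K * M ^ m := by
  choose K hK using fun j => eval_le (f j)
  refine ⟨∑ j, K j, ∑ j, (f j).natDegree, fun x M hM hx j => (hK j x M hM hx).trans ?_⟩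
  refine Nat.mul_le_mul (single_le_sum (f := K) (fun _ _ => Nat.zero_le _) (mem_univ j)) ?_
  exact Nat.pow_le_pow_right hM
    (single_le_sum (f := fun j => (f j).natDegree) (fun _ _ => Nat.zero_le _) (mem_univ j))

/-- **the average of the order of the 2-Selmer group in a one-parameter family** -/
theorem avg3 (hcnt : CNTH) (hsel : SELX) (hant : ANTX) (hrs : RSP) (hrv : RVP) (hru : RUP)
    (hsub : SUBT) (hats : ATS) (hmer : MERGE) (hexp : EXPT) (htw : TWG) (hgd : GDP)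
    (cls : J → Fin 4) (a : Fin 3 → ℤ) (f : J → ℤ[X]) (n B : ℕ) (ha : ∀ k, a k ≠ 0) (hf : Irr f)
    (hn : ∀ k, k ≠ 3 → (univ.filter (fun j => cls j = k)).card = n)
    (hrel : C (a 0) * ∏ l ∈ fs cls 0, f l - C (a 1) * ∏ l ∈ fs cls 1, f l =
      C (a 2) * ∏ l ∈ fs cls 2, f l) :
    ∃ C2 : ℝ, ∀ (N : ℤ) (X : ℕ), 1 ≤ X → N.natAbs ≤ X ^ B →
      ∑ t ∈ (Icc 1 X).filter (fun t : ℕ => ∀ j, (f j).eval (N + (t : ℤ)) ≠ 0),
        SN (Fval cls a (fun l => (f l).eval (N + (t : ℤ))) 0)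
          (Fval cls a (fun l => (f l).eval (N + (t : ℤ))) 1) ≤ C2 * X := by
  classical
  obtain ⟨z0, hz0⟩ := mak3 hats hmer hexp htw hgd cls a f n ha hf hn _ le_rfl
  set c := (∏ j, f j).natDegree + 1 with hc
  obtain ⟨hG, C', hC'⟩ := hz0 z0 le_rfl
  set z := z0 with hz
  have hz4 := hG.four
  have hz2 := hG.two
  have hc1 := hG.one
  obtain ⟨Cc, K, y0, hC0, hK1, hcn⟩ := cnt3 hcnt cls hG
  obtain ⟨Kd, m, hKd⟩ := eval_le_all f
  have hrel' : ∀ t : ℤ, Fval cls a (fun l => (f l).eval t) 0 - Fval cls a (fun l => (f l).eval t) 1 =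
      Fval cls a (fun l => (f l).eval t) 2 := by
    intro t
    have := congrArg (Polynomial.eval t) hrel
    rw [eval_sub, eval_mul, eval_mul, eval_mul, eval_C, eval_C, eval_C, eval_prod, eval_prod,
      eval_prod] at this
    exact this
  set B' : ℕ := (B + 2) * m + 1 with hB'
  set y1 : ℕ := y0 + Kd + 3 with hy1
  -- the summand
  let r : ℤ → ℝ := fun w => SN (Fval cls a (fun l => (f l).eval w) 0)
    (Fval cls a (fun l => (f l).eval w) 1)
  have hr0 : ∀ w, 0 ≤ r w := fun w => SN_nonneg _ _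
  suffices key : ∃ C2 : ℝ, ∀ θ : {θ : ℤ × ℕ // 1 ≤ θ.2 ∧ θ.1.natAbs ≤ θ.2 ^ B},
      ∑ t ∈ (Icc 1 θ.1.2).filter (fun t : ℕ => ∀ j, (f j).eval (θ.1.1 + (t : ℤ)) ≠ 0),
        r (θ.1.1 + (t : ℤ)) ≤ C2 * (θ.1.2 : ℝ) by
    obtain ⟨C2, hC2⟩ := key
    exact ⟨C2, fun N X hX hN => hC2 ⟨(N, X), hX, hN⟩⟩
  set G : (J × Ty → ℕ) → ℝ := NBT (clsI cls) eI with hGdef
  have hG0 : ∀ s, 0 ≤ G s := by
    intro s
    rw [hGdef]
    unfold NBT
    exact mul_nonneg (by positivity) (sum_nonneg fun _ _ => Nat.cast_nonneg _)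
  have hcz : c ≤ z := by omega
  have hgn : ∀ {y' : ℕ} {s : J × Ty → ℕ} (_ : s ∈ Tup (J × Ty) z y') (i : J × Ty),
      0 ≤ gp (rT cls a f z i) c (s i) := fun hs i =>
    gp_nonneg (rT_nonneg cls a f z i) hcz ((Pool.Agent.W405.RK2.mem_Tup.1 hs).1 i)
  refine hant (J × Ty) ℕ {θ : ℤ × ℕ // 1 ≤ θ.2 ∧ θ.1.natAbs ≤ θ.2 ^ B}
    (fun θ => (Icc 1 θ.1.2).filter (fun t : ℕ => ∀ j, (f j).eval (θ.1.1 + (t : ℤ)) ≠ 0))
    (fun θ => θ.1.2) (fun θ t => prt cls a f z (θ.1.1 + (t : ℤ))) (fun θ => (θ.1.2 : ℝ)) z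
    (fun y => Real.exp (Sp (fun p => rho (∏ j, f j) p) z y))
    (fun s => G s * ∏ i, gp (rT cls a f z i) c (s i))
    (fun v => ∏ i, ((4 : ℝ) ^ (v i).primeFactors.card * (gp (rT cls a f z i) c (v i) / v i)))
    (fun u => ∏ i, ((c : ℝ) ^ (u i).primeFactors.card / (u i : ℝ)))
    (fun θ t => r (θ.1.1 + (t : ℤ)))
    (Cc * 4 ^ (z + 2)) ((4 ^ B') ^ Fintype.card J) K y1 (by omega) (fun y _ => Real.exp_pos _)
    (fun θ => θ.2.1) (fun θ => Nat.cast_nonneg _) (fun X0 => ?_) (fun θ t ht => ?_)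
    (fun θ t => hr0 _) (by positivity) (one_le_pow₀ (one_le_pow₀ (by norm_num))) hK1
    (fun y s hs => ⟨?_, ?_⟩) (fun y Y hzy u hu => ?_) (fun lam hlam => ?_)
    (fun lam hlam => ?_) (fun lam hlam => ?_) ?_
  · -- small scales
    refine ⟨∑ N ∈ Icc (-((X0 : ℤ) ^ B)) ((X0 : ℤ) ^ B), ∑ t ∈ Icc 1 X0, r (N + (t : ℤ)), ?_⟩
    rintro ⟨⟨N, X⟩, hX, hN⟩ hle
    simp only at hX hN hle ⊢
    have hX0 : X ^ B ≤ X0 ^ B := Nat.pow_le_pow_left hle B
    have hmem : N ∈ Icc (-((X0 : ℤ) ^ B)) ((X0 : ℤ) ^ B) := by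
      rw [mem_Icc]
      have h1 : (N.natAbs : ℤ) ≤ (X0 : ℤ) ^ B := by exact_mod_cast hN.trans hX0
      omega
    have h1 : ∑ t ∈ (Icc 1 X).filter (fun t : ℕ => ∀ j, (f j).eval (N + (t : ℤ)) ≠ 0),
        r (N + (t : ℤ)) ≤ ∑ t ∈ Icc 1 X0, r (N + (t : ℤ)) := by
      refine sum_le_sum_of_subset_of_nonneg ?_ fun t _ _ => hr0 _
      exact (filter_subset _ _).trans (Icc_subset_Icc_right hle)
    have h2 : ∑ t ∈ Icc 1 X0, r (N + (t : ℤ)) ≤
        ∑ N ∈ Icc (-((X0 : ℤ) ^ B)) ((X0 : ℤ) ^ B), ∑ t ∈ Icc 1 X0, r (N + (t : ℤ)) :=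
      single_le_sum (f := fun N : ℤ => ∑ t ∈ Icc 1 X0, r (N + (t : ℤ)))
        (fun _ _ => sum_nonneg fun _ _ => hr0 _) hmem
    have h3 : 0 ≤ ∑ N ∈ Icc (-((X0 : ℤ) ^ B)) ((X0 : ℤ) ^ B), ∑ t ∈ Icc 1 X0, r (N + (t : ℤ)) :=
      sum_nonneg fun _ _ => sum_nonneg fun _ _ => hr0 _
    have h4 : (1 : ℝ) ≤ (X : ℝ) := by exact_mod_cast hX
    exact (h1.trans h2).trans (le_mul_of_one_le_right h3 h4)
  · exact prt_Gd hG (mem_filter.1 ht).2
  · exact mul_nonneg (hG0 s) (prod_nonneg fun i _ => hgn hs i)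
  · exact prod_nonneg fun i _ => mul_nonneg (by positivity)
      (div_nonneg (hgn hs i) (Nat.cast_nonneg _))
  · exact prod_nonneg fun i _ => by positivity
  · -- the first sum
    obtain ⟨A, hA⟩ := hrs (J × Ty) z c (rT cls a f z) G
      (fun y => C' * Real.exp (Sp (fun p => rho (∏ j, f j) p) z y)) 4 lam (by omega)
      (fun i p => ⟨rT_nonneg cls a f z i p, rT_le hG i p⟩) (by norm_num) hlam hG0
      (fun y hy s e hse => hsub (J × Ty) (clsI cls) eI z y (by omega) s e hse)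
      (fun y hy => hC' y hy)
    refine ⟨A * C', fun y hy => ?_⟩
    have := hA y hy
    rw [mul_assoc]
    exact this
  · exact hrv (J × Ty) z c (rT cls a f z) 4 lam (by omega)
      (fun i p => ⟨rT_nonneg cls a f z i p, rT_le hG i p⟩) (by norm_num) hlam
  · exact hru (J × Ty) (c : ℝ) lam (by exact_mod_cast hc1) hlam
  -- the local majorant
  rintro ⟨⟨N, X⟩, hX1, hN⟩ y Y k hy0 hzy hyK hk s hs v hv u hu h8 T' hT' hval
  simp only at hX1 hN hyK hk h8 hT' hval ⊢
  have hy00 : y0 ≤ y := by omega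
  have hyX : y ≤ X := le_trans (Nat.le_self_pow (by omega) y) hyK
  set g : Finset ℕ → ℝ := fun E => (NL (∏ i, s i) (LTs (clsI cls) eI s E) : ℝ) with hg
  have hg0 : ∀ E, 0 ≤ g E := fun E => Nat.cast_nonneg _
  set ng : ℕ → Finset ℕ := fun t => negx cls (fun l => (f l).eval (N + (t : ℤ)))
    (S1 z y (fun l => (f l).eval (N + (t : ℤ)))) with hng
  have h1 : ∀ t ∈ T', r (N + (t : ℤ)) ≤
      4 ^ (z + 2) * ((4 ^ B') ^ Fintype.card J) ^ k *
        (∏ i, (4 : ℝ) ^ (v i).primeFactors.card) * g (ng t) := by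
    intro t ht
    have htT := hT' ht
    rw [mem_filter] at htT
    obtain ⟨ht1, ht0⟩ := htT
    obtain ⟨hts, htv, _⟩ := hval t ht
    have hsize : ∀ j, ((f j).eval (N + (t : ℤ))).natAbs ≤ X ^ B' := by
      intro j
      have e2 : t ≤ X := (mem_Icc.1 ht1).2
      have e5 : X ^ B ≤ X ^ (B + 1) := Nat.pow_le_pow_right hX1 (by omega)
      have e6 : X ≤ X ^ (B + 1) := Nat.le_self_pow (by omega) X
      have e8 : (N + (t : ℤ)).natAbs ≤ X ^ (B + 2) := by
        calc (N + (t : ℤ)).natAbs ≤ N.natAbs + t :=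
              (Int.natAbs_add_le _ _).trans (by rw [Int.natAbs_natCast])
          _ ≤ X ^ (B + 1) + X ^ (B + 1) := Nat.add_le_add (hN.trans e5) (e2.trans e6)
          _ = 2 * X ^ (B + 1) := by ring
          _ ≤ X * X ^ (B + 1) := Nat.mul_le_mul_right _ (by omega)
          _ = X ^ (B + 2) := by ring
      calc ((f j).eval (N + (t : ℤ))).natAbs ≤ Kd * (X ^ (B + 2)) ^ m :=
            hKd _ _ (Nat.one_le_pow _ _ hX1) e8 j
        _ ≤ X * (X ^ (B + 2)) ^ m := Nat.mul_le_mul_right _ (by omega)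
        _ = X ^ B' := by rw [hB', ← pow_mul]; ring
    have hr := (rank3 hsel (cls := cls) hG ha ht0 (hrel' _) (y := y) (X := X) (k := k) (B := B')
      hsize hX1 (by omega) hk).2
    rw [hts, htv] at hr
    exact hr
  have hneg : ∀ t ∈ T', ng t ∈ (P3 (clsI cls) s).powerset := by
    intro t ht
    have htT := hT' ht
    rw [mem_filter] at htT
    obtain ⟨ht1, ht0⟩ := htT
    obtain ⟨hts, htv, _⟩ := hval t ht
    rw [mem_powerset, hng]
    unfold negx
    refine (filter_subset _ _).trans ?_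
    unfold P3
    have h5 : ∏ j ∈ univ.filter (fun j => cls j = 3),
        S1 z y (fun l => (f l).eval (N + (t : ℤ))) j =
        ∏ i ∈ univ.filter (fun i => clsI cls i = 3), s i := by
      rw [prod_filter, prod_filter, Fintype.prod_prod_type]
      refine prod_congr rfl fun j _ => ?_
      unfold clsI
      by_cases h6 : cls j = 3
      · simp only [h6, if_true]
        rw [← S1_prod (cls := cls) (a := a) ht0 y j, hts]
      · simp [h6]
    rw [h5]
  have h2 : ∑ t ∈ T', g (ng t) =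
      ∑ E ∈ (P3 (clsI cls) s).powerset,
        ((T'.filter (fun t : ℕ => ng t = E)).card : ℝ) * g E := by
    rw [← sum_fiberwise_of_maps_to hneg]
    refine sum_congr rfl fun E _ => ?_
    rw [← nsmul_eq_mul, ← sum_const]
    refine sum_congr rfl fun t ht => ?_
    rw [(mem_filter.1 ht).2]
  set Q : ℝ := Cc * X * (1 / 2) ^ (P3 (clsI cls) s).card *
      (∏ i, gp (rT cls a f z i) c (s i)) * (∏ i, gp (rT cls a f z i) c (v i) / v i) *
      (∏ i, (c : ℝ) ^ (u i).primeFactors.card / u i) *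
      Real.exp (-Sp (fun p => rho (∏ j, f j) p) z y) with hQ
  have h8' : (∏ i, s i * v i * u i) ^ 8 ≤ X := h8
  have h3 : ∀ E ∈ (P3 (clsI cls) s).powerset,
      ((T'.filter (fun t : ℕ => ng t = E)).card : ℝ) * g E ≤ Q * g E := by
    intro E _
    refine mul_le_mul_of_nonneg_right ?_ (hg0 E)
    refine hcn N X y Y hy00 hzy hyK s v u hs hv hu h8' E _ fun t ht => ?_
    rw [mem_filter] at ht
    obtain ⟨ht', htE⟩ := ht
    have htT := hT' ht'
    rw [mem_filter] at htT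
    obtain ⟨hts, htv, htu⟩ := hval t ht'
    exact ⟨htT.1, htT.2, hts, htv, htu, htE⟩
  calc ∑ t ∈ T', r (N + (t : ℤ))
      ≤ ∑ t ∈ T', 4 ^ (z + 2) * ((4 ^ B') ^ Fintype.card J) ^ k *
        (∏ i, (4 : ℝ) ^ (v i).primeFactors.card) * g (ng t) := sum_le_sum h1
    _ = 4 ^ (z + 2) * ((4 ^ B') ^ Fintype.card J) ^ k *
        (∏ i, (4 : ℝ) ^ (v i).primeFactors.card) *
          ∑ E ∈ (P3 (clsI cls) s).powerset,
            ((T'.filter (fun t : ℕ => ng t = E)).card : ℝ) * g E := by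
        rw [← mul_sum, h2]
    _ ≤ 4 ^ (z + 2) * ((4 ^ B') ^ Fintype.card J) ^ k *
        (∏ i, (4 : ℝ) ^ (v i).primeFactors.card) *
          ∑ E ∈ (P3 (clsI cls) s).powerset, Q * g E :=
        mul_le_mul_of_nonneg_left (sum_le_sum h3) (by positivity)
    _ = _ := by
        have e1 : G s = (1 / 2) ^ (P3 (clsI cls) s).card *
            ∑ E ∈ (P3 (clsI cls) s).powerset, g E := by
          rw [hGdef]
          rfl
        rw [← mul_sum, e1, hQ, Real.exp_neg, prod_mul_distrib]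
        ring

end

end Pool.Agent.TH841.PT
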