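import Mathlib
import Pool.Agent.TH841.PT.Avg
import Pool.Agent.TH841.PT.Cnt3

/-!
# Project PT: the moments over the values of a polynomial, at the arguments where a second
polynomial has no small prime factors
-/

set_option autoImplicit false

namespace Pool.Agent.TH841.PT

open Finset Polynomial Pool.Agent.W262.RK Pool.Agent.W307.RT Pool.Agent.W307.RS

open Pool.Agent.H474R2.PG (rho)

open Pool.Agent.W307.SE (R4G)

/-- Mertens for the primes in `(y, X]` -/
lemma tail_le {z : ℕ} (hz : 3 ≤ z) : ∃ A : ℝ, 0 ≤ A ∧ ∀ (y X k : ℕ), z < y → X < (y + 1) ^ k →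
    ∑ p ∈ PS y X, 1 / (p : ℝ) ≤ k + A := by
  obtain ⟨C, hC0, hC⟩ := mert (f := X) irreducible_X (by simp) hz
  have hr : ∀ p : ℕ, p.Prime → rho X p = 1 := by
    intro p hp
    unfold rho
    rw [card_eq_one]
    refine ⟨0, ?_⟩
    ext a
    rw [mem_filter, mem_range, mem_singleton, eval_X]
    constructor
    · rintro ⟨h1, h2⟩
      exact Nat.eq_zero_of_dvd_of_lt (Int.natCast_dvd_natCast.1 h2) h1
    · rintro rfl
      exact ⟨hp.pos, dvd_zero _⟩
  refine ⟨2 * C + 1, by positivity, fun y X k hy hX => ?_⟩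
  have hy4 : (4 : ℝ) ≤ y := by exact_mod_cast (by omega : 4 ≤ y)
  rcases Nat.lt_or_ge y X with hlt | hge
  · have h1 := abs_le.1 (hC y hy)
    have h2 := abs_le.1 (hC X (by omega))
    have h3 : Sp (fun p => (rho Polynomial.X p : ℝ)) z X =
        Sp (fun p => (rho Polynomial.X p : ℝ)) z y + ∑ p ∈ PS y X, 1 / (p : ℝ) := by
      unfold Sp
      have h4 : PS z X = PS z y ∪ PS y X := by
        ext p
        unfold PS
        simp only [mem_filter, mem_union, mem_Ioc]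
        constructor
        · rintro ⟨⟨h5, h6⟩, h7⟩
          by_cases h8 : p ≤ y
          · exact Or.inl ⟨⟨h5, h8⟩, h7⟩
          · exact Or.inr ⟨⟨by omega, h6⟩, h7⟩
        · rintro (⟨⟨h5, h6⟩, h7⟩ | ⟨⟨h5, h6⟩, h7⟩)
          · exact ⟨⟨h5, by omega⟩, h7⟩
          · exact ⟨⟨by omega, h6⟩, h7⟩
      rw [h4, sum_union]
      · congr 1
        refine sum_congr rfl fun p hp => ?_
        beta_reduce
        rw [hr p (mem_PS'.1 hp).2]
        norm_num
      · rw [disjoint_left]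
        intro p hp hp'
        have := (mem_PS'.1 hp).1
        have := (mem_PS'.1 hp').1
        omega
    have hly : 0 < Real.log y := Real.log_pos (by linarith)
    have hX4 : (4 : ℝ) ≤ X := by exact_mod_cast (by omega : 4 ≤ X)
    have hlX : 0 < Real.log X := Real.log_pos (by linarith)
    have hk0 : k ≠ 0 := by
      rintro rfl
      rw [pow_zero] at hX
      omega
    have hk : (0 : ℝ) < k := by exact_mod_cast Nat.pos_of_ne_zero hk0
    have h5 : Real.log X ≤ k * (2 * Real.log y) := by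
      have h6 : (X : ℝ) ≤ ((y : ℝ) ^ 2) ^ k := by
        have h7 : (X : ℝ) ≤ ((y : ℝ) + 1) ^ k := by exact_mod_cast hX.le
        refine h7.trans (pow_le_pow_left₀ (by linarith) ?_ k)
        nlinarith
      have h8 := Real.log_le_log (by linarith) h6
      rw [Real.log_pow, Real.log_pow] at h8
      exact_mod_cast h8
    have h6 : Real.log (Real.log X) ≤ Real.log (2 * k) + Real.log (Real.log y) := by
      rw [← Real.log_mul (by positivity) hly.ne']
      refine Real.log_le_log hlX ?_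
      linarith
    have h7 : Real.log (2 * k) ≤ k + 1 := by
      have h8 : Real.log (2 * k) = Real.log 2 + Real.log k := Real.log_mul (by norm_num) hk.ne'
      have h9 := Real.log_le_sub_one_of_pos hk
      have h10 := Real.log_two_lt_d9
      linarith
    linarith [h1.1, h1.2, h2.1, h2.2]
  · have h3 : PS y X = ∅ := by
      unfold PS
      rw [Ioc_eq_empty (by omega), filter_empty]
    rw [h3, sum_empty]
    positivity

/-- splitting of the sum at `y` -/
lemma Sp_split {a : ℕ → ℝ} (z y X : ℕ) (ha : ∀ p, 0 ≤ a p) :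
    Sp a z X ≤ Sp a z y + ∑ p ∈ PS y X, a p / (p : ℝ) := by
  unfold Sp
  have h4 : PS z X ⊆ PS z y ∪ PS y X := by
    intro p
    unfold PS
    simp only [mem_filter, mem_union, mem_Ioc]
    rintro ⟨⟨h5, h6⟩, h7⟩
    by_cases h8 : p ≤ y
    · exact Or.inl ⟨⟨h5, h8⟩, h7⟩
    · exact Or.inr ⟨⟨by omega, h6⟩, h7⟩
  refine (sum_le_sum_of_subset_of_nonneg h4 fun p _ _ =>
    div_nonneg (ha p) (Nat.cast_nonneg p)).trans ?_
  have h5 := sum_union_inter (s₁ := PS z y) (s₂ := PS y X) (f := fun p => a p / (p : ℝ))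
  have h6 : 0 ≤ ∑ p ∈ PS z y ∩ PS y X, a p / (p : ℝ) :=
    sum_nonneg fun p _ => div_nonneg (ha p) (Nat.cast_nonneg p)
  linarith

/-- the factor for the second polynomial -/
lemma exp_G {G : ℤ[X]} {z c : ℕ} (hG : ∀ p : ℕ, p.Prime → z < p → rho G p ≤ c) {A : ℝ}
    {y X k : ℕ} (hzy : z < y) (h : ∑ p ∈ PS y X, 1 / (p : ℝ) ≤ k + A) :
    Real.exp (-Sp (fun p => (rho G p : ℝ)) z y) ≤
      Real.exp (c * A) * (Real.exp c) ^ k * Real.exp (-Sp (fun p => (rho G p : ℝ)) z X) := by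
  rw [← Real.exp_nat_mul, ← Real.exp_add, ← Real.exp_add]
  apply Real.exp_le_exp.2
  have h1 := Sp_split (a := fun p => (rho G p : ℝ)) z y X fun p => Nat.cast_nonneg _
  have h2 : ∑ p ∈ PS y X, (rho G p : ℝ) / (p : ℝ) ≤ c * ∑ p ∈ PS y X, 1 / (p : ℝ) := by
    rw [mul_sum]
    refine sum_le_sum fun p hp => ?_
    have hp' := mem_PS'.1 hp
    rw [mul_one_div]
    refine div_le_div_of_nonneg_right ?_ (Nat.cast_nonneg _)
    exact_mod_cast hG p hp'.2 (by omega)
  have h3 : (c : ℝ) * ∑ p ∈ PS y X, 1 / (p : ℝ) ≤ c * (k + A) :=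
    mul_le_mul_of_nonneg_left h (Nat.cast_nonneg _)
  beta_reduce at h1
  nlinarith [h1, h2, h3]

/-- `G(N + t)` has no prime factors `p > z` with `p² ≤ X` -/
def Sft (G : ℤ[X]) (z X : ℕ) (t : ℤ) : Prop :=
  ∀ p : ℕ, p.Prime → z < p → p ^ 2 ≤ X → ¬ (p : ℤ) ∣ G.eval t

lemma rhoT_unit (D : ℤ[X]) (p : ℕ) (θ : Unit) : rhoT D (fun _ _ => ()) p θ = rho D p := by
  unfold rhoT rho
  congr 1
  ext x
  simp only [mem_filter, and_true]

/-- both polynomials are good -/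
lemma good2_of {D G : ℤ[X]} {z c : ℕ} (h : GoodD (D * G) z c) : GoodD D z c ∧ Good2 D G z c := by
  have hpt : ∀ p : ℕ, p.Prime → z < p → ∀ t : ℤ, ¬ ((p : ℤ) ∣ D.eval t ∧ (p : ℤ) ∣ G.eval t) := by
    rintro p hp hz t ⟨h1, h2⟩
    refine (h p hp hz).2 t ?_ ?_
    · rw [eval_mul]
      exact h1.mul_right _
    · rw [derivative_mul, eval_add, eval_mul, eval_mul]
      exact dvd_add (h2.mul_left _) (h1.mul_right _)
  have hcard : ∀ p : ℕ, p.Prime → z < p → rho D p + rho G p ≤ c := by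
    intro p hp hz
    refine le_trans (le_of_eq ?_) (h p hp hz).1
    unfold rho
    rw [← card_union_of_disjoint]
    · congr 1
      ext x
      simp only [mem_union, mem_filter, eval_mul]
      constructor
      · rintro (⟨h1, h2⟩ | ⟨h1, h2⟩)
        · exact ⟨h1, h2.mul_right _⟩
        · exact ⟨h1, h2.mul_left _⟩
      · rintro ⟨h1, h2⟩
        rcases (Nat.prime_iff_prime_int.1 hp).dvd_mul.1 h2 with h3 | h3
        · exact Or.inl ⟨h1, h3⟩
        · exact Or.inr ⟨h1, h3⟩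
    · rw [disjoint_left]
      intro x hx hx'
      exact hpt p hp hz x ⟨(mem_filter.1 hx).2, (mem_filter.1 hx').2⟩
  refine ⟨fun p hp hz => ⟨?_, fun t h1 h2 => ?_⟩, fun p hp hz => ⟨hcard p hp hz, hpt p hp hz⟩⟩
  · exact (Nat.le_add_right _ _).trans (hcard p hp hz)
  · refine (h p hp hz).2 t ?_ ?_
    · rw [eval_mul]
      exact h1.mul_right _
    · rw [derivative_mul, eval_add, eval_mul, eval_mul]
      exact dvd_add (h2.mul_right _) (h1.mul_right _)

/-- **the moments over the values of a polynomial, with a second polynomial** -/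
theorem avgpG {Rf : ℤ → ℤ → ℝ} (hRf : ∀ A B, 0 ≤ Rf A B) (hcnt : CNTH) (hrank : R4G Rf)
    (hant : ANTX) (hrs : RSP) (hrv : RVP) (hru : RUP) (hgd : GDP)
    (hsub : Pool.Agent.W307.RS.SUBBK) (hma : MAKP) (a : Fin 3 → ℤ) (D G : ℤ[X]) (k0 B : ℕ)
    (ha : ∀ k, a k ≠ 0) (ha2 : a 0 - a 1 = a 2)
    (hDG : Squarefree ((D * G).map (Int.castRingHom ℚ)))
    (hd : 0 < D.natDegree) (hk0 : 2 * (D * G).natDegree ≤ 4 ^ k0) :
    ∃ z0 : ℕ, ∀ z, z0 ≤ z → ∃ C : ℝ, ∀ (N : ℤ) (X : ℕ), 1 ≤ X → N.natAbs ≤ X ^ B →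
      ∀ T : Finset ℕ, T ⊆ Icc 1 X → (∀ t ∈ T, D.eval (N + (t : ℤ)) ≠ 0 ∧ Sft G z X (N + (t : ℤ))) →
      ∑ t ∈ T, Rf (a 0 * D.eval (N + (t : ℤ))) (a 1 * D.eval (N + (t : ℤ))) ^ k0 ≤
        C * (X * Real.exp (-Sp (fun p => (rho G p : ℝ)) z X)) := by
  set c := (D * G).natDegree with hc
  have hD : Squarefree (D.map (Int.castRingHom ℚ)) := by
    rw [Polynomial.map_mul] at hDG
    exact hDG.squarefree_of_dvd (Dvd.intro _ rfl)
  have hDG0 : D * G ≠ 0 := by
    intro h0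
    rw [h0, Polynomial.map_zero] at hDG
    exact not_squarefree_zero hDG
  have hDc : D.natDegree ≤ c := by
    rw [hc, natDegree_mul (left_ne_zero_of_mul hDG0) (right_ne_zero_of_mul hDG0)]
    omega
  obtain ⟨κ, hκdef⟩ : ∃ κ : Unit → Fin 3 → ℤ, κ = fun _ => a := ⟨_, rfl⟩
  have hκ0 : ∀ j k, κ j k ≠ 0 := by
    rw [hκdef]
    exact fun _ => ha
  obtain ⟨z0, hz0⟩ := hma D hD hd c k0 hDc hk0 κ hκ0
  obtain ⟨zg, hzg⟩ := hgd (D * G) hDG
  refine ⟨z0 + zg + (2 * c + 2) + 4 + ∑ k, (a k).natAbs, fun z hz => ?_⟩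
  have hza : ∀ k, (a k).natAbs ≤ z := by
    intro k
    have h2 := single_le_sum (f := fun k => (a k).natAbs) (fun _ _ => Nat.zero_le _) (mem_univ k)
    omega
  have hκz : ∀ j k, (κ j k).natAbs ≤ z := by
    rw [hκdef]
    exact fun _ => hza
  obtain ⟨hG, hG2⟩ := good2_of (hzg z (by omega))
  obtain ⟨C', hC'⟩ := hz0 z (by omega)
  obtain ⟨C, K, y0, hC0, hK1, hcn⟩ := hcnt c z (by omega)
  obtain ⟨Kd, hKd⟩ := eval_le D
  obtain ⟨At, hAt0, hAt⟩ := tail_le (z := z) (by omega)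
  set B' : ℕ := (B + 2) * D.natDegree + 1 with hB'
  set y1 : ℕ := y0 + Kd + 3 with hy1
  -- the summand
  let r : ℤ → ℝ := fun w => Rf (a 0 * D.eval w) (a 1 * D.eval w) ^ k0
  have hr0 : ∀ w, 0 ≤ r w := fun w => pow_nonneg (hRf _ _) _
  suffices key : ∃ C2 : ℝ, ∀ θ : {θ : (ℤ × ℕ) × Finset ℕ // (1 ≤ θ.1.2 ∧ θ.1.1.natAbs ≤ θ.1.2 ^ B) ∧
      θ.2 ⊆ Icc 1 θ.1.2 ∧ ∀ t ∈ θ.2, D.eval (θ.1.1 + (t : ℤ)) ≠ 0 ∧
        Sft G z θ.1.2 (θ.1.1 + (t : ℤ))},
      ∑ t ∈ θ.1.2, r (θ.1.1.1 + (t : ℤ)) ≤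
        C2 * ((θ.1.1.2 : ℝ) * Real.exp (-Sp (fun p => (rho G p : ℝ)) z θ.1.1.2)) by
    obtain ⟨C2, hC2⟩ := key
    exact ⟨C2, fun N X hX hN T hT hT' => hC2 ⟨((N, X), T), ⟨hX, hN⟩, hT, hT'⟩⟩
  set GG : (Unit → ℕ) → ℝ := NBK k0 κ with hGdef
  have hG0 : ∀ s, 0 ≤ GG s := by
    intro s
    rw [hGdef]
    unfold NBK
    exact mul_nonneg (by positivity) (sum_nonneg fun _ _ => pow_nonneg (Nat.cast_nonneg _) _)
  have hcz : c ≤ z := by omega
  have hrc : ∀ p, p.Prime → rz D z p ≤ c := by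
    intro p hp
    unfold rz
    split_ifs with h
    · exact_mod_cast (hG p hp h).1
    · exact Nat.cast_nonneg _
  -- the weights for the primes only
  set w : ℕ → ℝ := fun p => if p.Prime then rz D z p else 0 with hw
  have hw0 : ∀ p, 0 ≤ w p := by
    intro p
    rw [hw]
    simp only
    split_ifs
    · exact rz_nonneg _ _ _
    · exact le_rfl
  have hwc : ∀ p, w p ≤ c := by
    intro p
    rw [hw]
    simp only
    split_ifs with h
    · exact hrc p h
    · exact Nat.cast_nonneg _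
  have hgw : ∀ d, gp w c d = gp (rz D z) c d := by
    intro d
    unfold gp
    refine prod_congr rfl fun p hp => ?_
    rw [hw]
    simp only
    rw [if_pos (Nat.prime_of_mem_primeFactors hp)]
  have hgwn : ∀ {y d : ℕ}, d ∣ PP z y → 0 ≤ gp w c d := fun hd => gp_nonneg hw0 hcz hd
  have hc1 : 1 ≤ c := by omega
  refine hant Unit ℕ {θ : (ℤ × ℕ) × Finset ℕ // (1 ≤ θ.1.2 ∧ θ.1.1.natAbs ≤ θ.1.2 ^ B) ∧
      θ.2 ⊆ Icc 1 θ.1.2 ∧ ∀ t ∈ θ.2, D.eval (θ.1.1 + (t : ℤ)) ≠ 0 ∧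
        Sft G z θ.1.2 (θ.1.1 + (t : ℤ))}
    (fun θ => θ.1.2)
    (fun θ => θ.1.1.2) (fun θ t _ => D.eval (θ.1.1.1 + (t : ℤ)))
    (fun θ => (θ.1.1.2 : ℝ) * Real.exp (-Sp (fun p => (rho G p : ℝ)) z θ.1.1.2)) z
    (fun y => Real.exp (Sp (fun p => rho D p) z y))
    (fun s => GG s * ∏ j, gp w c (s j))
    (fun v => ∏ j, (((4 : ℝ) ^ k0) ^ (v j).primeFactors.card * (gp w c (v j) / v j)))
    (fun u => ∏ j, ((c : ℝ) ^ (u j).primeFactors.card / (u j : ℝ)))
    (fun θ t => r (θ.1.1.1 + (t : ℤ)))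
    (C * (4 ^ (z + 2)) ^ k0 * Real.exp (c * At)) ((4 ^ B') ^ k0 * Real.exp c) (K + 2) y1
    (by omega) (fun y _ => Real.exp_pos _)
    (fun θ => θ.2.1.1) (fun θ => by positivity) (fun X0 => ?_) (fun θ t ht => ?_)
    (fun θ t => hr0 _) (by positivity)
    (one_le_mul_of_one_le_of_one_le (one_le_pow₀ (one_le_pow₀ (by norm_num)))
      (Real.one_le_exp (Nat.cast_nonneg _))) (by omega)
    (fun y s hs => ⟨?_, ?_⟩) (fun y Y _ u hu => ?_) (fun lam hlam => ?_)
    (fun lam hlam => ?_) (fun lam hlam => ?_) ?_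
  · -- small scales
    refine ⟨(∑ N ∈ Icc (-((X0 : ℤ) ^ B)) ((X0 : ℤ) ^ B), ∑ t ∈ Icc 1 X0, r (N + (t : ℤ))) *
      Real.exp (Sp (fun p => (rho G p : ℝ)) z X0), ?_⟩
    rintro ⟨⟨⟨N, X⟩, T⟩, ⟨hX, hN⟩, hT, hT'⟩ hle
    simp only at hX hN hT hT' hle ⊢
    have hX0 : X ^ B ≤ X0 ^ B := Nat.pow_le_pow_left hle B
    have hmem : N ∈ Icc (-((X0 : ℤ) ^ B)) ((X0 : ℤ) ^ B) := by
      rw [mem_Icc]
      have h1 : (N.natAbs : ℤ) ≤ (X0 : ℤ) ^ B := by exact_mod_cast hN.trans hX0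
      omega
    have h1 : ∑ t ∈ T, r (N + (t : ℤ)) ≤ ∑ t ∈ Icc 1 X0, r (N + (t : ℤ)) := by
      refine sum_le_sum_of_subset_of_nonneg ?_ fun t _ _ => hr0 _
      exact hT.trans (Icc_subset_Icc_right hle)
    have h2 : ∑ t ∈ Icc 1 X0, r (N + (t : ℤ)) ≤
        ∑ N ∈ Icc (-((X0 : ℤ) ^ B)) ((X0 : ℤ) ^ B), ∑ t ∈ Icc 1 X0, r (N + (t : ℤ)) :=
      single_le_sum (f := fun N : ℤ => ∑ t ∈ Icc 1 X0, r (N + (t : ℤ)))
        (fun _ _ => sum_nonneg fun _ _ => hr0 _) hmem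
    have h3 : 0 ≤ ∑ N ∈ Icc (-((X0 : ℤ) ^ B)) ((X0 : ℤ) ^ B), ∑ t ∈ Icc 1 X0, r (N + (t : ℤ)) :=
      sum_nonneg fun _ _ => sum_nonneg fun _ _ => hr0 _
    have h4 : (1 : ℝ) ≤ (X : ℝ) := by exact_mod_cast hX
    have h5 : Sp (fun p => (rho G p : ℝ)) z X ≤ Sp (fun p => (rho G p : ℝ)) z X0 := by
      unfold Sp
      refine sum_le_sum_of_subset_of_nonneg ?_ fun p _ _ =>
        div_nonneg (Nat.cast_nonneg _) (Nat.cast_nonneg _)
      intro p hp
      have := mem_PS'.1 hp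
      exact mem_PS'.2 ⟨⟨this.1.1, this.1.2.trans hle⟩, this.2⟩
    have h6 : (1 : ℝ) ≤ Real.exp (Sp (fun p => (rho G p : ℝ)) z X0) *
        Real.exp (-Sp (fun p => (rho G p : ℝ)) z X) := by
      rw [← Real.exp_add]
      exact Real.one_le_exp (by linarith)
    have h7 : (1 : ℝ) ≤ Real.exp (Sp (fun p => (rho G p : ℝ)) z X0) *
        (X * Real.exp (-Sp (fun p => (rho G p : ℝ)) z X)) := by
      have := mul_le_mul h4 h6 zero_le_one (by linarith : (0 : ℝ) ≤ X)
      calc (1 : ℝ) = 1 * 1 := by ring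
        _ ≤ X * (Real.exp (Sp (fun p => (rho G p : ℝ)) z X0) *
            Real.exp (-Sp (fun p => (rho G p : ℝ)) z X)) := this
        _ = _ := by ring
    rw [mul_assoc]
    exact (h1.trans h2).trans (le_mul_of_one_le_right h3 h7)
  · -- good values
    refine ⟨fun _ => (θ.2.2.2 t ht).1, fun p hp hzp j l hjl _ => absurd rfl hjl⟩
  · exact mul_nonneg (hG0 s) (prod_nonneg fun j _ => hgwn (Tup_unit hs))
  · exact prod_nonneg fun j _ => mul_nonneg (by positivity)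
      (div_nonneg (hgwn (Tup_unit hs)) (Nat.cast_nonneg _))
  · exact prod_nonneg fun j _ => by positivity
  · -- the first sum
    obtain ⟨A, hA⟩ := hrs Unit z c (fun _ => w) GG
      (fun y => C' * Real.exp (Sp (fun p => rho D p) z y)) (4 ^ k0) lam (by omega)
      (fun _ p => ⟨hw0 p, hwc p⟩) (one_le_pow₀ (by norm_num)) hlam hG0
      (fun y hy s e hse => hsub Unit k0 κ z y (by omega) hκ0 hκz s e hse)
      (fun y hy => by
        simp only [hgw]
        exact hC' y hy)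
    refine ⟨A * C', fun y hy => ?_⟩
    have := hA y hy
    rw [mul_assoc]
    exact this
  · exact hrv Unit z c (fun _ => w) (4 ^ k0) lam (by omega)
      (fun _ p => ⟨hw0 p, hwc p⟩) (one_le_pow₀ (by norm_num)) hlam
  · exact hru Unit (c : ℝ) lam (by exact_mod_cast hc1) hlam
  -- the local majorant
  rintro ⟨⟨⟨N, X⟩, T⟩, ⟨hX1, hN⟩, hT, hTT⟩ y Y k hy0 hzy hyK hk s hs v hv u hu h8 T' hT' hval
  simp only at hX1 hN hT hTT hyK hk h8 hT' hval ⊢
  have hy00 : y0 ≤ y := by omega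
  have hyX : y ≤ X := le_trans (Nat.le_self_pow (by omega) y) hyK
  have hyK' : y ^ K ≤ X := (Nat.pow_le_pow_right (by omega) (by omega)).trans hyK
  have hy2 : y ^ 2 ≤ X := (Nat.pow_le_pow_right (by omega) (by omega)).trans hyK
  set g : Finset ℕ → ℝ := fun E => (NL (∏ j, s j) (LLs (c3 Unit) κ s E) : ℝ) ^ k0 with hg
  have hg0 : ∀ E, 0 ≤ g E := fun E => pow_nonneg (Nat.cast_nonneg _) _
  have hPs : ∏ j, s j = s () := by simp
  have h1 : ∀ t ∈ T', r (N + (t : ℤ)) ≤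
      (4 ^ (z + 2)) ^ k0 * ((4 ^ B') ^ k0) ^ k *
        (4 ^ k0) ^ (v ()).primeFactors.card * g (ngs (D.eval (N + (t : ℤ))) (s ())) := by
    intro t ht
    have htT := hT' ht
    have ht1 := hT htT
    have ht0 := (hTT t htT).1
    obtain ⟨hts, htv, _⟩ := hval t ht
    have hsize : (D.eval (N + (t : ℤ))).natAbs ≤ X ^ B' := by
      have e2 : t ≤ X := (mem_Icc.1 ht1).2
      have e5 : X ^ B ≤ X ^ (B + 1) := Nat.pow_le_pow_right hX1 (by omega)
      have e6 : X ≤ X ^ (B + 1) := Nat.le_self_pow (by omega) X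
      have e7 : 1 ≤ X ^ (B + 1) := Nat.one_le_pow _ _ hX1
      have e8 : (N + (t : ℤ)).natAbs ≤ X ^ (B + 2) := by
        calc (N + (t : ℤ)).natAbs ≤ N.natAbs + t :=
              (Int.natAbs_add_le _ _).trans (by rw [Int.natAbs_natCast])
          _ ≤ X ^ (B + 1) + X ^ (B + 1) := Nat.add_le_add (hN.trans e5) (e2.trans e6)
          _ = 2 * X ^ (B + 1) := by ring
          _ ≤ X * X ^ (B + 1) := Nat.mul_le_mul_right _ (by omega)
          _ = X ^ (B + 2) := by ring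
      calc (D.eval (N + (t : ℤ))).natAbs ≤ Kd * (X ^ (B + 2)) ^ D.natDegree :=
            hKd _ _ (Nat.one_le_pow _ _ hX1) e8
        _ ≤ X * (X ^ (B + 2)) ^ D.natDegree := Nat.mul_le_mul_right _ (by omega)
        _ = X ^ B' := by rw [hB', ← pow_mul]; ring
    have hr := rankp hrank a ha ha2 z y X k B' (by omega) hza _ ht0 hsize hX1 (by omega) hk
    have es1 : S1 z y (fun _ : Unit => D.eval (N + (t : ℤ))) = s := hts
    have es2 : S2 z y (fun _ : Unit => D.eval (N + (t : ℤ))) = v := htv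
    rw [es1, es2] at hr
    refine (pow_le_pow_left₀ (hRf _ _) hr k0).trans (le_of_eq ?_)
    rw [hg, hκdef]
    simp only [mul_pow, hPs]
    rw [← pow_mul 4 (v ()).primeFactors.card k0, ← pow_mul 4 k0, mul_comm k0,
      ← pow_mul (4 ^ B') k k0, ← pow_mul (4 ^ B') k0 k, mul_comm k k0]
  have hneg : ∀ t ∈ T', ngs (D.eval (N + (t : ℤ))) (s ()) ∈ (s ()).primeFactors.powerset := by
    intro t _
    rw [mem_powerset]
    exact filter_subset _ _
  have h2 : ∑ t ∈ T', g (ngs (D.eval (N + (t : ℤ))) (s ())) =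
      ∑ E ∈ (s ()).primeFactors.powerset,
        ((T'.filter (fun t : ℕ => ngs (D.eval (N + (t : ℤ))) (s ()) = E)).card : ℝ) * g E := by
    rw [← sum_fiberwise_of_maps_to hneg]
    refine sum_congr rfl fun E _ => ?_
    rw [← nsmul_eq_mul, ← sum_const]
    refine sum_congr rfl fun t ht => ?_
    rw [(mem_filter.1 ht).2]
  set SG : ℝ := Real.exp (-Sp (fun p => (rho G p : ℝ)) z X) with hSG
  set Q : ℝ := C * X * (1 / 2) ^ (s ()).primeFactors.card * gp (fun p => rho D p) c (s ()) *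
        (gp (fun p => rho D p) c (v ()) / v ()) * ((c : ℝ) ^ (u ()).primeFactors.card / u ()) *
        Real.exp (-Sp (fun p => rho D p) z y) * (Real.exp (c * At) * (Real.exp c) ^ k * SG) with hQ
  have h8' : (s () * v () * u ()) ^ 8 ≤ X := by simpa using h8
  have hGc : ∀ p : ℕ, p.Prime → z < p → rho G p ≤ c := fun p hp hzp =>
    (Nat.le_add_left _ _).trans (hG2 p hp hzp).1
  have hexpG := exp_G hGc hzy (hAt y X k hzy hk)
  have h3 : ∀ E ∈ (s ()).primeFactors.powerset,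
      ((T'.filter (fun t : ℕ => ngs (D.eval (N + (t : ℤ))) (s ()) = E)).card : ℝ) * g E ≤
        Q * g E := by
    intro E _
    refine mul_le_mul_of_nonneg_right ?_ (hg0 E)
    have hm := hcn D G hG hG2 Unit (fun _ _ => ()) (fun _ _ => -1) (fun _ _ _ _ => rfl)
      (fun _ _ _ _ => ⟨rfl, Or.inr rfl⟩) N X y Y hy00 hzy hyK' (s ()) (v ()) (u ()) (Tup_unit hs)
      (Tup_unit hv) (Tup_unit hu) h8' (fun _ => ()) (s ()).primeFactors E (Subset.refl _)
    have h4 : T'.filter (fun t : ℕ => ngs (D.eval (N + (t : ℤ))) (s ()) = E) ⊆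
        SetH D G (fun _ _ => ()) (fun _ _ => -1) z y N X (s ()) (v ()) (u ()) (fun _ => ())
          (s ()).primeFactors E := by
      intro t ht
      rw [mem_filter] at ht
      obtain ⟨ht', htE⟩ := ht
      obtain ⟨hts, htv, htu⟩ := hval t ht'
      unfold SetH
      simp only [mem_filter]
      refine ⟨hT (hT' ht'), congrFun hts (), congrFun htv (), htu (), fun _ _ _ => trivial,
        fun p hp => ?_, fun p hp => ?_⟩
      · rw [← htE]
        unfold ngs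
        rw [mem_filter]
        exact ⟨fun h5 => ⟨hp, h5⟩, fun h5 => h5.2⟩
      · have hp' := mem_PS'.1 hp
        exact (hTT t (hT' ht')).2 p hp'.2 hp'.1.1
          ((Nat.pow_le_pow_left hp'.1.2 2).trans hy2)
    have h5 : ((T'.filter (fun t : ℕ => ngs (D.eval (N + (t : ℤ))) (s ()) = E)).card : ℝ) ≤ _ :=
      le_trans (by exact_mod_cast card_le_card h4) hm
    refine h5.trans ?_
    simp only [rhoT_unit]
    have e1 : ∏ p ∈ (s ()).primeFactors, (rho D p : ℝ) / ((p : ℝ) - c) =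
        gp (fun p => rho D p) c (s ()) := rfl
    have e2 : ∏ p ∈ (v ()).primeFactors, (rho D p : ℝ) / ((p : ℝ) - c) =
        gp (fun p => rho D p) c (v ()) := rfl
    have hden : ∀ {d : ℕ}, d ∣ PP z y → 0 ≤ gp (fun p => rho D p) c d := fun hd =>
      gp_nonneg (fun _ => Nat.cast_nonneg _) hcz hd
    have e3 : ∏ p ∈ (u ()).primeFactors, (rho D p : ℝ) ≤ (c : ℝ) ^ (u ()).primeFactors.card := by
      rw [← prod_const]
      refine prod_le_prod (fun p _ => Nat.cast_nonneg _) fun p hp => ?_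
      have hpp := Nat.prime_of_mem_primeFactors hp
      have := prime_gt (Tup_unit hu) hp
      exact_mod_cast (hG p hpp (by omega)).1
    rw [e1, e2, hQ]
    have n1 := hden (Tup_unit hs)
    have n2 := hden (Tup_unit hv)
    refine mul_le_mul ?_ hexpG (Real.exp_pos _).le (by positivity)
    refine mul_le_mul_of_nonneg_right ?_ (Real.exp_pos _).le
    refine mul_le_mul_of_nonneg_left (div_le_div_of_nonneg_right e3 (Nat.cast_nonneg _)) ?_
    positivity
  calc ∑ t ∈ T', r (N + (t : ℤ))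
      ≤ ∑ t ∈ T', (4 ^ (z + 2)) ^ k0 * ((4 ^ B') ^ k0) ^ k *
        (4 ^ k0) ^ (v ()).primeFactors.card * g (ngs (D.eval (N + (t : ℤ))) (s ())) :=
        sum_le_sum h1
    _ = (4 ^ (z + 2)) ^ k0 * ((4 ^ B') ^ k0) ^ k * (4 ^ k0) ^ (v ()).primeFactors.card *
          ∑ E ∈ (s ()).primeFactors.powerset,
            ((T'.filter (fun t : ℕ => ngs (D.eval (N + (t : ℤ))) (s ()) = E)).card : ℝ) * g E := by
        rw [← mul_sum, h2]
    _ ≤ (4 ^ (z + 2)) ^ k0 * ((4 ^ B') ^ k0) ^ k * (4 ^ k0) ^ (v ()).primeFactors.card *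
          ∑ E ∈ (s ()).primeFactors.powerset, Q * g E :=
        mul_le_mul_of_nonneg_left (sum_le_sum h3) (by positivity)
    _ = _ := by
        have e1 : GG s = (1 / 2) ^ (s ()).primeFactors.card *
            ∑ E ∈ (s ()).primeFactors.powerset, g E := by
          rw [hGdef]
          unfold NBK
          rw [P3_c3]
        have e3 : gp w c (s ()) = gp (fun p => rho D p) c (s ()) := by
          rw [hgw, gp_rz D (Tup_unit hs)]
        have e4 : gp w c (v ()) = gp (fun p => rho D p) c (v ()) := by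
          rw [hgw, gp_rz D (Tup_unit hv)]
        have e5 : ∀ F : Unit → ℝ, ∏ j, F j = F () := fun F => by simp
        rw [← mul_sum, e5, e5, e5, e1, e3, e4, hQ, Real.exp_neg (Sp (fun p => (rho D p : ℝ)) z y),
          mul_pow]
        ring

end Pool.Agent.TH841.PT
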