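import Mathlib
import Pool.Agent.TH841.PT.Stm
import Pool.Agent.W262.RK.AT4

/-! Project PT: the abstract bound for sums of Jacobi symbols with general weights, the cases. -/

set_option autoImplicit false

namespace Pool.Agent.TH841.PT.ATG

open Finset Polynomial Pool.Agent.W262.RK Pool.Agent.W262.RK.AT Pool.Agent.TH841.PT

lemma gp_one (a : ℕ → ℝ) (c : ℕ) : gp a c 1 = 1 := by simp [gp]

lemma gp_nonneg {a : ℕ → ℝ} {c z y d : ℕ} (ha : ∀ p, 0 ≤ a p) (hz : c ≤ z)
    (hd : d ∈ (PP z y).divisors) : 0 ≤ gp a c d := by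
  unfold gp
  apply prod_nonneg
  intro p hp
  have h1 := (dv_prime hd (Nat.prime_of_mem_primeFactors hp) (Nat.dvd_of_mem_primeFactors hp)).1
  have h2 : (c : ℝ) < p := by exact_mod_cast lt_of_le_of_lt hz h1
  apply div_nonneg (ha p)
  linarith

/-- `gp a c d ≤ 1 / d` -/
lemma gp_le {a : ℕ → ℝ} {c z y d : ℕ} (ha : ∀ p, 0 ≤ a p) (ha2 : ∀ p, a p ≤ 1 / 2)
    (hz : 2 * c ≤ z) (hd : d ∈ (PP z y).divisors) : gp a c d ≤ 1 / (d : ℝ) := by
  have hsq := dv_squarefree hd
  have h0 : (1 : ℝ) / d = ∏ p ∈ d.primeFactors, (1 / (p : ℝ)) := by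
    rw [prod_div_distrib, prod_const_one]
    congr 1
    rw [← Nat.cast_prod, Nat.prod_primeFactors_of_squarefree hsq]
  rw [h0]
  unfold gp
  apply prod_le_prod
  · intro p hp
    have h1 := (dv_prime hd (Nat.prime_of_mem_primeFactors hp) (Nat.dvd_of_mem_primeFactors hp)).1
    have h2 : (c : ℝ) < p := by exact_mod_cast lt_of_le_of_lt (by omega : c ≤ z) h1
    apply div_nonneg (ha p)
    linarith
  · intro p hp
    have h1 := (dv_prime hd (Nat.prime_of_mem_primeFactors hp) (Nat.dvd_of_mem_primeFactors hp)).1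
    have h2 : (2 : ℝ) * c < p := by exact_mod_cast lt_of_le_of_lt hz h1
    have h3 : (0 : ℝ) ≤ c := Nat.cast_nonneg c
    rw [div_le_div_iff₀ (by linarith) (by linarith)]
    have h4 := ha2 p
    have h5 := ha p
    nlinarith

variable {ι : Type} [Fintype ι] [DecidableEq ι]

open Classical in
/-- the summand -/
noncomputable def HG (g : ι → ℕ → ℝ) (L : ι → ι → Bool) (κ : ι → ℤ) (c : ℕ) (d : ι → ℕ) : ℝ :=
  if (∀ i j, i ≠ j → (d i).Coprime (d j)) then (∏ i, gp (g i) c (d i)) * Sym L κ d else 0

lemma total_eq (g : ι → ℕ → ℝ) (L : ι → ι → Bool) (κ : ι → ℤ) (c z y : ℕ) :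
    ∑ d ∈ Tup ι z y, (∏ i, gp (g i) c (d i)) * Sym L κ d =
      ∑ d ∈ Fintype.piFinset (fun _ : ι => (PP z y).divisors), HG g L κ c d := by
  unfold Tup HG
  rw [sum_filter]

lemma abs_HG_le {g : ι → ℕ → ℝ} {L : ι → ι → Bool} {κ : ι → ℤ} {c z y : ℕ} (hw : ∀ i p, 0 ≤ g i p)
    (hz : c ≤ z) {d : ι → ℕ} (hd : ∀ i, d i ∈ (PP z y).divisors) :
    |HG g L κ c d| ≤ ∏ i, gp (g i) c (d i) := by
  have h0 : 0 ≤ ∏ i, gp (g i) c (d i) := prod_nonneg fun i _ => gp_nonneg (hw i) hz (hd i)
  unfold HG
  split_ifs
  · rw [abs_mul, abs_of_nonneg h0]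
    exact mul_le_of_le_one_right h0 (abs_Sym_le _ _ _)
  · simpa using h0

/-- trivial bound -/
lemma triv {g : ι → ℕ → ℝ} {L : ι → ι → Bool} {κ : ι → ℤ} {c z y : ℕ} (hw : ∀ i p, 0 ≤ g i p)
    (hz : c ≤ z) {t : ι → Finset ℕ} (ht : ∀ i, t i ⊆ (PP z y).divisors) :
    |∑ d ∈ Fintype.piFinset t, HG g L κ c d| ≤ ∏ i, ∑ m ∈ t i, gp (g i) c m := by
  rw [prod_univ_sum]
  refine (abs_sum_le_sum_abs _ _).trans (sum_le_sum fun d hd => ?_)
  rw [Fintype.mem_piFinset] at hd
  exact abs_HG_le hw hz fun i => ht i (hd i)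

/-- the summand as a function of one variable -/
lemma HG_update {g : ι → ℕ → ℝ} {L : ι → ι → Bool} {κ : ι → ℤ} {c z y : ℕ} (i : ι)
    (hL : L i i = false) (hz : 2 ≤ z) {e : ι → ℕ} (he : ∀ b, e b ∈ (PP z y).divisors) :
    (∀ m, HG g L κ c (Function.update e i m) = 0) ∨
      (∀ a b, a ≠ i → b ≠ i → a ≠ b → (e a).Coprime (e b)) ∧ ∃ t : Bool, ∀ m ∈ (PP z y).divisors,
      HG g L κ c (Function.update e i m) =
        if m.Coprime (∏ b ∈ univ.erase i, e b) then
          ((∏ b ∈ univ.erase i, gp (g b) c (e b)) * RR L κ i e) *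
            (gp (g i) c m * (Jr m (lk L i e) * Jr (κ i) m * x4 t m)) else 0 := by
  classical
  by_cases hcop : ∀ a b, a ≠ i → b ≠ i → a ≠ b → (e a).Coprime (e b)
  · right
    refine ⟨hcop, ?_⟩
    obtain ⟨t, ht⟩ := XX_char L i e (fun b => dv_odd hz (he b))
    refine ⟨t, fun m hm => ?_⟩
    have hiff : m.Coprime (∏ b ∈ univ.erase i, e b) ↔ ∀ b, b ≠ i → m.Coprime (e b) := by
      rw [Nat.coprime_prod_right_iff]
      simp
    have hiff2 : (∀ a b, a ≠ b → (Function.update e i m a).Coprime (Function.update e i m b)) ↔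
        ∀ b, b ≠ i → m.Coprime (e b) := by
      constructor
      · intro h b hb
        have := h i b (Ne.symm hb)
        rwa [Function.update_self, Function.update_of_ne hb] at this
      · intro h a b hab
        by_cases ha : a = i
        · subst ha
          rw [Function.update_self, Function.update_of_ne (Ne.symm hab)]
          exact h b (Ne.symm hab)
        · by_cases hb : b = i
          · subst hb
            rw [Function.update_self, Function.update_of_ne ha]
            exact (h a ha).symm
          · rw [Function.update_of_ne ha, Function.update_of_ne hb]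
            exact hcop a b ha hb hab
    unfold HG
    by_cases h : ∀ b, b ≠ i → m.Coprime (e b)
    · rw [if_pos (hiff2.2 h), if_pos (hiff.2 h), sym_update L κ i hL, ht m (dv_odd hz hm) h,
        ← mul_prod_erase univ _ (mem_univ i), Function.update_self]
      have : ∏ b ∈ univ.erase i, gp (g b) c (Function.update e i m b) =
          ∏ b ∈ univ.erase i, gp (g b) c (e b) := by
        apply prod_congr rfl
        intro b hb
        rw [Function.update_of_ne (mem_erase.1 hb).1]
      rw [this]
      ring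
    · rw [if_neg (fun h' => h (hiff2.1 h')), if_neg (fun h' => h (hiff.1 h'))]
  · left
    intro m
    unfold HG
    rw [if_neg]
    intro h
    apply hcop
    intro a b ha hb hab
    have := h a b hab
    rwa [Function.update_of_ne ha, Function.update_of_ne hb] at this

/-- the bounds used (for fixed `z`) -/
structure Bd (g : ι → ℕ → ℝ) (κ : ι → ℤ) (c z : ℕ) (C E0 : ℝ) : Prop where
  w0 : ∀ i p, 0 ≤ g i p
  w1 : ∀ i p, g i p ≤ 1 / 2
  z2 : 2 ≤ z
  zc : 2 * c ≤ z
  C1 : 1 ≤ C
  E1 : 0 ≤ E0
  F0 : ∀ i y, z < y → ∑ d ∈ (PP z y).divisors, gp (g i) c d * hh d ≤ C * Real.log y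
  F1 : ∀ i y, z < y → ∑ d ∈ (PP z y).divisors, gp (g i) c d * hh d ≤ C * Real.exp (Sp (g i) z y)
  F2 : ∀ i (y V : ℕ), z < y → 2 ≤ V →
    ∑ d ∈ (PP z y).divisors.filter (fun d => d ≤ V), gp (g i) c d * hh d ≤ C * Real.log V
  F3 : ∀ i (y Y : ℕ), z < y → 1 ≤ Y →
    ∑ d ∈ (PP z y).divisors.filter (fun d => Y < d), gp (g i) c d * hh d ≤
      C * Real.exp (-(Real.log Y / Real.log y)) * (Real.log y) ^ 2
  E : ∀ i (y R r : ℕ) (e : Bool), z < y → R ≠ 0 → 1 < r → Squarefree r →
    (∀ p : ℕ, p.Prime → p ∣ r → z < p) →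
    |∑ d ∈ (PP z y).divisors.filter (fun d => d.Coprime R),
        gp (g i) c d * (Jr d r * Jr (κ i) d * x4 e d)| ≤
      C * Real.exp (1 / 2 * Sp (g i) z y) * (Real.log r) ^ E0 * hh R

variable {g : ι → ℕ → ℝ} {L : ι → ι → Bool} {κ : ι → ℤ} {c z : ℕ} {C E0 : ℝ}

lemma gp_le_hh (hB : Bd g κ c z C E0) (i : ι) {y m : ℕ} (hm : m ∈ (PP z y).divisors) :
    gp (g i) c m ≤ gp (g i) c m * hh m :=
  le_mul_of_one_le_right (gp_nonneg (hB.w0 i) (by have := hB.zc; omega) hm) (one_le_hh m)

/-- the sum over one large variable with a nonprincipal character -/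
lemma inner (hB : Bd g κ c z C E0) (i : ι) (hL : L i i = false) {y V Y : ℕ} (hy : z < y) (hV : 2 ≤ V)
    (hVY : V ≤ Y) {e : ι → ℕ} (he : ∀ b, e b ∈ (PP z y).divisors) (hr : 1 < lk L i e) :
    |∑ m ∈ (PP z y).divisors.filter (fun m => V < m ∧ m ≤ Y), HG g L κ c (Function.update e i m)| ≤
      (∏ b ∈ univ.erase i, gp (g b) c (e b) * hh (e b)) *
        (C * Real.exp (1 / 2 * Sp (g i) z y) * (Real.log (lk L i e)) ^ E0 + C * Real.log V +
          C * Real.exp (-(Real.log Y / Real.log y)) * (Real.log y) ^ 2) := by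
  have hcz : c ≤ z := by have := hB.zc; omega
  have hC0 : 0 ≤ C := zero_le_one.trans hB.C1
  have hV' : 0 ≤ Real.log V := Real.log_natCast_nonneg V
  have hr' : 0 ≤ Real.log (lk L i e) := Real.log_natCast_nonneg _
  have hP0 : 0 ≤ ∏ b ∈ univ.erase i, gp (g b) c (e b) * hh (e b) :=
    prod_nonneg fun b _ => mul_nonneg (gp_nonneg (hB.w0 b) hcz (he b)) (hh_nonneg _)
  have hB0 : 0 ≤ C * Real.exp (1 / 2 * Sp (g i) z y) * (Real.log (lk L i e)) ^ E0 + C * Real.log V +
      C * Real.exp (-(Real.log Y / Real.log y)) * (Real.log y) ^ 2 := by positivity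
  rcases HG_update (g := g) (κ := κ) (c := c) i hL hB.z2 he with h | ⟨hcop, t, ht⟩
  · rw [sum_eq_zero fun m _ => h m, abs_zero]
    exact mul_nonneg hP0 hB0
  · set R := ∏ b ∈ univ.erase i, e b with hR
    set P := ∏ b ∈ univ.erase i, gp (g b) c (e b) with hP
    set f : ℕ → ℝ := fun m => gp (g i) c m * (Jr m (lk L i e) * Jr (κ i) m * x4 t m) with hf
    have hPn : 0 ≤ P := prod_nonneg fun b _ => gp_nonneg (hB.w0 b) hcz (he b)
    have hRne : R ≠ 0 := prod_ne_zero_iff.2 fun b _ => dv_ne_zero (he b)
    have h1 : ∑ m ∈ (PP z y).divisors.filter (fun m => V < m ∧ m ≤ Y),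
        HG g L κ c (Function.update e i m) =
        P * RR L κ i e * ∑ m ∈ ((PP z y).divisors.filter (fun m => m.Coprime R)).filter
          (fun m => V < m ∧ m ≤ Y), f m := by
      rw [filter_filter, mul_sum]
      have h2 : (PP z y).divisors.filter (fun m => m.Coprime R ∧ V < m ∧ m ≤ Y) =
          ((PP z y).divisors.filter (fun m => V < m ∧ m ≤ Y)).filter (fun m => m.Coprime R) := by
        rw [filter_filter]
        apply filter_congr
        intro m _
        tauto
      rw [h2]
      symm
      rw [sum_filter]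
      apply sum_congr rfl
      intro m hm
      rw [ht m (mem_filter.1 hm).1]
    set D := (PP z y).divisors.filter (fun m => m.Coprime R) with hD
    have hDs : D ⊆ (PP z y).divisors := filter_subset _ _
    have h3 : ∑ m ∈ D.filter (fun m => V < m ∧ m ≤ Y), f m =
        ∑ m ∈ D, f m - ∑ m ∈ D.filter (fun m => m ≤ V), f m - ∑ m ∈ D.filter (fun m => Y < m), f m := by
      have e1 : ∑ m ∈ D.filter (fun m => V < m ∧ m ≤ Y), f m + ∑ m ∈ D.filter (fun m => Y < m), f m =
          ∑ m ∈ D.filter (fun m => ¬ m ≤ V), f m := by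
        rw [← sum_union]
        · apply sum_congr _ (fun _ _ => rfl)
          ext m
          simp only [mem_union, mem_filter]
          constructor
          · rintro (⟨h1, h2, h3⟩ | ⟨h1, h2⟩)
            · exact ⟨h1, by omega⟩
            · exact ⟨h1, by omega⟩
          · rintro ⟨h1, h2⟩
            by_cases h3 : m ≤ Y
            · exact Or.inl ⟨h1, by omega, h3⟩
            · exact Or.inr ⟨h1, by omega⟩
        · rw [disjoint_filter]
          intro m _ h1 h2
          omega
      have e2 := sum_filter_add_sum_filter_not D (fun m => m ≤ V) f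
      linarith
    have hfa : ∀ m ∈ (PP z y).divisors, |f m| ≤ gp (g i) c m * hh m := by
      intro m hm
      have g0 := gp_nonneg (hB.w0 i) hcz hm
      rw [hf]
      simp only
      rw [abs_mul, abs_of_nonneg g0]
      have : |Jr m (lk L i e) * Jr (κ i) m * x4 t m| ≤ 1 := by
        rw [abs_mul, abs_mul]
        exact mul_le_one₀ (mul_le_one₀ (abs_Jr_le _ _) (abs_nonneg _) (abs_Jr_le _ _)) (abs_nonneg _)
          (abs_x4_le _ _)
      calc gp (g i) c m * |Jr m (lk L i e) * Jr (κ i) m * x4 t m| ≤ gp (g i) c m * 1 :=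
            mul_le_mul_of_nonneg_left this g0
        _ ≤ gp (g i) c m * hh m := mul_le_mul_of_nonneg_left (one_le_hh m) g0
    have hnn : ∀ m ∈ (PP z y).divisors, 0 ≤ gp (g i) c m * hh m := fun m hm =>
      mul_nonneg (gp_nonneg (hB.w0 i) hcz hm) (hh_nonneg _)
    have h4 : |∑ m ∈ D.filter (fun m => m ≤ V), f m| ≤ C * Real.log V := by
      refine (abs_sum_le_sum_abs _ _).trans ?_
      refine le_trans ?_ (hB.F2 i y V hy hV)
      calc ∑ m ∈ D.filter (fun m => m ≤ V), |f m| ≤ ∑ m ∈ D.filter (fun m => m ≤ V),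
            gp (g i) c m * hh m := sum_le_sum fun m hm => hfa m (hDs (mem_filter.1 hm).1)
        _ ≤ _ := sum_le_sum_of_subset_of_nonneg (filter_subset_filter _ hDs)
          fun m hm _ => hnn m (mem_filter.1 hm).1
    have h5 : |∑ m ∈ D.filter (fun m => Y < m), f m| ≤
        C * Real.exp (-(Real.log Y / Real.log y)) * (Real.log y) ^ 2 := by
      refine (abs_sum_le_sum_abs _ _).trans ?_
      refine le_trans ?_ (hB.F3 i y Y hy (by omega))
      calc ∑ m ∈ D.filter (fun m => Y < m), |f m| ≤ ∑ m ∈ D.filter (fun m => Y < m),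
            gp (g i) c m * hh m := sum_le_sum fun m hm => hfa m (hDs (mem_filter.1 hm).1)
        _ ≤ _ := sum_le_sum_of_subset_of_nonneg (filter_subset_filter _ hDs)
          fun m hm _ => hnn m (mem_filter.1 hm).1
    have hsq : Squarefree (lk L i e) := by
      unfold lk
      apply squarefree_prod
      · intro b _
        exact dv_squarefree (he b)
      · intro a ha b hb hab
        exact hcop a b (mem_erase.1 (mem_filter.1 ha).1).1 (mem_erase.1 (mem_filter.1 hb).1).1 hab
    have h6 : |∑ m ∈ D, f m| ≤ C * Real.exp (1 / 2 * Sp (g i) z y) * (Real.log (lk L i e)) ^ E0 * hh R :=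
      hB.E i y R (lk L i e) t hy hRne hr hsq fun p hp hpr => lk_primes he hp hpr
    have h7 : hh R ≤ ∏ b ∈ univ.erase i, hh (e b) :=
      hh_prod_le _ _ fun b _ => dv_ne_zero (he b)
    have h8 : (1 : ℝ) ≤ ∏ b ∈ univ.erase i, hh (e b) := by
      calc (1 : ℝ) = ∏ b ∈ univ.erase i, (1 : ℝ) := by simp
        _ ≤ _ := prod_le_prod (fun _ _ => zero_le_one) fun b _ => one_le_hh _
    have hRR := abs_RR_le L κ i e
    rw [h1, abs_mul, abs_mul, abs_of_nonneg hPn, prod_mul_distrib]
    set H := ∏ b ∈ univ.erase i, hh (e b) with hH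
    have h9 : |∑ m ∈ D.filter (fun m => V < m ∧ m ≤ Y), f m| ≤
        H * (C * Real.exp (1 / 2 * Sp (g i) z y) * (Real.log (lk L i e)) ^ E0 + C * Real.log V +
          C * Real.exp (-(Real.log Y / Real.log y)) * (Real.log y) ^ 2) := by
      rw [h3]
      have a1 : |∑ m ∈ D, f m - ∑ m ∈ D.filter (fun m => m ≤ V), f m -
          ∑ m ∈ D.filter (fun m => Y < m), f m| ≤ |∑ m ∈ D, f m| +
          |∑ m ∈ D.filter (fun m => m ≤ V), f m| + |∑ m ∈ D.filter (fun m => Y < m), f m| := by
        refine (abs_sub _ _).trans ?_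
        have := abs_sub (∑ m ∈ D, f m) (∑ m ∈ D.filter (fun m => m ≤ V), f m)
        linarith
      have b1 : 0 ≤ C * Real.exp (1 / 2 * Sp (g i) z y) * (Real.log (lk L i e)) ^ E0 := by positivity
      have b2 : 0 ≤ C * Real.log V := by positivity
      have b3 : 0 ≤ C * Real.exp (-(Real.log Y / Real.log y)) * (Real.log y) ^ 2 := by positivity
      have a2 : |∑ m ∈ D, f m| ≤ H * (C * Real.exp (1 / 2 * Sp (g i) z y) * (Real.log (lk L i e)) ^ E0) := by
        refine h6.trans ?_
        rw [mul_comm]
        exact mul_le_mul_of_nonneg_right h7 b1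
      have a3 := le_mul_of_one_le_left b2 h8
      have a4 := le_mul_of_one_le_left b3 h8
      calc _ ≤ _ := a1
        _ ≤ H * (C * Real.exp (1 / 2 * Sp (g i) z y) * (Real.log (lk L i e)) ^ E0) + H * (C * Real.log V) +
            H * (C * Real.exp (-(Real.log Y / Real.log y)) * (Real.log y) ^ 2) := by linarith
        _ = _ := by ring
    calc P * |RR L κ i e| * |∑ m ∈ D.filter (fun m => V < m ∧ m ≤ Y), f m|
        ≤ P * 1 * (H * (C * Real.exp (1 / 2 * Sp (g i) z y) * (Real.log (lk L i e)) ^ E0 + C * Real.log V +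
          C * Real.exp (-(Real.log Y / Real.log y)) * (Real.log y) ^ 2)) := by
          apply mul_le_mul (mul_le_mul_of_nonneg_left hRR hPn) h9 (abs_nonneg _)
          positivity
      _ = _ := by ring

/-- the sum over the other variables -/
lemma sum_others (i : ι) (t : ι → Finset ℕ) (f : ι → ℕ → ℝ) :
    ∑ e ∈ Fintype.piFinset (Function.update t i {1}), ∏ b ∈ univ.erase i, f b (e b) =
      ∏ b ∈ univ.erase i, ∑ m ∈ t b, f b m := by
  have h1 : ∀ e : ι → ℕ, ∏ b ∈ univ.erase i, f b (e b) = ∏ b, (if b = i then 1 else f b (e b)) := by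
    intro e
    rw [← mul_prod_erase univ _ (mem_univ i)]
    rw [if_pos rfl, one_mul]
    apply prod_congr rfl
    intro b hb
    rw [if_neg (mem_erase.1 hb).1]
  simp_rw [h1]
  rw [← prod_univ_sum (Function.update t i {1}) (fun b m => if b = i then 1 else f b m),
    ← mul_prod_erase univ _ (mem_univ i)]
  simp only [Function.update_self, if_true, sum_const, card_singleton, one_smul, one_mul]
  apply prod_congr rfl
  intro b hb
  have := (mem_erase.1 hb).1
  rw [Function.update_of_ne this]
  apply sum_congr rfl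
  intro m _
  rw [if_neg this]

/-- the case of a maximal unlinked set of large variables and a small linked variable -/
lemma char_case (hB : Bd g κ c z C E0) (i : ι) (hL : L i i = false) {y V Y : ℕ} (hy : z < y)
    (hV : 2 ≤ V) (hVY : V ≤ Y) {t : ι → Finset ℕ} (ht : ∀ b, t b ⊆ (PP z y).divisors)
    (hti : t i = (PP z y).divisors.filter (fun m => V < m ∧ m ≤ Y)) (M : ℕ)
    (hlk : ∀ e ∈ Fintype.piFinset (Function.update t i {1}), 1 < lk L i e ∧ lk L i e ≤ V ^ M) :
    |∑ d ∈ Fintype.piFinset t, HG g L κ c d| ≤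
      (∏ b ∈ univ.erase i, ∑ m ∈ t b, gp (g b) c m * hh m) *
        (C * Real.exp (1 / 2 * Sp (g i) z y) * (M * Real.log V) ^ E0 + C * Real.log V +
          C * Real.exp (-(Real.log Y / Real.log y)) * (Real.log y) ^ 2) := by
  have hcz : c ≤ z := by have := hB.zc; omega
  have hC0 : 0 ≤ C := zero_le_one.trans hB.C1
  have hV' : 0 ≤ Real.log V := Real.log_natCast_nonneg V
  rw [sum_update t i]
  refine (abs_sum_le_sum_abs _ _).trans ?_
  rw [← sum_others i t (fun b m => gp (g b) c m * hh m), sum_mul]
  apply sum_le_sum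
  intro e he
  obtain ⟨hr1, hr2⟩ := hlk e he
  have he' : ∀ b, e b ∈ (PP z y).divisors := by
    intro b
    have := Fintype.mem_piFinset.1 he b
    by_cases hb : b = i
    · subst hb
      rw [Function.update_self, mem_singleton] at this
      rw [this]
      exact one_mem_dv z y
    · rw [Function.update_of_ne hb] at this
      exact ht b this
  rw [hti]
  refine (inner hB i hL hy hV hVY he' hr1).trans ?_
  apply mul_le_mul_of_nonneg_left
  · have h1 : Real.log (lk L i e) ≤ M * Real.log V := by
      rw [← Real.log_pow]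
      apply Real.log_le_log (by exact_mod_cast (by omega : 0 < lk L i e))
      exact_mod_cast hr2
    have h2 : (Real.log (lk L i e)) ^ E0 ≤ (M * Real.log V) ^ E0 :=
      Real.rpow_le_rpow (Real.log_natCast_nonneg _) h1 hB.E1
    have h3 := mul_le_mul_of_nonneg_left h2
      (show 0 ≤ C * Real.exp (1 / 2 * Sp (g i) z y) by positivity)
    linarith
  · exact prod_nonneg fun b _ => mul_nonneg (gp_nonneg (hB.w0 b) hcz (he' b)) (hh_nonneg _)

/-- the summand as a function of two linked variables -/
lemma HG_pair (hB : Bd g κ c z C E0) {i j : ι} (hij : i ≠ j) (hLi : L i i = false)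
    (hL1 : L i j = true) (hL2 : L j i = false) {y : ℕ} {e : ι → ℕ}
    (he : ∀ b, e b ∈ (PP z y).divisors) :
    ∃ (q : ℝ) (a b : ℕ → ℝ), |q| ≤ ∏ k ∈ (univ.erase i).erase j, gp (g k) c (e k) ∧
      (∀ m, |a m| ≤ 1) ∧ (∀ m, |b m| ≤ 1) ∧
      ∀ m ∈ (PP z y).divisors, ∀ n ∈ (PP z y).divisors,
        HG g L κ c (Function.update (Function.update e j n) i m) =
          q * (gp (g i) c m * a m) * (gp (g j) c n * b n) * Jr m n := by
  classical
  have hcz : c ≤ z := by have := hB.zc; omega
  have hjm : j ∈ univ.erase i := mem_erase.2 ⟨hij.symm, mem_univ j⟩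
  set q : ℝ := if (∀ a b, a ≠ i → b ≠ i → a ≠ j → b ≠ j → a ≠ b → (e a).Coprime (e b)) then
    ∏ k ∈ (univ.erase i).erase j, gp (g k) c (e k) else 0 with hq
  set X' : ℕ → ℝ := fun m => ∏ b ∈ (univ.erase i).erase j,
    (if L i b then Jr m (e b) else 1) * (if L b i then Jr (e b) m else 1) with hX'
  set a : ℕ → ℝ := fun m => if (∀ b, b ≠ i → b ≠ j → m.Coprime (e b)) then X' m * Jr (κ i) m else 0
    with ha
  set b : ℕ → ℝ := fun n => if (∀ b, b ≠ i → b ≠ j → n.Coprime (e b)) then
    RR L κ i (Function.update e j n) else 0 with hb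
  have hP0 : 0 ≤ ∏ k ∈ (univ.erase i).erase j, gp (g k) c (e k) :=
    prod_nonneg fun k _ => gp_nonneg (hB.w0 k) hcz (he k)
  refine ⟨q, a, b, ?_, ?_, ?_, ?_⟩
  · rw [hq]
    split_ifs
    · rw [abs_of_nonneg hP0]
    · simpa using hP0
  · intro m
    rw [ha]
    simp only
    split_ifs
    · rw [abs_mul]
      apply mul_le_one₀ _ (abs_nonneg _) (abs_Jr_le _ _)
      rw [hX']
      apply abs_prod_le_one
      intro k _
      rw [abs_mul]
      exact mul_le_one₀ (abs_ite_Jr _ _ _) (abs_nonneg _) (abs_ite_Jr _ _ _)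
    · simp
  · intro n
    rw [hb]
    simp only
    split_ifs
    · exact abs_RR_le _ _ _ _
    · simp
  · intro m hm n hn
    have hm0 := dv_ne_zero hm
    have hn0 := dv_ne_zero hn
    by_cases hmn : m.Coprime n
    · have hXX : XX L i (Function.update e j n) m = Jr m n * X' m := by
        unfold XX
        rw [← mul_prod_erase _ _ hjm, Function.update_self, hL1, hL2]
        simp only [if_true, Bool.false_eq_true, if_false, mul_one]
        rw [hX']
        congr 1
        apply prod_congr rfl
        intro k hk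
        rw [Function.update_of_ne (mem_erase.1 hk).1]
      have hgw : ∏ k, gp (g k) c (Function.update (Function.update e j n) i m k) =
          gp (g i) c m * (gp (g j) c n * ∏ k ∈ (univ.erase i).erase j, gp (g k) c (e k)) := by
        rw [← mul_prod_erase univ _ (mem_univ i), Function.update_self]
        congr 1
        rw [← mul_prod_erase _ _ hjm, Function.update_of_ne hij.symm, Function.update_self]
        congr 1
        apply prod_congr rfl
        intro k hk
        have h1 := mem_erase.1 hk
        rw [Function.update_of_ne (mem_erase.1 h1.2).1, Function.update_of_ne h1.1]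
      have hcond : (∀ k l, k ≠ l → (Function.update (Function.update e j n) i m k).Coprime
          (Function.update (Function.update e j n) i m l)) ↔
          (∀ a b, a ≠ i → b ≠ i → a ≠ j → b ≠ j → a ≠ b → (e a).Coprime (e b)) ∧
          (∀ b, b ≠ i → b ≠ j → m.Coprime (e b)) ∧ (∀ b, b ≠ i → b ≠ j → n.Coprime (e b)) := by
        have ui : ∀ v : ι → ℕ, Function.update v i m i = m := fun v => Function.update_self i m v
        constructor
        · intro h
          refine ⟨?_, ?_, ?_⟩
          · intro k l h1 h2 h3 h4 h5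
            have := h k l h5
            rwa [Function.update_of_ne h1, Function.update_of_ne h3, Function.update_of_ne h2,
              Function.update_of_ne h4] at this
          · intro k h1 h2
            have := h i k h1.symm
            rwa [Function.update_self, Function.update_of_ne h1, Function.update_of_ne h2] at this
          · intro k h1 h2
            have := h j k h2.symm
            rwa [Function.update_of_ne hij.symm, Function.update_self, Function.update_of_ne h1,
              Function.update_of_ne h2] at this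
        · rintro ⟨h1, h2, h3⟩ k l hkl
          by_cases hk : k = i
          · subst hk
            rw [Function.update_self, Function.update_of_ne hkl.symm]
            by_cases hl : l = j
            · subst hl
              rw [Function.update_self]
              exact hmn
            · rw [Function.update_of_ne hl]
              exact h2 l hkl.symm hl
          · rw [Function.update_of_ne hk]
            by_cases hl : l = i
            · subst hl
              rw [Function.update_self]
              by_cases hk' : k = j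
              · subst hk'
                rw [Function.update_self]
                exact hmn.symm
              · rw [Function.update_of_ne hk']
                exact (h2 k hk hk').symm
            · rw [Function.update_of_ne hl]
              by_cases hk' : k = j
              · subst hk'
                rw [Function.update_self, Function.update_of_ne hkl.symm]
                exact h3 l hl hkl.symm
              · rw [Function.update_of_ne hk']
                by_cases hl' : l = j
                · subst hl'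
                  rw [Function.update_self]
                  exact (h3 k hk hk').symm
                · rw [Function.update_of_ne hl']
                  exact h1 k l hk hl hk' hl' hkl
      unfold HG
      rw [sym_update L κ i hLi, hXX, hgw]
      by_cases c1 : ∀ a b, a ≠ i → b ≠ i → a ≠ j → b ≠ j → a ≠ b → (e a).Coprime (e b)
      · by_cases c2 : ∀ b, b ≠ i → b ≠ j → m.Coprime (e b)
        · by_cases c3 : ∀ b, b ≠ i → b ≠ j → n.Coprime (e b)
          · rw [if_pos (hcond.2 ⟨c1, c2, c3⟩), hq, if_pos c1, ha, hb]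
            simp only
            rw [if_pos c2, if_pos c3]
            ring
          · rw [if_neg (fun h => c3 (hcond.1 h).2.2), hb]
            simp only
            rw [if_neg c3]
            ring
        · rw [if_neg (fun h => c2 (hcond.1 h).2.1), ha]
          simp only
          rw [if_neg c2]
          ring
      · rw [if_neg (fun h => c1 (hcond.1 h).1), hq, if_neg c1]
        ring
    · rw [Jr_eq_zero hn0 hmn, mul_zero]
      unfold HG
      rw [if_neg]
      intro h
      have := h i j hij
      rw [Function.update_self, Function.update_of_ne hij.symm, Function.update_self] at this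
      exact hmn this

lemma pair_inner (hB : Bd g κ c z C E0) {C2 : ℝ} {E2 : ℕ} (h2 : BW C2 E2) {i j : ι} (hij : i ≠ j)
    (hLi : L i i = false) (hL1 : L i j = true) (hL2 : L j i = false) {y V Y : ℕ} (hV : 2 ≤ V)
    (hVY : V ≤ Y) {e : ι → ℕ} (he : ∀ b, e b ∈ (PP z y).divisors) :
    |∑ n ∈ lg z y V Y, ∑ m ∈ lg z y V Y,
        HG g L κ c (Function.update (Function.update e j n) i m)| ≤
      (∏ k ∈ (univ.erase i).erase j, gp (g k) c (e k)) *
        (C2 * (Real.log Y) ^ E2 * (V : ℝ) ^ (-(1 / 6 : ℝ))) := by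
  classical
  have hcz : c ≤ z := by have := hB.zc; omega
  obtain ⟨q, a, b, hq, ha, hb, h⟩ := HG_pair (L := L) hB hij hLi hL1 hL2 he
  have hP0 : 0 ≤ ∏ k ∈ (univ.erase i).erase j, gp (g k) c (e k) :=
    prod_nonneg fun k _ => gp_nonneg (hB.w0 k) hcz (he k)
  set a' : ℕ → ℝ := fun m => if m ∈ lg z y V Y then gp (g i) c m * a m else 0 with ha'
  set b' : ℕ → ℝ := fun m => if m ∈ lg z y V Y then gp (g j) c m * b m else 0 with hb'
  have hsub : lg z y V Y ⊆ Ioc V Y := by
    intro m hm
    rw [mem_Ioc]
    exact (mem_filter.1 hm).2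
  have hDv : ∀ m ∈ lg z y V Y, m ∈ (PP z y).divisors := fun m hm => (mem_filter.1 hm).1
  have bd : ∀ (k : ι) (f : ℕ → ℝ), (∀ m, |f m| ≤ 1) → ∀ m,
      |if m ∈ lg z y V Y then gp (g k) c m * f m else 0| ≤ 1 / (m : ℝ) := by
    intro k f hf m
    split_ifs with hm
    · have g0 := gp_nonneg (hB.w0 k) hcz (hDv m hm)
      rw [abs_mul, abs_of_nonneg g0]
      exact (mul_le_of_le_one_right g0 (hf m)).trans
        (gp_le (hB.w0 k) (hB.w1 k) hB.zc (hDv m hm))
    · simp
  have od : ∀ (k : ι) (f : ℕ → ℝ) (m : ℕ),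
      (if m ∈ lg z y V Y then gp (g k) c m * f m else 0) ≠ 0 → Odd m ∧ Squarefree m := by
    intro k f m hm
    by_cases h1 : m ∈ lg z y V Y
    · exact ⟨dv_odd hB.z2 (hDv m h1), dv_squarefree (hDv m h1)⟩
    · rw [if_neg h1] at hm
      exact absurd rfl hm
  have hmain := h2 V Y hV hVY a' b' (bd i a ha) (bd j b hb) (od i a) (od j b)
  have heq : ∑ n ∈ lg z y V Y, ∑ m ∈ lg z y V Y,
      HG g L κ c (Function.update (Function.update e j n) i m) =
      q * ∑ m ∈ Ioc V Y, ∑ n ∈ Ioc V Y, a' m * b' n * Jr m n := by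
    rw [sum_comm]
    have e1 : ∑ m ∈ Ioc V Y, ∑ n ∈ Ioc V Y, a' m * b' n * Jr m n =
        ∑ m ∈ lg z y V Y, ∑ n ∈ lg z y V Y, a' m * b' n * Jr m n := by
      rw [← sum_subset hsub]
      · apply sum_congr rfl
        intro m _
        rw [← sum_subset hsub]
        intro n _ hn
        rw [hb']
        simp only
        rw [if_neg hn]
        ring
      · intro m _ hm
        apply sum_eq_zero
        intro n _
        rw [ha']
        simp only
        rw [if_neg hm]
        ring
    rw [e1, mul_sum]
    apply sum_congr rfl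
    intro m hm
    rw [mul_sum]
    apply sum_congr rfl
    intro n hn
    rw [h m (hDv m hm) n (hDv n hn), ha', hb']
    simp only
    rw [if_pos hm, if_pos hn]
    ring
  rw [heq, abs_mul]
  exact mul_le_mul hq hmain (abs_nonneg _) hP0

/-- two linked large variables -/
lemma pair_case (hB : Bd g κ c z C E0) {C2 : ℝ} {E2 : ℕ} (hC2 : 0 ≤ C2) (h2 : BW C2 E2) {i j : ι}
    (hij : i ≠ j) (hLi : L i i = false) (hL1 : L i j = true) (hL2 : L j i = false)
    {y V Y : ℕ} (hy : z < y) (hV : 2 ≤ V) (hVY : V ≤ Y) {t : ι → Finset ℕ}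
    (ht : ∀ b, t b ⊆ (PP z y).divisors) (hti : t i = lg z y V Y) (htj : t j = lg z y V Y) :
    |∑ d ∈ Fintype.piFinset t, HG g L κ c d| ≤
      (C * Real.log y) ^ (Fintype.card ι) * (C2 * (Real.log Y) ^ E2 * (V : ℝ) ^ (-(1 / 6 : ℝ))) := by
  classical
  have hcz : c ≤ z := by have := hB.zc; omega
  have hC0 : 0 ≤ C := zero_le_one.trans hB.C1
  have hly : 1 ≤ Real.log y := by
    have h3 : 3 ≤ y := by have := hB.z2; omega
    rw [Real.le_log_iff_exp_le (by exact_mod_cast (by omega : 0 < y))]
    have h1 : (3 : ℝ) ≤ y := by exact_mod_cast h3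
    have h2 := Real.exp_one_lt_d9
    linarith
  have hlY : 0 ≤ Real.log Y := Real.log_natCast_nonneg Y
  rw [sum_update t i, sum_update (Function.update t i {1}) j, Function.update_of_ne hij.symm, hti, htj]
  refine (abs_sum_le_sum_abs _ _).trans ?_
  have hQ : 0 ≤ C2 * (Real.log Y) ^ E2 * (V : ℝ) ^ (-(1 / 6 : ℝ)) := by positivity
  have hstep : ∀ e ∈ Fintype.piFinset (Function.update (Function.update t i {1}) j {1}),
      |∑ n ∈ lg z y V Y, ∑ m ∈ lg z y V Y,
        HG g L κ c (Function.update (Function.update e j n) i m)| ≤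
      (∏ k ∈ univ.erase j, (if k = i then 1 else gp (g k) c (e k))) *
        (C2 * (Real.log Y) ^ E2 * (V : ℝ) ^ (-(1 / 6 : ℝ))) := by
    intro e he
    have he' : ∀ b, e b ∈ (PP z y).divisors := by
      intro b
      have := Fintype.mem_piFinset.1 he b
      by_cases hb : b = j
      · subst hb
        rw [Function.update_self, mem_singleton] at this
        rw [this]
        exact one_mem_dv z y
      · rw [Function.update_of_ne hb] at this
        by_cases hb' : b = i
        · subst hb'
          rw [Function.update_self, mem_singleton] at this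
          rw [this]
          exact one_mem_dv z y
        · rw [Function.update_of_ne hb'] at this
          exact ht b this
    refine (pair_inner hB h2 hij hLi hL1 hL2 hV hVY he').trans ?_
    apply mul_le_mul_of_nonneg_right _ hQ
    apply le_of_eq
    have him : i ∈ univ.erase j := mem_erase.2 ⟨hij, mem_univ i⟩
    rw [← mul_prod_erase _ _ him, if_pos rfl, one_mul]
    have : (univ.erase i).erase j = (univ.erase j).erase i := by
      ext k
      simp only [mem_erase, mem_univ, and_true]
      tauto
    rw [this]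
    apply prod_congr rfl
    intro k hk
    rw [if_neg (mem_erase.1 hk).1]
  refine (sum_le_sum hstep).trans ?_
  rw [← sum_mul, sum_others j (Function.update t i {1}) (fun k m => if k = i then 1 else gp (g k) c m)]
  apply mul_le_mul_of_nonneg_right _ hQ
  have hCl : 1 ≤ C * Real.log y := by nlinarith [hB.C1]
  have hf : ∀ k ∈ univ.erase j, ∑ m ∈ Function.update t i {1} k,
      (if k = i then 1 else gp (g k) c m) ≤ C * Real.log y := by
    intro k _
    by_cases hk : k = i
    · subst hk
      rw [Function.update_self]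
      simpa using hCl
    · rw [Function.update_of_ne hk]
      simp only [if_neg hk]
      calc ∑ m ∈ t k, gp (g k) c m ≤ ∑ m ∈ (PP z y).divisors, gp (g k) c m :=
            sum_le_sum_of_subset_of_nonneg (ht k) fun m hm _ => gp_nonneg (hB.w0 k) hcz hm
        _ ≤ ∑ m ∈ (PP z y).divisors, gp (g k) c m * hh m := sum_le_sum fun m hm => gp_le_hh hB k hm
        _ ≤ C * Real.log y := hB.F0 k y hy
  have hf0 : ∀ k ∈ univ.erase j, 0 ≤ ∑ m ∈ Function.update t i {1} k,
      (if k = i then 1 else gp (g k) c m) := by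
    intro k _
    apply sum_nonneg
    intro m hm
    by_cases hk : k = i
    · rw [if_pos hk]; exact zero_le_one
    · rw [if_neg hk]
      rw [Function.update_of_ne hk] at hm
      exact gp_nonneg (hB.w0 k) hcz (ht k hm)
  calc ∏ k ∈ univ.erase j, ∑ m ∈ Function.update t i {1} k, (if k = i then 1 else gp (g k) c m)
      ≤ ∏ k ∈ univ.erase j, (C * Real.log y) := prod_le_prod hf0 hf
    _ = (C * Real.log y) ^ (univ.erase j).card := by rw [prod_const]
    _ ≤ (C * Real.log y) ^ (Fintype.card ι) := by
      apply pow_le_pow_right₀ hCl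
      exact (card_le_card (erase_subset _ _)).trans (le_of_eq card_univ)

end Pool.Agent.TH841.PT.ATG
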