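import Mathlib
import Pool.Agent.TH841.PT.Types

/-!
# Project PT: `ATG` from `ATS`
-/

set_option autoImplicit false

namespace Pool.Agent.TH841.PT

open Finset Pool.Agent.W262.RK

theorem atg_of_ats (h : ATS) : ATG := by
  intro ι _ _ b L κ c z δ C0 E0 M hb hL hz hδ hE h1 h2 h3
  obtain ⟨C, hC⟩ := h ι (fun i p => Jr (κ i) p * b i p) b L c z δ C0 E0 M
    (fun i p => ⟨by
      rw [abs_mul, abs_of_nonneg (hb i p).1]
      exact mul_le_of_le_one_left (hb i p).1 (Pool.Agent.W655.RK.Jr_abs _ _), (hb i p).2⟩)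
    hL hz hδ hE h1 h2 (fun i y r e hy hr hsq hpr => by
      refine le_trans (le_of_eq ?_) (h3 i y r e hy hr hsq hpr)
      refine sum_congr rfl fun p _ => ?_
      ring)
  refine ⟨C, fun y hy => ?_⟩
  rw [Sym_const]
  exact hC y hy

end Pool.Agent.TH841.PT
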