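import Mathlib
import Pool.Agent.TH841.PT.Stm
import Pool.Agent.W372.RK2.CNT4

set_option autoImplicit false

namespace Pool.Agent.TH841.PT.CNTPf

open Finset Polynomial Pool.Agent.W262.RK Pool.Agent.TH841.PT

open Pool.Agent.W307.RT (S1 S2)
open Pool.Agent.H474R2.PG (rho)

/-! ### Values of a polynomial modulo `p` and `p²` -/

lemma eval_dvd_iff (D : ℤ[X]) {p a b : ℤ} (h : p ∣ a - b) : p ∣ D.eval a ↔ p ∣ D.eval b := by
  have h1 : p ∣ D.eval a - D.eval b := h.trans (sub_dvd_eval_sub a b D)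
  constructor
  · intro h2
    have := dvd_sub h2 h1
    simpa using this
  · intro h2
    have := dvd_add h1 h2
    simpa using this

/-- the number of the roots of a translate -/
lemma card_translate (D : ℤ[X]) (N : ℤ) {p : ℕ} (hp : 0 < p) :
    ((range p).filter (fun n : ℕ => (p : ℤ) ∣ D.eval (N + (n : ℤ)))).card = rho D p := by
  unfold rho
  have hp0 : (0 : ℤ) < p := by exact_mod_cast hp
  refine Finset.card_bij' (fun n _ => ((N + (n : ℤ)) % p).toNat)
    (fun a _ => (((a : ℤ) - N) % p).toNat) ?_ ?_ ?_ ?_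
  · intro n hn
    rw [mem_filter, mem_range] at hn ⊢
    have h0 := Int.emod_nonneg (N + (n : ℤ)) hp0.ne'
    have h1 := Int.emod_lt_of_pos (N + (n : ℤ)) hp0
    refine ⟨by omega, ?_⟩
    rw [Int.toNat_of_nonneg h0]
    refine (eval_dvd_iff D ?_).mpr hn.2
    exact ⟨-((N + n) / p), by have := Int.emod_add_mul_ediv (N + (n : ℤ)) p; linarith⟩
  · intro n hn
    rw [mem_filter, mem_range] at hn ⊢
    have h0 := Int.emod_nonneg ((n : ℤ) - N) hp0.ne'
    have h1 := Int.emod_lt_of_pos ((n : ℤ) - N) hp0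
    refine ⟨by omega, ?_⟩
    rw [Int.toNat_of_nonneg h0]
    refine (eval_dvd_iff D ?_).mpr hn.2
    exact ⟨-((n - N) / p), by have := Int.emod_add_mul_ediv ((n : ℤ) - N) p; linarith⟩
  · intro n hn
    rw [mem_filter, mem_range] at hn
    have h0 := Int.emod_nonneg (N + (n : ℤ)) hp0.ne'
    rw [Int.toNat_of_nonneg h0]
    have h2 : ((N + (n : ℤ)) % p - N) % p = n := by
      rw [Int.sub_emod, Int.emod_emod_of_dvd _ (dvd_refl _), ← Int.sub_emod]
      rw [show N + (n : ℤ) - N = n by ring]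
      exact Int.emod_eq_of_lt (by omega) (by omega)
    rw [h2]
    simp
  · intro n hn
    rw [mem_filter, mem_range] at hn
    have h0 := Int.emod_nonneg ((n : ℤ) - N) hp0.ne'
    rw [Int.toNat_of_nonneg h0]
    have h2 : (N + ((n : ℤ) - N) % p) % p = n := by
      rw [Int.add_emod, Int.emod_emod_of_dvd _ (dvd_refl _), ← Int.add_emod]
      rw [show N + ((n : ℤ) - N) = n by ring]
      exact Int.emod_eq_of_lt (by omega) (by omega)
    rw [h2]
    simp

/-- a simple root modulo `p` lifts uniquely -/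
lemma lift_unique (D : ℤ[X]) {p : ℕ} (hp : p.Prime) {a b : ℤ} (h1 : (p : ℤ) ∣ a - b)
    (h2 : (p : ℤ) ^ 2 ∣ D.eval a - D.eval b) (h3 : ¬ (p : ℤ) ∣ D.derivative.eval b) :
    (p : ℤ) ^ 2 ∣ a - b := by
  obtain ⟨k, hk⟩ := D.binomExpansion b (a - b)
  rw [show b + (a - b) = a by ring] at hk
  have h4 : (p : ℤ) ^ 2 ∣ D.derivative.eval b * (a - b) := by
    have h5 : D.derivative.eval b * (a - b) = (D.eval a - D.eval b) - k * (a - b) ^ 2 := by
      rw [hk]; ring
    rw [h5]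
    exact dvd_sub h2 ((pow_dvd_pow_of_dvd h1 2).mul_left k)
  have hcop : IsCoprime ((p : ℤ) ^ 2) (D.derivative.eval b) := by
    apply IsCoprime.pow_left
    rw [(Nat.prime_iff_prime_int.mp hp).coprime_iff_not_dvd]
    exact h3
  exact hcop.dvd_of_dvd_mul_left h4

/-! ### The counted `t` -/

/-- the facts about the counted `t` -/
structure Good (D : ℤ[X]) (N : ℤ) (z y : ℕ) (s v u : ℕ) (t : ℤ) : Prop where
  hs : S1 z y (fun _ : Unit => D.eval (N + t)) () = s
  hv : S2 z y (fun _ : Unit => D.eval (N + t)) () = v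
  hu : (u : ℤ) ∣ D.eval (N + t)

variable {D : ℤ[X]} {N : ℤ} {z y Y c : ℕ} {s v u : ℕ} {t : ℤ}

lemma dvd_S1 {f : ℤ} {p : ℕ} (hp : p.Prime) : p ∣ S1 z y (fun _ : Unit => f) () ↔
    p ∈ PS z y ∧ (p : ℤ) ∣ f ∧ ¬ (p : ℤ) ^ 2 ∣ f := by
  unfold S1
  constructor
  · intro h
    obtain ⟨q, hq, hpq⟩ := (hp.prime.dvd_finsetProd_iff _).1 h
    rw [mem_filter] at hq
    rw [(Nat.prime_dvd_prime_iff_eq hp (mem_PS.1 hq.1).2).1 hpq]
    exact hq
  · intro h
    exact dvd_prod_of_mem _ (mem_filter.2 h)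

lemma dvd_S2 {f : ℤ} {p : ℕ} (hp : p.Prime) : p ∣ S2 z y (fun _ : Unit => f) () ↔
    p ∈ PS z y ∧ (p : ℤ) ^ 2 ∣ f := by
  unfold S2
  constructor
  · intro h
    obtain ⟨q, hq, hpq⟩ := (hp.prime.dvd_finsetProd_iff _).1 h
    rw [mem_filter] at hq
    rw [(Nat.prime_dvd_prime_iff_eq hp (mem_PS.1 hq.1).2).1 hpq]
    exact hq
  · intro h
    exact dvd_prod_of_mem _ (mem_filter.2 h)

lemma Good.fs (g : Good D N z y s v u t) {p : ℕ} (hp : p.Prime) (h : p ∣ s) :
    p ∈ PS z y ∧ (p : ℤ) ∣ D.eval (N + t) ∧ ¬ (p : ℤ) ^ 2 ∣ D.eval (N + t) := by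
  rw [← g.hs] at h
  exact (dvd_S1 hp).1 h

lemma Good.fv (g : Good D N z y s v u t) {p : ℕ} (hp : p.Prime) (h : p ∣ v) :
    p ∈ PS z y ∧ (p : ℤ) ^ 2 ∣ D.eval (N + t) := by
  rw [← g.hv] at h
  exact (dvd_S2 hp).1 h

/-- the root modulo `p` -/
noncomputable def ra (t : ℤ) (p : ℕ) : ℕ := (t % (p : ℤ)).toNat

/-- the residue of the quotient -/
noncomputable def wa (D : ℤ[X]) (N t : ℤ) (p : ℕ) : ℕ :=
  ((D.eval (N + t) / (p : ℤ)) % (p : ℤ)).toNat

/-- the roots of the translate -/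
def RT (D : ℤ[X]) (N : ℤ) (p : ℕ) : Finset ℕ :=
  (range p).filter (fun n : ℕ => (p : ℤ) ∣ D.eval (N + (n : ℤ)))

lemma ra_mem {p : ℕ} (hp : 0 < p) (h : (p : ℤ) ∣ D.eval (N + t)) : ra t p ∈ RT D N p := by
  have hp0 : (0 : ℤ) < p := by exact_mod_cast hp
  have h0 := Int.emod_nonneg t hp0.ne'
  have h1 := Int.emod_lt_of_pos t hp0
  unfold RT ra
  rw [mem_filter, mem_range]
  refine ⟨by omega, ?_⟩
  rw [Int.toNat_of_nonneg h0]
  refine (eval_dvd_iff D ?_).mpr h
  exact ⟨-(t / p), by have := Int.emod_add_mul_ediv t p; linarith⟩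

lemma ra_congr {p : ℕ} (hp : 0 < p) {t t' : ℤ} (h : ra t p = ra t' p) : (p : ℤ) ∣ t - t' := by
  have hp0 : (0 : ℤ) < p := by exact_mod_cast hp
  have h0 := Int.emod_nonneg t hp0.ne'
  have h1 := Int.emod_nonneg t' hp0.ne'
  unfold ra at h
  have h3 : t % p = t' % p := by omega
  exact Int.ModEq.dvd (Eq.symm h3)

lemma wa_mem (g : Good D N z y s v u t) {E : Finset ℕ} (hE : ngs (D.eval (N + t)) s = E)
    {p : ℕ} (hp : p ∈ s.primeFactors) : wa D N t p ∈ Pool.Agent.W372.RK2.WW E p := by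
  have hpp : p.Prime := Nat.prime_of_mem_primeFactors hp
  obtain ⟨hP, hd, hd2⟩ := g.fs hpp (Nat.dvd_of_mem_primeFactors hp)
  unfold Pool.Agent.W372.RK2.WW wa
  have hpos : (0 : ℤ) < p := by exact_mod_cast hpp.pos
  have h0 : 0 ≤ (D.eval (N + t) / (p : ℤ)) % (p : ℤ) := Int.emod_nonneg _ hpos.ne'
  rw [mem_filter, mem_range]
  constructor
  · have h1 := Int.emod_lt_of_pos (D.eval (N + t) / (p : ℤ)) hpos
    omega
  · rw [Int.toNat_of_nonneg h0, ← jacobiSym.mod_left]
    have hmem : p ∈ E ↔ jacobiSym (D.eval (N + t) / p) p = -1 := by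
      rw [← hE]
      unfold ngs
      rw [mem_filter]
      exact ⟨fun h => h.2, fun h => ⟨hp, h⟩⟩
    split_ifs with hpE
    · exact hmem.1 hpE
    · have h1 : jacobiSym (D.eval (N + t) / (p : ℤ)) p ≠ -1 := fun h => hpE (hmem.2 h)
      have h2 : jacobiSym (D.eval (N + t) / (p : ℤ)) p ≠ 0 := by
        have : NeZero p := ⟨hpp.ne_zero⟩
        rw [Ne, jacobiSym.eq_zero_iff_not_coprime, not_not, Int.gcd_comm]
        rw [Int.gcd_eq_natAbs, Int.natAbs_natCast]
        apply (hpp.coprime_iff_not_dvd).2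
        intro h
        apply hd2
        have h3 : (p : ℤ) ∣ D.eval (N + t) / (p : ℤ) := Int.natCast_dvd.2 h
        have h4 : D.eval (N + t) = p * (D.eval (N + t) / p) := (Int.mul_ediv_cancel' hd).symm
        rw [h4, sq]
        exact mul_dvd_mul_left _ h3
      rcases jacobiSym.trichotomy (D.eval (N + t) / (p : ℤ)) p with h | h | h
      · exact absurd h h2
      · exact h
      · exact absurd h h1

lemma wa_congr {p : ℕ} (hp : 0 < p) {t t' : ℤ} (h : wa D N t p = wa D N t' p)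
    (hd : (p : ℤ) ∣ D.eval (N + t)) (hd' : (p : ℤ) ∣ D.eval (N + t')) :
    (p : ℤ) ^ 2 ∣ D.eval (N + t) - D.eval (N + t') := by
  have hpos : (0 : ℤ) < p := by exact_mod_cast hp
  unfold wa at h
  have h3 : (D.eval (N + t) / (p : ℤ)) % (p : ℤ) = (D.eval (N + t') / (p : ℤ)) % (p : ℤ) := by
    have h4 := Int.emod_nonneg (D.eval (N + t) / (p : ℤ)) hpos.ne'
    have h5 := Int.emod_nonneg (D.eval (N + t') / (p : ℤ)) hpos.ne'
    omega
  have h6 : (p : ℤ) ∣ D.eval (N + t) / (p : ℤ) - D.eval (N + t') / (p : ℤ) :=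
    Int.ModEq.dvd (Eq.symm h3)
  have h7 : D.eval (N + t) = p * (D.eval (N + t) / p) := (Int.mul_ediv_cancel' hd).symm
  have h8 : D.eval (N + t') = p * (D.eval (N + t') / p) := (Int.mul_ediv_cancel' hd').symm
  rw [h7, h8, ← mul_sub, sq]
  exact mul_dvd_mul_left _ h6

section cop

variable (hs : s ∈ (PP z y).divisors) (hv : v ∈ (PP z y).divisors) (hu : u ∈ (PP y Y).divisors)

include hs hv in
lemma cop_sv (g : Good D N z y s v u t) : s.Coprime v := by
  apply Nat.coprime_of_dvd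
  intro p hp hps hpv
  exact (g.fs hp hps).2.2 (g.fv hp hpv).2

include hs hu in
lemma cop_su : s.Coprime u := by
  apply Nat.coprime_of_dvd
  intro p hp hps hpu
  have h1 := (dv_prime hs hp hps).2
  have h2 := (dv_prime hu hp hpu).1
  omega

end cop

/-- two counted `t` with the same residues are congruent -/
lemma congr_of (hG : GoodD D z c) (hs : s ∈ (PP z y).divisors) (hv : v ∈ (PP z y).divisors)
    (hu : u ∈ (PP y Y).divisors) {t t' : ℤ} (g : Good D N z y s v u t)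
    (g' : Good D N z y s v u t') (h1 : ∀ p : ℕ, p.Prime → p ∣ s * v * u → ra t p = ra t' p)
    (h2 : ∀ p : ℕ, p.Prime → p ∣ s → wa D N t p = wa D N t' p) :
    ((s ^ 2 * v ^ 2 * u : ℕ) : ℤ) ∣ t - t' := by
  have hsv := cop_sv hs hv g
  have hsu := cop_su hs hu
  have hvu : v.Coprime u := cop_su hv hu
  have e1 : ((s : ℤ)) ^ 2 ∣ t - t' := by
    apply Pool.Agent.W372.RK2.sq_pow_dvd (dv_squarefree hs) 2
    intro p hp hps
    have f := g.fs hp hps
    have f' := g'.fs hp hps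
    have hr := ra_congr hp.pos (h1 p hp ((hps.mul_right v).mul_right u))
    have hw := wa_congr hp.pos (h2 p hp hps) f.2.1 f'.2.1
    have h5 := lift_unique D hp (a := N + t) (b := N + t') (by ring_nf; ring_nf at hr; exact hr) hw
      ((hG p hp (mem_PS.1 f.1).1.1).2 _ f'.2.1)
    have h6 : N + t - (N + t') = t - t' := by ring
    rwa [h6] at h5
  have e2 : ((v : ℤ)) ^ 2 ∣ t - t' := by
    apply Pool.Agent.W372.RK2.sq_pow_dvd (dv_squarefree hv) 2
    intro p hp hpv
    have f := g.fv hp hpv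
    have f' := g'.fv hp hpv
    have hr := ra_congr hp.pos (h1 p hp ((hpv.mul_left s).mul_right u))
    have h5 := lift_unique D hp (a := N + t) (b := N + t') (by ring_nf; ring_nf at hr; exact hr)
      (dvd_sub f.2 f'.2)
      ((hG p hp (mem_PS.1 f.1).1.1).2 _ ((dvd_pow_self (p : ℤ) two_ne_zero).trans f'.2))
    have h6 : N + t - (N + t') = t - t' := by ring
    rwa [h6] at h5
  have e3 : ((u : ℤ)) ∣ t - t' := by
    have := Pool.Agent.W372.RK2.sq_pow_dvd (dv_squarefree hu) 1 (t - t') (by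
      intro p hp hpu
      rw [pow_one]
      exact ra_congr hp.pos (h1 p hp (hpu.mul_left (s * v))))
    rwa [pow_one] at this
  push_cast
  have c1 : IsCoprime ((s : ℤ) ^ 2) ((v : ℤ) ^ 2) := (Nat.isCoprime_iff_coprime.2 hsv).pow
  have c2 : IsCoprime ((s : ℤ) ^ 2 * (v : ℤ) ^ 2) (u : ℤ) := by
    apply IsCoprime.mul_left
    · exact (Nat.isCoprime_iff_coprime.2 hsu).pow_left
    · exact (Nat.isCoprime_iff_coprime.2 hvu).pow_left
  exact c2.mul_dvd (c1.mul_dvd e1 e2) e3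

lemma card_WW (hz : 2 ≤ z) (hs : s ∈ (PP z y).divisors) (E : Finset ℕ) {p : ℕ}
    (hp : p ∈ s.primeFactors) :
    ((Pool.Agent.W372.RK2.WW E p).card : ℝ) ≤ (1 / 2) * (p : ℝ) := by
  have hpp := Nat.prime_of_mem_primeFactors hp
  have hp2 : p ≠ 2 := by
    have := (dv_prime hs hpp (Nat.dvd_of_mem_primeFactors hp)).1
    omega
  have h2 := Pool.Agent.W372.RK2.card_W hpp hp2 (if p ∈ E then -1 else 1) (by split_ifs <;> simp)
  have h3 : 2 * (Pool.Agent.W372.RK2.WW E p).card ≤ p := by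
    unfold Pool.Agent.W372.RK2.WW
    omega
  have h4 : (2 : ℝ) * ((Pool.Agent.W372.RK2.WW E p).card : ℝ) ≤ p := by exact_mod_cast h3
  linarith

lemma exp_le_div {a : ℝ} {c p : ℕ} (_ha0 : 0 ≤ a) (ha : a ≤ c) (hp : c < p) :
    Real.exp (a / p) ≤ (p : ℝ) / ((p : ℝ) - c) := by
  have hc : (c : ℝ) < p := by exact_mod_cast hp
  have hp0 : (0 : ℝ) < p := lt_of_le_of_lt (Nat.cast_nonneg c) hc
  have h1 : a / p ≤ c / p := by
    rw [div_le_div_iff_of_pos_right hp0]; exact ha
  have h2 : (1 : ℝ) - c / p ≤ Real.exp (-(c / p)) := by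
    have := Real.add_one_le_exp (-(c / p : ℝ)); linarith
  have h3 : 0 < (1 : ℝ) - c / p := by
    rw [sub_pos, div_lt_one hp0]; exact hc
  calc Real.exp (a / p) ≤ Real.exp (c / p) := Real.exp_le_exp.mpr h1
    _ = (Real.exp (-(c / p)))⁻¹ := by rw [← Real.exp_neg, neg_neg]
    _ ≤ (1 - (c : ℝ) / p)⁻¹ := inv_anti₀ h3 h2
    _ = (p : ℝ) / ((p : ℝ) - c) := by
      rw [one_sub_div hp0.ne', inv_div]

/-- membership, for every decidability instance -/
lemma mem_flt {α : Type*} {s : Finset α} {p : α → Prop} {inst : DecidablePred p} {a : α}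
    (h1 : a ∈ s) (h2 : p a) : a ∈ @Finset.filter α p inst s := Finset.mem_filter.2 ⟨h1, h2⟩

theorem cntp_of (h : SVP) : CNTP := by
  intro c z hcz
  obtain ⟨C, K, y0, hC, hK, hSV⟩ := h c z hcz
  refine ⟨C, K, y0, hC, hK, ?_⟩
  intro D hG N X y Y hy0 hzy hX s v u hs0 hv0 hu0 hsvu E
  have hs : s ∈ (PP z y).divisors := Nat.mem_divisors.2 ⟨hs0, PP_ne_zero z y⟩
  have hv : v ∈ (PP z y).divisors := Nat.mem_divisors.2 ⟨hv0, PP_ne_zero z y⟩
  have hu : u ∈ (PP y Y).divisors := Nat.mem_divisors.2 ⟨hu0, PP_ne_zero y Y⟩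
  have hz2 : 2 ≤ z := by omega
  set T := (Icc 1 X).filter (fun t : ℕ =>
      S1 z y (fun _ : Unit => D.eval (N + (t : ℤ))) () = s ∧
      S2 z y (fun _ : Unit => D.eval (N + (t : ℤ))) () = v ∧
      (u : ℤ) ∣ D.eval (N + (t : ℤ)) ∧ ngs (D.eval (N + (t : ℤ))) s = E) with hT
  have hgood : ∀ t ∈ T, Good D N z y s v u (t : ℤ) ∧ ngs (D.eval (N + (t : ℤ))) s = E := by
    intro t ht
    rw [hT, mem_filter] at ht
    exact ⟨⟨ht.2.1, ht.2.2.1, ht.2.2.2.1⟩, ht.2.2.2.2⟩
  have hρ : ∀ p, p.Prime → z < p → rho D p ≤ c := fun p hp hz => (hG p hp hz).1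
  have hpc : ∀ {d p : ℕ}, d ∈ (PP z y).divisors → p ∈ d.primeFactors →
      (0 : ℝ) < (p : ℝ) - c ∧ c < p := by
    intro d p hd hp
    have h1 := (dv_prime hd (Nat.prime_of_mem_primeFactors hp) (Nat.dvd_of_mem_primeFactors hp)).1
    have h2 : c < p := by omega
    have h3 : (c : ℝ) < p := by exact_mod_cast h2
    exact ⟨by linarith, h2⟩
  have hgp : ∀ {d : ℕ}, d ∈ (PP z y).divisors → 0 ≤ gp (fun p => (rho D p : ℝ)) c d := by
    intro d hd
    unfold gp
    exact prod_nonneg fun p hp => div_nonneg (Nat.cast_nonneg _) (hpc hd hp).1.le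
  rcases T.eq_empty_or_nonempty with hTe | ⟨t0, ht0⟩
  · rw [hTe, card_empty, Nat.cast_zero]
    have h1 := hgp hs
    have h2 := hgp hv
    positivity
  have g0 := (hgood t0 ht0).1
  have hsv := cop_sv hs hv g0
  have hsu : s.Coprime u := cop_su hs hu
  have hvu : v.Coprime u := cop_su hv hu
  have hs1 := dv_pos hs
  have hv1 := dv_pos hv
  have hu1 := dv_pos hu
  set m := s ^ 2 * v ^ 2 * u with hm
  have hm1 : 1 ≤ m := Nat.succ_le_of_lt (by positivity)
  have hm4 : m ^ 4 ≤ X := by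
    refine le_trans ?_ hsvu
    have h1 : m ≤ (s * v * u) ^ 2 := by
      rw [hm]
      calc s ^ 2 * v ^ 2 * u ≤ s ^ 2 * v ^ 2 * (u * u) :=
            Nat.mul_le_mul_left _ (Nat.le_mul_of_pos_left u hu1)
        _ = (s * v * u) ^ 2 := by ring
    calc m ^ 4 ≤ ((s * v * u) ^ 2) ^ 4 := Nat.pow_le_pow_left h1 4
      _ = (s * v * u) ^ 8 := by rw [← pow_mul]
  -- the sieve system
  have hSVm := hSV X y hy0 hzy hX (fun p n => (p : ℤ) ∣ D.eval (N + (n : ℤ))) (fun p => rho D p)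
    (by
      intro p hp n
      apply eval_dvd_iff
      push_cast
      exact ⟨(n : ℤ) / p, by have := Int.emod_add_mul_ediv (n : ℤ) p; linarith⟩)
    (by
      intro p hp
      refine ⟨?_, hρ p (mem_PS.1 hp).2 (mem_PS.1 hp).1.1⟩
      have := card_translate D N (mem_PS.1 hp).2.pos
      convert this)
    m
  set W : ℝ := Real.exp (-∑ p ∈ (PS z y).filter (fun p => ¬ p ∣ m), (rho D p : ℝ) / p) with hW
  set B : ℝ := C * (X / m) * W with hB
  have hB0 : 0 ≤ B := by positivity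
  -- the map
  let P0 := (s * v * u).primeFactors
  let P3 := s.primeFactors
  let Phi : ℕ → (P0 → ℕ) × (P3 → ℕ) := fun t =>
    (fun p => ra (t : ℤ) p, fun p => wa D N (t : ℤ) p)
  let Tg : Finset ((P0 → ℕ) × (P3 → ℕ)) :=
    (Fintype.piFinset (fun p : P0 => RT D N p)) ×ˢ
      (Fintype.piFinset (fun p : P3 => Pool.Agent.W372.RK2.WW E p))
  have hsvu0 : s * v * u ≠ 0 := by positivity
  have hroot : ∀ t ∈ T, ∀ p : ℕ, p.Prime → p ∣ s * v * u → (p : ℤ) ∣ D.eval (N + (t : ℤ)) := by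
    intro t ht p hp hpd
    have g := (hgood t ht).1
    rcases hp.dvd_mul.1 hpd with h1 | h1
    · rcases hp.dvd_mul.1 h1 with h2 | h2
      · exact (g.fs hp h2).2.1
      · exact (dvd_pow_self (p : ℤ) two_ne_zero).trans (g.fv hp h2).2
    · exact (Int.natCast_dvd_natCast.2 h1).trans g.hu
  have hmaps : ∀ t ∈ T, Phi t ∈ Tg := by
    intro t ht
    have g := (hgood t ht).1
    rw [mem_product, Fintype.mem_piFinset, Fintype.mem_piFinset]
    refine ⟨fun p => ?_, fun p => ?_⟩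
    · have hp := Nat.prime_of_mem_primeFactors p.2
      exact ra_mem hp.pos (hroot t ht p hp (Nat.dvd_of_mem_primeFactors p.2))
    · exact wa_mem g (hgood t ht).2 p.2
  have hfib : ∀ φ, ((T.filter (fun t : ℕ => Phi t = φ)).card : ℝ) ≤ B := by
    intro φ
    rcases (T.filter (fun t : ℕ => Phi t = φ)).eq_empty_or_nonempty with he | ⟨r, hr⟩
    · rw [he, card_empty, Nat.cast_zero]
      exact hB0
    · refine le_trans ?_ (hSVm r hm1 hm4)
      rw [Nat.cast_le]
      apply card_le_card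
      intro t ht
      rw [mem_filter] at ht hr
      have g := (hgood t ht.1).1
      have g' := (hgood r hr.1).1
      have htX : t ∈ Icc 1 X := (mem_filter.1 ht.1).1
      have heq : Phi t = Phi r := ht.2.trans hr.2.symm
      refine mem_flt htX ⟨?_, ?_⟩
      · have h1 := congr_of hG hs hv hu g g'
          (fun p hp hpd => congrFun (congrArg Prod.fst heq)
            ⟨p, Nat.mem_primeFactors.2 ⟨hp, hpd, hsvu0⟩⟩)
          (fun p hp hps => congrFun (congrArg Prod.snd heq)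
            ⟨p, Nat.mem_primeFactors.2 ⟨hp, hps, hs1.ne'⟩⟩)
        rw [← hm] at h1
        exact ((Nat.modEq_iff_dvd.2 h1)).symm
      · intro p hpP hpm hpf
        have hp := (mem_PS.1 hpP).2
        apply hpm
        rw [hm]
        by_cases h2 : (p : ℤ) ^ 2 ∣ D.eval (N + (t : ℤ))
        · have h3 : p ∣ v := by
            rw [← g.hv]
            exact (dvd_S2 hp).2 ⟨hpP, h2⟩
          exact ((h3.pow two_ne_zero).mul_left _).mul_right _
        · have h3 : p ∣ s := by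
            rw [← g.hs]
            exact (dvd_S1 hp).2 ⟨hpP, hpf, h2⟩
          exact ((h3.pow two_ne_zero).mul_right _).mul_right _
  have hcard : (T.card : ℝ) ≤ (Tg.card : ℝ) * B := by
    rw [card_eq_sum_card_fiberwise (f := Phi) (t := Tg) hmaps]
    rw [Nat.cast_sum]
    refine (sum_le_sum fun φ _ => hfib φ).trans ?_
    rw [sum_const, nsmul_eq_mul]
  -- the number of values of the map
  have hTg : (Tg.card : ℝ) ≤ (∏ p ∈ s.primeFactors, (rho D p : ℝ)) *
      (∏ p ∈ v.primeFactors, (rho D p : ℝ)) * (c : ℝ) ^ u.primeFactors.card *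
      ((1 / 2) ^ s.primeFactors.card * (s : ℝ)) := by
    have h1 : Tg.card = (∏ p ∈ P0, rho D p) * ∏ p ∈ P3, (Pool.Agent.W372.RK2.WW E p).card := by
      rw [card_product, Fintype.card_piFinset, Fintype.card_piFinset]
      congr 1
      · rw [prod_coe_sort P0 (fun p => (RT D N p).card)]
        refine prod_congr rfl fun p hp => ?_
        exact card_translate D N (Nat.prime_of_mem_primeFactors hp).pos
      · exact prod_coe_sort P3 (fun p => (Pool.Agent.W372.RK2.WW E p).card)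
    have h2 : P0 = (s.primeFactors ∪ v.primeFactors) ∪ u.primeFactors := by
      change (s * v * u).primeFactors = _
      rw [Nat.primeFactors_mul (by positivity) hu1.ne', Nat.primeFactors_mul hs1.ne' hv1.ne']
    have d1 : Disjoint s.primeFactors v.primeFactors := hsv.disjoint_primeFactors
    have d2 : Disjoint (s.primeFactors ∪ v.primeFactors) u.primeFactors := by
      rw [disjoint_union_left]
      exact ⟨hsu.disjoint_primeFactors, hvu.disjoint_primeFactors⟩
    rw [h1, h2, prod_union d2, prod_union d1]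
    push_cast
    have h3 : ∏ p ∈ u.primeFactors, (rho D p : ℝ) ≤ (c : ℝ) ^ u.primeFactors.card := by
      rw [← prod_const]
      refine prod_le_prod (fun _ _ => Nat.cast_nonneg _) fun p hp => ?_
      have hpp := Nat.prime_of_mem_primeFactors hp
      have h4 := (dv_prime hu hpp (Nat.dvd_of_mem_primeFactors hp)).1
      exact_mod_cast hρ p hpp (by omega)
    have h4 : ∏ p ∈ P3, ((Pool.Agent.W372.RK2.WW E p).card : ℝ) ≤
        (1 / 2) ^ s.primeFactors.card * (s : ℝ) := by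
      refine (prod_le_prod (fun _ _ => Nat.cast_nonneg _) fun p hp => card_WW hz2 hs E hp).trans ?_
      rw [prod_mul_distrib, prod_const]
      apply mul_le_mul_of_nonneg_left _ (by positivity)
      rw [← Nat.cast_prod, Nat.prod_primeFactors_of_squarefree (dv_squarefree hs)]
    have h5 : 0 ≤ ∏ p ∈ s.primeFactors, (rho D p : ℝ) := prod_nonneg fun _ _ => Nat.cast_nonneg _
    have h6 : 0 ≤ ∏ p ∈ v.primeFactors, (rho D p : ℝ) := prod_nonneg fun _ _ => Nat.cast_nonneg _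
    apply mul_le_mul _ h4 (prod_nonneg fun _ _ => Nat.cast_nonneg _) (by positivity)
    exact mul_le_mul_of_nonneg_left h3 (mul_nonneg h5 h6)
  -- the exponential
  have hWle : W ≤ Real.exp (-Sp (fun p => (rho D p : ℝ)) z y) *
      ((∏ p ∈ s.primeFactors, (p : ℝ) / ((p : ℝ) - c)) *
        ∏ p ∈ v.primeFactors, (p : ℝ) / ((p : ℝ) - c)) := by
    have h1 : (PS z y).filter (fun p => p ∣ m) = s.primeFactors ∪ v.primeFactors := by
      ext p
      rw [mem_filter, mem_union]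
      constructor
      · rintro ⟨hP, hpm⟩
        have hp := (mem_PS.1 hP).2
        rcases hp.dvd_mul.1 hpm with h1 | h1
        · rcases hp.dvd_mul.1 h1 with h2 | h2
          · exact Or.inl (Nat.mem_primeFactors.2 ⟨hp, hp.dvd_of_dvd_pow h2, hs1.ne'⟩)
          · exact Or.inr (Nat.mem_primeFactors.2 ⟨hp, hp.dvd_of_dvd_pow h2, hv1.ne'⟩)
        · exfalso
          have h2 := (dv_prime hu hp h1).1
          have h3 := (mem_PS.1 hP).1.2
          omega
      · rintro (hp | hp)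
        · have hpp := Nat.prime_of_mem_primeFactors hp
          have hd := Nat.dvd_of_mem_primeFactors hp
          exact ⟨mem_PS.2 ⟨dv_prime hs hpp hd, hpp⟩,
            ((hd.pow two_ne_zero).mul_right _).mul_right _⟩
        · have hpp := Nat.prime_of_mem_primeFactors hp
          have hd := Nat.dvd_of_mem_primeFactors hp
          exact ⟨mem_PS.2 ⟨dv_prime hv hpp hd, hpp⟩,
            ((hd.pow two_ne_zero).mul_left _).mul_right _⟩
    have h2 : Sp (fun p => (rho D p : ℝ)) z y =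
        ∑ p ∈ (PS z y).filter (fun p => p ∣ m), (rho D p : ℝ) / p +
        ∑ p ∈ (PS z y).filter (fun p => ¬ p ∣ m), (rho D p : ℝ) / p :=
      (sum_filter_add_sum_filter_not _ _ _).symm
    have d1 : Disjoint s.primeFactors v.primeFactors := hsv.disjoint_primeFactors
    rw [hW, h2, h1, sum_union d1]
    have h3 : ∀ {d : ℕ}, d ∈ (PP z y).divisors →
        Real.exp (∑ p ∈ d.primeFactors, (rho D p : ℝ) / p) ≤
          ∏ p ∈ d.primeFactors, (p : ℝ) / ((p : ℝ) - c) := by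
      intro d hd
      rw [Real.exp_sum]
      refine prod_le_prod (fun _ _ => (Real.exp_pos _).le) fun p hp => ?_
      have hpp := Nat.prime_of_mem_primeFactors hp
      have hzp := (dv_prime hd hpp (Nat.dvd_of_mem_primeFactors hp)).1
      exact exp_le_div (Nat.cast_nonneg _) (by exact_mod_cast hρ p hpp hzp) (hpc hd hp).2
    have h4 := mul_le_mul (h3 hs) (h3 hv) (Real.exp_pos _).le
      (prod_nonneg fun p hp => div_nonneg (Nat.cast_nonneg _) (hpc hs hp).1.le)
    rw [← Real.exp_add] at h4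
    refine le_trans (le_of_eq ?_) (mul_le_mul_of_nonneg_left h4 (Real.exp_pos _).le)
    rw [← Real.exp_add]
    congr 1
    ring
  -- conclusion
  have hfin : (Tg.card : ℝ) * B ≤
      ((∏ p ∈ s.primeFactors, (rho D p : ℝ)) *
      (∏ p ∈ v.primeFactors, (rho D p : ℝ)) * (c : ℝ) ^ u.primeFactors.card *
      ((1 / 2) ^ s.primeFactors.card * (s : ℝ))) * (C * (X / m) *
      (Real.exp (-Sp (fun p => (rho D p : ℝ)) z y) *
      ((∏ p ∈ s.primeFactors, (p : ℝ) / ((p : ℝ) - c)) *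
        ∏ p ∈ v.primeFactors, (p : ℝ) / ((p : ℝ) - c)))) := by
    have h5 : 0 ≤ ∏ p ∈ s.primeFactors, (rho D p : ℝ) := prod_nonneg fun _ _ => Nat.cast_nonneg _
    have h6 : 0 ≤ ∏ p ∈ v.primeFactors, (rho D p : ℝ) := prod_nonneg fun _ _ => Nat.cast_nonneg _
    apply mul_le_mul hTg _ hB0 (by positivity)
    rw [hB]
    exact mul_le_mul_of_nonneg_left hWle (by positivity)
  refine hcard.trans (hfin.trans (le_of_eq ?_))
  have hkey : ∀ {d : ℕ}, d ∈ (PP z y).divisors →
      (∏ p ∈ d.primeFactors, (rho D p : ℝ)) * ∏ p ∈ d.primeFactors, (p : ℝ) / ((p : ℝ) - c) =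
        (d : ℝ) * gp (fun p => (rho D p : ℝ)) c d := by
    intro d hd
    unfold gp
    have h1 : (d : ℝ) = ∏ p ∈ d.primeFactors, (p : ℝ) := by
      rw [← Nat.cast_prod, Nat.prod_primeFactors_of_squarefree (dv_squarefree hd)]
    conv_rhs => rw [h1]
    rw [← prod_mul_distrib, ← prod_mul_distrib]
    refine prod_congr rfl fun p _ => ?_
    ring
  have ks := hkey hs
  have kv := hkey hv
  have hs' : (s : ℝ) ≠ 0 := by exact_mod_cast hs1.ne'
  have hv' : (v : ℝ) ≠ 0 := by exact_mod_cast hv1.ne'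
  have hu' : (u : ℝ) ≠ 0 := by exact_mod_cast hu1.ne'
  have hmr : (m : ℝ) = (s : ℝ) ^ 2 * (v : ℝ) ^ 2 * u := by rw [hm]; push_cast; ring
  rw [hmr]
  have e1 : ∀ A1 A2 B1 B2 Q H V : ℝ, (A1 * A2 * Q * (H * (s : ℝ))) *
      (C * (X / ((s : ℝ) ^ 2 * (v : ℝ) ^ 2 * u)) * (V * (B1 * B2))) =
      ((A1 * B1) * (A2 * B2)) * (Q * H * C * X * V / ((s : ℝ) * (v : ℝ) ^ 2 * u)) := by
    intro A1 A2 B1 B2 Q H V
    field_simp
  rw [e1, ks, kv]
  field_simp

end Pool.Agent.TH841.PT.CNTPf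

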