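import Mathlib
import Pool.Agent.TH841.PT.Stm
import Pool.Agent.W655.RK.Ep

/-!
# PT-EFG: a twisted Euler product and Mertens type sums, with general weights

Written by helper698 for helper841 (project PT).
-/

set_option autoImplicit false

namespace Pool.Agent.TH841.PT.EFG

open Finset Polynomial Pool.Agent.W262.RK Pool.Agent.TH841.PT

open Pool.Agent.W655.RK (chr chr_prod chr_abs exp_small PS_prime PS_lt PS_le
  prod_primes_squarefree sum_mult prod_le_exp mertens sum_inv_sq)

/-- the local weight -/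
lemma weight_le0 (w : ℝ) (c z p : ℕ) (hw : 0 ≤ w) (hw2 : w ≤ 1 / 2) (hz : 2 * c + 2 ≤ z)
    (hp : z < p) : 0 ≤ w / ((p : ℝ) - c) * (1 + 2 / (p : ℝ)) ∧
    w / ((p : ℝ) - c) * (1 + 2 / (p : ℝ)) ≤ w * (1 / p) + (6 * c + 2) * (1 / (p : ℝ) ^ 2) := by
  have hp1 : (2 * c + 3 : ℝ) ≤ p := by exact_mod_cast (by omega : 2 * c + 3 ≤ p)
  have hc : (0:ℝ) ≤ c := Nat.cast_nonneg c
  have hp0 : (0:ℝ) < p := by linarith
  have hpc : (0:ℝ) < (p : ℝ) - c := by linarith
  have h2 : (1:ℝ) + 2 / p = (p + 2) / p := by field_simp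
  constructor
  · positivity
  · have h3 : w * (1 / p) + (6 * c + 2) * (1 / (p : ℝ) ^ 2) = (w * p + (6 * c + 2)) / p ^ 2 := by
      field_simp
    rw [h3, h2, div_mul_div_comm, div_le_div_iff₀ (by positivity) (by positivity)]
    have h4 : w * ((p : ℝ) + 2) * p ≤ (w * p + (6 * c + 2)) * ((p : ℝ) - c) := by
      have h5 : (w * p + (6 * c + 2)) * ((p : ℝ) - c) - w * ((p : ℝ) + 2) * p =
          (6 * c + 2 - w * c - 2 * w) * p - (6 * c + 2) * c := by ring
      have h6 : (5 * c + 1 : ℝ) ≤ 6 * c + 2 - w * c - 2 * w := by nlinarith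
      have h7 : (5 * c + 1 : ℝ) * (2 * c + 3) ≤ (6 * c + 2 - w * c - 2 * w) * p := by
        apply mul_le_mul h6 hp1 (by positivity) (by nlinarith)
      nlinarith
    calc w * ((p : ℝ) + 2) * p ^ 2 = (w * ((p : ℝ) + 2) * p) * p := by ring
      _ ≤ ((w * p + (6 * c + 2)) * ((p : ℝ) - c)) * p := mul_le_mul_of_nonneg_right h4 hp0.le
      _ = (w * p + (6 * c + 2)) * (((p : ℝ) - c) * p) := by ring

/-- the divisors of `PP z y` coprime to `R` -/
lemma divisors_coprime (z y R : ℕ) :
    (PP z y).divisors.filter (fun d => d.Coprime R) =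
      (∏ p ∈ (PS z y).filter (fun p => ¬ p ∣ R), p).divisors := by
  classical
  set S' := (PS z y).filter (fun p => ¬ p ∣ R) with hS'
  have hS'p : ∀ p ∈ S', p.Prime := fun p hp => PS_prime (mem_filter.1 hp).1
  have hsq1 := prod_primes_squarefree (PS z y) fun p hp => PS_prime hp
  have hsq2 := prod_primes_squarefree S' hS'p
  ext d
  rw [mem_filter, Nat.mem_divisors, Nat.mem_divisors]
  constructor
  · rintro ⟨⟨hd, -⟩, hc⟩
    refine ⟨?_, hsq2.ne_zero⟩
    have hsd : Squarefree d := hsq1.squarefree_of_dvd hd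
    rw [← Nat.prod_primeFactors_of_squarefree hsd]
    refine Finset.prod_dvd_prod_of_subset _ _ _ fun p hp => ?_
    have hpp := Nat.prime_of_mem_primeFactors hp
    have hpd := Nat.dvd_of_mem_primeFactors hp
    have h1 : p ∈ PS z y := by
      rw [← Nat.primeFactors_prod (s := PS z y) fun p hp => PS_prime hp]
      exact Nat.primeFactors_mono hd hsq1.ne_zero hp
    refine mem_filter.2 ⟨h1, fun hpR => ?_⟩
    have := Nat.dvd_gcd hpd hpR
    rw [hc.gcd_eq_one] at this
    exact hpp.one_lt.ne' (Nat.dvd_one.1 this)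
  · rintro ⟨hd, -⟩
    refine ⟨⟨hd.trans (Finset.prod_dvd_prod_of_subset _ _ _ (filter_subset _ _)),
      hsq1.ne_zero⟩, ?_⟩
    refine Nat.Coprime.coprime_dvd_left hd ?_
    exact Nat.Coprime.prod_left fun p hp =>
      ((hS'p p hp).coprime_iff_not_dvd).2 (mem_filter.1 hp).2

theorem epg : EPG := by
  intro b κ c z C0 E0 hb hzc hE0 hyp
  obtain ⟨K, hK, hsq⟩ := sum_inv_sq
  have hz2 : 2 ≤ z := by omega
  refine ⟨Real.exp (C0 + c * K), fun y R r e hy hR hr hrs hrp => ?_⟩
  classical
  have hr3 : 3 ≤ r := by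
    obtain ⟨p, hp, hpr⟩ := Nat.exists_prime_and_dvd (by omega : r ≠ 1)
    have h1 := hrp p hp hpr
    have h2 := Nat.le_of_dvd (by omega) hpr
    omega
  have hlr : 0 < Real.log r := Real.log_pos (by exact_mod_cast (by omega : 1 < r))
  have hset := divisors_coprime z y R
  set S' := (PS z y).filter (fun p => ¬ p ∣ R) with hS'
  have hS'p : ∀ p ∈ S', p.Prime := fun p hp => PS_prime (mem_filter.1 hp).1
  set φ : ℕ → ℝ := fun p => b p / ((p : ℝ) - c) * chr κ r e p with hφ
  have hsum : ∑ d ∈ (PP z y).divisors.filter (fun d => d.Coprime R),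
      gp b c d * (Jr d r * Jr κ d * x4 e d) = ∏ p ∈ S', (1 + φ p) := by
    rw [hset, ← sum_mult S' hS'p φ]
    refine Finset.sum_congr rfl fun d hd => ?_
    have hsd : Squarefree d :=
      (prod_primes_squarefree S' hS'p).squarefree_of_dvd (Nat.dvd_of_mem_divisors hd)
    show gp b c d * chr κ r e d = _
    have h1 : chr κ r e d = ∏ p ∈ d.primeFactors, chr κ r e p := by
      rw [← chr_prod κ r e _ fun p hp => Nat.prime_of_mem_primeFactors hp,
        Nat.prod_primeFactors_of_squarefree hsd]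
    rw [h1, gp, ← Finset.prod_mul_distrib]
  rw [hsum]
  have hp3 : ∀ p ∈ PS z y, (2 * c + 3 : ℝ) ≤ p := fun p hp => by
    have := PS_lt hp
    exact_mod_cast (by omega : 2 * c + 3 ≤ p)
  have hc0 : (0:ℝ) ≤ c := Nat.cast_nonneg c
  have hfac : ∀ p ∈ S', 0 ≤ 1 + φ p := by
    intro p hp
    have h1 := hp3 p (mem_filter.1 hp).1
    have hb1 := (hb p).1
    have hb2 := (hb p).2
    have h2 : 0 < (p : ℝ) - c := by linarith
    have h3 : b p / ((p : ℝ) - c) ≤ 1 := by
      rw [div_le_one h2]
      linarith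
    have h4 := (abs_le.1 (chr_abs κ r e p)).1
    have h5 : 0 ≤ b p / ((p : ℝ) - c) := div_nonneg hb1 h2.le
    simp only [hφ]
    nlinarith
  rw [abs_of_nonneg (Finset.prod_nonneg hfac)]
  refine (prod_le_exp S' φ hfac).trans ?_
  -- the exponent
  have hterm : ∀ p ∈ S', φ p ≤ b p * chr κ r e p / p + c * (1 / (p : ℝ) ^ 2) := by
    intro p hp
    have h1 := hp3 p (mem_filter.1 hp).1
    have hb1 := (hb p).1
    have hb2 := (hb p).2
    have h2 : 0 < (p : ℝ) - c := by linarith
    have hp0 : (0:ℝ) < p := by linarith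
    have h4 := (abs_le.1 (chr_abs κ r e p)).2
    simp only [hφ]
    have h5 : b p / ((p : ℝ) - c) * chr κ r e p =
        b p * chr κ r e p / p + (b p * c / (p * (p - c))) * chr κ r e p := by
      field_simp
      ring
    rw [h5]
    have h6 : 0 ≤ b p * c / (p * (p - c)) := by positivity
    have h7 : b p * c / (p * (p - c)) ≤ c * (1 / (p : ℝ) ^ 2) := by
      rw [mul_one_div, div_le_div_iff₀ (by positivity) (by positivity)]
      have h8 : b p * p ≤ p - c := by nlinarith
      have h9 : 0 ≤ (c : ℝ) * p := by positivity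
      nlinarith
    nlinarith
  have hexp : ∑ p ∈ S', φ p ≤ 1 / 2 * Sp b z y + E0 * Real.log (Real.log r) + C0 + c * K +
      ∑ p ∈ (PS z y).filter (fun p => p ∣ R), b p / p := by
    have hub := hyp y r e hy hr hrs hrp
    have hub' : ∑ p ∈ PS z y, b p * chr κ r e p / (p : ℝ) ≤
      1 / 2 * Sp b z y + E0 * Real.log (Real.log r) + C0 := hub
    have hsplit := Finset.sum_filter_add_sum_filter_not (PS z y) (fun p => p ∣ R)
      (fun p => b p * chr κ r e p / (p : ℝ))
    have h1 : ∑ p ∈ S', b p * chr κ r e p / (p : ℝ) ≤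
        (1 / 2 * Sp b z y + E0 * Real.log (Real.log r) + C0) +
        ∑ p ∈ (PS z y).filter (fun p => p ∣ R), b p / (p : ℝ) := by
      have h2 : -∑ p ∈ (PS z y).filter (fun p => p ∣ R), b p / (p : ℝ) ≤
          ∑ p ∈ (PS z y).filter (fun p => p ∣ R), b p * chr κ r e p / (p : ℝ) := by
        rw [← Finset.sum_neg_distrib]
        refine Finset.sum_le_sum fun p _ => ?_
        rw [← neg_div]
        refine div_le_div_of_nonneg_right ?_ (Nat.cast_nonneg p)
        have h3 := (abs_le.1 (chr_abs κ r e p)).1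
        have h4 := (hb p).1
        nlinarith
      linarith
    calc ∑ p ∈ S', φ p ≤ ∑ p ∈ S', (b p * chr κ r e p / p + c * (1 / (p : ℝ) ^ 2)) :=
          Finset.sum_le_sum hterm
      _ = ∑ p ∈ S', b p * chr κ r e p / p + c * ∑ p ∈ S', 1 / (p : ℝ) ^ 2 := by
          rw [Finset.sum_add_distrib, Finset.mul_sum]
      _ ≤ ((1 / 2 * Sp b z y + E0 * Real.log (Real.log r) + C0) +
            ∑ p ∈ (PS z y).filter (fun p => p ∣ R), b p / (p : ℝ)) + c * K :=
          add_le_add h1 (mul_le_mul_of_nonneg_left (hsq _) hc0)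
      _ = _ := by ring
  have hhh : Real.exp (∑ p ∈ (PS z y).filter (fun p => p ∣ R), b p / p) ≤ hh R := by
    rw [Real.exp_sum]
    unfold hh
    have hsub : (PS z y).filter (fun p => p ∣ R) ⊆ R.primeFactors := by
      intro p hp
      rw [mem_filter] at hp
      exact Nat.mem_primeFactors.2 ⟨PS_prime hp.1, hp.2, hR⟩
    calc ∏ p ∈ (PS z y).filter (fun p => p ∣ R), Real.exp (b p / p)
        ≤ ∏ p ∈ (PS z y).filter (fun p => p ∣ R), (1 + 2 / (p : ℝ)) := by
          refine Finset.prod_le_prod (fun p _ => (Real.exp_pos _).le) fun p hp => ?_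
          have h1 := hp3 p (mem_filter.1 hp).1
          have hb1 := (hb p).1
          have hb2 := (hb p).2
          have hp0 : (0:ℝ) < p := by linarith
          have h2 : b p / (p : ℝ) ≤ 1 / 2 := by
            rw [div_le_iff₀ hp0]
            linarith
          refine (exp_small _ (div_nonneg hb1 hp0.le) h2).trans ?_
          have h3 : b p / (p : ℝ) ≤ 1 / p := div_le_div_of_nonneg_right (by linarith) hp0.le
          have h4 : 2 / (p : ℝ) = 2 * (1 / p) := by ring
          rw [h4]
          linarith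
      _ ≤ ∏ p ∈ R.primeFactors, (1 + 2 / (p : ℝ)) := by
          refine Finset.prod_le_prod_of_subset_of_one_le hsub (fun p _ => by positivity)
            fun p _ _ => ?_
          have : (0:ℝ) ≤ 2 / (p : ℝ) := by positivity
          linarith
  calc Real.exp (∑ p ∈ S', φ p) ≤ Real.exp (1 / 2 * Sp b z y + E0 * Real.log (Real.log r) + C0 +
        c * K + ∑ p ∈ (PS z y).filter (fun p => p ∣ R), b p / p) := Real.exp_le_exp.2 hexp
    _ = Real.exp (C0 + c * K) * Real.exp (1 / 2 * Sp b z y) * (Real.log r) ^ E0 *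
        Real.exp (∑ p ∈ (PS z y).filter (fun p => p ∣ R), b p / p) := by
        rw [Real.rpow_def_of_pos hlr, ← Real.exp_add, ← Real.exp_add, ← Real.exp_add]
        congr 1
        ring
    _ ≤ _ := mul_le_mul_of_nonneg_left hhh (by positivity)

lemma gp_hh (b : ℕ → ℝ) (c d : ℕ) : gp b c d * hh d =
    ∏ p ∈ d.primeFactors, (b p / ((p : ℝ) - c) * (1 + 2 / (p : ℝ))) := by
  unfold gp hh
  rw [Finset.prod_mul_distrib]

theorem fullg : FULLG := by
  intro b c z hb hz
  obtain ⟨C0, hC0, hmer⟩ := mertens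
  obtain ⟨K, hK, hsq⟩ := sum_inv_sq
  have hz2 : 2 ≤ z := by omega
  set φ : ℕ → ℝ := fun p => b p / ((p : ℝ) - c) * (1 + 2 / (p : ℝ)) with hφ
  set B : ℝ := 1 / 2 * C0 + (6 * c + 2) * K with hB
  have hB0 : 0 ≤ B := by positivity
  have hφw : ∀ y, ∀ p ∈ PS z y, 0 ≤ φ p ∧ φ p ≤ b p * (1 / p) + (6 * c + 2) * (1 / (p : ℝ) ^ 2) :=
    fun y p hp => weight_le0 (b p) c z p (hb p).1 (hb p).2 hz (PS_lt hp)
  have hφ0 : ∀ y, ∀ p ∈ PS z y, 0 ≤ φ p := fun y p hp => (hφw y p hp).1
  have hsumS : ∀ y : ℕ, ∑ p ∈ PS z y, φ p ≤ Sp b z y + (6 * c + 2) * K := by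
    intro y
    calc ∑ p ∈ PS z y, φ p ≤ ∑ p ∈ PS z y, (b p * (1 / (p : ℝ)) + (6 * c + 2) *
            (1 / (p : ℝ) ^ 2)) :=
          Finset.sum_le_sum fun p hp => (hφw y p hp).2
      _ = Sp b z y + (6 * c + 2) * ∑ p ∈ PS z y, 1 / (p : ℝ) ^ 2 := by
          rw [Finset.sum_add_distrib, Finset.mul_sum]
          unfold Sp
          simp only [mul_one_div]
      _ ≤ _ := add_le_add le_rfl (mul_le_mul_of_nonneg_left (hsq _) (by positivity))
  have hSp : ∀ y : ℕ, 2 ≤ y → Sp b z y ≤ 1 / 2 * (Real.log (Real.log y) + C0) := by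
    intro y hy
    calc Sp b z y ≤ ∑ p ∈ PS z y, 1 / 2 * (1 / (p : ℝ)) := by
          unfold Sp
          refine Finset.sum_le_sum fun p hp => ?_
          rw [mul_one_div]
          exact div_le_div_of_nonneg_right (hb p).2 (Nat.cast_nonneg p)
      _ = 1 / 2 * ∑ p ∈ PS z y, 1 / (p : ℝ) := by rw [Finset.mul_sum]
      _ ≤ _ := mul_le_mul_of_nonneg_left (hmer z y hy) (by norm_num)
  have hsum : ∀ y : ℕ, 2 ≤ y → ∑ p ∈ PS z y, φ p ≤ 1 / 2 * Real.log (Real.log y) + B := by
    intro y hy
    have h1 := hsumS y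
    have h2 := hSp y hy
    rw [hB]
    linarith
  have hlog : ∀ y : ℕ, 2 ≤ y → 0 < Real.log y := fun y hy =>
    Real.log_pos (by exact_mod_cast (by omega : 1 < y))
  have main0 : ∀ y : ℕ, ∑ d ∈ (PP z y).divisors, gp b c d * hh d ≤
      Real.exp (∑ p ∈ PS z y, φ p) := by
    intro y
    simp only [gp_hh]
    unfold PP
    rw [sum_mult (PS z y) (fun p hp => PS_prime hp) φ]
    exact prod_le_exp _ _ fun p hp => by have := hφ0 y p hp; linarith
  have main : ∀ y : ℕ, 2 ≤ y → ∑ d ∈ (PP z y).divisors, gp b c d * hh d ≤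
      Real.exp B * (Real.log y) ^ (1 / 2 : ℝ) := by
    intro y hy
    refine (main0 y).trans ?_
    rw [Real.rpow_def_of_pos (hlog y hy), ← Real.exp_add, Real.exp_le_exp]
    have := hsum y hy
    linarith
  have hnn : ∀ d : ℕ, (∀ p ∈ d.primeFactors, z < p) → 0 ≤ gp b c d * hh d := by
    intro d hd
    rw [gp_hh]
    exact Finset.prod_nonneg fun p hp =>
      (weight_le0 (b p) c z p (hb p).1 (hb p).2 hz (hd p hp)).1
  have hpf : ∀ y d, d ∈ (PP z y).divisors → d.primeFactors ⊆ PS z y := by
    intro y d hd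
    have h1 : (PP z y).primeFactors = PS z y := Nat.primeFactors_prod fun p hp => PS_prime hp
    rw [← h1]
    exact Nat.primeFactors_mono (Nat.dvd_of_mem_divisors hd) (Nat.mem_divisors.1 hd).2
  refine ⟨Real.exp (3 * (B + 1)), ?_, ?_, ?_⟩
  · intro y hy
    refine (main0 y).trans ?_
    rw [← Real.exp_add, Real.exp_le_exp]
    have h1 := hsumS y
    have h2 : (6 * c + 2) * K ≤ B := by
      rw [hB]
      linarith
    linarith
  · intro y V hy hV
    have hsub : (PP z y).divisors.filter (fun d => d ≤ V) ⊆ (PP z (min y V)).divisors := by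
      intro d hd
      rw [mem_filter] at hd
      have h1 := hpf y d hd.1
      have hd0 : d ≠ 0 := (Nat.pos_of_mem_divisors hd.1).ne'
      have h2 : Squarefree d := (prod_primes_squarefree (PS z y)
        fun p hp => PS_prime hp).squarefree_of_dvd (Nat.dvd_of_mem_divisors hd.1)
      rw [Nat.mem_divisors]
      refine ⟨?_, (prod_primes_squarefree (PS z (min y V)) fun p hp => PS_prime hp).ne_zero⟩
      rw [← Nat.prod_primeFactors_of_squarefree h2]
      refine Finset.prod_dvd_prod_of_subset _ _ _ fun p hp => ?_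
      have h3 := h1 hp
      have h4 : p ≤ d := Nat.le_of_mem_primeFactors hp
      exact mem_filter.2 ⟨mem_Ioc.2 ⟨PS_lt h3, le_min (PS_le h3) (h4.trans hd.2)⟩, PS_prime h3⟩
    have h1 : ∑ d ∈ (PP z y).divisors.filter (fun d => d ≤ V), gp b c d * hh d ≤
        ∑ d ∈ (PP z (min y V)).divisors, gp b c d * hh d := by
      refine Finset.sum_le_sum_of_subset_of_nonneg hsub fun d hd _ => hnn d fun p hp => ?_
      exact PS_lt (hpf _ d hd hp)
    have hmin2 : 2 ≤ min y V := le_min (by omega) hV
    refine h1.trans ((main _ hmin2).trans ?_)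
    have h2 : (Real.log (min y V : ℕ)) ^ (1 / 2 : ℝ) ≤ (Real.log V) ^ (1 / 2 : ℝ) := by
      refine Real.rpow_le_rpow (hlog _ hmin2).le ?_ (by norm_num)
      exact Real.log_le_log (by exact_mod_cast (by omega : 0 < min y V))
        (by exact_mod_cast min_le_right y V)
    have hlV := hlog V hV
    have h3 : (-1 : ℝ) ≤ Real.log (Real.log V) := by
      rw [Real.le_log_iff_exp_le hlV]
      have h5 : Real.log 2 ≤ Real.log V :=
        Real.log_le_log (by norm_num) (by exact_mod_cast hV)
      have := Real.log_two_gt_d9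
      have h4 : Real.exp (-1) ≤ 0.5 := by
        rw [Real.exp_neg]
        have := Real.exp_one_gt_d9
        rw [inv_le_comm₀ (Real.exp_pos 1) (by norm_num)]
        norm_num
        linarith
      linarith
    have h4 : (Real.log V) ^ (1 / 2 : ℝ) ≤ Real.exp 1 * Real.log V := by
      rw [Real.rpow_def_of_pos hlV]
      nth_rewrite 2 [← Real.exp_log hlV]
      rw [← Real.exp_add, Real.exp_le_exp]
      linarith
    calc Real.exp B * (Real.log (min y V : ℕ)) ^ (1 / 2 : ℝ)
        ≤ Real.exp B * (Real.exp 1 * Real.log V) :=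
          mul_le_mul_of_nonneg_left (h2.trans h4) (Real.exp_pos _).le
      _ = Real.exp (B + 1) * Real.log V := by rw [Real.exp_add B 1]; ring
      _ ≤ _ := by
          refine mul_le_mul_of_nonneg_right ?_ hlV.le
          rw [Real.exp_le_exp]
          linarith
  · intro y Y hy hY
    have hy3 : 3 ≤ y := by omega
    have hly := hlog y (by omega)
    have hly1 : 1 ≤ Real.log y := by
      rw [Real.le_log_iff_exp_le (by positivity)]
      have := Real.exp_one_lt_d9
      have h3 : (3:ℝ) ≤ y := by exact_mod_cast hy3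
      linarith
    have hY0 : (0:ℝ) < Y := by exact_mod_cast hY
    set ψ : ℕ → ℝ := fun p => φ p * Real.exp (Real.log p / Real.log y) with hψ
    have hterm : ∀ d ∈ (PP z y).divisors.filter (fun d => Y < d), gp b c d * hh d ≤
        Real.exp (-(Real.log Y / Real.log y)) * ∏ p ∈ d.primeFactors, ψ p := by
      intro d hd
      rw [mem_filter] at hd
      have h1 := hpf y d hd.1
      have hd0 : 0 < d := Nat.pos_of_mem_divisors hd.1
      have h2 : Squarefree d := (prod_primes_squarefree (PS z y)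
        fun p hp => PS_prime hp).squarefree_of_dvd (Nat.dvd_of_mem_divisors hd.1)
      have h3 : ∏ p ∈ d.primeFactors, Real.exp (Real.log p / Real.log y) =
          Real.exp (Real.log d / Real.log y) := by
        rw [← Real.exp_sum, ← Finset.sum_div, ← Real.log_prod]
        · congr 3
          conv_rhs => rw [← Nat.prod_primeFactors_of_squarefree h2]
          push_cast
          rfl
        · intro p hp
          exact_mod_cast (Nat.prime_of_mem_primeFactors hp).ne_zero
      rw [hψ, Finset.prod_mul_distrib, h3, gp_hh]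
      have h4 : 0 ≤ ∏ p ∈ d.primeFactors, φ p :=
        Finset.prod_nonneg fun p hp => hφ0 y p (h1 hp)
      have h5 : 1 ≤ Real.exp (-(Real.log Y / Real.log y)) * Real.exp (Real.log d / Real.log y) := by
        rw [← Real.exp_add]
        apply Real.one_le_exp
        rw [neg_add_eq_sub, ← sub_div]
        refine div_nonneg (sub_nonneg.2 (Real.log_le_log hY0 ?_)) hly.le
        exact_mod_cast hd.2.le
      calc ∏ p ∈ d.primeFactors, φ p = (∏ p ∈ d.primeFactors, φ p) * 1 := (mul_one _).symm
        _ ≤ (∏ p ∈ d.primeFactors, φ p) * (Real.exp (-(Real.log Y / Real.log y)) *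
            Real.exp (Real.log d / Real.log y)) := mul_le_mul_of_nonneg_left h5 h4
        _ = _ := by ring
    have hψ0 : ∀ p ∈ PS z y, 0 ≤ ψ p := fun p hp => mul_nonneg (hφ0 y p hp) (Real.exp_pos _).le
    have hψe : ∀ p ∈ PS z y, ψ p ≤ φ p * Real.exp 1 := by
      intro p hp
      refine mul_le_mul_of_nonneg_left ?_ (hφ0 y p hp)
      rw [Real.exp_le_exp, div_le_one hly]
      exact Real.log_le_log (by exact_mod_cast (PS_prime hp).pos) (by exact_mod_cast PS_le hp)
    calc ∑ d ∈ (PP z y).divisors.filter (fun d => Y < d), gp b c d * hh d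
        ≤ ∑ d ∈ (PP z y).divisors.filter (fun d => Y < d),
            Real.exp (-(Real.log Y / Real.log y)) * ∏ p ∈ d.primeFactors, ψ p :=
          Finset.sum_le_sum hterm
      _ ≤ ∑ d ∈ (PP z y).divisors,
            Real.exp (-(Real.log Y / Real.log y)) * ∏ p ∈ d.primeFactors, ψ p := by
          refine Finset.sum_le_sum_of_subset_of_nonneg (filter_subset _ _) fun d hd _ => ?_
          exact mul_nonneg (Real.exp_pos _).le (Finset.prod_nonneg fun p hp => hψ0 p (hpf y d hd hp))
      _ = Real.exp (-(Real.log Y / Real.log y)) * ∏ p ∈ PS z y, (1 + ψ p) := by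
          rw [← Finset.mul_sum]
          congr 1
          exact sum_mult (PS z y) (fun p hp => PS_prime hp) ψ
      _ ≤ Real.exp (-(Real.log Y / Real.log y)) *
            (Real.exp (3 * (B + 1)) * (Real.log y) ^ 2) := by
          refine mul_le_mul_of_nonneg_left ?_ (Real.exp_pos _).le
          refine (prod_le_exp _ _ fun p hp => by have := hψ0 p hp; linarith).trans ?_
          have h6 : (Real.log y) ^ 2 = Real.exp (2 * Real.log (Real.log y)) := by
            rw [mul_comm, Real.exp_mul, Real.exp_log hly]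
            norm_num
          rw [h6, ← Real.exp_add, Real.exp_le_exp]
          have h7 : ∑ p ∈ PS z y, ψ p ≤ (1 / 2 * Real.log (Real.log y) + B) * Real.exp 1 := by
            calc ∑ p ∈ PS z y, ψ p ≤ ∑ p ∈ PS z y, φ p * Real.exp 1 := Finset.sum_le_sum hψe
              _ = (∑ p ∈ PS z y, φ p) * Real.exp 1 := by rw [Finset.sum_mul]
              _ ≤ _ := mul_le_mul_of_nonneg_right (hsum y (by omega)) (Real.exp_pos _).le
          have h8 : 0 ≤ Real.log (Real.log y) := Real.log_nonneg hly1
          have h9 := Real.exp_one_lt_d9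
          have h10 : 1 / 2 * Real.exp 1 ≤ 2 := by linarith
          have h11 : 1 / 2 * Real.log (Real.log y) * Real.exp 1 ≤ 2 * Real.log (Real.log y) := by
            calc 1 / 2 * Real.log (Real.log y) * Real.exp 1 =
                (1 / 2 * Real.exp 1) * Real.log (Real.log y) := by ring
              _ ≤ _ := mul_le_mul_of_nonneg_right h10 h8
          have h12 : B * Real.exp 1 ≤ 3 * B := by nlinarith
          linarith
      _ = _ := by ring

end Pool.Agent.TH841.PT.EFG
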