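import Mathlib
import Pool.Agent.TH841.PT.Stm
import Pool.Agent.W125.RS.ExpK

/-!
# Expansion of the moments into symbols, with general weights (`EXPG`)
-/

set_option autoImplicit false

namespace Pool.Agent.TH841.PT.ExpG

open Finset Polynomial Pool.Agent.W262.RK Pool.Agent.W108.RK Pool.Agent.W762.RK2
  Pool.Agent.W307.RS Pool.Agent.W125.RS Pool.Agent.TH841.PT

section final

variable {J : Type} [Fintype J] [DecidableEq J] {z y k : ℕ}

lemma prod_gp {ι : Type} [Fintype ι] [DecidableEq ι] (w : ι → ℕ → ℝ) (c : ℕ)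
    (l : Pr z y → Option ι) :
    ∏ i, gp (w i) c (Dl l i) = ∏ p : Pr z y, (l p).elim 1 fun i => w i p / ((p : ℝ) - c) := by
  have h1 : ∀ i, gp (w i) c (Dl l i) = ∏ p : Pr z y,
      if l p = some i then w i p / ((p : ℝ) - c) else 1 := by
    intro i
    unfold gp Dl
    rw [prod_pf _ fun p : ℕ => w i p / ((p : ℝ) - c)]
    simp only [decide_eq_true_eq]
  rw [Finset.prod_congr rfl fun i _ => h1 i, Finset.prod_comm]
  refine Finset.prod_congr rfl fun p _ => ?_
  cases h : l p with
  | none => simp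
  | some j => simp

/-- the local term -/
noncomputable def TmG (κ : J → Fin 3 → ℤ) (g : J → ℕ → ℝ) (c : ℕ)
    (ξ : Pr z y → Option (J × (Fin k → Bool × Bool))) (p : Pr z y) : ℝ :=
  (ξ p).elim 1 fun r => g r.1 p / ((p : ℝ) - c) * (((∏ a, ind (LL 3 (κ r.1) true p (r.2 a).1
    (r.2 a).2 (sgn p (E1 a ξ)) (sgn p (E2 a ξ)))) + ∏ a, ind (LL 3 (κ r.1) false p (r.2 a).1
    (r.2 a).2 (sgn p (E1 a ξ)) (sgn p (E2 a ξ)))) / 2)

lemma lhsG (κ : J → Fin 3 → ℤ) (g : J → ℕ → ℝ) (c : ℕ) :
    ∑ s ∈ Tup J z y, NBK k κ s * ∏ j, gp (g j) c (s j) =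
      ∑ ξ : Pr z y → Option (J × (Fin k → Bool × Bool)), ∏ p, TmG κ g c ξ p := by
  have h1 : ∀ s ∈ Tup J z y, NBK k κ s * ∏ j, gp (g j) c (s j) =
      ∑ d ∈ Fintype.piFinset (fun _ : Fin k => (∏ j, s j).divisors ×ˢ (∏ j, s j).divisors),
        (∏ p ∈ (∏ j, s j).primeFactors, ((∏ a, Il (c3 J) κ s (d a) true p) +
        ∏ a, Il (c3 J) κ s (d a) false p) / 2) * ∏ j, gp (g j) c (s j) := by
    intro s hs
    rw [NBK_eq κ, Finset.sum_mul]
  rw [Finset.sum_congr rfl h1, sum_bigK fun s d =>
    (∏ p ∈ (∏ j, s j).primeFactors, ((∏ a, Il (c3 J) κ s (d a) true p) +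
        ∏ a, Il (c3 J) κ s (d a) false p) / 2) * ∏ j, gp (g j) c (s j)]
  refine Finset.sum_congr rfl fun ξ _ => ?_
  have h2 : ∏ j, gp (g j) c (SK ξ j) = ∏ p : Pr z y, ((ξ p).map Prod.fst).elim 1
      fun j => g j p / ((p : ℝ) - c) := prod_gp g c _
  have h3 : ∏ j, SK ξ j = nb fun p => ((ξ p).map Prod.fst).isSome := prod_Dl _
  rw [h2, h3, prod_pf _ fun p => ((∏ a, Il (c3 J) κ (SK ξ) (E1 a ξ, E2 a ξ) true p) +
    ∏ a, Il (c3 J) κ (SK ξ) (E1 a ξ, E2 a ξ) false p) / 2, ← Finset.prod_mul_distrib]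
  refine Finset.prod_congr rfl fun p _ => ?_
  unfold TmG
  cases hx : ξ p with
  | none => simp
  | some r =>
    have h4 : ∀ (neg : Bool) (a : Fin k), Il (c3 J) κ (SK ξ) (E1 a ξ, E2 a ξ) neg p =
        ind (LL 3 (κ r.1) neg p (r.2 a).1 (r.2 a).2 (sgn p (E1 a ξ)) (sgn p (E2 a ξ))) := by
      intro neg a
      unfold Il
      have e1 : dv p (E1 a ξ : ℤ) = (r.2 a).1 := by
        have : B1 a (ξ p) = (r.2 a).1 := by rw [hx]; rfl
        rw [← this]
        unfold dv
        rw [Bool.eq_iff_iff, decide_eq_true_iff, Int.natCast_dvd_natCast]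
        exact dvd_nb _ p
      have e2 : dv p (E2 a ξ : ℤ) = (r.2 a).2 := by
        have : B2 a (ξ p) = (r.2 a).2 := by rw [hx]; rfl
        rw [← this]
        unfold dv
        rw [Bool.eq_iff_iff, decide_eq_true_iff, Int.natCast_dvd_natCast]
        exact dvd_nb _ p
      have e3 : ∀ j, (p : ℕ) ∣ SK ξ j ↔ j = r.1 := by
        intro j
        unfold SK Dl
        rw [dvd_nb, decide_eq_true_iff]
        show (ξ p).map Prod.fst = some j ↔ j = r.1
        rw [hx]
        simp [eq_comm]
      congr 1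
      simp only [e1, e2, e3, forall_eq]
      rfl
    simp only [h4]
    simp only [Option.map_some, Option.isSome_some, if_true, Option.elim]
    ring

/-- the local factor -/
noncomputable def GG (κ : J → Fin 3 → ℤ) (g : J → ℕ → ℝ) (c : ℕ)
    (ξ : Pr z y → Option (J × (Fin k → Bool × Bool))) (p : Pr z y) (x : Option (IK k J)) : ℝ :=
  x.elim 1 fun i => g i.1.1 p / ((p : ℝ) - c) * (1 / 4 ^ k * Jr (κK k κ i) p *
    ∏ a, ((if (i.1.2.2 a).1 = true then sg (sgn p (E1 a ξ)) else 1) *
      (if (i.1.2.2 a).2 = true then sg (sgn p (E2 a ξ)) else 1)))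

lemma sum_GG (κ : J → Fin 3 → ℤ) (g : J → ℕ → ℝ) (c : ℕ)
    (ξ : Pr z y → Option (J × (Fin k → Bool × Bool))) (p : Pr z y)
    (hk : ∀ j i, ¬ ((p : ℕ) : ℤ) ∣ κ j i) :
    ∑ x ∈ univ.filter (fun x : Option (IK k J) => fgK x = ξ p), GG κ g c ξ p x =
      TmG κ g c ξ p := by
  rw [Finset.sum_filter, Fintype.sum_option]
  unfold TmG
  cases hx : ξ p with
  | none => simp [fgK, GG]
  | some r =>
    obtain ⟨j, v⟩ := r
    have h0 : (if fgK (none : Option (IK k J)) = some (j, v) then GG κ g c ξ p none else 0) =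
        0 := by
      rw [if_neg]
      simp [fgK]
    rw [h0, zero_add]
    set F : J × (Fin k → Bool × Bool) × (Fin k → Bool × Bool) → ℝ :=
      fun r : J × (Fin k → Bool × Bool) × (Fin k → Bool × Bool) =>
          if r.1 = j ∧ r.2.1 = v then g r.1 p / ((p : ℝ) - c) * (1 / 4 ^ k *
            Jr (∏ a, cst (κ r.1) (r.2.1 a) (r.2.2 a)) p *
            ∏ a, ((if (r.2.2 a).1 = true then sg (sgn p (E1 a ξ)) else 1) *
            (if (r.2.2 a).2 = true then sg (sgn p (E2 a ξ)) else 1))) else 0 with hF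
    have h1 : ∀ i : IK k J, (if fgK (some i) = some (j, v) then GG κ g c ξ p (some i) else 0) =
        F i.1 := by
      intro i
      refine if_congr ?_ rfl rfl
      simp only [fgK, Option.map_some, Option.some.injEq, Prod.mk.injEq]
    refine (Finset.sum_congr rfl fun i _ => h1 i).trans ((sum_IK F).trans ?_)
    rw [Fintype.sum_prod_type, Finset.sum_eq_single j]
    · rw [Fintype.sum_prod_type, Finset.sum_eq_single v]
      · show _ = g j p / ((p : ℝ) - c) * _
        rw [locK (κ j) (Pr_prime p) (hk j) v, Finset.mul_sum]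
        refine Finset.sum_congr rfl fun x _ => ?_
        simp only [hF, and_self, if_true, mul_ite, mul_zero]
      · intro v' _ hv'
        refine Finset.sum_eq_zero fun x _ => ?_
        simp [hF, hv']
      · intro h
        exact absurd (Finset.mem_univ _) h
    · intro j' _ hj'
      refine Finset.sum_eq_zero fun x _ => ?_
      simp [hF, hj']
    · intro h
      exact absurd (Finset.mem_univ _) h

lemma rhsG (κ : J → Fin 3 → ℤ) (g : J → ℕ → ℝ) (c : ℕ)
    (ξ : Pr z y → Option (J × (Fin k → Bool × Bool))) (l : Pr z y → Option (IK k J))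
    (h : ∀ p, fgK (l p) = ξ p) :
    (∏ i : IK k J, gp (fun p => g i.1.1 p / 4 ^ k) c (Dl l i)) *
      Pool.Agent.W262.RK.Sym (LK k) (κK k κ) (Dl l) = ∏ p, GG κ g c ξ p (l p) := by
  rw [prod_gp (fun i : IK k J => fun p => g i.1.1 p / 4 ^ k), Sym_Dl,
    ← Finset.prod_mul_distrib, ← Finset.prod_mul_distrib]
  refine Finset.prod_congr rfl fun p _ => ?_
  cases hl : l p with
  | none =>
    have h0 : ∀ q, Pool.Agent.W762.RK2.lk (LK k) (l q) (none : Option (IK k J)) = false := by
      intro q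
      cases l q <;> rfl
    simp [h0, GG]
  | some i =>
    have h2 : ∏ q : Pr z y, (if Pool.Agent.W762.RK2.lk (LK k) (l q) (some i) = true then
        Jr (q : ℕ) p else 1) =
        ∏ a, ((if (i.1.2.2 a).1 = true then sg (sgn p (E1 a ξ)) else 1) *
      (if (i.1.2.2 a).2 = true then sg (sgn p (E2 a ξ)) else 1)) := by
      have h3 : ∀ a : Bool, ∀ b : Pr z y → Bool, (if a = true then sg (sgn p (nb b : ℤ)) else 1) =
          ∏ q : Pr z y, if a = true then (if q ≠ p ∧ b q = true then Jr (q : ℕ) p else 1)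
            else 1 := by
        intro a b
        cases a
        · simp
        · simp only [if_true]
          exact sgn_nb b p
      unfold E1 E2
      simp only [h3, ← Finset.prod_mul_distrib]
      rw [Finset.prod_comm]
      refine Finset.prod_congr rfl fun q _ => ?_
      by_cases hqp : q = p
      · subst hqp
        rw [hl]
        have h4 : Pool.Agent.W762.RK2.lk (LK k) (some i) (some i) = false := by
          show decide (dK k i.1.2.1 i.1.2.2 % 2 = 1) = false
          rw [i.2]
          rfl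
        simp [h4]
      · cases hq : l q with
        | none =>
          have h5 : ξ q = none := by rw [← h q, hq]; rfl
          simp [Pool.Agent.W762.RK2.lk, h5, B1, B2]
        | some i' =>
          have h5 : ξ q = some (i'.1.1, i'.1.2.1) := by rw [← h q, hq]; rfl
          have h6 := prod_par (Jr (q : ℕ) p) (Jr_self_mul hqp) i'.1.2.1 i.1.2.2
          have h7 : (if Pool.Agent.W762.RK2.lk (LK k) (some i') (some i) = true then
              Jr (q : ℕ) p else 1) =
              if dK k i'.1.2.1 i.1.2.2 % 2 = 1 then Jr (q : ℕ) p else 1 := by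
            refine if_congr ?_ rfl rfl
            show decide (dK k i'.1.2.1 i.1.2.2 % 2 = 1) = true ↔ _
            exact decide_eq_true_iff
          rw [h7, ← h6]
          refine Finset.prod_congr rfl fun a _ => ?_
          have e1 : B1 a (ξ q) = (i'.1.2.1 a).1 := by rw [h5]; rfl
          have e2 : B2 a (ξ q) = (i'.1.2.1 a).2 := by rw [h5]; rfl
          rw [e1, e2]
          exact bits_eq q p _ _ _ _ fun hh => absurd hh hqp
    rw [h2]
    simp only [GG, Option.elim]
    ring

end final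

theorem expg : EXPG := by
  intro J _ _ k κ g c z y hz hκ hκz
  classical
  rw [lhsG, sum_Tup, ← Finset.sum_fiberwise univ
    (fun (l : Pr z y → Option (IK k J)) => fun p => fgK (l p))]
  refine Finset.sum_congr rfl fun ξ _ => ?_
  have h1 : (univ.filter fun l : Pr z y → Option (IK k J) => (fun p => fgK (l p)) = ξ) =
      Fintype.piFinset (fun p => univ.filter (fun x : Option (IK k J) => fgK x = ξ p)) := by
    ext l
    simp only [Finset.mem_filter, Finset.mem_univ, true_and, Fintype.mem_piFinset, funext_iff]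
  have hk : ∀ p : Pr z y, ∀ j i, ¬ ((p : ℕ) : ℤ) ∣ κ j i := by
    intro p j i hd
    have hz : z < p := by
      have := p.2
      unfold PS at this
      exact (Finset.mem_Ioc.1 (Finset.mem_filter.1 this).1).1
    have h3 := Nat.le_of_dvd (Int.natAbs_pos.mpr (hκ j i)) (Int.natCast_dvd.1 hd)
    have h4 := hκz j i
    omega
  rw [h1, Finset.prod_congr rfl fun p _ => (sum_GG κ g c ξ p (hk p)).symm, Finset.prod_univ_sum]
  refine Finset.sum_congr rfl fun l hl => ?_
  rw [Fintype.mem_piFinset] at hl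
  exact (rhsG κ g c ξ l fun p => (Finset.mem_filter.1 (hl p)).2).symm

end Pool.Agent.TH841.PT.ExpG
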