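import Mathlib
import Pool.Agent.TH841.PT.Stm4
import Pool.Agent.W762.RK2.EXP4b

/-!
# Project PT: expansion into symbols with the signs averaged, with bits (`EXPT`)
-/

set_option autoImplicit false

namespace Pool.Agent.TH841.PT.ExpT

open Finset Polynomial Pool.Agent.W262.RK Pool.Agent.TH841.PT Pool.Agent.W762.RK2

section numbers

variable {z y : ℕ}

lemma prod_gp {ι : Type} [Fintype ι] [DecidableEq ι] (a : ι → ℕ → ℝ) (c : ℕ)
    (l : Pr z y → Option ι) :
    ∏ i, gp (a i) c (Dl l i) = ∏ p : Pr z y, (l p).elim 1 fun i => a i p / ((p : ℝ) - c) := by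
  have h1 : ∀ i, gp (a i) c (Dl l i) = ∏ p : Pr z y,
      if l p = some i then a i p / ((p : ℝ) - c) else 1 := by
    intro i
    unfold gp Dl
    rw [prod_pf _ fun p : ℕ => a i p / ((p : ℝ) - c)]
    simp only [decide_eq_true_eq]
  rw [Finset.prod_congr rfl fun i _ => h1 i, Finset.prod_comm]
  refine Finset.prod_congr rfl fun p _ => ?_
  cases h : l p with
  | none => simp
  | some j => simp

end numbers

section local_identity

/-- the bit in a raw form -/
def bitc (c : Fin 4) (e : Fin 3 → Bool) (v x : Bool × Bool) : Bool :=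
  if v = (false, false) ∨ x = (false, false) then false
  else if c = 3 then
    (if v = (true, false) then xor (e 0) (e 2)
      else if v = (false, true) then xor (e 0) (e 1)
      else xor (e 1) (e 2))
  else e 0

/-- the sign in a raw form -/
def kmc (c : Fin 4) (v x : Bool × Bool) : ℤ :=
  if v = (false, false) ∨ x = (false, false) then 1
  else if c = 3 then
    (if v = (true, false) then 1 else if v = (false, true) then 1 else -1)
  else 1

lemma loc_idT (c : Fin 4) (e : Fin 3 → Bool) {p : ℕ} (hp : p.Prime)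
    (v : Bool × Bool) (h g : Bool) :
    (ind (LT c e (sg0 p (-1)) true v.1 v.2 h g) +
        ind (LT c e (sg0 p (-1)) false v.1 v.2 h g)) / 2 =
      ∑ x : Bool × Bool, if Al c v x = true then
        wc c * ((if bitc c e v x = true then -1 else 1) * Jr (kmc c v x) p) *
          ((if x.1 = true then sg h else 1) * (if x.2 = true then sg g else 1)) else 0 := by
  have e3 : Jr (-1) p = sg (sg0 p (-1)) := by
    refine Jr_dvd_ne hp fun hd => ?_
    have h1 : (p : ℤ) ∣ 1 := (dvd_neg).1 hd
    have h2 : p ∣ 1 := by exact_mod_cast h1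
    exact hp.one_lt.ne' (Nat.dvd_one.1 h2)
  have e5 : Jr 1 p = 1 := by
    unfold Jr
    rw [jacobiSym.one_left]
    norm_num
  obtain ⟨v1, v2⟩ := v
  simp only [Fintype.sum_prod_type, Fintype.sum_bool]
  generalize sg0 p (-1) = m at *
  generalize ha : e 0 = a
  generalize hb : e 1 = b
  generalize hc : e 2 = d
  fin_cases c <;> cases v1 <;> cases v2 <;>
    simp [kmc, bitc, wc, Al, ec, LT, ind, e3, e5, ha, hb, hc] <;>
    cases h <;> cases g <;> cases a <;> cases b <;> cases d <;> cases m <;>
      simp [sg] <;> norm_num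

end local_identity

section average

lemma LT_neg {c : Fin 4} (hc : c ≠ 3) (e : Fin 3 → Bool) (m v w h g : Bool) :
    LT c e m true v w h g = LT c e m false v w h g := by
  unfold LT
  split_ifs with h0 h1 h2
  · rfl
  · rfl
  · rfl
  · exfalso
    fin_cases c
    · exact h0 rfl
    · exact h1 rfl
    · exact h2 rfl
    · exact hc rfl

variable {J : Type} [Fintype J] [DecidableEq J] {z y : ℕ}

/-- the local indicator -/
noncomputable def IlT (cls : J → Fin 4) (e : J → Fin 3 → Bool) (s : J → ℕ) (d : ℕ × ℕ)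
    (neg : Bool) (p : ℕ) : ℝ :=
  ind (∀ j, p ∣ s j → LT (cls j) (e j) (sg0 p (-1)) neg (dv p d.1) (dv p d.2) (sgn p d.1)
    (sgn p d.2))

lemma NBT_eq (cls : J → Fin 4) (e : J → Fin 3 → Bool) {s : J → ℕ} (hs : s ∈ Tup J z y) :
    NBT cls e s = ∑ d ∈ (∏ j, s j).divisors ×ˢ (∏ j, s j).divisors,
      ∏ p ∈ (∏ j, s j).primeFactors, (IlT cls e s d true p + IlT cls e s d false p) / 2 := by
  classical
  have hne : ∏ j, s j ≠ 0 := Finset.prod_ne_zero_iff.2 fun j _ =>
    (Pool.Agent.W108.RK.sqf_of_mem hs j).ne_zero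
  have h1 : ∀ E : Finset ℕ, (NL (∏ j, s j) (LTs cls e s E) : ℝ) =
      ∑ d ∈ (∏ j, s j).divisors ×ˢ (∏ j, s j).divisors,
        ∏ p ∈ (∏ j, s j).primeFactors, IlT cls e s d (decide (p ∈ E)) p := by
    intro E
    unfold NL
    rw [Finset.card_filter]
    push_cast
    refine Finset.sum_congr rfl fun d _ => ?_
    unfold IlT
    rw [prod_ind]
    unfold ind LTs
    congr
  unfold NBT
  rw [Finset.sum_congr rfl fun E _ => h1 E, Finset.sum_comm, Finset.mul_sum]
  refine Finset.sum_congr rfl fun d _ => ?_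
  refine avg (P3 cls s) (∏ j, s j).primeFactors ?_ (IlT cls e s d) ?_
  · unfold P3
    refine Nat.primeFactors_mono ?_ hne
    exact Finset.prod_dvd_prod_of_subset _ _ _ (Finset.filter_subset _ _)
  · intro p hp hpA
    unfold IlT
    congr 1
    refine propext (forall_congr' fun j => ?_)
    refine forall_congr' fun hj => ?_
    rw [LT_neg]
    intro hc
    apply hpA
    unfold P3
    refine Nat.mem_primeFactors.2 ⟨Nat.prime_of_mem_primeFactors hp, ?_, ?_⟩
    · exact hj.trans (Finset.dvd_prod_of_mem _ (Finset.mem_filter.2 ⟨Finset.mem_univ _, hc⟩))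
    · exact Finset.prod_ne_zero_iff.2 fun j _ => (Pool.Agent.W108.RK.sqf_of_mem hs j).ne_zero

end average

section final

variable {J : Type} [Fintype J] [DecidableEq J] {z y : ℕ}

/-- the local term -/
noncomputable def TmT (cls : J → Fin 4) (e : J → Fin 3 → Bool) (g : J → ℕ → ℝ) (c : ℕ)
    (ξ : Pr z y → Option (J × (Bool × Bool))) (p : Pr z y) : ℝ :=
  (ξ p).elim 1 fun a => g a.1 p / ((p : ℝ) - c) *
    ((ind (LT (cls a.1) (e a.1) (sg0 p (-1)) true a.2.1 a.2.2
      (sgn p (D1 ξ)) (sgn p (D2 ξ))) +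
      ind (LT (cls a.1) (e a.1) (sg0 p (-1)) false a.2.1 a.2.2
      (sgn p (D1 ξ)) (sgn p (D2 ξ)))) / 2)

lemma lhs_eqT (cls : J → Fin 4) (e : J → Fin 3 → Bool) (g : J → ℕ → ℝ) (c : ℕ) :
    ∑ s ∈ Tup J z y, NBT cls e s * ∏ j, gp (g j) c (s j) =
      ∑ ξ : Pr z y → Option (J × (Bool × Bool)), ∏ p, TmT cls e g c ξ p := by
  have h1 : ∀ s ∈ Tup J z y, NBT cls e s * ∏ j, gp (g j) c (s j) =
      ∑ d ∈ (∏ j, s j).divisors ×ˢ (∏ j, s j).divisors,
        (∏ p ∈ (∏ j, s j).primeFactors, (IlT cls e s d true p + IlT cls e s d false p) / 2) *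
          ∏ j, gp (g j) c (s j) := by
    intro s hs
    rw [NBT_eq cls e hs, Finset.sum_mul]
  rw [Finset.sum_congr rfl h1, sum_big fun s d =>
    (∏ p ∈ (∏ j, s j).primeFactors, (IlT cls e s d true p + IlT cls e s d false p) / 2) *
          ∏ j, gp (g j) c (s j)]
  refine Finset.sum_congr rfl fun ξ _ => ?_
  have h2 : ∏ j, gp (g j) c (SS ξ j) = ∏ p : Pr z y, ((ξ p).map Prod.fst).elim 1
      fun j => g j p / ((p : ℝ) - c) := prod_gp g c _
  have h3 : ∏ j, SS ξ j = nb fun p => ((ξ p).map Prod.fst).isSome := prod_Dl _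
  rw [h2, h3, prod_pf _ fun p => (IlT cls e (SS ξ) (D1 ξ, D2 ξ) true p +
    IlT cls e (SS ξ) (D1 ξ, D2 ξ) false p) / 2, ← Finset.prod_mul_distrib]
  refine Finset.prod_congr rfl fun p _ => ?_
  unfold TmT
  cases hx : ξ p with
  | none => simp
  | some a =>
    have h4 : ∀ neg, IlT cls e (SS ξ) (D1 ξ, D2 ξ) neg p =
        ind (LT (cls a.1) (e a.1) (sg0 p (-1)) neg a.2.1 a.2.2 (sgn p (D1 ξ))
          (sgn p (D2 ξ))) := by
      intro neg
      unfold IlT
      have e1 : dv p (D1 ξ : ℤ) = a.2.1 := by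
        have : b1 (ξ p) = a.2.1 := by rw [hx]; rfl
        rw [← this]
        unfold dv
        rw [Bool.eq_iff_iff, decide_eq_true_iff, Int.natCast_dvd_natCast]
        exact dvd_nb _ p
      have e2 : dv p (D2 ξ : ℤ) = a.2.2 := by
        have : b2 (ξ p) = a.2.2 := by rw [hx]; rfl
        rw [← this]
        unfold dv
        rw [Bool.eq_iff_iff, decide_eq_true_iff, Int.natCast_dvd_natCast]
        exact dvd_nb _ p
      have e3 : ∀ j, (p : ℕ) ∣ SS ξ j ↔ j = a.1 := by
        intro j
        unfold SS Dl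
        rw [dvd_nb, decide_eq_true_iff]
        show (ξ p).map Prod.fst = some j ↔ j = a.1
        rw [hx]
        simp [eq_comm]
      congr 1
      simp only [e1, e2, e3, forall_eq]
    simp only [h4]
    simp only [Option.map_some, Option.isSome_some, if_true, Option.elim]
    ring

/-- the local factor -/
noncomputable def GT (cls : J → Fin 4) (e : J → Fin 3 → Bool) (g : J → ℕ → ℝ) (c : ℕ)
    (ξ : Pr z y → Option (J × (Bool × Bool))) (p : Pr z y) (x : Option (I4 cls)) : ℝ :=
  x.elim 1 fun i => g i.1.1 p / ((p : ℝ) - c) *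
    (w4 cls i * ((if bit4 cls e i = true then -1 else 1) * Jr (κm cls i) p) *
    ((if i.1.2.2.1 = true then sg (sgn p (D1 ξ)) else 1) *
      (if i.1.2.2.2 = true then sg (sgn p (D2 ξ)) else 1)))

lemma sum_GT (cls : J → Fin 4) (e : J → Fin 3 → Bool) (g : J → ℕ → ℝ) (c : ℕ)
    (ξ : Pr z y → Option (J × (Bool × Bool))) (p : Pr z y) :
    ∑ x ∈ univ.filter (fun x : Option (I4 cls) => fg x = ξ p), GT cls e g c ξ p x =
      TmT cls e g c ξ p := by
  rw [Finset.sum_filter, Fintype.sum_option]
  unfold TmT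
  cases hx : ξ p with
  | none => simp [fg, GT]
  | some a =>
    obtain ⟨j, v⟩ := a
    have h0 : (if fg (none : Option (I4 cls)) = some (j, v) then GT cls e g c ξ p none else 0) =
        0 := by
      rw [if_neg]
      simp [fg]
    rw [h0, zero_add]
    set F : J × (Bool × Bool) × (Bool × Bool) → ℝ := fun r : J × (Bool × Bool) × (Bool × Bool) =>
          if r.1 = j ∧ r.2.1 = v then g r.1 p / ((p : ℝ) - c) * (wc (cls r.1) *
            ((if bitc (cls r.1) (e r.1) r.2.1 r.2.2 = true then -1 else 1) *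
              Jr (kmc (cls r.1) r.2.1 r.2.2) p) *
            ((if r.2.2.1 = true then sg (sgn p (D1 ξ)) else 1) *
            (if r.2.2.2 = true then sg (sgn p (D2 ξ)) else 1))) else 0 with hF
    have h1 : ∀ i : I4 cls, (if fg (some i) = some (j, v) then GT cls e g c ξ p (some i) else 0) =
        F i.1 := by
      intro i
      refine if_congr ?_ rfl rfl
      simp only [fg, Option.map_some, Option.some.injEq, Prod.mk.injEq]
    refine (Finset.sum_congr rfl fun i _ => h1 i).trans ((sum_I4 cls F).trans ?_)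
    rw [Fintype.sum_prod_type, Finset.sum_eq_single j]
    · rw [Fintype.sum_prod_type, Finset.sum_eq_single v]
      · show _ = g j p / ((p : ℝ) - c) * _
        rw [loc_idT (cls j) (e j) (Pr_prime p) v, Finset.mul_sum]
        refine Finset.sum_congr rfl fun x _ => ?_
        simp only [hF, and_self, if_true, mul_ite, mul_zero]
      · intro v' _ hv'
        refine Finset.sum_eq_zero fun x _ => ?_
        simp [hF, hv']
      · intro h
        exact absurd (Finset.mem_univ _) h
    · intro j' _ hj'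
      refine Finset.sum_eq_zero fun x _ => ?_
      simp [hF, hj']
    · intro h
      exact absurd (Finset.mem_univ _) h

lemma rhs_termT (cls : J → Fin 4) (e : J → Fin 3 → Bool) (g : J → ℕ → ℝ) (c : ℕ)
    (ξ : Pr z y → Option (J × (Bool × Bool))) (l : Pr z y → Option (I4 cls))
    (h : ∀ p, fg (l p) = ξ p) :
    (∏ i, gp (fun p => w4 cls i * ((if bit4 cls e i = true then -1 else 1) * g i.1.1 p)) c
        (Dl l i)) * Pool.Agent.W262.RK.Sym (L4 cls) (κm cls) (Dl l) =
      ∏ p, GT cls e g c ξ p (l p) := by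
  rw [prod_gp, Sym_Dl, ← Finset.prod_mul_distrib, ← Finset.prod_mul_distrib]
  refine Finset.prod_congr rfl fun p _ => ?_
  cases hl : l p with
  | none =>
    have h0 : ∀ q, lk (L4 cls) (l q) none = false := by
      intro q
      cases l q <;> rfl
    simp [h0, GT]
  | some i =>
    have hAl := Al_orth _ _ _ i.2
    have h1 : ∀ q, lk (L4 cls) (l q) (some i) =
        xor (i.1.2.2.1 && b1 (ξ q)) (i.1.2.2.2 && b2 (ξ q)) := by
      intro q
      rw [← h q]
      cases hq : l q with
      | none => simp [Pool.Agent.W762.RK2.lk, fg, b1, b2]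
      | some i' => rfl
    have h2 : ∏ q : Pr z y, (if lk (L4 cls) (l q) (some i) = true then Jr (q : ℕ) p else 1) =
        ((if i.1.2.2.1 = true then sg (sgn p (D1 ξ)) else 1) *
      (if i.1.2.2.2 = true then sg (sgn p (D2 ξ)) else 1)) := by
      have h3 : ∀ a : Bool, ∀ b : Pr z y → Bool, (if a = true then sg (sgn p (nb b : ℤ)) else 1) =
          ∏ q : Pr z y, if a = true then (if q ≠ p ∧ b q = true then Jr (q : ℕ) p else 1)
            else 1 := by
        intro a b
        cases a
        · simp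
        · simp only [if_true]
          exact sgn_nb b p
      unfold D1 D2
      rw [h3, h3, ← Finset.prod_mul_distrib]
      refine Finset.prod_congr rfl fun q _ => ?_
      rw [h1]
      refine bits_eq q p _ _ _ _ fun hqp => ?_
      rw [hqp, ← h p, hl]
      exact hAl
    rw [h2]
    simp only [GT, Option.elim]
    ring

end final

theorem expt : EXPT := by
  intro J _ _ cls e g c z y hz
  classical
  rw [lhs_eqT, sum_Tup, ← Finset.sum_fiberwise univ
    (fun (l : Pr z y → Option (I4 cls)) => fun p => fg (l p))]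
  refine Finset.sum_congr rfl fun ξ _ => ?_
  have h1 : (univ.filter fun l : Pr z y → Option (I4 cls) => (fun p => fg (l p)) = ξ) =
      Fintype.piFinset (fun p => univ.filter (fun x : Option (I4 cls) => fg x = ξ p)) := by
    ext l
    simp only [Finset.mem_filter, Finset.mem_univ, true_and, Fintype.mem_piFinset, funext_iff]
  rw [h1, Finset.prod_congr rfl fun p _ => (sum_GT cls e g c ξ p).symm, Finset.prod_univ_sum]
  refine Finset.sum_congr rfl fun l hl => ?_
  rw [Fintype.mem_piFinset] at hl
  exact (rhs_termT cls e g c ξ l fun p => (Finset.mem_filter.1 (hl p)).2).symm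

end Pool.Agent.TH841.PT.ExpT
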