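import Mathlib

/-!
# Project PT: every polynomial is a squarefree polynomial times a square
-/

set_option autoImplicit false

namespace Pool.Agent.TH841.PT

open Polynomial

/-- a nonzero integer polynomial is `D₁ D₂²` with `D₁` squarefree over the rationals -/
theorem exists_fac (D : ℤ[X]) (hD : D ≠ 0) :
    ∃ D₁ D₂ : ℤ[X], D = D₁ * D₂ ^ 2 ∧ Squarefree (D₁.map (Int.castRingHom ℚ)) := by
  induction h : D.natDegree using Nat.strong_induction_on generalizing D with
  | _ n ih =>
    by_cases hs : Squarefree (D.map (Int.castRingHom ℚ))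
    · exact ⟨D, 1, by ring, hs⟩
    · unfold Squarefree at hs
      push Not at hs
      obtain ⟨q, hq, hu⟩ := hs
      have hD' : D.map (Int.castRingHom ℚ) ≠ 0 := by
        rwa [Ne, Polynomial.map_eq_zero_iff (RingHom.injective_int (Int.castRingHom ℚ))]
      have hq0 : q ≠ 0 := by
        rintro rfl
        rw [zero_mul, zero_dvd_iff] at hq
        exact hD' hq
      have hqd : 0 < q.natDegree := by
        by_contra hcon
        apply hu
        rw [Polynomial.eq_C_of_natDegree_eq_zero (by omega : q.natDegree = 0)]
        rw [Polynomial.isUnit_C, isUnit_iff_ne_zero]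
        intro h0
        apply hq0
        rw [Polynomial.eq_C_of_natDegree_eq_zero (by omega : q.natDegree = 0), h0, map_zero]
      set g := IsLocalization.integerNormalization (nonZeroDivisors ℤ) q with hg
      obtain ⟨b, hbM, hb⟩ := IsLocalization.integerNormalization_spec (nonZeroDivisors ℤ) q
      have hbne : (b : ℤ) ≠ 0 := nonZeroDivisors.ne_zero hbM
      have hgq : g.map (Int.castRingHom ℚ) = C ((b : ℤ) : ℚ) * q := by
        have h1 : g.map (algebraMap ℤ ℚ) = b • q := hb
        have h2 : (algebraMap ℤ ℚ) = Int.castRingHom ℚ := rfl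
        rw [h2] at h1
        rw [h1, zsmul_eq_mul]
        simp
      have hg0 : g ≠ 0 := by
        intro h0
        rw [h0, Polynomial.map_zero] at hgq
        have := (mul_eq_zero.1 hgq.symm)
        rcases this with h1 | h1
        · rw [C_eq_zero] at h1
          exact hbne (by exact_mod_cast h1)
        · exact hq0 h1
      set p := g.primPart with hp
      have hpp : p.IsPrimitive := g.isPrimitive_primPart
      have hpg : g = C g.content * p := g.eq_C_content_mul_primPart
      have hcne : g.content ≠ 0 := by
        rw [Ne, content_eq_zero_iff]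
        exact hg0
      have hpq : ∃ c : ℚ, c ≠ 0 ∧ p.map (Int.castRingHom ℚ) = C c * q := by
        refine ⟨((b : ℤ) : ℚ) / (g.content : ℚ), div_ne_zero (by exact_mod_cast hbne)
          (by exact_mod_cast hcne), ?_⟩
        have h1 : C ((g.content : ℤ) : ℚ) * p.map (Int.castRingHom ℚ) = C ((b : ℤ) : ℚ) * q := by
          rw [← hgq]
          conv_rhs => rw [hpg]
          rw [Polynomial.map_mul, Polynomial.map_C]
          rfl
        have h2 : (C ((g.content : ℤ) : ℚ) : ℚ[X]) ≠ 0 := by
          rw [Ne, C_eq_zero]
          exact_mod_cast hcne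
        apply mul_left_cancel₀ h2
        rw [h1, ← mul_assoc, ← C_mul, mul_div_cancel₀]
        exact_mod_cast hcne
      obtain ⟨c, hc, hpc⟩ := hpq
      have hdvd : p * p ∣ D := by
        rw [IsPrimitive.Int.dvd_iff_map_cast_dvd_map_cast _ _ (hpp.mul hpp), Polynomial.map_mul, hpc]
        obtain ⟨r, hr⟩ := hq
        refine ⟨C (c⁻¹ * c⁻¹) * r, ?_⟩
        rw [hr]
        have : (C c * q * (C c * q)) * (C (c⁻¹ * c⁻¹) * r) =
            (C c * C c * C (c⁻¹ * c⁻¹)) * (q * q * r) := by ring
        rw [this, ← C_mul, ← C_mul]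
        have h3 : c * c * (c⁻¹ * c⁻¹) = 1 := by field_simp
        rw [h3, C_1, one_mul]
      obtain ⟨D', hD'e⟩ := hdvd
      have hpd : 0 < p.natDegree := by
        have h1 : (p.map (Int.castRingHom ℚ)).natDegree = p.natDegree :=
          Polynomial.natDegree_map_eq_of_injective (RingHom.injective_int (Int.castRingHom ℚ)) p
        rw [hpc, natDegree_C_mul hc] at h1
        omega
      have hp0 : p ≠ 0 := hpp.ne_zero
      have hD'0 : D' ≠ 0 := by
        rintro rfl
        rw [mul_zero] at hD'e
        exact hD hD'e
      have hdeg : D'.natDegree < n := by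
        rw [← h, hD'e, natDegree_mul (mul_ne_zero hp0 hp0) hD'0, natDegree_mul hp0 hp0]
        omega
      obtain ⟨D₁, D₂, h1, h2⟩ := ih _ hdeg D' hD'0 rfl
      exact ⟨D₁, p * D₂, by rw [hD'e, h1]; ring, h2⟩

end Pool.Agent.TH841.PT
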