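import Mathlib
import Pool.Agent.TH841.PT.Avg
import Pool.Agent.TH841.PT.Fac
import Pool.Agent.TH841.NF.Mom

/-!
# Project PT: the moments of the 2-Selmer groups of the twists by an arbitrary polynomial
-/

set_option autoImplicit false

namespace Pool.Agent.TH841.PT

open Finset Polynomial Pool.Agent.W262.RK Pool.Agent.W307.RT Pool.Agent.W307.RS
open Pool.Agent.W307.SE

/-- the moments for a squarefree polynomial -/
def AVSQ (Rf : ℤ → ℤ → ℝ) : Prop := ∀ (a : Fin 3 → ℤ) (D : ℤ[X]) (k B : ℕ), (∀ k, a k ≠ 0) →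
  a 0 - a 1 = a 2 → Squarefree (D.map (Int.castRingHom ℚ)) → 0 < D.natDegree →
  2 * D.natDegree ≤ 4 ^ k → ∃ C : ℝ, ∀ (N : ℤ) (X : ℕ), 1 ≤ X → N.natAbs ≤ X ^ B →
    ∑ t ∈ (Icc 1 X).filter (fun t : ℕ => D.eval (N + (t : ℤ)) ≠ 0),
      Rf (a 0 * D.eval (N + (t : ℤ))) (a 1 * D.eval (N + (t : ℤ))) ^ k ≤ C * X

/-- from the natural numbers to the integers of a short interval -/
lemma to_Ioc (g : ℤ → ℝ) (hg : ∀ t, 0 ≤ g t) (P : ℤ → Prop) [DecidablePred P] (N : ℤ) (M : ℕ) :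
    ∑ t ∈ (Ioc N (N + M)).filter P, g t ≤
      ∑ t ∈ (Icc 1 M).filter (fun t : ℕ => P (N + (t : ℤ))), g (N + (t : ℤ)) := by
  have hinj : Set.InjOn (fun t : ℕ => N + (t : ℤ)) ((Icc 1 M).filter
      (fun t : ℕ => P (N + (t : ℤ))) : Set ℕ) := by
    intro a _ b _ hab
    have : N + (a : ℤ) = N + (b : ℤ) := hab
    omega
  have hsum : ∑ t ∈ (Icc 1 M).filter (fun t : ℕ => P (N + (t : ℤ))),
      g (N + (t : ℤ)) = ∑ t ∈ ((Icc 1 M).filter
        (fun t : ℕ => P (N + (t : ℤ)))).image (fun t : ℕ => N + (t : ℤ)), g t :=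
    (sum_image hinj).symm
  rw [hsum]
  refine sum_le_sum_of_subset_of_nonneg ?_ (fun t _ _ => hg t)
  intro t ht
  rw [mem_filter, mem_Ioc] at ht
  obtain ⟨⟨ht1, ht2⟩, ht3⟩ := ht
  rw [mem_image]
  have h5 : N + (((t - N).toNat : ℕ) : ℤ) = t := by omega
  refine ⟨(t - N).toNat, ?_, h5⟩
  rw [mem_filter, mem_Icc, h5]
  exact ⟨by omega, ht3⟩

lemma natAbs_le_of {N : ℤ} {M L : ℕ} (hN : |N| ≤ (M : ℤ) ^ L) : N.natAbs ≤ M ^ L := by
  have : ((N.natAbs : ℕ) : ℤ) ≤ ((M ^ L : ℕ) : ℤ) := by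
    rw [Int.natCast_natAbs]
    push_cast
    exact hN
  exact_mod_cast this

/-- the moments, squarefree polynomials, all exponents -/
theorem sn_sq (h : AVSQ SN) (a : Fin 3 → ℤ) (D : ℤ[X]) (k L : ℕ) (ha : ∀ k, a k ≠ 0)
    (ha2 : a 0 - a 1 = a 2) (hD : Squarefree (D.map (Int.castRingHom ℚ))) :
    ∃ C : ℝ, ∀ (N : ℤ) (M : ℕ), 1 ≤ M → |N| ≤ (M : ℤ) ^ L →
      ∑ t ∈ (Ioc N (N + M)).filter (fun t => D.eval t ≠ 0),
        SN (a 0 * D.eval t) (a 1 * D.eval t) ^ k ≤ C * M := by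
  classical
  by_cases hd : 0 < D.natDegree
  · set k' := k + 2 * D.natDegree with hk'
    have hk2 : 2 * D.natDegree ≤ 4 ^ k' := by
      have h1 : k' < 4 ^ k' := Nat.lt_pow_self (by norm_num)
      omega
    obtain ⟨C, hC⟩ := h a D k' L ha ha2 hD hd hk2
    refine ⟨1 + C, fun N M hM hN => ?_⟩
    have h1 := to_Ioc (fun t => 1 + SN (a 0 * D.eval t) (a 1 * D.eval t) ^ k')
      (fun t => add_nonneg zero_le_one (pow_nonneg (SN_nonneg _ _) _)) (fun t => D.eval t ≠ 0) N M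
    have h2 : ∑ t ∈ (Ioc N (N + M)).filter (fun t => D.eval t ≠ 0),
        SN (a 0 * D.eval t) (a 1 * D.eval t) ^ k ≤
        ∑ t ∈ (Ioc N (N + M)).filter (fun t => D.eval t ≠ 0),
          (1 + SN (a 0 * D.eval t) (a 1 * D.eval t) ^ k') := by
      refine sum_le_sum fun t _ => ?_
      have h0 := SN_nonneg (a 0 * D.eval t) (a 1 * D.eval t)
      rcases le_total (SN (a 0 * D.eval t) (a 1 * D.eval t)) 1 with h3 | h3
      · have := pow_le_one₀ (n := k) h0 h3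
        have := pow_nonneg h0 k'
        linarith
      · have := pow_le_pow_right₀ h3 (by omega : k ≤ k')
        linarith
    refine h2.trans (h1.trans ?_)
    rw [sum_add_distrib, add_mul]
    refine add_le_add ?_ ?_
    · rw [sum_const, nsmul_eq_mul, mul_one, one_mul]
      have := card_filter_le (Icc 1 M) (fun t : ℕ => D.eval (N + (t : ℤ)) ≠ 0)
      rw [Nat.card_Icc] at this
      exact_mod_cast this.trans (by omega)
    · convert hC N M hM (natAbs_le_of hN)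
  · obtain ⟨c, hc⟩ : ∃ c : ℤ, D = C c :=
      ⟨D.coeff 0, Polynomial.eq_C_of_natDegree_eq_zero (by omega)⟩
    refine ⟨SN (a 0 * c) (a 1 * c) ^ k, fun N M hM hN => ?_⟩
    have h0 : 0 ≤ SN (a 0 * c) (a 1 * c) ^ k := pow_nonneg (SN_nonneg _ _) _
    calc ∑ t ∈ (Ioc N (N + M)).filter (fun t => D.eval t ≠ 0),
        SN (a 0 * D.eval t) (a 1 * D.eval t) ^ k
        = ((Ioc N (N + M)).filter (fun t => D.eval t ≠ 0)).card * SN (a 0 * c) (a 1 * c) ^ k := by
          rw [hc]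
          simp only [eval_C]
          rw [sum_const, nsmul_eq_mul]
      _ ≤ M * SN (a 0 * c) (a 1 * c) ^ k := by
          apply mul_le_mul_of_nonneg_right _ h0
          have := card_filter_le (Ioc N (N + M)) (fun t => D.eval t ≠ 0)
          rw [Int.card_Ioc] at this
          exact_mod_cast this.trans (by omega)
      _ = _ := mul_comm _ _

/-- **all the moments of the 2-Selmer groups of the twists by the values of a polynomial** -/
theorem sel_poly (h : AVSQ SN) {A B e1 e2 e3 : ℤ} (hE : 4 * A ^ 3 + 27 * B ^ 2 ≠ 0)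
    (he : ∀ x : ℤ, x ^ 3 + A * x + B = (x - e1) * (x - e2) * (x - e3)) (D : ℤ[X]) (hD : D ≠ 0)
    (k L : ℕ) :
    ∃ C : ℝ, ∀ (N : ℤ) (M : ℕ), 1 ≤ M → |N| ≤ (M : ℤ) ^ L →
      ∑ t ∈ (Ioc N (N + M)).filter (fun t => D.eval t ≠ 0),
        ((SelR ((D.eval t) ^ 2 * A) ((D.eval t) ^ 3 * B)).ncard : ℝ) ^ k ≤ C * M := by
  obtain ⟨D₁, D₂, hfac, hsq⟩ := exists_fac D hD
  obtain ⟨h12, h13, h23⟩ := Pool.Agent.TH639.SL.disc_ne hE he
  obtain ⟨C, hC⟩ := sn_sq h ![e2 - e1, e3 - e1, e2 - e3] D₁ k L (by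
      intro i
      fin_cases i
      · exact h12
      · exact h13
      · exact h23)
    (by
      change (e2 - e1) - (e3 - e1) = e2 - e3
      ring) hsq
  refine ⟨C, fun N M hM hN => le_trans ?_ (hC N M hM hN)⟩
  have hev : ∀ t, D.eval t = D₁.eval t * D₂.eval t ^ 2 := by
    intro t
    rw [hfac, eval_mul, eval_pow]
  refine (sum_le_sum fun t ht => ?_).trans (sum_le_sum_of_subset_of_nonneg (f := fun t =>
    SN ((e2 - e1) * D₁.eval t) ((e3 - e1) * D₁.eval t) ^ k) ?_ ?_)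
  · have ht' := (mem_filter.1 ht).2
    refine pow_le_pow_left₀ (Nat.cast_nonneg _) ?_ k
    have := (Pool.Agent.TH841.NF.sel_tw2 hE he (c := 1) (P := D₁.eval t) (w := D₂.eval t) ht'
      (by rw [one_mul]; exact hev t)).2
    rwa [mul_one, mul_one] at this
  · intro t ht
    rw [mem_filter] at ht ⊢
    refine ⟨ht.1, fun h0 => ht.2 ?_⟩
    rw [hev, h0, zero_mul]
  · intro t _ _
    exact pow_nonneg (SN_nonneg _ _) _

end Pool.Agent.TH841.PT
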