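import Mathlib
import Pool.Agent.TH841.PT.Avg3
import Pool.Agent.TH841.PT.Sel
import Pool.Agent.TH841.SH.Wt
import Pool.Agent.W410.FK.FINH

/-!
# Project PT: one-parameter families, ranks and Tate-Shafarevich groups
-/

set_option autoImplicit false

namespace Pool.Agent.TH841.PT

open Finset Polynomial Pool.Agent.W262.RK

open Pool.Agent.W307.SE (SN Sel SN_nonneg sel_fin)

open Pool.Agent.TH841.SH (SelG LocC Bd IsR)

open Pool.Agent.TH841.SH.D (ShaTor HasDiv rk)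

/-- AV3: the average of the order of the 2-Selmer group in a one-parameter family -/
def AV3 : Prop := ∀ (J : Type) [Fintype J] [DecidableEq J] (cls : J → Fin 4) (a : Fin 3 → ℤ)
  (f : J → ℤ[X]) (n B : ℕ), (∀ k, a k ≠ 0) → Irr f →
  (∀ k, k ≠ 3 → (univ.filter (fun j => cls j = k)).card = n) →
  C (a 0) * ∏ l ∈ fs cls 0, f l - C (a 1) * ∏ l ∈ fs cls 1, f l = C (a 2) * ∏ l ∈ fs cls 2, f l →
  ∃ C2 : ℝ, ∀ (N : ℤ) (X : ℕ), 1 ≤ X → N.natAbs ≤ X ^ B →
    ∑ t ∈ (Icc 1 X).filter (fun t : ℕ => ∀ j, (f j).eval (N + (t : ℤ)) ≠ 0),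
      SN (Fval cls a (fun l => (f l).eval (N + (t : ℤ))) 0)
        (Fval cls a (fun l => (f l).eval (N + (t : ℤ))) 1) ≤ C2 * X

/-- the curve `y² = x (x - A) (x - B)` -/
def EQ (A B : ℤ) : WeierstrassCurve ℚ := ⟨0, -((A : ℚ) + B), 0, (A : ℚ) * B, 0⟩

lemma isR_EQ (A B : ℤ) : IsR (EQ A B) ((0 : ℤ) : ℚ) (A : ℚ) (B : ℚ) := by
  refine ⟨rfl, ?_, rfl, ?_, ?_⟩
  · show -((A : ℚ) + B) = _
    push_cast
    ring
  · show (A : ℚ) * B = _
    push_cast
    ring
  · show (0 : ℚ) = _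
    push_cast
    ring

lemma selG_eq (A B : ℤ) : SelG 0 A B = Sel A B := by
  have h : ∀ (K : Type) [Field K] (d1 d2 : ℤ), LocC K 0 A B d1 d2 ↔
      Pool.Agent.W307.SE.Loc K A B d1 d2 := by
    intro K _ d1 d2
    unfold LocC Pool.Agent.W307.SE.Loc
    simp only [Int.cast_zero, sub_zero]
  unfold SelG Sel
  ext d
  simp only [Set.mem_setOf_eq, h]

lemma bd_EQ {A B : ℤ} (hA : A ≠ 0) (hB : B ≠ 0) (hAB : A ≠ B) : Bd (EQ A B) (SN A B) := by
  have hf : (Sel A B).Finite := sel_fin Pool.Agent.W410.FK.seld hA hB hAB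
  have hf' : (SelG 0 A B).Finite := by rw [selG_eq]; exact hf
  obtain ⟨h1, h2⟩ := Pool.Agent.TH841.SH.main (EQ A B) 0 A B (isR_EQ A B) hA.symm hB.symm hAB hf'
  rw [selG_eq] at h2
  refine ⟨h1, ?_⟩
  unfold SN
  exact_mod_cast h2

section

variable {n m : ℕ}

/-- all the polynomials -/
noncomputable def allf (g : Fin m → ℤ[X]) (f : Fin 3 → Fin n → ℤ[X]) :
    (Fin 3 × Fin n) ⊕ Fin m → ℤ[X] :=
  Sum.elim (fun x => f x.1 x.2) g

/-- the classes -/
def allc (n m : ℕ) : (Fin 3 × Fin n) ⊕ Fin m → Fin 4 := Sum.elim (fun x => x.1.castSucc) (fun _ => 3)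

/-- `F_k = a_k ∏ g_i ∏ f_{k,i}` -/
noncomputable def FP (a : Fin 3 → ℤ) (g : Fin m → ℤ[X]) (f : Fin 3 → Fin n → ℤ[X]) (k : Fin 3) :
    ℤ[X] := C (a k) * (∏ i, g i) * ∏ i, f k i

lemma prod_allc {M : Type} [CommMonoid M] (F : (Fin 3 × Fin n) ⊕ Fin m → M) (k : Fin 3) :
    ∏ l ∈ fs (allc n m) k, F l = (∏ i, F (Sum.inr i)) * ∏ i, F (Sum.inl (k, i)) := by
  unfold fs
  rw [prod_filter, Fintype.prod_sum_type, mul_comm]
  congr 1
  · refine prod_congr rfl fun i _ => ?_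
    rw [if_pos]
    exact Or.inr rfl
  · rw [Fintype.prod_prod_type]
    rw [Finset.prod_eq_single k]
    · refine prod_congr rfl fun i _ => ?_
      rw [if_pos]
      exact Or.inl rfl
    · intro l _ hl
      refine prod_eq_one fun i _ => ?_
      rw [if_neg]
      rintro (h | h)
      · exact hl (Fin.castSucc_injective _ h)
      · have h2 : (Fin.castSucc l : Fin 4) = 3 := h
        have h3 : ∀ l : Fin 3, (Fin.castSucc l : Fin 4) ≠ 3 := by decide
        exact h3 l h2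
    · intro h
      exact absurd (mem_univ k) h

lemma card_allc (k : Fin 4) (hk : k ≠ 3) :
    (univ.filter (fun j => allc n m j = k)).card = n := by
  obtain ⟨l, rfl⟩ : ∃ l : Fin 3, l.castSucc = k := by
    revert k
    decide
  have h1 : (univ.filter (fun j => allc n m j = l.castSucc)) =
      univ.image (fun i : Fin n => (Sum.inl (l, i) : (Fin 3 × Fin n) ⊕ Fin m)) := by
    ext j
    simp only [mem_filter, mem_univ, true_and, mem_image]
    constructor
    · intro h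
      rcases j with ⟨k, i⟩ | i
      · have h2 : k.castSucc = l.castSucc := h
        rw [Fin.castSucc_injective _ h2]
        exact ⟨i, rfl⟩
      · exact absurd h.symm hk
    · rintro ⟨i, rfl⟩
      rfl
  rw [h1, card_image_of_injective]
  · simp
  · intro i j hij
    have := Sum.inl_injective hij
    exact (Prod.ext_iff.1 this).2

open Classical in
/-- **ranks and Tate-Shafarevich groups in one-parameter families** -/
theorem fam3 (h : AV3) (a : Fin 3 → ℤ) (g : Fin m → ℤ[X]) (f : Fin 3 → Fin n → ℤ[X])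
    (ha : ∀ k, a k ≠ 0) (hf : Irr (allf g f)) (hF : FP a g f 0 - FP a g f 1 = FP a g f 2)
    (L : ℕ) :
    ∃ C : ℝ, ∀ (N : ℤ) (M : ℕ), 1 ≤ M → |N| ≤ (M : ℤ) ^ L →
      (∀ t ∈ (Ioc N (N + M)).filter (fun t => ∀ k, (FP a g f k).eval t ≠ 0), ∀ k : ℕ,
        Finite (ShaTor (EQ ((FP a g f 0).eval t) ((FP a g f 1).eval t)) (2 ^ k))) ∧
      (∀ k : ℕ, 1 ≤ k → ∑ t ∈ (Ioc N (N + M)).filter (fun t => ∀ k, (FP a g f k).eval t ≠ 0),
        (2 : ℝ) ^ rk (EQ ((FP a g f 0).eval t) ((FP a g f 1).eval t)) *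
        (Nat.card (ShaTor (EQ ((FP a g f 0).eval t) ((FP a g f 1).eval t)) (2 ^ k)) : ℝ) ^
          ((1 : ℝ) / k) ≤ C * M) ∧
      ∀ r q : ℕ, ((((Ioc N (N + M)).filter (fun t => ∀ k, (FP a g f k).eval t ≠ 0)).filter
        (fun t => r ≤ rk (EQ ((FP a g f 0).eval t) ((FP a g f 1).eval t)) ∧
          HasDiv (EQ ((FP a g f 0).eval t) ((FP a g f 1).eval t)) q)).card : ℝ) ≤
          C * M / 2 ^ (r + q) := by
  have hP : ∀ k, C (a k) * ∏ l ∈ fs (allc n m) k, allf g f l = FP a g f k := by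
    intro k
    rw [prod_allc]
    unfold FP
    rw [mul_assoc]
    rfl
  have hV : ∀ k t, Fval (allc n m) a (fun l => (allf g f l).eval t) k = (FP a g f k).eval t := by
    intro k t
    rw [← hP k, eval_mul, eval_C, eval_prod]
    rfl
  obtain ⟨C, hC⟩ := h ((Fin 3 × Fin n) ⊕ Fin m) (allc n m) a (allf g f) n L ha hf card_allc
    (by rw [hP, hP, hP]; exact hF)
  simp only [hV] at hC
  refine ⟨C, fun N M hM hN => ?_⟩
  have hbd : ∀ t ∈ (Ioc N (N + M)).filter (fun t => ∀ k, (FP a g f k).eval t ≠ 0),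
      Bd (EQ ((FP a g f 0).eval t) ((FP a g f 1).eval t))
        (SN ((FP a g f 0).eval t) ((FP a g f 1).eval t)) := by
    intro t ht
    have h0 := (mem_filter.1 ht).2
    refine bd_EQ (h0 0) (h0 1) fun h4 => h0 2 ?_
    rw [← hF, eval_sub, h4, sub_self]
  have hsum : ∑ t ∈ (Ioc N (N + M)).filter (fun t => ∀ k, (FP a g f k).eval t ≠ 0),
      SN ((FP a g f 0).eval t) ((FP a g f 1).eval t) ^ 1 ≤ C * M := by
    simp only [pow_one]
    refine (to_Ioc (fun t => SN ((FP a g f 0).eval t) ((FP a g f 1).eval t))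
      (fun t => SN_nonneg _ _) (fun t => ∀ k, (FP a g f k).eval t ≠ 0) N M).trans ?_
    refine (sum_le_sum_of_subset_of_nonneg ?_ fun t _ _ => SN_nonneg _ _).trans
      (hC N M hM (natAbs_le_of hN))
    intro t ht
    rw [mem_filter] at ht ⊢
    refine ⟨ht.1, fun j => ?_⟩
    obtain ⟨k, hk⟩ : ∃ k, j ∈ fs (allc n m) k := by
      unfold fs
      rcases j with ⟨k, i⟩ | i
      · exact ⟨k, mem_filter.2 ⟨mem_univ _, Or.inl rfl⟩⟩
      · exact ⟨0, mem_filter.2 ⟨mem_univ _, Or.inr rfl⟩⟩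
    have h2 := ht.2 k
    rw [← hP k, eval_mul, eval_prod] at h2
    exact (prod_ne_zero_iff.1 (right_ne_zero_of_mul h2)) j hk
  obtain ⟨k1, k2, k3⟩ := Pool.Agent.TH841.SH.family
    ((Ioc N (N + M)).filter (fun t => ∀ k, (FP a g f k).eval t ≠ 0))
    (fun t => EQ ((FP a g f 0).eval t) ((FP a g f 1).eval t))
    (fun t => SN ((FP a g f 0).eval t) ((FP a g f 1).eval t)) (C * M) 1 hbd hsum
  simp only [pow_one, one_mul] at k2 k3
  exact ⟨k1, k2, k3⟩

end

end Pool.Agent.TH841.PT
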