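import Mathlib
import Pool.Agent.TH841.PT.Stm

set_option autoImplicit false

namespace Pool.Agent.TH841.PT.GDPf

open Finset Polynomial Pool.Agent.W262.RK Pool.Agent.TH841.PT

open Pool.Agent.H474R2.PG (rho)

/-- clearing denominators -/
theorem clear (q : ℚ[X]) : ∃ (b : ℤ) (Q : ℤ[X]), b ≠ 0 ∧
    Q.map (Int.castRingHom ℚ) = C (b : ℚ) * q := by
  obtain ⟨b, hb⟩ := IsLocalization.integerNormalization_map_to_map (nonZeroDivisors ℤ) q
  refine ⟨b, IsLocalization.integerNormalization (nonZeroDivisors ℤ) q,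
    nonZeroDivisors.ne_zero b.2, ?_⟩
  have h1 : (algebraMap ℤ ℚ) = Int.castRingHom ℚ := rfl
  rw [← h1, hb]
  ext n
  rw [coeff_smul, coeff_C_mul]
  simp

theorem bezout {D E : ℤ[X]}
    (h : IsCoprime (D.map (Int.castRingHom ℚ)) (E.map (Int.castRingHom ℚ))) :
    ∃ (U V : ℤ[X]) (R : ℤ), R ≠ 0 ∧ U * D + V * E = C R := by
  obtain ⟨u, v, huv⟩ := h
  obtain ⟨b, U, hb, hU⟩ := clear u
  obtain ⟨b', V, hb', hV⟩ := clear v
  refine ⟨C b' * U, C b * V, b * b', mul_ne_zero hb hb', ?_⟩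
  apply Polynomial.map_injective (Int.castRingHom ℚ) Int.cast_injective
  rw [Polynomial.map_add, Polynomial.map_mul, Polynomial.map_mul, Polynomial.map_mul,
    Polynomial.map_mul, hU, hV, Polynomial.map_C, Polynomial.map_C, Polynomial.map_C]
  simp only [eq_intCast, Int.cast_mul, C_mul]
  calc C (b' : ℚ) * (C (b : ℚ) * u) * D.map (Int.castRingHom ℚ) +
        C (b : ℚ) * (C (b' : ℚ) * v) * E.map (Int.castRingHom ℚ)
      = C (b : ℚ) * C (b' : ℚ) * (u * D.map (Int.castRingHom ℚ) + v * E.map (Int.castRingHom ℚ)) := by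
        ring
    _ = C (b : ℚ) * C (b' : ℚ) := by rw [huv, mul_one]

theorem rho_le {D : ℤ[X]} {p : ℕ} (hp : p.Prime) (hlc : D.leadingCoeff ≠ 0)
    (h : D.leadingCoeff.natAbs < p) : rho D p ≤ D.natDegree := by
  haveI : Fact p.Prime := ⟨hp⟩
  set Dp := D.map (Int.castRingHom (ZMod p)) with hDp
  have hne : Dp ≠ 0 := by
    intro h0
    have h1 : Dp.coeff D.natDegree = 0 := by rw [h0]; simp
    rw [hDp, coeff_map] at h1
    simp only [eq_intCast, coeff_natDegree] at h1
    rw [ZMod.intCast_zmod_eq_zero_iff_dvd] at h1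
    have h2 := Int.natAbs_dvd_natAbs.2 h1
    rw [Int.natAbs_natCast] at h2
    have h3 := Nat.le_of_dvd (Int.natAbs_pos.2 hlc) h2
    omega
  have h1 : rho D p ≤ Dp.roots.toFinset.card := by
    unfold rho
    apply Finset.card_le_card_of_injOn (fun a : ℕ => (a : ZMod p))
    · intro a ha
      rw [Finset.mem_coe, Finset.mem_filter] at ha
      rw [Finset.mem_coe, Multiset.mem_toFinset, mem_roots hne, IsRoot.def, hDp]
      have h2 : (D.map (Int.castRingHom (ZMod p))).eval ((a : ℤ) : ZMod p) =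
          ((D.eval (a : ℤ) : ℤ) : ZMod p) := by
        rw [← eq_intCast (Int.castRingHom (ZMod p)) (a : ℤ), Polynomial.eval_map,
          Polynomial.eval₂_at_apply, eq_intCast]
      have h3 : ((D.eval (a : ℤ) : ℤ) : ZMod p) = 0 :=
        (ZMod.intCast_zmod_eq_zero_iff_dvd _ _).2 ha.2
      rw [h3] at h2
      simpa using h2
    · intro a ha b hb hab
      rw [Finset.mem_coe, Finset.mem_filter, Finset.mem_range] at ha hb
      simp only at hab
      rw [ZMod.natCast_eq_natCast_iff, Nat.ModEq, Nat.mod_eq_of_lt ha.1,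
        Nat.mod_eq_of_lt hb.1] at hab
      exact hab
  calc rho D p ≤ Dp.roots.toFinset.card := h1
    _ ≤ Dp.roots.card := Multiset.toFinset_card_le _
    _ ≤ Dp.natDegree := card_roots' _
    _ ≤ D.natDegree := natDegree_map_le

theorem gdp : GDP := by
  intro D hD
  have hD0 : D.map (Int.castRingHom ℚ) ≠ 0 := hD.ne_zero
  have hD1 : D ≠ 0 := by
    rintro rfl
    exact hD0 (by simp)
  have hsep : (D.map (Int.castRingHom ℚ)).Separable :=
    PerfectField.separable_iff_squarefree.2 hD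
  unfold Polynomial.Separable at hsep
  rw [derivative_map] at hsep
  obtain ⟨U, V, R, hR, hUV⟩ := bezout hsep
  refine ⟨R.natAbs + D.leadingCoeff.natAbs, ?_⟩
  intro z hz p hp hzp
  refine ⟨rho_le hp (leadingCoeff_ne_zero.2 hD1) (by omega), ?_⟩
  intro t h1 h2
  have h3 : (p : ℤ) ∣ R := by
    have h4 := congrArg (Polynomial.eval t) hUV
    rw [eval_add, eval_mul, eval_mul, eval_C] at h4
    rw [← h4]
    exact dvd_add (Dvd.dvd.mul_left h1 _) (Dvd.dvd.mul_left h2 _)
  have h4 := Int.natAbs_dvd_natAbs.2 h3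
  rw [Int.natAbs_natCast] at h4
  have h5 := Nat.le_of_dvd (Int.natAbs_pos.2 hR) h4
  omega

end Pool.Agent.TH841.PT.GDPf
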