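import Mathlib
import Pool.Agent.TH841.PT.Stm2

set_option autoImplicit false

namespace Pool.Agent.TH841.PT.LADf

open Finset Polynomial Pool.Agent.W262.RK Pool.Agent.TH841.PT

theorem lad : LAD := by
  intro m _ _ p _ T κ _ v hv hT
  classical
  have hp : p.Prime := Fact.out
  have : Finite (κ ⊕ Module.Basis.sumExtendIndex hv) :=
    Module.Finite.finite_basis (Module.Basis.sumExtend hv)
  have : Finite (Module.Basis.sumExtendIndex hv) :=
    Finite.of_injective (Sum.inr : _ → κ ⊕ Module.Basis.sumExtendIndex hv) Sum.inr_injective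
  have : Fintype (Module.Basis.sumExtendIndex hv) := Fintype.ofFinite _
  let b := Module.Basis.sumExtend hv
  have hcard : Fintype.card (κ ⊕ Module.Basis.sumExtendIndex hv) = Fintype.card m := by
    rw [← Module.finrank_eq_card_basis b, Module.finrank_fintype_fun_eq_card]
  let e : (κ ⊕ Module.Basis.sumExtendIndex hv) ≃ m := Fintype.equivOfCardEq hcard
  let b' : Module.Basis m (ZMod p) (m → ZMod p) := b.reindex e
  have hb' : ∀ k : κ, b' (e (Sum.inl k)) = v k := by
    intro k
    simp [b', b, Module.Basis.sumExtend]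
    rfl
  let P : Matrix m m (ZMod p) := Matrix.of fun i j => b' i j
  have hP : IsUnit P.det := by
    rw [← Matrix.isUnit_iff_isUnit_det, ← Matrix.linearIndependent_rows_iff_isUnit]
    exact b'.linearIndependent
  let P' : Matrix m m ℤ := Matrix.of fun i j => ((P i j).val : ℤ)
  have hP' : P'.map (Int.castRingHom (ZMod p)) = P := by
    ext i j
    simp [P']
  have hdet : (Int.castRingHom (ZMod p)) P'.det = P.det := by
    rw [RingHom.map_det, RingHom.mapMatrix_apply, hP']
  have hnd : ¬ (p : ℤ) ∣ P'.det := by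
    intro h
    have h1 : ((P'.det : ℤ) : ZMod p) = 0 := (ZMod.intCast_zmod_eq_zero_iff_dvd _ _).2 h
    rw [eq_intCast] at hdet
    rw [h1] at hdet
    rw [← hdet] at hP
    exact not_isUnit_zero hP
  have hcop : IsCoprime ((p : ℤ) ^ Fintype.card κ) P'.det := by
    refine IsCoprime.pow_left ?_
    exact (Nat.prime_iff_prime_int.1 hp).coprime_iff_not_dvd.2 hnd
  -- the product
  have hrow : ∀ (k : κ) (j : m), (p : ℤ) ∣ (P' * T) (e (Sum.inl k)) j := by
    intro k j
    rw [← ZMod.intCast_zmod_eq_zero_iff_dvd]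
    have h1 : (((P' * T) (e (Sum.inl k)) j : ℤ) : ZMod p) =
        ((P' * T).map (Int.castRingHom (ZMod p))) (e (Sum.inl k)) j := rfl
    rw [h1, Matrix.map_mul, hP']
    have h2 : (P * T.map (Int.castRingHom (ZMod p))) (e (Sum.inl k)) j =
        Matrix.vecMul (v k) (T.map (Int.castRingHom (ZMod p))) j := by
      rw [← hb' k]
      rfl
    rw [h2, hT k]
    rfl
  let S : Finset m := Finset.univ.image fun k : κ => e (Sum.inl k)
  have hSc : S.card = Fintype.card κ := by
    rw [Finset.card_image_of_injective _ (fun a c h => Sum.inl_injective (e.injective h)),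
      Finset.card_univ]
  have hQ : ∀ i j, ∃ q : ℤ, (P' * T) i j = (if i ∈ S then (p : ℤ) else 1) * q := by
    intro i j
    by_cases hi : i ∈ S
    · rw [if_pos hi]
      obtain ⟨k, -, rfl⟩ := Finset.mem_image.1 hi
      exact hrow k j
    · rw [if_neg hi]
      exact ⟨_, (one_mul _).symm⟩
  choose Q hQ using hQ
  have hPT : P' * T = Matrix.of fun i j => (if i ∈ S then (p : ℤ) else 1) * Q i j := by
    ext i j
    exact hQ i j
  have hd : (P' * T).det = (p : ℤ) ^ Fintype.card κ * (Matrix.of Q).det := by
    rw [hPT]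
    have h3 := Matrix.det_mul_column (fun i => if i ∈ S then (p : ℤ) else 1) (Matrix.of Q)
    rw [Finset.prod_ite_mem, Finset.univ_inter, Finset.prod_const, hSc] at h3
    exact h3
  rw [Matrix.det_mul] at hd
  exact hcop.dvd_of_dvd_mul_left ⟨_, hd⟩

end Pool.Agent.TH841.PT.LADf
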