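import Mathlib
import Pool.Agent.TH841.PT.Stm2
import Pool.Agent.H474R2.GE.FA

/-!
# Project PT: the lower bound for the sum of `ρ(p) / p`
-/

set_option autoImplicit false

namespace Pool.Agent.TH841.PT.LWPf

open Finset Polynomial Pool.Agent.W262.RK Pool.Agent.TH841.PT
open Pool.Agent.H474R2.PG (rho Sg PR)

theorem lwp_of (h : FACT) : LWP := by
  intro D hD hdeg z
  obtain ⟨S, z0, ⟨f, hfS⟩, hS, hrho⟩ := h D hD hdeg
  obtain ⟨hf1, hf2, _⟩ := hS f hfS
  obtain ⟨C, hC0, hC⟩ := Pool.Agent.H474R2.GE.mertens_rho f hf1 hf2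
  obtain ⟨z1, hz1⟩ : ∃ z1 : ℕ, z1 = max z z0 := ⟨_, rfl⟩
  have hz : z ≤ z1 := by rw [hz1]; exact le_max_left _ _
  have hz0 : z0 ≤ z1 := by rw [hz1]; exact le_max_right _ _
  obtain ⟨A, hA⟩ : ∃ A : ℝ, A = ∑ p ∈ (Icc 1 z1).filter Nat.Prime, (rho f p : ℝ) / (p : ℝ) := ⟨_, rfl⟩
  have hA0 : 0 ≤ A := by
    rw [hA]
    exact Finset.sum_nonneg fun p _ => by positivity
  refine ⟨A + C, fun y hy => ?_⟩
  have hSp : 0 ≤ Sp (fun p => (rho D p : ℝ)) z y := by
    unfold Sp
    exact Finset.sum_nonneg fun p _ => by positivity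
  by_cases hy3 : 3 ≤ y
  · have h1 := hC y (by exact_mod_cast hy3)
    have h2 := (abs_le.1 h1).1
    have h3 : Sg (rho f) (y : ℝ) ≤ A + ∑ p ∈ PS z1 y, (rho f p : ℝ) / (p : ℝ) := by
      unfold Sg
      have h4 : PR (y : ℝ) ⊆ (Icc 1 z1).filter Nat.Prime ∪ PS z1 y := by
        intro p hp
        unfold PR at hp
        rw [Nat.floor_natCast, mem_filter, mem_Icc] at hp
        rw [mem_union]
        unfold PS
        rw [mem_filter, mem_filter, mem_Icc, mem_Ioc]
        by_cases hpz : p ≤ z1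
        · exact Or.inl ⟨⟨hp.1.1, hpz⟩, hp.2⟩
        · exact Or.inr ⟨⟨by omega, hp.1.2⟩, hp.2⟩
      refine (Finset.sum_le_sum_of_subset_of_nonneg h4 fun p _ _ => by positivity).trans ?_
      rw [hA]
      refine le_of_le_of_eq (b := ∑ p ∈ (Icc 1 z1).filter Nat.Prime, (rho f p : ℝ) / (p : ℝ) +
        ∑ p ∈ PS z1 y, (rho f p : ℝ) / (p : ℝ)) ?_ rfl
      have h5 := Finset.sum_union_inter (s₁ := (Icc 1 z1).filter Nat.Prime) (s₂ := PS z1 y)
        (f := fun p => (rho f p : ℝ) / (p : ℝ))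
      have h6 : 0 ≤ ∑ p ∈ (Icc 1 z1).filter Nat.Prime ∩ PS z1 y, (rho f p : ℝ) / (p : ℝ) :=
        Finset.sum_nonneg fun p _ => by positivity
      linarith
    have h4 : ∑ p ∈ PS z1 y, (rho f p : ℝ) / (p : ℝ) ≤ Sp (fun p => (rho D p : ℝ)) z y := by
      unfold Sp
      calc ∑ p ∈ PS z1 y, (rho f p : ℝ) / (p : ℝ) ≤ ∑ p ∈ PS z1 y, (rho D p : ℝ) / (p : ℝ) := by
            refine Finset.sum_le_sum fun p hp => ?_
            unfold PS at hp
            rw [mem_filter, mem_Ioc] at hp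
            have h5 := hrho p hp.2 (by omega)
            have h6 : rho f p ≤ rho D p := by
              rw [h5]
              exact Finset.single_le_sum (f := fun g => rho g p) (fun _ _ => Nat.zero_le _) hfS
            refine div_le_div_of_nonneg_right ?_ (Nat.cast_nonneg _)
            exact_mod_cast h6
        _ ≤ ∑ p ∈ PS z y, (rho D p : ℝ) / (p : ℝ) := by
            refine Finset.sum_le_sum_of_subset_of_nonneg ?_ fun p _ _ => by positivity
            intro p hp
            unfold PS at hp ⊢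
            rw [mem_filter, mem_Ioc] at hp ⊢
            exact ⟨⟨by omega, hp.1.2⟩, hp.2⟩
    linarith
  · have h1 : Real.log (Real.log y) ≤ 0 := by
      have h2 : 0 ≤ Real.log y := Real.log_natCast_nonneg y
      refine Real.log_nonpos h2 ?_
      have h3 : (y : ℝ) ≤ 2 := by exact_mod_cast (by omega : y ≤ 2)
      rcases Nat.eq_zero_or_pos y with h0 | h0
      · rw [h0]; simp
      · have h4 : (0 : ℝ) < y := by exact_mod_cast h0
        have h5 := Real.log_le_sub_one_of_pos h4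
        linarith
    linarith

end Pool.Agent.TH841.PT.LWPf
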