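import Mathlib
import Pool.Agent.TH841.PT.Stm2

set_option autoImplicit false

namespace Pool.Agent.TH841.PT.M2Af

open Finset Polynomial Pool.Agent.W262.RK Pool.Agent.TH841.PT

/-- the polynomial with coefficients `a` -/
noncomputable def pl {n : ℕ} (a : Fin n → ℤ) : ℤ[X] := ∑ i : Fin n, C (a i) * X ^ (i : ℕ)

lemma pl_degree {n : ℕ} (a : Fin n → ℤ) : (pl a).degree < n := degree_sum_fin_lt a

lemma pl_coeff {n : ℕ} (a : Fin n → ℤ) (i : Fin n) : (pl a).coeff i = a i := by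
  unfold pl
  rw [finsetSum_coeff]
  simp only [coeff_C_mul, coeff_X_pow]
  rw [Finset.sum_eq_single i]
  · simp
  · intro j _ hj
    have : (i : ℕ) ≠ j := fun h => hj (Fin.ext h.symm)
    simp [this]
  · simp

lemma pl_eq_zero {n : ℕ} {a : Fin n → ℤ} (h : pl a = 0) : a = 0 := by
  funext i
  rw [← pl_coeff a i, h]; simp

lemma pl_aeval {n : ℕ} {R : Type} [CommRing R] (a : Fin n → ℤ) (t : R) :
    aeval t (pl a) = ∑ i : Fin n, (a i : R) * t ^ (i : ℕ) := by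
  unfold pl
  simp

/-- the matrix of the multiplication by `A` modulo `f` -/
noncomputable def mm (f A : ℤ[X]) : Matrix (Fin f.natDegree) (Fin f.natDegree) ℤ :=
  Matrix.of fun i j => ((A * X ^ (j : ℕ)) %ₘ f).coeff i

lemma mm_mulVec (f A : ℤ[X]) (U : Fin f.natDegree → ℤ) (i : Fin f.natDegree) :
    ∑ j, mm f A i j * U j = ((A * pl U) %ₘ f).coeff i := by
  have h : (A * pl U) %ₘ f = ∑ j, C (U j) * ((A * X ^ (j : ℕ)) %ₘ f) := by
    have h1 : A * pl U = ∑ j : Fin f.natDegree, (U j) • (A * X ^ (j : ℕ)) := by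
      unfold pl
      rw [Finset.mul_sum]
      refine Finset.sum_congr rfl fun j _ => ?_
      rw [smul_eq_C_mul]; ring
    have h2 : ∀ g : ℤ[X], g %ₘ f = modByMonicHom f g := fun g => rfl
    rw [h1, h2, map_sum]
    refine Finset.sum_congr rfl fun j _ => ?_
    rw [map_smul, smul_eq_C_mul, ← h2]
  rw [h, finsetSum_coeff]
  refine Finset.sum_congr rfl fun j _ => ?_
  rw [coeff_C_mul]
  unfold mm
  rw [Matrix.of_apply]; ring

lemma mm_vecMul {R : Type} [CommRing R] (f A : ℤ[X]) (hf : f.Monic) (α : R)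
    (hα : aeval α f = 0) (j : Fin f.natDegree) :
    ∑ i : Fin f.natDegree, α ^ (i : ℕ) * ((mm f A i j : ℤ) : R) = aeval α A * α ^ (j : ℕ) := by
  have h1 : aeval α ((A * X ^ (j : ℕ)) %ₘ f) = aeval α A * α ^ (j : ℕ) := by
    rw [aeval_modByMonic_eq_self_of_root hα]; simp
  rw [← h1]
  have h2 : ((A * X ^ (j : ℕ)) %ₘ f).natDegree < f.natDegree := by
    by_cases hz : (A * X ^ (j : ℕ)) %ₘ f = 0
    · rw [hz, natDegree_zero]; exact lt_of_le_of_lt (Nat.zero_le _) j.2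
    · exact natDegree_lt_natDegree hz (degree_modByMonic_lt _ hf)
  rw [aeval_eq_sum_range' h2, Finset.sum_range]
  refine Finset.sum_congr rfl fun i _ => ?_
  unfold mm
  rw [Matrix.of_apply, zsmul_eq_mul]; ring

lemma mm_entry (f : ℤ[X]) (a : Fin f.natDegree → ℤ) (i j : Fin f.natDegree) :
    mm f (pl a) i j = ∑ k : Fin f.natDegree, a k * ((X ^ ((k : ℕ) + (j : ℕ)) : ℤ[X]) %ₘ f).coeff i := by
  have h : (pl a * X ^ (j : ℕ)) %ₘ f =
      ∑ k : Fin f.natDegree, C (a k) * ((X ^ ((k : ℕ) + (j : ℕ)) : ℤ[X]) %ₘ f) := by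
    have h1 : pl a * X ^ (j : ℕ) =
        ∑ k : Fin f.natDegree, (a k) • (X ^ ((k : ℕ) + (j : ℕ)) : ℤ[X]) := by
      unfold pl
      rw [Finset.sum_mul]
      refine Finset.sum_congr rfl fun k _ => ?_
      rw [smul_eq_C_mul, pow_add]; ring
    have h2 : ∀ g : ℤ[X], g %ₘ f = modByMonicHom f g := fun g => rfl
    rw [h1, h2, map_sum]
    refine Finset.sum_congr rfl fun k _ => ?_
    rw [map_smul, smul_eq_C_mul, ← h2]
  unfold mm
  rw [Matrix.of_apply, h, finsetSum_coeff]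
  refine Finset.sum_congr rfl fun k _ => ?_
  rw [coeff_C_mul]

/-- the constant in the bound for the entries -/
noncomputable def C0 (f : ℤ[X]) : ℤ := ∑ i : Fin f.natDegree, ∑ j : Fin f.natDegree,
  ∑ k : Fin f.natDegree, |((X ^ ((k : ℕ) + (j : ℕ)) : ℤ[X]) %ₘ f).coeff i|

lemma mm_bound (f : ℤ[X]) (a : Fin f.natDegree → ℤ) (H : ℤ) (ha : ∀ k, |a k| ≤ H)
    (i j : Fin f.natDegree) : |mm f (pl a) i j| ≤ C0 f * H := by
  have hH : 0 ≤ H := le_trans (abs_nonneg _) (ha i)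
  have h1 : ∑ k : Fin f.natDegree, |((X ^ ((k : ℕ) + (j : ℕ)) : ℤ[X]) %ₘ f).coeff i| ≤ C0 f := by
    unfold C0
    refine le_trans ?_ (Finset.single_le_sum (f := fun i : Fin f.natDegree =>
      ∑ j : Fin f.natDegree, ∑ k : Fin f.natDegree,
        |((X ^ ((k : ℕ) + (j : ℕ)) : ℤ[X]) %ₘ f).coeff i|) (fun i _ =>
        Finset.sum_nonneg fun j _ => Finset.sum_nonneg fun k _ => abs_nonneg _)
        (Finset.mem_univ i))
    exact Finset.single_le_sum (f := fun j : Fin f.natDegree =>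
      ∑ k : Fin f.natDegree, |((X ^ ((k : ℕ) + (j : ℕ)) : ℤ[X]) %ₘ f).coeff i|) (fun j _ =>
        Finset.sum_nonneg fun k _ => abs_nonneg _) (Finset.mem_univ j)
  rw [mm_entry]
  refine le_trans (Finset.abs_sum_le_sum_abs _ _) ?_
  calc ∑ k : Fin f.natDegree, |a k * ((X ^ ((k : ℕ) + (j : ℕ)) : ℤ[X]) %ₘ f).coeff i|
      ≤ ∑ k : Fin f.natDegree, H * |((X ^ ((k : ℕ) + (j : ℕ)) : ℤ[X]) %ₘ f).coeff i| := by
        refine Finset.sum_le_sum fun k _ => ?_
        rw [abs_mul]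
        exact mul_le_mul_of_nonneg_right (ha k) (abs_nonneg _)
    _ = H * ∑ k : Fin f.natDegree, |((X ^ ((k : ℕ) + (j : ℕ)) : ℤ[X]) %ₘ f).coeff i| := by
        rw [Finset.mul_sum]
    _ ≤ H * C0 f := mul_le_mul_of_nonneg_left h1 hH
    _ = C0 f * H := by ring

/-- the matrix of the multiplication by `A + w B` in the basis `θ ^ i, w θ ^ i` -/
noncomputable def tt (f : ℤ[X]) (d : ℤ) (a : Fin f.natDegree ⊕ Fin f.natDegree → ℤ) :
    Matrix (Fin f.natDegree ⊕ Fin f.natDegree) (Fin f.natDegree ⊕ Fin f.natDegree) ℤ :=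
  Matrix.fromBlocks (mm f (pl (a ∘ Sum.inl))) (d • mm f (pl (a ∘ Sum.inr)))
    (mm f (pl (a ∘ Sum.inr))) (mm f (pl (a ∘ Sum.inl)))

lemma dvd_of_coeff (f g : ℤ[X]) (hf : f.Monic)
    (h : ∀ i : Fin f.natDegree, (g %ₘ f).coeff i = 0) : f ∣ g := by
  rw [← modByMonic_eq_zero_iff_dvd hf]
  ext i
  rw [coeff_zero]
  by_cases hi : i < f.natDegree
  · exact h ⟨i, hi⟩
  · apply coeff_eq_zero_of_degree_lt
    refine lt_of_lt_of_le (degree_modByMonic_lt _ hf) ?_
    rw [degree_eq_natDegree hf.ne_zero]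
    exact_mod_cast not_lt.1 hi

lemma det_ne (f : ℤ[X]) (hf : f.Monic) (hirr : Irreducible (f.map (Int.castRingHom ℚ))) (d : ℤ)
    (hd : NSq f d) (a : Fin f.natDegree ⊕ Fin f.natDegree → ℤ) (ha : a ≠ 0) :
    (tt f d a).det ≠ 0 := by
  intro hdet
  obtain ⟨v, hv, hTv⟩ := Matrix.exists_mulVec_eq_zero_iff.2 hdet
  obtain ⟨A, hA⟩ : ∃ A, A = pl (a ∘ Sum.inl) := ⟨_, rfl⟩
  obtain ⟨B, hB⟩ : ∃ B, B = pl (a ∘ Sum.inr) := ⟨_, rfl⟩
  obtain ⟨U, hU⟩ : ∃ U, U = pl (v ∘ Sum.inl) := ⟨_, rfl⟩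
  obtain ⟨V, hV⟩ : ∃ V, V = pl (v ∘ Sum.inr) := ⟨_, rfl⟩
  have e2 : ∀ g : ℤ[X], g %ₘ f = modByMonicHom f g := fun g => rfl
  have h1 : f ∣ A * U + C d * (B * V) := by
    apply dvd_of_coeff f _ hf
    intro i
    have h := congrFun hTv (Sum.inl i)
    simp only [Matrix.mulVec, dotProduct, Fintype.sum_sum_type, tt, Matrix.fromBlocks_apply₁₁,
      Matrix.fromBlocks_apply₁₂, Pi.zero_apply, Matrix.smul_apply, smul_eq_mul] at h
    have e1 := mm_mulVec f A (v ∘ Sum.inl) i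
    have e3 := mm_mulVec f B (v ∘ Sum.inr) i
    rw [← hU] at e1
    rw [← hV] at e3
    rw [e2, ← smul_eq_C_mul, map_add, map_smul, ← e2, ← e2, coeff_add, coeff_smul, ← e1, ← e3,
      smul_eq_mul, Finset.mul_sum, ← h]
    rw [hA, hB]
    congr 1
    refine Finset.sum_congr rfl fun j _ => ?_
    simp only [Function.comp_apply]
    ring
  have h2 : f ∣ B * U + A * V := by
    apply dvd_of_coeff f _ hf
    intro i
    have h := congrFun hTv (Sum.inr i)
    simp only [Matrix.mulVec, dotProduct, Fintype.sum_sum_type, tt, Matrix.fromBlocks_apply₂₁,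
      Matrix.fromBlocks_apply₂₂, Pi.zero_apply] at h
    have e1 := mm_mulVec f B (v ∘ Sum.inl) i
    have e3 := mm_mulVec f A (v ∘ Sum.inr) i
    rw [← hU] at e1
    rw [← hV] at e3
    rw [e2, map_add, ← e2, ← e2, coeff_add, ← e1, ← e3, ← h]
    rw [hA, hB]
    rfl
  -- over the rationals
  have hinj : Function.Injective (Polynomial.map (Int.castRingHom ℚ)) :=
    map_injective _ Int.cast_injective
  obtain ⟨ff, hff⟩ : ∃ ff, ff = f.map (Int.castRingHom ℚ) := ⟨_, rfl⟩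
  obtain ⟨A', hA'⟩ : ∃ A', A' = A.map (Int.castRingHom ℚ) := ⟨_, rfl⟩
  obtain ⟨B', hB'⟩ : ∃ B', B' = B.map (Int.castRingHom ℚ) := ⟨_, rfl⟩
  obtain ⟨U', hU'⟩ : ∃ U', U' = U.map (Int.castRingHom ℚ) := ⟨_, rfl⟩
  obtain ⟨V', hV'⟩ : ∃ V', V' = V.map (Int.castRingHom ℚ) := ⟨_, rfl⟩
  have hdeg : ∀ b : Fin f.natDegree → ℤ, ff ∣ (pl b).map (Int.castRingHom ℚ) → b = 0 := by
    intro b hb
    have h3 : (pl b).map (Int.castRingHom ℚ) = 0 := by
      apply eq_zero_of_dvd_of_degree_lt hb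
      rw [hff, degree_map_eq_of_injective Int.cast_injective,
        degree_map_eq_of_injective Int.cast_injective, degree_eq_natDegree hf.ne_zero]
      exact pl_degree b
    apply pl_eq_zero
    apply hinj
    rw [h3, Polynomial.map_zero]
  have hp : Prime ff := by rw [hff]; exact hirr.prime
  have k1 : ff ∣ A' * U' + C (d : ℚ) * (B' * V') := by
    have := Polynomial.map_dvd (Int.castRingHom ℚ) h1
    simpa [hff, hA', hB', hU', hV'] using this
  have k2 : ff ∣ B' * U' + A' * V' := by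
    have := Polynomial.map_dvd (Int.castRingHom ℚ) h2
    simpa [hff, hA', hB', hU', hV'] using this
  have k3 : ff ∣ (A' ^ 2 - C (d : ℚ) * B' ^ 2) * U' := by
    have e : (A' ^ 2 - C (d : ℚ) * B' ^ 2) * U' =
        A' * (A' * U' + C (d : ℚ) * (B' * V')) - C (d : ℚ) * B' * (B' * U' + A' * V') := by ring
    rw [e]
    exact dvd_sub (Dvd.dvd.mul_left k1 _) (Dvd.dvd.mul_left k2 _)
  have k4 : ff ∣ (A' ^ 2 - C (d : ℚ) * B' ^ 2) * V' := by
    have e : (A' ^ 2 - C (d : ℚ) * B' ^ 2) * V' =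
        A' * (B' * U' + A' * V') - B' * (A' * U' + C (d : ℚ) * (B' * V')) := by ring
    rw [e]
    exact dvd_sub (Dvd.dvd.mul_left k2 _) (Dvd.dvd.mul_left k1 _)
  by_cases hN : ff ∣ A' ^ 2 - C (d : ℚ) * B' ^ 2
  · by_cases hBd : ff ∣ B'
    · have hA2 : ff ∣ A' ^ 2 := by
        have e : A' ^ 2 = (A' ^ 2 - C (d : ℚ) * B' ^ 2) + C (d : ℚ) * B' * B' := by ring
        rw [e]
        exact dvd_add hN (Dvd.dvd.mul_left hBd _)
      have hAd : ff ∣ A' := hp.dvd_of_dvd_pow hA2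
      have z1 := hdeg (a ∘ Sum.inl) (by rw [← hA, ← hA']; exact hAd)
      have z2 := hdeg (a ∘ Sum.inr) (by rw [← hB, ← hB']; exact hBd)
      apply ha
      funext x
      rcases x with x | x
      · exact congrFun z1 x
      · exact congrFun z2 x
    · have hirr' : Irreducible ff := by rw [hff]; exact hirr
      obtain ⟨x, y, hxy⟩ := (hirr'.coprime_iff_not_dvd).2 hBd
      apply hd (A' * y)
      rw [← hff]
      have e : (A' * y) ^ 2 - C (d : ℚ) = (A' ^ 2 - C (d : ℚ) * B' ^ 2) * y ^ 2 +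
          ff * (- C (d : ℚ) * x * (B' * y + 1)) := by
        have : B' * y = 1 - x * ff := by rw [← hxy]; ring
        have e4 : B' ^ 2 * y ^ 2 = (1 - x * ff) * (B' * y) := by rw [← this]; ring
        have e5 : (B' * y) * (x * ff) = x * ff - (x * ff) ^ 2 := by rw [this]; ring
        linear_combination (C (d : ℚ)) * e4 + (C (d : ℚ)) * this
      rw [e]
      exact dvd_add (Dvd.dvd.mul_right hN _) (dvd_mul_right _ _)
  · have z1 := hdeg (v ∘ Sum.inl) (by
      rw [← hU, ← hU']; exact (hp.dvd_or_dvd k3).resolve_left hN)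
    have z2 := hdeg (v ∘ Sum.inr) (by
      rw [← hV, ← hV']; exact (hp.dvd_or_dvd k4).resolve_left hN)
    apply hv
    funext x
    rcases x with x | x
    · exact congrFun z1 x
    · exact congrFun z2 x

lemma tt_bound (f : ℤ[X]) (d : ℤ) (hd : d ≠ 0) (a : Fin f.natDegree ⊕ Fin f.natDegree → ℤ)
    (H : ℕ) (ha : ∀ i, |a i| ≤ H) (i j : Fin f.natDegree ⊕ Fin f.natDegree) :
    |tt f d a i j| ≤ C0 f * (|d| * H) := by
  have hC : 0 ≤ C0 f := by
    unfold C0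
    exact Finset.sum_nonneg fun i _ => Finset.sum_nonneg fun j _ =>
      Finset.sum_nonneg fun k _ => abs_nonneg _
  have hd1 : 1 ≤ |d| := Int.one_le_abs hd
  have hH : (0 : ℤ) ≤ H := Int.natCast_nonneg H
  have key : ∀ b : Fin f.natDegree → ℤ, (∀ k, |b k| ≤ H) → ∀ i j, |mm f (pl b) i j| ≤
      C0 f * (|d| * H) := by
    intro b hb i j
    refine le_trans (mm_bound f b H hb i j) (mul_le_mul_of_nonneg_left ?_ hC)
    nlinarith
  have ha1 : ∀ k, |(a ∘ Sum.inl) k| ≤ H := fun k => ha _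
  have ha2 : ∀ k, |(a ∘ Sum.inr) k| ≤ H := fun k => ha _
  unfold tt
  rcases i with i | i <;> rcases j with j | j
  · rw [Matrix.fromBlocks_apply₁₁]; exact key _ ha1 _ _
  · rw [Matrix.fromBlocks_apply₁₂, Matrix.smul_apply, smul_eq_mul, abs_mul]
    have := mm_bound f _ H ha2 i j
    calc |d| * |mm f (pl (a ∘ Sum.inr)) i j| ≤ |d| * (C0 f * H) :=
          mul_le_mul_of_nonneg_left this (abs_nonneg _)
      _ = C0 f * (|d| * H) := by ring
  · rw [Matrix.fromBlocks_apply₂₁]; exact key _ ha2 _ _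
  · rw [Matrix.fromBlocks_apply₂₂]; exact key _ ha1 _ _

/-- the vector of a pair -/
def vv {p : ℕ} (n : ℕ) (x : ℕ × ℕ) : Fin n ⊕ Fin n → ZMod p :=
  Sum.elim (fun i => (x.1 : ZMod p) ^ (i : ℕ)) (fun i => (x.2 : ZMod p) * (x.1 : ZMod p) ^ (i : ℕ))

lemma vv_linInd (f : ℤ[X]) (hf : f.Monic) (d : ℤ) (p : ℕ) [Fact p.Prime] (S : Finset (ℕ × ℕ))
    (hS : S ⊆ Prs f d p) :
    LinearIndependent (ZMod p) (fun x : S => (vv f.natDegree (x : ℕ × ℕ) :
      Fin f.natDegree ⊕ Fin f.natDegree → ZMod p)) := by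
  have hfacts : ∀ x ∈ S, x.1 < p ∧ x.2 < p ∧ aeval ((x.1 : ℕ) : ZMod p) f = 0 ∧
      ((x.2 : ℕ) : ZMod p) ^ 2 = (d : ZMod p) := by
    intro x hx
    have := hS hx
    unfold Prs at this
    rw [mem_filter, mem_product, mem_range, mem_range] at this
    obtain ⟨⟨h1, h2⟩, h3, h4⟩ := this
    refine ⟨h1, h2, ?_, ?_⟩
    · have h5 : ((f.eval (x.1 : ℤ) : ℤ) : ZMod p) = 0 := (ZMod.intCast_zmod_eq_zero_iff_dvd _ _).2 h3
      have h6 : aeval ((x.1 : ℕ) : ZMod p) f = ((f.eval (x.1 : ℤ) : ℤ) : ZMod p) := by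
        have := Polynomial.aeval_algebraMap_apply (ZMod p) (x.1 : ℤ) f
        simp only [algebraMap_int_eq, Int.coe_castRingHom, Int.cast_natCast] at this
        rw [this]
        rfl
      rw [h6, h5]
    · have h5 : (((x.2 : ℤ) ^ 2 - d : ℤ) : ZMod p) = 0 :=
        (ZMod.intCast_zmod_eq_zero_iff_dvd _ _).2 h4
      push_cast at h5
      exact sub_eq_zero.1 h5
  -- the homomorphisms
  let χ : S → (Multiplicative ℕ × Multiplicative ℕ →* ZMod p) := fun x =>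
    (powersHom (ZMod p) ((x : ℕ × ℕ).1 : ZMod p)).coprod
      (powersHom (ZMod p) ((x : ℕ × ℕ).2 : ZMod p))
  have hχ : ∀ (x : S) (i j : ℕ), χ x (Multiplicative.ofAdd i, Multiplicative.ofAdd j) =
      ((x : ℕ × ℕ).1 : ZMod p) ^ i * ((x : ℕ × ℕ).2 : ZMod p) ^ j := by
    intro x i j
    simp [χ, MonoidHom.coprod_apply]
  have hχinj : Function.Injective χ := by
    intro x y hxy
    have h1 := hχ x 1 0
    have h2 := hχ x 0 1
    rw [hxy, hχ y] at h1 h2
    simp only [pow_one, pow_zero, mul_one, one_mul] at h1 h2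
    have hx := hfacts x x.2
    have hy := hfacts y y.2
    have h3 := congrArg ZMod.val h1
    have h4 := congrArg ZMod.val h2
    rw [ZMod.val_natCast_of_lt hx.1, ZMod.val_natCast_of_lt hy.1] at h3
    rw [ZMod.val_natCast_of_lt hx.2.1, ZMod.val_natCast_of_lt hy.2.1] at h4
    exact Subtype.ext (Prod.ext h3.symm h4.symm)
  have hlin : LinearIndependent (ZMod p) (fun x : S => (χ x : Multiplicative ℕ × Multiplicative ℕ → ZMod p)) :=
    (linearIndependent_monoidHom (Multiplicative ℕ × Multiplicative ℕ) (ZMod p)).comp χ hχinj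
  rw [Fintype.linearIndependent_iff] at hlin ⊢
  intro g hg
  apply hlin g
  -- low powers
  have hlow : ∀ (k : Fin f.natDegree), (∑ x : S, g x * ((x : ℕ × ℕ).1 : ZMod p) ^ (k : ℕ) = 0) ∧
      (∑ x : S, g x * (((x : ℕ × ℕ).2 : ZMod p) * ((x : ℕ × ℕ).1 : ZMod p) ^ (k : ℕ)) = 0) := by
    intro k
    constructor
    · have := congrFun hg (Sum.inl k)
      simpa [vv, Finset.sum_apply] using this
    · have := congrFun hg (Sum.inr k)
      simpa [vv, Finset.sum_apply] using this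
  have hpow : ∀ (i : ℕ) (x : S), ((x : ℕ × ℕ).1 : ZMod p) ^ i = ∑ k : Fin f.natDegree,
      ((((X ^ i : ℤ[X]) %ₘ f).coeff k : ℤ) : ZMod p) * ((x : ℕ × ℕ).1 : ZMod p) ^ (k : ℕ) := by
    intro i x
    have h0 := (hfacts x x.2).2.2.1
    have h1 : aeval ((x : ℕ × ℕ).1 : ZMod p) ((X ^ i : ℤ[X]) %ₘ f) =
        ((x : ℕ × ℕ).1 : ZMod p) ^ i := by
      rw [aeval_modByMonic_eq_self_of_root h0]; simp
    rw [← h1]
    by_cases hn : f.natDegree = 0
    · have hf1 : f = 1 := by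
        rw [← hf.natDegree_eq_zero]
        exact hn
      rw [hf1] at h0
      simp at h0
    · have h2 : ((X ^ i : ℤ[X]) %ₘ f).natDegree < f.natDegree := by
        by_cases hz : (X ^ i : ℤ[X]) %ₘ f = 0
        · rw [hz, natDegree_zero]; omega
        · exact natDegree_lt_natDegree hz (degree_modByMonic_lt _ hf)
      rw [aeval_eq_sum_range' h2, Finset.sum_range]
      refine Finset.sum_congr rfl fun k _ => ?_
      rw [zsmul_eq_mul]
  have hall : ∀ i : ℕ, (∑ x : S, g x * ((x : ℕ × ℕ).1 : ZMod p) ^ i = 0) ∧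
      (∑ x : S, g x * (((x : ℕ × ℕ).2 : ZMod p) * ((x : ℕ × ℕ).1 : ZMod p) ^ i) = 0) := by
    intro i
    constructor
    · calc ∑ x : S, g x * ((x : ℕ × ℕ).1 : ZMod p) ^ i
          = ∑ x : S, ∑ k : Fin f.natDegree, ((((X ^ i : ℤ[X]) %ₘ f).coeff k : ℤ) : ZMod p) *
              (g x * ((x : ℕ × ℕ).1 : ZMod p) ^ (k : ℕ)) := by
            refine Finset.sum_congr rfl fun x _ => ?_
            rw [hpow i x, Finset.mul_sum]
            refine Finset.sum_congr rfl fun k _ => ?_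
            ring
        _ = ∑ k : Fin f.natDegree, ((((X ^ i : ℤ[X]) %ₘ f).coeff k : ℤ) : ZMod p) *
              ∑ x : S, (g x * ((x : ℕ × ℕ).1 : ZMod p) ^ (k : ℕ)) := by
            rw [Finset.sum_comm]
            refine Finset.sum_congr rfl fun k _ => ?_
            rw [Finset.mul_sum]
        _ = 0 := Finset.sum_eq_zero fun k _ => by rw [(hlow k).1, mul_zero]
    · calc ∑ x : S, g x * (((x : ℕ × ℕ).2 : ZMod p) * ((x : ℕ × ℕ).1 : ZMod p) ^ i)
          = ∑ x : S, ∑ k : Fin f.natDegree, ((((X ^ i : ℤ[X]) %ₘ f).coeff k : ℤ) : ZMod p) *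
              (g x * (((x : ℕ × ℕ).2 : ZMod p) * ((x : ℕ × ℕ).1 : ZMod p) ^ (k : ℕ))) := by
            refine Finset.sum_congr rfl fun x _ => ?_
            rw [hpow i x, Finset.mul_sum, Finset.mul_sum]
            refine Finset.sum_congr rfl fun k _ => ?_
            ring
        _ = ∑ k : Fin f.natDegree, ((((X ^ i : ℤ[X]) %ₘ f).coeff k : ℤ) : ZMod p) *
              ∑ x : S, (g x * (((x : ℕ × ℕ).2 : ZMod p) * ((x : ℕ × ℕ).1 : ZMod p) ^ (k : ℕ))) := by
            rw [Finset.sum_comm]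
            refine Finset.sum_congr rfl fun k _ => ?_
            rw [Finset.mul_sum]
        _ = 0 := Finset.sum_eq_zero fun k _ => by rw [(hlow k).2, mul_zero]
  funext z
  obtain ⟨i, j⟩ := z
  rw [Finset.sum_apply, Pi.zero_apply]
  have hz : ∀ x : S, (g x • (χ x : Multiplicative ℕ × Multiplicative ℕ → ZMod p)) (i, j) =
      g x * (((x : ℕ × ℕ).1 : ZMod p) ^ (Multiplicative.toAdd i) *
        ((x : ℕ × ℕ).2 : ZMod p) ^ (Multiplicative.toAdd j)) := by
    intro x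
    rw [Pi.smul_apply, smul_eq_mul]
    congr 1
  rw [Finset.sum_congr rfl fun x _ => hz x]
  rcases Nat.even_or_odd' (Multiplicative.toAdd j) with ⟨k, hk | hk⟩
  · have : ∀ x : S, g x * (((x : ℕ × ℕ).1 : ZMod p) ^ (Multiplicative.toAdd i) *
        ((x : ℕ × ℕ).2 : ZMod p) ^ (Multiplicative.toAdd j)) = (d : ZMod p) ^ k *
        (g x * ((x : ℕ × ℕ).1 : ZMod p) ^ (Multiplicative.toAdd i)) := by
      intro x
      rw [hk, pow_mul, (hfacts x x.2).2.2.2]; ring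
    rw [Finset.sum_congr rfl fun x _ => this x, ← Finset.mul_sum, (hall _).1, mul_zero]
  · have : ∀ x : S, g x * (((x : ℕ × ℕ).1 : ZMod p) ^ (Multiplicative.toAdd i) *
        ((x : ℕ × ℕ).2 : ZMod p) ^ (Multiplicative.toAdd j)) = (d : ZMod p) ^ k *
        (g x * (((x : ℕ × ℕ).2 : ZMod p) *
          ((x : ℕ × ℕ).1 : ZMod p) ^ (Multiplicative.toAdd i))) := by
      intro x
      rw [hk, pow_add, pow_mul, (hfacts x x.2).2.2.2]; ring
    rw [Finset.sum_congr rfl fun x _ => this x, ← Finset.mul_sum, (hall _).2, mul_zero]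

lemma vv_kill (f : ℤ[X]) (hf : f.Monic) (d : ℤ) (p : ℕ) [Fact p.Prime]
    (a : Fin f.natDegree ⊕ Fin f.natDegree → ℤ) (x : ℕ × ℕ) (hx : x ∈ Prs f d p)
    (hev : (p : ℤ) ∣ ev a x) :
    Matrix.vecMul (vv f.natDegree x : Fin f.natDegree ⊕ Fin f.natDegree → ZMod p)
      ((tt f d a).map (Int.castRingHom (ZMod p))) = 0 := by
  unfold Prs at hx
  rw [mem_filter, mem_product, mem_range, mem_range] at hx
  obtain ⟨⟨h1, h2⟩, h3, h4⟩ := hx
  have hα : aeval ((x.1 : ℕ) : ZMod p) f = 0 := by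
    have h5 : ((f.eval (x.1 : ℤ) : ℤ) : ZMod p) = 0 := (ZMod.intCast_zmod_eq_zero_iff_dvd _ _).2 h3
    have h6 : aeval ((x.1 : ℕ) : ZMod p) f = ((f.eval (x.1 : ℤ) : ℤ) : ZMod p) := by
      have := Polynomial.aeval_algebraMap_apply (ZMod p) (x.1 : ℤ) f
      simp only [algebraMap_int_eq, Int.coe_castRingHom, Int.cast_natCast] at this
      rw [this]
      rfl
    rw [h6, h5]
  have hβ : ((x.2 : ℕ) : ZMod p) ^ 2 = (d : ZMod p) := by
    have h5 : (((x.2 : ℤ) ^ 2 - d : ℤ) : ZMod p) = 0 :=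
      (ZMod.intCast_zmod_eq_zero_iff_dvd _ _).2 h4
    push_cast at h5
    exact sub_eq_zero.1 h5
  have hev' : aeval ((x.1 : ℕ) : ZMod p) (pl (a ∘ Sum.inl)) + ((x.2 : ℕ) : ZMod p) *
      aeval ((x.1 : ℕ) : ZMod p) (pl (a ∘ Sum.inr)) = 0 := by
    have h5 : ((ev a x : ℤ) : ZMod p) = 0 := (ZMod.intCast_zmod_eq_zero_iff_dvd _ _).2 hev
    unfold ev at h5
    push_cast at h5
    rw [pl_aeval, pl_aeval]
    exact h5
  funext j
  rcases j with j | j
  · simp only [Matrix.vecMul, dotProduct, Fintype.sum_sum_type, tt, Matrix.map_apply,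
      Matrix.fromBlocks_apply₁₁, Matrix.fromBlocks_apply₂₁, vv, Sum.elim_inl, Sum.elim_inr,
      Pi.zero_apply, Int.coe_castRingHom]
    have e1 := mm_vecMul f (pl (a ∘ Sum.inl)) hf _ hα j
    have e2 := mm_vecMul f (pl (a ∘ Sum.inr)) hf _ hα j
    have e3 : ∑ i : Fin f.natDegree, ((x.2 : ℕ) : ZMod p) * ((x.1 : ℕ) : ZMod p) ^ (i : ℕ) *
        ((mm f (pl (a ∘ Sum.inr)) i j : ℤ) : ZMod p) = ((x.2 : ℕ) : ZMod p) *
        (aeval ((x.1 : ℕ) : ZMod p) (pl (a ∘ Sum.inr)) * ((x.1 : ℕ) : ZMod p) ^ (j : ℕ)) := by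
      rw [← e2, Finset.mul_sum]
      refine Finset.sum_congr rfl fun i _ => ?_
      ring
    rw [e1, e3]
    linear_combination (((x.1 : ℕ) : ZMod p) ^ (j : ℕ)) * hev'
  · simp only [Matrix.vecMul, dotProduct, Fintype.sum_sum_type, tt, Matrix.map_apply,
      Matrix.fromBlocks_apply₁₂, Matrix.fromBlocks_apply₂₂, vv, Sum.elim_inl, Sum.elim_inr,
      Pi.zero_apply, Int.coe_castRingHom, Matrix.smul_apply, smul_eq_mul, Int.cast_mul]
    have e1 := mm_vecMul f (pl (a ∘ Sum.inl)) hf _ hα j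
    have e2 := mm_vecMul f (pl (a ∘ Sum.inr)) hf _ hα j
    have e3 : ∑ i : Fin f.natDegree, ((x.1 : ℕ) : ZMod p) ^ (i : ℕ) *
        ((d : ZMod p) * ((mm f (pl (a ∘ Sum.inr)) i j : ℤ) : ZMod p)) = (d : ZMod p) *
        (aeval ((x.1 : ℕ) : ZMod p) (pl (a ∘ Sum.inr)) * ((x.1 : ℕ) : ZMod p) ^ (j : ℕ)) := by
      rw [← e2, Finset.mul_sum]
      refine Finset.sum_congr rfl fun i _ => ?_
      ring
    have e4 : ∑ i : Fin f.natDegree, ((x.2 : ℕ) : ZMod p) * ((x.1 : ℕ) : ZMod p) ^ (i : ℕ) *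
        ((mm f (pl (a ∘ Sum.inl)) i j : ℤ) : ZMod p) = ((x.2 : ℕ) : ZMod p) *
        (aeval ((x.1 : ℕ) : ZMod p) (pl (a ∘ Sum.inl)) * ((x.1 : ℕ) : ZMod p) ^ (j : ℕ)) := by
      rw [← e1, Finset.mul_sum]
      refine Finset.sum_congr rfl fun i _ => ?_
      ring
    rw [e3, e4, ← hβ]
    linear_combination (((x.2 : ℕ) : ZMod p) * ((x.1 : ℕ) : ZMod p) ^ (j : ℕ)) * hev'

theorem m2a_of (h : LAD) : M2A := by
  intro f hf hirr
  obtain ⟨K, hK⟩ : ∃ K : ℝ, K = ((2 * f.natDegree).factorial : ℝ) *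
      (C0 f : ℝ) ^ (2 * f.natDegree) := ⟨_, rfl⟩
  refine ⟨max 1 K, le_max_left _ _, ?_⟩
  intro d hd hNSq
  refine ⟨fun a => (tt f d a).det, fun a ha => det_ne f hf hirr d hNSq a ha, ?_, ?_⟩
  · intro H a hH ha
    have h1 : |(tt f d a).det| ≤ (Fintype.card (Fin f.natDegree ⊕ Fin f.natDegree)).factorial •
        (C0 f * (|d| * H)) ^ (Fintype.card (Fin f.natDegree ⊕ Fin f.natDegree)) :=
      Matrix.det_le (abv := (AbsoluteValue.abs : AbsoluteValue ℤ ℤ))
        (fun i j => tt_bound f d hd a H ha i j)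
    rw [Fintype.card_sum, Fintype.card_fin, ← two_mul, nsmul_eq_mul] at h1
    obtain ⟨D, hD⟩ : ∃ D, D = (tt f d a).det := ⟨_, rfl⟩
    rw [← hD] at h1
    simp only [← hD]
    have h2 : |(D : ℝ)| ≤ K * (|(d : ℝ)| * H) ^ (2 * f.natDegree) := by
      have h3 : ((|D| : ℤ) : ℝ) ≤ (((((2 * f.natDegree).factorial : ℕ) : ℤ) *
        (C0 f * (|d| * H)) ^ (2 * f.natDegree) : ℤ) : ℝ) := by exact_mod_cast h1
      push_cast at h3
      rw [hK]
      refine le_trans h3 (le_of_eq ?_)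
      rw [mul_pow (C0 f : ℝ)]; ring
    refine le_trans h2 (mul_le_mul_of_nonneg_right (le_max_right _ _) ?_)
    positivity
  · intro p hp a
    have : Fact p.Prime := ⟨hp⟩
    obtain ⟨S, hS⟩ : ∃ S, S = (Prs f d p).filter (fun x => (p : ℤ) ∣ ev a x) := ⟨_, rfl⟩
    rw [← hS]
    have hSsub : S ⊆ Prs f d p := by rw [hS]; exact filter_subset _ _
    have hSev : ∀ y ∈ S, (p : ℤ) ∣ ev a y := by
      intro y hy
      rw [hS, mem_filter] at hy
      exact hy.2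
    have := h (Fin f.natDegree ⊕ Fin f.natDegree) p (tt f d a) S
      (fun x : S => (vv f.natDegree (x : ℕ × ℕ) :
        Fin f.natDegree ⊕ Fin f.natDegree → ZMod p)) (vv_linInd f hf d p S hSsub)
      (fun x => vv_kill f hf d p a x (hSsub x.2) (hSev x x.2))
    rwa [Fintype.card_coe] at this

end Pool.Agent.TH841.PT.M2Af
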