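import Mathlib
import Pool.Agent.TH841.PT.Stm4

set_option autoImplicit false

/-! # M2MG from M2AG: the pigeonhole principle -/

namespace Pool.Agent.TH841.PT.M2BGf

open Finset Polynomial Pool.Agent.W262.RK Pool.Agent.TH841.PT

/-- the number of the roots modulo a prime -/
theorem roots_card {f : ℤ[X]} (hf : f.Monic) {p : ℕ} (hp : p.Prime) :
    ((range p).filter (fun a : ℕ => (p : ℤ) ∣ f.eval (a : ℤ))).card ≤ f.natDegree := by
  classical
  have : Fact p.Prime := ⟨hp⟩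
  have h1 : (f.map (Int.castRingHom (ZMod p))).natDegree = f.natDegree := hf.natDegree_map _
  have h0 : f.map (Int.castRingHom (ZMod p)) ≠ 0 := (hf.map _).ne_zero
  have h2 : ((range p).filter (fun a : ℕ => (p : ℤ) ∣ f.eval (a : ℤ))).card ≤
      (f.map (Int.castRingHom (ZMod p))).roots.toFinset.card := by
    refine Finset.card_le_card_of_injOn (fun a : ℕ => (a : ZMod p)) ?_ ?_
    · intro a ha
      have ha' := (Finset.mem_filter.1 ha).2
      have h3 : (f.map (Int.castRingHom (ZMod p))).eval (a : ZMod p) = 0 := by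
        have h4 := (ZMod.intCast_zmod_eq_zero_iff_dvd (f.eval (a : ℤ)) p).2 ha'
        rw [← h4]
        have h5 := Polynomial.eval_intCast_map (Int.castRingHom (ZMod p)) f (a : ℤ)
        simp
      simp only [Finset.mem_coe, Multiset.mem_toFinset, Polynomial.mem_roots h0, IsRoot.def]
      exact h3
    · intro a ha b hb hab
      have ha' : a < p := by simpa using (Finset.mem_filter.1 ha).1
      have hb' : b < p := by simpa using (Finset.mem_filter.1 hb).1
      have h6 := (ZMod.natCast_eq_natCast_iff' a b p).1 hab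
      rwa [Nat.mod_eq_of_lt ha', Nat.mod_eq_of_lt hb'] at h6
  calc _ ≤ _ := h2
    _ ≤ (f.map (Int.castRingHom (ZMod p))).roots.card := Multiset.toFinset_card_le _
    _ ≤ (f.map (Int.castRingHom (ZMod p))).natDegree := Polynomial.card_roots' _
    _ = f.natDegree := h1

theorem sq_card (c : ℤ) {p : ℕ} (hp : p.Prime) :
    ((range p).filter (fun b : ℕ => (p : ℤ) ∣ (b : ℤ) ^ 2 - c)).card ≤ 2 := by
  have h := roots_card (f := (X ^ 2 - C c : ℤ[X])) (monic_X_pow_sub_C c (by norm_num)) hp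
  rw [natDegree_X_pow_sub_C] at h
  simpa using h

/-- the number of the pairs -/
theorem Prg_card {f : ℤ[X]} (hf : f.Monic) (g : ℤ[X]) (d : ℤ) {p : ℕ} (hp : p.Prime) :
    (Prg f g d p).card ≤ 2 * f.natDegree := by
  classical
  have hsub : Prg f g d p ⊆ ((range p).filter (fun a : ℕ => (p : ℤ) ∣ f.eval (a : ℤ))).biUnion
      (fun a => ((range p).filter
        (fun b : ℕ => (p : ℤ) ∣ (b : ℤ) ^ 2 - d * g.eval (a : ℤ))).image (fun b => (a, b))) := by
    intro x hx
    unfold Prg at hx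
    rw [Finset.mem_filter, Finset.mem_product] at hx
    rw [Finset.mem_biUnion]
    refine ⟨x.1, Finset.mem_filter.2 ⟨hx.1.1, hx.2.1⟩, ?_⟩
    rw [Finset.mem_image]
    exact ⟨x.2, Finset.mem_filter.2 ⟨hx.1.2, hx.2.2⟩, rfl⟩
  calc (Prg f g d p).card ≤ _ := Finset.card_le_card hsub
    _ ≤ ((range p).filter (fun a : ℕ => (p : ℤ) ∣ f.eval (a : ℤ))).card * 2 := by
        refine Finset.card_biUnion_le_card_mul _ _ _ ?_
        intro a _
        exact le_trans Finset.card_image_le (sq_card _ hp)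
    _ ≤ f.natDegree * 2 := Nat.mul_le_mul_right _ (roots_card hf hp)
    _ = 2 * f.natDegree := mul_comm _ _

/-- Cauchy-Schwarz for the number of the pairs in a fibre -/
theorem cs {α : Type} [DecidableEq α] (B : Finset α) (p : ℕ) [NeZero p] (φ : α → ZMod p) :
    (B.card : ℝ) ^ 2 ≤ p * (((B ×ˢ B).filter (fun x => φ x.1 = φ x.2)).card : ℝ) := by
  classical
  have h1 : (B.card : ℝ) = ∑ c : ZMod p, ((B.filter (fun a => φ a = c)).card : ℝ) := by
    rw [Finset.card_eq_sum_card_fiberwise (f := φ) (t := Finset.univ) (fun _ _ => Finset.mem_univ _)]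
    push_cast
    rfl
  have h2 : (((B ×ˢ B).filter (fun x => φ x.1 = φ x.2)).card : ℝ) =
      ∑ c : ZMod p, ((B.filter (fun a => φ a = c)).card : ℝ) ^ 2 := by
    rw [Finset.card_eq_sum_card_fiberwise (f := fun x : α × α => φ x.1) (t := Finset.univ)
      (fun _ _ => Finset.mem_univ _)]
    push_cast
    refine Finset.sum_congr rfl fun c _ => ?_
    rw [sq, ← Nat.cast_mul, ← Finset.card_product]
    congr 2
    ext x
    simp only [Finset.mem_filter, Finset.mem_product]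
    constructor
    · rintro ⟨⟨⟨h3, h4⟩, h5⟩, h6⟩
      exact ⟨⟨h3, h6⟩, h4, h5 ▸ h6⟩
    · rintro ⟨⟨h3, h4⟩, h5, h6⟩
      exact ⟨⟨⟨h3, h5⟩, h4.trans h6.symm⟩, h4⟩
  rw [h1, h2]
  have h3 := sq_sum_le_card_mul_sum_sq (s := (Finset.univ : Finset (ZMod p)))
    (f := fun c => ((B.filter (fun a => φ a = c)).card : ℝ))
  rw [Finset.card_univ, ZMod.card] at h3
  exact h3

theorem ev_sub {n : ℕ} (a b : Fin n ⊕ Fin n → ℤ) (x : ℕ × ℕ) :
    ev (a - b) x = ev a x - ev b x := by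
  unfold ev
  simp only [Pi.sub_apply, sub_mul, Finset.sum_sub_distrib, mul_sub]
  ring

theorem ev_zero {n : ℕ} (x : ℕ × ℕ) : ev (0 : Fin n ⊕ Fin n → ℤ) x = 0 := by
  unfold ev
  simp

/-- off the diagonal -/
theorem off {n : ℕ} (P : ℕ) (R : ℕ → Finset (ℕ × ℕ)) (b : Fin n ⊕ Fin n → ℤ) (N : ℤ) (hN : N ≠ 0)
    (hdvd : ∀ p : ℕ, p.Prime → (p : ℤ) ^ ((R p).filter (fun x => (p : ℤ) ∣ ev b x)).card ∣ N) :
    ∑ p ∈ (Icc 1 P).filter Nat.Prime,
      Real.log p * (((R p).filter (fun x => (p : ℤ) ∣ ev b x)).card : ℝ) ≤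
      Real.log |(N : ℝ)| := by
  classical
  set k : ℕ → ℕ := fun p => ((R p).filter (fun x => (p : ℤ) ∣ ev b x)).card with hk
  have h1 : (∏ p ∈ (Icc 1 P).filter Nat.Prime, (p : ℤ) ^ k p) ∣ N := by
    refine Finset.prod_dvd_of_coprime ?_ ?_
    · intro p hp q hq hpq
      have hp' : p.Prime := (Finset.mem_filter.1 hp).2
      have hq' : q.Prime := (Finset.mem_filter.1 hq).2
      refine IsCoprime.pow ?_
      exact Nat.isCoprime_iff_coprime.2 ((Nat.coprime_primes hp' hq').2 hpq)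
    · intro p hp
      exact hdvd p (Finset.mem_filter.1 hp).2
  have h2 : (∏ p ∈ (Icc 1 P).filter Nat.Prime, (p : ℤ) ^ k p) ≤ |N| :=
    Int.le_of_dvd (abs_pos.2 hN) ((dvd_abs _ _).2 h1)
  have h3 : (∏ p ∈ (Icc 1 P).filter Nat.Prime, (p : ℝ) ^ k p) ≤ |(N : ℝ)| := by
    have : ((∏ p ∈ (Icc 1 P).filter Nat.Prime, (p : ℤ) ^ k p : ℤ) : ℝ) ≤ ((|N| : ℤ) : ℝ) := by
      exact_mod_cast h2
    push_cast at this
    exact this
  have h4 : ∀ p ∈ (Icc 1 P).filter Nat.Prime, (p : ℝ) ^ k p ≠ 0 := by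
    intro p hp
    have : (0 : ℝ) < p := by exact_mod_cast (Finset.mem_filter.1 hp).2.pos
    positivity
  calc ∑ p ∈ (Icc 1 P).filter Nat.Prime, Real.log p * (k p : ℝ)
      = ∑ p ∈ (Icc 1 P).filter Nat.Prime, Real.log ((p : ℝ) ^ k p) := by
        refine Finset.sum_congr rfl fun p _ => ?_
        rw [Real.log_pow]; ring
    _ = Real.log (∏ p ∈ (Icc 1 P).filter Nat.Prime, (p : ℝ) ^ k p) := by
        rw [Real.log_prod h4]
    _ ≤ Real.log |(N : ℝ)| := by
        refine Real.log_le_log ?_ h3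
        refine Finset.prod_pos fun p hp => ?_
        have : (0 : ℝ) < p := by exact_mod_cast (Finset.mem_filter.1 hp).2.pos
        positivity

theorem theta_bound (P : ℕ) : ∑ p ∈ (Icc 1 P).filter Nat.Prime, Real.log p ≤
    Real.log 4 * P := by
  have h := Chebyshev.theta_le_log4_mul_x (x := (P : ℝ)) (by positivity)
  have h2 : Chebyshev.theta (P : ℝ) = ∑ p ∈ (Icc 1 P).filter Nat.Prime, Real.log p := by
    rw [Chebyshev.theta_eq_sum_Icc, Nat.floor_natCast]
    refine Finset.sum_congr ?_ fun _ _ => rfl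
    ext p
    simp only [Finset.mem_filter, Finset.mem_Icc]
    constructor
    · rintro ⟨⟨_, h4⟩, h5⟩
      exact ⟨⟨h5.one_le, h4⟩, h5⟩
    · rintro ⟨⟨_, h4⟩, h5⟩
      exact ⟨⟨Nat.zero_le _, h4⟩, h5⟩
  rw [← h2]
  exact h

/-- the choice of the side of the box -/
theorem side {n P : ℕ} (hn : 1 ≤ n) (hP : 2 ≤ P) : ∃ M : ℕ, 1 ≤ M ∧ (P : ℝ) ≤ (M : ℝ) ^ (2 * n) ∧
    2 * n * Real.log M ≤ Real.log P + 2 * n * Real.log 2 := by
  have hP0 : (0 : ℝ) < P := by exact_mod_cast (by omega : 0 < P)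
  have hP1 : (1 : ℝ) ≤ P := by exact_mod_cast (by omega : 1 ≤ P)
  have hn0 : (0 : ℝ) < 2 * n := by
    have : (1 : ℝ) ≤ n := by exact_mod_cast hn
    linarith
  set y : ℝ := (P : ℝ) ^ ((2 * n : ℝ)⁻¹) with hy
  have hy1 : 1 ≤ y := Real.one_le_rpow hP1 (by positivity)
  have hyn : y ^ (2 * n) = P := by
    rw [hy, ← Real.rpow_natCast, ← Real.rpow_mul hP0.le]
    push_cast
    rw [inv_mul_cancel₀ hn0.ne', Real.rpow_one]
  refine ⟨⌈y⌉₊, Nat.one_le_ceil_iff.2 (by linarith), ?_, ?_⟩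
  · rw [← hyn]
    exact pow_le_pow_left₀ (by linarith) (Nat.le_ceil y) _
  · have h1 : (⌈y⌉₊ : ℝ) ≤ 2 * y := by
      have := Nat.ceil_lt_add_one (by linarith : 0 ≤ y)
      linarith
    have h2 : Real.log (⌈y⌉₊ : ℝ) ≤ Real.log 2 + Real.log y := by
      rw [← Real.log_mul (by norm_num) (by linarith)]
      refine Real.log_le_log ?_ h1
      exact_mod_cast Nat.ceil_pos.2 (by linarith)
    have h3 : 2 * n * Real.log y = Real.log P := by
      have h4 := congrArg Real.log hyn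
      rw [Real.log_pow] at h4
      push_cast at h4
      exact h4
    nlinarith

theorem m2mg_of (h : M2AG) : M2MG := by
  classical
  intro f hf hirr g
  obtain ⟨C1, hC1, hA⟩ := h f hf hirr g
  set n := f.natDegree with hn
  have hn1 : 1 ≤ n := by
    by_contra hcon
    have h0 : f.natDegree = 0 := by omega
    have h1 : f = 1 := hf.natDegree_eq_zero.1 h0
    rw [h1] at hirr
    simp at hirr
  refine ⟨Real.log C1 + 2 * n * Real.log 2 + 2 * n * Real.log 4 + 2 * n, ?_⟩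
  intro d hd hsq P hP
  obtain ⟨Nm, hN0, hNb, hNd⟩ := hA d hd hsq
  obtain ⟨M, hM1, hMP, hMl⟩ := side hn1 hP
  have hM0 : (0 : ℝ) < M := by exact_mod_cast hM1
  have hd1 : (1 : ℝ) ≤ |(d : ℝ)| := by
    have : (1 : ℤ) ≤ |d| := Int.one_le_abs hd
    exact_mod_cast this
  have hld : 0 ≤ Real.log |(d : ℝ)| := Real.log_nonneg hd1
  have hn0 : (0 : ℝ) ≤ n := Nat.cast_nonneg n
  -- the box
  set B : Finset (Fin n ⊕ Fin n → ℤ) := Fintype.piFinset (fun _ => Finset.Ico (0 : ℤ) M) with hB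
  have hBc : B.card = M ^ (2 * n) := by
    rw [hB, Fintype.card_piFinset]
    simp only [Int.card_Ico, sub_zero, Int.toNat_natCast, Finset.prod_const, Finset.card_univ,
      Fintype.card_sum, Fintype.card_fin]
    congr 1
    omega
  have hBR : (B.card : ℝ) = (M : ℝ) ^ (2 * n) := by rw [hBc]; push_cast; rfl
  have hBpos : (0 : ℝ) < B.card := by rw [hBR]; positivity
  set S : ℝ := ∑ p ∈ (Icc 1 P).filter Nat.Prime, ((Prg f g d p).card : ℝ) * Real.log p / p with hS
  -- the double count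
  have h1 : (B.card : ℝ) ^ 2 * S ≤ ∑ x ∈ B ×ˢ B, ∑ p ∈ (Icc 1 P).filter Nat.Prime,
      Real.log p * (((Prg f g d p).filter (fun y => (p : ℤ) ∣ ev (x.1 - x.2) y)).card : ℝ) := by
    rw [Finset.sum_comm, hS, Finset.mul_sum]
    refine Finset.sum_le_sum fun p hp => ?_
    have hp' : p.Prime := (Finset.mem_filter.1 hp).2
    have : NeZero p := ⟨hp'.ne_zero⟩
    have hp0 : (0 : ℝ) < p := by exact_mod_cast hp'.pos
    have hlp : 0 ≤ Real.log p := Real.log_natCast_nonneg p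
    rw [← Finset.mul_sum]
    have h2 : ∑ x ∈ B ×ˢ B, (((Prg f g d p).filter (fun y => (p : ℤ) ∣ ev (x.1 - x.2) y)).card : ℝ)
        = ∑ y ∈ Prg f g d p, (((B ×ˢ B).filter (fun x => (p : ℤ) ∣ ev (x.1 - x.2) y)).card : ℝ) := by
      simp only [Finset.card_filter, Nat.cast_sum]
      rw [Finset.sum_comm]
    rw [h2]
    have h3 : ∀ y ∈ Prg f g d p, (B.card : ℝ) ^ 2 / p ≤
        (((B ×ˢ B).filter (fun x => (p : ℤ) ∣ ev (x.1 - x.2) y)).card : ℝ) := by
      intro y _
      rw [div_le_iff₀ hp0]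
      have h4 := cs B p (fun a => ((ev a y : ℤ) : ZMod p))
      have h5 : (B ×ˢ B).filter (fun x => (p : ℤ) ∣ ev (x.1 - x.2) y) =
          (B ×ˢ B).filter (fun x => ((ev x.1 y : ℤ) : ZMod p) = ((ev x.2 y : ℤ) : ZMod p)) := by
        refine Finset.filter_congr fun x _ => ?_
        rw [ev_sub, ← ZMod.intCast_zmod_eq_zero_iff_dvd, Int.cast_sub, sub_eq_zero]
      rw [h5]
      linarith
    have h6 : (Prg f g d p).card * ((B.card : ℝ) ^ 2 / p) ≤
        ∑ y ∈ Prg f g d p, (((B ×ˢ B).filter (fun x => (p : ℤ) ∣ ev (x.1 - x.2) y)).card : ℝ) := by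
      rw [← nsmul_eq_mul]
      exact Finset.card_nsmul_le_sum _ _ _ h3
    calc (B.card : ℝ) ^ 2 * (((Prg f g d p).card : ℝ) * Real.log p / p)
        = Real.log p * ((Prg f g d p).card * ((B.card : ℝ) ^ 2 / p)) := by ring
      _ ≤ _ := mul_le_mul_of_nonneg_left h6 hlp
  -- the two bounds
  set U : ℝ := Real.log C1 + 2 * n * Real.log |(d : ℝ)| + 2 * n * Real.log M with hU
  set V : ℝ := 2 * n * (Real.log 4 * P) with hV
  have hU0 : 0 ≤ U := by
    have e1 : 0 ≤ Real.log C1 := Real.log_nonneg hC1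
    have e2 : 0 ≤ Real.log M := Real.log_natCast_nonneg M
    positivity
  have hoff : ∀ x ∈ B ×ˢ B, x.1 ≠ x.2 → ∑ p ∈ (Icc 1 P).filter Nat.Prime,
      Real.log p * (((Prg f g d p).filter (fun y => (p : ℤ) ∣ ev (x.1 - x.2) y)).card : ℝ) ≤ U := by
    intro x hx hne
    have hne' : x.1 - x.2 ≠ 0 := sub_ne_zero.2 hne
    have h2 := off P (Prg f g d) (x.1 - x.2) (Nm (x.1 - x.2)) (hN0 _ hne')
      (fun p hp => hNd p hp (x.1 - x.2))
    refine le_trans h2 ?_
    rw [Finset.mem_product] at hx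
    have h3 : ∀ i, |(x.1 - x.2) i| ≤ ((M : ℕ) : ℤ) := by
      intro i
      have e1 := Fintype.mem_piFinset.1 hx.1 i
      have e2 := Fintype.mem_piFinset.1 hx.2 i
      rw [Finset.mem_Ico] at e1 e2
      rw [Pi.sub_apply, abs_le]
      constructor <;> linarith [e1.1, e1.2, e2.1, e2.2]
    have h4 := hNb M (x.1 - x.2) hM1 h3
    have h5 : 0 < |(Nm (x.1 - x.2) : ℝ)| := by
      have := hN0 _ hne'
      positivity
    calc Real.log |(Nm (x.1 - x.2) : ℝ)| ≤ Real.log (C1 * (|(d : ℝ)| * M) ^ (2 * n)) :=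
          Real.log_le_log h5 h4
      _ = U := by
          rw [Real.log_mul (by linarith) (by positivity), Real.log_pow,
            Real.log_mul (by linarith) hM0.ne', hU]
          push_cast
          ring
  have hdiag : ∀ x ∈ B ×ˢ B, x.1 = x.2 → ∑ p ∈ (Icc 1 P).filter Nat.Prime,
      Real.log p * (((Prg f g d p).filter (fun y => (p : ℤ) ∣ ev (x.1 - x.2) y)).card : ℝ) ≤ V := by
    intro x _ heq
    calc ∑ p ∈ (Icc 1 P).filter Nat.Prime,
          Real.log p * (((Prg f g d p).filter (fun y => (p : ℤ) ∣ ev (x.1 - x.2) y)).card : ℝ)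
        ≤ ∑ p ∈ (Icc 1 P).filter Nat.Prime, Real.log p * (2 * n) := by
          refine Finset.sum_le_sum fun p hp => ?_
          have hp' : p.Prime := (Finset.mem_filter.1 hp).2
          refine mul_le_mul_of_nonneg_left ?_ (Real.log_natCast_nonneg p)
          have h2 : ((Prg f g d p).filter (fun y => (p : ℤ) ∣ ev (x.1 - x.2) y)).card ≤ 2 * n :=
            le_trans (Finset.card_filter_le _ _) (Prg_card hf g d hp')
          exact_mod_cast h2
      _ = 2 * n * ∑ p ∈ (Icc 1 P).filter Nat.Prime, Real.log p := by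
          rw [← Finset.sum_mul]; ring
      _ ≤ V := by
          rw [hV]
          exact mul_le_mul_of_nonneg_left (theta_bound P) (by positivity)
  have hV0 : 0 ≤ V := by
    have e1 : 0 ≤ Real.log 4 := Real.log_nonneg (by norm_num)
    positivity
  have h2 : ∑ x ∈ B ×ˢ B, ∑ p ∈ (Icc 1 P).filter Nat.Prime,
      Real.log p * (((Prg f g d p).filter (fun y => (p : ℤ) ∣ ev (x.1 - x.2) y)).card : ℝ) ≤
      ∑ x ∈ B ×ˢ B, (U + if x.1 = x.2 then V else 0) := by
    refine Finset.sum_le_sum fun x hx => ?_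
    by_cases hxx : x.1 = x.2
    · rw [if_pos hxx]
      have := hdiag x hx hxx
      linarith
    · rw [if_neg hxx]
      have := hoff x hx hxx
      linarith
  have h3 : ∑ x ∈ B ×ˢ B, (U + if x.1 = x.2 then V else 0) =
      (B.card : ℝ) ^ 2 * U + B.card * V := by
    rw [Finset.sum_add_distrib, Finset.sum_const, Finset.card_product, nsmul_eq_mul,
      Finset.sum_product]
    have h4 : ∀ a ∈ B, ∑ b ∈ B, (if a = b then V else 0) = V := by
      intro a ha
      rw [Finset.sum_ite_eq, if_pos ha]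
    have h5 : ∑ a ∈ B, ∑ b ∈ B, (if ((a, b) : (Fin n ⊕ Fin n → ℤ) × (Fin n ⊕ Fin n → ℤ)).1 =
        ((a, b) : (Fin n ⊕ Fin n → ℤ) × (Fin n ⊕ Fin n → ℤ)).2 then V else 0) = B.card * V := by
      calc _ = ∑ a ∈ B, V := Finset.sum_congr rfl h4
        _ = B.card * V := by rw [Finset.sum_const, nsmul_eq_mul]
    rw [h5]
    push_cast
    ring
  have h4 : (B.card : ℝ) ^ 2 * S ≤ (B.card : ℝ) ^ 2 * U + B.card * V :=
    le_trans h1 (le_trans h2 (le_of_eq h3))
  have h5 : S ≤ U + 2 * n * Real.log 4 := by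
    have h6 : B.card * V ≤ (B.card : ℝ) ^ 2 * (2 * n * Real.log 4) := by
      have h7 : (P : ℝ) ≤ B.card := by rw [hBR]; exact hMP
      have e1 : 0 ≤ Real.log 4 := Real.log_nonneg (by norm_num)
      calc (B.card : ℝ) * V = (B.card : ℝ) * (2 * n * Real.log 4) * P := by rw [hV]; ring
        _ ≤ (B.card : ℝ) * (2 * n * Real.log 4) * B.card := by gcongr
        _ = _ := by ring
    have h8 : (B.card : ℝ) ^ 2 * S ≤ (B.card : ℝ) ^ 2 * (U + 2 * n * Real.log 4) := by
      rw [mul_add]; linarith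
    exact le_of_mul_le_mul_left h8 (by positivity)
  have hlC : 0 ≤ Real.log C1 := Real.log_nonneg hC1
  have hl2 : 0 ≤ Real.log 2 := Real.log_nonneg (by norm_num)
  have hl4 : 0 ≤ Real.log 4 := Real.log_nonneg (by norm_num)
  have h9 : 0 ≤ (Real.log C1 + 2 * n * Real.log 2 + 2 * n * Real.log 4) * Real.log |(d : ℝ)| := by
    positivity
  rw [hU] at h5
  nlinarith

end Pool.Agent.TH841.PT.M2BGf
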