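import Mathlib
import Pool.Agent.TH841.PT.Stm4

set_option autoImplicit false

namespace Pool.Agent.TH841.PT.M2CGf

open Finset Polynomial Pool.Agent.W262.RK Pool.Agent.TH841.PT

open Pool.Agent.H474R2.PG (rho)

/-! ### The monic polynomial -/

private lemma nf_comp (f : ℤ[X]) (h : 1 ≤ f.natDegree) :
    (integralNormalization f).comp (C f.leadingCoeff * X) =
      C (f.leadingCoeff ^ (f.natDegree - 1)) * f := by
  have h1 := integralNormalization_eval₂_leadingCoeff_mul h (C : ℤ →+* ℤ[X]) X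
  rw [eval₂_C_X] at h1
  rw [comp, h1, map_pow]

private lemma sc_comp (g : ℤ[X]) (l : ℤ) :
    (C (l ^ g.natDegree) * scaleRoots g l).comp (C l * X) =
      C (l ^ g.natDegree * l ^ g.natDegree) * g := by
  have h1 := scaleRoots_eval₂_mul (p := g) (C : ℤ →+* ℤ[X]) X l
  rw [eval₂_C_X] at h1
  rw [mul_comp, C_comp, comp, h1, map_mul, map_pow, mul_assoc]

private lemma irr (f f1 : ℤ[X]) (l u : ℤ) (hl : l ≠ 0) (hu : u ≠ 0)
    (hf : f1.comp (C l * X) = C u * f) (h : Irreducible (f.map (Int.castRingHom ℚ))) :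
    Irreducible (f1.map (Int.castRingHom ℚ)) := by
  have hlq : (l : ℚ) ≠ 0 := by exact_mod_cast hl
  have huq : (u : ℚ) ≠ 0 := by exact_mod_cast hu
  have : Invertible (l : ℚ) := invertibleOfNonzero hlq
  have h1 : (algEquivCMulXAddC (l : ℚ) 0) (f1.map (Int.castRingHom ℚ)) =
      C (u : ℚ) * f.map (Int.castRingHom ℚ) := by
    have h2 := congrArg (Polynomial.map (Int.castRingHom ℚ)) hf
    rw [Polynomial.map_comp, Polynomial.map_mul, Polynomial.map_mul, Polynomial.map_C,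
      Polynomial.map_C, Polynomial.map_X] at h2
    rw [algEquivCMulXAddC_apply, map_zero, add_zero, ← comp_eq_aeval] 
    simpa using h2
  have h3 : Irreducible ((algEquivCMulXAddC (l : ℚ) 0) (f1.map (Int.castRingHom ℚ))) := by
    rw [h1]
    exact (irreducible_isUnit_mul (isUnit_C.2 (isUnit_iff_ne_zero.2 huq))).2 h
  exact (MulEquiv.irreducible_iff (algEquivCMulXAddC (l : ℚ) 0)).1 h3

private lemma nsq (f g f1 g1 : ℤ[X]) (l u : ℤ) (k : ℕ) (hl : l ≠ 0)
    (hf : f1.comp (C l * X) = C u * f) (hg : g1.comp (C l * X) = C (l ^ k * l ^ k) * g)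
    (d : ℤ) (h : NSqg f g d) : NSqg f1 g1 d := by
  intro q hq
  obtain ⟨r, hr⟩ := hq
  have hlq : (l : ℚ) ≠ 0 := by exact_mod_cast hl
  have hlk : ((l : ℚ) ^ k) ≠ 0 := pow_ne_zero _ hlq
  refine h (C ((l : ℚ) ^ k)⁻¹ * q.comp (C (l : ℚ) * X)) ?_
  have h2 := congrArg (Polynomial.map (Int.castRingHom ℚ)) hf
  have h3 := congrArg (Polynomial.map (Int.castRingHom ℚ)) hg
  rw [Polynomial.map_comp, Polynomial.map_mul, Polynomial.map_mul, Polynomial.map_C,
    Polynomial.map_C, Polynomial.map_X] at h2 h3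
  have h4 := congrArg (fun F : ℚ[X] => F.comp (C (l : ℚ) * X)) hr
  simp only [sub_comp, pow_comp, mul_comp, C_comp] at h4
  simp only [eq_intCast] at h2 h3
  rw [h2, h3] at h4
  have h5 : (C ((l : ℚ) ^ k)⁻¹ * q.comp (C (l : ℚ) * X)) ^ 2 -
      C (d : ℚ) * g.map (Int.castRingHom ℚ) =
      C ((((l : ℚ) ^ k)⁻¹) ^ 2) * ((q.comp (C (l : ℚ) * X)) ^ 2 -
        C (d : ℚ) * (C (((l ^ k * l ^ k : ℤ)) : ℚ) * g.map (Int.castRingHom ℚ))) := by
    have h6 : C ((((l : ℚ) ^ k)⁻¹) ^ 2) * (C (((l ^ k * l ^ k : ℤ)) : ℚ)) = (1 : ℚ[X]) := by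
      rw [← C_mul, ← C_1]
      congr 1
      push_cast
      field_simp
    calc _ = (C ((l : ℚ) ^ k)⁻¹) ^ 2 * (q.comp (C (l : ℚ) * X)) ^ 2 -
          C (d : ℚ) * (1 * g.map (Int.castRingHom ℚ)) := by ring
      _ = _ := by
        rw [← h6, C_pow]
        ring
  rw [h5, h4]
  refine Dvd.dvd.mul_left ?_ _
  exact ⟨C (u : ℚ) * r.comp (C (l : ℚ) * X), by ring⟩

/-! ### Counting modulo `p` -/

private lemma sum_rg (p : ℕ) [Fact p.Prime] (F : ZMod p → ℝ) :
    ∑ a ∈ range p, F (a : ZMod p) = ∑ x : ZMod p, F x := by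
  have hp : 0 < p := (Fact.out : p.Prime).pos
  refine Finset.sum_bij' (fun a _ => (a : ZMod p)) (fun x _ => x.val) ?_ ?_ ?_ ?_ ?_
  · intro a _
    exact Finset.mem_univ _
  · intro x _
    exact Finset.mem_range.2 (ZMod.val_lt x)
  · intro a ha
    exact ZMod.val_cast_of_lt (Finset.mem_range.1 ha)
  · intro x _
    exact ZMod.natCast_zmod_val x
  · intro a _
    rfl

private lemma ev_nat (p : ℕ) (f : ℤ[X]) (a : ℕ) :
    ((f.eval (a : ℤ) : ℤ) : ZMod p) =
      (f.map (Int.castRingHom (ZMod p))).eval (a : ZMod p) := by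
  have h := eval_natCast_map (Int.castRingHom (ZMod p)) f a
  rw [eq_intCast] at h
  exact h.symm

private lemma dvd_iff (p : ℕ) (f : ℤ[X]) (a : ℕ) :
    (p : ℤ) ∣ f.eval (a : ℤ) ↔ (f.map (Int.castRingHom (ZMod p))).eval (a : ZMod p) = 0 := by
  rw [← ZMod.intCast_zmod_eq_zero_iff_dvd, ev_nat]

private lemma Jr_eq (p : ℕ) [Fact p.Prime] (m : ℤ) :
    Jr m p = ((quadraticChar (ZMod p) (m : ZMod p) : ℤ) : ℝ) := by
  unfold Jr
  rw [← jacobiSym.legendreSym.to_jacobiSym]
  rfl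

private lemma cnt (p : ℕ) [Fact p.Prime] (hp2 : p ≠ 2) (m : ℤ) :
    ∑ b ∈ range p, (if (p : ℤ) ∣ (b : ℤ) ^ 2 - m then (1 : ℝ) else 0) = 1 + Jr m p := by
  have h1 : ∀ b : ℕ, (if (p : ℤ) ∣ (b : ℤ) ^ 2 - m then (1 : ℝ) else 0) =
      (fun x : ZMod p => if x ^ 2 = (m : ZMod p) then (1 : ℝ) else 0) (b : ZMod p) := by
    intro b
    have h2 : (p : ℤ) ∣ (b : ℤ) ^ 2 - m ↔ (b : ZMod p) ^ 2 = (m : ZMod p) := by
      rw [← ZMod.intCast_zmod_eq_zero_iff_dvd]
      push_cast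
      rw [sub_eq_zero]
    simp only [h2]
  rw [Finset.sum_congr rfl (fun b _ => h1 b),
    sum_rg p (fun x : ZMod p => if x ^ 2 = (m : ZMod p) then (1 : ℝ) else 0)]
  have h3 := legendreSym.card_sqrts p hp2 m
  have h4 : ∑ x : ZMod p, (if x ^ 2 = (m : ZMod p) then (1 : ℝ) else 0) =
      ((({x : ZMod p | x ^ 2 = (m : ZMod p)}.toFinset.card : ℤ)) : ℝ) := by
    rw [Finset.sum_boole]
    push_cast
    congr 2
    ext x
    simp
  rw [h4, h3, Jr, ← jacobiSym.legendreSym.to_jacobiSym]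
  push_cast
  ring

private lemma prg_card (f g : ℤ[X]) (d : ℤ) (p : ℕ) [Fact p.Prime] (hp2 : p ≠ 2) :
    ((Prg f g d p).card : ℝ) = ∑ x : ZMod p,
      if (f.map (Int.castRingHom (ZMod p))).eval x = 0 then
        (1 + ((quadraticChar (ZMod p) ((d : ZMod p) *
          (g.map (Int.castRingHom (ZMod p))).eval x) : ℤ) : ℝ)) else 0 := by
  unfold Prg
  rw [Finset.card_filter, Finset.sum_product]
  push_cast
  rw [← sum_rg p]
  refine Finset.sum_congr rfl fun a _ => ?_
  by_cases h : (p : ℤ) ∣ f.eval (a : ℤ)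
  · rw [if_pos ((dvd_iff p f a).1 h)]
    simp only [h, true_and]
    rw [cnt p hp2, Jr_eq]
    congr 4
    push_cast
    congr 1
    exact ev_nat p g a
  · rw [if_neg (fun h' => h ((dvd_iff p f a).2 h'))]
    simp [h]

private lemma rho_card (f g : ℤ[X]) (d : ℤ) (p : ℕ) [Fact p.Prime] :
    (rho f p : ℝ) + rhoc f (C d * g) p = ∑ x : ZMod p,
      if (f.map (Int.castRingHom (ZMod p))).eval x = 0 then
        (1 + ((quadraticChar (ZMod p) ((d : ZMod p) *
          (g.map (Int.castRingHom (ZMod p))).eval x) : ℤ) : ℝ)) else 0 := by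
  unfold rho rhoc
  rw [Finset.card_filter, Finset.sum_filter]
  push_cast
  rw [← Finset.sum_add_distrib, ← sum_rg p]
  refine Finset.sum_congr rfl fun a _ => ?_
  by_cases h : (p : ℤ) ∣ f.eval (a : ℤ)
  · rw [if_pos ((dvd_iff p f a).1 h), if_pos h, if_pos h, Jr_eq]
    congr 4
    rw [eval_mul, eval_C]
    push_cast
    congr 1
    exact ev_nat p g a
  · rw [if_neg (fun h' => h ((dvd_iff p f a).2 h')), if_neg h, if_neg h, add_zero]

private lemma key (f g f1 g1 : ℤ[X]) (l u : ℤ) (k : ℕ)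
    (hf : f1.comp (C l * X) = C u * f) (hg : g1.comp (C l * X) = C (l ^ k * l ^ k) * g)
    (d : ℤ) (p : ℕ) [Fact p.Prime] (hp2 : p ≠ 2) (hl : ¬ (p : ℤ) ∣ l) (hu : ¬ (p : ℤ) ∣ u) :
    ((Prg f1 g1 d p).card : ℝ) = (rho f p : ℝ) + rhoc f (C d * g) p := by
  have hl0 : (l : ZMod p) ≠ 0 := fun h => hl ((ZMod.intCast_zmod_eq_zero_iff_dvd l p).1 h)
  have hu0 : (u : ZMod p) ≠ 0 := fun h => hu ((ZMod.intCast_zmod_eq_zero_iff_dvd u p).1 h)
  rw [prg_card f1 g1 d p hp2, rho_card, ← Equiv.sum_comp (Equiv.mulLeft₀ (l : ZMod p) hl0)]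
  have h2 := congrArg (Polynomial.map (Int.castRingHom (ZMod p))) hf
  have h3 := congrArg (Polynomial.map (Int.castRingHom (ZMod p))) hg
  rw [Polynomial.map_comp, Polynomial.map_mul, Polynomial.map_mul, Polynomial.map_C,
    Polynomial.map_C, Polynomial.map_X] at h2 h3
  refine Finset.sum_congr rfl fun x _ => ?_
  have h4 := congrArg (Polynomial.eval x) h2
  have h5 := congrArg (Polynomial.eval x) h3
  simp only [eval_comp, eval_mul, eval_C, eval_X, eq_intCast] at h4 h5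
  have h6 : (Equiv.mulLeft₀ (l : ZMod p) hl0) x = (l : ZMod p) * x := rfl
  rw [h6, h4, h5]
  by_cases h : (f.map (Int.castRingHom (ZMod p))).eval x = 0
  · rw [if_pos (by rw [h, mul_zero]), if_pos h]
    congr 2
    rw [Int.cast_mul, Int.cast_pow]
    have h7 : (d : ZMod p) * ((l : ZMod p) ^ k * (l : ZMod p) ^ k *
        (g.map (Int.castRingHom (ZMod p))).eval x) =
        ((l : ZMod p) ^ k) ^ 2 * ((d : ZMod p) * (g.map (Int.castRingHom (ZMod p))).eval x) := by
      ring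
    rw [h7, map_mul, map_pow, quadraticChar_sq_one (pow_ne_zero _ hl0), one_mul]
  · rw [if_neg (mul_ne_zero hu0 h), if_neg h]

private lemma term_le (f G : ℤ[X]) (p : ℕ) (hp : p.Prime) :
    ((rho f p : ℝ) + rhoc f G p) * Real.log p / p ≤ 2 * Real.log p := by
  have hp0 : (0 : ℝ) < p := by exact_mod_cast hp.pos
  have hlog : 0 ≤ Real.log p := Real.log_natCast_nonneg p
  have h1 : (rho f p : ℝ) ≤ p := by
    unfold rho
    exact_mod_cast (Finset.card_filter_le _ _).trans (by simp)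
  have h2 : rhoc f G p ≤ p := by
    unfold rhoc
    calc _ ≤ ∑ a ∈ (range p).filter (fun a : ℕ => (p : ℤ) ∣ f.eval (a : ℤ)), (1 : ℝ) := by
          refine Finset.sum_le_sum fun a _ => ?_
          unfold Jr
          rcases jacobiSym.trichotomy (G.eval (a : ℤ)) p with h | h | h <;> rw [h] <;> norm_num
      _ ≤ p := by
          rw [Finset.sum_const, nsmul_eq_mul, mul_one]
          exact_mod_cast (Finset.card_filter_le _ _).trans (by simp)
  rw [div_le_iff₀ hp0]
  nlinarith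

theorem m2g_of (h : M2MG) : M2G := by
  intro f hf g _
  have hn : 1 ≤ f.natDegree := by
    have h1 := hf.natDegree_pos
    rwa [Polynomial.natDegree_map_eq_of_injective (RingHom.injective_int (Int.castRingHom ℚ))] at h1
  have hf0 : f ≠ 0 := by
    rintro rfl
    simp at hn
  set l : ℤ := f.leadingCoeff with hldef
  have hl : l ≠ 0 := leadingCoeff_ne_zero.2 hf0
  set u : ℤ := l ^ (f.natDegree - 1) with hudef
  have hu : u ≠ 0 := pow_ne_zero _ hl
  set k := g.natDegree with hk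
  set f1 := integralNormalization f with hf1
  set g1 := C (l ^ k) * scaleRoots g l with hg1
  have hfc : f1.comp (C l * X) = C u * f := nf_comp f hn
  have hgc : g1.comp (C l * X) = C (l ^ k * l ^ k) * g := sc_comp g l
  obtain ⟨K, hK⟩ := h f1 (monic_integralNormalization hf0) (irr f f1 l u hl hu hfc hf) g1
  set B : Finset ℕ := (2 * l).natAbs.primeFactors with hB
  have hBs : 0 ≤ ∑ p ∈ B, 2 * Real.log p :=
    Finset.sum_nonneg fun p _ => mul_nonneg (by norm_num) (Real.log_natCast_nonneg p)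
  refine ⟨K + ∑ p ∈ B, 2 * Real.log p, fun d hd hNS P hP => ?_⟩
  have h1 := hK d hd (nsq f g f1 g1 l u k hl hfc hgc d hNS) P hP
  have hlogd : 0 ≤ Real.log |(d : ℝ)| := by
    refine Real.log_nonneg ?_
    exact_mod_cast Int.one_le_abs hd
  have h2 : ∑ p ∈ (Icc 1 P).filter Nat.Prime,
      ((rho f p : ℝ) + rhoc f (C d * g) p) * Real.log p / p ≤
      ∑ p ∈ (Icc 1 P).filter Nat.Prime, (((Prg f1 g1 d p).card : ℝ) * Real.log p / p +
        if p ∈ B then 2 * Real.log p else 0) := by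
    refine Finset.sum_le_sum fun p hp => ?_
    have hpp : p.Prime := (Finset.mem_filter.1 hp).2
    have hlog : 0 ≤ Real.log p := Real.log_natCast_nonneg p
    have : Fact p.Prime := ⟨hpp⟩
    by_cases hpB : p ∈ B
    · rw [if_pos hpB]
      have h3 : 0 ≤ ((Prg f1 g1 d p).card : ℝ) * Real.log p / p := by positivity
      linarith [term_le f (C d * g) p hpp]
    · rw [if_neg hpB, add_zero]
      have h4 : ¬ (p : ℤ) ∣ 2 * l := by
        intro h5
        apply hpB
        rw [hB, Nat.mem_primeFactors]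
        refine ⟨hpp, Int.natCast_dvd.1 h5, ?_⟩
        rw [Int.natAbs_ne_zero]
        exact mul_ne_zero two_ne_zero hl
      have hpl : ¬ (p : ℤ) ∣ l := fun h5 => h4 (h5.mul_left 2)
      have hp2 : p ≠ 2 := by
        rintro rfl
        exact h4 (Dvd.intro _ rfl)
      have hpu : ¬ (p : ℤ) ∣ u := fun h5 =>
        hpl ((Nat.prime_iff_prime_int.1 hpp).dvd_of_dvd_pow h5)
      rw [key f g f1 g1 l u k hfc hgc d p hp2 hpl hpu]
  have h3 : ∑ p ∈ (Icc 1 P).filter Nat.Prime, (if p ∈ B then 2 * Real.log p else 0) ≤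
      ∑ p ∈ B, 2 * Real.log p := by
    rw [← Finset.sum_filter]
    refine Finset.sum_le_sum_of_subset_of_nonneg (fun p hp => (Finset.mem_filter.1 hp).2) ?_
    intro p _ _
    exact mul_nonneg (by norm_num) (Real.log_natCast_nonneg p)
  rw [Finset.sum_add_distrib] at h2
  nlinarith [mul_nonneg hBs hlogd]

end Pool.Agent.TH841.PT.M2CGf
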