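import Mathlib
import Pool.Agent.TH841.PT.Stm

set_option autoImplicit false

namespace Pool.Agent.TH841.PT.M3f

open Finset Polynomial Pool.Agent.W262.RK Pool.Agent.TH841.PT

/-- if an integer exactly divisible by `p` times an integer prime to `p` is a rational square,
contradiction -/
theorem not_sq {d d' : ℤ} {p : ℕ} (hp : p.Prime) (h1 : (p : ℤ) ∣ d) (h2 : ¬ (p : ℤ) ^ 2 ∣ d)
    (h3 : ¬ (p : ℤ) ∣ d') (c : ℚ) (hc : (d : ℚ) * d' = c ^ 2) : False := by
  have hsq : IsSquare (((d * d' : ℤ)) : ℚ) := ⟨c, by push_cast; rw [hc]; ring⟩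
  rw [Rat.isSquare_intCast_iff] at hsq
  obtain ⟨k, hk⟩ := hsq
  have hp' : Prime (p : ℤ) := Nat.prime_iff_prime_int.1 hp
  have h4 : (p : ℤ) ∣ k := by
    have : (p : ℤ) ∣ k * k := hk ▸ h1.mul_right d'
    rcases hp'.dvd_or_dvd this with h | h <;> exact h
  have h5 : (p : ℤ) ^ 2 ∣ d * d' := by
    rw [hk, ← sq]
    exact pow_dvd_pow_of_dvd h4 2
  have hcop : IsCoprime ((p : ℤ) ^ 2) d' := IsCoprime.pow_left (hp'.coprime_iff_not_dvd.2 h3)
  exact h2 (hcop.dvd_of_dvd_mul_right h5)

theorem m3 : M3 := by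
  intro f hf
  classical
  have : Fact (Irreducible (f.map (Int.castRingHom ℚ))) := ⟨hf⟩
  set F : ℚ[X] := f.map (Int.castRingHom ℚ) with hF
  let K := AdjoinRoot F
  have : FiniteDimensional ℚ K := (AdjoinRoot.powerBasis hf.ne_zero).finite
  have : Finite (IntermediateField ℚ K) :=
    Field.finite_intermediateField_of_exists_primitive_element ℚ K
      (Field.exists_primitive_element ℚ K)
  have : Fintype (IntermediateField ℚ K) := Fintype.ofFinite _
  let Pr : IntermediateField ℚ K → ℤ → Prop := fun E d =>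
    d ≠ 0 ∧ (∀ c : ℚ, (d : ℚ) ≠ c ^ 2) ∧ ∃ x : K, x ^ 2 = (d : K) ∧ IntermediateField.adjoin ℚ {x} = E
  let g : IntermediateField ℚ K → ℤ := fun E => if h : ∃ d, Pr E d then h.choose else 0
  refine ⟨Finset.univ.sup fun E => (g E).natAbs, ?_⟩
  rintro d ⟨p, hp, hB, hpd, hpd2⟩ q hq
  have hp' : Prime (p : ℤ) := Nat.prime_iff_prime_int.1 hp
  have hd0 : d ≠ 0 := by
    rintro rfl
    exact hpd2 (dvd_zero _)
  have hdns : ∀ c : ℚ, (d : ℚ) ≠ c ^ 2 := by
    intro c hc
    refine not_sq hp hpd hpd2 (d' := 1) ?_ c (by push_cast; rw [mul_one, hc])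
    intro h
    exact hp'.not_isUnit (isUnit_of_dvd_one h)
  let x : K := AdjoinRoot.mk F q
  have hx : x ^ 2 = (d : K) := by
    have h1 : AdjoinRoot.mk F (q ^ 2 - C (d : ℚ)) = 0 := AdjoinRoot.mk_eq_zero.2 hq
    rw [map_sub, map_pow, sub_eq_zero] at h1
    change AdjoinRoot.mk F q ^ 2 = _
    rw [h1]
    have h2 : (C (d : ℚ) : ℚ[X]) = ((d : ℤ) : ℚ[X]) := by simp
    rw [h2, map_intCast]
  have hPr : ∃ d, Pr (IntermediateField.adjoin ℚ {x}) d := ⟨d, hd0, hdns, x, hx, rfl⟩
  obtain ⟨hd'0, hd'ns, x', hx', hadj⟩ := hPr.choose_spec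
  set d' := hPr.choose with hd'
  have hgE : g (IntermediateField.adjoin ℚ {x}) = d' := by
    simp only [g]
    rw [dif_pos hPr]
  have hle : d'.natAbs < p := by
    refine lt_of_le_of_lt ?_ hB
    rw [← hgE]
    exact Finset.le_sup (f := fun E => (g E).natAbs) (Finset.mem_univ _)
  have hnd : ¬ (p : ℤ) ∣ d' := by
    intro h
    have h1 := Nat.le_of_dvd (Int.natAbs_pos.2 hd'0) (Int.natCast_dvd.1 h)
    omega
  -- `x = a + b x'`
  have hmem : x ∈ IntermediateField.adjoin ℚ {x'} := by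
    rw [hadj]
    exact IntermediateField.mem_adjoin_simple_self ℚ x
  have hint : IsIntegral ℚ x' := IsIntegral.of_finite ℚ x'
  obtain ⟨a, b, hab⟩ : ∃ a b : ℚ, x = (a : K) + (b : K) * x' := by
    have h1 : x ∈ (IntermediateField.adjoin ℚ {x'}).toSubalgebra := hmem
    rw [IntermediateField.adjoin_simple_toSubalgebra_of_isAlgebraic hint.isAlgebraic,
      Algebra.adjoin_singleton_eq_range_aeval] at h1
    obtain ⟨r, hr⟩ := h1
    let G : ℚ[X] := X ^ 2 - C (d' : ℚ)
    have hG : G.Monic := monic_X_pow_sub_C _ two_ne_zero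
    have hGx : aeval x' G = 0 := by
      simp [G, hx']
    have h2 : aeval x' (r %ₘ G) = x := by
      rw [← hr]
      change _ = aeval x' r
      conv_rhs => rw [← modByMonic_add_div r G]
      rw [map_add, map_mul, hGx, zero_mul, add_zero]
    have h3 : (r %ₘ G).natDegree < 2 := by
      have := natDegree_modByMonic_lt r hG (by
        intro h
        have := natDegree_X_pow_sub_C (n := 2) (r := (d' : ℚ))
        change G.natDegree = 2 at this
        rw [h] at this
        simp at this)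
      rwa [show G.natDegree = 2 from natDegree_X_pow_sub_C] at this
    refine ⟨(r %ₘ G).coeff 0, (r %ₘ G).coeff 1, ?_⟩
    rw [← h2, aeval_eq_sum_range' h3, Finset.sum_range_succ, Finset.sum_range_one, pow_zero,
      pow_one]
    simp [Algebra.smul_def]
  have hq1 : (d : K) = (a : K) ^ 2 + (b : K) ^ 2 * (d' : K) + 2 * (a : K) * (b : K) * x' := by
    rw [← hx, hab, ← hx']
    ring
  have hcast : ∀ u w : ℚ, (u : K) = (w : K) → u = w := fun u w h => Rat.cast_injective h
  by_cases hab0 : a * b = 0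
  · rcases mul_eq_zero.1 hab0 with h | h
    · rw [h] at hq1
      have h2 : (d : ℚ) = b ^ 2 * d' := by
        apply hcast
        push_cast
        rw [hq1]
        push_cast
        ring
      refine not_sq hp hpd hpd2 hnd (b * d') ?_
      rw [h2]
      ring
    · rw [h] at hq1
      have h2 : (d : ℚ) = a ^ 2 := by
        apply hcast
        push_cast
        rw [hq1]
        push_cast
        ring
      exact hdns _ h2
  · have hab1 : ((2 * a * b : ℚ) : K) ≠ 0 := by
      intro h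
      apply hab0
      have h3 : (2 * a * b : ℚ) = 0 := hcast _ _ (by rw [h]; push_cast; rfl)
      linarith
    have h4 : x' = (((d : ℚ) - a ^ 2 - b ^ 2 * d') / (2 * a * b) : ℚ) := by
      rw [Rat.cast_div, eq_div_iff hab1]
      push_cast
      rw [hq1]
      ring
    have h5 : (d' : ℚ) = (((d : ℚ) - a ^ 2 - b ^ 2 * d') / (2 * a * b)) ^ 2 := by
      apply hcast
      rw [Rat.cast_pow, ← h4, hx']
      push_cast
      rfl
    exact hd'ns _ h5

end Pool.Agent.TH841.PT.M3f
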