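import Mathlib
import Pool.Agent.TH841.PT.Stm4

set_option autoImplicit false

namespace Pool.Agent.TH841.PT.M3Gf

open Finset Polynomial Pool.Agent.W262.RK Pool.Agent.TH841.PT

theorem m3g_of (h : M3) : M3G := by
  intro f hf g hg
  by_cases hex : ∃ d0 : ℤ, d0 ≠ 0 ∧ ∃ q0 : ℚ[X],
      (f.map (Int.castRingHom ℚ)) ∣ (q0 ^ 2 - C (d0 : ℚ) * g.map (Int.castRingHom ℚ))
  · obtain ⟨d0, hd0, q0, hq0⟩ := hex
    obtain ⟨B1, hB1⟩ := h f hf
    refine ⟨max B1 d0.natAbs, ?_⟩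
    rintro d ⟨p, hp, hBp, hpd, hpd2⟩ q hq
    have hpB1 : B1 < p := lt_of_le_of_lt (le_max_left _ _) hBp
    have hpd0 : d0.natAbs < p := lt_of_le_of_lt (le_max_right _ _) hBp
    have hnd0 : ¬ (p : ℤ) ∣ d0 := by
      intro hdvd
      have h1 : p ∣ d0.natAbs := Int.natCast_dvd.1 hdvd
      have h2 := Nat.le_of_dvd (Int.natAbs_pos.2 hd0) h1
      omega
    have hcop : IsCoprime ((p : ℤ) ^ 2) d0 := by
      refine IsCoprime.pow_left ?_
      exact (Nat.prime_iff_prime_int.1 hp).coprime_iff_not_dvd.2 hnd0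
    have hns : NSq f (d * d0) := by
      refine hB1 (d * d0) ⟨p, hp, hpB1, Dvd.dvd.mul_right hpd d0, ?_⟩
      intro hdvd
      exact hpd2 (hcop.dvd_of_dvd_mul_right hdvd)
    obtain ⟨a, b, hab⟩ : IsCoprime (f.map (Int.castRingHom ℚ)) (g.map (Int.castRingHom ℚ)) :=
      (hf.coprime_iff_not_dvd).2 hg
    refine hns (q * q0 * b) ?_
    obtain ⟨u, hu⟩ := hq
    obtain ⟨v, hv⟩ := hq0
    set F := f.map (Int.castRingHom ℚ) with hF
    set G := g.map (Int.castRingHom ℚ) with hG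
    refine ⟨u * q0 ^ 2 * b ^ 2 + C (d : ℚ) * G * v * b ^ 2 -
      C (d : ℚ) * C (d0 : ℚ) * (G * b + 1) * a, ?_⟩
    have e1 : C (((d * d0 : ℤ) : ℚ)) = (C (d : ℚ) * C (d0 : ℚ) : ℚ[X]) := by
      rw [Int.cast_mul, C_mul]
    rw [e1]
    linear_combination (q0 ^ 2 * b ^ 2) * hu + (C (d : ℚ) * G * b ^ 2) * hv +
      (C (d : ℚ) * C (d0 : ℚ) * (G * b + 1)) * hab
  · refine ⟨0, ?_⟩
    rintro d ⟨p, hp, -, hpd, hpd2⟩ q hq
    have hd : d ≠ 0 := by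
      rintro rfl
      exact hpd2 (dvd_zero _)
    exact hex ⟨d, hd, q, hq⟩

end Pool.Agent.TH841.PT.M3Gf
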