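import Mathlib
import Pool.Agent.TH841.PT.Stm4
import Pool.Agent.W762.RK2.EXP4a

/-!
# PT-MERGE: merging variables in sums over coprime tuples
-/

set_option autoImplicit false

namespace Pool.Agent.TH841.PT.MergeF

open Finset Polynomial Pool.Agent.W262.RK Pool.Agent.TH841.PT
open Pool.Agent.W762.RK2 (Pr nb Dl sum_Tup prod_pf)

variable {z y : ℕ}

/-- weight of a label -/
noncomputable def Wt {ι : Type} (a : ι → ℕ → ℝ) (c : ℕ) (o : Option ι) (p : ℕ) : ℝ :=
  o.elim 1 fun x => a x p / ((p : ℝ) - c)

lemma prod_gp {ι : Type} [Fintype ι] [DecidableEq ι] (a : ι → ℕ → ℝ) (c : ℕ)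
    (l : Pr z y → Option ι) : ∏ x, gp (a x) c (Dl l x) = ∏ p : Pr z y, Wt a c (l p) p := by
  have h : ∀ x, gp (a x) c (Dl l x) =
      ∏ p : Pr z y, if l p = some x then a x p / (((p : ℕ) : ℝ) - c) else 1 := by
    intro x
    unfold gp Dl
    rw [prod_pf _ (fun p : ℕ => a x p / ((p : ℝ) - c))]
    simp only [decide_eq_true_eq]
  rw [Finset.prod_congr rfl fun x _ => h x, Finset.prod_comm]
  refine Finset.prod_congr rfl fun p _ => ?_
  rcases hl : l p with _ | x
  · simp [Wt]
  · simp only [Option.some.injEq, Wt, Option.elim]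
    rw [Finset.prod_ite_eq Finset.univ x (fun x => a x p / (((p : ℕ) : ℝ) - c))]
    simp

lemma prod_Dl {ι Θ : Type} [Fintype ι] [DecidableEq ι] [Fintype Θ] [DecidableEq Θ]
    (l : Pr z y → Option (ι × Θ)) (i : ι) :
    ∏ θ, Dl l (i, θ) = Dl (fun p => (l p).map Prod.fst) i := by
  unfold Dl nb
  rw [Finset.prod_comm]
  refine Finset.prod_congr rfl fun p _ => ?_
  simp only [decide_eq_true_eq]
  rcases hl : l p with _ | ⟨i', θ'⟩
  · simp
  · simp only [Option.some.injEq, Option.map_some, Prod.mk.injEq]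
    by_cases h : i' = i
    · subst h
      simp only [true_and, if_true]
      rw [Finset.prod_ite_eq Finset.univ θ' (fun _ => (p : ℕ))]
      simp
    · simp [h]

theorem merge : MERGE := by
  intro ι Θ _ _ _ _ a c z y F
  rw [sum_Tup, sum_Tup]
  have h1 : ∀ l : Pr z y → Option (ι × Θ),
      (∏ x, gp (a x) c (Dl l x)) * F (fun i => ∏ θ, Dl l (i, θ)) =
      (∏ p : Pr z y, Wt a c (l p) p) * F (Dl (fun p => (l p).map Prod.fst)) := by
    intro l
    rw [prod_gp, funext (prod_Dl l)]
  have h2 : ∀ l : Pr z y → Option ι,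
      (∏ i, gp (fun p => ∑ θ, a (i, θ) p) c (Dl l i)) * F (Dl l) =
      (∏ p : Pr z y, Wt (fun i p => ∑ θ, a (i, θ) p) c (l p) p) * F (Dl l) := by
    intro l
    rw [prod_gp]
  rw [Finset.sum_congr rfl fun l _ => h1 l, Finset.sum_congr rfl fun l _ => h2 l]
  rw [← Finset.sum_fiberwise Finset.univ
    (fun l : Pr z y → Option (ι × Θ) => fun p => (l p).map Prod.fst)]
  refine Finset.sum_congr rfl fun l' _ => ?_
  have h3 : (Finset.univ.filter fun l : Pr z y → Option (ι × Θ) =>
      (fun p => (l p).map Prod.fst) = l') =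
      Fintype.piFinset (fun p => Finset.univ.filter fun o : Option (ι × Θ) =>
        o.map Prod.fst = l' p) := by
    ext l
    simp only [Finset.mem_filter, Finset.mem_univ, true_and, Fintype.mem_piFinset]
    exact funext_iff
  have h4 : ∀ l ∈ (Finset.univ.filter fun l : Pr z y → Option (ι × Θ) =>
      (fun p => (l p).map Prod.fst) = l'),
      (∏ p : Pr z y, Wt a c (l p) p) * F (Dl (fun p => (l p).map Prod.fst)) =
      (∏ p : Pr z y, Wt a c (l p) p) * F (Dl l') := by
    intro l hl
    rw [(Finset.mem_filter.1 hl).2]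
  rw [Finset.sum_congr rfl h4, ← Finset.sum_mul, h3]
  congr 1
  rw [← Finset.prod_univ_sum (fun p => Finset.univ.filter fun o : Option (ι × Θ) =>
        o.map Prod.fst = l' p) (fun p o => Wt a c o p)]
  refine Finset.prod_congr rfl fun p _ => ?_
  rcases hl : l' p with _ | i
  · have h5 : (Finset.univ.filter fun o : Option (ι × Θ) => o.map Prod.fst = none) = {none} := by
      ext o
      simp
    rw [h5, Finset.sum_singleton]
    rfl
  · have h5 : (Finset.univ.filter fun o : Option (ι × Θ) => o.map Prod.fst = some i) =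
        Finset.univ.image (fun θ : Θ => some (i, θ)) := by
      ext o
      simp only [Finset.mem_filter, Finset.mem_univ, true_and, Finset.mem_image]
      rcases o with _ | ⟨i', θ'⟩
      · simp
      · simp [eq_comm]
    rw [h5, Finset.sum_image (by
      intro θ _ θ' _ h
      simpa using h)]
    simp only [Wt, Option.elim]
    rw [← Finset.sum_div]

end Pool.Agent.TH841.PT.MergeF
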