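import Mathlib
import Pool.Agent.TH841.PT.Stm
import Pool.Agent.W240.RS.RVA
import Pool.Agent.W591.RK2.RVRU

/-!
# Project PT, part RVU: sums over the squares and over the medium primes with general weights
-/

set_option autoImplicit false

namespace Pool.Agent.TH841.PT.RVU

open Finset Polynomial Pool.Agent.W262.RK Pool.Agent.TH841.PT

theorem rvp : RVP := by
  intro J _ _ z c ρ A lam hz hρ hA hlam
  have hA0 : 0 < A := by linarith
  refine ⟨Real.exp (Fintype.card J * (2 * A * c * Real.exp lam)), fun y hy => ?_⟩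
  have hy3 : 3 ≤ y := by omega
  have hyr : (3 : ℝ) ≤ y := by exact_mod_cast hy3
  have hl : 0 < Real.log y := Real.log_pos (by linarith)
  set δ := lam / Real.log y with hδ
  have hδ0 : 0 ≤ δ := div_nonneg hlam hl.le
  have hc0 : (0 : ℝ) ≤ c := Nat.cast_nonneg c
  set h : ℕ → ℝ := fun p => (A * (((c : ℝ) / ((p : ℝ) - c)) / p)) * (p : ℝ) ^ δ with hh
  have hpc : ∀ p ∈ PS z y, (p : ℝ) / 2 ≤ (p : ℝ) - c ∧ (0 : ℝ) < p := by
    intro p hp
    have h1 := (mem_PS.1 hp).1.1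
    have h2 : 2 * (c : ℝ) ≤ p := by exact_mod_cast (by omega : 2 * c ≤ p)
    have h3 : (0 : ℝ) < p := by exact_mod_cast (mem_PS.1 hp).2.pos
    exact ⟨by linarith, h3⟩
  have hnn : ∀ p ∈ PS z y, 0 ≤ h p := by
    intro p hp
    obtain ⟨h1, h2⟩ := hpc p hp
    have h3 : 0 < (p : ℝ) - c := by linarith
    simp only [hh]
    positivity
  have e : ∀ v ∈ Tup J z y, (∏ j, A ^ (v j).primeFactors.card * (gp (ρ j) c (v j) / v j)) *
      (∏ j, (v j : ℝ)) ^ δ ≤ ∏ j, ∏ p ∈ (v j).primeFactors, h p := by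
    intro v hv
    have hPS : ∀ j, ∀ p ∈ (v j).primeFactors, p ∈ PS z y := by
      intro j p hp
      have hp' := Nat.prime_of_mem_primeFactors hp
      exact (prime_dvd_PP hp').1 ((Nat.dvd_of_mem_primeFactors hp).trans
        (Nat.dvd_of_mem_divisors (Pool.Agent.W591.RK2.mem_Tup' hv j)))
    rw [← Pool.Agent.W591.RK2.term hv δ]
    refine mul_le_mul_of_nonneg_right ?_ (Real.rpow_nonneg (prod_nonneg fun j _ =>
      Nat.cast_nonneg _) _)
    have hg0 : ∀ j, 0 ≤ gp (ρ j) c (v j) := by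
      intro j
      refine prod_nonneg fun p hp => ?_
      obtain ⟨h1, h2⟩ := hpc p (hPS j p hp)
      exact div_nonneg (hρ j p).1 (by linarith)
    refine prod_le_prod (fun j _ => ?_) fun j _ => ?_
    · exact mul_nonneg (pow_nonneg hA0.le _) (div_nonneg (hg0 j) (Nat.cast_nonneg _))
    have h1 : ∏ p ∈ (v j).primeFactors, (((c : ℝ) / ((p : ℝ) - c)) / p) =
        (∏ p ∈ (v j).primeFactors, (c : ℝ) / ((p : ℝ) - c)) /
          ∏ p ∈ (v j).primeFactors, (p : ℝ) := prod_div_distrib _ _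
    rw [prod_mul_distrib, prod_const, h1,
      ← Pool.Agent.W591.RK2.cast_eq (dv_squarefree (Pool.Agent.W591.RK2.mem_Tup' hv j))]
    refine mul_le_mul_of_nonneg_left ?_ (pow_nonneg hA0.le _)
    refine div_le_div_of_nonneg_right ?_ (Nat.cast_nonneg _)
    refine prod_le_prod (fun p hp => ?_) fun p hp => ?_
    · obtain ⟨h1, h2⟩ := hpc p (hPS j p hp)
      exact div_nonneg (hρ j p).1 (by linarith)
    · obtain ⟨h1, h2⟩ := hpc p (hPS j p hp)
      exact div_le_div_of_nonneg_right (hρ j p).2 (by linarith)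
  refine (sum_le_sum e).trans ((Pool.Agent.W591.RK2.gen J z y h hnn).trans
    (Real.exp_le_exp.2 (mul_le_mul_of_nonneg_left ?_ (Nat.cast_nonneg _))))
  have hb : ∀ p ∈ PS z y, h p ≤ 2 * A * c * Real.exp lam * (1 / (p : ℝ) ^ 2) := by
    intro p hp
    obtain ⟨h1, h2⟩ := hpc p hp
    have h3 : 0 < (p : ℝ) - c := by linarith
    have h4 : (p : ℝ) ^ δ ≤ Real.exp lam := by
      have h5 : (p : ℝ) ≤ y := by exact_mod_cast (mem_PS.1 hp).1.2
      calc (p : ℝ) ^ δ ≤ (y : ℝ) ^ δ := Real.rpow_le_rpow h2.le h5 hδ0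
        _ = Real.exp lam := by
          rw [Real.rpow_def_of_pos (by linarith), hδ]
          congr 1
          field_simp
    have h6 : A * (((c : ℝ) / ((p : ℝ) - c)) / p) ≤ 2 * A * c * (1 / (p : ℝ) ^ 2) := by
      have h7 : (c : ℝ) / ((p : ℝ) - c) ≤ 2 * c / p := by
        rw [div_le_div_iff₀ h3 h2]
        nlinarith
      have h8 : ((c : ℝ) / ((p : ℝ) - c)) / p ≤ (2 * c / p) / p :=
        div_le_div_of_nonneg_right h7 h2.le
      have h9 : (2 * (c : ℝ) / (p : ℝ)) / p = 2 * c * (1 / (p : ℝ) ^ 2) := by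
        field_simp
      rw [h9] at h8
      calc A * (((c : ℝ) / ((p : ℝ) - c)) / p) ≤ A * (2 * c * (1 / (p : ℝ) ^ 2)) :=
            mul_le_mul_of_nonneg_left h8 hA0.le
        _ = 2 * A * c * (1 / (p : ℝ) ^ 2) := by ring
    calc h p ≤ (2 * A * c * (1 / (p : ℝ) ^ 2)) * Real.exp lam :=
          mul_le_mul h6 h4 (by positivity) (by positivity)
      _ = _ := by ring
  calc ∑ p ∈ PS z y, h p ≤ ∑ p ∈ PS z y, 2 * A * c * Real.exp lam * (1 / (p : ℝ) ^ 2) :=
        sum_le_sum hb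
    _ = 2 * A * c * Real.exp lam * ∑ p ∈ PS z y, 1 / (p : ℝ) ^ 2 := by rw [mul_sum]
    _ ≤ 2 * A * c * Real.exp lam * 1 :=
        mul_le_mul_of_nonneg_left (Pool.Agent.W591.RK2.sum_sq_le z y (by omega)) (by positivity)
    _ = _ := mul_one _

theorem rup : RUP := by
  intro J _ _ A lam hA hlam
  have hA0 : 0 < A := by linarith
  obtain ⟨C, hC⟩ := Pool.Agent.W591.RK2.sum_inv_le
  refine ⟨Real.exp (Fintype.card J * (A * Real.exp (3 * lam) * C)), fun y Y hy hY => ?_⟩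
  have hyr : (3 : ℝ) ≤ y := by exact_mod_cast hy
  have hl : 0 < Real.log y := Real.log_pos (by linarith)
  set δ := lam / Real.log y with hδ
  have hδ0 : 0 ≤ δ := div_nonneg hlam hl.le
  set h : ℕ → ℝ := fun p => (A / (p : ℝ)) * (p : ℝ) ^ δ with hh
  have hnn : ∀ p ∈ PS y Y, 0 ≤ h p := by
    intro p hp
    simp only [hh]
    positivity
  have e : ∀ u ∈ Tup J y Y, (∏ j, A ^ (u j).primeFactors.card / (u j : ℝ)) *
      (∏ j, (u j : ℝ)) ^ δ = ∏ j, ∏ p ∈ (u j).primeFactors, h p := by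
    intro u hu
    rw [← Pool.Agent.W591.RK2.term hu δ]
    congr 1
    refine prod_congr rfl fun j _ => ?_
    rw [prod_div_distrib, prod_const,
      ← Pool.Agent.W591.RK2.cast_eq (dv_squarefree (Pool.Agent.W591.RK2.mem_Tup' hu j))]
  rw [sum_congr rfl e]
  refine (Pool.Agent.W591.RK2.gen J y Y h hnn).trans
    (Real.exp_le_exp.2 (mul_le_mul_of_nonneg_left ?_ (Nat.cast_nonneg _)))
  have hb : ∀ p ∈ PS y Y, h p ≤ A * Real.exp (3 * lam) * (1 / (p : ℝ)) := by
    intro p hp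
    have h2 : (0 : ℝ) < p := by exact_mod_cast (mem_PS.1 hp).2.pos
    have h4 : (p : ℝ) ^ δ ≤ Real.exp (3 * lam) := by
      have h5 : (p : ℝ) ≤ (((y + 1) ^ 2 : ℕ) : ℝ) := by
        exact_mod_cast (mem_PS.1 hp).1.2.trans hY
      calc (p : ℝ) ^ δ ≤ ((((y + 1) ^ 2 : ℕ) : ℝ)) ^ δ := Real.rpow_le_rpow h2.le h5 hδ0
        _ ≤ Real.exp (3 * lam) := by
          rw [Real.rpow_def_of_pos (by positivity)]
          refine Real.exp_le_exp.2 ?_
          calc Real.log (((y + 1) ^ 2 : ℕ) : ℝ) * δ ≤ 3 * Real.log y * δ :=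
                mul_le_mul_of_nonneg_right (Pool.Agent.W591.RK2.log_bd y hy) hδ0
            _ = 3 * lam := by
                rw [hδ]
                field_simp
    calc h p ≤ (A / (p : ℝ)) * Real.exp (3 * lam) :=
          mul_le_mul_of_nonneg_left h4 (by positivity)
      _ = _ := by ring
  calc ∑ p ∈ PS y Y, h p ≤ ∑ p ∈ PS y Y, A * Real.exp (3 * lam) * (1 / (p : ℝ)) :=
        sum_le_sum hb
    _ = A * Real.exp (3 * lam) * ∑ p ∈ PS y Y, 1 / (p : ℝ) := by rw [mul_sum]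
    _ ≤ A * Real.exp (3 * lam) * C := mul_le_mul_of_nonneg_left (hC y Y hy hY) (by positivity)

end Pool.Agent.TH841.PT.RVU
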