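import Mathlib
import Pool.Agent.TH841.PT.Stm4
import Pool.Agent.W125.RK2.SUBB

/-!
# Project PT: growth of `NBT`
-/

set_option autoImplicit false

namespace Pool.Agent.TH841.PT.SubT

open Finset Polynomial Pool.Agent.W262.RK Pool.Agent.TH841.PT

open Pool.Agent.W125.RK2 (sub4 NL_congr sum_inter)

lemma LT_neg {c : Fin 4} (hc : c ≠ 3) (e : Fin 3 → Bool) (m a b : Bool) :
    LT c e m a = LT c e m b := by
  funext v w h g
  unfold LT
  by_cases h0 : c = 0
  · simp [h0]
  · by_cases h1 : c = 1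
    · simp [h1]
    · by_cases h2 : c = 2
      · simp [h2]
      · exfalso
        fin_cases c <;> simp_all

lemma XC0 : ∀ (e0 : Bool) (a b c d a' b' c' d' : Bool),
    (a = b ∧ xor c d = (a && e0)) → (a' = b' ∧ xor c' d' = (a' && e0)) →
    (xor a a' = xor b b' ∧ xor (xor c c') (xor d d') = (xor a a' && e0)) := by decide

lemma XC1 : ∀ (e0 : Bool) (a b _ d a' b' _ d' : Bool),
    (b = false ∧ d = (a && e0)) → (b' = false ∧ d' = (a' && e0)) →
    (xor b b' = false ∧ xor d d' = (xor a a' && e0)) := by decide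

lemma XC2 : ∀ (e0 : Bool) (a b c _ a' b' c' _ : Bool),
    (a = false ∧ c = (b && e0)) → (a' = false ∧ c' = (b' && e0)) →
    (xor a a' = false ∧ xor c c' = (xor b b' && e0)) := by decide

lemma XC3a : ∀ (e0 e1 neg v w v' w' : Bool),
    xor (xor (v && neg) (xor (v && !w && e0) (xor (!v && w && xor e0 e1) (v && w && e1))))
      (xor (v' && neg) (xor (v' && !w' && e0) (xor (!v' && w' && xor e0 e1) (v' && w' && e1)))) =
    xor (xor v v' && neg) (xor (xor v v' && !(xor w w') && e0) (xor (!(xor v v') && xor w w' && xor e0 e1)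
      (xor v v' && xor w w' && e1))) := by decide

lemma XC3b : ∀ (e0 e2 m neg v w v' w' : Bool),
    xor (xor (w && neg) (xor (v && !w && xor e0 e2) (xor (!v && w && xor m e0) (v && w && xor m e2))))
      (xor (w' && neg) (xor (v' && !w' && xor e0 e2) (xor (!v' && w' && xor m e0) (v' && w' && xor m e2)))) =
    xor (xor w w' && neg) (xor (xor v v' && !(xor w w') && xor e0 e2) (xor (!(xor v v') && xor w w' && xor m e0)
      (xor v v' && xor w w' && xor m e2))) := by decide

lemma XC_LT (c : Fin 4) (e : Fin 3 → Bool) (m neg : Bool) : XC (LT c e m neg) := by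
  constructor
  · unfold LT
    split_ifs <;> simp
  · intro a b x d a' b' x' d' h h'
    unfold LT at h h' ⊢
    split_ifs at h h' ⊢ with h0 h1 h2
    · exact XC0 _ _ _ _ _ _ _ _ _ h h'
    · exact XC1 (e 0) a b x d a' b' x' d' h h'
    · exact XC2 (e 0) a b x d a' b' x' d' h h'
    · refine ⟨?_, ?_⟩
      · rw [h.1, h'.1]
        exact XC3a _ _ _ _ _ _ _
      · rw [h.2, h'.2]
        exact XC3b _ _ _ _ _ _ _ _

theorem subt : SUBT := by
  classical
  intro J _ _ cls ε z y _ s e hT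
  have h4 := sub4
  have hT' : (∀ j, s j * e j ∈ (PP z y).divisors) ∧
      ∀ i j, i ≠ j → (s i * e i).Coprime (s j * e j) := by
    unfold Tup at hT
    rw [mem_filter, Fintype.mem_piFinset] at hT
    exact hT
  have hsqj : ∀ j, Squarefree (s j * e j) := fun j => dv_squarefree (hT'.1 j)
  have hsq : ∀ U : Finset J, Squarefree (∏ j ∈ U, (s j * e j)) := by
    intro U
    apply Finset.squarefree_prod_of_pairwise_isCoprime
    · intro i _ j _ hij
      exact Nat.coprime_iff_isRelPrime.1 (hT'.2 i j hij)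
    · intro j _
      exact hsqj j
  have hsq2 : ∀ U : Finset J, Squarefree ((∏ j ∈ U, s j) * ∏ j ∈ U, e j) := by
    intro U
    rw [← Finset.prod_mul_distrib]
    exact hsq U
  have hs0 : ∀ j, s j ≠ 0 := fun j => left_ne_zero_of_mul (hsqj j).ne_zero
  have he0 : ∀ j, e j ≠ 0 := fun j => right_ne_zero_of_mul (hsqj j).ne_zero
  set P := P3 cls s with hP
  set Q := P3 cls e with hQ
  have hPQ : Disjoint P Q := by
    have h1 := Nat.coprime_of_squarefree_mul (hsq2 (univ.filter (fun j => cls j = 3)))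
    exact h1.disjoint_primeFactors
  have hPU : P3 cls (fun j => s j * e j) = P ∪ Q := by
    rw [hP, hQ]
    unfold P3
    rw [Finset.prod_mul_distrib]
    exact Nat.primeFactors_mul (prod_ne_zero_iff.2 fun j _ => hs0 j)
      (prod_ne_zero_iff.2 fun j _ => he0 j)
  have hprod : ∏ j, (s j * e j) = (∏ j, s j) * ∏ j, e j := Finset.prod_mul_distrib
  have hme : Squarefree ((∏ j, s j) * ∏ j, e j) := hsq2 univ
  -- primes dividing `∏ s`
  have hpr : ∀ p : ℕ, p.Prime → p ∣ ∏ j, s j → ∃ j0, p ∣ s j0 ∧ z < p := by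
    intro p hp h
    obtain ⟨j0, _, hj0⟩ := (hp.prime.dvd_finsetProd_iff _).1 h
    refine ⟨j0, hj0, ?_⟩
    exact (dv_prime (hT'.1 j0) hp (hj0.trans (Dvd.intro _ rfl))).1
  have hiff : ∀ p : ℕ, p.Prime → p ∣ ∏ j, s j → ∀ j, p ∣ s j * e j ↔ p ∣ s j := by
    intro p hp h j
    constructor
    · intro hj
      obtain ⟨j0, hj0, _⟩ := hpr p hp h
      by_cases hjj : j = j0
      · rw [hjj]
        exact hj0
      · exfalso
        have h1 := hT'.2 j j0 hjj
        have h2 : p ∣ (s j * e j).gcd (s j0 * e j0) := Nat.dvd_gcd hj (hj0.trans (Dvd.intro _ rfl))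
        rw [h1.gcd_eq_one] at h2
        exact hp.one_lt.ne' (Nat.dvd_one.1 h2)
    · intro hj
      exact hj.trans (Dvd.intro _ rfl)
  have hXC : ∀ E : Finset ℕ, ∀ p, p.Prime → p ∣ ∏ j, s j →
      XC (LTs cls ε (fun j => s j * e j) E p) := by
    intro E p _ _
    have h1 : ∀ j, XC (LT (cls j) (ε j) (sg0 p (-1)) (decide (p ∈ E))) := fun j => XC_LT _ _ _ _
    constructor
    · intro j _
      exact (h1 j).1
    · intro a b c d a' b' c' d' g g' j hj
      exact (h1 j).2 _ _ _ _ _ _ _ _ (g j hj) (g' j hj)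
  have hNL : ∀ E : Finset ℕ, NL (∏ j, s j) (LTs cls ε (fun j => s j * e j) E) =
      NL (∏ j, s j) (LTs cls ε s (E ∩ P)) := by
    intro E
    apply NL_congr
    intro p hp
    have hpp := Nat.prime_of_mem_primeFactors hp
    have hpd := Nat.dvd_of_mem_primeFactors hp
    funext v w h g
    unfold LTs
    apply propext
    apply forall_congr'
    intro j
    rw [hiff p hpp hpd j]
    apply imp_congr_right
    intro hj
    by_cases hc : cls j = 3
    · have hmem : p ∈ P := by
        rw [hP]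
        unfold P3
        rw [Nat.mem_primeFactors]
        refine ⟨hpp, hj.trans (dvd_prod_of_mem s (mem_filter.2 ⟨mem_univ _, hc⟩)), ?_⟩
        exact prod_ne_zero_iff.2 fun j _ => hs0 j
      have : (p ∈ E ∩ P) ↔ p ∈ E := by
        rw [mem_inter]
        exact ⟨fun h => h.1, fun h => ⟨h, hmem⟩⟩
      simp only [this]
    · rw [LT_neg hc (ε j) (sg0 p (-1)) (decide (p ∈ E)) (decide (p ∈ E ∩ P))]
  have hω : (∏ j, e j).primeFactors.card ≤ ∑ j, (e j).primeFactors.card := by
    have h1 : (∏ j, e j).primeFactors ⊆ univ.biUnion (fun j => (e j).primeFactors) := by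
      intro p hp
      rw [mem_biUnion]
      have hpp := Nat.prime_of_mem_primeFactors hp
      obtain ⟨j, _, hj⟩ := (hpp.prime.dvd_finsetProd_iff _).1 (Nat.dvd_of_mem_primeFactors hp)
      exact ⟨j, mem_univ _, Nat.mem_primeFactors.2 ⟨hpp, hj, he0 j⟩⟩
    exact (Finset.card_le_card h1).trans card_biUnion_le
  have hstep : ∀ E : Finset ℕ, (NL (∏ j, (s j * e j)) (LTs cls ε (fun j => s j * e j) E) : ℝ) ≤
      4 ^ (∑ j, (e j).primeFactors.card) * (NL (∏ j, s j) (LTs cls ε s (E ∩ P)) : ℝ) := by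
    intro E
    have h1 := h4 (∏ j, s j) (∏ j, e j) (LTs cls ε (fun j => s j * e j) E) hme (hXC E)
    rw [hNL E] at h1
    rw [hprod]
    have h2 : (NL ((∏ j, s j) * ∏ j, e j) (LTs cls ε (fun j => s j * e j) E) : ℝ) ≤
        4 ^ (∏ j, e j).primeFactors.card * (NL (∏ j, s j) (LTs cls ε s (E ∩ P)) : ℝ) := by
      exact_mod_cast h1
    refine h2.trans ?_
    apply mul_le_mul_of_nonneg_right _ (Nat.cast_nonneg _)
    exact pow_le_pow_right₀ (by norm_num) hω
  unfold NBT
  rw [hPU, ← hP, card_union_of_disjoint hPQ]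
  calc (1 / 2 : ℝ) ^ (P.card + Q.card) *
      ∑ E ∈ (P ∪ Q).powerset, (NL (∏ j, (s j * e j)) (LTs cls ε (fun j => s j * e j) E) : ℝ) ≤
      (1 / 2 : ℝ) ^ (P.card + Q.card) * ∑ E ∈ (P ∪ Q).powerset,
        4 ^ (∑ j, (e j).primeFactors.card) * (NL (∏ j, s j) (LTs cls ε s (E ∩ P)) : ℝ) := by
        apply mul_le_mul_of_nonneg_left _ (by positivity)
        exact Finset.sum_le_sum fun E _ => hstep E
    _ = 4 ^ (∑ j, (e j).primeFactors.card) * ((1 / 2 : ℝ) ^ P.card *
        ∑ E ∈ P.powerset, (NL (∏ j, s j) (LTs cls ε s E) : ℝ)) := by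
        rw [← Finset.mul_sum, sum_inter P Q hPQ (fun E => (NL (∏ j, s j) (LTs cls ε s E) : ℝ)),
          pow_add]
        have h2 : (1 / 2 : ℝ) ^ Q.card * 2 ^ Q.card = 1 := by
          rw [← mul_pow]
          norm_num
        linear_combination (4 ^ (∑ j, (e j).primeFactors.card) * ((1 / 2 : ℝ) ^ P.card *
          ∑ E ∈ P.powerset, (NL (∏ j, s j) (LTs cls ε s E) : ℝ))) * h2

end Pool.Agent.TH841.PT.SubT
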