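import Mathlib
import Pool.Agent.TH841.PT.Stm4
import Pool.Agent.H474R2.GE.FA

/-!
# PT-TWG: twisted sums with the symbols of a second polynomial
-/

set_option autoImplicit false

namespace Pool.Agent.TH841.PT.TWGf

open Finset Polynomial Pool.Agent.W262.RK Pool.Agent.TH841.PT

open Pool.Agent.H474R2.PG (rho Sg PR)

/-! ### Partial summation -/

/-- discrete partial summation -/
private theorem tw_abel (a : ℕ → ℝ) (κ : ℝ) (m : ℕ) (hm : 3 ≤ m)
    (hA : ∀ P : ℕ, 2 ≤ P → ∑ n ∈ Icc 1 P, a n ≤ Real.log P + κ)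
    (h0 : 0 ≤ ∑ n ∈ Icc 1 m, a n) (N : ℕ) (hN : m ≤ N) :
    ∑ n ∈ Ioc m N, a n / Real.log n ≤
      Real.log (Real.log N) - Real.log (Real.log m) + (1 + κ / Real.log m) := by
  have hlog : ∀ n : ℕ, 3 ≤ n → 0 < Real.log n := by
    intro n hn
    apply Real.log_pos
    exact_mod_cast (by omega : 1 < n)
  have key : ∀ N : ℕ, m ≤ N → ∑ n ∈ Ioc m N, a n / Real.log n +
      (Real.log N + κ - ∑ n ∈ Icc 1 N, a n) / Real.log N ≤
      Real.log (Real.log N) - Real.log (Real.log m) + (1 + κ / Real.log m) := by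
    intro N hN
    induction N, hN using Nat.le_induction with
    | base =>
      have hl := hlog m hm
      rw [Ioc_self, sum_empty, zero_add, sub_self, zero_add]
      have e1 : 1 + κ / Real.log m = (Real.log m + κ) / Real.log m := by
        field_simp
      rw [e1]
      apply div_le_div_of_nonneg_right _ hl.le
      linarith
    | succ N hN ih =>
      have hl := hlog N (by omega)
      have hl' := hlog (N + 1) (by omega)
      have hle : Real.log (N : ℝ) ≤ Real.log ((N + 1 : ℕ) : ℝ) := by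
        apply Real.log_le_log
        · exact_mod_cast (by omega : 0 < N)
        · push_cast; linarith
      have hD : 0 ≤ Real.log N + κ - ∑ n ∈ Icc 1 N, a n := by
        have := hA N (by omega)
        linarith
      have e1 : ∑ n ∈ Ioc m (N + 1), a n / Real.log n =
          ∑ n ∈ Ioc m N, a n / Real.log n + a (N + 1) / Real.log ((N + 1 : ℕ) : ℝ) := by
        rw [← Finset.insert_Ioc_right_eq_Ioc_add_one (by omega), sum_insert (by simp), add_comm]
      have e2 : ∑ n ∈ Icc 1 (N + 1), a n = ∑ n ∈ Icc 1 N, a n + a (N + 1) := by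
        rw [← Finset.insert_Icc_right_eq_Icc_add_one (by omega), sum_insert (by simp), add_comm]
      rw [e1, e2]
      set x := Real.log (N : ℝ) with hx
      set x' := Real.log ((N + 1 : ℕ) : ℝ) with hx'
      set A := ∑ n ∈ Icc 1 N, a n with hAd
      set S := ∑ n ∈ Ioc m N, a n / Real.log n with hS
      have e3 : a (N + 1) / x' + (x' + κ - (A + a (N + 1))) / x' =
          (x + κ - A) / x' + (x' - x) / x' := by
        field_simp
        ring
      have e4 : (x + κ - A) / x' ≤ (x + κ - A) / x := by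
        apply div_le_div_of_nonneg_left hD hl hle
      have e5 : (x' - x) / x' ≤ Real.log x' - Real.log x := by
        have h1 := Real.log_le_sub_one_of_pos (x := x / x') (by positivity)
        rw [Real.log_div hl.ne' hl'.ne'] at h1
        have h2 : (x' - x) / x' = 1 - x / x' := by
          field_simp
        rw [h2]
        linarith
      linarith
  have h1 := key N hN
  have hl := hlog N (by omega)
  have h2 : 0 ≤ (Real.log N + κ - ∑ n ∈ Icc 1 N, a n) / Real.log N := by
    apply div_nonneg _ hl.le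
    have := hA N (by omega)
    linarith
  linarith

/-! ### The symbols -/

private theorem tw_abs (a : ℤ) (n : ℕ) : |Jr a n| ≤ 1 := by
  unfold Jr
  rcases jacobiSym.trichotomy a n with h | h | h <;> rw [h] <;> norm_num

private theorem tw_rhoc_le (f g : ℤ[X]) (p : ℕ) : |rhoc f g p| ≤ rho f p := by
  unfold rhoc rho
  refine (Finset.abs_sum_le_sum_abs _ _).trans ?_
  refine (Finset.sum_le_sum fun a _ => tw_abs _ _).trans ?_
  simp

private theorem tw_rhoc_mul (f g : ℤ[X]) (d : ℤ) (p : ℕ) :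
    rhoc f g p * Jr d p = rhoc f (C d * g) p := by
  unfold rhoc
  rw [Finset.sum_mul]
  apply Finset.sum_congr rfl
  intro a _
  rw [eval_mul, eval_C]
  unfold Jr
  rw [jacobiSym.mul_left]
  push_cast
  ring

/-- the twist as a symbol modulo `p` -/
private theorem tw_rec (r : ℕ) (hr : Odd r) (e : Bool) : ∃ d : ℤ, (d = r ∨ d = -r) ∧
    ∀ p : ℕ, p.Prime → Odd p → Jr p r * x4 e p = Jr d p := by
  have hx : ∀ p : ℕ, Odd p → ((ZMod.χ₄ (p : ZMod 4) : ℤ)) * (ZMod.χ₄ (p : ZMod 4) : ℤ) = 1 := by
    intro p hp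
    rcases Nat.odd_mod_four_iff.mp (Nat.odd_iff.mp hp) with h | h
    · rw [ZMod.χ₄_nat_one_mod_four h]; norm_num
    · rw [ZMod.χ₄_nat_three_mod_four h]; norm_num
  rcases Nat.odd_mod_four_iff.mp (Nat.odd_iff.mp hr) with h4 | h4
  · -- r = 1 mod 4
    have hrec : ∀ p : ℕ, Odd p → jacobiSym p r = jacobiSym r p := fun p hp =>
      (jacobiSym.quadratic_reciprocity_one_mod_four h4 hp).symm
    cases e with
    | false =>
      refine ⟨r, Or.inl rfl, fun p _ hp => ?_⟩
      simp only [x4, Jr]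
      rw [hrec p hp]
      simp
    | true =>
      refine ⟨-r, Or.inr rfl, fun p _ hp => ?_⟩
      simp only [x4, Jr, if_true]
      rw [hrec p hp, jacobiSym.neg _ hp]
      push_cast
      ring
  · have hrec : ∀ p : ℕ, Odd p → jacobiSym p r = (ZMod.χ₄ (p : ZMod 4) : ℤ) * jacobiSym r p := by
      intro p hp
      rcases Nat.odd_mod_four_iff.mp (Nat.odd_iff.mp hp) with h | h
      · rw [ZMod.χ₄_nat_one_mod_four h, one_mul]
        exact jacobiSym.quadratic_reciprocity_one_mod_four h hr
      · rw [ZMod.χ₄_nat_three_mod_four h, neg_one_mul]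
        exact jacobiSym.quadratic_reciprocity_three_mod_four h h4
    cases e with
    | false =>
      refine ⟨-r, Or.inr rfl, fun p _ hp => ?_⟩
      simp only [x4, Jr]
      rw [hrec p hp, jacobiSym.neg _ hp]
      simp
    | true =>
      refine ⟨r, Or.inl rfl, fun p _ hp => ?_⟩
      simp only [x4, Jr, if_true]
      rw [hrec p hp]
      have := hx p hp
      have h2 : (((ZMod.χ₄ (p : ZMod 4) : ℤ)) : ℝ) * (((ZMod.χ₄ (p : ZMod 4) : ℤ)) : ℝ) = 1 := by
        exact_mod_cast this
      push_cast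
      calc (((ZMod.χ₄ (p : ZMod 4) : ℤ)) : ℝ) * ((jacobiSym r p : ℤ) : ℝ) *
            (((ZMod.χ₄ (p : ZMod 4) : ℤ)) : ℝ)
          = ((jacobiSym r p : ℤ) : ℝ) * ((((ZMod.χ₄ (p : ZMod 4) : ℤ)) : ℝ) *
            (((ZMod.χ₄ (p : ZMod 4) : ℤ)) : ℝ)) := by ring
        _ = ((jacobiSym r p : ℤ) : ℝ) := by rw [h2, mul_one]

/-- the sum over the primes in `(m, y]` -/
private theorem tw_upper (f g : ℤ[X]) (d : ℤ) (κ Cm : ℝ)
    (hT : ∀ P : ℕ, 2 ≤ P →
      ∑ p ∈ (Icc 1 P).filter Nat.Prime, ((rho f p : ℝ) + rhoc f (C d * g) p) * Real.log p / p ≤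
        Real.log P + κ)
    (hM : ∀ w : ℝ, 3 ≤ w → |Sg (rho f) w - Real.log (Real.log w)| ≤ Cm)
    (m : ℕ) (hm : 3 ≤ m) (y : ℕ) (hy : m ≤ y) :
    ∑ p ∈ PS m y, rhoc f (C d * g) p / (p : ℝ) ≤ 1 + κ / Real.log m + 2 * Cm := by
  set a : ℕ → ℝ := fun n => if n.Prime then
    ((rho f n : ℝ) + rhoc f (C d * g) n) * Real.log n / n else 0 with ha
  have ha0 : ∀ n, 0 ≤ a n := by
    intro n
    simp only [ha]
    split_ifs with h
    · have h1 := (abs_le.mp (tw_rhoc_le f (C d * g) n)).1
      have h2 : 0 ≤ Real.log n := Real.log_natCast_nonneg n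
      have h3 : 0 ≤ (rho f n : ℝ) + rhoc f (C d * g) n := by linarith
      positivity
    · exact le_rfl
  have hA : ∀ P : ℕ, 2 ≤ P → ∑ n ∈ Icc 1 P, a n ≤ Real.log P + κ := by
    intro P hP
    have := hT P hP
    rw [Finset.sum_filter] at this
    exact this
  have h1 := tw_abel a κ m hm hA (Finset.sum_nonneg fun n _ => ha0 n) y hy
  have h2 : ∑ n ∈ Ioc m y, a n / Real.log n =
      ∑ p ∈ PS m y, ((rho f p : ℝ) / p + rhoc f (C d * g) p / p) := by
    unfold PS
    rw [Finset.sum_filter]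
    apply Finset.sum_congr rfl
    intro n hn
    simp only [ha]
    split_ifs with h
    · have hl : Real.log n ≠ 0 := by
        have : 0 < Real.log n := Real.log_pos (by exact_mod_cast h.one_lt)
        exact this.ne'
      have hn0 : (n : ℝ) ≠ 0 := by exact_mod_cast h.ne_zero
      field_simp
    · simp
  rw [h2, Finset.sum_add_distrib] at h1
  have h3 : ∑ p ∈ PS m y, (rho f p : ℝ) / p = Sg (rho f) y - Sg (rho f) m := by
    unfold Sg PR
    rw [Nat.floor_natCast, Nat.floor_natCast, eq_sub_iff_add_eq, add_comm]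
    have hdis : Disjoint ((Icc 1 m).filter Nat.Prime) (PS m y) := by
      rw [Finset.disjoint_left]
      intro p hp hp'
      have h1 := (Finset.mem_Icc.mp (Finset.mem_filter.mp hp).1).2
      unfold PS at hp'
      have h2 := (Finset.mem_Ioc.mp (Finset.mem_filter.mp hp').1).1
      omega
    rw [← Finset.sum_union hdis]
    apply Finset.sum_congr _ fun _ _ => rfl
    ext p
    unfold PS
    simp only [Finset.mem_union, Finset.mem_filter, Finset.mem_Icc, Finset.mem_Ioc]
    constructor
    · rintro (⟨⟨h1, h2⟩, h3⟩ | ⟨⟨h1, h2⟩, h3⟩)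
      · exact ⟨⟨h1, by omega⟩, h3⟩
      · exact ⟨⟨by omega, h2⟩, h3⟩
    · rintro ⟨⟨h1, h2⟩, h3⟩
      by_cases h : p ≤ m
      · exact Or.inl ⟨⟨h1, h⟩, h3⟩
      · exact Or.inr ⟨⟨by omega, h2⟩, h3⟩
  have h4 := abs_le.mp (hM y (by exact_mod_cast (by omega : 3 ≤ y)))
  have h5 := abs_le.mp (hM m (by exact_mod_cast hm))
  rw [h3] at h1
  linarith [h4.1, h5.2]

theorem twg_of (h2 : M2G) (h3 : M3G) : TWG := by
  intro f hf hdeg g hfg
  have hprim : f.IsPrimitive := hf.isPrimitive hdeg.ne'
  have hirr : Irreducible (f.map (Int.castRingHom ℚ)) :=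
    (Polynomial.IsPrimitive.Int.irreducible_iff_irreducible_map_cast hprim).mp hf
  obtain ⟨K0, hK0⟩ := h2 f hirr g hfg
  obtain ⟨B, hB⟩ := h3 f hirr g hfg
  obtain ⟨Cm, hCm0, hCm⟩ := Pool.Agent.H474R2.GE.mertens_rho f hf hdeg
  set K : ℝ := max K0 0 with hK
  have hK1 : 0 ≤ K := le_max_right _ _
  refine ⟨1, max B 3, zero_le_one, fun z hz => ⟨Real.log 3 + Cm + (1 + K + 2 * Cm), ?_⟩⟩
  intro y r e hzy hr hsq hrp
  have hzB : B ≤ z := (le_max_left _ _).trans hz
  have hz3 : 3 ≤ z := (le_max_right _ _).trans hz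
  -- a prime factor of r
  obtain ⟨q, hq, hqr⟩ := Nat.exists_prime_and_dvd (show r ≠ 1 by omega)
  have hqz := hrp q hq hqr
  have hr3 : 3 ≤ r := by
    have := Nat.le_of_dvd (by omega) hqr
    omega
  have hrodd : Odd r := by
    by_contra hne
    have heven : Even r := Nat.not_odd_iff_even.mp hne
    have := hrp 2 Nat.prime_two heven.two_dvd
    omega
  obtain ⟨d, hd, hdJ⟩ := tw_rec r hrodd e
  have hd0 : d ≠ 0 := by
    rcases hd with h | h <;> rw [h]
    · exact_mod_cast (by omega : r ≠ 0)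
    · exact neg_ne_zero.mpr (by exact_mod_cast (by omega : r ≠ 0))
  have hdabs : |(d : ℝ)| = r := by
    rcases hd with h | h <;> rw [h] <;> push_cast
    · exact abs_of_nonneg (Nat.cast_nonneg r)
    · rw [abs_neg]; exact abs_of_nonneg (Nat.cast_nonneg r)
  have hNS : NSqg f g d := by
    apply hB d
    refine ⟨q, hq, by omega, ?_, ?_⟩
    · rcases hd with h | h <;> rw [h]
      · exact_mod_cast hqr
      · exact (dvd_neg).mpr (by exact_mod_cast hqr)
    · intro hdiv
      have h4 : q ^ 2 ∣ r := by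
        rcases hd with h | h <;> rw [h] at hdiv
        · exact_mod_cast hdiv
        · have := (dvd_neg).mp hdiv
          exact_mod_cast this
      have h5 : IsUnit q := hsq q (by rw [← sq]; exact h4)
      exact hq.one_lt.ne' (Nat.isUnit_iff.mp h5)
  -- the logarithm of r
  have hlr : 1 ≤ Real.log r := by
    have h1 : Real.exp 1 ≤ r := by
      have := Real.exp_one_lt_d9
      have h2 : (3 : ℝ) ≤ r := by exact_mod_cast hr3
      linarith
    have h2 := Real.log_le_log (Real.exp_pos 1) h1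
    rwa [Real.log_exp] at h2
  set b : ℝ := 1 + Real.log r with hb
  have hb2 : 2 ≤ b := by linarith
  set M0 : ℕ := ⌈Real.exp b⌉₊ with hM0
  have hM0a : Real.exp b ≤ M0 := Nat.le_ceil _
  have hM0b : (M0 : ℝ) ≤ Real.exp (b + 1) := by
    have h1 : (M0 : ℝ) < Real.exp b + 1 := Nat.ceil_lt_add_one (Real.exp_pos b).le
    have h2 : Real.exp (b + 1) = Real.exp b * Real.exp 1 := Real.exp_add _ _
    have h3 : (2 : ℝ) ≤ Real.exp 1 := by
      have := Real.exp_one_gt_d9
      linarith
    have h4 : 1 ≤ Real.exp b := Real.one_le_exp (by linarith)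
    nlinarith
  have hM03 : (3 : ℝ) ≤ M0 := by
    have h1 : b + 1 ≤ Real.exp b := Real.add_one_le_exp b
    linarith
  set m : ℕ := max z M0 with hm
  have hm3 : 3 ≤ m := hz3.trans (le_max_left _ _)
  have hmb : b ≤ Real.log m := by
    have h1 : Real.exp b ≤ m := hM0a.trans (by exact_mod_cast le_max_right z M0)
    have h2 := Real.log_le_log (Real.exp_pos b) h1
    rwa [Real.log_exp] at h2
  have hlm : 0 < Real.log m := by linarith
  -- the twisted sum
  have hsum : ∑ p ∈ PS z y, rhoc f g p * (Jr p r * x4 e p) / (p : ℝ) =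
      ∑ p ∈ PS z y, rhoc f (C d * g) p / (p : ℝ) := by
    apply Finset.sum_congr rfl
    intro p hp
    unfold PS at hp
    rw [Finset.mem_filter, Finset.mem_Ioc] at hp
    have hpodd : Odd p := hp.2.odd_of_ne_two (by omega)
    rw [hdJ p hp.2 hpodd, tw_rhoc_mul]
  rw [hsum]
  -- the primes up to M0
  have hsmall : ∀ s : Finset ℕ, s ⊆ (Icc 1 M0).filter Nat.Prime →
      ∑ p ∈ s, rhoc f (C d * g) p / (p : ℝ) ≤ Real.log (Real.log r) + Real.log 3 + Cm := by
    intro s hs
    have e1 : ∑ p ∈ s, rhoc f (C d * g) p / (p : ℝ) ≤ ∑ p ∈ s, (rho f p : ℝ) / (p : ℝ) := by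
      apply Finset.sum_le_sum
      intro p _
      apply div_le_div_of_nonneg_right _ (Nat.cast_nonneg p)
      exact (abs_le.mp (tw_rhoc_le f (C d * g) p)).2
    have e2 : ∑ p ∈ s, (rho f p : ℝ) / (p : ℝ) ≤ Sg (rho f) M0 := by
      unfold Sg PR
      rw [Nat.floor_natCast]
      exact Finset.sum_le_sum_of_subset_of_nonneg hs (fun p _ _ => by positivity)
    have e3 := (abs_le.mp (hCm M0 hM03)).2
    have e4 : Real.log (Real.log M0) ≤ Real.log (Real.log r) + Real.log 3 := by
      have h1 : Real.log M0 ≤ b + 1 := by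
        have := Real.log_le_log (by linarith) hM0b
        rwa [Real.log_exp] at this
      have h2 : 0 < Real.log M0 := Real.log_pos (by linarith)
      have h3 : Real.log (Real.log M0) ≤ Real.log (Real.log r * 3) := by
        apply Real.log_le_log h2
        linarith
      rwa [Real.log_mul (by linarith) (by norm_num)] at h3
    linarith
  have hll : 0 ≤ Real.log (Real.log r) := Real.log_nonneg hlr
  by_cases hym : y ≤ m
  · -- all primes are small
    have h1 : PS z y ⊆ (Icc 1 M0).filter Nat.Prime := by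
      intro p hp
      unfold PS at hp
      rw [Finset.mem_filter, Finset.mem_Ioc] at hp
      rw [Finset.mem_filter, Finset.mem_Icc]
      refine ⟨⟨hp.2.one_lt.le, ?_⟩, hp.2⟩
      have h5 : p ≤ max z M0 := hp.1.2.trans hym
      rcases le_max_iff.mp h5 with h6 | h6
      · omega
      · exact h6
    have h2 := hsmall _ h1
    linarith
  · push Not at hym
    have hsplit : PS z y = PS z m ∪ PS m y := by
      ext p
      unfold PS
      simp only [Finset.mem_union, Finset.mem_filter, Finset.mem_Ioc]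
      have hzm : z ≤ m := le_max_left _ _
      constructor
      · rintro ⟨⟨h1, h2⟩, h3⟩
        by_cases h : p ≤ m
        · exact Or.inl ⟨⟨h1, h⟩, h3⟩
        · exact Or.inr ⟨⟨by omega, h2⟩, h3⟩
      · rintro (⟨⟨h1, h2⟩, h3⟩ | ⟨⟨h1, h2⟩, h3⟩)
        · exact ⟨⟨h1, by omega⟩, h3⟩
        · exact ⟨⟨by omega, h2⟩, h3⟩
    have hdis : Disjoint (PS z m) (PS m y) := by
      rw [Finset.disjoint_left]
      intro p hp hp'
      unfold PS at hp hp'
      have h1 := (Finset.mem_Ioc.mp (Finset.mem_filter.mp hp).1).2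
      have h2 := (Finset.mem_Ioc.mp (Finset.mem_filter.mp hp').1).1
      omega
    rw [hsplit, Finset.sum_union hdis]
    have h1 : PS z m ⊆ (Icc 1 M0).filter Nat.Prime := by
      intro p hp
      unfold PS at hp
      rw [Finset.mem_filter, Finset.mem_Ioc] at hp
      rw [Finset.mem_filter, Finset.mem_Icc]
      refine ⟨⟨hp.2.one_lt.le, ?_⟩, hp.2⟩
      have h5 : p ≤ max z M0 := hp.1.2
      rcases le_max_iff.mp h5 with h6 | h6
      · omega
      · exact h6
    have h2 := hsmall _ h1
    have hT : ∀ P : ℕ, 2 ≤ P →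
        ∑ p ∈ (Icc 1 P).filter Nat.Prime, ((rho f p : ℝ) + rhoc f (C d * g) p) * Real.log p / p ≤
          Real.log P + K * b := by
      intro P hP
      have h5 := hK0 d hd0 hNS P hP
      rw [hdabs] at h5
      have h6 : K0 * (1 + Real.log r) ≤ K * b := by
        apply mul_le_mul_of_nonneg_right (le_max_left _ _)
        linarith
      linarith
    have h3 := tw_upper f g d (K * b) Cm hT hCm m hm3 y hym.le
    have h4 : K * b / Real.log m ≤ K := by
      rw [div_le_iff₀ hlm]
      exact mul_le_mul_of_nonneg_left hmb hK1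
    linarith

end Pool.Agent.TH841.PT.TWGf
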