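import Mathlib
import Pool.Agent.TH841.PT.Fact8
import Pool.Agent.TH841.PT.Stm4
import Pool.Agent.TH841.PT.Mak

/-!
# Project PT: `TWP` from `TWG`
-/

set_option autoImplicit false

namespace Pool.Agent.TH841.PT

open Finset Polynomial Pool.Agent.W262.RK

open Pool.Agent.H474R2.PG (rho)

lemma rhoc_C (f : ℤ[X]) (κ : ℤ) (p : ℕ) : rhoc f (C κ) p = rho f p * Jr κ p := by
  unfold rhoc rho
  simp only [eval_C]
  rw [sum_const, nsmul_eq_mul]

theorem twp_of_twg (hfac : FACT) (h : TWG) : TWP := by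
  classical
  intro D hD hd κ hκ
  obtain ⟨S, z1, hne, hS, hrho⟩ := hfac D hD hd
  have hndvd : ∀ f ∈ S, ¬ (f.map (Int.castRingHom ℚ)) ∣ (C κ : ℤ[X]).map (Int.castRingHom ℚ) := by
    intro f hf hdv
    rw [Polynomial.map_C] at hdv
    have h1 : IsUnit (C ((Int.castRingHom ℚ) κ) : ℚ[X]) := by
      rw [isUnit_C, isUnit_iff_ne_zero]
      simpa using hκ
    exact (hS f hf).2.2.not_isUnit (isUnit_of_dvd_unit hdv h1)
  have h' : ∀ f : S, ∃ (E0 : ℝ) (z0 : ℕ), 0 ≤ E0 ∧ ∀ z, z0 ≤ z → ∃ K : ℝ,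
      ∀ (y r : ℕ) (e : Bool), z < y → 1 < r → Squarefree r → (∀ p : ℕ, p.Prime → p ∣ r → z < p) →
        ∑ p ∈ PS z y, rhoc f.1 (C κ) p * (Jr p r * x4 e p) / (p : ℝ) ≤
          E0 * Real.log (Real.log r) + K := fun f =>
    h f.1 (hS f.1 f.2).1 (hS f.1 f.2).2.1 (C κ) (hndvd f.1 f.2)
  choose E0 z0 hE0 hz0 using h'
  refine ⟨∑ f, E0 f, z1 + univ.sup z0, sum_nonneg fun f _ => hE0 f, fun z hz => ?_⟩
  have hz' : ∀ f, z0 f ≤ z := fun f => (le_sup (f := z0) (mem_univ f)).trans (by omega)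
  choose K hK using fun f => hz0 f z (hz' f)
  refine ⟨∑ f, K f, fun y r e hy hr hsq hpr => ?_⟩
  have h1 : ∑ p ∈ PS z y, (rho D p : ℝ) * (Jr p r * Jr κ p * x4 e p) / (p : ℝ) =
      ∑ f : S, ∑ p ∈ PS z y, rhoc f.1 (C κ) p * (Jr p r * x4 e p) / (p : ℝ) := by
    rw [sum_comm]
    refine sum_congr rfl fun p hp => ?_
    have hp' := mem_filter.1 hp
    have hzp := (mem_Ioc.1 hp'.1).1
    rw [hrho p hp'.2 (by omega)]
    push_cast
    rw [← sum_coe_sort S (fun f => (rho f p : ℝ)), sum_mul, sum_div]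
    refine sum_congr rfl fun f _ => ?_
    rw [rhoc_C]
    ring
  rw [h1, sum_mul, ← sum_add_distrib]
  exact sum_le_sum fun f _ => hK f y r e hy hr hsq hpr

end Pool.Agent.TH841.PT
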