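import Mathlib
import Pool.Agent.TH841.PT.Fam3
import Pool.Agent.TH841.PT.Fam
import Pool.Agent.TH841.PT.Atg8
import Pool.Agent.TH841.PT.Twp8
import Pool.Agent.TH841.PT.LAD
import Pool.Agent.TH841.PT.M2AG
import Pool.Agent.TH841.PT.M2BG
import Pool.Agent.TH841.PT.M2CG
import Pool.Agent.TH841.PT.M3
import Pool.Agent.TH841.PT.M3G
import Pool.Agent.TH841.PT.TWG
import Pool.Agent.TH841.PT.GDP
import Pool.Agent.TH841.PT.LWP
import Pool.Agent.TH841.PT.CNTP
import Pool.Agent.TH841.PT.SVP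
import Pool.Agent.TH841.PT.RVU
import Pool.Agent.TH841.PT.ExpG
import Pool.Agent.TH841.PT.ExpT
import Pool.Agent.TH841.PT.SubT
import Pool.Agent.TH841.PT.Merge
import Pool.Agent.TH841.PT.ATG
import Pool.Agent.TH841.PT.ANTX
import Pool.Agent.TH841.PT.RSP
import Pool.Agent.TH841.PT.EFG
import Pool.Agent.W37.RK.BL2
import Pool.Agent.W505.RK.LS
import Pool.Agent.W655.RK.Blw
import Pool.Agent.W358.RK2.GR
import Pool.Agent.TH639.SL.Twist

/-!
# Project PT: assembly
-/

set_option autoImplicit false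

namespace Pool.Agent.TH841.PT

open Finset Polynomial Pool.Agent.W262.RK

open Pool.Agent.W307.SE (SN SN_nonneg)

theorem twg : TWG :=
  TWGf.twg_of (M2CGf.m2g_of (M2BGf.m2mg_of (M2AGf.m2ag_of LADf.lad))) (M3Gf.m3g_of M3f.m3)

theorem fact : FACT := fact8 GDPf.gdp

theorem twp : TWP := twp_of_twg fact twg

theorem blw : BLW := Pool.Agent.W655.RK.blw_of (_root_.W37.RK.bl_of Pool.Agent.W505.RK.ls)

theorem atg : ATG := ATG.atg_of blw EFG.epg EFG.fullg

theorem antx : ANTX := ANTXf.antx_of Pool.Agent.W358.RK2.gr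

theorem makp : MAKP := by
  intro D hD hd c k hc hk κ hκ
  exact makp_of atg ExpG.expg (LWPf.lwp_of fact) twp GDPf.gdp
    Pool.Agent.W12.RS.combk D hD hd c k hc hk κ hκ

/-- **the moments for the values of a squarefree polynomial** -/
theorem avsq : AVSQ SN := by
  intro a D k B ha ha2 hD hd hk
  exact avgp_big SN_nonneg (CNTPf.cntp_of SVPf.svp)
    (Pool.Agent.W307.SE.r4 Pool.Agent.TH639.SL.sel4b) antx RSPf.rsp RVU.rvp RVU.rup GDPf.gdp
    Pool.Agent.W925.RS.subbk makp a D k B ha ha2 hD hd hk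

theorem av3_of (hats : ATS) (hsel : SELX) (hcnt : CNTH) : AV3 := by
  intro J _ _ cls a f n B ha hf hn hrel
  exact avg3 hcnt hsel antx RSPf.rsp RVU.rvp RVU.rup SubT.subt hats MergeF.merge ExpT.expt twg
    GDPf.gdp cls a f n B ha hf hn hrel

end Pool.Agent.TH841.PT
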