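import Mathlib
import Pool.Agent.TH841.PT.ATS1
import Pool.Agent.W655.RK.Full

/-! Project PT: the abstract bound for sums of Jacobi symbols with signed weights
(adapted from `ATG.lean`). -/

set_option autoImplicit false

namespace Pool.Agent.TH841.PT.ATS8

open Finset Polynomial Pool.Agent.W262.RK Pool.Agent.W262.RK.AT Pool.Agent.TH841.PT

variable {ι : Type} [Fintype ι] [DecidableEq ι]

variable {σ g : ι → ℕ → ℝ} {L : ι → ι → Bool} {κ : ι → ℤ} {c z : ℕ} {C E0 : ℝ}

lemma gh_nonneg (hB : Bd σ g κ c z C E0) (k : ι) {y m : ℕ} (hm : m ∈ (PP z y).divisors) :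
    0 ≤ gp (g k) c m * hh m :=
  mul_nonneg (gp_nonneg (hB.w0 k) (by have := hB.zc; omega) hm) (hh_nonneg _)

lemma Sp_nonneg (hB : Bd σ g κ c z C E0) (k : ι) (y : ℕ) : 0 ≤ Sp (g k) z y := by
  unfold Sp
  exact sum_nonneg fun p _ => div_nonneg (hB.w0 k p) (Nat.cast_nonneg p)

/-- every cell -/
lemma cs_any (hB : Bd σ g κ c z C E0) {y : ℕ} (hy : z < y) (V Y : ℕ) (k : ι) (r : Fin 4) :
    ∑ m ∈ cell z y V Y r, gp (g k) c m * hh m ≤ C * Real.log y := by
  calc ∑ m ∈ cell z y V Y r, gp (g k) c m * hh m ≤ ∑ m ∈ (PP z y).divisors, gp (g k) c m * hh m :=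
        sum_le_sum_of_subset_of_nonneg (cell_sub _ _ _ _ _) fun m hm _ => gh_nonneg hB k hm
    _ ≤ C * Real.log y := hB.F0 k y hy

/-- the cells of the kinds 0, 1, 2 -/
lemma cs_low (hB : Bd σ g κ c z C E0) {y : ℕ} (hy : z < y) {V Y : ℕ} (hV : 3 ≤ V) (k : ι) {r : Fin 4}
    (hr : r ≠ 3) : ∑ m ∈ cell z y V Y r, gp (g k) c m * hh m ≤
      C * (if r = 2 then Real.exp (Sp (g k) z y) else Real.log V) := by
  by_cases h2 : r = 2
  · rw [if_pos h2]
    calc ∑ m ∈ cell z y V Y r, gp (g k) c m * hh m ≤ ∑ m ∈ (PP z y).divisors, gp (g k) c m * hh m :=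
          sum_le_sum_of_subset_of_nonneg (cell_sub _ _ _ _ _) fun m hm _ => gh_nonneg hB k hm
      _ ≤ C * Real.exp (Sp (g k) z y) := hB.F1 k y hy
  · rw [if_neg h2]
    have hsub : cell z y V Y r ⊆ (PP z y).divisors.filter (fun d => d ≤ V) := by
      intro m hm
      rw [mem_filter]
      refine ⟨cell_sub _ _ _ _ _ hm, ?_⟩
      have : r = 0 ∨ r = 1 := by
        fin_cases r
        · exact Or.inl rfl
        · exact Or.inr rfl
        · exact absurd rfl h2
        · exact absurd rfl hr
      rcases this with h | h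
      · subst h
        have := cell_zero hm
        omega
      · subst h
        exact (cell_one hm).2
    calc ∑ m ∈ cell z y V Y r, gp (g k) c m * hh m
        ≤ ∑ m ∈ (PP z y).divisors.filter (fun d => d ≤ V), gp (g k) c m * hh m :=
          sum_le_sum_of_subset_of_nonneg hsub fun m hm _ => gh_nonneg hB k (mem_filter.1 hm).1
      _ ≤ C * Real.log V := hB.F2 k y V hy (by omega)

/-- product of the sums over cells of kinds 0, 1, 2 -/
lemma prod_low (hB : Bd σ g κ c z C E0) {y : ℕ} (hy : z < y) {V Y : ℕ} (hV : 3 ≤ V) (π : ι → Fin 4)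
    (s : Finset ι) (hs : ∀ k ∈ s, π k ≠ 3) :
    ∏ k ∈ s, ∑ m ∈ cell z y V Y (π k), gp (g k) c m * hh m ≤
      C ^ (Fintype.card ι) * Real.exp (∑ k ∈ s.filter (fun k => π k = 2), Sp (g k) z y) *
        (Real.log V) ^ (Fintype.card ι) := by
  have hC0 : 0 ≤ C := zero_le_one.trans hB.C1
  have hlV : 1 ≤ Real.log V := by
    rw [Real.le_log_iff_exp_le (by exact_mod_cast (by omega : 0 < V))]
    have h1 : (3 : ℝ) ≤ V := by exact_mod_cast hV
    have h2 := Real.exp_one_lt_d9
    linarith
  have hcard : s.card ≤ Fintype.card ι := (card_le_card (subset_univ s)).trans (le_of_eq card_univ)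
  calc ∏ k ∈ s, ∑ m ∈ cell z y V Y (π k), gp (g k) c m * hh m
      ≤ ∏ k ∈ s, (C * (if π k = 2 then Real.exp (Sp (g k) z y) else Real.log V)) := by
        apply prod_le_prod
        · intro k _
          exact sum_nonneg fun m hm => gh_nonneg hB k (cell_sub _ _ _ _ _ hm)
        · intro k hk
          exact cs_low hB hy hV k (hs k hk)
    _ = C ^ s.card * ((∏ k ∈ s.filter (fun k => π k = 2), Real.exp (Sp (g k) z y)) *
          ∏ k ∈ s.filter (fun k => ¬ π k = 2), Real.log V) := by
        rw [prod_mul_distrib, prod_const, prod_ite]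
    _ ≤ C ^ (Fintype.card ι) * (Real.exp (∑ k ∈ s.filter (fun k => π k = 2), Sp (g k) z y) *
          (Real.log V) ^ (Fintype.card ι)) := by
        apply mul_le_mul (pow_le_pow_right₀ hB.C1 hcard) _ _ (by positivity)
        · apply mul_le_mul
          · rw [← Real.exp_sum]
          · rw [prod_const]
            exact pow_le_pow_right₀ hlV ((card_filter_le _ _).trans hcard)
          · positivity
          · positivity
        · apply mul_nonneg
          · exact prod_nonneg fun _ _ => by positivity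
          · exact prod_nonneg fun _ _ => by positivity
    _ = _ := by ring

/-- a huge variable -/
lemma tail_case (hB : Bd σ g κ c z C E0) (A : ℕ) {M : ℕ → ℝ} (hM : ∀ y, z < y → 0 ≤ M y)
    (π : ι → Fin 4) {k : ι} (hk : π k = 3) : ∃ C' : ℝ, ∀ y, z < y →
      |∑ d ∈ Fintype.piFinset (fun b => cell z y (VV A (Real.log y)) (YY A (Real.log y)) (π b)),
        HG σ L κ c d| ≤ C' * Real.exp (M y) := by
  have hcz : c ≤ z := by have := hB.zc; omega
  have hC0 : 0 ≤ C := zero_le_one.trans hB.C1
  refine ⟨C ^ (Fintype.card ι + 1) * (Fintype.card ι + 2).factorial, fun y hy => ?_⟩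
  have hly := one_le_log hB.z2 hy
  have hly0 : 0 < Real.log y := by linarith
  set l := Real.log y with hl
  set V := VV A l with hV
  set Y := YY A l with hY
  refine (triv hB.ab hB.w0 hcz fun i => cell_sub _ _ _ _ _).trans ?_
  have h1 : ∏ i, ∑ m ∈ cell z y V Y (π i), gp (g i) c m ≤
      ∏ i, ∑ m ∈ cell z y V Y (π i), gp (g i) c m * hh m := by
    apply prod_le_prod
    · intro i _
      exact sum_nonneg fun m hm => gp_nonneg (hB.w0 i) hcz (cell_sub _ _ _ _ _ hm)
    · intro i _
      exact sum_le_sum fun m hm => gp_le_hh hB i (cell_sub _ _ _ _ _ hm)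
  refine h1.trans ?_
  rw [← mul_prod_erase univ _ (mem_univ k), hk]
  have h2 : ∑ m ∈ cell z y V Y 3, gp (g k) c m * hh m ≤ C * Real.exp (-l) * l ^ 2 := by
    have hV3 := three_le_VV A l
    have hVY := VV_le_YY A l
    calc ∑ m ∈ cell z y V Y 3, gp (g k) c m * hh m
        ≤ ∑ m ∈ (PP z y).divisors.filter (fun d => Y < d), gp (g k) c m * hh m := by
          apply sum_le_sum_of_subset_of_nonneg
          · intro m hm
            rw [mem_filter]
            exact ⟨cell_sub _ _ _ _ _ hm, cell_three hm⟩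
          · intro m hm _
            exact gh_nonneg hB k (mem_filter.1 hm).1
      _ ≤ C * Real.exp (-(Real.log Y / Real.log y)) * (Real.log y) ^ 2 :=
          hB.F3 k y Y hy (by omega)
      _ ≤ C * Real.exp (-l) * l ^ 2 := by
          apply mul_le_mul_of_nonneg_right _ (by positivity)
          apply mul_le_mul_of_nonneg_left _ hC0
          apply Real.exp_le_exp.2
          rw [neg_le_neg_iff, le_div_iff₀ hly0]
          have := log_YY_ge A l
          nlinarith
  have h3 : ∏ b ∈ univ.erase k, ∑ m ∈ cell z y V Y (π b), gp (g b) c m * hh m ≤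
      (C * l) ^ (Fintype.card ι) := by
    have hCl : 1 ≤ C * l := by nlinarith [hB.C1]
    calc _ ≤ ∏ b ∈ univ.erase k, (C * l) := by
          apply prod_le_prod
          · intro b _
            exact sum_nonneg fun m hm => gh_nonneg hB b (cell_sub _ _ _ _ _ hm)
          · intro b _
            exact cs_any hB hy V Y b (π b)
      _ = (C * l) ^ (univ.erase k).card := by rw [prod_const]
      _ ≤ _ := by
          apply pow_le_pow_right₀ hCl
          exact (card_le_card (erase_subset _ _)).trans (le_of_eq card_univ)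
  have h4 : 1 ≤ Real.exp (M y) := Real.one_le_exp (hM y hy)
  have h5 := exp_neg_pow (Fintype.card ι + 2) hly
  calc _ ≤ C * Real.exp (-l) * l ^ 2 * (C * l) ^ (Fintype.card ι) := by
        apply mul_le_mul h2 h3 _ (by positivity)
        exact prod_nonneg fun b _ => sum_nonneg fun m hm => gh_nonneg hB b (cell_sub _ _ _ _ _ hm)
    _ = C ^ (Fintype.card ι + 1) * (Real.exp (-l) * l ^ (Fintype.card ι + 2)) := by ring
    _ ≤ C ^ (Fintype.card ι + 1) * (Fintype.card ι + 2).factorial :=
        mul_le_mul_of_nonneg_left h5 (by positivity)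
    _ ≤ _ := le_mul_of_one_le_right (by positivity) h4

/-- two linked large variables -/
lemma link_case (hB : Bd σ g κ c z C E0) {C2 : ℝ} {E2 : ℕ} (hC2 : 0 ≤ C2) (h2 : BW C2 E2)
    (hL : ∀ i, L i i = false) {A : ℕ} (hA : 6 * (Fintype.card ι + 2 * E2) ≤ A) {M : ℕ → ℝ}
    (hM : ∀ y, z < y → 0 ≤ M y)
    (π : ι → Fin 4) {i j : ι} (hi : π i = 2) (hj : π j = 2) (hij : L i j ≠ L j i) :
    ∃ C' : ℝ, ∀ y, z < y →
      |∑ d ∈ Fintype.piFinset (fun b => cell z y (VV A (Real.log y)) (YY A (Real.log y)) (π b)),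
        HG σ L κ c d| ≤ C' * Real.exp (M y) := by
  have hC0 : 0 ≤ C := zero_le_one.trans hB.C1
  refine ⟨C ^ (Fintype.card ι) * C2 * (A + 3) ^ E2, fun y hy => ?_⟩
  have hly := one_le_log hB.z2 hy
  have hly0 : 0 < Real.log y := by linarith
  set l := Real.log y with hl
  set V := VV A l with hV
  set Y := YY A l with hY
  have hV3 : 3 ≤ V := three_le_VV A l
  have hVY : V ≤ Y := VV_le_YY A l
  have hne : i ≠ j := by rintro rfl; exact hij rfl
  have hc2 : ∀ b, π b = 2 → cell z y V Y (π b) = lg z y V Y := fun b hb => by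
    rw [hb]; exact cell_two (by omega)
  have hmain : |∑ d ∈ Fintype.piFinset (fun b => cell z y V Y (π b)), HG σ L κ c d| ≤
      (C * l) ^ (Fintype.card ι) * (C2 * (Real.log Y) ^ E2 * (V : ℝ) ^ (-(1 / 6 : ℝ))) := by
    rcases h1 : L i j with _ | _
    · rcases h1' : L j i with _ | _
      · rw [h1, h1'] at hij; exact absurd rfl hij
      · exact pair_case hB hC2 h2 hne.symm (hL j) h1' h1 hy (by omega) hVY
          (fun b => cell_sub _ _ _ _ _) (hc2 j hj) (hc2 i hi)
    · rcases h1' : L j i with _ | _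
      · exact pair_case hB hC2 h2 hne (hL i) h1 h1' hy (by omega) hVY
          (fun b => cell_sub _ _ _ _ _) (hc2 i hi) (hc2 j hj)
      · rw [h1, h1'] at hij; exact absurd rfl hij
  refine hmain.trans ?_
  have h3 : Real.log Y ≤ (A + 3) * l ^ 2 := log_YY_le hly
  have h3' : 0 ≤ Real.log Y := Real.log_natCast_nonneg Y
  have h4 : (V : ℝ) ^ (-(1 / 6 : ℝ)) ≤ (l ^ (Fintype.card ι + 2 * E2))⁻¹ := by
    have h5 : l ^ (6 * (Fintype.card ι + 2 * E2)) ≤ V :=
      (pow_le_pow_right₀ hly hA).trans (VV_ge A l)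
    have h6 : (0 : ℝ) < l ^ (6 * (Fintype.card ι + 2 * E2)) := by positivity
    have h7 : (V : ℝ) ^ (-(1 / 6 : ℝ)) ≤ (l ^ (6 * (Fintype.card ι + 2 * E2))) ^ (-(1 / 6 : ℝ)) :=
      Real.rpow_le_rpow_of_nonpos h6 h5 (by norm_num)
    refine h7.trans (le_of_eq ?_)
    rw [← Real.rpow_natCast l, ← Real.rpow_mul hly0.le, ← Real.rpow_natCast l,
      ← Real.rpow_neg hly0.le]
    congr 1
    push_cast
    ring
  have h8 : (1 : ℝ) ≤ Real.exp (M y) := Real.one_le_exp (hM y hy)
  calc (C * l) ^ (Fintype.card ι) * (C2 * (Real.log Y) ^ E2 * (V : ℝ) ^ (-(1 / 6 : ℝ)))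
      ≤ (C * l) ^ (Fintype.card ι) * (C2 * ((A + 3) * l ^ 2) ^ E2 *
          (l ^ (Fintype.card ι + 2 * E2))⁻¹) := by
        apply mul_le_mul_of_nonneg_left _ (by positivity)
        apply mul_le_mul _ h4 (by positivity) (by positivity)
        exact mul_le_mul_of_nonneg_left (pow_le_pow_left₀ h3' h3 _) hC2
    _ = C ^ (Fintype.card ι) * C2 * (A + 3) ^ E2 := by
        rw [mul_pow, mul_pow, ← pow_mul, pow_add]
        field_simp
    _ ≤ _ := le_mul_of_one_le_right (by positivity) h8

/-- one more variable is not linked to the large variables: the trivial bound -/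
lemma triv_case (hB : Bd σ g κ c z C E0) (A : ℕ) {M : ℕ → ℝ} {δ C0 : ℝ} (hδ : 0 < δ) (π : ι → Fin 4)
    (h3 : ∀ k, π k ≠ 3) (j : ι)
    (hlow : ∀ y, z < y → δ * Real.log (Real.log y) ≤ Sp (g j) z y + C0)
    (hM : ∀ y, z < y → Sp (g j) z y + ∑ k ∈ univ.filter (fun k => π k = 2), Sp (g k) z y ≤ M y) :
    ∃ C' : ℝ, ∀ y, z < y →
      |∑ d ∈ Fintype.piFinset (fun b => cell z y (VV A (Real.log y)) (YY A (Real.log y)) (π b)),
        HG σ L κ c d| ≤ C' * Real.exp (M y) := by
  have hcz : c ≤ z := by have := hB.zc; omega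
  have hC0 : 0 ≤ C := zero_le_one.trans hB.C1
  obtain ⟨C1, hC1, h1⟩ := log_VV_pow_le A (Fintype.card ι) hδ
  refine ⟨C ^ (Fintype.card ι) * C1 * Real.exp C0, fun y hy => ?_⟩
  have hly := one_le_log hB.z2 hy
  have hly0 : 0 < Real.log y := by linarith
  have hlow' := hlow y hy
  have hM' := hM y hy
  set S := ∑ k ∈ univ.filter (fun k => π k = 2), Sp (g k) z y with hS
  set l := Real.log y with hl
  set V := VV A l with hV
  set Y := YY A l with hY
  refine (triv hB.ab hB.w0 hcz fun i => cell_sub _ _ _ _ _).trans ?_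
  have e1 : ∏ i, ∑ m ∈ cell z y V Y (π i), gp (g i) c m ≤
      ∏ i, ∑ m ∈ cell z y V Y (π i), gp (g i) c m * hh m := by
    apply prod_le_prod
    · intro i _
      exact sum_nonneg fun m hm => gp_nonneg (hB.w0 i) hcz (cell_sub _ _ _ _ _ hm)
    · intro i _
      exact sum_le_sum fun m hm => gp_le_hh hB i (cell_sub _ _ _ _ _ hm)
  refine e1.trans ((prod_low hB hy (three_le_VV A l) π univ fun k _ => h3 k).trans ?_)
  rw [← hS]
  have h2 : l ^ δ ≤ Real.exp (Sp (g j) z y + C0) := by
    rw [Real.rpow_def_of_pos hly0]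
    apply Real.exp_le_exp.2
    linarith
  calc C ^ (Fintype.card ι) * Real.exp S * (Real.log V) ^ (Fintype.card ι)
      ≤ C ^ (Fintype.card ι) * Real.exp S * (C1 * l ^ δ) :=
        mul_le_mul_of_nonneg_left (h1 l hly) (by positivity)
    _ ≤ C ^ (Fintype.card ι) * Real.exp S * (C1 * Real.exp (Sp (g j) z y + C0)) := by
        apply mul_le_mul_of_nonneg_left _ (by positivity)
        exact mul_le_mul_of_nonneg_left h2 hC1
    _ = C ^ (Fintype.card ι) * C1 * Real.exp C0 * Real.exp (Sp (g j) z y + S) := by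
        rw [Real.exp_add, Real.exp_add]; ring
    _ ≤ _ := by
        apply mul_le_mul_of_nonneg_left _ (by positivity)
        exact Real.exp_le_exp.2 hM'

/-- all variables are 1 or large and unlinked -/
lemma diag_case (hB : Bd σ g κ c z C E0) (A : ℕ) {M : ℕ → ℝ} (π : ι → Fin 4)
    (h3 : ∀ k, π k = 0 ∨ π k = 2)
    (hM : ∀ y, z < y → ∑ k ∈ univ.filter (fun k => π k = 2), Sp (g k) z y ≤ M y) :
    ∃ C' : ℝ, ∀ y, z < y →
      |∑ d ∈ Fintype.piFinset (fun b => cell z y (VV A (Real.log y)) (YY A (Real.log y)) (π b)),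
        HG σ L κ c d| ≤ C' * Real.exp (M y) := by
  have hcz : c ≤ z := by have := hB.zc; omega
  have hC0 : 0 ≤ C := zero_le_one.trans hB.C1
  refine ⟨C ^ (Fintype.card ι), fun y hy => ?_⟩
  set l := Real.log y with hl
  set V := VV A l with hV
  set Y := YY A l with hY
  refine (triv hB.ab hB.w0 hcz fun i => cell_sub _ _ _ _ _).trans ?_
  have e1 : ∀ k ∈ (univ : Finset ι), ∑ m ∈ cell z y V Y (π k), gp (g k) c m ≤
      C * (if π k = 2 then Real.exp (Sp (g k) z y) else 1) := by
    intro k _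
    rcases h3 k with h | h
    · rw [h, if_neg (by decide)]
      calc ∑ m ∈ cell z y V Y 0, gp (g k) c m ≤ ∑ m ∈ ({1} : Finset ℕ), gp (g k) c m := by
            apply sum_le_sum_of_subset_of_nonneg
            · intro m hm
              rw [mem_singleton]
              exact cell_zero hm
            · intro m hm _
              rw [mem_singleton] at hm
              rw [hm, gp_one]
              exact zero_le_one
        _ ≤ C * 1 := by
            rw [sum_singleton, gp_one, mul_one]
            exact hB.C1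
    · rw [if_pos h]
      calc ∑ m ∈ cell z y V Y (π k), gp (g k) c m ≤ ∑ m ∈ cell z y V Y (π k), gp (g k) c m * hh m :=
            sum_le_sum fun m hm => gp_le_hh hB k (cell_sub _ _ _ _ _ hm)
        _ ≤ ∑ m ∈ (PP z y).divisors, gp (g k) c m * hh m :=
            sum_le_sum_of_subset_of_nonneg (cell_sub _ _ _ _ _) fun m hm _ => gh_nonneg hB k hm
        _ ≤ _ := hB.F1 k y hy
  calc ∏ k, ∑ m ∈ cell z y V Y (π k), gp (g k) c m
      ≤ ∏ k, (C * (if π k = 2 then Real.exp (Sp (g k) z y) else 1)) := by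
        apply prod_le_prod _ e1
        intro k _
        exact sum_nonneg fun m hm => gp_nonneg (hB.w0 k) hcz (cell_sub _ _ _ _ _ hm)
    _ = C ^ (Fintype.card ι) *
          Real.exp (∑ k ∈ univ.filter (fun k => π k = 2), Sp (g k) z y) := by
        rw [prod_mul_distrib, prod_const, prod_ite, prod_const_one, mul_one,
          ← Real.exp_sum, card_univ]
    _ ≤ _ := by
        apply mul_le_mul_of_nonneg_left _ (by positivity)
        exact Real.exp_le_exp.2 (hM y hy)

/-- unlinked large variables and a small variable different from 1 linked to one of them -/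
lemma max_case (hB : Bd σ g κ c z C E0) (hL : ∀ i, L i i = false) (A : ℕ) {M : ℕ → ℝ} {δ C0 : ℝ}
    (hδ : 0 < δ) (π : ι → Fin 4)
    (h3 : ∀ k, π k ≠ 3) {i j : ι} (hi : π i = 2) (hj : π j = 1) (hij : L i j ≠ L j i)
    (hun : ∀ k, π k = 2 → L i k = L k i)
    (hlow : ∀ y, z < y → δ * Real.log (Real.log y) ≤ Sp (g i) z y + C0)
    (hM : ∀ y, z < y → ∑ k ∈ univ.filter (fun k => π k = 2), Sp (g k) z y ≤ M y) :
    ∃ C' : ℝ, ∀ y, z < y →
      |∑ d ∈ Fintype.piFinset (fun b => cell z y (VV A (Real.log y)) (YY A (Real.log y)) (π b)),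
        HG σ L κ c d| ≤ C' * Real.exp (M y) := by
  have hC0 : 0 ≤ C := zero_le_one.trans hB.C1
  have hne : j ≠ i := by rintro rfl; exact hij rfl
  set m := Fintype.card ι with hm
  obtain ⟨N0, hN0⟩ := exists_nat_ge E0
  obtain ⟨C1, hC1, h1⟩ := log_VV_pow_le A (m + N0 + 1) (show 0 < δ / 2 by positivity)
  refine ⟨C ^ m * C1 * (C * ((m : ℝ) + 1) ^ N0 + C + C * 2) * Real.exp (C0 / 2), fun y hy => ?_⟩
  have hly := one_le_log hB.z2 hy
  have hly0 : 0 < Real.log y := by linarith
  have hlow' := hlow y hy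
  have hM' := hM y hy
  set S := ∑ k ∈ univ.filter (fun k => π k = 2), Sp (g k) z y with hS
  set l := Real.log y with hl
  set V := VV A l with hV
  set Y := YY A l with hY
  have hV3 : 3 ≤ V := three_le_VV A l
  have hVY : V ≤ Y := VV_le_YY A l
  have hlV : 1 ≤ Real.log V := one_le_log_VV A l
  have hcase := char_case (L := L) hB i (hL i) (V := V) (Y := Y) hy (by omega) hVY
    (t := fun b => cell z y V Y (π b)) (fun b => cell_sub _ _ _ _ _)
    (by simp only [hi]; exact cell_two (by omega)) m (by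
      intro e he
      have hmem : ∀ b, b ≠ i → e b ∈ cell z y V Y (π b) := by
        intro b hb
        have := Fintype.mem_piFinset.1 he b
        rwa [Function.update_of_ne hb] at this
      have hjf : j ∈ (univ.erase i).filter (fun b => L i b ≠ L b i) := by
        rw [mem_filter, mem_erase]
        exact ⟨⟨hne, mem_univ j⟩, hij⟩
      have hje : 1 < e j ∧ e j ≤ V := by
        have := hmem j hne
        rw [hj] at this
        exact cell_one this
      have hpos : ∀ b ∈ (univ.erase i).filter (fun b => L i b ≠ L b i), 0 < e b ∧ e b ≤ V := by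
        intro b hb
        rw [mem_filter, mem_erase] at hb
        have hm := hmem b hb.1.1
        refine ⟨dv_pos (cell_sub _ _ _ _ _ hm), ?_⟩
        have h2 : π b ≠ 2 := fun h => hb.2 (hun b h)
        have : π b = 0 ∨ π b = 1 := by
          have h3b := h3 b
          revert h2 h3b
          generalize π b = r
          revert r
          decide
        rcases this with h | h
        · rw [h] at hm
          have := cell_zero hm
          omega
        · rw [h] at hm
          exact (cell_one hm).2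
      constructor
      · unfold lk
        rw [← mul_prod_erase _ _ hjf]
        have : 0 < ∏ b ∈ ((univ.erase i).filter (fun b => L i b ≠ L b i)).erase j, e b :=
          prod_pos fun b hb => (hpos b (mem_erase.1 hb).2).1
        nlinarith [hje.1]
      · unfold lk
        calc ∏ b ∈ (univ.erase i).filter (fun b => L i b ≠ L b i), e b
            ≤ ∏ b ∈ (univ.erase i).filter (fun b => L i b ≠ L b i), V :=
              prod_le_prod' fun b hb => (hpos b hb).2
          _ = V ^ ((univ.erase i).filter (fun b => L i b ≠ L b i)).card := by rw [prod_const]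
          _ ≤ V ^ m := Nat.pow_le_pow_right (by omega)
              ((card_le_card (subset_univ _)).trans (le_of_eq card_univ)))
  refine hcase.trans ?_
  have hPL := prod_low hB hy (V := V) (Y := Y) hV3 π (univ.erase i) fun k _ => h3 k
  have hsum : ∑ k ∈ (univ.erase i).filter (fun k => π k = 2), Sp (g k) z y = S - Sp (g i) z y := by
    have : (univ.erase i).filter (fun k => π k = 2) = (univ.filter (fun k => π k = 2)).erase i := by
      ext k
      simp only [mem_filter, mem_erase, mem_univ, and_true, true_and]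
    rw [this, hS, ← add_sum_erase _ _ (show i ∈ univ.filter (fun k => π k = 2) by
      rw [mem_filter]; exact ⟨mem_univ i, hi⟩)]
    ring
  rw [hsum] at hPL
  have hSi : 0 ≤ Sp (g i) z y := Sp_nonneg hB i y
  set Si := Sp (g i) z y with hSid
  have hex1 : 1 ≤ Real.exp (1 / 2 * Si) := Real.one_le_exp (by positivity)
  have hlY : l ≤ Real.log Y / l := by
    rw [le_div_iff₀ hly0]
    have := log_YY_ge A l
    nlinarith
  have hm0 : (0 : ℝ) ≤ m := Nat.cast_nonneg m
  have hVN : Real.log V ≤ (Real.log V) ^ (N0 + 1) := by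
    calc Real.log V = (Real.log V) ^ 1 := (pow_one _).symm
      _ ≤ (Real.log V) ^ (N0 + 1) := pow_le_pow_right₀ hlV (by omega)
  have hVN1 : 1 ≤ (Real.log V) ^ (N0 + 1) := one_le_pow₀ hlV
  have hbr : C * Real.exp (1 / 2 * Si) * (m * Real.log V) ^ E0 + C * Real.log V +
      C * Real.exp (-(Real.log Y / Real.log y)) * (Real.log y) ^ 2 ≤
      (C * ((m : ℝ) + 1) ^ N0 + C + C * 2) * (Real.exp (1 / 2 * Si) *
        (Real.log V) ^ (N0 + 1)) := by
    have e1 : (m * Real.log V) ^ E0 ≤ ((m : ℝ) + 1) ^ N0 * (Real.log V) ^ (N0 + 1) := by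
      have a1 : (m * Real.log V) ^ E0 ≤ (((m : ℝ) + 1) * Real.log V) ^ E0 :=
        Real.rpow_le_rpow (by positivity) (by nlinarith) hB.E1
      have a2 : 1 ≤ ((m : ℝ) + 1) * Real.log V := by nlinarith
      have a3 : (((m : ℝ) + 1) * Real.log V) ^ E0 ≤ (((m : ℝ) + 1) * Real.log V) ^ (N0 : ℝ) :=
        Real.rpow_le_rpow_of_exponent_le a2 hN0
      rw [Real.rpow_natCast, mul_pow] at a3
      refine a1.trans (a3.trans ?_)
      apply mul_le_mul_of_nonneg_left _ (by positivity)
      exact pow_le_pow_right₀ hlV (by omega)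
    have e3 : Real.exp (-(Real.log Y / l)) * l ^ 2 ≤ 2 := by
      have a1 : Real.exp (-(Real.log Y / l)) ≤ Real.exp (-l) := Real.exp_le_exp.2 (by linarith)
      have a2 := exp_neg_pow 2 hly
      have a3 : ((Nat.factorial 2 : ℕ) : ℝ) = 2 := by norm_num [Nat.factorial]
      rw [a3] at a2
      exact (mul_le_mul_of_nonneg_right a1 (by positivity)).trans a2
    have e7 : 1 ≤ Real.exp (1 / 2 * Si) * (Real.log V) ^ (N0 + 1) := by nlinarith
    have e8 : (Real.log V) ^ (N0 + 1) ≤ Real.exp (1 / 2 * Si) * (Real.log V) ^ (N0 + 1) :=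
      le_mul_of_one_le_left (by positivity) hex1
    have e4 : C * Real.exp (-(Real.log Y / l)) * l ^ 2 ≤
        C * 2 * (Real.exp (1 / 2 * Si) * (Real.log V) ^ (N0 + 1)) := by
      have b1 : C * (Real.exp (-(Real.log Y / l)) * l ^ 2) ≤ C * 2 :=
        mul_le_mul_of_nonneg_left e3 hC0
      have b2 : C * 2 ≤ C * 2 * (Real.exp (1 / 2 * Si) * (Real.log V) ^ (N0 + 1)) :=
        le_mul_of_one_le_right (by positivity) e7
      calc _ = C * (Real.exp (-(Real.log Y / l)) * l ^ 2) := by ring
        _ ≤ _ := b1.trans b2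
    have e5 := mul_le_mul_of_nonneg_left e1
      (show 0 ≤ C * Real.exp (1 / 2 * Si) by positivity)
    have e6 := mul_le_mul_of_nonneg_left (hVN.trans e8) hC0
    calc _ ≤ C * Real.exp (1 / 2 * Si) * (((m : ℝ) + 1) ^ N0 * (Real.log V) ^ (N0 + 1)) +
          C * (Real.exp (1 / 2 * Si) * (Real.log V) ^ (N0 + 1)) +
          C * 2 * (Real.exp (1 / 2 * Si) * (Real.log V) ^ (N0 + 1)) :=
          add_le_add (add_le_add e5 e6) e4
      _ = _ := by ring
  have hbr0 : 0 ≤ C * Real.exp (1 / 2 * Si) * (m * Real.log V) ^ E0 + C * Real.log V +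
      C * Real.exp (-(Real.log Y / Real.log y)) * (Real.log y) ^ 2 := by positivity
  have hVp := h1 l hly
  have hlδ : l ^ (δ / 2) ≤ Real.exp (1 / 2 * Si + C0 / 2) := by
    rw [Real.rpow_def_of_pos hly0]
    apply Real.exp_le_exp.2
    linarith
  set B := C * ((m : ℝ) + 1) ^ N0 + C + C * 2 with hBd
  have hB0 : 0 ≤ B := by positivity
  calc _ ≤ (C ^ m * Real.exp (S - Si) * (Real.log V) ^ m) *
        (B * (Real.exp (1 / 2 * Si) * (Real.log V) ^ (N0 + 1))) :=
        mul_le_mul hPL hbr hbr0 (by positivity)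
    _ = C ^ m * B * (Real.exp (S - Si) * Real.exp (1 / 2 * Si)) *
          (Real.log V) ^ (m + N0 + 1) := by ring
    _ ≤ C ^ m * B * (Real.exp (S - Si) * Real.exp (1 / 2 * Si)) * (C1 * l ^ (δ / 2)) :=
        mul_le_mul_of_nonneg_left hVp (by positivity)
    _ ≤ C ^ m * B * (Real.exp (S - Si) * Real.exp (1 / 2 * Si)) *
          (C1 * Real.exp (1 / 2 * Si + C0 / 2)) := by
        apply mul_le_mul_of_nonneg_left _ (by positivity)
        exact mul_le_mul_of_nonneg_left hlδ hC1
    _ = C ^ m * C1 * B * Real.exp (C0 / 2) *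
          (Real.exp (S - Si) * Real.exp (1 / 2 * Si) * Real.exp (1 / 2 * Si)) := by
        rw [Real.exp_add]; ring
    _ = C ^ m * C1 * B * Real.exp (C0 / 2) * Real.exp S := by
        rw [← Real.exp_add, ← Real.exp_add]
        congr 2
        ring
    _ ≤ _ := by
        apply mul_le_mul_of_nonneg_left _ (by positivity)
        exact Real.exp_le_exp.2 hM'

/-- all patterns -/
lemma pat (hB : Bd σ g κ c z C E0) {C2 : ℝ} {E2 : ℕ} (hC2 : 0 ≤ C2) (h2 : BW C2 E2)
    (hL : ∀ i, L i i = false) {M : ℕ → ℝ} {δ C0 : ℝ} (hδ : 0 < δ)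
    (hlow : ∀ i y, z < y → δ * Real.log (Real.log y) ≤ Sp (g i) z y + C0)
    (hM : ∀ y, z < y → ∀ U : Finset ι, (∀ i ∈ U, ∀ j ∈ U, L i j = L j i) →
      ∑ i ∈ U, Sp (g i) z y ≤ M y)
    (π : ι → Fin 4) : ∃ C' : ℝ, ∀ y, z < y →
      |∑ d ∈ Fintype.piFinset (fun b => cell z y (VV (6 * (Fintype.card ι + 2 * E2)) (Real.log y))
        (YY (6 * (Fintype.card ι + 2 * E2)) (Real.log y)) (π b)), HG σ L κ c d| ≤
        C' * Real.exp (M y) := by
  have hM0 : ∀ y, z < y → 0 ≤ M y := fun y hy => by simpa using hM y hy ∅ (by simp)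
  by_cases h3 : ∃ k, π k = 3
  · obtain ⟨k, hk⟩ := h3
    exact tail_case hB _ hM0 π hk
  push Not at h3
  by_cases hl : ∃ i j, π i = 2 ∧ π j = 2 ∧ L i j ≠ L j i
  · obtain ⟨i, j, hi, hj, hij⟩ := hl
    exact link_case hB hC2 h2 hL le_rfl hM0 π hi hj hij
  push Not at hl
  have hS : ∀ y, z < y → ∑ k ∈ univ.filter (fun k => π k = 2), Sp (g k) z y ≤ M y := by
    intro y hy
    apply hM y hy
    intro i hi j hj
    exact hl i j (mem_filter.1 hi).2 (mem_filter.1 hj).2
  by_cases h1 : ∃ j, π j = 1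
  · obtain ⟨j, hj⟩ := h1
    by_cases hex : ∃ i, π i = 2 ∧ L i j ≠ L j i
    · obtain ⟨i, hi, hij⟩ := hex
      exact max_case hB hL _ hδ π h3 hi hj hij (fun k hk => hl i k hi hk) (hlow i) hS
    · push Not at hex
      refine triv_case hB _ hδ π h3 j (hlow j) fun y hy => ?_
      have hjn : j ∉ univ.filter (fun k => π k = 2) := by
        rw [mem_filter, hj]
        rintro ⟨-, h⟩
        exact absurd h (by decide)
      have := hM y hy (insert j (univ.filter (fun k => π k = 2))) (by
        intro a ha b hb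
        rw [mem_insert] at ha hb
        rcases ha with rfl | ha
        · rcases hb with rfl | hb
          · rfl
          · exact (hex b (mem_filter.1 hb).2).symm
        · rcases hb with rfl | hb
          · exact hex a (mem_filter.1 ha).2
          · exact hl a b (mem_filter.1 ha).2 (mem_filter.1 hb).2)
      rwa [sum_insert hjn] at this
  · push Not at h1
    refine diag_case hB _ π (fun k => ?_) hS
    have a1 := h1 k
    have a3 := h3 k
    revert a1 a3
    generalize π k = r
    revert r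
    decide

/-- a bound for the exponential of the sum over the primes -/
lemma exp_Sp_le : ∃ B : ℝ, 1 ≤ B ∧ ∀ (a : ℕ → ℝ), (∀ p, 0 ≤ a p ∧ a p ≤ 1 / 2) →
    ∀ z y : ℕ, 2 ≤ z → z < y → Real.exp (Sp a z y) ≤ B * Real.log y := by
  obtain ⟨C, hC, h⟩ := Pool.Agent.W655.RK.mertens
  refine ⟨Real.exp (C / 2), Real.one_le_exp (by positivity), fun a ha z y hz hy => ?_⟩
  have hly := one_le_log hz hy
  have hly0 : 0 < Real.log y := by linarith
  have h1 : Sp a z y ≤ 1 / 2 * (Real.log (Real.log y) + C) := by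
    calc Sp a z y ≤ ∑ p ∈ PS z y, 1 / 2 * ((1 : ℝ) / p) := by
          unfold Sp
          refine sum_le_sum fun p _ => ?_
          rw [mul_one_div]
          exact div_le_div_of_nonneg_right (ha p).2 (Nat.cast_nonneg p)
      _ = 1 / 2 * ∑ p ∈ PS z y, (1 : ℝ) / p := by rw [mul_sum]
      _ ≤ _ := mul_le_mul_of_nonneg_left (h z y (by omega)) (by norm_num)
  have h2 : 0 ≤ Real.log (Real.log y) := Real.log_nonneg hly
  calc Real.exp (Sp a z y) ≤ Real.exp (C / 2 + Real.log (Real.log y)) := by
        apply Real.exp_le_exp.2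
        linarith
    _ = Real.exp (C / 2) * Real.log y := by rw [Real.exp_add, Real.exp_log hly0]

lemma Jr_one_left (n : ℕ) : Jr 1 n = 1 := by
  simp [Jr]

/-- **The abstract bound** with signed weights -/
theorem ats_of (hb : BLW) (he : EPS) (hf : FULLG) : ATS := by
  intro ι _ _ σ g L c z δ C0 E0 M hσ hL hz hδ hE0 hlow hM hκ
  have hg : ∀ i p, 0 ≤ g i p ∧ g i p ≤ 1 / 2 := fun i p =>
    ⟨(abs_nonneg _).trans (hσ i p).1, (hσ i p).2⟩
  classical
  obtain ⟨C2, E2, h2⟩ := hb
  obtain ⟨B, hB1, hBB⟩ := exp_Sp_le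
  choose CE hCE using fun i => he (σ i) (g i) c z C0 E0 (hσ i) hz hE0 (hκ i)
  choose CF hCF1 hCF2 hCF3 using fun i => hf (g i) c z (hg i) hz
  set C' : ℝ := 1 + ∑ i, (|CE i| + |CF i|) with hC'
  have hC'1 : 1 ≤ C' := by
    rw [hC']
    have : 0 ≤ ∑ i, (|CE i| + |CF i|) := sum_nonneg fun i _ => by positivity
    linarith
  set C : ℝ := C' * B with hC
  have hCC : C' ≤ C := by
    rw [hC]
    nlinarith
  have hCi : ∀ i, |CE i| + |CF i| ≤ C' := by
    intro i
    have h1 : |CE i| + |CF i| ≤ ∑ i, (|CE i| + |CF i|) :=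
      single_le_sum (f := fun i => |CE i| + |CF i|) (fun j _ => by positivity) (mem_univ i)
    linarith
  have hCE' : ∀ i, CE i ≤ C := fun i => by
    have := le_abs_self (CE i)
    have := abs_nonneg (CF i)
    linarith [hCi i]
  have hCF0 : ∀ i, CF i ≤ C' := fun i => by
    have := le_abs_self (CF i)
    have := abs_nonneg (CE i)
    linarith [hCi i]
  have hCF' : ∀ i, CF i ≤ C := fun i => (hCF0 i).trans hCC
  have hB : Bd σ g (fun _ => 1) c z C E0 :=
    { ab := fun i p => (hσ i p).1
      w0 := fun i p => (hg i p).1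
      w1 := fun i p => (hg i p).2
      z2 := by omega
      zc := by omega
      C1 := hC'1.trans hCC
      E1 := hE0
      F0 := fun i y hy => by
        refine (hCF1 i y hy).trans ?_
        have h1 := hBB (g i) (hg i) z y (by omega) hy
        have h3 : 0 ≤ Real.exp (Sp (g i) z y) := (Real.exp_pos _).le
        calc CF i * Real.exp (Sp (g i) z y) ≤ C' * Real.exp (Sp (g i) z y) :=
              mul_le_mul_of_nonneg_right (hCF0 i) h3
          _ ≤ C' * (B * Real.log y) := mul_le_mul_of_nonneg_left h1 (by linarith)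
          _ = C * Real.log y := by rw [hC]; ring
      F1 := fun i y hy => (hCF1 i y hy).trans (mul_le_mul_of_nonneg_right (hCF' i)
        (Real.exp_pos _).le)
      F2 := fun i y V hy hV => (hCF2 i y V hy hV).trans (mul_le_mul_of_nonneg_right (hCF' i)
        (Real.log_natCast_nonneg V))
      F3 := fun i y Y hy hY => (hCF3 i y Y hy hY).trans (by
        apply mul_le_mul_of_nonneg_right _ (by positivity)
        exact mul_le_mul_of_nonneg_right (hCF' i) (Real.exp_pos _).le)
      E := fun i y R r e hy hR hr hs hp => by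
        simp only [Jr_one_left, mul_one]
        exact (hCE i y R r e hy hR hr hs hp).trans (by
          apply mul_le_mul_of_nonneg_right _ (hh_nonneg _)
          apply mul_le_mul_of_nonneg_right _ (Real.rpow_nonneg (Real.log_natCast_nonneg r) _)
          exact mul_le_mul_of_nonneg_right (hCE' i) (Real.exp_pos _).le) }
  have h2' : BW |C2| E2 := fun V Y hV hVY a b ha hb ha' hb' =>
    (h2 V Y hV hVY a b ha hb ha' hb').trans (by
      apply mul_le_mul_of_nonneg_right _ (by positivity)
      exact mul_le_mul_of_nonneg_right (le_abs_self C2)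
        (pow_nonneg (Real.log_natCast_nonneg Y) _))
  choose Cp hCp using fun π : ι → Fin 4 => pat hB (abs_nonneg C2) h2' hL hδ hlow hM π
  refine ⟨∑ π, Cp π, fun y hy => ?_⟩
  rw [total_eq, patterns z y (VV (6 * (Fintype.card ι + 2 * E2)) (Real.log y))
    (YY (6 * (Fintype.card ι + 2 * E2)) (Real.log y)), sum_mul]
  exact (abs_sum_le_sum_abs _ _).trans (sum_le_sum fun π _ => hCp π y hy)

end Pool.Agent.TH841.PT.ATS8
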