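import Mathlib
import Pool.Agent.TH841.PT.Stm4
import Pool.Agent.W655.RK.Ep

set_option autoImplicit false

/-! A twisted Euler product with signed weights (job 2207, helper986 for helper841). -/

namespace Pool.Agent.TH841.PT.EPSf

open Finset Polynomial Pool.Agent.W262.RK Pool.Agent.TH841.PT
open Pool.Agent.W655.RK

private lemma chr_one (r : ℕ) (e : Bool) (d : ℕ) : chr 1 r e d = Jr d r * x4 e d := by
  unfold chr
  have h1 : Jr 1 d = 1 := by
    unfold Jr
    rw [jacobiSym.one_left]
    norm_num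
  rw [h1, mul_one]

theorem eps : EPS := by
  intro a b c z C0 E0 hab hzc _ hC
  obtain ⟨K, _, hsq⟩ := sum_inv_sq
  refine ⟨Real.exp (C0 + c * K), fun y R r e hy hR hr hrs hrp => ?_⟩
  classical
  have hr3 : 3 ≤ r := by
    obtain ⟨p, hp, hpr⟩ := Nat.exists_prime_and_dvd (by omega : r ≠ 1)
    have h1 := hrp p hp hpr
    have h2 := Nat.le_of_dvd (by omega) hpr
    omega
  have hlr : 0 < Real.log r := Real.log_pos (by exact_mod_cast (by omega : 1 < r))
  set S' := (PS z y).filter (fun p => ¬ p ∣ R) with hS'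
  have hS'p : ∀ p ∈ S', p.Prime := fun p hp => PS_prime (mem_filter.1 hp).1
  have hset : (PP z y).divisors.filter (fun d => d.Coprime R) = (∏ p ∈ S', p).divisors := by
    have hsq1 := prod_primes_squarefree (PS z y) fun p hp => PS_prime hp
    have hsq2 := prod_primes_squarefree S' hS'p
    ext d
    rw [mem_filter, Nat.mem_divisors, Nat.mem_divisors]
    constructor
    · rintro ⟨⟨hd, -⟩, hc⟩
      refine ⟨?_, hsq2.ne_zero⟩
      have hsd : Squarefree d := hsq1.squarefree_of_dvd hd
      rw [← Nat.prod_primeFactors_of_squarefree hsd]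
      refine Finset.prod_dvd_prod_of_subset _ _ _ fun p hp => ?_
      have hpp := Nat.prime_of_mem_primeFactors hp
      have hpd := Nat.dvd_of_mem_primeFactors hp
      have h1 : p ∈ PS z y := by
        rw [← Nat.primeFactors_prod (s := PS z y) fun p hp => PS_prime hp]
        exact Nat.primeFactors_mono hd hsq1.ne_zero hp
      refine mem_filter.2 ⟨h1, fun hpR => ?_⟩
      have := Nat.dvd_gcd hpd hpR
      rw [hc.gcd_eq_one] at this
      exact hpp.one_lt.ne' (Nat.dvd_one.1 this)
    · rintro ⟨hd, -⟩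
      refine ⟨⟨hd.trans (Finset.prod_dvd_prod_of_subset _ _ _ (filter_subset _ _)),
        hsq1.ne_zero⟩, ?_⟩
      refine Nat.Coprime.coprime_dvd_left hd ?_
      exact Nat.Coprime.prod_left fun p hp =>
        ((hS'p p hp).coprime_iff_not_dvd).2 (mem_filter.1 hp).2
  set φ : ℕ → ℝ := fun p => a p / ((p : ℝ) - c) * chr 1 r e p with hφ
  have hsum : ∑ d ∈ (PP z y).divisors.filter (fun d => d.Coprime R),
      gp a c d * (Jr d r * x4 e d) = ∏ p ∈ S', (1 + φ p) := by
    rw [hset, ← sum_mult S' hS'p φ]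
    refine Finset.sum_congr rfl fun d hd => ?_
    have hsd : Squarefree d :=
      (prod_primes_squarefree S' hS'p).squarefree_of_dvd (Nat.dvd_of_mem_divisors hd)
    rw [← chr_one]
    have h1 : chr 1 r e d = ∏ p ∈ d.primeFactors, chr 1 r e p := by
      rw [← chr_prod 1 r e _ fun p hp => Nat.prime_of_mem_primeFactors hp,
        Nat.prod_primeFactors_of_squarefree hsd]
    rw [h1, gp, ← Finset.prod_mul_distrib]
  rw [hsum]
  have hp3 : ∀ p ∈ PS z y, (2 * c + 3 : ℝ) ≤ p := fun p hp => by
    have := PS_lt hp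
    exact_mod_cast (by omega : 2 * c + 3 ≤ p)
  have hc0 : (0:ℝ) ≤ c := Nat.cast_nonneg c
  have hb0 : ∀ p, 0 ≤ b p := fun p => (abs_nonneg _).trans (hab p).1
  have haχ : ∀ p, |a p * chr 1 r e p| ≤ b p := fun p => by
    rw [abs_mul]
    calc |a p| * |chr 1 r e p| ≤ b p * 1 :=
          mul_le_mul (hab p).1 (chr_abs 1 r e p) (abs_nonneg _) (hb0 p)
      _ = b p := mul_one _
  have hfac : ∀ p ∈ S', 0 ≤ 1 + φ p := by
    intro p hp
    have h1 := hp3 p (mem_filter.1 hp).1
    have h2 : 0 < (p : ℝ) - c := by linarith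
    have h4 := (abs_le.1 (haχ p)).1
    have h5 := (hab p).2
    have h6 : φ p = a p * chr 1 r e p / ((p : ℝ) - c) := by
      simp only [hφ]
      ring
    rw [h6]
    have h7 : -1 ≤ a p * chr 1 r e p / ((p : ℝ) - c) := by
      rw [le_div_iff₀ h2]
      linarith
    linarith
  rw [abs_of_nonneg (Finset.prod_nonneg hfac)]
  refine (prod_le_exp S' φ hfac).trans ?_
  -- the exponent
  have hterm : ∀ p ∈ S', φ p ≤ a p * chr 1 r e p / p + c * (1 / (p : ℝ) ^ 2) := by
    intro p hp
    have h1 := hp3 p (mem_filter.1 hp).1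
    have h2 : 0 < (p : ℝ) - c := by linarith
    have hp0 : (0:ℝ) < p := by linarith
    have h4 := (abs_le.1 (haχ p)).2
    have h5 : φ p = a p * chr 1 r e p / p + (a p * chr 1 r e p) * (c / (p * (p - c))) := by
      simp only [hφ]
      field_simp
      ring
    rw [h5]
    have h6 : (0:ℝ) ≤ c / (p * (p - c)) := by positivity
    have h7 : (a p * chr 1 r e p) * ((c : ℝ) / (p * (p - c))) ≤ 1 / 2 * ((c : ℝ) / (p * (p - c))) :=
      mul_le_mul_of_nonneg_right (h4.trans (hab p).2) h6
    have h8 : 1 / 2 * ((c : ℝ) / (p * (p - c))) ≤ c * (1 / (p : ℝ) ^ 2) := by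
      rw [mul_one_div, div_mul_div_comm, div_le_div_iff₀ (by positivity) (by positivity)]
      have h9 : (p : ℝ) ≤ 2 * (p - c) := by linarith
      have h10 : 0 ≤ (c : ℝ) * p := by positivity
      nlinarith
    linarith
  have hexp : ∑ p ∈ S', φ p ≤ (1 / 2 * Sp b z y + E0 * Real.log (Real.log r) + C0) + c * K +
      ∑ p ∈ (PS z y).filter (fun p => p ∣ R), b p / p := by
    have hub := hC y r e hy hr hrs hrp
    have hub' : ∑ p ∈ PS z y, a p * chr 1 r e p / (p : ℝ) ≤
        1 / 2 * Sp b z y + E0 * Real.log (Real.log r) + C0 := by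
      refine le_trans (le_of_eq ?_) hub
      exact Finset.sum_congr rfl fun p _ => by rw [chr_one]
    have hsplit := Finset.sum_filter_add_sum_filter_not (PS z y) (fun p => p ∣ R)
      (fun p => a p * chr 1 r e p / (p : ℝ))
    have h1 : ∑ p ∈ S', a p * chr 1 r e p / (p : ℝ) ≤
        (1 / 2 * Sp b z y + E0 * Real.log (Real.log r) + C0) +
        ∑ p ∈ (PS z y).filter (fun p => p ∣ R), b p / (p : ℝ) := by
      have h2 : -∑ p ∈ (PS z y).filter (fun p => p ∣ R), b p / (p : ℝ) ≤
          ∑ p ∈ (PS z y).filter (fun p => p ∣ R), a p * chr 1 r e p / (p : ℝ) := by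
        rw [← Finset.sum_neg_distrib]
        refine Finset.sum_le_sum fun p _ => ?_
        rw [← neg_div]
        exact div_le_div_of_nonneg_right (abs_le.1 (haχ p)).1 (Nat.cast_nonneg p)
      linarith
    calc ∑ p ∈ S', φ p ≤ ∑ p ∈ S', (a p * chr 1 r e p / p + c * (1 / (p : ℝ) ^ 2)) :=
          Finset.sum_le_sum hterm
      _ = ∑ p ∈ S', a p * chr 1 r e p / p + c * ∑ p ∈ S', 1 / (p : ℝ) ^ 2 := by
          rw [Finset.sum_add_distrib, Finset.mul_sum]
      _ ≤ ((1 / 2 * Sp b z y + E0 * Real.log (Real.log r) + C0) +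
            ∑ p ∈ (PS z y).filter (fun p => p ∣ R), b p / (p : ℝ)) + c * K :=
          add_le_add h1 (mul_le_mul_of_nonneg_left (hsq _) hc0)
      _ = _ := by ring
  have hhh : Real.exp (∑ p ∈ (PS z y).filter (fun p => p ∣ R), b p / p) ≤ hh R := by
    rw [Real.exp_sum]
    unfold hh
    have hsub : (PS z y).filter (fun p => p ∣ R) ⊆ R.primeFactors := by
      intro p hp
      rw [mem_filter] at hp
      exact Nat.mem_primeFactors.2 ⟨PS_prime hp.1, hp.2, hR⟩
    calc ∏ p ∈ (PS z y).filter (fun p => p ∣ R), Real.exp (b p / p)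
        ≤ ∏ p ∈ (PS z y).filter (fun p => p ∣ R), (1 + 2 / (p : ℝ)) := by
          refine Finset.prod_le_prod (fun p _ => (Real.exp_pos _).le) fun p hp => ?_
          have h1 := hp3 p (mem_filter.1 hp).1
          have hp0 : (0:ℝ) < p := by linarith
          have h5 := (hab p).2
          have h2 : b p / (p : ℝ) ≤ 1 / 2 := by
            rw [div_le_iff₀ hp0]
            linarith
          refine (exp_small _ (div_nonneg (hb0 p) hp0.le) h2).trans ?_
          have h3 : b p / (p : ℝ) ≤ 1 / p := div_le_div_of_nonneg_right (by linarith) hp0.le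
          have h4 : 2 / (p : ℝ) = 2 * (1 / p) := by ring
          rw [h4]
          linarith
      _ ≤ ∏ p ∈ R.primeFactors, (1 + 2 / (p : ℝ)) := by
          refine Finset.prod_le_prod_of_subset_of_one_le hsub (fun p _ => by positivity)
            fun p _ _ => ?_
          have : (0:ℝ) ≤ 2 / (p : ℝ) := by positivity
          linarith
  calc Real.exp (∑ p ∈ S', φ p)
      ≤ Real.exp ((1 / 2 * Sp b z y + E0 * Real.log (Real.log r) + C0) + c * K +
        ∑ p ∈ (PS z y).filter (fun p => p ∣ R), b p / p) := Real.exp_le_exp.2 hexp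
    _ = Real.exp (C0 + c * K) * Real.exp (1 / 2 * Sp b z y) * (Real.log r) ^ E0 *
        Real.exp (∑ p ∈ (PS z y).filter (fun p => p ∣ R), b p / p) := by
        rw [Real.rpow_def_of_pos hlr, ← Real.exp_add, ← Real.exp_add, ← Real.exp_add]
        congr 1
        ring
    _ ≤ _ := mul_le_mul_of_nonneg_left hhh (by positivity)

end Pool.Agent.TH841.PT.EPSf
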