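import Mathlib
import Pool.Agent.TH841.PT.AvgH
import Pool.Agent.TH841.PT.Fact8
import Pool.Agent.TH841.PT.Sel
import Pool.Agent.TH841.PT.Fac
import Pool.Agent.TH841.SH.Sel
import Pool.Agent.W410.FK.FINH

/-!
# Project PT: prime arguments, auxiliary facts
-/

set_option autoImplicit false

namespace Pool.Agent.TH841.PT

open Finset Polynomial Pool.Agent.W262.RK

open Pool.Agent.H474R2.PG (rho)

open Pool.Agent.W307.SE (SN Sel SN_nonneg sel_fin)

/-- the 2-Selmer group is not empty -/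
lemma one_le_SN {A B : ℤ} (hA : A ≠ 0) (hB : B ≠ 0) (hAB : A ≠ B) : 1 ≤ SN A B := by
  have hf : (Sel A B).Finite := sel_fin Pool.Agent.W410.FK.seld hA hB hAB
  have h1 : ((1 : ℤ), (1 : ℤ)) ∈ Sel A B := by
    refine ⟨squarefree_one, squarefree_one, ?_, fun p _ => ?_⟩
    · obtain ⟨x, y, hy, h1, h2, h3, h4⟩ := Pool.Agent.TH841.SH.pt_real 0 A B
      refine ⟨x, y, hy, ?_, ?_, ?_⟩
      · rw [h1]
        push_cast
        ring
      · simpa using h2
      · simpa using h3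
    · obtain ⟨x, y, hy, h1, h2, h3, h4⟩ := Pool.Agent.TH841.SH.pt_pad p 0 A B
      refine ⟨x, y, hy, ?_, ?_, ?_⟩
      · rw [h1]
        push_cast
        ring
      · simpa using h2
      · simpa using h3
  have h2 : 1 ≤ (Sel A B).ncard := (Set.ncard_pos hf).2 ⟨_, h1⟩
  unfold SN
  exact_mod_cast h2

/-- the trivial bound -/
lemma SN_le {A B : ℤ} (hA : A ≠ 0) (hB : B ≠ 0) (hAB : A ≠ B) :
    SN A B ≤ 4 ^ ((2 * A * B * (A - B)).natAbs.primeFactors.card + 2) := by
  have h := (Pool.Agent.W410.FK.seld 1 (fun _ _ _ _ _ => True) A B hA hB hAB odd_one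
    squarefree_one (fun p hp hp1 => absurd (Nat.dvd_one.1 hp1) hp.one_lt.ne')
    (fun p hp hp1 => absurd (Nat.dvd_one.1 hp1) hp.out.one_lt.ne')).2
  have hNL : NL 1 (fun _ _ _ _ _ => True) = 1 := by
    unfold NL
    simp
  rw [hNL, mul_one] at h
  have h2 : (Sel A B).ncard ≤ 4 ^ ((2 * A * B * (A - B)).natAbs.primeFactors.card + 2) := by
    refine h.trans (Nat.pow_le_pow_right (by norm_num) ?_)
    exact Nat.add_le_add_right (card_filter_le _ _) 2
  unfold SN
  exact_mod_cast h2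

/-- the values of a nonconstant polynomial grow -/
lemma grow {G : ℤ[X]} (hG : 0 < G.natDegree) : ∃ K : ℕ, ∀ t : ℤ,
    t.natAbs ≤ (G.eval t).natAbs + K := by
  obtain ⟨n, hn⟩ : ∃ n, G.natDegree = n + 1 := ⟨G.natDegree - 1, by omega⟩
  set S : ℕ := ∑ i ∈ range (n + 1), (G.coeff i).natAbs with hS
  refine ⟨S, fun t => ?_⟩
  by_contra hcon
  push Not at hcon
  have ht : 1 ≤ t.natAbs := by omega
  have hlc : 1 ≤ (G.coeff (n + 1)).natAbs := by
    have : G.coeff (n + 1) ≠ 0 := by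
      rw [← hn]
      have hG0 : G ≠ 0 := by
        rintro rfl
        simp at hG
      exact leadingCoeff_ne_zero.2 hG0
    exact Int.natAbs_pos.2 this
  have hev : G.eval t = (∑ i ∈ range (n + 1), G.coeff i * t ^ i) +
      G.coeff (n + 1) * t ^ (n + 1) := by
    rw [eval_eq_sum_range, hn, sum_range_succ]
  have h1 : (∑ i ∈ range (n + 1), G.coeff i * t ^ i).natAbs ≤ S * t.natAbs ^ n := by
    rw [hS, sum_mul]
    refine (Int.natAbs_sum_le _ _).trans (sum_le_sum fun i hi => ?_)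
    rw [Int.natAbs_mul, Int.natAbs_pow]
    refine Nat.mul_le_mul_left _ (Nat.pow_le_pow_right ht ?_)
    have := mem_range.1 hi
    omega
  have h2 : t.natAbs ^ (n + 1) ≤ (G.coeff (n + 1) * t ^ (n + 1)).natAbs := by
    rw [Int.natAbs_mul, Int.natAbs_pow]
    exact Nat.le_mul_of_pos_left _ hlc
  have h3 : (G.coeff (n + 1) * t ^ (n + 1)).natAbs ≤ (G.eval t).natAbs + S * t.natAbs ^ n := by
    have h4 : G.coeff (n + 1) * t ^ (n + 1) =
        G.eval t - ∑ i ∈ range (n + 1), G.coeff i * t ^ i := by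
      rw [hev]
      ring
    rw [h4]
    exact (Int.natAbs_sub_le _ _).trans (Nat.add_le_add_left h1 _)
  have h4 : t.natAbs ^ (n + 1) ≤ (G.eval t).natAbs + S * t.natAbs ^ n := h2.trans h3
  have h5 : (G.eval t).natAbs ≤ (G.eval t).natAbs * t.natAbs ^ n :=
    Nat.le_mul_of_pos_right _ (Nat.pow_pos (by omega))
  have h6 : t.natAbs * t.natAbs ^ n ≤ ((G.eval t).natAbs + S) * t.natAbs ^ n := by
    rw [add_mul]
    calc t.natAbs * t.natAbs ^ n = t.natAbs ^ (n + 1) := by ring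
      _ ≤ _ := h4.trans (Nat.add_le_add_right h5 _)
  have h7 := Nat.le_of_mul_le_mul_right h6 (Nat.pow_pos (by omega))
  omega

/-- powers of the logarithm and the square root -/
lemma sqrt_log (r : ℕ) : ∃ C : ℝ, 0 ≤ C ∧ ∀ M : ℕ, 2 ≤ M →
    Real.sqrt M ≤ C * (M / (Real.log M) ^ r) := by
  refine ⟨(2 * (r + 1)) ^ (r + 1) * (Real.log 2)⁻¹, by positivity, fun M hM => ?_⟩
  have hM0 : (0 : ℝ) < M := by exact_mod_cast (by omega : 0 < M)
  have hM2 : (2 : ℝ) ≤ M := by exact_mod_cast hM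
  have hl2 : 0 < Real.log 2 := Real.log_pos (by norm_num)
  have hl : Real.log 2 ≤ Real.log M := Real.log_le_log (by norm_num) hM2
  have hl0 : 0 < Real.log M := hl2.trans_le hl
  have h1 : Real.log M ≤ (M : ℝ) ^ ((1 : ℝ) / (2 * (r + 1))) / ((1 : ℝ) / (2 * (r + 1))) :=
    Real.log_le_rpow_div hM0.le (by positivity)
  have h2 : (Real.log M) ^ (r + 1) ≤ (2 * (r + 1)) ^ (r + 1) * Real.sqrt M := by
    have h3 := pow_le_pow_left₀ hl0.le h1 (r + 1)
    refine h3.trans (le_of_eq ?_)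
    rw [div_pow, ← Real.rpow_natCast ((M : ℝ) ^ ((1 : ℝ) / (2 * (r + 1)))) (r + 1),
      ← Real.rpow_mul hM0.le, Real.sqrt_eq_rpow]
    have h4 : (1 : ℝ) / (2 * (r + 1)) * ((r + 1 : ℕ) : ℝ) = 1 / 2 := by
      push_cast
      field_simp
    rw [h4, one_div_pow, div_div_eq_mul_div, div_one, mul_comm]
  have hsq : Real.sqrt M * Real.sqrt M = M := Real.mul_self_sqrt hM0.le
  have hs0 : 0 < Real.sqrt M := Real.sqrt_pos.2 hM0
  rw [mul_div_assoc', le_div_iff₀ (by positivity)]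
  have h5 : Real.sqrt M * Real.log M ^ r ≤ (2 * (r + 1)) ^ (r + 1) * (Real.log 2)⁻¹ * M := by
    calc Real.sqrt M * Real.log M ^ r = Real.sqrt M * (Real.log M ^ r * Real.log 2) *
          (Real.log 2)⁻¹ := by
          field_simp
      _ ≤ Real.sqrt M * (Real.log M ^ r * Real.log M) * (Real.log 2)⁻¹ := by
          gcongr
      _ = Real.sqrt M * (Real.log M) ^ (r + 1) * (Real.log 2)⁻¹ := by ring
      _ ≤ Real.sqrt M * ((2 * (r + 1)) ^ (r + 1) * Real.sqrt M) * (Real.log 2)⁻¹ := by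
          gcongr
      _ = (2 * (r + 1)) ^ (r + 1) * (Real.log 2)⁻¹ * (Real.sqrt M * Real.sqrt M) := by ring
      _ = _ := by rw [hsq]
  exact h5

section

variable {r : ℕ} {G : Fin r → ℤ[X]}

/-- all the values are primes up to the sign -/
def AllPr (G : Fin r → ℤ[X]) (t : ℤ) : Prop := ∀ i, ((G i).eval t).natAbs.Prime

lemma Sft_of {z M : ℕ} {t : ℤ} (h : AllPr G t) (hM : ∀ i, M < ((G i).eval t).natAbs ^ 2) :
    Sft (∏ i, G i) z M t := by
  intro p hp _ hp2 hd
  rw [eval_prod] at hd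
  obtain ⟨i, _, hi⟩ := ((Nat.prime_iff_prime_int.1 hp).dvd_finsetProd_iff _).1 hd
  have h1 : p ∣ ((G i).eval t).natAbs := Int.natCast_dvd.1 hi
  have h2 := (Nat.prime_dvd_prime_iff_eq hp (h i)).1 h1
  have := hM i
  rw [← h2] at this
  omega

/-- the sum for the product -/
lemma exp_prod (hgd : GDP) (hG : Irr G) : ∃ z0 : ℕ, ∀ z, z0 ≤ z → ∃ C : ℝ, 0 ≤ C ∧
    ∀ X : ℕ, 2 ≤ X → Real.exp (-Sp (fun p => (rho (∏ i, G i) p : ℝ)) z X) ≤
      C / (Real.log X) ^ r := by
  obtain ⟨z0, hz0⟩ := exists_Gp hgd hG (a := fun _ => 1) (fun _ => one_ne_zero) _ le_rfl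
  refine ⟨z0 + 3, fun z hz => ?_⟩
  have hgp := hz0 z (by omega)
  choose Cm hCm0 hCm using fun j => mert (hG.irr j) (hG.deg j) (z := z) (by omega)
  have hlz : 0 ≤ Real.log z := Real.log_natCast_nonneg z
  refine ⟨Real.exp (∑ i, Cm i) + (Real.log z) ^ r, by positivity, fun X hX => ?_⟩
  have hX2 : (2 : ℝ) ≤ X := by exact_mod_cast hX
  have hlX : 0 < Real.log X := Real.log_pos (by linarith)
  have h3 : ∑ j, Sp (fun p => (rho (G j) p : ℝ)) z X =
      Sp (fun p => (rho (∏ j, G j) p : ℝ)) z X := by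
    unfold Sp
    rw [sum_comm]
    refine sum_congr rfl fun p hp => ?_
    have hp' := mem_filter.1 hp
    beta_reduce
    rw [rho_prod hgp hp'.2 (mem_Ioc.1 hp'.1).1, ← sum_div]
    push_cast
    rfl
  rw [le_div_iff₀ (by positivity)]
  rcases Nat.lt_or_ge z X with hlt | hge
  · have h4 : (r : ℝ) * Real.log (Real.log X) - ∑ i, Cm i ≤
        Sp (fun p => (rho (∏ j, G j) p : ℝ)) z X := by
      rw [← h3]
      have h5 : ∀ j, Real.log (Real.log X) - Cm j ≤ Sp (fun p => (rho (G j) p : ℝ)) z X := by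
        intro j
        have := (abs_le.1 (hCm j X hlt)).1
        linarith
      have h6 := sum_le_sum fun j (_ : j ∈ univ) => h5 j
      rw [sum_sub_distrib, sum_const, card_univ, Fintype.card_fin, nsmul_eq_mul] at h6
      exact h6
    have h5 : Real.exp (-Sp (fun p => (rho (∏ j, G j) p : ℝ)) z X) ≤
        Real.exp (∑ i, Cm i) * Real.exp (-((r : ℝ) * Real.log (Real.log X))) := by
      rw [← Real.exp_add]
      apply Real.exp_le_exp.2
      linarith
    have h6 : Real.exp (-((r : ℝ) * Real.log (Real.log X))) * Real.log X ^ r = 1 := by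
      rw [Real.exp_neg, Real.exp_nat_mul, Real.exp_log hlX]
      field_simp
    calc Real.exp (-Sp (fun p => (rho (∏ j, G j) p : ℝ)) z X) * Real.log X ^ r
        ≤ Real.exp (∑ i, Cm i) * Real.exp (-((r : ℝ) * Real.log (Real.log X))) *
          Real.log X ^ r := mul_le_mul_of_nonneg_right h5 (by positivity)
      _ = Real.exp (∑ i, Cm i) := by rw [mul_assoc, h6, mul_one]
      _ ≤ _ := le_add_of_nonneg_right (by positivity)
  · have h4 : Real.exp (-Sp (fun p => (rho (∏ j, G j) p : ℝ)) z X) ≤ 1 := by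
      rw [Real.exp_le_one_iff, neg_nonpos]
      exact Sp_nonneg (fun p => Nat.cast_nonneg _) z X
    have h5 : Real.log X ≤ Real.log z :=
      Real.log_le_log (by linarith) (by exact_mod_cast hge)
    have h6 : Real.log X ^ r ≤ Real.log z ^ r := pow_le_pow_left₀ hlX.le h5 r
    calc Real.exp (-Sp (fun p => (rho (∏ j, G j) p : ℝ)) z X) * Real.log X ^ r
        ≤ 1 * Real.log X ^ r := mul_le_mul_of_nonneg_right h4 (by positivity)
      _ ≤ Real.log z ^ r := by rw [one_mul]; exact h6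
      _ ≤ _ := le_add_of_nonneg_left (Real.exp_pos _).le

end

end Pool.Agent.TH841.PT
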