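import Mathlib
import Pool.Agent.TH841.PT.Prime
import Pool.Agent.TH841.PT.Fin1

/-!
# Project PT: the moments at prime arguments
-/

set_option autoImplicit false

namespace Pool.Agent.TH841.PT

open Finset Polynomial Pool.Agent.W262.RK

open Pool.Agent.H474R2.PG (rho)

open Pool.Agent.W307.SE (SN SelR SN_nonneg)

/-- the moments over sifted arguments -/
def AVH (Rf : ℤ → ℤ → ℝ) : Prop := ∀ (a : Fin 3 → ℤ) (D G H : ℤ[X]) (k0 B : ℕ),
    (∀ k, a k ≠ 0) → a 0 - a 1 = a 2 →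
    Squarefree ((D * G).map (Int.castRingHom ℚ)) →
    0 < D.natDegree → 2 * (D * G).natDegree ≤ 4 ^ k0 → ∀ zH : ℕ,
    (∀ p : ℕ, p.Prime → zH < p → ∀ t : ℤ, (p : ℤ) ∣ H.eval t → (p : ℤ) ∣ G.eval t) →
    ∃ z0 : ℕ, ∀ z, z0 ≤ z → ∃ C : ℝ, ∀ (N : ℤ) (X : ℕ), 1 ≤ X → N.natAbs ≤ X ^ B →
      ∀ T : Finset ℕ, T ⊆ Icc 1 X → (∀ t ∈ T, (H * D).eval (N + (t : ℤ)) ≠ 0 ∧
        Sft G z X (N + (t : ℤ))) →
      ∑ t ∈ T, Rf (a 0 * (H * D).eval (N + (t : ℤ))) (a 1 * (H * D).eval (N + (t : ℤ))) ^ k0 ≤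
        C * (X * Real.exp (-Sp (fun p => (rho G p : ℝ)) z X))

theorem avh_of (hcnt : CNTH) : AVH SN := by
  intro a D G H k0 B ha ha2 hDG hd hk zH hH
  exact avgpH SN_nonneg hcnt (Pool.Agent.W307.SE.r4 Pool.Agent.TH639.SL.sel4b) antx RSPf.rsp
    RVU.rvp RVU.rup GDPf.gdp Pool.Agent.W925.RS.subbk makp a D G H k0 B ha ha2 hDG hd hk zH hH

section

variable {r : ℕ} {G : Fin r → ℤ[X]}

open Classical in
/-- the small arguments -/
lemma small_part (a : Fin 3 → ℤ) (ha : ∀ k, a k ≠ 0) (ha2 : a 0 - a 1 = a 2) (P : ℤ[X])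
    (hP : Squarefree (P.map (Int.castRingHom ℚ))) (hG : Irr G) (k : ℕ) :
    ∃ C : ℝ, 0 ≤ C ∧ ∀ (N : ℤ) (M : ℕ), 2 ≤ M →
      ∑ t ∈ ((Ioc N (N + M)).filter (fun t => P.eval t ≠ 0)).filter
        (fun t => ∃ i, ((G i).eval t).natAbs ^ 2 ≤ M),
        SN (a 0 * P.eval t) (a 1 * P.eval t) ^ k ≤ C * (M / (Real.log M) ^ r) := by
  obtain ⟨C, hC⟩ := sn_sq avsq a P k 1 ha ha2 hP
  choose K hK using fun i => grow (hG.deg i)
  obtain ⟨C2, hC20, hC2⟩ := sqrt_log r
  set Kt := ∑ i, K i with hKt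
  refine ⟨|C| * (2 * Kt + 3) * C2, by positivity, fun N M hM => ?_⟩
  have hM1 : (1 : ℝ) ≤ M := by exact_mod_cast (by omega : 1 ≤ M)
  set R : ℕ := Nat.sqrt M + Kt with hR
  have h1 := hC (-(R : ℤ) - 1) (2 * R + 1) (by omega) (by
    rw [pow_one, abs_le]
    push_cast
    constructor <;> omega)
  have h2 : ∑ t ∈ ((Ioc N (N + M)).filter (fun t => P.eval t ≠ 0)).filter
        (fun t => ∃ i, ((G i).eval t).natAbs ^ 2 ≤ M),
        SN (a 0 * P.eval t) (a 1 * P.eval t) ^ k ≤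
      ∑ t ∈ (Ioc (-(R : ℤ) - 1) (-(R : ℤ) - 1 + (2 * R + 1 : ℕ))).filter (fun t => P.eval t ≠ 0),
        SN (a 0 * P.eval t) (a 1 * P.eval t) ^ k := by
    refine sum_le_sum_of_subset_of_nonneg ?_ fun t _ _ => pow_nonneg (SN_nonneg _ _) _
    intro t ht
    rw [mem_filter, mem_filter] at ht
    obtain ⟨⟨_, ht2⟩, i, hi⟩ := ht
    rw [mem_filter, mem_Ioc]
    have h3 := hK i t
    have h4 : ((G i).eval t).natAbs ≤ Nat.sqrt M := Nat.le_sqrt'.2 hi
    have h5 : K i ≤ Kt := single_le_sum (f := K) (fun _ _ => Nat.zero_le _) (mem_univ i)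
    have h6 : t.natAbs ≤ R := by omega
    refine ⟨⟨by omega, by push_cast; omega⟩, ht2⟩
  have h3 : (Nat.sqrt M : ℝ) ≤ Real.sqrt M := by
    apply Real.le_sqrt_of_sq_le
    exact_mod_cast Nat.sqrt_le' M
  have h4 : (1 : ℝ) ≤ Real.sqrt M := Real.one_le_sqrt.2 hM1
  refine h2.trans (h1.trans ?_)
  have h5 : ((2 * R + 1 : ℕ) : ℝ) ≤ (2 * Kt + 3) * Real.sqrt M := by
    rw [hR]
    push_cast
    have h6 : (Kt : ℝ) ≤ Kt * Real.sqrt M := le_mul_of_one_le_right (Nat.cast_nonneg _) h4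
    linarith
  calc C * ((2 * R + 1 : ℕ) : ℝ) ≤ |C| * ((2 * R + 1 : ℕ) : ℝ) :=
        mul_le_mul_of_nonneg_right (le_abs_self _) (Nat.cast_nonneg _)
    _ ≤ |C| * ((2 * Kt + 3) * Real.sqrt M) := mul_le_mul_of_nonneg_left h5 (abs_nonneg _)
    _ ≤ |C| * ((2 * Kt + 3) * (C2 * (M / (Real.log M) ^ r))) :=
        mul_le_mul_of_nonneg_left (mul_le_mul_of_nonneg_left (hC2 M hM) (by positivity))
          (abs_nonneg _)
    _ = _ := by ring

open Classical in
/-- **the moments at prime arguments**, the main case -/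
theorem main_part (h : AVH SN) (hG : Irr G) (a : Fin 3 → ℤ) (ha : ∀ k, a k ≠ 0)
    (ha2 : a 0 - a 1 = a 2) (D H : ℤ[X]) (hD : 0 < D.natDegree)
    (hDG : Squarefree (mQ (D * ∏ i, G i))) (hHD : Squarefree (mQ (H * D))) (zH : ℕ)
    (hH : ∀ p : ℕ, p.Prime → zH < p → ∀ t : ℤ, (p : ℤ) ∣ H.eval t → (p : ℤ) ∣ (∏ i, G i).eval t)
    (k L : ℕ) :
    ∃ C : ℝ, 0 ≤ C ∧ ∀ (N : ℤ) (M : ℕ), 2 ≤ M → |N| ≤ (M : ℤ) ^ L →
      ∑ t ∈ (Ioc N (N + M)).filter (fun t => (H * D).eval t ≠ 0 ∧ AllPr G t),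
        SN (a 0 * (H * D).eval t) (a 1 * (H * D).eval t) ^ k ≤ C * (M / (Real.log M) ^ r) := by
  set k' := k + 2 * (D * ∏ i, G i).natDegree with hk'
  have hk2 : 2 * (D * ∏ i, G i).natDegree ≤ 4 ^ k' := by
    have h1 : k' < 4 ^ k' := Nat.lt_pow_self (by norm_num)
    omega
  obtain ⟨z1, hz1⟩ := h a D (∏ i, G i) H k' L ha ha2 hDG hD hk2 zH hH
  obtain ⟨z2, hz2⟩ := exp_prod GDPf.gdp hG
  obtain ⟨C1, hC1⟩ := hz1 (z1 + z2) (by omega)
  obtain ⟨C2, hC20, hC2⟩ := hz2 (z1 + z2) (by omega)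
  obtain ⟨C3, hC30, hC3⟩ := small_part a ha ha2 (H * D) hHD hG k
  refine ⟨|C1| * C2 + C3, by positivity, fun N M hM hN => ?_⟩
  have hM0 : (0 : ℝ) ≤ M := Nat.cast_nonneg _
  have hge : ∀ t, (H * D).eval t ≠ 0 → 1 ≤ SN (a 0 * (H * D).eval t) (a 1 * (H * D).eval t) := by
    intro t ht
    refine one_le_SN (mul_ne_zero (ha 0) ht) (mul_ne_zero (ha 1) ht) ?_
    intro h0
    have h1 : (a 0 - a 1) * (H * D).eval t = 0 := by
      rw [sub_mul, h0, sub_self]
    rw [ha2] at h1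
    exact mul_ne_zero (ha 2) ht h1
  -- the large part
  have hlarge : ∑ t ∈ (Ioc N (N + M)).filter (fun t => (H * D).eval t ≠ 0 ∧ AllPr G t ∧
      ∀ i, M < ((G i).eval t).natAbs ^ 2),
        SN (a 0 * (H * D).eval t) (a 1 * (H * D).eval t) ^ k ≤
        |C1| * C2 * (M / (Real.log M) ^ r) := by
    have h1 : ∑ t ∈ (Ioc N (N + M)).filter (fun t => (H * D).eval t ≠ 0 ∧ AllPr G t ∧
      ∀ i, M < ((G i).eval t).natAbs ^ 2),
        SN (a 0 * (H * D).eval t) (a 1 * (H * D).eval t) ^ k ≤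
        ∑ t ∈ (Ioc N (N + M)).filter (fun t => (H * D).eval t ≠ 0 ∧ AllPr G t ∧
      ∀ i, M < ((G i).eval t).natAbs ^ 2),
        SN (a 0 * (H * D).eval t) (a 1 * (H * D).eval t) ^ k' := by
      refine sum_le_sum fun t ht => ?_
      exact pow_le_pow_right₀ (hge t (mem_filter.1 ht).2.1) (by omega)
    refine h1.trans ((to_Ioc (fun t => SN (a 0 * (H * D).eval t) (a 1 * (H * D).eval t) ^ k')
      (fun t => pow_nonneg (SN_nonneg _ _) _) (fun t => (H * D).eval t ≠ 0 ∧ AllPr G t ∧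
      ∀ i, M < ((G i).eval t).natAbs ^ 2) N M).trans ?_)
    refine (hC1 N M (by omega) (natAbs_le_of hN) _ (filter_subset _ _) ?_).trans ?_
    · intro t ht
      have ht' := (mem_filter.1 ht).2
      exact ⟨ht'.1, Sft_of ht'.2.1 ht'.2.2⟩
    · calc C1 * (M * Real.exp (-Sp (fun p => (rho (∏ i, G i) p : ℝ)) (z1 + z2) M))
          ≤ |C1| * (M * Real.exp (-Sp (fun p => (rho (∏ i, G i) p : ℝ)) (z1 + z2) M)) :=
            mul_le_mul_of_nonneg_right (le_abs_self _) (by positivity)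
        _ ≤ |C1| * (M * (C2 / (Real.log M) ^ r)) :=
            mul_le_mul_of_nonneg_left (mul_le_mul_of_nonneg_left (hC2 M hM) hM0) (abs_nonneg _)
        _ = _ := by ring
  have hsmall := hC3 N M hM
  refine le_trans ?_ ((add_le_add hlarge hsmall).trans (le_of_eq (by ring)))
  have hsub : (Ioc N (N + M)).filter (fun t => (H * D).eval t ≠ 0 ∧ AllPr G t) ⊆
      (Ioc N (N + M)).filter (fun t => (H * D).eval t ≠ 0 ∧ AllPr G t ∧
      ∀ i, M < ((G i).eval t).natAbs ^ 2) ∪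
      ((Ioc N (N + M)).filter (fun t => (H * D).eval t ≠ 0)).filter
        (fun t => ∃ i, ((G i).eval t).natAbs ^ 2 ≤ M) := by
    intro t ht
    rw [mem_filter] at ht
    rw [mem_union, mem_filter, mem_filter, mem_filter]
    by_cases hi : ∃ i, ((G i).eval t).natAbs ^ 2 ≤ M
    · exact Or.inr ⟨⟨ht.1, ht.2.1⟩, hi⟩
    · push Not at hi
      exact Or.inl ⟨ht.1, ht.2.1, ht.2.2, hi⟩
  refine (sum_le_sum_of_subset_of_nonneg hsub fun t _ _ => pow_nonneg (SN_nonneg _ _) _).trans ?_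
  have hnn : 0 ≤ ∑ t ∈ ((Ioc N (N + M)).filter (fun t => (H * D).eval t ≠ 0 ∧ AllPr G t ∧
      ∀ i, M < ((G i).eval t).natAbs ^ 2)) ∩
      (((Ioc N (N + M)).filter (fun t => (H * D).eval t ≠ 0)).filter
        (fun t => ∃ i, ((G i).eval t).natAbs ^ 2 ≤ M)),
        SN (a 0 * (H * D).eval t) (a 1 * (H * D).eval t) ^ k :=
    sum_nonneg fun t _ => pow_nonneg (SN_nonneg _ _) _
  have := sum_union_inter (s₁ := (Ioc N (N + M)).filter (fun t => (H * D).eval t ≠ 0 ∧
      AllPr G t ∧ ∀ i, M < ((G i).eval t).natAbs ^ 2))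
      (s₂ := ((Ioc N (N + M)).filter (fun t => (H * D).eval t ≠ 0)).filter
        (fun t => ∃ i, ((G i).eval t).natAbs ^ 2 ≤ M))
      (f := fun t => SN (a 0 * (H * D).eval t) (a 1 * (H * D).eval t) ^ k)
  linarith

/-- the number of the arguments with prime values -/
theorem count_prime (h : AVH SN) (hG : Irr G) (L : ℕ) :
    ∃ C : ℝ, 0 ≤ C ∧ ∀ (N : ℤ) (M : ℕ), 2 ≤ M → |N| ≤ (M : ℤ) ^ L →
      ∀ T : Finset ℤ, T ⊆ Ioc N (N + M) → (∀ t ∈ T, AllPr G t) →
      (T.card : ℝ) ≤ C * (M / (Real.log M) ^ r) := by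
  classical
  have hG0 : (∏ i, G i) ≠ 0 := prod_ne_zero_iff.2 fun i _ => (hG.irr i).ne_zero
  obtain ⟨m, hm⟩ : ∃ m : ℤ, (∏ i, G i).eval m ≠ 0 := by
    by_contra hcon
    push Not at hcon
    exact hG0 (Polynomial.funext fun x => by rw [hcon x, eval_zero])
  have hirr : Irreducible (mQ (X - C m)) := by
    unfold mQ
    rw [Polynomial.map_sub, Polynomial.map_X, Polynomial.map_C]
    exact irreducible_X_sub_C _
  have hsq : Squarefree (mQ ((X - C m) * ∏ i, G i)) := by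
    unfold mQ
    rw [Polynomial.map_mul]
    refine (squarefree_mul_iff).2 ⟨?_, hirr.squarefree, hG.sqf⟩
    refine ((hirr.coprime_iff_not_dvd).2 ?_).isRelPrime
    rw [mQ, Polynomial.map_sub, Polynomial.map_X, Polynomial.map_C, dvd_iff_isRoot, IsRoot.def]
    intro h0
    apply hm
    have h1 := Polynomial.eval_map_apply (f := Int.castRingHom ℚ) (p := ∏ i, G i) m
    rw [h0] at h1
    simpa using h1.symm
  obtain ⟨C1, hC10, hC1⟩ := main_part h hG ![2, 1, 1] (by intro k; fin_cases k <;> simp)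
    (by simp) (X - C m) 1 (by rw [natDegree_X_sub_C]; exact one_pos) hsq
    (by rw [one_mul]; exact hirr.squarefree) 0
    (fun p hp _ t hd => by
      rw [eval_one] at hd
      exact absurd hd (Nat.prime_iff_prime_int.1 hp).not_dvd_one) 1 L
  obtain ⟨C2, hC20, hC2⟩ := sqrt_log r
  refine ⟨C1 + C2, by positivity, fun N M hM hN T hT hT' => ?_⟩
  have hM1 : (1 : ℝ) ≤ M := by exact_mod_cast (by omega : 1 ≤ M)
  have h1 := hC1 N M hM hN
  have h2 : (1 : ℝ) ≤ C2 * (M / (Real.log M) ^ r) := (Real.one_le_sqrt.2 hM1).trans (hC2 M hM)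
  have h3 : ((T.erase m).card : ℝ) ≤ C1 * (M / (Real.log M) ^ r) := by
    refine le_trans ?_ h1
    have h4 : ((T.erase m).card : ℝ) = ∑ t ∈ T.erase m, (1 : ℝ) := by simp
    rw [h4]
    have hne : ∀ t : ℤ, t ≠ m → (1 * (X - C m) : ℤ[X]).eval t ≠ 0 := by
      intro t ht
      rw [one_mul, eval_sub, eval_X, eval_C]
      exact sub_ne_zero.2 ht
    refine (sum_le_sum (g := fun t => SN (![2, 1, 1] 0 * (1 * (X - C m) : ℤ[X]).eval t)
      (![2, 1, 1] 1 * (1 * (X - C m) : ℤ[X]).eval t) ^ 1) fun t ht => ?_).trans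
      (sum_le_sum_of_subset_of_nonneg ?_ fun t _ _ => pow_nonneg (SN_nonneg _ _) _)
    · have hn := hne t (mem_erase.1 ht).1
      rw [pow_one]
      refine one_le_SN (mul_ne_zero (by simp) hn) (mul_ne_zero (by simp) hn) ?_
      intro h0
      have : (2 : ℤ) * (1 * (X - C m) : ℤ[X]).eval t = 1 * (1 * (X - C m) : ℤ[X]).eval t := h0
      apply hn
      linarith
    · intro t ht
      have ht' := mem_erase.1 ht
      rw [mem_filter]
      exact ⟨hT ht'.2, hne t ht'.1, hT' t ht'.2⟩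
  have h4 : (T.card : ℝ) ≤ (T.erase m).card + 1 := by
    exact_mod_cast (by have := pred_card_le_card_erase (s := T) (a := m); omega :
      T.card ≤ (T.erase m).card + 1)
  rw [add_mul]
  linarith

open Classical in
/-- the moments at prime arguments, squarefree polynomials -/
theorem sn_prime (h : AVH SN) (hG : Irr G) (a : Fin 3 → ℤ) (ha : ∀ k, a k ≠ 0)
    (ha2 : a 0 - a 1 = a 2) (P : ℤ[X]) (hP : Squarefree (P.map (Int.castRingHom ℚ)))
    (k L : ℕ) :
    ∃ C : ℝ, 0 ≤ C ∧ ∀ (N : ℤ) (M : ℕ), 2 ≤ M → |N| ≤ (M : ℤ) ^ L →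
      ∑ t ∈ (Ioc N (N + M)).filter (fun t => P.eval t ≠ 0 ∧ AllPr G t),
        SN (a 0 * P.eval t) (a 1 * P.eval t) ^ k ≤ C * (M / (Real.log M) ^ r) := by
  obtain ⟨S, c, hc, hPc, hS⟩ := exists_irr P hP
  set S1 : Finset ℤ[X] := S.filter (fun f => ∃ i, Associated f (G i)) with hS1
  set S2 : Finset ℤ[X] := S.filter (fun f => ¬ ∃ i, Associated f (G i)) with hS2
  set H : ℤ[X] := C c * ∏ f ∈ S1, f with hH
  set D : ℤ[X] := ∏ f ∈ S2, f with hD
  have hPHD : P = H * D := by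
    rw [hPc, hH, hD, mul_assoc]
    congr 1
    exact (prod_filter_mul_prod_filter_not S _ _).symm
  have hprim : ∀ f ∈ S, f.IsPrimitive := fun f hf => (hS f hf).1.isPrimitive (hS f hf).2.ne'
  have hirrQ : ∀ f ∈ S, Irreducible (mQ f) := fun f hf =>
    ((hprim f hf).irreducible_iff_irreducible_map_fraction_map (K := ℚ)).1 (hS f hf).1
  have hsqD : Squarefree (mQ D) := by
    have h1 : mQ P = mQ H * mQ D := by rw [hPHD, mQ, Polynomial.map_mul]
    exact Squarefree.squarefree_of_dvd (Dvd.intro_left _ h1.symm) hP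
  have hassoc : ∀ f ∈ S1, ∃ i, f = G i ∨ f = -G i := by
    intro f hf
    obtain ⟨i, hi⟩ := (mem_filter.1 hf).2
    refine ⟨i, ?_⟩
    obtain ⟨u, hu⟩ := hi.symm
    obtain ⟨w, hw, hw'⟩ := Polynomial.isUnit_iff.1 u.isUnit
    rcases Int.isUnit_iff.1 hw with h1 | h1
    · left
      rw [← hu, ← hw', h1]
      simp
    · right
      rw [← hu, ← hw', h1]
      simp
  rcases Nat.eq_zero_or_pos D.natDegree with h0 | hpos
  · -- the values have few prime factors
    have hS20 : S2 = ∅ := by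
      by_contra hne
      obtain ⟨f, hf⟩ := nonempty_iff_ne_empty.2 hne
      have h1 : D ≠ 0 := prod_ne_zero_iff.2 fun g hg => (hS g (mem_filter.1 hg).1).1.ne_zero
      have h2 : f.natDegree ≤ D.natDegree := natDegree_le_of_dvd (dvd_prod_of_mem _ hf) h1
      have h3 := (hS f (mem_filter.1 hf).1).2
      omega
    have hD1 : D = 1 := by rw [hD, hS20, prod_empty]
    obtain ⟨C1, hC10, hC1⟩ := count_prime h hG L
    set W : ℕ := (2 * a 0 * a 1 * a 2 * c).natAbs.primeFactors.card + S1.card + 2 with hW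
    refine ⟨((4 : ℝ) ^ W) ^ k * C1, by positivity, fun N M hM hN => ?_⟩
    have hb : ∀ t : ℤ, P.eval t ≠ 0 → AllPr G t → SN (a 0 * P.eval t) (a 1 * P.eval t) ≤ 4 ^ W := by
      intro t ht hpr
      have hne3 : (a 0 - a 1) * P.eval t ≠ 0 := by
        rw [ha2]
        exact mul_ne_zero (ha 2) ht
      have hne : a 0 * P.eval t ≠ a 1 * P.eval t := by
        intro h1
        apply hne3
        rw [sub_mul, h1, sub_self]
      refine (SN_le (mul_ne_zero (ha 0) ht) (mul_ne_zero (ha 1) ht) hne).trans ?_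
      refine pow_le_pow_right₀ (by norm_num) ?_
      rw [hW]
      refine Nat.add_le_add_right ?_ 2
      have hsub : (2 * (a 0 * P.eval t) * (a 1 * P.eval t) *
          (a 0 * P.eval t - a 1 * P.eval t)).natAbs.primeFactors ⊆
          (2 * a 0 * a 1 * a 2 * c).natAbs.primeFactors ∪
            S1.image (fun f => (f.eval t).natAbs) := by
        intro p hp
        have hpp := Nat.prime_of_mem_primeFactors hp
        have hpd := Int.natCast_dvd.2 (Nat.dvd_of_mem_primeFactors hp)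
        have hpi := Nat.prime_iff_prime_int.1 hpp
        rw [← sub_mul, ha2] at hpd
        have hne0 : (2 * a 0 * a 1 * a 2 * c) ≠ 0 :=
          mul_ne_zero (mul_ne_zero (mul_ne_zero (mul_ne_zero two_ne_zero (ha 0)) (ha 1)) (ha 2)) hc
        have hcon : (p : ℤ) ∣ 2 * a 0 * a 1 * a 2 * c ∨ (p : ℤ) ∣ ∏ f ∈ S1, f.eval t := by
          have hPe : P.eval t = c * ∏ f ∈ S1, f.eval t := by
            rw [hPHD, hD1, mul_one, hH, eval_mul, eval_C, eval_prod]
          have h1 : (p : ℤ) ∣ (2 * a 0 * a 1 * a 2 * c) * ((c * c) * (∏ f ∈ S1, f.eval t) ^ 3) := by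
            rw [hPe] at hpd
            refine hpd.trans (dvd_of_eq ?_)
            ring
          rcases hpi.dvd_mul.1 h1 with h2 | h2
          · exact Or.inl h2
          rcases hpi.dvd_mul.1 h2 with h3 | h3
          · rcases hpi.dvd_mul.1 h3 with h4 | h4
            · exact Or.inl (h4.mul_left _)
            · exact Or.inl (h4.mul_left _)
          · exact Or.inr (hpi.dvd_of_dvd_pow h3)
        rw [mem_union]
        rcases hcon with h1 | h1
        · left
          rw [Nat.mem_primeFactors]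
          exact ⟨hpp, Int.natCast_dvd.1 h1, Int.natAbs_ne_zero.2 hne0⟩
        · right
          obtain ⟨f, hf, hfd⟩ := (hpi.dvd_finsetProd_iff _).1 h1
          rw [mem_image]
          refine ⟨f, hf, ?_⟩
          obtain ⟨i, hi⟩ := hassoc f hf
          have h2 : (f.eval t).natAbs = ((G i).eval t).natAbs := by
            rcases hi with hi | hi
            · rw [hi]
            · rw [hi, eval_neg, Int.natAbs_neg]
          rw [h2]
          have h3 : p ∣ ((G i).eval t).natAbs := by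
            rw [← h2]
            exact Int.natCast_dvd.1 hfd
          exact ((Nat.prime_dvd_prime_iff_eq hpp (hpr i)).1 h3).symm
      refine (card_le_card hsub).trans ((card_union_le _ _).trans ?_)
      exact Nat.add_le_add_left card_image_le _
    calc ∑ t ∈ (Ioc N (N + M)).filter (fun t => P.eval t ≠ 0 ∧ AllPr G t),
        SN (a 0 * P.eval t) (a 1 * P.eval t) ^ k
        ≤ ∑ t ∈ (Ioc N (N + M)).filter (fun t => P.eval t ≠ 0 ∧ AllPr G t),
          ((4 : ℝ) ^ W) ^ k := by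
          refine sum_le_sum fun t ht => ?_
          have ht' := (mem_filter.1 ht).2
          exact pow_le_pow_left₀ (SN_nonneg _ _) (hb t ht'.1 ht'.2) k
      _ = ((4 : ℝ) ^ W) ^ k *
          (((Ioc N (N + M)).filter (fun t => P.eval t ≠ 0 ∧ AllPr G t)).card : ℝ) := by
          rw [sum_const, nsmul_eq_mul, mul_comm]
      _ ≤ ((4 : ℝ) ^ W) ^ k * (C1 * (M / (Real.log M) ^ r)) := by
          refine mul_le_mul_of_nonneg_left ?_ (by positivity)
          exact hC1 N M hM hN _ (filter_subset _ _) fun t ht => (mem_filter.1 ht).2.2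
      _ = _ := by ring
  · -- the main case
    rw [hPHD]
    refine main_part h hG a ha ha2 D H hpos ?_ (by rw [← hPHD]; exact hP) c.natAbs ?_ k L
    · unfold mQ
      rw [Polynomial.map_mul]
      refine (squarefree_mul_iff).2 ⟨?_, hsqD, hG.sqf⟩
      rw [hD, Polynomial.map_prod, Polynomial.map_prod]
      refine (IsCoprime.prod_left fun f hf => IsCoprime.prod_right fun i _ => ?_).isRelPrime
      have hf' := mem_filter.1 hf
      refine ((hirrQ f hf'.1).coprime_iff_not_dvd).2 fun hd => hf'.2 ⟨i, ?_⟩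
      have h1 : f ∣ G i :=
        (IsPrimitive.Int.dvd_iff_map_cast_dvd_map_cast f (G i) (hprim f hf'.1)).2 hd
      exact (hS f hf'.1).1.associated_of_dvd (hG.irr i) h1
    · intro p hp hz t hd
      have hpi := Nat.prime_iff_prime_int.1 hp
      rw [hH, eval_mul, eval_C, eval_prod] at hd
      rcases hpi.dvd_mul.1 hd with h1 | h1
      · exfalso
        have := Nat.le_of_dvd (Int.natAbs_pos.2 hc) (Int.natCast_dvd.1 h1)
        omega
      · obtain ⟨f, hf, hfd⟩ := (hpi.dvd_finsetProd_iff _).1 h1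
        obtain ⟨i, hi⟩ := hassoc f hf
        rw [eval_prod]
        refine Dvd.dvd.trans ?_ (dvd_prod_of_mem _ (mem_univ i))
        rcases hi with hi | hi
        · rwa [hi] at hfd
        · rwa [hi, eval_neg, dvd_neg] at hfd

open Classical in
/-- **all the moments of the 2-Selmer groups of the twists by the values of a polynomial, at the
arguments where given polynomials take prime values** -/
theorem sel_prime (h : AVH SN) (hG : Irr G) {A B e1 e2 e3 : ℤ}
    (hE : 4 * A ^ 3 + 27 * B ^ 2 ≠ 0)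
    (he : ∀ x : ℤ, x ^ 3 + A * x + B = (x - e1) * (x - e2) * (x - e3)) (D : ℤ[X]) (hD : D ≠ 0)
    (k L : ℕ) :
    ∃ C : ℝ, 0 ≤ C ∧ ∀ (N : ℤ) (M : ℕ), 2 ≤ M → |N| ≤ (M : ℤ) ^ L →
      ∑ t ∈ (Ioc N (N + M)).filter (fun t => D.eval t ≠ 0 ∧ AllPr G t),
        ((SelR ((D.eval t) ^ 2 * A) ((D.eval t) ^ 3 * B)).ncard : ℝ) ^ k ≤
          C * (M / (Real.log M) ^ r) := by
  obtain ⟨D₁, D₂, hfac, hsq⟩ := exists_fac D hD
  obtain ⟨h12, h13, h23⟩ := Pool.Agent.TH639.SL.disc_ne hE he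
  obtain ⟨C, hC0, hC⟩ := sn_prime h hG ![e2 - e1, e3 - e1, e2 - e3] (by
      intro i
      fin_cases i
      · exact h12
      · exact h13
      · exact h23)
    (by
      change (e2 - e1) - (e3 - e1) = e2 - e3
      ring) D₁ hsq k L
  refine ⟨C, hC0, fun N M hM hN => le_trans ?_ (hC N M hM hN)⟩
  have hev : ∀ t, D.eval t = D₁.eval t * D₂.eval t ^ 2 := by
    intro t
    rw [hfac, eval_mul, eval_pow]
  refine (sum_le_sum fun t ht => ?_).trans (sum_le_sum_of_subset_of_nonneg (f := fun t =>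
    SN ((e2 - e1) * D₁.eval t) ((e3 - e1) * D₁.eval t) ^ k) ?_ ?_)
  · have ht' := (mem_filter.1 ht).2.1
    refine pow_le_pow_left₀ (Nat.cast_nonneg _) ?_ k
    have := (Pool.Agent.TH841.NF.sel_tw2 hE he (c := 1) (P := D₁.eval t) (w := D₂.eval t) ht'
      (by rw [one_mul]; exact hev t)).2
    rwa [mul_one, mul_one] at this
  · intro t ht
    rw [mem_filter] at ht ⊢
    refine ⟨ht.1, fun h0 => ht.2.1 ?_, ht.2.2⟩
    rw [hev, h0, zero_mul]
  · intro t _ _
    exact pow_nonneg (SN_nonneg _ _) _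

end

end Pool.Agent.TH841.PT
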