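import Mathlib
import Pool.Agent.TH841.PT.PrimeM

/-!
# Project PT: Tate-Shafarevich groups at prime arguments
-/

set_option autoImplicit false

namespace Pool.Agent.TH841.PT

open Finset Polynomial

open Pool.Agent.W307.SE (SN SelR)

section Q

open Pool.Agent.TH841.SH.D (ShaTor HasDiv rk)

open Classical in
/-- the Tate-Shafarevich groups of the twists by the values of a polynomial at the arguments where
given polynomials take prime values -/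
theorem sha_prime (h : AVH SN) {r : ℕ} {G : Fin r → ℤ[X]} (hG : Irr G) {A B e₁ e₂ e₃ : ℤ}
    (hE : 4 * A ^ 3 + 27 * B ^ 2 ≠ 0)
    (he : ∀ x : ℤ, x ^ 3 + A * x + B = (x - e₁) * (x - e₂) * (x - e₃)) (D : ℤ[X]) (hD : D ≠ 0)
    (s L : ℕ) :
    ∃ C : ℝ, ∀ (N : ℤ) (M : ℕ), 2 ≤ M → |N| ≤ (M : ℤ) ^ L →
      (∀ t ∈ (Ioc N (N + M)).filter (fun t => D.eval t ≠ 0 ∧ AllPr G t), ∀ k : ℕ,
        Finite (ShaTor (TwQ A B (D.eval t)) (2 ^ k))) ∧
      (∀ k : ℕ, 1 ≤ k → ∑ t ∈ (Ioc N (N + M)).filter (fun t => D.eval t ≠ 0 ∧ AllPr G t),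
        ((2 : ℝ) ^ rk (TwQ A B (D.eval t)) *
        (Nat.card (ShaTor (TwQ A B (D.eval t)) (2 ^ k)) : ℝ) ^ ((1 : ℝ) / k)) ^ s ≤
          C * (M / (Real.log M) ^ r)) ∧
      ∀ n q : ℕ, ((((Ioc N (N + M)).filter (fun t => D.eval t ≠ 0 ∧ AllPr G t)).filter (fun t =>
        n ≤ rk (TwQ A B (D.eval t)) ∧ HasDiv (TwQ A B (D.eval t)) q)).card : ℝ) ≤
          C * (M / (Real.log M) ^ r) / 2 ^ (s * (n + q)) := by
  obtain ⟨C, _, hC⟩ := sel_prime h hG hE he D hD s L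
  refine ⟨C, fun N M hM hN => ?_⟩
  have hbd : ∀ t ∈ (Ioc N (N + M)).filter (fun t => D.eval t ≠ 0 ∧ AllPr G t),
      Pool.Agent.TH841.SH.Bd (TwQ A B (D.eval t))
        ((SelR ((D.eval t) ^ 2 * A) ((D.eval t) ^ 3 * B)).ncard : ℝ) := by
    intro t ht
    have hd := (mem_filter.1 ht).2.1
    exact Pool.Agent.TH841.SH.bd_selR (Pool.Agent.TH639.SL.disc_tw hd hE)
      (Pool.Agent.TH639.SL.roots_tw he _) (Pool.Agent.TH639.SL.sel_tw hE he hd).1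
  exact Pool.Agent.TH841.SH.family
    ((Ioc N (N + M)).filter (fun t => D.eval t ≠ 0 ∧ AllPr G t))
    (fun t => TwQ A B (D.eval t)) _ (C * (M / (Real.log M) ^ r)) s hbd (hC N M hM hN)

end Q

section F

open Pool.Agent.TH841.NF (EF Gen)

open Pool.Agent.TH841.NF.D (HasDiv crk rk)

open Classical in
/-- the twists by `D₀(t)` over the fields `ℚ(√D₁(t), ..., √D_s(t))`, at prime arguments -/
theorem mq_prime (h : AVH SN) {r : ℕ} {G : Fin r → ℤ[X]} (hG : Irr G) {A B e₁ e₂ e₃ : ℤ}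
    (hE : 4 * A ^ 3 + 27 * B ^ 2 ≠ 0)
    (he : ∀ x : ℤ, x ^ 3 + A * x + B = (x - e₁) * (x - e₂) * (x - e₃))
    (s : ℕ) (D₀ : ℤ[X]) (hD₀ : D₀ ≠ 0) (D : Fin s → ℤ[X]) (hD : ∀ i, D i ≠ 0) (k L : ℕ) :
    ∃ C : ℝ, ∀ (N : ℤ) (M : ℕ), 2 ≤ M → |N| ≤ (M : ℤ) ^ L →
      ∀ (F : ℤ → Type) [∀ t, Field (F t)] [∀ t, NumberField (F t)],
      (∀ t ∈ (Ioc N (N + M)).filter (fun t => (D₀.eval t ≠ 0 ∧ ∀ i, (D i).eval t ≠ 0) ∧
        AllPr G t), Gen (F t) (fun i => (D i).eval t)) →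
      ∀ W : ∀ t, WeierstrassCurve (F t),
      (∀ t, W t = EF ((D₀.eval t) ^ 2 * A) ((D₀.eval t) ^ 3 * B) (F t)) →
      (∀ t ∈ (Ioc N (N + M)).filter (fun t => (D₀.eval t ≠ 0 ∧ ∀ i, (D i).eval t ≠ 0) ∧
        AllPr G t), BddAbove {q | HasDiv (W t) q}) ∧
      ∑ t ∈ (Ioc N (N + M)).filter (fun t => (D₀.eval t ≠ 0 ∧ ∀ i, (D i).eval t ≠ 0) ∧
        AllPr G t), ((2 : ℝ) ^ (rk (W t) + crk (W t))) ^ k ≤ C * (M / (Real.log M) ^ r) ∧
      ∀ n : ℕ, ((((Ioc N (N + M)).filter (fun t => (D₀.eval t ≠ 0 ∧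
        ∀ i, (D i).eval t ≠ 0) ∧ AllPr G t)).filter
        (fun t => n ≤ rk (W t) + crk (W t))).card : ℝ) ≤
        C * (M / (Real.log M) ^ r) / 2 ^ (k * n) := by
  have hne : ∀ T : Finset (Fin s), D₀ * ∏ i ∈ T, D i ≠ 0 := fun T =>
    mul_ne_zero hD₀ (prod_ne_zero_iff.2 fun i _ => hD i)
  choose C _ hC using fun T : Finset (Fin s) => sel_prime h hG hE he (D₀ * ∏ i ∈ T, D i) (hne T)
    (Fintype.card (Finset (Fin s)) * k) L
  refine ⟨∑ T, C T, fun N M hM hN F _ _ hF W hW => ?_⟩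
  have hev : ∀ (T : Finset (Fin s)) (t : ℤ), (D₀ * ∏ i ∈ T, D i).eval t =
      D₀.eval t * ∏ i ∈ T, (D i).eval t := by
    intro T t
    rw [eval_mul, eval_prod]
  refine Pool.Agent.TH841.NF.famN _ F W (fun t => ∏ T : Finset (Fin s),
    ((SelR (((D₀ * ∏ i ∈ T, D i).eval t) ^ 2 * A)
      (((D₀ * ∏ i ∈ T, D i).eval t) ^ 3 * B)).ncard : ℝ)) k _ ?_ ?_
  · intro t ht q hq
    have ht' := (mem_filter.1 ht).2.1
    rw [hW t] at hq ⊢
    have hne' : ∀ T : Finset (Fin s), (D₀ * ∏ i ∈ T, D i).eval t ≠ 0 := by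
      intro T
      rw [hev]
      exact mul_ne_zero ht'.1 (prod_ne_zero_iff.2 fun i _ => ht'.2 i)
    have e2 : ∀ T : Finset (Fin s), (∏ i ∈ T, (D i).eval t) ^ 2 *
        (D₀.eval t ^ 2 * A) = ((D₀ * ∏ i ∈ T, D i).eval t) ^ 2 * A := by
      intro T
      rw [hev]
      ring
    have e3 : ∀ T : Finset (Fin s), (∏ i ∈ T, (D i).eval t) ^ 3 *
        (D₀.eval t ^ 3 * B) = ((D₀ * ∏ i ∈ T, D i).eval t) ^ 3 * B := by
      intro T
      rw [hev]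
      ring
    refine Pool.Agent.TH841.NF.one_field (d := fun i => (D i).eval t) (hF t ht)
      (fun i => ht'.2 i) (Pool.Agent.TH639.SL.disc_tw ht'.1 hE) _ ?_ ?_ hq
    · intro T
      rw [e2, e3]
      exact Pool.Agent.TH841.SH.bd_selR (Pool.Agent.TH639.SL.disc_tw (hne' T) hE)
        (Pool.Agent.TH639.SL.roots_tw he _) (Pool.Agent.TH639.SL.sel_tw hE he (hne' T)).1
    · intro T
      rw [e2, e3]
      exact Pool.Agent.W307.RG.fin_tw hE he (hne' T)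
  · rw [sum_mul]
    refine le_trans ?_ (sum_le_sum fun T _ => hC T N M hM hN)
    refine (sum_le_sum fun t _ => Pool.Agent.TH841.NF.prod_pow_le _
      (fun T => Nat.cast_nonneg _) k).trans ?_
    rw [sum_comm]
    refine sum_le_sum fun T _ => ?_
    refine sum_le_sum_of_subset_of_nonneg ?_ (fun t _ _ => by positivity)
    intro t ht
    rw [mem_filter] at ht ⊢
    refine ⟨ht.1, ?_, ht.2.2⟩
    rw [hev]
    exact mul_ne_zero ht.2.1.1 (prod_ne_zero_iff.2 fun i _ => ht.2.1.2 i)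

end F

end Pool.Agent.TH841.PT
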