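import Mathlib
import Pool.Agent.TH841.PT.Stm
import Pool.Agent.W340.RT.SVR2

/-!
# PT-SVP: upper bound sieve in a residue class for general residue classes
-/

set_option autoImplicit false

namespace Pool.Agent.TH841.PT.SVPf

open Finset Polynomial Pool.Agent.W262.RK Pool.Agent.TH841.PT

/-- the sieving condition -/
def QZ (Z : ℕ → ℕ → Prop) (z y r m p n : ℕ) : Prop :=
  p ∈ PS z y ∧ ¬ p ∣ m ∧ Z p ((r % m + m * (n + (p - 1))) % p)

lemma QZ_per (Z : ℕ → ℕ → Prop) (z y r m p n : ℕ) :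
    QZ Z z y r m p n ↔ QZ Z z y r m p (n % p) := by
  unfold QZ
  have h : (r % m + m * (n + (p - 1))) % p = (r % m + m * (n % p + (p - 1))) % p := by
    have h1 : n ≡ n % p [MOD p] := (Nat.mod_modEq n p).symm
    exact (Nat.ModEq.refl _).add ((Nat.ModEq.refl m).mul (h1.add (Nat.ModEq.refl _)))
  rw [h]

open Classical in
lemma countZ_le (Z : ℕ → ℕ → Prop) (z y X m r : ℕ)
    (hZ : ∀ p ∈ PS z y, ∀ n, Z p n ↔ Z p (n % p)) :
    ((Icc 1 X).filter (fun t : ℕ => t ≡ r [MOD m] ∧ ∀ p ∈ PS z y, ¬ p ∣ m → ¬ Z p t)).card ≤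
      ((Icc 1 (X / m + 1)).filter
        (fun n : ℕ => ∀ p ∈ Pool.Agent.H373R2.T7.pz y, ¬ QZ Z z y r m p n)).card := by
  apply card_le_card_of_injOn (fun t => t / m + 1)
  · intro t ht
    have ht' := Finset.mem_coe.1 ht
    have htX := mem_Icc.1 (mem_filter.1 ht').1
    obtain ⟨hmod, hnd⟩ := (mem_filter.1 ht').2
    rw [Finset.mem_coe, mem_filter, mem_Icc]
    refine ⟨⟨Nat.le_add_left 1 _, Nat.succ_le_succ (Nat.div_le_div_right htX.2)⟩, fun p _ hQ => ?_⟩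
    obtain ⟨hpPS, hpm, hQ⟩ := hQ
    have hp1 : 1 ≤ p := (Pool.Agent.W21.RK.mem_PS.1 hpPS).2.one_le
    have e : (r % m + m * (t / m + 1 + (p - 1))) = t + m * p := by
      have h1 : t % m = r % m := hmod
      have h2 : t / m + 1 + (p - 1) = t / m + p := by omega
      rw [← h1, h2, mul_add, ← add_assoc, Nat.mod_add_div]
    rw [e, Nat.add_mul_mod_self_right] at hQ
    exact hnd p hpPS hpm ((hZ p hpPS t).2 hQ)
  · intro a ha b hb hab
    have ha' : a % m = r % m := (mem_filter.1 (Finset.mem_coe.1 ha)).2.1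
    have hb' : b % m = r % m := (mem_filter.1 (Finset.mem_coe.1 hb)).2.1
    simp only at hab
    have h1 : a / m = b / m := by omega
    rw [← Nat.mod_add_div a m, ← Nat.mod_add_div b m, ha', hb', h1]

open Classical in
lemma nuZ_eq (Z : ℕ → ℕ → Prop) (z y r m p : ℕ) (hp : p ∈ PS z y) (hpm : ¬ p ∣ m) :
    Pool.Agent.H373R2.T7.nuB (QZ Z z y r m) p = ((range p).filter (fun n => Z p n)).card := by
  have hpp : p.Prime := (Pool.Agent.W21.RK.mem_PS.1 hp).2
  unfold Pool.Agent.H373R2.T7.nuB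
  let σ : ℕ → ℕ := fun n => (r % m + m * (n + (p - 1))) % p
  have hσ : ∀ n, σ n ∈ range p := fun n => mem_range.2 (Nat.mod_lt _ hpp.pos)
  have hinj : Set.InjOn σ (range p : Set ℕ) := by
    intro a ha b hb hab
    have ha' := mem_range.1 (mem_coe.1 ha)
    have hb' := mem_range.1 (mem_coe.1 hb)
    have h1 : r % m + m * (a + (p - 1)) ≡ r % m + m * (b + (p - 1)) [MOD p] := hab
    have h2 := Nat.ModEq.add_left_cancel' _ h1
    have h3 : a + (p - 1) ≡ b + (p - 1) [MOD p] :=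
      Nat.ModEq.cancel_left_of_coprime ((Nat.Prime.coprime_iff_not_dvd hpp).2 hpm) h2
    have h4 := Nat.ModEq.add_right_cancel' _ h3
    have h5 : a % p = b % p := h4
    rwa [Nat.mod_eq_of_lt ha', Nat.mod_eq_of_lt hb'] at h5
  have himg : (range p).image σ = range p :=
    eq_of_subset_of_card_le (image_subset_iff.2 fun n _ => hσ n)
      (by rw [card_image_of_injOn hinj])
  have h1 : ((range p).filter (fun n => Z p n)) =
      ((range p).filter (fun n => QZ Z z y r m p n)).image σ := by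
    ext k
    rw [mem_filter, mem_image]
    constructor
    · rintro ⟨hk, hZk⟩
      rw [← himg, mem_image] at hk
      obtain ⟨n, hn, rfl⟩ := hk
      exact ⟨n, mem_filter.2 ⟨hn, hp, hpm, hZk⟩, rfl⟩
    · rintro ⟨n, hn, rfl⟩
      rw [mem_filter] at hn
      exact ⟨hσ n, hn.2.2.2⟩
  rw [h1, card_image_of_injOn (hinj.mono (fun n hn => (mem_filter.1 (mem_coe.1 hn)).1))]

set_option maxHeartbeats 1000000 in
theorem svp : SVP := by
  classical
  intro c z hz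
  obtain ⟨K', x0', hK', hF⟩ := Pool.Agent.H373R2.T7.sys_fund (c + 1) (by omega) 1 one_pos
  refine ⟨4 + Real.exp c, 2 * (K' + c), max x0' 3, by positivity, by omega,
    fun X y hy hzy hyX Z ν hZ hν m r hm1 hmX4 => ?_⟩
  have hy0 : x0' ≤ y := (le_max_left _ _).trans hy
  have hy3 : 3 ≤ y := (le_max_right _ _).trans hy
  have hmpos : 0 < m := hm1
  have hr := countZ_le Z z y X m r hZ
  have hnu : ∀ p ∈ PS z y, ¬ p ∣ m →
      Pool.Agent.H373R2.T7.nuB (QZ Z z y r m) p = ν p := by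
    intro p hp hpm
    rw [nuZ_eq Z z y r m p hp hpm, ← (hν p hp).1]
  have hnu0 : ∀ p, ¬ (p ∈ PS z y ∧ ¬ p ∣ m) →
      Pool.Agent.H373R2.T7.nuB (QZ Z z y r m) p = 0 := by
    intro p hp
    unfold Pool.Agent.H373R2.T7.nuB
    rw [card_eq_zero, filter_eq_empty_iff]
    intro n _ hn
    exact hp ⟨hn.1, hn.2.1⟩
  have hPer : Pool.Agent.H373R2.T7.PerB (QZ Z z y r m) (c + 1) := by
    refine ⟨fun p n => QZ_per Z z y r m p n, fun p _ => ?_⟩
    by_cases h : p ∈ PS z y ∧ ¬ p ∣ m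
    · rw [hnu p h.1 h.2]
      exact (hν p h.1).2.trans (Nat.le_succ c)
    · rw [hnu0 p h]
      exact Nat.zero_le _
  have hfund := hF (y ^ K') y hy0 le_rfl (QZ Z z y r m) hPer (X / m + 1)
  have hprod : ∏ p ∈ Pool.Agent.H373R2.T7.pz y,
      (1 - ((Pool.Agent.H373R2.T7.nuB (QZ Z z y r m) p : ℕ) : ℝ) / p) =
      ∏ p ∈ (PS z y).filter (fun p => ¬ p ∣ m), (1 - (ν p : ℝ) / p) := by
    have h1 : ∏ p ∈ (PS z y).filter (fun p => ¬ p ∣ m),
        (1 - ((Pool.Agent.H373R2.T7.nuB (QZ Z z y r m) p : ℕ) : ℝ) / p) =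
        ∏ p ∈ Pool.Agent.H373R2.T7.pz y,
      (1 - ((Pool.Agent.H373R2.T7.nuB (QZ Z z y r m) p : ℕ) : ℝ) / p) := by
      apply prod_subset
      · intro p hp
        rw [mem_filter, Pool.Agent.W21.RK.mem_PS] at hp
        exact Pool.Agent.H373R2.T7.mem_pz.2 ⟨hp.1.1.2, hp.1.2⟩
      · intro p _ hp
        rw [mem_filter] at hp
        rw [hnu0 p hp]
        simp
    rw [← h1]
    refine prod_congr rfl fun p hp => ?_
    rw [mem_filter] at hp
    rw [hnu p hp.1 hp.2]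
  rw [hprod] at hfund
  obtain ⟨A, hA⟩ : ∃ A : ℝ, A = ∏ p ∈ (PS z y).filter (fun p => ¬ p ∣ m), (1 - (ν p : ℝ) / p) :=
    ⟨_, rfl⟩
  obtain ⟨S, hS⟩ : ∃ S : ℝ, S = ∑ p ∈ (PS z y).filter (fun p => ¬ p ∣ m), (ν p : ℝ) / p :=
    ⟨_, rfl⟩
  have hfnn : ∀ p ∈ PS z y, 0 ≤ 1 - (ν p : ℝ) / p := by
    intro p hp
    have h1 := (hν p hp).2
    have h2 := (Pool.Agent.W21.RK.mem_PS.1 hp).1.1
    have hp0 : (0 : ℝ) < p := by exact_mod_cast (Pool.Agent.W21.RK.mem_PS.1 hp).2.pos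
    rw [sub_nonneg, div_le_one hp0]
    exact_mod_cast (by omega : ν p ≤ p)
  have hAS : A ≤ Real.exp (-S) := by
    rw [hA, hS, ← sum_neg_distrib, Real.exp_sum]
    refine prod_le_prod (fun p hp => hfnn p (mem_filter.1 hp).1) fun p _ => ?_
    have := Real.add_one_le_exp (-((ν p : ℝ) / p))
    linarith
  have hyr : (3 : ℝ) ≤ y := by exact_mod_cast hy3
  have hSle : S ≤ c * (1 + Real.log y) := by
    have h1 : S ≤ ∑ p ∈ Pool.Agent.H373R2.T7.pz y, (c : ℝ) * (1 / p) := by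
      rw [hS]
      have h2 : ∑ p ∈ (PS z y).filter (fun p => ¬ p ∣ m), (ν p : ℝ) / p ≤
          ∑ p ∈ (PS z y).filter (fun p => ¬ p ∣ m), (c : ℝ) * (1 / p) := by
        refine sum_le_sum fun p hp => ?_
        rw [mul_one_div]
        have h3 : (ν p : ℝ) ≤ c := by exact_mod_cast (hν p (mem_filter.1 hp).1).2
        gcongr
      refine h2.trans (sum_le_sum_of_subset_of_nonneg ?_ fun _ _ _ => by positivity)
      intro p hp
      rw [mem_filter, Pool.Agent.W21.RK.mem_PS] at hp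
      exact Pool.Agent.H373R2.T7.mem_pz.2 ⟨hp.1.1.2, hp.1.2⟩
    rw [← mul_sum] at h1
    refine h1.trans (mul_le_mul_of_nonneg_left ?_ (Nat.cast_nonneg c))
    exact Pool.Agent.H373R2.T7.sum_pz_le y
  have hexp : 1 ≤ Real.exp c * (y : ℝ) ^ c * Real.exp (-S) := by
    have h1 : (y : ℝ) ^ c = Real.exp (c * Real.log y) := by
      rw [mul_comm, Real.exp_mul, Real.exp_log (by linarith), Real.rpow_natCast]
    rw [h1, ← Real.exp_add, ← Real.exp_add]
    apply Real.one_le_exp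
    linarith
  have hmX : m * y ^ (K' + c) ≤ X := by
    have h1 : (m * y ^ (K' + c)) ^ 4 ≤ X ^ 4 := by
      calc (m * y ^ (K' + c)) ^ 4 = m ^ 4 * (y ^ (K' + c)) ^ 4 := by rw [mul_pow]
        _ ≤ m ^ 4 * (y ^ (K' + c)) ^ 6 := by
          apply Nat.mul_le_mul_left
          exact Nat.pow_le_pow_right (pow_pos (by omega) _) (by norm_num)
        _ = m ^ 4 * (y ^ (2 * (K' + c))) ^ 3 := by ring
        _ ≤ X * X ^ 3 := Nat.mul_le_mul hmX4 (Nat.pow_le_pow_left hyX 3)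
        _ = X ^ 4 := by ring
    exact (Nat.pow_le_pow_iff_left (by norm_num)).1 h1
  have hmX' : m ≤ X := by
    refine le_trans ?_ hmX
    exact Nat.le_mul_of_pos_right _ (pow_pos (by omega) _)
  have hmr : (0 : ℝ) < m := by exact_mod_cast hmpos
  have hcnt : (((Icc 1 X).filter (fun t : ℕ => t ≡ r [MOD m] ∧ ∀ p ∈ PS z y, ¬ p ∣ m →
      ¬ Z p t)).card : ℝ) ≤
      2 * (((X / m + 1 : ℕ) : ℝ) * A) + √((y ^ K' : ℕ) : ℝ) := by
    have h1 : (((Icc 1 X).filter (fun t : ℕ => t ≡ r [MOD m] ∧ ∀ p ∈ PS z y, ¬ p ∣ m →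
        ¬ Z p t)).card : ℝ) ≤
      (((Icc 1 (X / m + 1)).filter
        (fun n : ℕ => ∀ p ∈ Pool.Agent.H373R2.T7.pz y, ¬ QZ Z z y r m p n)).card : ℝ) := by
      exact_mod_cast hr
    have h2 := (abs_le.1 hfund).2
    rw [one_mul, ← hA] at h2
    linarith
  have hX' : ((X / m + 1 : ℕ) : ℝ) ≤ 2 * (X / m) := by
    have h1 : (X / m + 1) * m ≤ 2 * X := by
      have := Nat.div_mul_le_self X m
      rw [add_mul, one_mul]
      omega
    have h2 : ((X / m + 1 : ℕ) : ℝ) * m ≤ 2 * X := by exact_mod_cast h1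
    rw [← mul_div_assoc, le_div_iff₀ hmr]
    exact h2
  have hsq : √((y ^ K' : ℕ) : ℝ) ≤ Real.exp c * (X / m) * Real.exp (-S) := by
    have h1 : (1 : ℝ) ≤ ((y ^ K' : ℕ) : ℝ) := by
      exact_mod_cast Nat.one_le_iff_ne_zero.2 (pow_ne_zero _ (by omega))
    have h2 : √((y ^ K' : ℕ) : ℝ) ≤ ((y ^ K' : ℕ) : ℝ) := by
      rw [Real.sqrt_le_left (by linarith)]
      nlinarith
    refine h2.trans ?_
    have h4 : (m : ℝ) * (y : ℝ) ^ (K' + c) ≤ X := by exact_mod_cast hmX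
    have h5 : (y : ℝ) ^ (K' + c) ≤ X / m := by
      rw [le_div_iff₀ hmr, mul_comm]
      exact h4
    push_cast
    calc (y : ℝ) ^ K' = (y : ℝ) ^ K' * 1 := (mul_one _).symm
      _ ≤ (y : ℝ) ^ K' * (Real.exp c * (y : ℝ) ^ c * Real.exp (-S)) :=
          mul_le_mul_of_nonneg_left hexp (by positivity)
      _ = Real.exp c * (y : ℝ) ^ (K' + c) * Real.exp (-S) := by rw [pow_add]; ring
      _ ≤ Real.exp c * (X / m) * Real.exp (-S) := by gcongr
  have hmain : 2 * (((X / m + 1 : ℕ) : ℝ) * A) ≤ 4 * (X / m) * Real.exp (-S) := by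
    have hA0 : 0 ≤ A := by
      rw [hA]; exact prod_nonneg fun p hp => hfnn p (mem_filter.1 hp).1
    calc 2 * (((X / m + 1 : ℕ) : ℝ) * A) ≤ 2 * ((2 * (X / m)) * Real.exp (-S)) := by gcongr
      _ = _ := by ring
  rw [← hS]
  have hfin : (((Icc 1 X).filter (fun t : ℕ => t ≡ r [MOD m] ∧ ∀ p ∈ PS z y, ¬ p ∣ m →
      ¬ Z p t)).card : ℝ) ≤ (4 + Real.exp c) * (X / m) * Real.exp (-S) := by
    refine hcnt.trans ((add_le_add hmain hsq).trans (le_of_eq ?_))
    ring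
  convert hfin using 3

end Pool.Agent.TH841.PT.SVPf
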