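import Mathlib
import Pool.Agent.TH841.PT.FamP
import Pool.Agent.TH841.PT.CNTH
import Pool.Agent.TH841.PT.SVP

/-!
# Project PT: assembly, prime arguments
-/

set_option autoImplicit false

namespace Pool.Agent.TH841.PT

open Pool.Agent.W307.SE (SN)

theorem cnth : CNTH := CNTHf.cnth_of SVPf.svp

theorem avh : AVH SN := avh_of cnth

end Pool.Agent.TH841.PT
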