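import Mathlib
import Pool.Agent.TH841.PT.Fam3
import Pool.Agent.TH841.PT.Fac
import Pool.Agent.TH841.PT.Fact8
import Pool.Agent.TH841.NF.FamN
import Pool.Agent.TH639.SL.Twist
import Pool.Agent.W307.RG.MqTw

/-!
# Project PT: pencils twisted by an arbitrary polynomial
-/

set_option autoImplicit false

namespace Pool.Agent.TH841.PT

open Finset Polynomial Pool.Agent.W262.RK

open Pool.Agent.W307.SE (SN Sel SelR Loc SN_nonneg sel_fin)

/-! ### Squares -/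

lemma loc_sq_aux {K : Type} [Field K] {A B d1 d2 : ℤ} {A' B' : ℤ} {c : K} (hc : c ≠ 0)
    (hA : (A' : K) = A * c ^ 2) (hB : (B' : K) = B * c ^ 2) (h : Loc K A B d1 d2) :
    Loc K A' B' d1 d2 := by
  obtain ⟨x, y, hy, h1, ⟨u, hu⟩, ⟨v, hv⟩⟩ := h
  refine ⟨c ^ 2 * x, c ^ 3 * y, mul_ne_zero (pow_ne_zero 3 hc) hy, ?_, ⟨c * u, ?_⟩, ⟨c * v, ?_⟩⟩
  · rw [hA, hB]
    linear_combination c ^ 6 * h1
  · linear_combination c ^ 2 * hu
  · rw [hA]
    linear_combination c ^ 2 * hv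

lemma sel_sq {A B w : ℤ} (hw : w ≠ 0) : Sel (A * w ^ 2) (B * w ^ 2) = Sel A B := by
  have key : ∀ (K : Type) [Field K] [CharZero K] (d1 d2 : ℤ),
      Loc K (A * w ^ 2) (B * w ^ 2) d1 d2 ↔ Loc K A B d1 d2 := by
    intro K _ _ d1 d2
    have hwK : (w : K) ≠ 0 := by exact_mod_cast hw
    constructor
    · refine loc_sq_aux (c := (w : K)⁻¹) (inv_ne_zero hwK) ?_ ?_
      · push_cast
        field_simp
      · push_cast
        field_simp
    · exact loc_sq_aux (c := (w : K)) hwK (by push_cast; ring) (by push_cast; ring)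
  unfold Sel
  ext d
  simp only [Set.mem_setOf_eq, key]

lemma SN_sq {A B w : ℤ} (hw : w ≠ 0) : SN (A * w ^ 2) (B * w ^ 2) = SN A B := by
  unfold SN
  rw [sel_sq hw]

section

variable {n m : ℕ}

open Classical in
/-- the average of the order of the 2-Selmer group -/
theorem sum3 (h : AV3) (a : Fin 3 → ℤ) (g : Fin m → ℤ[X]) (f : Fin 3 → Fin n → ℤ[X])
    (ha : ∀ k, a k ≠ 0) (hf : Irr (allf g f)) (hF : FP a g f 0 - FP a g f 1 = FP a g f 2)
    (L : ℕ) :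
    ∃ C : ℝ, ∀ (N : ℤ) (M : ℕ), 1 ≤ M → |N| ≤ (M : ℤ) ^ L →
      ∑ t ∈ (Ioc N (N + M)).filter (fun t => ∀ k, (FP a g f k).eval t ≠ 0),
        SN ((FP a g f 0).eval t) ((FP a g f 1).eval t) ≤ C * M := by
  have hP : ∀ k, C (a k) * ∏ l ∈ fs (allc n m) k, allf g f l = FP a g f k := by
    intro k
    rw [prod_allc]
    unfold FP
    rw [mul_assoc]
    rfl
  have hV : ∀ k t, Fval (allc n m) a (fun l => (allf g f l).eval t) k = (FP a g f k).eval t := by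
    intro k t
    rw [← hP k, eval_mul, eval_C, eval_prod]
    rfl
  obtain ⟨C, hC⟩ := h ((Fin 3 × Fin n) ⊕ Fin m) (allc n m) a (allf g f) n L ha hf card_allc
    (by rw [hP, hP, hP]; exact hF)
  simp only [hV] at hC
  refine ⟨C, fun N M hM hN => ?_⟩
  refine (to_Ioc (fun t => SN ((FP a g f 0).eval t) ((FP a g f 1).eval t))
    (fun t => SN_nonneg _ _) (fun t => ∀ k, (FP a g f k).eval t ≠ 0) N M).trans ?_
  refine (sum_le_sum_of_subset_of_nonneg ?_ fun t _ _ => SN_nonneg _ _).trans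
    (hC N M hM (natAbs_le_of hN))
  intro t ht
  rw [mem_filter] at ht ⊢
  refine ⟨ht.1, fun j => ?_⟩
  obtain ⟨k, hk⟩ : ∃ k, j ∈ fs (allc n m) k := by
    unfold fs
    rcases j with ⟨k, i⟩ | i
    · exact ⟨k, mem_filter.2 ⟨mem_univ _, Or.inl rfl⟩⟩
    · exact ⟨0, mem_filter.2 ⟨mem_univ _, Or.inr rfl⟩⟩
  have h2 := ht.2 k
  rw [← hP k, eval_mul, eval_prod] at h2
  exact (prod_ne_zero_iff.1 (right_ne_zero_of_mul h2)) j hk

/-- `U_k = a_k ∏ f_{k,i}` -/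
noncomputable def UP (a : Fin 3 → ℤ) (f : Fin 3 → Fin n → ℤ[X]) (k : Fin 3) : ℤ[X] :=
  C (a k) * ∏ i, f k i

/-- the irreducible factors of the three polynomials -/
def fp (f : Fin 3 → Fin n → ℤ[X]) : Fin 3 × Fin n → ℤ[X] := fun x => f x.1 x.2

/-- the reduction to squarefree polynomials -/
theorem reduce (a : Fin 3 → ℤ) (f : Fin 3 → Fin n → ℤ[X])
    (ha : ∀ k, a k ≠ 0) (hf : Irr (fp f)) (hU : UP a f 0 - UP a f 1 = UP a f 2)
    (D : ℤ[X]) (hD : D ≠ 0) (hDf : ∀ k i, ¬ f k i ∣ D) :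
    ∃ (m : ℕ) (g : Fin m → ℤ[X]) (a' : Fin 3 → ℤ) (D₂ : ℤ[X]), (∀ k, a' k ≠ 0) ∧
      Irr (allf g f) ∧ FP a' g f 0 - FP a' g f 1 = FP a' g f 2 ∧
      (∀ k, D * UP a f k = FP a' g f k * D₂ ^ 2) ∧ ∀ i, g i ∣ D := by
  obtain ⟨D₁, D₂, hfac, hsq⟩ := exists_fac D hD
  obtain ⟨S, c, hc, hSc, hS⟩ := exists_irr D₁ hsq
  have hdvd : ∀ g ∈ S, g ∣ D := by
    intro g hg
    rw [hfac, hSc]
    exact ((dvd_prod_of_mem _ hg).mul_left _).mul_right _
  set e := S.equivFin with he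
  have hprod : ∏ i : Fin S.card, ((e.symm i : S) : ℤ[X]) = ∏ g ∈ S, g := by
    rw [← Finset.prod_coe_sort S (fun g => g)]
    exact Equiv.prod_comp e.symm (fun g : S => (g : ℤ[X]))
  have hFP : ∀ k, FP (fun k => c * a k) (fun i => ((e.symm i : S) : ℤ[X])) f k =
      D₁ * UP a f k := by
    intro k
    unfold FP UP
    rw [hprod, hSc, C_mul]
    ring
  refine ⟨S.card, fun i => ((e.symm i : S) : ℤ[X]), fun k => c * a k, D₂,
    fun k => mul_ne_zero hc (ha k), ⟨?_, ?_, ?_⟩, ?_, ?_, ?_⟩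
  · rintro (x | i)
    · exact hf.irr x
    · exact (hS _ (e.symm i).2).1
  · rintro (x | i)
    · exact hf.deg x
    · exact (hS _ (e.symm i).2).2
  · rintro (x | i) (x' | i') hne has
    · exact hf.assoc x x' (fun h => hne (by rw [h])) has
    · exact hDf x.1 x.2 (has.dvd.trans (hdvd _ (e.symm i').2))
    · exact hDf x'.1 x'.2 (has.symm.dvd.trans (hdvd _ (e.symm i).2))
    · have hgg : ((e.symm i : S) : ℤ[X]) ≠ ((e.symm i' : S) : ℤ[X]) := by
        intro h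
        exact hne (congrArg Sum.inr (e.symm.injective (Subtype.ext h)))
      have has' : Associated ((e.symm i : S) : ℤ[X]) ((e.symm i' : S) : ℤ[X]) := has
      have hg := (e.symm i).2
      have hg' := (e.symm i').2
      -- the square of `g` divides `D₁` up to a unit
      have h1 : ((e.symm i : S) : ℤ[X]) * ((e.symm i' : S) : ℤ[X]) ∣ D₁ := by
        rw [hSc]
        refine Dvd.dvd.mul_left ?_ _
        rw [← mul_prod_erase S (fun g => g) hg]
        exact mul_dvd_mul_left _ (dvd_prod_of_mem (fun g => g) (mem_erase.2 ⟨hgg.symm, hg'⟩))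
      have h2 : ((e.symm i : S) : ℤ[X]) * ((e.symm i : S) : ℤ[X]) ∣ D₁ :=
        (mul_dvd_mul_left _ has'.dvd).trans h1
      have h3 : ((e.symm i : S) : ℤ[X]).map (Int.castRingHom ℚ) *
          ((e.symm i : S) : ℤ[X]).map (Int.castRingHom ℚ) ∣ D₁.map (Int.castRingHom ℚ) := by
        rw [← Polynomial.map_mul]
        exact Polynomial.map_dvd _ h2
      have h4 := natDegree_eq_zero_of_isUnit (hsq _ h3)
      rw [natDegree_map_eq_of_injective (RingHom.injective_int (Int.castRingHom ℚ))] at h4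
      have := (hS _ hg).2
      omega
  · rw [hFP, hFP, hFP, ← mul_sub, hU]
  · intro k
    rw [hFP, hfac]
    ring
  · intro i
    exact hdvd _ (e.symm i).2

open Classical in
/-- **the average in a pencil twisted by an arbitrary polynomial** -/
theorem pen_all (h : AV3) (a : Fin 3 → ℤ) (f : Fin 3 → Fin n → ℤ[X])
    (ha : ∀ k, a k ≠ 0) (hf : Irr (fp f)) (hU : UP a f 0 - UP a f 1 = UP a f 2)
    (D : ℤ[X]) (hD : D ≠ 0) (hDf : ∀ k i, ¬ f k i ∣ D) (L : ℕ) :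
    ∃ C : ℝ, 0 ≤ C ∧ ∀ (N : ℤ) (M : ℕ), 1 ≤ M → |N| ≤ (M : ℤ) ^ L →
      ∑ t ∈ (Ioc N (N + M)).filter (fun t => ∀ k, (D * UP a f k).eval t ≠ 0),
        SN ((D * UP a f 0).eval t) ((D * UP a f 1).eval t) ≤ C * M := by
  obtain ⟨m, g, a', D₂, ha', hf', hF', hfac, _⟩ := reduce a f ha hf hU D hD hDf
  obtain ⟨C, hC⟩ := sum3 h a' g f ha' hf' hF' L
  refine ⟨|C|, abs_nonneg _, fun N M hM hN => ?_⟩
  have h1 : ∑ t ∈ (Ioc N (N + M)).filter (fun t => ∀ k, (D * UP a f k).eval t ≠ 0),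
        SN ((D * UP a f 0).eval t) ((D * UP a f 1).eval t) ≤
      ∑ t ∈ (Ioc N (N + M)).filter (fun t => ∀ k, (FP a' g f k).eval t ≠ 0),
        SN ((FP a' g f 0).eval t) ((FP a' g f 1).eval t) := by
    refine (sum_le_sum fun t ht => ?_).trans (sum_le_sum_of_subset_of_nonneg (f := fun t =>
      SN ((FP a' g f 0).eval t) ((FP a' g f 1).eval t)) ?_ fun t _ _ => SN_nonneg _ _)
    · have ht' := (mem_filter.1 ht).2 0
      rw [hfac, eval_mul, eval_pow] at ht'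
      have hw : D₂.eval t ≠ 0 := fun h0 => ht' (by rw [h0]; ring)
      rw [hfac, hfac, eval_mul, eval_mul, eval_pow, SN_sq hw]
    · intro t ht
      rw [mem_filter] at ht ⊢
      refine ⟨ht.1, fun k h0 => ht.2 k ?_⟩
      rw [hfac, eval_mul, h0, zero_mul]
  refine h1.trans ((hC N M hM hN).trans ?_)
  exact mul_le_mul_of_nonneg_right (le_abs_self _) (Nat.cast_nonneg _)

end

/-! ### The conclusions over the rationals -/

section

open Pool.Agent.TH841.SH.D (ShaTor HasDiv rk)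

open Classical in
/-- ranks and Tate-Shafarevich groups -/
theorem concl (P : Finset ℤ) (A B : ℤ → ℤ) (Q : ℝ)
    (h0 : ∀ t ∈ P, A t ≠ 0 ∧ B t ≠ 0 ∧ A t ≠ B t) (hsum : ∑ t ∈ P, SN (A t) (B t) ≤ Q) :
    (∀ t ∈ P, ∀ k : ℕ, Finite (ShaTor (EQ (A t) (B t)) (2 ^ k))) ∧
      (∀ k : ℕ, 1 ≤ k → ∑ t ∈ P, (2 : ℝ) ^ rk (EQ (A t) (B t)) *
        (Nat.card (ShaTor (EQ (A t) (B t)) (2 ^ k)) : ℝ) ^ ((1 : ℝ) / k) ≤ Q) ∧
      ∀ r q : ℕ, ((P.filter (fun t => r ≤ rk (EQ (A t) (B t)) ∧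
        HasDiv (EQ (A t) (B t)) q)).card : ℝ) ≤ Q / 2 ^ (r + q) := by
  obtain ⟨k1, k2, k3⟩ := Pool.Agent.TH841.SH.family P (fun t => EQ (A t) (B t))
    (fun t => SN (A t) (B t)) Q 1 (fun t ht => bd_EQ (h0 t ht).1 (h0 t ht).2.1 (h0 t ht).2.2)
    (by simpa using hsum)
  simp only [pow_one, one_mul] at k2 k3
  exact ⟨k1, k2, k3⟩

end

/-! ### The conclusions over varying fields -/

section

open Pool.Agent.TH841.NF (EF Gen)

open Pool.Agent.TH841.NF.D (HasDiv crk rk)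

/-- the inequality of the means -/
lemma prod_rpow_one {ι : Type} [Fintype ι] [Nonempty ι] (x : ι → ℝ) (hx : ∀ i, 0 ≤ x i) :
    (∏ i, x i) ^ ((1 : ℝ) / Fintype.card ι) ≤ ∑ i, ((1 : ℝ) / Fintype.card ι) * x i := by
  have hn : (0 : ℝ) < Fintype.card ι := by exact_mod_cast Fintype.card_pos
  have h1 := Real.geom_mean_le_arith_mean_weighted univ (fun _ => (1 : ℝ) / Fintype.card ι)
    x (fun i _ => by positivity) (by
      rw [sum_const, card_univ, nsmul_eq_mul, mul_one_div_cancel hn.ne'])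
    (fun i _ => hx i)
  refine le_trans (le_of_eq ?_) h1
  rw [Real.finsetProd_rpow _ _ (fun i _ => hx i)]

/-- ranks and Tate-Shafarevich groups over varying multiquadratic fields -/
theorem conclF {s : ℕ} (P : Finset ℤ) (A B e1 e2 e3 : ℤ → ℤ) (d : ℤ → Fin s → ℤ) (Q : ℝ)
    (hE : ∀ t ∈ P, 4 * A t ^ 3 + 27 * B t ^ 2 ≠ 0)
    (he : ∀ t ∈ P, ∀ x : ℤ, x ^ 3 + A t * x + B t = (x - e1 t) * (x - e2 t) * (x - e3 t))
    (hd : ∀ t ∈ P, ∀ i, d t i ≠ 0)
    (hsum : ∀ T : Finset (Fin s), ∑ t ∈ P, SN ((e2 t - e1 t) * ∏ i ∈ T, d t i)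
      ((e3 t - e1 t) * ∏ i ∈ T, d t i) ≤ Q)
    (F : ℤ → Type) [∀ t, Field (F t)] [∀ t, NumberField (F t)]
    (hF : ∀ t ∈ P, Gen (F t) (d t)) (W : ∀ t, WeierstrassCurve (F t))
    (hW : ∀ t, W t = EF (A t) (B t) (F t)) :
    (∀ t ∈ P, BddAbove {q | HasDiv (W t) q}) ∧
      ∑ t ∈ P, ((2 : ℝ) ^ (rk (W t) + crk (W t))) ^ ((1 : ℝ) / 2 ^ s) ≤ Q ∧
      ∀ n : ℕ, ((P.filter (fun t => n ≤ rk (W t) + crk (W t))).card : ℝ) ≤
        Q / ((2 : ℝ) ^ n) ^ ((1 : ℝ) / 2 ^ s) := by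
  refine Pool.Agent.TH841.NF.famR P F W (fun t => ∏ T : Finset (Fin s),
    SN ((e2 t - e1 t) * ∏ i ∈ T, d t i) ((e3 t - e1 t) * ∏ i ∈ T, d t i)) _ (by positivity) _ ?_ ?_
  · intro t ht q hq
    rw [hW t] at hq ⊢
    have hne : ∀ T : Finset (Fin s), ∏ i ∈ T, d t i ≠ 0 := fun T =>
      prod_ne_zero_iff.2 fun i _ => hd t ht i
    refine Pool.Agent.TH841.NF.one_field (d := d t) (hF t ht) (hd t ht) (hE t ht) _ ?_ ?_ hq
    · intro T
      have h1 := Pool.Agent.TH639.SL.sel_tw (hE t ht) (he t ht) (hne T)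
      have h2 := Pool.Agent.TH841.SH.bd_selR (Pool.Agent.TH639.SL.disc_tw (hne T) (hE t ht))
        (Pool.Agent.TH639.SL.roots_tw (he t ht) _) h1.1
      exact ⟨h2.1, h2.2.trans h1.2⟩
    · intro T
      exact Pool.Agent.W307.RG.fin_tw (hE t ht) (he t ht) (hne T)
  · have hc : (Fintype.card (Finset (Fin s)) : ℝ) = 2 ^ s := by
      rw [Fintype.card_finset, Fintype.card_fin]
      push_cast
      rfl
    calc ∑ t ∈ P, (∏ T : Finset (Fin s), SN ((e2 t - e1 t) * ∏ i ∈ T, d t i)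
          ((e3 t - e1 t) * ∏ i ∈ T, d t i)) ^ ((1 : ℝ) / 2 ^ s)
        ≤ ∑ t ∈ P, ∑ T : Finset (Fin s), ((1 : ℝ) / 2 ^ s) *
          SN ((e2 t - e1 t) * ∏ i ∈ T, d t i) ((e3 t - e1 t) * ∏ i ∈ T, d t i) := by
          refine sum_le_sum fun t _ => ?_
          have := prod_rpow_one (fun T : Finset (Fin s) => SN ((e2 t - e1 t) * ∏ i ∈ T, d t i)
            ((e3 t - e1 t) * ∏ i ∈ T, d t i)) (fun T => SN_nonneg _ _)
          rwa [hc] at this
      _ = ∑ T : Finset (Fin s), ((1 : ℝ) / 2 ^ s) *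
          ∑ t ∈ P, SN ((e2 t - e1 t) * ∏ i ∈ T, d t i) ((e3 t - e1 t) * ∏ i ∈ T, d t i) := by
          rw [sum_comm]
          refine sum_congr rfl fun T _ => ?_
          rw [mul_sum]
      _ ≤ ∑ T : Finset (Fin s), ((1 : ℝ) / 2 ^ s) * Q :=
          sum_le_sum fun T _ => mul_le_mul_of_nonneg_left (hsum T) (by positivity)
      _ = Q := by
          rw [sum_const, card_univ, nsmul_eq_mul, hc]
          field_simp

end

end Pool.Agent.TH841.PT
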