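import Mathlib
import Pool.Agent.TH841.PT.Pen
import Pool.Agent.TH841.PT.Avg3G
import Pool.Agent.TH841.PT.Prime
import Pool.Agent.TH841.PT.GDP

/-!
# Project PT: pencils at prime arguments
-/

set_option autoImplicit false

namespace Pool.Agent.TH841.PT

open Finset Polynomial Pool.Agent.W262.RK

open Pool.Agent.H474R2.PG (rho)

open Pool.Agent.W307.SE (SN Sel SelR Loc SN_nonneg sel_fin)

/-- AV3G: the average of the order of the 2-Selmer group in a one-parameter family over sifted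
arguments -/
def AV3G : Prop := ∀ (J : Type) [Fintype J] [DecidableEq J] (cls : J → Fin 4) (a : Fin 3 → ℤ)
  (f : J → ℤ[X]) (n B : ℕ), (∀ k, a k ≠ 0) → Irr f →
  (∀ k, k ≠ 3 → (univ.filter (fun j => cls j = k)).card = n) →
  C (a 0) * ∏ l ∈ fs cls 0, f l - C (a 1) * ∏ l ∈ fs cls 1, f l = C (a 2) * ∏ l ∈ fs cls 2, f l →
  ∀ G : ℤ[X], Squarefree (mQ ((∏ j, f j) * G)) →
    ∃ z0 : ℕ, ∀ z, z0 ≤ z → ∃ C2 : ℝ, ∀ (N : ℤ) (X : ℕ), 1 ≤ X → N.natAbs ≤ X ^ B →
      ∀ T : Finset ℕ, T ⊆ Icc 1 X → (∀ t ∈ T, (∀ j, (f j).eval (N + (t : ℤ)) ≠ 0) ∧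
        Sft G z X (N + (t : ℤ))) →
      ∑ t ∈ T, SN (Fval cls a (fun l => (f l).eval (N + (t : ℤ))) 0)
          (Fval cls a (fun l => (f l).eval (N + (t : ℤ))) 1) ≤
        C2 * (X * Real.exp (-Sp (fun p => (rho G p : ℝ)) z X))

lemma irr_sum {J J' : Type} {f : J → ℤ[X]} {g : J' → ℤ[X]} (hf : Irr f) (hg : Irr g)
    (h : ∀ j l, ¬ Associated (f j) (g l)) : Irr (Sum.elim f g) := by
  refine ⟨?_, ?_, ?_⟩
  · rintro (x | x)
    · exact hf.irr x
    · exact hg.irr x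
  · rintro (x | x)
    · exact hf.deg x
    · exact hg.deg x
  · rintro (x | x) (y | y) hne has
    · exact hf.assoc x y (fun h => hne (by rw [h])) has
    · exact h x y has
    · exact h y x has.symm
    · exact hg.assoc x y (fun h => hne (by rw [h])) has

section

variable {n r : ℕ} {G : Fin r → ℤ[X]}

open Classical in
/-- the small arguments -/
lemma small_pen (h : AV3) (hG : Irr G) (a : Fin 3 → ℤ) (f : Fin 3 → Fin n → ℤ[X])
    (ha : ∀ k, a k ≠ 0) (hf : Irr (fp f)) (hU : UP a f 0 - UP a f 1 = UP a f 2)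
    (D : ℤ[X]) (hD : D ≠ 0) (hDf : ∀ k i, ¬ f k i ∣ D) :
    ∃ C : ℝ, 0 ≤ C ∧ ∀ (N : ℤ) (M : ℕ), 2 ≤ M →
      ∑ t ∈ ((Ioc N (N + M)).filter (fun t => ∀ k, (D * UP a f k).eval t ≠ 0)).filter
        (fun t => ∃ i, ((G i).eval t).natAbs ^ 2 ≤ M),
        SN ((D * UP a f 0).eval t) ((D * UP a f 1).eval t) ≤ C * (M / (Real.log M) ^ r) := by
  obtain ⟨C, hC0, hC⟩ := pen_all h a f ha hf hU D hD hDf 1
  choose K hK using fun i => grow (hG.deg i)
  obtain ⟨C2, hC20, hC2⟩ := sqrt_log r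
  set Kt := ∑ i, K i with hKt
  refine ⟨C * (2 * Kt + 3) * C2, by positivity, fun N M hM => ?_⟩
  have hM1 : (1 : ℝ) ≤ M := by exact_mod_cast (by omega : 1 ≤ M)
  set R : ℕ := Nat.sqrt M + Kt with hR
  have h1 := hC (-(R : ℤ) - 1) (2 * R + 1) (by omega) (by
    rw [pow_one, abs_le]
    push_cast
    constructor <;> omega)
  have h2 : ∑ t ∈ ((Ioc N (N + M)).filter (fun t => ∀ k, (D * UP a f k).eval t ≠ 0)).filter
        (fun t => ∃ i, ((G i).eval t).natAbs ^ 2 ≤ M),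
        SN ((D * UP a f 0).eval t) ((D * UP a f 1).eval t) ≤
      ∑ t ∈ (Ioc (-(R : ℤ) - 1) (-(R : ℤ) - 1 + (2 * R + 1 : ℕ))).filter
        (fun t => ∀ k, (D * UP a f k).eval t ≠ 0),
        SN ((D * UP a f 0).eval t) ((D * UP a f 1).eval t) := by
    refine sum_le_sum_of_subset_of_nonneg ?_ fun t _ _ => SN_nonneg _ _
    intro t ht
    rw [mem_filter, mem_filter] at ht
    obtain ⟨⟨_, ht2⟩, i, hi⟩ := ht
    rw [mem_filter, mem_Ioc]
    have h3 := hK i t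
    have h4 : ((G i).eval t).natAbs ≤ Nat.sqrt M := Nat.le_sqrt'.2 hi
    have h5 : K i ≤ Kt := single_le_sum (f := K) (fun _ _ => Nat.zero_le _) (mem_univ i)
    have h6 : t.natAbs ≤ R := by omega
    refine ⟨⟨by omega, by push_cast; omega⟩, ht2⟩
  have h3 : (Nat.sqrt M : ℝ) ≤ Real.sqrt M := by
    apply Real.le_sqrt_of_sq_le
    exact_mod_cast Nat.sqrt_le' M
  have h4 : (1 : ℝ) ≤ Real.sqrt M := Real.one_le_sqrt.2 hM1
  refine h2.trans (h1.trans ?_)
  have h5 : ((2 * R + 1 : ℕ) : ℝ) ≤ (2 * Kt + 3) * Real.sqrt M := by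
    rw [hR]
    push_cast
    have h6 : (Kt : ℝ) ≤ Kt * Real.sqrt M := le_mul_of_one_le_right (Nat.cast_nonneg _) h4
    linarith
  calc C * ((2 * R + 1 : ℕ) : ℝ) ≤ C * ((2 * Kt + 3) * Real.sqrt M) :=
        mul_le_mul_of_nonneg_left h5 hC0
    _ ≤ C * ((2 * Kt + 3) * (C2 * (M / (Real.log M) ^ r))) :=
        mul_le_mul_of_nonneg_left (mul_le_mul_of_nonneg_left (hC2 M hM) (by positivity)) hC0
    _ = _ := by ring

open Classical in
/-- **the average in a pencil at prime arguments** -/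
theorem pen_prime (h : AV3) (hg : AV3G) (hG : Irr G) (a : Fin 3 → ℤ) (f : Fin 3 → Fin n → ℤ[X])
    (ha : ∀ k, a k ≠ 0) (hf : Irr (fp f)) (hU : UP a f 0 - UP a f 1 = UP a f 2)
    (hGf : ∀ i k j, ¬ Associated (f k j) (G i))
    (D : ℤ[X]) (hD : D ≠ 0) (hDf : ∀ k i, ¬ f k i ∣ D) (hDG : ∀ i, ¬ G i ∣ D) (L : ℕ) :
    ∃ C : ℝ, 0 ≤ C ∧ ∀ (N : ℤ) (M : ℕ), 2 ≤ M → |N| ≤ (M : ℤ) ^ L →
      ∑ t ∈ (Ioc N (N + M)).filter (fun t => (∀ k, (D * UP a f k).eval t ≠ 0) ∧ AllPr G t),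
        SN ((D * UP a f 0).eval t) ((D * UP a f 1).eval t) ≤ C * (M / (Real.log M) ^ r) := by
  obtain ⟨m, g, a', D₂, ha', hf', hF', hfac, hgD⟩ := reduce a f ha hf hU D hD hDf
  have hP : ∀ k, Polynomial.C (a' k) * ∏ l ∈ fs (allc n m) k, allf g f l = FP a' g f k := by
    intro k
    rw [prod_allc]
    unfold FP
    rw [mul_assoc]
    rfl
  have hV : ∀ k t, Fval (allc n m) a' (fun l => (allf g f l).eval t) k =
      (FP a' g f k).eval t := by
    intro k t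
    rw [← hP k, eval_mul, eval_C, eval_prod]
    rfl
  have hall : Irr (Sum.elim (allf g f) G) := by
    refine irr_sum hf' hG ?_
    rintro (x | i) l has
    · exact hGf l x.1 x.2 has
    · exact hDG l (has.symm.dvd.trans (hgD i))
  have hsq : Squarefree (mQ ((∏ j, allf g f j) * ∏ i, G i)) := by
    have := hall.sqf
    rw [Fintype.prod_sum_type] at this
    exact this
  obtain ⟨z1, hz1⟩ := hg ((Fin 3 × Fin n) ⊕ Fin m) (allc n m) a' (allf g f) n L ha' hf' card_allc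
    (by rw [hP, hP, hP]; exact hF') (∏ i, G i) hsq
  obtain ⟨z2, hz2⟩ := exp_prod GDPf.gdp hG
  obtain ⟨C1, hC1⟩ := hz1 (z1 + z2) (by omega)
  obtain ⟨C2, hC20, hC2⟩ := hz2 (z1 + z2) (by omega)
  obtain ⟨C3, hC30, hC3⟩ := small_pen h hG a f ha hf hU D hD hDf
  simp only [hV] at hC1
  refine ⟨|C1| * C2 + C3, by positivity, fun N M hM hN => ?_⟩
  have hM0 : (0 : ℝ) ≤ M := Nat.cast_nonneg _
  set S : ℤ → ℝ := fun t => SN ((D * UP a f 0).eval t) ((D * UP a f 1).eval t) with hS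
  have hS0 : ∀ t, 0 ≤ S t := fun t => SN_nonneg _ _
  -- the large part
  have hlarge : ∑ t ∈ (Ioc N (N + M)).filter (fun t => (∀ k, (D * UP a f k).eval t ≠ 0) ∧
      AllPr G t ∧ ∀ i, M < ((G i).eval t).natAbs ^ 2), S t ≤
        |C1| * C2 * (M / (Real.log M) ^ r) := by
    have h1 : ∑ t ∈ (Ioc N (N + M)).filter (fun t => (∀ k, (D * UP a f k).eval t ≠ 0) ∧
        AllPr G t ∧ ∀ i, M < ((G i).eval t).natAbs ^ 2), S t ≤
        ∑ t ∈ (Ioc N (N + M)).filter (fun t => (∀ k, (FP a' g f k).eval t ≠ 0) ∧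
        AllPr G t ∧ ∀ i, M < ((G i).eval t).natAbs ^ 2),
        SN ((FP a' g f 0).eval t) ((FP a' g f 1).eval t) := by
      refine (sum_le_sum fun t ht => ?_).trans (sum_le_sum_of_subset_of_nonneg (f := fun t =>
        SN ((FP a' g f 0).eval t) ((FP a' g f 1).eval t)) ?_ fun t _ _ => SN_nonneg _ _)
      · have ht' := (mem_filter.1 ht).2.1 0
        rw [hfac, eval_mul, eval_pow] at ht'
        have hw : D₂.eval t ≠ 0 := fun h0 => ht' (by rw [h0]; ring)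
        rw [hS]
        simp only
        rw [hfac, hfac, eval_mul, eval_mul, eval_pow, SN_sq hw]
      · intro t ht
        rw [mem_filter] at ht ⊢
        refine ⟨ht.1, fun k h0 => ht.2.1 k ?_, ht.2.2⟩
        rw [hfac, eval_mul, h0, zero_mul]
    refine h1.trans ((to_Ioc (fun t => SN ((FP a' g f 0).eval t) ((FP a' g f 1).eval t))
      (fun t => SN_nonneg _ _) (fun t => (∀ k, (FP a' g f k).eval t ≠ 0) ∧
        AllPr G t ∧ ∀ i, M < ((G i).eval t).natAbs ^ 2) N M).trans ?_)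
    refine (hC1 N M (by omega) (natAbs_le_of hN) _ (filter_subset _ _) ?_).trans ?_
    · intro t ht
      have ht' := (mem_filter.1 ht).2
      refine ⟨fun j => ?_, Sft_of ht'.2.1 ht'.2.2⟩
      obtain ⟨k, hk⟩ : ∃ k, j ∈ fs (allc n m) k := by
        unfold fs
        rcases j with ⟨k, i⟩ | i
        · exact ⟨k, mem_filter.2 ⟨mem_univ _, Or.inl rfl⟩⟩
        · exact ⟨0, mem_filter.2 ⟨mem_univ _, Or.inr rfl⟩⟩
      have h2 := ht'.1 k
      rw [← hP k, eval_mul, eval_prod] at h2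
      exact (prod_ne_zero_iff.1 (right_ne_zero_of_mul h2)) j hk
    · calc C1 * (M * Real.exp (-Sp (fun p => (rho (∏ i, G i) p : ℝ)) (z1 + z2) M))
          ≤ |C1| * (M * Real.exp (-Sp (fun p => (rho (∏ i, G i) p : ℝ)) (z1 + z2) M)) :=
            mul_le_mul_of_nonneg_right (le_abs_self _) (by positivity)
        _ ≤ |C1| * (M * (C2 / (Real.log M) ^ r)) :=
            mul_le_mul_of_nonneg_left (mul_le_mul_of_nonneg_left (hC2 M hM) hM0) (abs_nonneg _)
        _ = _ := by ring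
  have hsmall := hC3 N M hM
  refine le_trans ?_ ((add_le_add hlarge hsmall).trans (le_of_eq (by ring)))
  have hsub : (Ioc N (N + M)).filter (fun t => (∀ k, (D * UP a f k).eval t ≠ 0) ∧ AllPr G t) ⊆
      (Ioc N (N + M)).filter (fun t => (∀ k, (D * UP a f k).eval t ≠ 0) ∧
      AllPr G t ∧ ∀ i, M < ((G i).eval t).natAbs ^ 2) ∪
      ((Ioc N (N + M)).filter (fun t => ∀ k, (D * UP a f k).eval t ≠ 0)).filter
        (fun t => ∃ i, ((G i).eval t).natAbs ^ 2 ≤ M) := by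
    intro t ht
    rw [mem_filter] at ht
    rw [mem_union, mem_filter, mem_filter, mem_filter]
    by_cases hi : ∃ i, ((G i).eval t).natAbs ^ 2 ≤ M
    · exact Or.inr ⟨⟨ht.1, ht.2.1⟩, hi⟩
    · push Not at hi
      exact Or.inl ⟨ht.1, ht.2.1, ht.2.2, hi⟩
  refine (sum_le_sum_of_subset_of_nonneg hsub fun t _ _ => hS0 t).trans ?_
  have hnn : 0 ≤ ∑ t ∈ ((Ioc N (N + M)).filter (fun t => (∀ k, (D * UP a f k).eval t ≠ 0) ∧
      AllPr G t ∧ ∀ i, M < ((G i).eval t).natAbs ^ 2)) ∩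
      (((Ioc N (N + M)).filter (fun t => ∀ k, (D * UP a f k).eval t ≠ 0)).filter
        (fun t => ∃ i, ((G i).eval t).natAbs ^ 2 ≤ M)), S t :=
    sum_nonneg fun t _ => hS0 t
  have := sum_union_inter (s₁ := (Ioc N (N + M)).filter (fun t =>
      (∀ k, (D * UP a f k).eval t ≠ 0) ∧ AllPr G t ∧ ∀ i, M < ((G i).eval t).natAbs ^ 2))
      (s₂ := ((Ioc N (N + M)).filter (fun t => ∀ k, (D * UP a f k).eval t ≠ 0)).filter
        (fun t => ∃ i, ((G i).eval t).natAbs ^ 2 ≤ M)) (f := S)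
  linarith

end

end Pool.Agent.TH841.PT
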