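import Mathlib
import Pool.Agent.TH841.PT.Stm4
import Pool.Agent.TH639.SL.Sel4b
import Pool.Agent.TH639.SL.Twist

/-!
# The 2-Selmer group and the local count, values of polynomials

After `Pool.Agent.TH639.SL.Sel4b`, with integers in place of the values of linear forms.
-/

set_option autoImplicit false

namespace Pool.Agent.TH841.PT.SelXf

open Finset Polynomial Pool.Agent.W262.RK Pool.Agent.TH841.PT
open Pool.Agent.W307.RT Pool.Agent.W307.RS Pool.Agent.W307.SE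

variable {J : Type} [Fintype J] [DecidableEq J]

lemma s1_dvd_iff {z y : ℕ} {f : J → ℤ} {p : ℕ} (hp : p.Prime) {j : J} :
    p ∣ S1 z y f j ↔ p ∈ PS z y ∧ (p : ℤ) ∣ f j ∧ ¬ (p : ℤ) ^ 2 ∣ f j := by
  unfold S1
  rw [prime_dvd_prodS (fun q hq => (mem_PS.1 (mem_filter.1 hq).1).2) hp, mem_filter]

lemma s1_tup {z y : ℕ} {f : J → ℤ} (hG : Gd z f) : S1 z y f ∈ Tup J z y := by
  rw [mem_Tup']
  refine ⟨fun j => ?_, fun i j hij => ?_⟩
  · unfold S1 PP
    exact prod_dvd_prod_of_subset _ _ _ (filter_subset _ _)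
  · rw [Nat.coprime_iff_gcd_eq_one]
    by_contra hne
    obtain ⟨p, hp, hpd⟩ := Nat.exists_prime_and_dvd hne
    have h1 := (s1_dvd_iff hp).1 (hpd.trans (Nat.gcd_dvd_left _ _))
    have h2 := (s1_dvd_iff hp).1 (hpd.trans (Nat.gcd_dvd_right _ _))
    exact hG.2 p hp (mem_PS.1 h1.1).1.1 i j hij ⟨h1.2.1, h2.2.1⟩

/-- products over other values are not divisible -/
lemma ndx {a : Fin 3 → ℤ} {x : J → ℤ} {z : ℕ} (hG : Gd z x)
    (ha : ∀ p : ℕ, p.Prime → z < p → ∀ k, ¬ (p : ℤ) ∣ a k) {p : ℕ}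
    (hp : p.Prime) (hz : z < p) {j : J} (hj : (p : ℤ) ∣ x j) {k : Fin 3}
    {S : Finset J} (hS : j ∉ S) : ¬ (p : ℤ) ∣ a k * ∏ l ∈ S, x l := by
  intro h
  have hpi : Prime (p : ℤ) := Nat.prime_iff_prime_int.1 hp
  rcases hpi.dvd_or_dvd h with h1 | h1
  · exact ha p hp hz k h1
  · obtain ⟨l, hl, hl2⟩ := (hpi.dvd_finsetProd_iff _).1 h1
    refine hG.2 p hp hz j l ?_ ⟨hj, hl2⟩
    rintro rfl
    exact hS hl

lemma fval_split {cls : J → Fin 4} {a : Fin 3 → ℤ} {x : J → ℤ} {j : J} {k : Fin 3}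
    (hj : j ∈ fs cls k) : Fval cls a x k = x j * (a k * ∏ l ∈ (fs cls k).erase j, x l) := by
  unfold Fval
  rw [← mul_prod_erase _ _ hj]
  ring

lemma dx {cls : J → Fin 4} {a : Fin 3 → ℤ} {x : J → ℤ} {z : ℕ} (hG : Gd z x)
    (ha : ∀ p : ℕ, p.Prime → z < p → ∀ k, ¬ (p : ℤ) ∣ a k) {p : ℕ}
    (hp : p.Prime) (hz : z < p) {j : J} (hj : (p : ℤ) ∣ x j)
    (hj2 : ¬ (p : ℤ) ^ 2 ∣ x j) {k : Fin 3} (hk : j ∈ fs cls k) :
    (p : ℤ) ∣ Fval cls a x k ∧ ¬ (p : ℤ) ^ 2 ∣ Fval cls a x k := by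
  have hpi : Prime (p : ℤ) := Nat.prime_iff_prime_int.1 hp
  rw [fval_split hk]
  refine ⟨hj.mul_right _, fun h => hj2 ?_⟩
  have hco : IsCoprime ((p : ℤ) ^ 2) (a k * ∏ l ∈ (fs cls k).erase j, x l) :=
    IsCoprime.pow_left ((Prime.coprime_iff_not_dvd hpi).2
      (ndx hG ha hp hz hj (notMem_erase _ _)))
  exact hco.dvd_of_dvd_mul_right h

lemma kval_nd {cls : J → Fin 4} {a : Fin 3 → ℤ} {x : J → ℤ} {z : ℕ} (hG : Gd z x)
    (ha : ∀ p : ℕ, p.Prime → z < p → ∀ k, ¬ (p : ℤ) ∣ a k) {p : ℕ}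
    (hp : p.Prime) (hz : z < p) {j : J} (hj : (p : ℤ) ∣ x j) (k : Fin 3) :
    ¬ (p : ℤ) ∣ kval cls a x j k := by
  have hpi : Prime (p : ℤ) := Nat.prime_iff_prime_int.1 hp
  unfold kval
  split_ifs with h3
  · exact ndx hG ha hp hz hj (notMem_erase _ _)
  · intro h
    rcases hpi.dvd_or_dvd h with h1 | h1
    · have h2 : (p : ℤ) ∣ sg4 (cls j) * sg4 (cls j) := h1.mul_right _
      rw [sg4_sq] at h2
      exact hpi.not_isUnit (isUnit_of_dvd_one h2)
    · exact ndx hG ha hp hz hj (fun h => ne_of_fs h3 (cp4_ne _ h3) h rfl) h1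

lemma jac_sq {p : ℕ} (hp : p.Prime) {q x : ℤ} (hx : ¬ (p : ℤ) ∣ x) :
    jacobiSym (q * x ^ 2) p = jacobiSym q p := by
  have hpi : Prime (p : ℤ) := Nat.prime_iff_prime_int.1 hp
  rw [jacobiSym.mul_left]
  have h2 : jacobiSym (x ^ 2) p = 1 := by
    apply jacobiSym.sq_one'
    rw [← Int.isCoprime_iff_gcd_eq_one]
    exact IsCoprime.symm ((Prime.coprime_iff_not_dvd hpi).2 hx)
  rw [h2, mul_one]

lemma symbx {cls : J → Fin 4} {a : Fin 3 → ℤ} {x : J → ℤ} {z : ℕ} (hG : Gd z x)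
    (ha : ∀ p : ℕ, p.Prime → z < p → ∀ k, ¬ (p : ℤ) ∣ a k) {p : ℕ}
    (hp : p.Prime) (hz : z < p) {j : J} (hj : (p : ℤ) ∣ x j) (h3 : cls j ≠ 3) (k : Fin 3) :
    jacobiSym (kval cls a x j k * (sg4 (cls j) * Fval cls a x (cp4 (cls j)))) p = 1 := by
  set k' := cp4 (cls j) with hk'
  have hjS : j ∉ fs cls k' := fun h => ne_of_fs h3 (cp4_ne _ h3) h rfl
  have hF : ¬ (p : ℤ) ∣ Fval cls a x k' := ndx hG ha hp hz hj hjS
  have h1 : kval cls a x j k * (sg4 (cls j) * Fval cls a x k') = 1 * (Fval cls a x k') ^ 2 := by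
    unfold kval Fval
    rw [if_neg h3, ← hk']
    linear_combination ((a k' * ∏ l ∈ fs cls k', x l) *
      (a k' * ∏ l ∈ fs cls k', x l)) * sg4_sq (cls j)
  rw [h1, jac_sq hp hF]
  exact jacobiSym.one_left p

lemma symbx' {cls : J → Fin 4} {a : Fin 3 → ℤ} {x : J → ℤ} {z : ℕ} (hG : Gd z x)
    (ha : ∀ p : ℕ, p.Prime → z < p → ∀ k, ¬ (p : ℤ) ∣ a k) {p : ℕ}
    (hp : p.Prime) (hz : z < p) {j : J} (hj : (p : ℤ) ∣ x j) (h3 : cls j = 3) (k : Fin 3) :
    jacobiSym (kval cls a x j k * (Fval cls a x k / p)) p = jacobiSym (x j / p) p := by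
  have hpi : Prime (p : ℤ) := Nat.prime_iff_prime_int.1 hp
  have hp0 : (p : ℤ) ≠ 0 := hpi.ne_zero
  have hk : j ∈ fs cls k := mem_filter.2 ⟨mem_univ _, Or.inr h3⟩
  obtain ⟨q, hq⟩ := hj
  have hj : (p : ℤ) ∣ x j := ⟨q, hq⟩
  set S := (fs cls k).erase j with hS
  have e1 : Fval cls a x k / p = q * (a k * ∏ l ∈ S, x l) := by
    rw [fval_split hk, hq, mul_assoc, Int.mul_ediv_cancel_left _ hp0]
  have e2 : x j / p = q := by rw [hq, Int.mul_ediv_cancel_left _ hp0]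
  rw [e1, e2]
  have h1 : kval cls a x j k * (q * (a k * ∏ l ∈ S, x l)) =
      q * (a k * ∏ l ∈ S, x l) ^ 2 := by
    unfold kval
    rw [if_pos h3, ← hS]
    ring
  rw [h1, jac_sq hp (ndx hG ha hp hz hj (notMem_erase _ _))]

/-- the local hypotheses hold -/
lemma lochx {cls : J → Fin 4} {a : Fin 3 → ℤ} {x : J → ℤ} {z : ℕ} (hG : Gd z x)
    (ha : ∀ p : ℕ, p.Prime → z < p → ∀ k, ¬ (p : ℤ) ∣ a k) {p : ℕ}
    (hp : p.Prime) (hz : z < p) {j : J}
    (hF : Fval cls a x 0 - Fval cls a x 1 = Fval cls a x 2) (hj : (p : ℤ) ∣ x j)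
    (hj2 : ¬ (p : ℤ) ^ 2 ∣ x j) {neg : Bool}
    (hneg : cls j = 3 → (neg = true ↔ jacobiSym (x j / p) p = -1)) :
    LocH (cls j) (kval cls a x j) neg p (Fval cls a x 0) (Fval cls a x 1) := by
  have hpi : Prime (p : ℤ) := Nat.prime_iff_prime_int.1 hp
  have hd : ∀ k, j ∈ fs cls k → (p : ℤ) ∣ Fval cls a x k ∧ ¬ (p : ℤ) ^ 2 ∣ Fval cls a x k :=
    fun k hk => dx hG ha hp hz hj hj2 hk
  have hn : ∀ k, j ∉ fs cls k → ¬ (p : ℤ) ∣ Fval cls a x k := fun k hk => ndx hG ha hp hz hj hk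
  have hs := fun h3 : cls j ≠ 3 => symbx (cls := cls) hG ha hp hz hj h3 0
  have hs' := fun (h3 : cls j = 3) (k : Fin 3) => symbx' (cls := cls) hG ha hp hz hj h3 k
  have hmem : ∀ k : Fin 3, j ∈ fs cls k ↔ (cls j = k.castSucc ∨ cls j = 3) := fun k => by
    unfold fs
    rw [mem_filter]
    exact ⟨fun h => h.2, fun h => ⟨mem_univ _, h⟩⟩
  have hcase : cls j = 0 ∨ cls j = 1 ∨ cls j = 2 ∨ cls j = 3 := by
    generalize cls j = c
    revert c
    decide
  unfold LocH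
  rcases hcase with h | h | h | h
  · rw [if_pos h]
    have h1 := hd 0 ((hmem 0).2 (Or.inl (by rw [h]; rfl)))
    have h2 := hn 1 (fun h3 => by
      rcases (hmem 1).1 h3 with h4 | h4 <;> rw [h] at h4 <;> exact absurd h4 (by decide))
    have h3 := hs (by rw [h]; decide)
    rw [h, show sg4 0 = -1 from rfl, show cp4 0 = 1 from rfl, neg_one_mul] at h3
    exact ⟨h1.1, h1.2, h2, h3⟩
  · rw [if_neg (by rw [h]; decide), if_pos h]
    have h1 := hd 1 ((hmem 1).2 (Or.inl (by rw [h]; rfl)))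
    have h2 := hn 0 (fun h3 => by
      rcases (hmem 0).1 h3 with h4 | h4 <;> rw [h] at h4 <;> exact absurd h4 (by decide))
    have h3 := hs (by rw [h]; decide)
    rw [h, show sg4 1 = -1 from rfl, show cp4 1 = 0 from rfl, neg_one_mul] at h3
    exact ⟨h1.1, h1.2, h2, h3⟩
  · rw [if_neg (by rw [h]; decide), if_neg (by rw [h]; decide), if_pos h]
    have h1 := hd 2 ((hmem 2).2 (Or.inl (by rw [h]; rfl)))
    have h2 := hn 0 (fun h3 => by
      rcases (hmem 0).1 h3 with h4 | h4 <;> rw [h] at h4 <;> exact absurd h4 (by decide))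
    have h3 := hs (by rw [h]; decide)
    rw [h, show sg4 2 = 1 from rfl, show cp4 2 = 0 from rfl, one_mul] at h3
    rw [hF]
    exact ⟨h1.1, h1.2, h2, h3⟩
  · rw [if_neg (by rw [h]; decide), if_neg (by rw [h]; decide), if_neg (by rw [h]; decide)]
    have h0 := hd 0 ((hmem 0).2 (Or.inr h))
    have h1 := hd 1 ((hmem 1).2 (Or.inr h))
    have h2 := hd 2 ((hmem 2).2 (Or.inr h))
    have hJ : jacobiSym (x j / p) p = if neg = true then -1 else 1 := by
      split_ifs with h5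
      · exact (hneg h).1 h5
      · have h6 : jacobiSym (x j / p) p ≠ -1 := fun h7 => h5 ((hneg h).2 h7)
        have h7 : (x j / p).gcd p = 1 := by
          rw [← Int.isCoprime_iff_gcd_eq_one]
          refine IsCoprime.symm ((Prime.coprime_iff_not_dvd hpi).2 fun h8 => hj2 ?_)
          obtain ⟨q, hq⟩ := hj
          rw [hq, Int.mul_ediv_cancel_left _ hpi.ne_zero] at h8
          rw [hq, pow_two]
          exact mul_dvd_mul_left _ h8
        rcases jacobiSym.eq_one_or_neg_one h7 with h8 | h8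
        · exact h8
        · exact absurd h8 h6
    refine ⟨h0.1, h1.1, h0.2, h1.2, ?_, ?_, ?_, ?_⟩
    · rw [hF]; exact h2.2
    · rw [hs' h 0, hJ]
    · rw [hs' h 1, hJ]
    · rw [hF, hs' h 2, hJ]

/-- the two forms of the local conditions -/
lemma ll_lt {p : ℕ} [Fact p.Prime] {κ : Fin 3 → ℤ} (hκ : ∀ k, ¬ (p : ℤ) ∣ κ k) (c : Fin 4)
    (neg v w h g : Bool) :
    LL c κ neg p v w h g ↔ LT c (fun k => sg0 p (κ k)) (sg0 p (-1)) neg v w h g := by
  unfold LL LT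
  rw [Pool.Agent.W342.RK2.sg0_mul (hκ 0) (hκ 1), Pool.Agent.W342.RK2.sg0_mul (hκ 0) (hκ 2),
    Pool.Agent.W342.RK2.sg0_neg (hκ 0), Pool.Agent.W342.RK2.sg0_neg (hκ 2)]

/-- the number of the primes outside `S1` -/
lemma badx {cls : J → Fin 4} {a : Fin 3 → ℤ} {x : J → ℤ} {z y X K B : ℕ} (hz2 : 2 ≤ z)
    (ha : ∀ p : ℕ, p.Prime → z < p → ∀ k, ¬ (p : ℤ) ∣ a k)
    (hX : 1 ≤ X) (hy : 1 ≤ y) (h0 : ∀ j, x j ≠ 0)
    (hb : ∀ j, (x j).natAbs ≤ X ^ B) (hK : X < (y + 1) ^ K) :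
    ((2 * Fval cls a x 0 * Fval cls a x 1 * Fval cls a x 2).natAbs.primeFactors.filter
        (fun q => ¬ q ∣ ∏ j, S1 z y x j)).card ≤
      z + Fintype.card J * (B * K) + ∑ j, (S2 z y x j).primeFactors.card := by
  have hsub : ((2 * Fval cls a x 0 * Fval cls a x 1 *
      Fval cls a x 2).natAbs.primeFactors.filter (fun q => ¬ q ∣ ∏ j, S1 z y x j)) ⊆
      ((Icc 1 z) ∪ univ.biUnion (fun j => (x j).natAbs.primeFactors.filter (y < ·))) ∪
        univ.biUnion (fun j => (S2 z y x j).primeFactors) := by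
    intro q hq
    rw [mem_filter] at hq
    have hp := Nat.prime_of_mem_primeFactors hq.1
    have hdv := Nat.dvd_of_mem_primeFactors hq.1
    rw [mem_union, mem_union, mem_Icc]
    rcases Nat.lt_or_ge z q with h | h
    swap
    · exact Or.inl (Or.inl ⟨hp.one_lt.le, h⟩)
    · have hqi : Prime (q : ℤ) := Nat.prime_iff_prime_int.1 hp
      have hdv2 : (q : ℤ) ∣ 2 * Fval cls a x 0 * Fval cls a x 1 * Fval cls a x 2 :=
        Int.natCast_dvd.2 hdv
      have hk : ∃ k, (q : ℤ) ∣ Fval cls a x k := by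
        rcases hqi.dvd_or_dvd hdv2 with h1 | h1
        · rcases hqi.dvd_or_dvd h1 with h2 | h2
          · rcases hqi.dvd_or_dvd h2 with h3 | h3
            · exfalso
              have h4 : q ∣ 2 := by exact_mod_cast h3
              have h5 := Nat.le_of_dvd (by norm_num) h4
              omega
            · exact ⟨0, h3⟩
          · exact ⟨1, h2⟩
        · exact ⟨2, h1⟩
      obtain ⟨k, hk⟩ := hk
      rcases hqi.dvd_or_dvd hk with h1 | h1
      · exact absurd h1 (ha q hp h k)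
      · obtain ⟨l, _, hl⟩ := (hqi.dvd_finsetProd_iff _).1 h1
        rcases Nat.lt_or_ge y q with hyq | hyq
        · left; right
          rw [mem_biUnion]
          refine ⟨l, mem_univ _, ?_⟩
          rw [mem_filter, Nat.mem_primeFactors]
          exact ⟨⟨hp, Int.natCast_dvd.1 hl, Int.natAbs_ne_zero.2 (h0 l)⟩, hyq⟩
        · right
          have hPS : q ∈ PS z y := mem_PS.2 ⟨⟨h, hyq⟩, hp⟩
          rw [mem_biUnion]
          refine ⟨l, mem_univ _, ?_⟩
          have hsq : (q : ℤ) ^ 2 ∣ x l := by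
            by_contra hcon
            apply hq.2
            refine dvd_trans ?_ (dvd_prod_of_mem _ (mem_univ l))
            exact dvd_prod_of_mem _ (mem_filter.2 ⟨hPS, hl, hcon⟩)
          rw [Nat.mem_primeFactors]
          refine ⟨hp, dvd_prod_of_mem _ (mem_filter.2 ⟨hPS, hsq⟩), ?_⟩
          exact prod_ne_zero_iff.2 fun p hp => (mem_PS.1 (mem_filter.1 hp).1).2.ne_zero
  have hone : ∀ j, ((x j).natAbs.primeFactors.filter (y < ·)).card ≤ B * K := by
    intro j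
    set S := (x j).natAbs.primeFactors.filter (y < ·) with hS
    have h1 : (y + 1) ^ S.card ≤ ∏ q ∈ S, q :=
      Finset.pow_card_le_prod _ _ _ (fun q hq => by
        have := (mem_filter.1 hq).2
        omega)
    have h2 : ∏ q ∈ S, q ∣ (x j).natAbs :=
      (prod_dvd_prod_of_subset _ _ _ (filter_subset _ _)).trans (Nat.prod_primeFactors_dvd _)
    have h3 : ∏ q ∈ S, q ≤ (x j).natAbs :=
      Nat.le_of_dvd (Nat.pos_of_ne_zero (Int.natAbs_ne_zero.2 (h0 j))) h2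
    have h4 : (y + 1) ^ S.card ≤ (y + 1) ^ (B * K) := by
      calc (y + 1) ^ S.card ≤ X ^ B := h1.trans (h3.trans (hb j))
        _ ≤ ((y + 1) ^ K) ^ B := Nat.pow_le_pow_left hK.le B
        _ = (y + 1) ^ (B * K) := by rw [← pow_mul, mul_comm]
    exact (Nat.pow_le_pow_iff_right (by omega)).1 h4
  refine (card_le_card hsub).trans ((card_union_le _ _).trans (add_le_add
    ((card_union_le _ _).trans (add_le_add ?_ ?_)) card_biUnion_le))
  · simp
  · refine card_biUnion_le.trans ?_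
    refine (sum_le_sum fun j _ => hone j).trans ?_
    rw [sum_const, card_univ, smul_eq_mul]

/-- the 2-Selmer group is bounded by the local count -/
lemma selx_of (hdesc : SELD) (hxc : XCL) (hloc : LOCLP) : SELX := by
  intro J _ _ cls a x z y X k B hz2 ha0 ha hG hF hb hX hy hk
  have h0 := hG.1
  have hFne : ∀ k, Fval cls a x k ≠ 0 := fun k =>
    mul_ne_zero (ha0 k) (prod_ne_zero_iff.2 fun l _ => h0 l)
  set s := S1 z y x with hs
  have hmem : s ∈ Tup J z y := s1_tup hG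
  have hmd : ∏ j, s j ∣ PP z y := Tup_prod_dvd hmem
  have hPSof : ∀ p : ℕ, p.Prime → p ∣ ∏ j, s j → p ∈ PS z y := fun p hp h =>
    (prime_dvd_PP hp).1 (h.trans hmd)
  have hodd : ∀ p : ℕ, p.Prime → p ∣ ∏ j, s j → p ≠ 2 := by
    intro p hp h
    have h1 := (mem_PS.1 (hPSof p hp h)).1.1
    omega
  have hnκ : ∀ p : ℕ, p.Prime → ∀ j, p ∣ s j → ∀ k, ¬ (p : ℤ) ∣ kval cls a x j k := by
    intro p hp j hj k
    have h1 := (s1_dvd_iff hp).1 hj
    exact kval_nd hG ha hp (mem_PS.1 h1.1).1.1 h1.2.1 k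
  set L : ℕ → Bool → Bool → Bool → Bool → Prop := fun p v w h g => ∀ j, p ∣ s j →
    LT (cls j) (fun k => sg0 p (kval cls a x j k)) (sg0 p (-1))
      (decide (p ∈ negx cls x s)) v w h g with hL
  have hd := hdesc (∏ j, s j) L
    (Fval cls a x 0) (Fval cls a x 1) (hFne 0) (hFne 1)
    (fun h => hFne 2 (by rw [← hF, h, sub_self]))
    (by
      rw [← Nat.not_even_iff_odd, even_iff_two_dvd]
      intro h
      exact hodd 2 Nat.prime_two h rfl)
    ((PP_squarefree z y).squarefree_of_dvd hmd)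
    (fun p hp hpd => by
      have : Fact p.Prime := ⟨hp⟩
      refine ⟨fun j hj => ?_, fun a1 b1 c1 d1 a2 b2 c2 d2 e1 e2 j hj => ?_⟩
      · rw [← ll_lt (hnκ p hp j hj)]
        exact (hxc _ _ _ p hp (hodd p hp hpd) (hnκ p hp j hj)).1
      · have g1 := e1 j hj
        have g2 := e2 j hj
        rw [← ll_lt (hnκ p hp j hj)] at g1 g2 ⊢
        exact (hxc _ _ _ p hp (hodd p hp hpd) (hnκ p hp j hj)).2 a1 b1 c1 d1 a2 b2 c2 d2 g1 g2)
    (fun p hp hpd u u' hu' hcurve e1 e2 he1 he2 hsq1 hsq2 j hj => by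
      have hpp : p.Prime := Fact.out
      have hjs := (s1_dvd_iff hpp).1 hj
      have hzp := (mem_PS.1 hjs.1).1.1
      rw [← ll_lt (hnκ p hpp j hj)]
      refine hloc (cls j) (kval cls a x j) _ p _ _ (hodd p hpp hpd) (hnκ p hpp j hj)
        (lochx hG ha hpp hzp hF hjs.2.1 hjs.2.2 (fun h3 => ?_)) u u' hu' hcurve e1 e2 he1 he2
        hsq1 hsq2
      rw [decide_eq_true_eq]
      unfold negx P3
      rw [mem_filter, Nat.mem_primeFactors]
      constructor
      · rintro ⟨_, l, hl3, hl, hl2⟩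
        have : l = j := by
          by_contra hne
          have h4 := (mem_Tup'.1 hmem).2 l j hne
          exact hpp.one_lt.ne' (Nat.dvd_one.1 (h4 ▸ Nat.dvd_gcd hl hj))
        rwa [this] at hl2
      · intro h5
        refine ⟨⟨hpp, dvd_trans hj (dvd_prod_of_mem s (mem_filter.2 ⟨mem_univ _, h3⟩)), ?_⟩,
          j, h3, hj, h5⟩
        exact prod_ne_zero_iff.2 fun l _ => (Tup_pos hmem l).ne')
  rw [hF] at hd
  refine ⟨hd.1, hd.2.trans (Nat.mul_le_mul_right _ ?_)⟩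
  have hc := badx (cls := cls) (a := a) (y := y) hz2 ha hX hy h0 hb hk
  rw [← hs] at hc
  calc 4 ^ (((2 * Fval cls a x 0 * Fval cls a x 1 *
        Fval cls a x 2).natAbs.primeFactors.filter (fun q => ¬ q ∣ ∏ j, s j)).card + 2)
      ≤ 4 ^ ((z + 2) + (Fintype.card J * (B * k)) + ∑ j, (S2 z y x j).primeFactors.card) :=
        Nat.pow_le_pow_right (by norm_num) (by omega)
    _ = _ := by
        rw [pow_add, pow_add]
        congr 2
        rw [← pow_mul, ← pow_mul]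
        congr 1
        ring

theorem selx : SELX :=
  selx_of Pool.Agent.W410.FK.seld Pool.Agent.W342.RK2.xcl (loclp_of Pool.Agent.W407.SE.ratp)

end Pool.Agent.TH841.PT.SelXf
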