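import Mathlib
import Pool.Agent.TH841.PT.Fin2
import Pool.Agent.TH841.PT.PenP
import Pool.Agent.TH841.PT.ATS2
import Pool.Agent.TH841.PT.EPS
import Pool.Agent.TH841.PT.SelX

/-!
# Project PT: assembly, pencils
-/

set_option autoImplicit false

namespace Pool.Agent.TH841.PT

open Pool.Agent.W307.SE (SN)

theorem ats : ATS := ATS8.ats_of blw EPSf.eps EFG.fullg

theorem av3 : AV3 := av3_of ats SelXf.selx cnth

theorem av3g : AV3G := by
  intro J _ _ cls a f n B ha hf hn hrel G hG
  exact avg3G cnth SelXf.selx antx RSPf.rsp RVU.rvp RVU.rup SubT.subt ats MergeF.merge ExpT.expt twg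
    GDPf.gdp cls a f n B ha hf hn hrel G hG

end Pool.Agent.TH841.PT
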