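import Mathlib
import Pool.Agent.TH841.PT.AvgG

/-!
# Project PT: weighted moments over the values of a polynomial in short intervals
-/

set_option autoImplicit false

namespace Pool.Agent.TH841.PT

open Finset Polynomial Pool.Agent.W262.RK Pool.Agent.W307.RT Pool.Agent.W307.RS

open Pool.Agent.H474R2.PG (rho)

open Pool.Agent.W307.SE (R4G)

/-- the weight of an integer: the product of `w p` over the primes `p > z1` exactly dividing it and
of `W0` over its other prime factors -/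
noncomputable def Fw (w : ℕ → ℝ) (W0 : ℝ) (z1 : ℕ) (x : ℤ) : ℝ :=
  ∏ p ∈ x.natAbs.primeFactors, if p ≤ z1 ∨ p ^ 2 ∣ x.natAbs then W0 else w p

section

variable {w : ℕ → ℝ} {W0 : ℝ} {z1 : ℕ}

lemma Fw_nonneg (hw0 : ∀ p, 0 ≤ w p) (hW1 : 1 ≤ W0) (x : ℤ) : 0 ≤ Fw w W0 z1 x := by
  unfold Fw
  refine prod_nonneg fun p _ => ?_
  split_ifs
  · linarith
  · exact hw0 p

/-- the primes greater than `y` -/
lemma card_large {x X y k B : ℕ} (hx : x ≠ 0) (hb : x ≤ X ^ B) (hk : X < (y + 1) ^ k) :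
    (x.primeFactors.filter (fun p => y < p)).card ≤ k * B := by
  rcases Nat.eq_zero_or_pos (k * B) with h0 | hpos
  · rcases Nat.mul_eq_zero.1 h0 with h1 | h1
    · rw [h1, pow_zero] at hk
      have hX : X = 0 := by omega
      rcases Nat.eq_zero_or_pos B with h2 | h2
      · rw [h2, pow_zero] at hb
        have : x = 1 := by omega
        rw [this]
        simp
      · rw [hX, zero_pow h2.ne'] at hb
        omega
    · rw [h1, pow_zero] at hb
      have : x = 1 := by omega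
      rw [this]
      simp
  · have h1 : (y + 1) ^ (x.primeFactors.filter (fun p => y < p)).card ≤ x := by
      calc (y + 1) ^ (x.primeFactors.filter (fun p => y < p)).card
          = ∏ p ∈ x.primeFactors.filter (fun p => y < p), (y + 1) := by rw [prod_const]
        _ ≤ ∏ p ∈ x.primeFactors.filter (fun p => y < p), p :=
            prod_le_prod (fun _ _ => Nat.zero_le _) fun p hp => (mem_filter.1 hp).2
        _ ≤ ∏ p ∈ x.primeFactors, p :=
            prod_le_prod_of_subset_of_one_le' (filter_subset _ _) fun p hp _ =>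
              (Nat.prime_of_mem_primeFactors hp).one_lt.le
        _ ≤ x := Nat.le_of_dvd (Nat.pos_of_ne_zero hx) (Nat.prod_primeFactors_dvd x)
    by_contra hcon
    push Not at hcon
    have h2 : X ^ B ≤ ((y + 1) ^ k) ^ B := Nat.pow_le_pow_left hk.le B
    have h3 : (y + 1) ^ (k * B) < (y + 1) ^ (x.primeFactors.filter (fun p => y < p)).card := by
      rcases Nat.eq_zero_or_pos y with hy | hy
      · exfalso
        rw [hy] at hk
        simp at hk
        rw [hk] at hb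
        have hB : B ≠ 0 := by
          rintro rfl
          simp at hpos
        rw [zero_pow hB] at hb
        omega
      · exact Nat.pow_lt_pow_right (by omega) hcon
    rw [← pow_mul] at h2
    omega

lemma primeFactors_S1 (z y : ℕ) (x : ℤ) : (S1 z y (fun _ : Unit => x) ()).primeFactors =
    (PS z y).filter (fun p : ℕ => (p : ℤ) ∣ x ∧ ¬ (p : ℤ) ^ 2 ∣ x) := by
  unfold S1
  exact Nat.primeFactors_prod fun p hp => (mem_PS'.1 (mem_filter.1 hp).1).2

lemma primeFactors_S2 (z y : ℕ) (x : ℤ) : (S2 z y (fun _ : Unit => x) ()).primeFactors =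
    (PS z y).filter (fun p : ℕ => (p : ℤ) ^ 2 ∣ x) := by
  unfold S2
  exact Nat.primeFactors_prod fun p hp => (mem_PS'.1 (mem_filter.1 hp).1).2

/-- the bound for the weight -/
lemma Fw_le (hw0 : ∀ p, 0 ≤ w p) (hwW : ∀ p, w p ≤ W0) (hW1 : 1 ≤ W0) {x : ℤ} {z X y k B : ℕ}
    (hx : x ≠ 0) (hb : x.natAbs ≤ X ^ B) (hk : X < (y + 1) ^ k) (hz1 : z1 ≤ z) :
    Fw w W0 z1 x ≤ W0 ^ z * (W0 ^ B) ^ k * W0 ^ (S2 z y (fun _ : Unit => x) ()).primeFactors.card *
      ∏ p ∈ (S1 z y (fun _ : Unit => x) ()).primeFactors, w p := by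
  have hn : x.natAbs ≠ 0 := Int.natAbs_ne_zero.2 hx
  have hW0 : 0 ≤ W0 := by linarith
  set P := x.natAbs.primeFactors with hP
  set Q1 := (S1 z y (fun _ : Unit => x) ()).primeFactors with hQ1
  set Q2 := (S2 z y (fun _ : Unit => x) ()).primeFactors with hQ2
  set A := (Icc 1 z) with hA
  set G := P.filter (fun p => y < p) with hG
  have hdvd : ∀ p : ℕ, (p : ℤ) ^ 2 ∣ x ↔ p ^ 2 ∣ x.natAbs := by
    intro p
    rw [← Int.natCast_dvd]
    push_cast
    rfl
  have hmem1 : ∀ p, p ∈ Q1 → p ∈ P ∧ z < p ∧ ¬ p ^ 2 ∣ x.natAbs := by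
    intro p hp
    rw [hQ1, primeFactors_S1, mem_filter] at hp
    have hp1 := mem_PS'.1 hp.1
    refine ⟨?_, hp1.1.1, fun h => hp.2.2 ((hdvd p).2 h)⟩
    rw [hP, Nat.mem_primeFactors]
    exact ⟨hp1.2, Int.natCast_dvd.1 hp.2.1, hn⟩
  have hsub : P \ Q1 ⊆ A ∪ Q2 ∪ G := by
    intro p hp
    rw [mem_sdiff] at hp
    obtain ⟨hpP, hpQ⟩ := hp
    have hpp := Nat.prime_of_mem_primeFactors hpP
    have hpd := Nat.dvd_of_mem_primeFactors hpP
    rw [mem_union, mem_union]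
    by_cases h1 : p ≤ z
    · exact Or.inl (Or.inl (mem_Icc.2 ⟨hpp.one_lt.le, h1⟩))
    · by_cases h2 : y < p
      · exact Or.inr (mem_filter.2 ⟨hpP, h2⟩)
      · have hPS : p ∈ PS z y := mem_PS'.2 ⟨⟨by omega, by omega⟩, hpp⟩
        by_cases h3 : (p : ℤ) ^ 2 ∣ x
        · refine Or.inl (Or.inr ?_)
          rw [hQ2, primeFactors_S2, mem_filter]
          exact ⟨hPS, h3⟩
        · exfalso
          apply hpQ
          rw [hQ1, primeFactors_S1, mem_filter]
          exact ⟨hPS, Int.natCast_dvd.2 hpd, h3⟩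
  have h1 : Fw w W0 z1 x = (∏ p ∈ P \ Q1, if p ≤ z1 ∨ p ^ 2 ∣ x.natAbs then W0 else w p) *
      ∏ p ∈ Q1, w p := by
    unfold Fw
    rw [← prod_sdiff (s₁ := Q1) (s₂ := P) (fun p hp => (hmem1 p hp).1)]
    congr 1
    refine prod_congr rfl fun p hp => ?_
    rw [if_neg]
    rintro (h | h)
    · have := (hmem1 p hp).2.1
      omega
    · exact (hmem1 p hp).2.2 h
  rw [h1]
  refine mul_le_mul_of_nonneg_right ?_ (prod_nonneg fun p _ => hw0 p)
  have h2 : ∏ p ∈ P \ Q1, (if p ≤ z1 ∨ p ^ 2 ∣ x.natAbs then W0 else w p) ≤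
      W0 ^ (P \ Q1).card := by
    rw [← prod_const]
    refine prod_le_prod (fun p _ => ?_) fun p _ => ?_
    · split_ifs
      · exact hW0
      · exact hw0 p
    · split_ifs
      · exact le_rfl
      · exact hwW p
  refine h2.trans ?_
  have h3 : (P \ Q1).card ≤ z + k * B + Q2.card := by
    refine (card_le_card hsub).trans ?_
    refine (card_union_le _ _).trans ?_
    have h4 := card_union_le A Q2
    have h5 : A.card = z := by rw [hA, Nat.card_Icc]; omega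
    have h6 : G.card ≤ k * B := card_large hn hb hk
    omega
  refine (pow_le_pow_right₀ hW1 h3).trans (le_of_eq ?_)
  rw [pow_add, pow_add, mul_comm k B, pow_mul]

end

/-- the sums for signed weights -/
lemma Sp_signed {a : ℕ → ℝ} {c z y X : ℕ} {A : ℝ} {k : ℕ}
    (ha : ∀ p : ℕ, p.Prime → z < p → |a p| ≤ c) (hzy : z < y) (hyX : y ≤ X)
    (h : ∑ p ∈ PS y X, 1 / (p : ℝ) ≤ k + A) : Sp a z y ≤ Sp a z X + c * (k + A) := by
  have h4 : PS z X = PS z y ∪ PS y X := by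
    ext p
    unfold PS
    simp only [mem_filter, mem_union, mem_Ioc]
    constructor
    · rintro ⟨⟨h5, h6⟩, h7⟩
      by_cases h8 : p ≤ y
      · exact Or.inl ⟨⟨h5, h8⟩, h7⟩
      · exact Or.inr ⟨⟨by omega, h6⟩, h7⟩
    · rintro (⟨⟨h5, h6⟩, h7⟩ | ⟨⟨h5, h6⟩, h7⟩)
      · exact ⟨⟨h5, by omega⟩, h7⟩
      · exact ⟨⟨by omega, h6⟩, h7⟩
  have h5 : Sp a z X = Sp a z y + ∑ p ∈ PS y X, a p / (p : ℝ) := by
    unfold Sp
    rw [h4, sum_union]
    rw [disjoint_left]
    intro p hp hp'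
    have := mem_PS'.1 hp
    have := mem_PS'.1 hp'
    omega
  have h6 : -(c * (k + A)) ≤ ∑ p ∈ PS y X, a p / (p : ℝ) := by
    have h7 : -(c * ∑ p ∈ PS y X, 1 / (p : ℝ)) ≤ ∑ p ∈ PS y X, a p / (p : ℝ) := by
      rw [mul_sum, ← sum_neg_distrib]
      refine sum_le_sum fun p hp => ?_
      have hp' := mem_PS'.1 hp
      rw [mul_one_div, ← neg_div]
      refine div_le_div_of_nonneg_right ?_ (Nat.cast_nonneg _)
      exact neg_le_of_abs_le (ha p hp'.2 (by omega))
    have h8 : (c : ℝ) * ∑ p ∈ PS y X, 1 / (p : ℝ) ≤ c * (k + A) :=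
      mul_le_mul_of_nonneg_left h (Nat.cast_nonneg _)
    linarith
  rw [h5]
  linarith

/-- **the weighted moments of the twists by the values of a polynomial** -/
theorem avgw {Rf : ℤ → ℤ → ℝ} (hRf : ∀ A B, 0 ≤ Rf A B) (hcnt : CNTP) (hrank : R4G Rf)
    (hant : ANTX) (hrs : RSP) (hrv : RVP) (hru : RUP) (hgd : GDP)
    (hsub : Pool.Agent.W307.RS.SUBBK) (a : Fin 3 → ℤ) (D : ℤ[X]) (k0 B : ℕ)
    (ha : ∀ k, a k ≠ 0) (ha2 : a 0 - a 1 = a 2) (hD : Squarefree (D.map (Int.castRingHom ℚ)))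
    (hd : 0 < D.natDegree) (w : ℕ → ℝ) (W0 : ℝ) (z1 c : ℕ) (hv0 : ∀ p, 0 ≤ w p)
    (hvW : ∀ p, w p ≤ W0) (hW1 : 1 ≤ W0) (hcW : W0 * D.natDegree ≤ c)
    (hma : ∃ z0 : ℕ, ∀ z, z0 ≤ z → ∃ C' : ℝ, ∀ y, z < y →
      ∑ s ∈ Tup Unit z y, NBK k0 (fun _ => a) s * ∏ j, gp (fun p => w p * rz D z p) c (s j) ≤
        C' * Real.exp (Sp (fun p => w p * rho D p) z y)) :
    ∃ z0 : ℕ, ∀ z, z0 ≤ z → ∃ C : ℝ, ∀ (N : ℤ) (X : ℕ), 1 ≤ X → N.natAbs ≤ X ^ B →
      ∑ t ∈ (Icc 1 X).filter (fun t : ℕ => D.eval (N + (t : ℤ)) ≠ 0),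
        Fw w W0 z1 (D.eval (N + (t : ℤ))) *
        Rf (a 0 * D.eval (N + (t : ℤ))) (a 1 * D.eval (N + (t : ℤ))) ^ k0 ≤
          C * (X * Real.exp (Sp (fun p => (w p - 1) * rho D p) z X)) := by
  have hW0 : 0 ≤ W0 := by linarith
  have hDc : D.natDegree ≤ c := by
    have h1 : (D.natDegree : ℝ) ≤ c := by
      refine le_trans ?_ hcW
      exact le_mul_of_one_le_left (Nat.cast_nonneg _) hW1
    exact_mod_cast h1
  obtain ⟨κ, hκdef⟩ : ∃ κ : Unit → Fin 3 → ℤ, κ = fun _ => a := ⟨_, rfl⟩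
  have hκ0 : ∀ j k, κ j k ≠ 0 := by
    rw [hκdef]
    exact fun _ => ha
  obtain ⟨z0, hz0⟩ := hma
  obtain ⟨zg, hzg⟩ := hgd D hD
  refine ⟨z0 + zg + (2 * c + 2) + 4 + z1 + ∑ k, (a k).natAbs, fun z hz => ?_⟩
  have hza : ∀ k, (a k).natAbs ≤ z := by
    intro k
    have h2 := single_le_sum (f := fun k => (a k).natAbs) (fun _ _ => Nat.zero_le _) (mem_univ k)
    omega
  have hκz : ∀ j k, (κ j k).natAbs ≤ z := by
    rw [hκdef]
    exact fun _ => hza
  have hGd := hzg z (by omega)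
  have hG : GoodD D z c := fun p hp hzp => ⟨(hGd p hp hzp).1.trans hDc, (hGd p hp hzp).2⟩
  obtain ⟨C', hC'⟩ := hz0 z (by omega)
  rw [← hκdef] at hC'
  obtain ⟨C, K, y0, hC0, hK1, hcn⟩ := hcnt c z (by omega)
  obtain ⟨Kd, hKd⟩ := eval_le D
  obtain ⟨At, hAt0, hAt⟩ := tail_le (z := z) (by omega)
  set B' : ℕ := (B + 2) * D.natDegree + 1 with hB'
  set y1 : ℕ := y0 + Kd + 3 with hy1
  -- the signed weights
  set e : ℕ → ℝ := fun p => (w p - 1) * rho D p with he
  have hec : ∀ p : ℕ, p.Prime → z < p → |e p| ≤ c := by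
    intro p hp hzp
    rw [he]
    simp only
    rw [abs_mul, Nat.abs_cast]
    have h1 : |w p - 1| ≤ W0 := by
      rw [abs_le]
      have := hv0 p
      have := hvW p
      constructor <;> linarith
    have h2 : (rho D p : ℝ) ≤ D.natDegree := by exact_mod_cast (hGd p hp hzp).1
    exact (mul_le_mul h1 h2 (Nat.cast_nonneg _) hW0).trans hcW
  have hSe : ∀ y, Sp e z y = Sp (fun p => w p * rho D p) z y - Sp (fun p => (rho D p : ℝ)) z y := by
    intro y
    unfold Sp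
    rw [← sum_sub_distrib]
    refine sum_congr rfl fun p _ => ?_
    rw [he]
    ring
  -- the summand
  let r : ℤ → ℝ := fun x => Fw w W0 z1 (D.eval x) * Rf (a 0 * D.eval x) (a 1 * D.eval x) ^ k0
  have hr0 : ∀ x, 0 ≤ r x := fun x =>
    mul_nonneg (Fw_nonneg hv0 hW1 _) (pow_nonneg (hRf _ _) _)
  suffices key : ∃ C2 : ℝ, ∀ θ : {θ : ℤ × ℕ // 1 ≤ θ.2 ∧ θ.1.natAbs ≤ θ.2 ^ B},
      ∑ t ∈ (Icc 1 θ.1.2).filter (fun t : ℕ => D.eval (θ.1.1 + (t : ℤ)) ≠ 0),
        r (θ.1.1 + (t : ℤ)) ≤ C2 * ((θ.1.2 : ℝ) * Real.exp (Sp e z θ.1.2)) by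
    obtain ⟨C2, hC2⟩ := key
    exact ⟨C2, fun N X hX hN => hC2 ⟨(N, X), hX, hN⟩⟩
  set G : (Unit → ℕ) → ℝ := NBK k0 κ with hGdef
  have hG0 : ∀ s, 0 ≤ G s := by
    intro s
    rw [hGdef]
    unfold NBK
    exact mul_nonneg (by positivity) (sum_nonneg fun _ _ => pow_nonneg (Nat.cast_nonneg _) _)
  have hcz : c ≤ z := by omega
  have hrd : ∀ p, p.Prime → rz D z p ≤ D.natDegree := by
    intro p hp
    unfold rz
    split_ifs with h
    · exact_mod_cast (hGd p hp h).1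
    · exact Nat.cast_nonneg _
  have hDcR : (D.natDegree : ℝ) ≤ c := by exact_mod_cast hDc
  -- the weights for the primes only
  set wd : ℕ → ℝ := fun p => if p.Prime then rz D z p else 0 with hwd
  have hwd0 : ∀ p, 0 ≤ wd p := by
    intro p
    rw [hwd]
    simp only
    split_ifs
    · exact rz_nonneg _ _ _
    · exact le_rfl
  have hwdc : ∀ p, wd p ≤ c := by
    intro p
    rw [hwd]
    simp only
    split_ifs with h
    · exact (hrd p h).trans hDcR
    · exact Nat.cast_nonneg _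
  set vw : ℕ → ℝ := fun p => w p * wd p with hvw
  have hvw0 : ∀ p, 0 ≤ vw p := fun p => mul_nonneg (hv0 p) (hwd0 p)
  have hvwc : ∀ p, vw p ≤ c := by
    intro p
    have h2 : wd p ≤ D.natDegree := by
      rw [hwd]
      simp only
      split_ifs with h
      · exact hrd p h
      · exact Nat.cast_nonneg _
    exact (mul_le_mul (hvW p) h2 (hwd0 p) hW0).trans hcW
  have hgw : ∀ d, gp wd c d = gp (rz D z) c d := by
    intro d
    unfold gp
    refine prod_congr rfl fun p hp => ?_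
    rw [hwd]
    simp only
    rw [if_pos (Nat.prime_of_mem_primeFactors hp)]
  have hgv : ∀ d, gp vw c d = gp (fun p => w p * rz D z p) c d := by
    intro d
    unfold gp
    refine prod_congr rfl fun p hp => ?_
    rw [hvw, hwd]
    simp only
    rw [if_pos (Nat.prime_of_mem_primeFactors hp)]
  have hgvw : ∀ d, gp vw c d = (∏ p ∈ d.primeFactors, w p) * gp wd c d := by
    intro d
    unfold gp
    rw [← prod_mul_distrib]
    refine prod_congr rfl fun p hp => ?_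
    rw [hvw]
    ring
  have hgwn : ∀ {y d : ℕ}, d ∣ PP z y → 0 ≤ gp wd c d := fun hd => gp_nonneg hwd0 hcz hd
  have hgvn : ∀ {y d : ℕ}, d ∣ PP z y → 0 ≤ gp vw c d := fun hd => gp_nonneg hvw0 hcz hd
  have hc1 : 1 ≤ c := le_trans hd hDc
  have hA1 : (1 : ℝ) ≤ 4 ^ k0 * W0 := one_le_mul_of_one_le_of_one_le
    (one_le_pow₀ (by norm_num)) hW1
  refine hant Unit ℕ {θ : ℤ × ℕ // 1 ≤ θ.2 ∧ θ.1.natAbs ≤ θ.2 ^ B}
    (fun θ => (Icc 1 θ.1.2).filter (fun t : ℕ => D.eval (θ.1.1 + (t : ℤ)) ≠ 0))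
    (fun θ => θ.1.2) (fun θ t _ => D.eval (θ.1.1 + (t : ℤ)))
    (fun θ => (θ.1.2 : ℝ) * Real.exp (Sp e z θ.1.2)) z
    (fun y => Real.exp (Sp (fun p => w p * rho D p) z y))
    (fun s => G s * ∏ j, gp vw c (s j))
    (fun v => ∏ j, (((4 : ℝ) ^ k0 * W0) ^ (v j).primeFactors.card * (gp wd c (v j) / v j)))
    (fun u => ∏ j, ((c : ℝ) ^ (u j).primeFactors.card / (u j : ℝ)))
    (fun θ t => r (θ.1.1 + (t : ℤ)))
    (C * (4 ^ (z + 2)) ^ k0 * W0 ^ z * Real.exp (c * At))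
    ((4 ^ B') ^ k0 * W0 ^ B' * Real.exp c) K y1 (by omega) (fun y _ => Real.exp_pos _)
    (fun θ => θ.2.1) (fun θ => by positivity) (fun X0 => ?_) (fun θ t ht => ?_)
    (fun θ t => hr0 _) (by positivity)
    (one_le_mul_of_one_le_of_one_le (one_le_mul_of_one_le_of_one_le
      (one_le_pow₀ (one_le_pow₀ (by norm_num))) (one_le_pow₀ hW1))
      (Real.one_le_exp (Nat.cast_nonneg _))) hK1
    (fun y s hs => ⟨?_, ?_⟩) (fun y Y _ u hu => ?_) (fun lam hlam => ?_)
    (fun lam hlam => ?_) (fun lam hlam => ?_) ?_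
  · -- small scales
    refine ⟨(∑ N ∈ Icc (-((X0 : ℤ) ^ B)) ((X0 : ℤ) ^ B), ∑ t ∈ Icc 1 X0, r (N + (t : ℤ))) *
      Real.exp (Sp (fun _ => (c : ℝ)) z X0), ?_⟩
    rintro ⟨⟨N, X⟩, hX, hN⟩ hle
    simp only at hX hN hle ⊢
    have hX0 : X ^ B ≤ X0 ^ B := Nat.pow_le_pow_left hle B
    have hmem : N ∈ Icc (-((X0 : ℤ) ^ B)) ((X0 : ℤ) ^ B) := by
      rw [mem_Icc]
      have h1 : (N.natAbs : ℤ) ≤ (X0 : ℤ) ^ B := by exact_mod_cast hN.trans hX0
      omega
    have h1 : ∑ t ∈ (Icc 1 X).filter (fun t : ℕ => D.eval (N + (t : ℤ)) ≠ 0),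
        r (N + (t : ℤ)) ≤ ∑ t ∈ Icc 1 X0, r (N + (t : ℤ)) := by
      refine sum_le_sum_of_subset_of_nonneg ?_ fun t _ _ => hr0 _
      exact (filter_subset _ _).trans (Icc_subset_Icc_right hle)
    have h2 : ∑ t ∈ Icc 1 X0, r (N + (t : ℤ)) ≤
        ∑ N ∈ Icc (-((X0 : ℤ) ^ B)) ((X0 : ℤ) ^ B), ∑ t ∈ Icc 1 X0, r (N + (t : ℤ)) :=
      single_le_sum (f := fun N : ℤ => ∑ t ∈ Icc 1 X0, r (N + (t : ℤ)))
        (fun _ _ => sum_nonneg fun _ _ => hr0 _) hmem
    have h3 : 0 ≤ ∑ N ∈ Icc (-((X0 : ℤ) ^ B)) ((X0 : ℤ) ^ B), ∑ t ∈ Icc 1 X0, r (N + (t : ℤ)) :=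
      sum_nonneg fun _ _ => sum_nonneg fun _ _ => hr0 _
    have h4 : (1 : ℝ) ≤ (X : ℝ) := by exact_mod_cast hX
    have h5 : -Sp e z X ≤ Sp (fun _ => (c : ℝ)) z X0 := by
      unfold Sp
      rw [← sum_neg_distrib]
      refine le_trans (sum_le_sum (g := fun p : ℕ => (c : ℝ) / (p : ℝ)) fun p hp => ?_)
        (sum_le_sum_of_subset_of_nonneg ?_ fun p _ _ => by positivity)
      · have hp' := mem_PS'.1 hp
        rw [← neg_div]
        refine div_le_div_of_nonneg_right ?_ (Nat.cast_nonneg _)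
        have := (abs_le.1 (hec p hp'.2 hp'.1.1)).1
        linarith
      · intro p hp
        have := mem_PS'.1 hp
        exact mem_PS'.2 ⟨⟨this.1.1, this.1.2.trans hle⟩, this.2⟩
    have h6 : (1 : ℝ) ≤ Real.exp (Sp (fun _ => (c : ℝ)) z X0) * Real.exp (Sp e z X) := by
      rw [← Real.exp_add]
      exact Real.one_le_exp (by linarith)
    have h7 : (1 : ℝ) ≤ Real.exp (Sp (fun _ => (c : ℝ)) z X0) * (X * Real.exp (Sp e z X)) := by
      have := mul_le_mul h4 h6 zero_le_one (by linarith : (0 : ℝ) ≤ X)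
      calc (1 : ℝ) = 1 * 1 := by ring
        _ ≤ X * (Real.exp (Sp (fun _ => (c : ℝ)) z X0) * Real.exp (Sp e z X)) := this
        _ = _ := by ring
    rw [mul_assoc]
    exact (h1.trans h2).trans (le_mul_of_one_le_right h3 h7)
  · -- good values
    refine ⟨fun _ => (mem_filter.1 ht).2, fun p hp hzp j l hjl _ => absurd rfl hjl⟩
  · exact mul_nonneg (hG0 s) (prod_nonneg fun j _ => hgvn (Tup_unit hs))
  · exact prod_nonneg fun j _ => mul_nonneg (by positivity)
      (div_nonneg (hgwn (Tup_unit hs)) (Nat.cast_nonneg _))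
  · exact prod_nonneg fun j _ => by positivity
  · -- the first sum
    obtain ⟨A, hA⟩ := hrs Unit z c (fun _ => vw) G
      (fun y => C' * Real.exp (Sp (fun p => w p * rho D p) z y)) (4 ^ k0) lam (by omega)
      (fun _ p => ⟨hvw0 p, hvwc p⟩) (one_le_pow₀ (by norm_num)) hlam hG0
      (fun y hy s e hse => hsub Unit k0 κ z y (by omega) hκ0 hκz s e hse)
      (fun y hy => by
        simp only [hgv]
        exact hC' y hy)
    refine ⟨A * C', fun y hy => ?_⟩
    have := hA y hy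
    rw [mul_assoc]
    exact this
  · exact hrv Unit z c (fun _ => wd) (4 ^ k0 * W0) lam (by omega)
      (fun _ p => ⟨hwd0 p, hwdc p⟩) hA1 hlam
  · exact hru Unit (c : ℝ) lam (by exact_mod_cast hc1) hlam
  -- the local majorant
  rintro ⟨⟨N, X⟩, hX1, hN⟩ y Y k hy0 hzy hyK hk s hs v hv u hu h8 T' hT' hval
  simp only at hX1 hN hyK hk h8 hT' hval ⊢
  have hy00 : y0 ≤ y := by omega
  have hyX : y ≤ X := le_trans (Nat.le_self_pow (by omega) y) hyK
  set g : Finset ℕ → ℝ := fun E => (NL (∏ j, s j) (LLs (c3 Unit) κ s E) : ℝ) ^ k0 with hg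
  have hg0 : ∀ E, 0 ≤ g E := fun E => pow_nonneg (Nat.cast_nonneg _) _
  have hPs : ∏ j, s j = s () := by simp
  set Pw : ℝ := ∏ p ∈ (s ()).primeFactors, w p with hPw
  have hPw0 : 0 ≤ Pw := prod_nonneg fun p _ => hv0 p
  set V : ℝ := W0 ^ z * (W0 ^ B') ^ k * W0 ^ (v ()).primeFactors.card * Pw with hV
  have hV0 : 0 ≤ V := by positivity
  have h1 : ∀ t ∈ T', r (N + (t : ℤ)) ≤
      V * ((4 ^ (z + 2)) ^ k0 * ((4 ^ B') ^ k0) ^ k *
        (4 ^ k0) ^ (v ()).primeFactors.card * g (ngs (D.eval (N + (t : ℤ))) (s ()))) := by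
    intro t ht
    have htT := hT' ht
    rw [mem_filter] at htT
    obtain ⟨ht1, ht0⟩ := htT
    obtain ⟨hts, htv, _⟩ := hval t ht
    have hsize : (D.eval (N + (t : ℤ))).natAbs ≤ X ^ B' := by
      have e2 : t ≤ X := (mem_Icc.1 ht1).2
      have e5 : X ^ B ≤ X ^ (B + 1) := Nat.pow_le_pow_right hX1 (by omega)
      have e6 : X ≤ X ^ (B + 1) := Nat.le_self_pow (by omega) X
      have e7 : 1 ≤ X ^ (B + 1) := Nat.one_le_pow _ _ hX1
      have e8 : (N + (t : ℤ)).natAbs ≤ X ^ (B + 2) := by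
        calc (N + (t : ℤ)).natAbs ≤ N.natAbs + t :=
              (Int.natAbs_add_le _ _).trans (by rw [Int.natAbs_natCast])
          _ ≤ X ^ (B + 1) + X ^ (B + 1) := Nat.add_le_add (hN.trans e5) (e2.trans e6)
          _ = 2 * X ^ (B + 1) := by ring
          _ ≤ X * X ^ (B + 1) := Nat.mul_le_mul_right _ (by omega)
          _ = X ^ (B + 2) := by ring
      calc (D.eval (N + (t : ℤ))).natAbs ≤ Kd * (X ^ (B + 2)) ^ D.natDegree :=
            hKd _ _ (Nat.one_le_pow _ _ hX1) e8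
        _ ≤ X * (X ^ (B + 2)) ^ D.natDegree := Nat.mul_le_mul_right _ (by omega)
        _ = X ^ B' := by rw [hB', ← pow_mul]; ring
    have hr := rankp hrank a ha ha2 z y X k B' (by omega) hza _ ht0 hsize hX1 (by omega) hk
    have hF := Fw_le (z1 := z1) hv0 hvW hW1 ht0 hsize hk (by omega : z1 ≤ z)
    have es1 : S1 z y (fun _ : Unit => D.eval (N + (t : ℤ))) = s := hts
    have es2 : S2 z y (fun _ : Unit => D.eval (N + (t : ℤ))) = v := htv
    rw [es1, es2] at hr hF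
    refine mul_le_mul hF ?_ (pow_nonneg (hRf _ _) _) hV0
    refine (pow_le_pow_left₀ (hRf _ _) hr k0).trans (le_of_eq ?_)
    rw [hg, hκdef]
    simp only [mul_pow, hPs]
    rw [← pow_mul 4 (v ()).primeFactors.card k0, ← pow_mul 4 k0, mul_comm k0,
      ← pow_mul (4 ^ B') k k0, ← pow_mul (4 ^ B') k0 k, mul_comm k k0]
  have hneg : ∀ t ∈ T', ngs (D.eval (N + (t : ℤ))) (s ()) ∈ (s ()).primeFactors.powerset := by
    intro t _
    rw [mem_powerset]
    exact filter_subset _ _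
  have h2 : ∑ t ∈ T', g (ngs (D.eval (N + (t : ℤ))) (s ())) =
      ∑ E ∈ (s ()).primeFactors.powerset,
        ((T'.filter (fun t : ℕ => ngs (D.eval (N + (t : ℤ))) (s ()) = E)).card : ℝ) * g E := by
    rw [← sum_fiberwise_of_maps_to hneg]
    refine sum_congr rfl fun E _ => ?_
    rw [← nsmul_eq_mul, ← sum_const]
    refine sum_congr rfl fun t ht => ?_
    rw [(mem_filter.1 ht).2]
  set SX : ℝ := Real.exp (Sp e z X) with hSX
  set SH : ℝ := Real.exp (Sp (fun p => w p * rho D p) z y) with hSH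
  have hexp : Real.exp (-Sp (fun p => (rho D p : ℝ)) z y) ≤
      Real.exp (c * At) * (Real.exp c) ^ k * SX / SH := by
    rw [hSX, hSH, div_eq_mul_inv, ← Real.exp_neg, ← Real.exp_nat_mul, ← Real.exp_add,
      ← Real.exp_add, ← Real.exp_add]
    apply Real.exp_le_exp.2
    have h3 := Sp_signed hec hzy hyX (hAt y X k hzy hk)
    rw [hSe] at h3
    linarith
  set Q : ℝ := C * X * (1 / 2) ^ (s ()).primeFactors.card * gp (fun p => rho D p) c (s ()) *
        (gp (fun p => rho D p) c (v ()) / v ()) * ((c : ℝ) ^ (u ()).primeFactors.card / u ()) *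
        (Real.exp (c * At) * (Real.exp c) ^ k * SX / SH) with hQ
  have h8' : (s () * v () * u ()) ^ 8 ≤ X := by simpa using h8
  have hden : ∀ {d : ℕ}, d ∣ PP z y → 0 ≤ gp (fun p => rho D p) c d := fun hd =>
    gp_nonneg (fun _ => Nat.cast_nonneg _) hcz hd
  have h3 : ∀ E ∈ (s ()).primeFactors.powerset,
      ((T'.filter (fun t : ℕ => ngs (D.eval (N + (t : ℤ))) (s ()) = E)).card : ℝ) * g E ≤
        Q * g E := by
    intro E _
    refine mul_le_mul_of_nonneg_right ?_ (hg0 E)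
    refine le_trans ?_ ((hcn D hG N X y Y hy00 hzy hyK (s ()) (v ()) (u ()) (Tup_unit hs)
      (Tup_unit hv) (Tup_unit hu) h8' E).trans ?_)
    · have h4 : T'.filter (fun t : ℕ => ngs (D.eval (N + (t : ℤ))) (s ()) = E) ⊆
          (Icc 1 X).filter (fun t : ℕ =>
            S1 z y (fun _ : Unit => D.eval (N + (t : ℤ))) () = s () ∧
            S2 z y (fun _ : Unit => D.eval (N + (t : ℤ))) () = v () ∧
            ((u () : ℕ) : ℤ) ∣ D.eval (N + (t : ℤ)) ∧ ngs (D.eval (N + (t : ℤ))) (s ()) = E) := by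
        intro t ht
        rw [mem_filter] at ht
        rw [mem_filter]
        obtain ⟨ht', htE⟩ := ht
        obtain ⟨hts, htv, htu⟩ := hval t ht'
        exact ⟨(mem_filter.1 (hT' ht')).1, congrFun hts (), congrFun htv (), htu (), htE⟩
      exact_mod_cast card_le_card h4
    · rw [hQ]
      have n1 := hden (Tup_unit hs)
      have n2 := hden (Tup_unit hv)
      exact mul_le_mul_of_nonneg_left hexp (by positivity)
  calc ∑ t ∈ T', r (N + (t : ℤ))
      ≤ ∑ t ∈ T', V * ((4 ^ (z + 2)) ^ k0 * ((4 ^ B') ^ k0) ^ k *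
        (4 ^ k0) ^ (v ()).primeFactors.card * g (ngs (D.eval (N + (t : ℤ))) (s ()))) :=
        sum_le_sum h1
    _ = V * ((4 ^ (z + 2)) ^ k0 * ((4 ^ B') ^ k0) ^ k * (4 ^ k0) ^ (v ()).primeFactors.card) *
          ∑ E ∈ (s ()).primeFactors.powerset,
            ((T'.filter (fun t : ℕ => ngs (D.eval (N + (t : ℤ))) (s ()) = E)).card : ℝ) * g E := by
        rw [← h2, mul_sum]
        refine sum_congr rfl fun t _ => ?_
        ring
    _ ≤ V * ((4 ^ (z + 2)) ^ k0 * ((4 ^ B') ^ k0) ^ k * (4 ^ k0) ^ (v ()).primeFactors.card) *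
          ∑ E ∈ (s ()).primeFactors.powerset, Q * g E :=
        mul_le_mul_of_nonneg_left (sum_le_sum h3) (by positivity)
    _ = _ := by
        have e1 : G s = (1 / 2) ^ (s ()).primeFactors.card *
            ∑ E ∈ (s ()).primeFactors.powerset, g E := by
          rw [hGdef]
          unfold NBK
          rw [P3_c3]
        have e3 : gp vw c (s ()) = Pw * gp (fun p => rho D p) c (s ()) := by
          rw [hgvw, hgw, gp_rz D (Tup_unit hs)]
        have e4 : gp wd c (v ()) = gp (fun p => rho D p) c (v ()) := by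
          rw [hgw, gp_rz D (Tup_unit hv)]
        have e5 : ∀ F : Unit → ℝ, ∏ j, F j = F () := fun F => by simp
        rw [← mul_sum, e5, e5, e5, e1, e3, e4, hQ, hV]
        simp only [mul_pow]
        ring

end Pool.Agent.TH841.PT
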