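import Mathlib
import Pool.Agent.TH841.PT.Mak
import Pool.Agent.TH841.PT.Fin1
import Pool.Agent.TH841.PT.AvgW

/-!
# Project PT: the main average for the weighted moments
-/

set_option autoImplicit false

namespace Pool.Agent.TH841.PT

open Finset Polynomial Pool.Agent.W262.RK Pool.Agent.W307.RT Pool.Agent.W307.RS

open Pool.Agent.H474R2.PG (rho)

open Pool.Agent.W307.SE (SN SN_nonneg)

/-- the average of the weighted moments -/
theorem makw_of (hat : ATG) (hexp : EXPG) (hl : LWP) (ht : TWP) (hgd : GDP) (hco : COMBK)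
    (D : ℤ[X]) (hD : Squarefree (D.map (Int.castRingHom ℚ))) (hd : 0 < D.natDegree)
    (c k : ℕ) (lam : ℝ) (hlam : 0 < lam) (hc : lam * D.natDegree ≤ c) (hk : 2 * c ≤ 4 ^ k)
    (κ : Unit → Fin 3 → ℤ) (hκ : ∀ j i, κ j i ≠ 0) :
    ∃ z0 : ℕ, ∀ z, z0 ≤ z → ∃ C' : ℝ, ∀ y, z < y →
      ∑ s ∈ Tup Unit z y, NBK k κ s * ∏ j, gp (fun p => lam * rz D z p) c (s j) ≤
        C' * Real.exp (Sp (fun p => lam * rho D p) z y) := by
  obtain ⟨zg, hzg⟩ := hgd D hD
  choose E0 zt hE0 hzt using fun i : IK k Unit => ht D hD hd (κK k κ i) (κK_ne k κ hκ i)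
  refine ⟨zg + (2 * c + 2) + univ.sup zt + ∑ j, ∑ i, (κ j i).natAbs, fun z hz => ?_⟩
  have hzt' : ∀ i, zt i ≤ z := fun i => (le_sup (f := zt) (mem_univ i)).trans (by omega)
  choose Ct hCt using fun i : IK k Unit => hzt i z (hzt' i)
  obtain ⟨Cl, hCl⟩ := hl D hD hd z
  have hG := hzg z (by omega)
  have h4 : (0 : ℝ) < 4 ^ k := by positivity
  have h41 : (1 : ℝ) ≤ 4 ^ k := one_le_pow₀ (by norm_num)
  have hrc : ∀ p, p.Prime → lam * rz D z p ≤ c := by
    intro p hp
    unfold rz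
    split_ifs with h
    · refine le_trans (mul_le_mul_of_nonneg_left ?_ hlam.le) hc
      exact_mod_cast (hG p hp h).1
    · rw [mul_zero]
      exact Nat.cast_nonneg _
  set b : IK k Unit → ℕ → ℝ := fun _ p => if p.Prime then lam * rz D z p / 4 ^ k else 0 with hb
  have hSl : ∀ y, Sp (fun p => lam * rho D p) z y = lam * Sp (fun p => rho D p) z y := by
    intro y
    unfold Sp
    rw [mul_sum]
    refine sum_congr rfl fun p _ => ?_
    ring
  have hSb : ∀ i y, Sp (b i) z y = lam * Sp (fun p => rho D p) z y / 4 ^ k := by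
    intro i y
    rw [← Sp_rz]
    unfold Sp
    rw [mul_sum, sum_div]
    refine sum_congr rfl fun p hp => ?_
    rw [hb]
    simp only
    rw [if_pos (mem_filter.1 hp).2]
    ring
  have hS0 : ∀ y, 0 ≤ Sp (fun p => rho D p) z y := fun y => Sp_nonneg (fun p => Nat.cast_nonneg _) z y
  have hEs : ∀ i, E0 i ≤ ∑ i, E0 i := fun i =>
    single_le_sum (f := E0) (fun j _ => hE0 j) (mem_univ i)
  have hCs : ∀ i, Ct i ≤ ∑ i, |Ct i| := fun i =>
    (le_abs_self _).trans (single_le_sum (f := fun i => |Ct i|) (fun j _ => abs_nonneg _) (mem_univ i))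
  have hE0s : 0 ≤ ∑ i, E0 i := sum_nonneg fun i _ => hE0 i
  have hC0s : 0 ≤ ∑ i, |Ct i| := sum_nonneg fun i _ => abs_nonneg _
  obtain ⟨C, hC⟩ := hat (IK k Unit) b (LK k) (κK k κ) c z (lam / 4 ^ k)
    (lam * ∑ i, |Ct i| + lam * |Cl|) (lam * ∑ i, E0 i) (fun y => lam * Sp (fun p => rho D p) z y)
    (by
      intro i p
      rw [hb]
      simp only
      split_ifs with hp
      · refine ⟨div_nonneg (mul_nonneg hlam.le (rz_nonneg _ _ _)) h4.le, ?_⟩
        rw [div_le_div_iff₀ h4 (by norm_num)]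
        have h1 := hrc p hp
        have h2 : (2 * c : ℝ) ≤ 4 ^ k := by exact_mod_cast hk
        linarith
      · exact ⟨le_rfl, by norm_num⟩)
    (LK_self k) (by omega) (by positivity) (mul_nonneg hlam.le hE0s)
    (by
      intro i y hy
      rw [hSb i]
      have h1 := hCl y hy
      have h2 : lam / 4 ^ k * Real.log (Real.log y) ≤
          lam * (Sp (fun p => rho D p) z y + Cl) / 4 ^ k := by
        rw [div_mul_eq_mul_div]
        exact div_le_div_of_nonneg_right (mul_le_mul_of_nonneg_left h1 hlam.le) h4.le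
      have h3 : lam * Cl / 4 ^ k ≤ lam * |Cl| := by
        rw [div_le_iff₀ h4, mul_assoc]
        refine mul_le_mul_of_nonneg_left ?_ hlam.le
        have := le_abs_self Cl
        have := abs_nonneg Cl
        nlinarith
      have h5 : lam * (Sp (fun p => rho D p) z y + Cl) / 4 ^ k =
          lam * Sp (fun p => rho D p) z y / 4 ^ k + lam * Cl / 4 ^ k := by ring
      have h6 : 0 ≤ lam * ∑ i, |Ct i| := mul_nonneg hlam.le hC0s
      linarith)
    (by
      intro y hy U hU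
      simp only [hSb]
      rw [sum_const, nsmul_eq_mul]
      have h1 := hco Unit k U hU
      rw [Fintype.card_unit, mul_one] at h1
      have h2 : (U.card : ℝ) ≤ 4 ^ k := by exact_mod_cast h1
      rw [← mul_div_assoc, div_le_iff₀ h4, mul_comm]
      exact mul_le_mul_of_nonneg_left h2 (mul_nonneg hlam.le (hS0 y)))
    (by
      intro i y r e hy hr hsq hpr
      have h1 := hCt i y r e hy hr hsq hpr
      have hll := loglog_nonneg (by omega : 2 ≤ z) hr hpr
      have h2 : ∑ p ∈ PS z y, b i p * (Jr p r * Jr (κK k κ i) p * x4 e p) / (p : ℝ) =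
          lam * (∑ p ∈ PS z y, (rho D p : ℝ) * (Jr p r * Jr (κK k κ i) p * x4 e p) / (p : ℝ)) /
            4 ^ k := by
        rw [mul_sum, sum_div]
        refine sum_congr rfl fun p hp => ?_
        have hp' := mem_filter.1 hp
        rw [hb]
        simp only
        rw [if_pos hp'.2]
        unfold rz
        rw [if_pos (mem_Ioc.1 hp'.1).1]
        ring
      rw [h2, hSb i]
      have h3 : (∑ p ∈ PS z y, (rho D p : ℝ) * (Jr p r * Jr (κK k κ i) p * x4 e p) / (p : ℝ)) ≤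
          (∑ i, E0 i) * Real.log (Real.log r) + ∑ i, |Ct i| := by
        have := mul_le_mul_of_nonneg_right (hEs i) hll
        linarith [hCs i]
      have h5 : 0 ≤ lam * ((∑ i, E0 i) * Real.log (Real.log r) + ∑ i, |Ct i|) := by positivity
      have h6 : lam * (∑ p ∈ PS z y, (rho D p : ℝ) *
          (Jr p r * Jr (κK k κ i) p * x4 e p) / (p : ℝ)) / 4 ^ k ≤
          lam * ((∑ i, E0 i) * Real.log (Real.log r) + ∑ i, |Ct i|) := by
        rw [div_le_iff₀ h4]
        have h8 := mul_le_mul_of_nonneg_left h3 hlam.le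
        nlinarith
      have h7 : 0 ≤ 1 / 2 * (lam * Sp (fun p => rho D p) z y / 4 ^ k) := by
        have := hS0 y
        positivity
      have h8 : 0 ≤ lam * |Cl| := mul_nonneg hlam.le (abs_nonneg Cl)
      linarith)
  refine ⟨C, fun y hy => ?_⟩
  have hκz : ∀ j i, (κ j i).natAbs ≤ z := by
    intro j i
    have h1 := single_le_sum (f := fun i => (κ j i).natAbs) (fun _ _ => Nat.zero_le _) (mem_univ i)
    have h2 := single_le_sum (f := fun j => ∑ i, (κ j i).natAbs) (fun _ _ => Nat.zero_le _)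
      (mem_univ j)
    omega
  rw [hSl, hexp Unit k κ (fun _ p => lam * rz D z p) c z y (by omega) hκ hκz]
  refine le_trans (le_of_eq ?_) ((le_abs_self _).trans (hC y hy))
  refine sum_congr rfl fun d _ => ?_
  congr 1
  refine prod_congr rfl fun i _ => ?_
  unfold gp
  refine prod_congr rfl fun p hp => ?_
  rw [hb]
  simp only
  rw [if_pos (Nat.prime_of_mem_primeFactors hp)]

/-- **the moments with the weight `lam ^ ω(D(t))`** -/
theorem avgw_lam (a : Fin 3 → ℤ) (D : ℤ[X]) (k0 B : ℕ)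
    (ha : ∀ k, a k ≠ 0) (ha2 : a 0 - a 1 = a 2) (hD : Squarefree (D.map (Int.castRingHom ℚ)))
    (hd : 0 < D.natDegree) (lam W0 : ℝ) (z1 c : ℕ) (hlam : 0 < lam) (hlW : lam ≤ W0)
    (hW1 : 1 ≤ W0) (hcW : W0 * D.natDegree ≤ c) (hk : 2 * c ≤ 4 ^ k0) :
    ∃ z0 : ℕ, ∀ z, z0 ≤ z → ∃ C : ℝ, ∀ (N : ℤ) (X : ℕ), 1 ≤ X → N.natAbs ≤ X ^ B →
      ∑ t ∈ (Icc 1 X).filter (fun t : ℕ => D.eval (N + (t : ℤ)) ≠ 0),
        Fw (fun _ => lam) W0 z1 (D.eval (N + (t : ℤ))) *
        SN (a 0 * D.eval (N + (t : ℤ))) (a 1 * D.eval (N + (t : ℤ))) ^ k0 ≤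
          C * (X * Real.exp (Sp (fun p => (lam - 1) * rho D p) z X)) := by
  refine avgw SN_nonneg (CNTPf.cntp_of SVPf.svp)
    (Pool.Agent.W307.SE.r4 Pool.Agent.TH639.SL.sel4b) antx RSPf.rsp RVU.rvp RVU.rup GDPf.gdp
    Pool.Agent.W925.RS.subbk a D k0 B ha ha2 hD hd (fun _ => lam) W0 z1 c (fun _ => hlam.le)
    (fun _ => hlW) hW1 hcW ?_
  refine makw_of atg ExpG.expg (LWPf.lwp_of fact) twp GDPf.gdp
    Pool.Agent.W12.RS.combk D hD hd c k0 lam hlam ?_ hk (fun _ => a) (fun _ => ha)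
  exact (mul_le_mul_of_nonneg_right hlW (Nat.cast_nonneg _)).trans hcW

/-- the weight of the primes with roots of `g` -/
noncomputable def wg (lam : ℝ) (g : ℤ[X]) (z1 p : ℕ) : ℝ :=
  if p.Prime ∧ z1 < p then lam * rho g p else 0

lemma rho_X' {p : ℕ} (hp : p.Prime) : rho X p = 1 := by
  unfold rho
  rw [card_eq_one]
  refine ⟨0, ?_⟩
  ext a
  rw [mem_filter, mem_range, mem_singleton, eval_X]
  constructor
  · rintro ⟨h1, h2⟩
    exact Nat.eq_zero_of_dvd_of_lt (Int.natCast_dvd_natCast.1 h2) h1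
  · rintro rfl
    exact ⟨hp.pos, dvd_zero _⟩

/-- **the moments with the weight `∏ lam ρ_g(p)`** -/
theorem avgw_g (a : Fin 3 → ℤ) (g : ℤ[X]) (k0 B : ℕ)
    (ha : ∀ k, a k ≠ 0) (ha2 : a 0 - a 1 = a 2) (hg : Squarefree (g.map (Int.castRingHom ℚ)))
    (hd : 0 < g.natDegree) (lam W0 : ℝ) (c : ℕ) (hlam : 0 < lam)
    (hlW : lam * g.natDegree ≤ W0)
    (hW1 : 1 ≤ W0) (hcW : W0 ≤ c) (hk : 2 * c ≤ 4 ^ k0) :
    ∃ z1 : ℕ, ∀ z2, z1 ≤ z2 → ∃ z0 : ℕ, ∀ z, z0 ≤ z → ∃ C : ℝ, ∀ (N : ℤ) (X : ℕ), 1 ≤ X →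
      N.natAbs ≤ X ^ B →
      ∑ t ∈ (Icc 1 X).filter (fun t : ℕ => N + (t : ℤ) ≠ 0),
        Fw (wg lam g z2) W0 z2 (N + (t : ℤ)) *
        SN (a 0 * (N + (t : ℤ))) (a 1 * (N + (t : ℤ))) ^ k0 ≤
          C * (X * Real.exp (Sp (fun p => lam * rho g p - 1) z X)) := by
  obtain ⟨zg, hzg⟩ := GDPf.gdp g hg
  refine ⟨zg, fun z2 hz2 => ?_⟩
  have hw0 : ∀ p, 0 ≤ wg lam g z2 p := by
    intro p
    unfold wg
    split_ifs
    · exact mul_nonneg hlam.le (Nat.cast_nonneg _)
    · exact le_rfl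
  have hwW : ∀ p, wg lam g z2 p ≤ W0 := by
    intro p
    unfold wg
    split_ifs with h
    · refine le_trans (mul_le_mul_of_nonneg_left ?_ hlam.le) hlW
      exact_mod_cast (hzg z2 hz2 p h.1 h.2).1
    · linarith
  obtain ⟨zm, hzm⟩ := makw_of atg ExpG.expg (LWPf.lwp_of fact) twp GDPf.gdp
    Pool.Agent.W12.RS.combk g hg hd c k0 lam hlam (hlW.trans hcW) hk (fun _ => a) (fun _ => ha)
  have hsqX : Squarefree ((X : ℤ[X]).map (Int.castRingHom ℚ)) := by
    rw [Polynomial.map_X]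
    exact irreducible_X.squarefree
  have h := avgw SN_nonneg (CNTPf.cntp_of SVPf.svp)
    (Pool.Agent.W307.SE.r4 Pool.Agent.TH639.SL.sel4b) antx RSPf.rsp RVU.rvp RVU.rup GDPf.gdp
    Pool.Agent.W925.RS.subbk a X k0 B ha ha2 hsqX (by simp) (wg lam g z2) W0 z2 c hw0
    hwW hW1 (by simpa using hcW) ?_
  · obtain ⟨z0, hz0⟩ := h
    refine ⟨z0 + z2, fun z hz => ?_⟩
    obtain ⟨C, hC⟩ := hz0 z (by omega)
    refine ⟨C, fun N X hX hN => ?_⟩
    have h1 := hC N X hX hN
    simp only [eval_X] at h1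
    refine h1.trans (le_of_eq ?_)
    congr 3
    unfold Sp
    refine sum_congr rfl fun p hp => ?_
    have hp' := mem_PS'.1 hp
    unfold wg
    beta_reduce
    rw [if_pos ⟨hp'.2, by omega⟩, rho_X' hp'.2]
    simp
  · refine ⟨zm + z2, fun z hz => ?_⟩
    obtain ⟨C', hC'⟩ := hzm z (by omega)
    refine ⟨C', fun y hy => ?_⟩
    have h2 := hC' y hy
    have e1 : Sp (fun p => wg lam g z2 p * rho X p) z y = Sp (fun p => lam * rho g p) z y := by
      unfold Sp
      refine sum_congr rfl fun p hp => ?_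
      have hp' := mem_PS'.1 hp
      unfold wg
      beta_reduce
      rw [if_pos ⟨hp'.2, by omega⟩, rho_X' hp'.2]
      simp
    rw [e1]
    refine le_trans (le_of_eq ?_) h2
    refine sum_congr rfl fun s hs => ?_
    congr 1
    refine prod_congr rfl fun j _ => ?_
    unfold gp
    refine prod_congr rfl fun p hp => ?_
    have hpp := Nat.prime_of_mem_primeFactors hp
    have hpz : z < p := prime_gt (Tup_unit hs) hp
    unfold wg rz
    beta_reduce
    rw [if_pos ⟨hpp, by omega⟩, if_pos hpz, if_pos hpz, rho_X' hpp]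
    simp

end Pool.Agent.TH841.PT
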