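import Mathlib
import Pool.Agent.TH841.PT.MakW
import Pool.Agent.TH841.PT.Prime

/-!
# Project PT: weighted moments, powers of the logarithm
-/

set_option autoImplicit false

namespace Pool.Agent.TH841.PT

open Finset Polynomial Pool.Agent.W262.RK

open Pool.Agent.H474R2.PG (rho)

open Pool.Agent.W307.SE (SN SN_nonneg)

section

variable {r : ℕ} {G : Fin r → ℤ[X]}

lemma rho_const {P : ℤ[X]} {c : ℤ} {p : ℕ} (hp : p.Prime) (hc : ¬ (p : ℤ) ∣ c) :
    rho (C c * P) p = rho P p := by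
  unfold rho
  congr 1
  refine filter_congr fun x _ => ?_
  rw [eval_mul, eval_C]
  exact ⟨fun h => ((Nat.prime_iff_prime_int.1 hp).dvd_or_dvd h).resolve_left hc,
    fun h => h.mul_left _⟩

/-- Mertens for a product of different irreducible polynomials -/
lemma mert_prod (hG : Irr G) {c : ℤ} (hc : c ≠ 0) : ∃ z0 : ℕ, ∀ z, z0 ≤ z → ∃ K : ℝ, 0 ≤ K ∧
    ∀ y : ℕ, z < y →
      |Sp (fun p => (rho (C c * ∏ i, G i) p : ℝ)) z y - r * Real.log (Real.log y)| ≤ K := by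
  obtain ⟨z0, hz0⟩ := exists_Gp GDPf.gdp hG (a := fun _ => 1) (fun _ => one_ne_zero) _ le_rfl
  refine ⟨z0 + 3 + c.natAbs, fun z hz => ?_⟩
  have hgp := hz0 z (by omega)
  choose Cm hCm0 hCm using fun j => mert (hG.irr j) (hG.deg j) (z := z) (by omega)
  refine ⟨∑ i, Cm i, sum_nonneg fun i _ => hCm0 i, fun y hy => ?_⟩
  have h3 : Sp (fun p => (rho (C c * ∏ j, G j) p : ℝ)) z y =
      ∑ j, Sp (fun p => (rho (G j) p : ℝ)) z y := by
    unfold Sp
    rw [sum_comm]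
    refine sum_congr rfl fun p hp => ?_
    have hp' := mem_filter.1 hp
    have hpz := (mem_Ioc.1 hp'.1).1
    beta_reduce
    rw [rho_const hp'.2, rho_prod hgp hp'.2 hpz, ← sum_div]
    · push_cast
      rfl
    · intro hd
      have := Nat.le_of_dvd (Int.natAbs_pos.2 hc) (Int.natCast_dvd.1 hd)
      omega
  have h4 : ∑ j : Fin r, Sp (fun p => (rho (G j) p : ℝ)) z y - r * Real.log (Real.log y) =
      ∑ j : Fin r, (Sp (fun p => (rho (G j) p : ℝ)) z y - Real.log (Real.log y)) := by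
    rw [sum_sub_distrib, sum_const, card_univ, Fintype.card_fin, nsmul_eq_mul]
  rw [h3, h4]
  exact (abs_sum_le_sum_abs _ _).trans (sum_le_sum fun j _ => hCm j y hy)

/-- the power of the logarithm -/
lemma exp_lam (hG : Irr G) {c : ℤ} (hc : c ≠ 0) (mu : ℝ) : ∃ z0 : ℕ, ∀ z, z0 ≤ z →
    ∃ K : ℝ, 0 ≤ K ∧ ∀ X : ℕ, 2 ≤ X →
      Real.exp (Sp (fun p => mu * (rho (C c * ∏ i, G i) p : ℝ)) z X) ≤
        K * (Real.log X) ^ (mu * r) := by
  obtain ⟨z0, hz0⟩ := mert_prod hG hc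
  refine ⟨z0, fun z hz => ?_⟩
  obtain ⟨K, hK0, hK⟩ := hz0 z hz
  refine ⟨Real.exp (|mu| * K) + ∑ X ∈ Icc 2 z, (Real.log X) ^ (-(mu * r)), ?_, fun X hX => ?_⟩
  · refine add_nonneg (Real.exp_pos _).le (sum_nonneg fun X hX => Real.rpow_nonneg ?_ _)
    exact Real.log_natCast_nonneg X
  have hlX : 0 < Real.log X := Real.log_pos (by exact_mod_cast (by omega : 1 < X))
  have hs0 : ∀ X ∈ Icc 2 z, (0 : ℝ) ≤ (Real.log X) ^ (-(mu * r)) := fun X _ =>
    Real.rpow_nonneg (Real.log_natCast_nonneg X) _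
  have hp0 : 0 < (Real.log X) ^ (mu * r) := Real.rpow_pos_of_pos hlX _
  have hmul : Sp (fun p => mu * (rho (C c * ∏ i, G i) p : ℝ)) z X =
      mu * Sp (fun p => (rho (C c * ∏ i, G i) p : ℝ)) z X := by
    unfold Sp
    rw [mul_sum]
    refine sum_congr rfl fun p _ => ?_
    ring
  rw [hmul]
  rcases Nat.lt_or_ge z X with hlt | hge
  · have h1 := hK X hlt
    have h2 : mu * Sp (fun p => (rho (C c * ∏ i, G i) p : ℝ)) z X ≤
        |mu| * K + mu * r * Real.log (Real.log X) := by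
      have h3 : mu * (Sp (fun p => (rho (C c * ∏ i, G i) p : ℝ)) z X -
          r * Real.log (Real.log X)) ≤ |mu| * K := by
        refine (le_abs_self _).trans ?_
        rw [abs_mul]
        exact mul_le_mul_of_nonneg_left h1 (abs_nonneg _)
      nlinarith [h3]
    have h3 : (Real.log X) ^ (mu * r) = Real.exp (mu * r * Real.log (Real.log X)) := by
      rw [Real.rpow_def_of_pos hlX, mul_comm]
    calc Real.exp (mu * Sp (fun p => (rho (C c * ∏ i, G i) p : ℝ)) z X)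
        ≤ Real.exp (|mu| * K + mu * r * Real.log (Real.log X)) := Real.exp_le_exp.2 h2
      _ = Real.exp (|mu| * K) * (Real.log X) ^ (mu * r) := by rw [Real.exp_add, h3]
      _ ≤ _ := mul_le_mul_of_nonneg_right (le_add_of_nonneg_right (sum_nonneg hs0)) hp0.le
  · have h1 : Sp (fun p => (rho (C c * ∏ i, G i) p : ℝ)) z X = 0 := by
      unfold Sp
      refine sum_eq_zero fun p hp => ?_
      have := (mem_Ioc.1 (mem_filter.1 hp).1)
      omega
    rw [h1, mul_zero, Real.exp_zero]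
    have h2 : (Real.log X) ^ (-(mu * r)) ≤ ∑ X ∈ Icc 2 z, (Real.log X) ^ (-(mu * r)) :=
      single_le_sum (f := fun X : ℕ => (Real.log X) ^ (-(mu * r))) hs0 (mem_Icc.2 ⟨hX, hge⟩)
    have h3 : (Real.log X) ^ (-(mu * r)) * (Real.log X) ^ (mu * r) = 1 := by
      rw [← Real.rpow_add hlX]
      simp
    calc (1 : ℝ) = (Real.log X) ^ (-(mu * r)) * (Real.log X) ^ (mu * r) := h3.symm
      _ ≤ (∑ X ∈ Icc 2 z, (Real.log X) ^ (-(mu * r))) * (Real.log X) ^ (mu * r) :=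
          mul_le_mul_of_nonneg_right h2 hp0.le
      _ ≤ _ := mul_le_mul_of_nonneg_right (le_add_of_nonneg_left (Real.exp_pos _).le) hp0.le

lemma Fw_ge {lam W0 : ℝ} (hlam : 0 < lam) (hlW : lam ≤ W0) (x : ℤ) :
    lam ^ x.natAbs.primeFactors.card ≤ Fw (fun _ => lam) W0 0 x := by
  unfold Fw
  rw [← prod_const]
  refine prod_le_prod (fun _ _ => hlam.le) fun p _ => ?_
  split_ifs
  · exact hlW
  · exact le_rfl

lemma one_le_SN' {a : Fin 3 → ℤ} (ha : ∀ k, a k ≠ 0) (ha2 : a 0 - a 1 = a 2) {d : ℤ}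
    (hd : d ≠ 0) : 1 ≤ SN (a 0 * d) (a 1 * d) := by
  refine one_le_SN (mul_ne_zero (ha 0) hd) (mul_ne_zero (ha 1) hd) ?_
  intro h0
  have h1 : (a 0 - a 1) * d = 0 := by rw [sub_mul, h0, sub_self]
  rw [ha2] at h1
  exact mul_ne_zero (ha 2) hd h1

/-- **the moments weighted by `lam ^ ω(D(t))`** -/
theorem sn_w (hG : Irr G) (hr : 0 < r) {c : ℤ} (hc : c ≠ 0) (a : Fin 3 → ℤ)
    (ha : ∀ k, a k ≠ 0) (ha2 : a 0 - a 1 = a 2) (lam : ℝ) (hlam : 0 < lam) (k L : ℕ) :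
    ∃ K : ℝ, 0 ≤ K ∧ ∀ (N : ℤ) (M : ℕ), 2 ≤ M → |N| ≤ (M : ℤ) ^ L →
      ∑ t ∈ (Ioc N (N + M)).filter (fun t => (C c * ∏ i, G i).eval t ≠ 0),
        lam ^ ((C c * ∏ i, G i).eval t).natAbs.primeFactors.card *
        SN (a 0 * (C c * ∏ i, G i).eval t) (a 1 * (C c * ∏ i, G i).eval t) ^ k ≤
          K * (M * (Real.log M) ^ ((lam - 1) * r)) := by
  classical
  set D : ℤ[X] := C c * ∏ i, G i with hD
  have hcQ : (c : ℚ) ≠ 0 := by exact_mod_cast hc
  have hsq : Squarefree (D.map (Int.castRingHom ℚ)) := by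
    refine hG.sqf.squarefree_of_dvd ⟨C ((c : ℚ)⁻¹), ?_⟩
    rw [hD, Polynomial.map_mul, Polynomial.map_C]
    unfold mQ
    have : C ((Int.castRingHom ℚ) c) * C ((c : ℚ)⁻¹) = (1 : ℚ[X]) := by
      rw [← C_mul]
      simp [hcQ]
    rw [mul_right_comm, this, one_mul]
  have hne : ∏ i, G i ≠ 0 := prod_ne_zero_iff.2 fun i _ => (hG.irr i).ne_zero
  have hdeg : 0 < D.natDegree := by
    rw [hD, natDegree_C_mul hc]
    have h1 : (G ⟨0, hr⟩).natDegree ≤ (∏ i, G i).natDegree :=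
      natDegree_le_of_dvd (dvd_prod_of_mem _ (mem_univ _)) hne
    exact (hG.deg ⟨0, hr⟩).trans_le h1
  set W0 : ℝ := max 1 lam with hW0
  set c' : ℕ := ⌈W0 * D.natDegree⌉₊ with hc'
  set k' : ℕ := k + 2 * c' with hk'
  have hk2 : 2 * c' ≤ 4 ^ k' := by
    have h1 : k' < 4 ^ k' := Nat.lt_pow_self (by norm_num)
    omega
  obtain ⟨z1, hz1⟩ := avgw_lam a D k' L ha ha2 hsq hdeg lam W0 0 c' hlam (le_max_right _ _)
    (le_max_left _ _) (Nat.le_ceil _) hk2
  obtain ⟨z2, hz2⟩ := exp_lam hG hc (lam - 1)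
  obtain ⟨C1, hC1⟩ := hz1 (z1 + z2) (by omega)
  obtain ⟨C2, hC20, hC2⟩ := hz2 (z1 + z2) (by omega)
  refine ⟨|C1| * C2, by positivity, fun N M hM hN => ?_⟩
  have hM0 : (0 : ℝ) ≤ M := Nat.cast_nonneg _
  have h1 : ∑ t ∈ (Ioc N (N + M)).filter (fun t => D.eval t ≠ 0),
        lam ^ (D.eval t).natAbs.primeFactors.card * SN (a 0 * D.eval t) (a 1 * D.eval t) ^ k ≤
      ∑ t ∈ (Ioc N (N + M)).filter (fun t => D.eval t ≠ 0),
        Fw (fun _ => lam) W0 0 (D.eval t) * SN (a 0 * D.eval t) (a 1 * D.eval t) ^ k' := by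
    refine sum_le_sum fun t ht => ?_
    have ht' := (mem_filter.1 ht).2
    refine mul_le_mul (Fw_ge hlam (le_max_right _ _) _) ?_ (pow_nonneg (SN_nonneg _ _) _)
      (Fw_nonneg (fun _ => hlam.le) (le_max_left _ _) _)
    exact pow_le_pow_right₀ (one_le_SN' ha ha2 ht') (by omega)
  refine h1.trans ((to_Ioc (fun t => Fw (fun _ => lam) W0 0 (D.eval t) *
    SN (a 0 * D.eval t) (a 1 * D.eval t) ^ k') (fun t => mul_nonneg
      (Fw_nonneg (fun _ => hlam.le) (le_max_left _ _) _) (pow_nonneg (SN_nonneg _ _) _))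
    (fun t => D.eval t ≠ 0) N M).trans ?_)
  refine le_trans ?_ ((hC1 N M (by omega) (natAbs_le_of hN)).trans ?_)
  · refine le_of_eq (sum_congr ?_ fun t _ => rfl)
    ext t
    simp
  · calc C1 * (M * Real.exp (Sp (fun p => (lam - 1) * rho D p) (z1 + z2) M))
        ≤ |C1| * (M * Real.exp (Sp (fun p => (lam - 1) * rho D p) (z1 + z2) M)) :=
          mul_le_mul_of_nonneg_right (le_abs_self _) (by positivity)
      _ ≤ |C1| * (M * (C2 * (Real.log M) ^ ((lam - 1) * r))) :=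
          mul_le_mul_of_nonneg_left (mul_le_mul_of_nonneg_left (hC2 M hM) hM0) (abs_nonneg _)
      _ = _ := by ring

end

end Pool.Agent.TH841.PT
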