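import Mathlib
import Pool.Agent.TH841.PT.WtL
import Pool.Agent.TH841.PT.Fam

/-!
# Project PT: twists by numbers whose prime factors split completely in a number field
-/

set_option autoImplicit false

namespace Pool.Agent.TH841.PT

open Finset Polynomial

open Pool.Agent.H474R2.PG (rho)

open Pool.Agent.W307.SE (SN SelR SN_nonneg)

open Pool.Agent.TH841.SH.D (ShaTor HasDiv rk)

/-- modulo every prime `p > z` exactly dividing `d` the polynomial `g` has `deg g` roots -/
def Spl (g : ℤ[X]) (z : ℕ) (d : ℤ) : Prop :=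
  ∀ p : ℕ, p.Prime → z < p → (p : ℤ) ∣ d → ¬ (p : ℤ) ^ 2 ∣ d → rho g p = g.natDegree

lemma Fw_spl {g : ℤ[X]} {z : ℕ} {d : ℤ} (h : Spl g z d) (hn : 0 < g.natDegree) {lam W0 : ℝ}
    (hlam : 0 < lam) (hlW : lam ≤ W0) :
    lam ^ d.natAbs.primeFactors.card ≤ Fw (wg (lam / g.natDegree) g z) W0 z d := by
  unfold Fw
  rw [← prod_const]
  refine prod_le_prod (fun _ _ => hlam.le) fun p hp => ?_
  have hpp := Nat.prime_of_mem_primeFactors hp
  have hpd := Nat.dvd_of_mem_primeFactors hp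
  split_ifs with h1
  · exact hlW
  · push Not at h1
    have h2 : rho g p = g.natDegree := by
      refine h p hpp h1.1 (Int.natCast_dvd.2 hpd) fun h3 => h1.2 ?_
      have h4 : ((p ^ 2 : ℕ) : ℤ) ∣ d := by
        push_cast
        exact h3
      exact Int.natCast_dvd.1 h4
    unfold wg
    rw [if_pos ⟨hpp, h1.1⟩, h2, div_mul_cancel₀]
    exact (Nat.cast_pos.2 hn).ne'

/-- the moments over the integers whose prime factors split completely, with weights -/
theorem sn_spl {g : ℤ[X]} (hg : Irreducible g) (hn : 0 < g.natDegree) (a : Fin 3 → ℤ)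
    (ha : ∀ k, a k ≠ 0) (ha2 : a 0 - a 1 = a 2) (lam : ℝ) (hlam : 0 < lam) (z k L : ℕ) :
    ∃ K : ℝ, 0 ≤ K ∧ ∀ (N : ℤ) (M : ℕ), 2 ≤ M → |N| ≤ (M : ℤ) ^ L → ∀ P : Finset ℤ,
      (∀ d ∈ P, d ∈ Ioc N (N + M) ∧ d ≠ 0 ∧ Spl g z d) →
      ∑ d ∈ P, lam ^ d.natAbs.primeFactors.card * SN (a 0 * d) (a 1 * d) ^ k ≤
        K * (M * (Real.log M) ^ (lam / g.natDegree - 1)) := by
  classical
  set n : ℝ := (g.natDegree : ℝ) with hnd
  have hn0 : 0 < n := Nat.cast_pos.2 hn
  have hG : Irr (fun _ : Fin 1 => g) :=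
    ⟨fun _ => hg, fun _ => hn, fun j l h => absurd (Subsingleton.elim j l) h⟩
  have hX : Irr (fun _ : Fin 1 => (X : ℤ[X])) :=
    ⟨fun _ => Polynomial.irreducible_X, fun _ => by rw [natDegree_X]; norm_num,
      fun j l h => absurd (Subsingleton.elim j l) h⟩
  have hsq : Squarefree (g.map (Int.castRingHom ℚ)) := (hG.irrQ 0).squarefree
  set W0 : ℝ := max 1 lam with hW0
  set c' : ℕ := ⌈W0⌉₊ with hc'
  set k' : ℕ := k + 2 * c' with hk'
  have hk2 : 2 * c' ≤ 4 ^ k' := by
    have h1 : k' < 4 ^ k' := Nat.lt_pow_self (by norm_num)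
    omega
  obtain ⟨z1, hz1⟩ := avgw_g a g k' L ha ha2 hsq hn (lam / n) W0 c' (by positivity)
    (by rw [← hnd, div_mul_cancel₀ _ hn0.ne']; exact le_max_right _ _)
    (le_max_left _ _) (Nat.le_ceil _) hk2
  obtain ⟨z2, hz2⟩ := hz1 (z1 + z) (by omega)
  obtain ⟨z3, hz3⟩ := mert_prod hG (c := 1) one_ne_zero
  obtain ⟨z4, hz4⟩ := mert_prod hX (c := 1) one_ne_zero
  set zz : ℕ := z2 + z3 + z4 with hzz
  obtain ⟨C1, hC1⟩ := hz2 zz (by omega)
  obtain ⟨K3, hK30, hK3⟩ := hz3 zz (by omega)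
  obtain ⟨K4, hK40, hK4⟩ := hz4 zz (by omega)
  -- the exponent
  have hexp : ∃ K : ℝ, 0 ≤ K ∧ ∀ M : ℕ, 2 ≤ M →
      Real.exp (Sp (fun p => lam / n * rho g p - 1) zz M) ≤
        K * (Real.log M) ^ (lam / n - 1) := by
    refine ⟨Real.exp (lam / n * K3 + K4) + ∑ M ∈ Icc 2 zz, (Real.log M) ^ (-(lam / n - 1)), ?_,
      fun M hM => ?_⟩
    · refine add_nonneg (Real.exp_pos _).le (sum_nonneg fun M _ => Real.rpow_nonneg ?_ _)
      exact Real.log_natCast_nonneg M
    have hlM : 0 < Real.log M := Real.log_pos (by exact_mod_cast (by omega : 1 < M))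
    have hs0 : ∀ X ∈ Icc 2 zz, (0 : ℝ) ≤ (Real.log X) ^ (-(lam / n - 1)) := fun X _ =>
      Real.rpow_nonneg (Real.log_natCast_nonneg X) _
    have hp0 : 0 < (Real.log M) ^ (lam / n - 1) := Real.rpow_pos_of_pos hlM _
    have hG1 : (C (1 : ℤ) * ∏ _i : Fin 1, g) = g := by
      rw [C_1, one_mul, Fin.prod_const, pow_one]
    have hX1 : (C (1 : ℤ) * ∏ _i : Fin 1, (X : ℤ[X])) = X := by
      rw [C_1, one_mul, Fin.prod_const, pow_one]
    rcases Nat.lt_or_ge zz M with hlt | hge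
    · have h1 := hK3 M hlt
      have h2 := hK4 M hlt
      rw [hG1] at h1
      rw [hX1] at h2
      have h3 : Sp (fun p => lam / n * rho g p - 1) zz M =
          lam / n * Sp (fun p => (rho g p : ℝ)) zz M - Sp (fun p => (rho X p : ℝ)) zz M := by
        unfold Sp
        rw [mul_sum, ← sum_sub_distrib]
        refine sum_congr rfl fun p hp => ?_
        beta_reduce
        rw [rho_X' (mem_PS'.1 hp).2, Nat.cast_one]
        ring
      have h4 := (abs_le.1 h1).2
      have h5 := (abs_le.1 h2).1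
      have h6 : Sp (fun p => lam / n * rho g p - 1) zz M ≤
          (lam / n * K3 + K4) + (lam / n - 1) * Real.log (Real.log M) := by
        rw [h3]
        push_cast at h4 h5
        have h7 : lam / n * (Sp (fun p => (rho g p : ℝ)) zz M - 1 * Real.log (Real.log M)) ≤
            lam / n * K3 := mul_le_mul_of_nonneg_left h4 (by positivity)
        nlinarith
      calc Real.exp (Sp (fun p => lam / n * rho g p - 1) zz M)
          ≤ Real.exp ((lam / n * K3 + K4) + (lam / n - 1) * Real.log (Real.log M)) :=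
            Real.exp_le_exp.2 h6
        _ = Real.exp (lam / n * K3 + K4) * (Real.log M) ^ (lam / n - 1) := by
            rw [Real.exp_add, Real.rpow_def_of_pos hlM]
            congr 2
            ring
        _ ≤ _ := mul_le_mul_of_nonneg_right (le_add_of_nonneg_right (sum_nonneg hs0)) hp0.le
    · have h1 : Sp (fun p => lam / n * rho g p - 1) zz M = 0 := by
        unfold Sp
        refine sum_eq_zero fun p hp => ?_
        have := (mem_PS'.1 hp).1
        omega
      rw [h1, Real.exp_zero]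
      have h2 : (Real.log M) ^ (-(lam / n - 1)) ≤
          ∑ X ∈ Icc 2 zz, (Real.log X) ^ (-(lam / n - 1)) :=
        single_le_sum (f := fun X : ℕ => (Real.log X) ^ (-(lam / n - 1))) hs0
          (mem_Icc.2 ⟨hM, hge⟩)
      have h3 : (Real.log M) ^ (-(lam / n - 1)) * (Real.log M) ^ (lam / n - 1) = 1 := by
        rw [← Real.rpow_add hlM]
        simp
      calc (1 : ℝ) = (Real.log M) ^ (-(lam / n - 1)) * (Real.log M) ^ (lam / n - 1) := h3.symm
        _ ≤ (∑ X ∈ Icc 2 zz, (Real.log X) ^ (-(lam / n - 1))) * (Real.log M) ^ (lam / n - 1) :=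
            mul_le_mul_of_nonneg_right h2 hp0.le
        _ ≤ _ := mul_le_mul_of_nonneg_right (le_add_of_nonneg_left (Real.exp_pos _).le) hp0.le
  obtain ⟨C2, hC20, hC2⟩ := hexp
  refine ⟨|C1| * C2, by positivity, fun N M hM hN P hP => ?_⟩
  have hM0 : (0 : ℝ) ≤ M := Nat.cast_nonneg _
  have hwg : ∀ p, 0 ≤ wg (lam / n) g (z1 + z) p := by
    intro p
    unfold wg
    split_ifs
    · exact mul_nonneg (by positivity) (Nat.cast_nonneg _)
    · exact le_rfl
  have h1 : ∑ d ∈ P, lam ^ d.natAbs.primeFactors.card * SN (a 0 * d) (a 1 * d) ^ k ≤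
      ∑ d ∈ (Ioc N (N + M)).filter (fun d => d ≠ 0), Fw (wg (lam / n) g (z1 + z)) W0 (z1 + z) d *
        SN (a 0 * d) (a 1 * d) ^ k' := by
    refine (sum_le_sum fun d hd => ?_).trans (sum_le_sum_of_subset_of_nonneg
      (f := fun d => Fw (wg (lam / n) g (z1 + z)) W0 (z1 + z) d * SN (a 0 * d) (a 1 * d) ^ k')
      ?_ ?_)
    · obtain ⟨h1, h2, h3⟩ := hP d hd
      have h4 : Spl g (z1 + z) d := fun p hp hz h5 h6 => h3 p hp (by omega) h5 h6
      refine mul_le_mul (Fw_spl h4 hn hlam (le_max_right _ _)) ?_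
        (pow_nonneg (SN_nonneg _ _) _) (Fw_nonneg hwg (le_max_left _ _) _)
      exact pow_le_pow_right₀ (one_le_SN' ha ha2 h2) (by omega)
    · intro d hd
      exact mem_filter.2 ⟨(hP d hd).1, (hP d hd).2.1⟩
    · intro d _ _
      exact mul_nonneg (Fw_nonneg hwg (le_max_left _ _) _) (pow_nonneg (SN_nonneg _ _) _)
  refine h1.trans ((to_Ioc (fun d => Fw (wg (lam / n) g (z1 + z)) W0 (z1 + z) d *
    SN (a 0 * d) (a 1 * d) ^ k') (fun d => mul_nonneg (Fw_nonneg hwg (le_max_left _ _) _)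
      (pow_nonneg (SN_nonneg _ _) _)) (fun d => d ≠ 0) N M).trans ?_)
  refine le_trans ?_ ((hC1 N M (by omega) (natAbs_le_of hN)).trans ?_)
  · exact le_rfl
  · calc C1 * (M * Real.exp (Sp (fun p => lam / n * rho g p - 1) zz M))
        ≤ |C1| * (M * Real.exp (Sp (fun p => lam / n * rho g p - 1) zz M)) :=
          mul_le_mul_of_nonneg_right (le_abs_self _) (by positivity)
      _ ≤ |C1| * (M * (C2 * (Real.log M) ^ (lam / n - 1))) :=
          mul_le_mul_of_nonneg_left (mul_le_mul_of_nonneg_left (hC2 M hM) hM0) (abs_nonneg _)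
      _ = _ := by ring

end Pool.Agent.TH841.PT
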