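import Mathlib
import Pool.Agent.H474R2.PG.Defs

/-!
# Project PT: norms from Galois number fields (statement)
-/

set_option autoImplicit false

namespace Pool.Agent.TH841.PT

open Polynomial nonZeroDivisors

open Pool.Agent.H474R2.PG (rho)

/-- a prime `p > z` exactly dividing the norm of a fractional ideal of a Galois number field splits
completely -/
def NRM : Prop := ∀ (K : Type) [Field K] [NumberField K] [IsGalois ℚ K],
  ∃ g : ℤ[X], Irreducible g ∧ g.natDegree = Module.finrank ℚ K ∧ ∃ z : ℕ,
    ∀ (I : FractionalIdeal (NumberField.RingOfIntegers K)⁰ K) (d : ℤ), d ≠ 0 →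
      FractionalIdeal.absNorm I = (d.natAbs : ℚ) →
      ∀ p : ℕ, p.Prime → z < p → (p : ℤ) ∣ d → ¬ (p : ℤ) ^ 2 ∣ d → rho g p = g.natDegree

end Pool.Agent.TH841.PT
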