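import Mathlib
import Pool.Agent.TH841.PT.StmN

/-!
# Project PT: primes exactly dividing norms from a Galois number field split completely
-/

set_option autoImplicit false

namespace Pool.Agent.TH841.PT.NRMf

open Polynomial nonZeroDivisors NumberField Ideal

open Pool.Agent.H474R2.PG (rho)

variable {K : Type} [Field K] [NumberField K]

/-- a prime ideal that does not contain `p` has norm prime to `p` -/
lemma not_dvd_absNorm {p : ℕ} (hp : p.Prime) (P : Ideal (𝓞 K)) (hP : P.IsPrime) (hP0 : P ≠ ⊥)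
    (h : ((p : ℕ) : 𝓞 K) ∉ P) : ¬ p ∣ absNorm P := by
  intro hdvd
  have hmax : P.IsMaximal := hP.isMaximal hP0
  have : Finite (𝓞 K ⧸ P) := Ideal.finiteQuotientOfFreeOfNeBot P hP0
  rw [absNorm_apply, Submodule.cardQuot_apply] at hdvd
  have : Fact p.Prime := ⟨hp⟩
  obtain ⟨x, hx⟩ := exists_prime_addOrderOf_dvd_card' (G := 𝓞 K ⧸ P) p hdvd
  have hx0 : x ≠ 0 := by
    rintro rfl
    rw [addOrderOf_zero] at hx
    exact hp.one_lt.ne hx
  have h1 : p • x = 0 := by rw [← hx]; exact addOrderOf_nsmul_eq_zero x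
  rw [nsmul_eq_mul] at h1
  let : Field (𝓞 K ⧸ P) := Ideal.Quotient.field P
  rcases mul_eq_zero.1 h1 with h2 | h2
  · apply h
    rw [← Ideal.Quotient.eq_zero_iff_mem, map_natCast]
    exact h2
  · exact hx0 h2

omit [NumberField K] in
lemma liesOver {p : ℕ} (hp : p.Prime) (P : Ideal (𝓞 K)) (hP : P.IsPrime)
    (h : ((p : ℕ) : 𝓞 K) ∈ P) : P.LiesOver (span {(p : ℤ)}) := by
  have hmax : (span {(p : ℤ)} : Ideal ℤ).IsMaximal :=
    ((span_singleton_prime (by exact_mod_cast hp.ne_zero)).2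
      (Nat.prime_iff_prime_int.1 hp)).isMaximal (by
        rw [Ne, span_singleton_eq_bot]; exact_mod_cast hp.ne_zero)
  constructor
  refine hmax.eq_of_le ?_ ?_
  · intro htop
    have : (1 : ℤ) ∈ P.under ℤ := by rw [htop]; exact Submodule.mem_top
    rw [Ideal.mem_comap, map_one] at this
    exact hP.ne_top ((Ideal.eq_top_iff_one _).2 this)
  · rw [span_singleton_le_iff_mem, Ideal.mem_comap]
    simpa using h

lemma absNorm_eq [IsGalois ℚ K] {p : ℕ} (P : Ideal (𝓞 K)) (hP : P.IsPrime)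
    (h : P.LiesOver (span {(p : ℤ)})) :
    absNorm P = p ^ inertiaDegIn (span {(p : ℤ)}) (𝓞 K) := by
  rw [inertiaDegIn_eq_inertiaDeg (span {(p : ℤ)}) P Gal(K/ℚ), pow_inertiaDeg]

/-- the common inertia degree divides the exponent of `p` in the norm of an ideal -/
lemma dvd_factorization [IsGalois ℚ K] {p : ℕ} (hp : p.Prime) (J : Ideal (𝓞 K)) (hJ : J ≠ ⊥) :
    inertiaDegIn (span {(p : ℤ)}) (𝓞 K) ∣ (absNorm J).factorization p := by
  have key : ∀ J : Ideal (𝓞 K), J ≠ 0 →
      inertiaDegIn (span {(p : ℤ)}) (𝓞 K) ∣ (absNorm J).factorization p := by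
    intro J
    refine UniqueFactorizationMonoid.induction_on_prime (P := fun J : Ideal (𝓞 K) => J ≠ 0 →
      inertiaDegIn (span {(p : ℤ)}) (𝓞 K) ∣ (absNorm J).factorization p) J ?_ ?_ ?_
    · intro h; exact absurd rfl h
    · intro J hJ _
      rw [Ideal.isUnit_iff] at hJ
      rw [hJ, absNorm_top]
      simp
    · intro J P hJ hP ih _
      have hPp : P.IsPrime := Ideal.isPrime_of_prime hP
      have hP0 : P ≠ ⊥ := hP.ne_zero
      rw [map_mul, Nat.factorization_mul (absNorm_ne_zero_iff_mem_nonZeroDivisors.2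
        (mem_nonZeroDivisors_of_ne_zero hP.ne_zero)) (absNorm_ne_zero_iff_mem_nonZeroDivisors.2
        (mem_nonZeroDivisors_of_ne_zero hJ)), Finsupp.add_apply]
      refine dvd_add ?_ (ih hJ)
      by_cases hmem : ((p : ℕ) : 𝓞 K) ∈ P
      · rw [absNorm_eq P hPp (liesOver hp P hPp hmem), Nat.factorization_pow,
          Finsupp.smul_apply, hp.factorization_self, smul_eq_mul, mul_one]
      · rw [Nat.factorization_eq_zero_of_not_dvd (not_dvd_absNorm hp P hPp hP0 hmem)]
        exact dvd_zero _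
  exact key J hJ

/-- the inertia degree is one -/
lemma inertia_one [IsGalois ℚ K] {p : ℕ} (hp : p.Prime) (I : FractionalIdeal (𝓞 K)⁰ K) (d : ℤ)
    (hd : d ≠ 0) (hI : FractionalIdeal.absNorm I = (d.natAbs : ℚ)) (h1 : (p : ℤ) ∣ d)
    (h2 : ¬ (p : ℤ) ^ 2 ∣ d) : inertiaDegIn (span {(p : ℤ)}) (𝓞 K) = 1 := by
  have hd' : d.natAbs ≠ 0 := Int.natAbs_ne_zero.2 hd
  rw [FractionalIdeal.absNorm_eq] at hI
  have hden0 : (I.den : 𝓞 K) ≠ 0 := nonZeroDivisors.ne_zero I.den.2
  have hN : (Algebra.norm ℤ (I.den : 𝓞 K)).natAbs ≠ 0 := by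
    rw [Int.natAbs_ne_zero, Ne, Algebra.norm_eq_zero_iff]
    exact hden0
  have e1 : absNorm I.num = d.natAbs * absNorm (span {(I.den : 𝓞 K)}) := by
    rw [absNorm_span_singleton]
    have h3 : ((|Algebra.norm ℤ (I.den : 𝓞 K)| : ℤ) : ℚ) =
        (((Algebra.norm ℤ (I.den : 𝓞 K)).natAbs : ℕ) : ℚ) := (Nat.cast_natAbs _).symm
    rw [h3, div_eq_iff (by exact_mod_cast hN)] at hI
    exact_mod_cast hI
  have hspan : (span {(I.den : 𝓞 K)} : Ideal (𝓞 K)) ≠ ⊥ := by
    rw [Ne, span_singleton_eq_bot]; exact hden0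
  have hspan' : absNorm (span {(I.den : 𝓞 K)}) ≠ 0 := by
    rw [absNorm_span_singleton]; exact hN
  have hnum : I.num ≠ ⊥ := by
    intro h0
    rw [h0, absNorm_bot] at e1
    exact (mul_ne_zero hd' hspan') e1.symm
  have e2 : (absNorm I.num).factorization p = (d.natAbs).factorization p +
      (absNorm (span {(I.den : 𝓞 K)})).factorization p := by
    rw [e1, Nat.factorization_mul hd' hspan', Finsupp.add_apply]
  have e3 : (d.natAbs).factorization p = 1 := by
    have k1 : p ∣ d.natAbs := Int.natCast_dvd.1 h1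
    have k2 : ¬ p ^ 2 ∣ d.natAbs := by
      intro h
      apply h2
      have := Int.natCast_dvd.2 h
      exact_mod_cast this
    have k3 := (hp.dvd_iff_one_le_factorization hd').1 k1
    have k4 : ¬ 2 ≤ (d.natAbs).factorization p := by
      intro h
      exact k2 ((hp.pow_dvd_iff_le_factorization hd').2 h)
    omega
  have d1 := dvd_factorization (K := K) hp I.num hnum
  have d2 := dvd_factorization (K := K) hp _ hspan
  rw [e2, e3] at d1
  exact Nat.dvd_one.1 ((Nat.dvd_add_left d2).1 d1)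

/-- a prime ideal with residue field of `p` elements -/
lemma exists_prime [IsGalois ℚ K] {p : ℕ} (hp : p.Prime)
    (h : inertiaDegIn (span {(p : ℤ)}) (𝓞 K) = 1) :
    ∃ P : Ideal (𝓞 K), P.IsPrime ∧ absNorm P = p ∧ (∀ m : ℤ, (m : 𝓞 K) ∈ P ↔ (p : ℤ) ∣ m) := by
  have hpr : (span {(p : ℤ)} : Ideal ℤ).IsPrime :=
    (span_singleton_prime (by exact_mod_cast hp.ne_zero)).2 (Nat.prime_iff_prime_int.1 hp)
  obtain ⟨P, hP, hPo⟩ := (inferInstance : Nonempty (primesOver (span {(p : ℤ)}) (𝓞 K)))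
  refine ⟨P, hP, ?_, fun m => ?_⟩
  · rw [absNorm_eq P hP hPo, h, pow_one]
  · have := mem_of_liesOver P (span {(p : ℤ)}) m
    rw [mem_span_singleton] at this
    rw [this]
    simp

/-- the elements are congruent to integers -/
lemma exists_int {p : ℕ} (hp : p.Prime) (P : Ideal (𝓞 K)) (hN : absNorm P = p)
    (hm : ∀ m : ℤ, (m : 𝓞 K) ∈ P ↔ (p : ℤ) ∣ m) (x : 𝓞 K) :
    ∃ a : ℕ, a < p ∧ x - (a : 𝓞 K) ∈ P := by
  have hP0 : P ≠ ⊥ := by
    rintro rfl
    rw [absNorm_bot] at hN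
    exact hp.ne_zero hN.symm
  have : Finite (𝓞 K ⧸ P) := Ideal.finiteQuotientOfFreeOfNeBot P hP0
  have hcard : Nat.card (𝓞 K ⧸ P) = p := by
    rw [← hN, absNorm_apply, Submodule.cardQuot_apply]
  have hbij : Function.Bijective
      (fun a : Fin p => Ideal.Quotient.mk P (((a : ℕ) : 𝓞 K))) := by
    refine (Nat.bijective_iff_injective_and_card _).2 ⟨?_, ?_⟩
    · intro a b hab
      have h1 := (Ideal.Quotient.eq).1 hab
      have h2 : (((a : ℕ) : ℤ) - ((b : ℕ) : ℤ) : ℤ) = (((a : ℕ) : ℤ) - ((b : ℕ) : ℤ)) := rfl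
      have h3 : (((((a : ℕ) : ℤ) - ((b : ℕ) : ℤ) : ℤ)) : 𝓞 K) ∈ P := by
        push_cast; exact h1
      rw [hm] at h3
      have h4 := Int.eq_zero_of_abs_lt_dvd h3 (by
        have := a.2
        have := b.2
        rw [abs_lt]; constructor <;> omega)
      apply Fin.ext
      omega
    · rw [hcard, Nat.card_eq_fintype_card, Fintype.card_fin]
  obtain ⟨a, ha⟩ := hbij.2 (Ideal.Quotient.mk P x)
  exact ⟨a, a.2, (Ideal.Quotient.eq).1 ha.symm⟩

/-- an integral primitive element -/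
lemma exists_theta (K : Type) [Field K] [NumberField K] : ∃ θ : 𝓞 K,
    IntermediateField.adjoin ℚ {((θ : 𝓞 K) : K)} = ⊤ := by
  obtain ⟨α, hα⟩ := Field.exists_primitive_element ℚ K
  have halg : IsAlgebraic ℤ α := by
    have := Algebra.IsAlgebraic.isAlgebraic (R := ℚ) α
    exact (IsFractionRing.isAlgebraic_iff ℤ ℚ K).2 this
  obtain ⟨y, hy, hint⟩ := halg.exists_integral_multiple
  refine ⟨⟨y • α, hint⟩, ?_⟩
  rw [eq_top_iff, ← hα, IntermediateField.adjoin_simple_le_iff]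
  show α ∈ IntermediateField.adjoin ℚ {y • α}
  have h1 : α = ((y : ℚ)⁻¹) • (y • α) := by
    have hy' : (y : ℚ) ≠ 0 := by exact_mod_cast hy
    rw [show (y • α : K) = (y : ℚ) • α by rw [Int.cast_smul_eq_zsmul], smul_smul,
      inv_mul_cancel₀ hy', one_smul]
  have h2 : ((y : ℚ)⁻¹) • (y • α) ∈ IntermediateField.adjoin ℚ {y • α} :=
    IntermediateField.smul_mem _ (IntermediateField.mem_adjoin_simple_self ℚ (y • α))
  rwa [← h1] at h2

/-- at most `n` roots -/
lemma rho_le {g : ℤ[X]} (hg : g.Monic) {p : ℕ} (hp : p.Prime) : rho g p ≤ g.natDegree := by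
  classical
  have : Fact p.Prime := ⟨hp⟩
  have hmon : (g.map (Int.castRingHom (ZMod p))).Monic := hg.map _
  calc rho g p ≤ (g.map (Int.castRingHom (ZMod p))).roots.toFinset.card := by
        unfold Pool.Agent.H474R2.PG.rho
        refine Finset.card_le_card_of_injOn (fun a : ℕ => (a : ZMod p)) ?_ ?_
        · intro a ha
          rw [Finset.mem_coe, Finset.mem_filter] at ha
          rw [Finset.mem_coe, Multiset.mem_toFinset, mem_roots hmon.ne_zero, IsRoot.def]
          have h1 := (ZMod.intCast_zmod_eq_zero_iff_dvd (g.eval (a : ℤ)) p).2 ha.2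
          have h2 := Polynomial.eval_intCast_map (Int.castRingHom (ZMod p)) g (a : ℤ)
          simp only [Int.cast_natCast, eq_intCast] at h2
          rw [h2, h1]
        · intro a ha b hb hab
          rw [Finset.mem_coe, Finset.mem_filter, Finset.mem_range] at ha hb
          have hab' : (a : ZMod p) = (b : ZMod p) := hab
          rw [ZMod.natCast_eq_natCast_iff] at hab'
          exact Nat.ModEq.eq_of_lt_of_lt hab' ha.1 hb.1
    _ ≤ Multiset.card (g.map (Int.castRingHom (ZMod p))).roots := Multiset.toFinset_card_le _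
    _ ≤ (g.map (Int.castRingHom (ZMod p))).natDegree := card_roots' _
    _ = g.natDegree := hg.natDegree_map _

/-- primes exactly dividing norms from a Galois number field split completely -/
theorem nrm : Pool.Agent.TH841.PT.NRM := by
  intro K _ _ _
  classical
  obtain ⟨θ, hθ⟩ := exists_theta K
  have hint : IsIntegral ℤ θ := RingOfIntegers.isIntegral θ
  have hmon : (minpoly ℤ θ).Monic := minpoly.monic hint
  have hdeg : (minpoly ℤ θ).natDegree = Module.finrank ℚ K := by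
    have h1 := (Field.primitive_element_iff_minpoly_natDegree_eq ℚ ((θ : 𝓞 K) : K)).1 hθ
    have h2 := minpoly.isIntegrallyClosed_eq_field_fractions ℚ K hint
    have h3 : algebraMap (𝓞 K) K θ = ((θ : 𝓞 K) : K) := rfl
    rw [h3] at h2
    rw [← h1, h2, hmon.natDegree_map]
  have hirr : Irreducible (minpoly ℤ θ) := minpoly.irreducible hint
  refine ⟨minpoly ℤ θ, hirr, hdeg,
    ∑ σ : Gal(K/ℚ), ∑ τ : Gal(K/ℚ), (Algebra.norm ℤ (σ • θ - τ • θ)).natAbs, ?_⟩
  intro I d hd hI p hp hz h1 h2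
  have hone := inertia_one hp I d hd hI h1 h2
  obtain ⟨P, hP, hN, hm⟩ := exists_prime (K := K) hp hone
  refine le_antisymm (rho_le hmon hp) ?_
  choose A hA1 hA2 using fun σ : Gal(K/ℚ) => exists_int hp P hN hm (σ • θ)
  -- the conjugates are roots
  have hroot : ∀ σ : Gal(K/ℚ), aeval (σ • θ) (minpoly ℤ θ) = 0 := by
    intro σ
    have h3 := Polynomial.aeval_algHom_apply (MulSemiringAction.toAlgHom ℤ (𝓞 K) σ) θ
      (minpoly ℤ θ)
    rw [minpoly.aeval, map_zero] at h3
    exact h3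
  have hAroot : ∀ σ : Gal(K/ℚ), (p : ℤ) ∣ (minpoly ℤ θ).eval ((A σ : ℕ) : ℤ) := by
    intro σ
    rw [← hm]
    have h3 := Polynomial.sub_dvd_eval_sub (σ • θ) ((A σ : ℕ) : 𝓞 K)
      ((minpoly ℤ θ).map (algebraMap ℤ (𝓞 K)))
    have h4 := Polynomial.eval_intCast_map (algebraMap ℤ (𝓞 K)) (minpoly ℤ θ) ((A σ : ℕ) : ℤ)
    rw [Int.cast_natCast, Int.cast_id] at h4
    rw [Polynomial.eval_map_algebraMap, hroot σ, zero_sub, dvd_neg, h4] at h3
    obtain ⟨w, hw⟩ := h3
    have h5 : (((minpoly ℤ θ).eval ((A σ : ℕ) : ℤ) : ℤ) : 𝓞 K) =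
        algebraMap ℤ (𝓞 K) ((minpoly ℤ θ).eval ((A σ : ℕ) : ℤ)) := rfl
    rw [h5, hw]
    exact P.mul_mem_right _ (hA2 σ)
  have hinj : Function.Injective A := by
    intro σ τ hστ
    by_contra hne
    have hmem : σ • θ - τ • θ ∈ P := by
      have h3 := hA2 σ
      have h4 := hA2 τ
      rw [← hστ] at h4
      have := P.sub_mem h3 h4
      rwa [sub_sub_sub_cancel_right] at this
    have hne' : σ • θ - τ • θ ≠ 0 := by
      intro h0
      apply hne
      have h3 : σ • θ = τ • θ := sub_eq_zero.1 h0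
      have h4 : σ ((θ : 𝓞 K) : K) = τ ((θ : 𝓞 K) : K) := congrArg (fun x : 𝓞 K => (x : K)) h3
      have h5 := (Field.primitive_element_iff_algHom_eq_of_eval' ℚ K
        (fun x => IsGalois.splits ℚ x) ((θ : 𝓞 K) : K)).1 hθ
      have h6 : (σ : K →ₐ[ℚ] K) = (τ : K →ₐ[ℚ] K) := h5 h4
      ext x
      exact congrArg (fun φ : K →ₐ[ℚ] K => φ x) h6
    have h5 : p ∣ (Algebra.norm ℤ (σ • θ - τ • θ)).natAbs := by
      rw [← absNorm_span_singleton, ← hN]
      exact absNorm_dvd_absNorm_of_le ((span_singleton_le_iff_mem _).2 hmem)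
    have h6 : (Algebra.norm ℤ (σ • θ - τ • θ)).natAbs ≠ 0 := by
      rw [Int.natAbs_ne_zero, Ne, Algebra.norm_eq_zero_iff]
      exact hne'
    have h7 := Nat.le_of_dvd (Nat.pos_of_ne_zero h6) h5
    have h8 : (Algebra.norm ℤ (σ • θ - τ • θ)).natAbs ≤
        ∑ σ : Gal(K/ℚ), ∑ τ : Gal(K/ℚ), (Algebra.norm ℤ (σ • θ - τ • θ)).natAbs :=
      (Finset.single_le_sum (f := fun τ : Gal(K/ℚ) =>
        (Algebra.norm ℤ (σ • θ - τ • θ)).natAbs) (fun _ _ => Nat.zero_le _)
        (Finset.mem_univ τ)).trans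
      (Finset.single_le_sum (f := fun σ : Gal(K/ℚ) => ∑ τ : Gal(K/ℚ),
        (Algebra.norm ℤ (σ • θ - τ • θ)).natAbs) (fun _ _ => Nat.zero_le _)
        (Finset.mem_univ σ))
    omega
  calc (minpoly ℤ θ).natDegree = Fintype.card Gal(K/ℚ) := by
        rw [hdeg, ← IsGalois.card_aut_eq_finrank, Nat.card_eq_fintype_card]
    _ = (Finset.univ : Finset Gal(K/ℚ)).card := (Finset.card_univ).symm
    _ ≤ rho (minpoly ℤ θ) p := by
        unfold Pool.Agent.H474R2.PG.rho
        refine Finset.card_le_card_of_injOn A ?_ (fun _ _ _ _ h => hinj h)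
        intro σ _
        rw [Finset.mem_coe, Finset.mem_filter, Finset.mem_range]
        exact ⟨hA1 σ, hAroot σ⟩

end Pool.Agent.TH841.PT.NRMf
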